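import Pool.Agent.Lib.MP_d237f6_co.DR.T1

/-! A rod end does not have degree five. -/

set_option autoImplicit false
set_option linter.unusedSectionVars false

namespace Pool.Agent.Dress

open Matrix Module Classical

variable {K : Type} [Field K] [CharZero K] {V : Type} [DecidableEq V] [Fintype V]

theorem A5_wedge (φ ψ z : Vec K) :
    (vecMulVec φ ψ - vecMulVec ψ φ) *ᵥ z = (ψ ⬝ᵥ z) • φ - (φ ⬝ᵥ z) • ψ := by
  ext i
  simp only [mulVec, dotProduct, Fin.sum_univ_four, Matrix.sub_apply, vecMulVec_apply,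
    Pi.sub_apply, Pi.smul_apply, smul_eq_mul]
  ring

/-- a skew matrix with two isotropic triples of points -/
theorem A5_iso (g : Gen V K) {T J : Finset V} (hT : T.card = 3) (hJ : J.card = 3)
    (hd : Disjoint T J) {a c : V} (hac : a ≠ c) (haT : a ∉ T) (hcT : c ∉ T) (haJ : a ∉ J)
    (hcJ : c ∉ J) {L : Mat K} (hL : Lᵀ = -L)
    (h1 : ∀ x ∈ T, ∀ y ∈ T, (L *ᵥ g.p x) ⬝ᵥ g.p y = 0)
    (h2 : ∀ x ∈ J, ∀ y ∈ J, (L *ᵥ g.p x) ⬝ᵥ g.p y = 0)
    (h3 : (L *ᵥ g.p a) ⬝ᵥ g.p c = 0) : L = 0 := by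
  have hne : T ≠ J := by
    rintro rfl
    rw [Finset.disjoint_self_iff_empty] at hd
    simp [hd] at hT
  obtain ⟨x, y, z, xy, xz, yz, eT⟩ := Finset.card_eq_three.1 hT
  obtain ⟨i, j, k, ij, ik, jk, eJ⟩ := Finset.card_eq_three.1 hJ
  obtain ⟨φ, f0, f1, f2, f3⟩ := exists_normal (g.p x) (g.p y) (g.p z)
  obtain ⟨ψ, g0, g1, g2, g3⟩ := exists_normal (g.p i) (g.p j) (g.p k)
  have fT : ∀ u ∈ T, φ ⬝ᵥ g.p u = 0 := by simp [eT, f1, f2, f3]
  have gJ : ∀ u ∈ J, ψ ⬝ᵥ g.p u = 0 := by simp [eJ, g1, g2, g3]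
  have iJ : i ∈ J := by simp [eJ]
  have ni : ∀ u ∈ T, u ≠ i := fun u hu e => Finset.disjoint_left.1 hd hu (e ▸ iJ)
  have fi : φ ⬝ᵥ g.p i ≠ 0 := fun e => f0 (g.cov4 xy xz (ni x (by simp [eT])) yz
    (ni y (by simp [eT])) (ni z (by simp [eT])) f1 f2 f3 e)
  obtain ⟨s, hs⟩ := normal_prop (g.li3 ij ik jk) g0 g1 g2 g3 (f' := L *ᵥ g.p i)
    (h2 i iJ i iJ) (h2 i iJ j (by simp [eJ])) (h2 i iJ k (by simp [eJ]))
  set κ := -s / (φ ⬝ᵥ g.p i) with hκ
  have key : ∀ u ∈ T, (L - κ • (vecMulVec φ ψ - vecMulVec ψ φ)) *ᵥ g.p u = 0 := by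
    intro u hu
    obtain ⟨t, ht⟩ := normal_prop (g.li3 xy xz yz) f0 f1 f2 f3 (f' := L *ᵥ g.p u)
      (h1 u hu x (by simp [eT])) (h1 u hu y (by simp [eT])) (h1 u hu z (by simp [eT]))
    have e := skew_dot hL (g.p u) (g.p i)
    rw [ht, hs, smul_dotProduct, smul_dotProduct, smul_eq_mul, smul_eq_mul] at e
    have e' : t = κ * (ψ ⬝ᵥ g.p u) := by
      rw [hκ]; field_simp; linear_combination e
    rw [sub_mulVec, smul_mulVec, A5_wedge, ht, fT u hu, zero_smul, sub_zero, smul_smul, e',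
      sub_self]
  have e0 : L - κ • (vecMulVec φ ψ - vecMulVec ψ φ) = 0 := by
    refine skew_zero ?_ (g.li3 xy xz yz) (key x (by simp [eT])) (key y (by simp [eT]))
      (key z (by simp [eT]))
    rw [transpose_sub, transpose_smul, transpose_sub, transpose_vecMulVec, transpose_vecMulVec, hL]
    simp only [smul_sub]
    abel
  rw [sub_eq_zero] at e0
  have b := g.br hT hJ hne hac haT hcT haJ hcJ f0 g0 fT gJ
  rw [e0, smul_mulVec, A5_wedge, smul_dotProduct, sub_dotProduct, smul_dotProduct,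
    smul_dotProduct, smul_eq_mul, smul_eq_mul, smul_eq_mul] at h3
  rcases mul_eq_zero.1 h3 with e | e
  · rw [e0, e, zero_smul]
  · exact absurd (by linear_combination -e) b

section

variable {g : Gen V K} {G : V → V → Prop} {ω : V → V → K} {w a c : V} {T J : Finset V} {ρ : K}

/-- the rod end follows its three further neighbours -/
theorem A5_a (h : g.Set1 G ω w a c T ρ) (hn : nb ω a = insert w (insert c J)) (hJ : J.card = 3)
    (hw : w ∉ J) {U : V → Vec K} (hU : U ∈ g.flex (del (adj ω) w)) {L : Mat K} (hL : Lᵀ = -L)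
    (hUL : ∀ j ∈ J, U j = L *ᵥ g.p j) : U a = L *ᵥ g.p a := by
  have ed : ∀ j ∈ J, dl g.p U a j = 0 := fun j hj => hU.2 a j
    ⟨mem_nb.1 (by rw [hn]; simp [hj]), h.t1.wa.symm, fun e => hw (e ▸ hj)⟩
  obtain ⟨i, j, k, ij, ik, jk, rfl⟩ := Finset.card_eq_three.1 hJ
  exact g.follow hL ij ik jk (hUL i (by simp)) (hUL j (by simp)) (hUL k (by simp)) (hU.1 a)
    (ed i (by simp)) (ed j (by simp)) (ed k (by simp))

theorem A5_x (hLC : g.StLC) (h : g.Set1 G ω w a c T ρ) (hn : nb ω a = insert w (insert c J))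
    (hJ : J.card = 3) (hw : w ∉ J) {x : V} (hx : x ∈ T) {U : V → Vec K}
    (hU : U ∈ g.flex (addT (del (adj ω) w) a c x)) {L : Mat K} (hL : Lᵀ = -L)
    (hUL : ∀ j ∈ J, U j = L *ᵥ g.p j) : U x = L *ᵥ g.p x := by
  obtain ⟨Γ, hΓ⟩ := h.gam hx
  have h0 : Γ a ≠ 0 := fun e => by
    have := hΓ.2.1
    rw [e] at this
    exact zero_ne_one this
  have sub : nb Γ a ⊆ insert x (insert c J) := fun u hu => by
    rcases h.nb_gam hΓ hu with e | e | e
    · rw [hn, Finset.mem_erase, Finset.mem_insert] at e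
      exact Finset.mem_insert_of_mem (e.2.resolve_left e.1)
    · simp [e.2]
    · exact absurd e.1 (h.ax hx)
  have c5 : (nb Γ a).card ≤ 5 := by
    have e1 := Finset.card_le_card sub
    have e2 := Finset.card_insert_le x (insert c J)
    have e3 := Finset.card_insert_le c J
    omega
  have q : g.Clq (addT (del (adj ω) w) a c x) (insert a (nb Γ a)) := by
    rcases hLC _ Γ a (h.gamK hx hΓ) h0 (by omega) with
      e | ⟨k, S₁, S₂, r₁, r₂, -, -, -, hd, c1, c2, s1, s2, -⟩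
    · exact e
    · have := Finset.card_le_card (Finset.union_subset s1 s2)
      rw [Finset.card_union_of_disjoint hd] at this
      omega
  have c2 : 1 < (nb Γ a ∩ J).card := by
    have e0 : nb Γ a ⊆ insert x (insert c (nb Γ a ∩ J)) := fun u hu => by
      have := sub hu
      simp only [Finset.mem_insert, Finset.mem_inter] at this ⊢
      tauto
    have e1 := Finset.card_le_card e0
    have e2 := Finset.card_insert_le x (insert c (nb Γ a ∩ J))
    have e3 := Finset.card_insert_le c (nb Γ a ∩ J)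
    have e4 := g.four_le hΓ.1 h0
    omega
  obtain ⟨j, hj, k, hk, jk⟩ := Finset.one_lt_card.1 c2
  rw [Finset.mem_inter] at hj hk
  have mx : x ∈ insert a (nb Γ a) :=
    Finset.mem_insert_of_mem (mem_nb.2 ⟨h.ax hx, by rw [hΓ.2.1]; exact one_ne_zero⟩)
  exact g.follow hL (mem_nb.1 hj.1).1 (mem_nb.1 hk.1).1 jk
    (A5_a h hn hJ hw (h.F_le x hU) hL hUL) (hUL j hj.2) (hUL k hk.2) (hU.1 x)
    (q x mx a (by simp) U hU) (q x mx j (by simp [hj.1]) U hU) (q x mx k (by simp [hk.1]) U hU)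

/-- the relative motion of the two triangles -/
theorem A5_lem (hLC : g.StLC) (h : g.Set1 G ω w a c T ρ) (hn : nb ω a = insert w (insert c J))
    (hJ : J.card = 3) (hw : w ∉ J) (hq : g.Clq G J) {U : V → Vec K}
    (hU : U ∈ g.flex (del (adj ω) w)) {L : Mat K} (hL : Lᵀ = -L)
    (hUL : ∀ j ∈ J, U j = L *ᵥ g.p j) {x x' : V} (hx : x ∈ T) (hx' : x' ∈ T) :
    (L *ᵥ g.p x' - U x') ⬝ᵥ g.p x = 0 := by
  by_cases hne : x = x'
  · rw [hne, sub_dotProduct, skew_self hL, hU.1, sub_self]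
  obtain ⟨U₁, a1, U₂, a2, rfl, a3⟩ := h.split hx hx' hne hU
  obtain ⟨L₁, l1, l2⟩ := g.rigX J U₁ fun y hy z hz =>
    g.clq_del h.ctx h.bad.1 h.deg hw hq y hy z hz U₁ (h.F_le x a1)
  have e1 := A5_x hLC h hn hJ hw hx a1 l1 l2
  have e2 := A5_x hLC h hn hJ hw hx' a2 (L := L - L₁)
    (by rw [transpose_sub, hL, l1]; abel) (fun j hj => by
      rw [sub_mulVec, ← hUL j hj, ← l2 j hj]; simp)
  rw [a3 x hx] at e1
  rw [Pi.add_apply, a3 x' hx', e2, zero_add, sub_mulVec, sub_sub_cancel, skew_dot l1, ← e1]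
  simp

end

theorem A5_core {g : Gen V K} (hLC : g.StLC) {G : V → V → Prop} {ω : V → V → K} {w a c : V}
    {T J : Finset V} {ρ ρ' : K} (h : g.Set1 G ω w a c T ρ) (h' : g.Set1 G ω a w c J ρ') :
    False := by
  obtain ⟨U, a1, -, a3, a4, -, -⟩ := h.exG
  have hH : ∀ v, U ∈ g.flex (del (adj ω) v) := fun v => g.flex_anti (fun _ _ e => Or.inl e.1) a1
  obtain ⟨L, l1, l2⟩ := g.rigX J U fun y hy z hz => h'.clqT y hy z hz U (hH a)
  have e1 := A5_a h h'.nbw h'.t1.card h'.t1.aT (hH w) l1 l2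
  have hd : Disjoint T J := Finset.disjoint_left.2 fun x hx hj =>
    (h.nnb hx).1 (by rw [h'.nbw]; simp [hj])
  have f := h.fr (hH w) a3
  have e0 : L = 0 := by
    refine A5_iso g h.t1.card h'.t1.card hd h.t1.ac h.t1.aT h.t1.cT h'.t1.wT h'.t1.cT l1
      (fun x hx y hy => ?_) (fun x hx y hy => ?_) ?_
    · have := A5_lem hLC h h'.nbw h'.t1.card h'.t1.aT h'.t1.lT (hH w) l1 l2 hy hx
      rwa [a3 x hx, sub_zero] at this
    · have := A5_lem hLC h' h.nbw h.t1.card h.t1.aT h.t1.lT (hH a) (L := 0) (by simp)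
        (fun j hj => by rw [a3 j hj, zero_mulVec]) hy hx
      rwa [zero_mulVec, zero_sub, neg_dotProduct, neg_eq_zero, l2 x hx] at this
    · rw [← e1, f.1, neg_dotProduct, smul_dotProduct, f.2.2.1]; simp
  rw [e0, zero_mulVec, f.1, neg_eq_zero, smul_eq_zero] at e1
  exact e1.elim h.t1.rho a4

/-- the rod can be assumed to be an edge -/
theorem A5_edge {g : Gen V K} {G : V → V → Prop} {ω : V → V → K} {w a c : V} {T : Finset V}
    {ρ : K} (h : g.Set1 G ω w a c T ρ) : ∃ ω', g.Set1 G ω' w a c T ρ ∧ c ∈ nb ω' a ∧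
      (nb ω' a).card ≤ (nb ω a).card := by
  by_cases hc : c ∈ nb ω a
  · exact ⟨ω, h, hc, le_rfl⟩
  obtain ⟨ω', u, b1, -, -, b4, b5, b6, b7, -⟩ := h.ctx.xl ω w a c ∅ h.bad h.deg h.t1.wa.symm
    h.t1.wc.symm h.t1.ac h.t1.lac hc (by simp)
  refine ⟨ω', h.keep b1 b6.le, b5, ?_⟩
  have e1 := Finset.card_le_card b7
  have e2 := Finset.card_insert_le c ((nb ω a).erase u)
  have e3 := Finset.card_erase_of_mem b4
  have e4 := Finset.card_pos.2 ⟨u, b4⟩
  omega

theorem A5_thm (g : Gen V K) (h0 : g.StLC) (h1 : g.StCl) (h2 : g.StN2) (h3 : g.StB5) :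
    g.StA5 := by
  intro G ω₀ w a c T ρ h₀ h5₀
  obtain ⟨ω, h, hc, hle⟩ := A5_edge h₀
  have h5 : (nb ω a).card = 5 := le_antisymm (h5₀ ▸ hle) (h.ctx.d5 ω a h.bad.1)
  have hw : w ∈ nb ω a := g.nb_symm h.bad.1.1 (by rw [h.nbw]; simp)
  have lw : g.Link G w c := g.link_nb h.bad.1 (by rw [h.nbw]; simp)
  have fin : ∀ c' J ρ', g.Set1 G ω a w c' J ρ' → False := fun c' J ρ' s => by
    have := hc
    rw [s.nbw, Finset.mem_insert, Finset.mem_insert] at this
    rcases this with e | e | e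
    · exact h.t1.wc e.symm
    · subst e; exact A5_core h0 h s
    · exact (s.nlG e).1 lw
  rcases h1 G ω a h.ctx h.bad h5 with s | ⟨a', c', J, ρ', s⟩
  · exact (h2 G ω a w s hw).1 h.deg
  · have := hw
    rw [s.nbw, Finset.mem_insert, Finset.mem_insert] at this
    rcases this with e | e | e
    · subst e; exact fin _ _ _ s
    · subst e; exact fin _ _ _ s.swap
    · exact h3 _ _ _ _ _ _ _ s w e h.deg

end Pool.Agent.Dress
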