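import Pool.Agent.Lib.MP_d237f6_co.DR.Gam

/-! The local analysis at a rod end of degree six. -/

set_option autoImplicit false

namespace Pool.Agent.Dress

open Matrix Module Classical

variable {K : Type} [Field K] [CharZero K] {V : Type} [DecidableEq V] [Fintype V]

namespace Gen

variable {g : Gen V K} {a c j₁ : V} {J T : Finset V} {ρ : K} {gr : Vec K} {cc ee : V → K}
  {W : Submodule K (Vec K × Vec K)}

omit [CharZero K] [Fintype V] in
theorem A6x_c (s : Vec K × Vec K) : g.eta c gr cc ee s c = (1 + gr ⬝ᵥ g.p c) • s.1 := if_pos rfl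

omit [CharZero K] [Fintype V] in
theorem A6x_add (s s' : Vec K × Vec K) (u : V) :
    g.eta c gr cc ee s u = g.eta c gr cc ee (s - s') u + g.eta c gr cc ee s' u := by
  unfold eta
  split_ifs
  · simp only [Prod.fst_sub]; module
  · simp only [Prod.fst_sub, Prod.snd_sub]; module

namespace A6D

variable (h : g.A6D a c j₁ J T ρ gr cc ee W)
include h

omit [CharZero K]

theorem ja {j : V} (hj : j ∈ J) : a ≠ j := fun e => h.aJ (e ▸ hj)
theorem jc {j : V} (hj : j ∈ J) : c ≠ j := fun e => h.cJ (e ▸ hj)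
theorem xa {x : V} (hx : x ∈ T) : a ≠ x := fun e => h.aT (e ▸ hx)
theorem xc {x : V} (hx : x ∈ T) : c ≠ x := fun e => h.cT (e ▸ hx)
theorem xj {x j : V} (hx : x ∈ T) (hj : j ∈ J) : x ≠ j :=
  fun e => Finset.disjoint_left.1 h.disj hj (e ▸ hx)

theorem ej {j : V} (hj : j ∈ J) (s : Vec K × Vec K) :
    g.eta c gr cc ee s j = cc j • s.2 + ee j • s.1 := if_neg (h.jc hj).symm

/-- prescribed values of the first component at two points -/
theorem ex2 {u v : V} (h1 : a ≠ u) (h2 : c ≠ u) (h3 : a ≠ v) (h4 : c ≠ v) (huv : u ≠ v)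
    (t t' : K) : ∃ s ∈ W, s.1 ⬝ᵥ g.p u = t ∧ s.1 ⬝ᵥ g.p v = t' := by
  obtain ⟨f, f1, f2, f3, f4⟩ := g.exists_cov4 h.ac h1 h3 h2 h4 huv 0 0 t t'
  obtain ⟨β, hβ⟩ := h.onto f f1 f2
  exact ⟨_, hβ, f3, f4⟩

/-- an element whose first component kills exactly one further point -/
theorem ex1 {u : V} (h1 : a ≠ u) (h2 : c ≠ u) : ∃ s ∈ W, s.1 ≠ 0 ∧ s.1 ⬝ᵥ g.p u = 0 ∧
    ∀ v, a ≠ v → c ≠ v → u ≠ v → s.1 ⬝ᵥ g.p v ≠ 0 := by
  obtain ⟨f, f0, f1, f2, f3⟩ := exists_normal (g.p a) (g.p c) (g.p u)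
  obtain ⟨β, hβ⟩ := h.onto f f1 f2
  exact ⟨_, hβ, f0, f3, fun v a1 a2 a3 e => f0 (g.cov4 h.ac h1 a1 h2 a2 a3 f1 f2 f3 e)⟩

theorem lp {s : Vec K × Vec K} (hs : s ∈ W) {j : V} (hj : j ∈ J) :
    cc j * (s.2 ⬝ᵥ g.p j) + ee j * (s.1 ⬝ᵥ g.p j) = 0 := by
  have := (h.loop s hs j hj).1
  rwa [h.ej hj, add_dotProduct, smul_dotProduct, smul_dotProduct] at this

theorem e0 {j : V} (hj : j ∈ J) (h0 : cc j = 0) : ee j = 0 := by
  obtain ⟨x, hx⟩ : T.Nonempty := Finset.card_pos.1 (by rw [h.cardT]; omega)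
  obtain ⟨s, hs, -, -, h3⟩ := h.ex1 (h.xa hx) (h.xc hx)
  have := h.lp hs hj
  rw [h0, zero_mul, zero_add] at this
  exact (mul_eq_zero.1 this).resolve_right (h3 j (h.ja hj) (h.jc hj) (h.xj hx hj))

theorem eta0 {j : V} (hj : j ∈ J) (h0 : cc j = 0) (s : Vec K × Vec K) :
    g.eta c gr cc ee s j = 0 := by rw [h.ej hj, h0, h.e0 hj h0]; simp

/-- splitting along two triangle vertices -/
theorem split {x x' : V} (hx : x ∈ T) (hx' : x' ∈ T) (hne : x ≠ x') (s : Vec K × Vec K) :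
    ∃ s' ∈ W, (s - s').1 ⬝ᵥ g.p x = 0 ∧ s'.1 ⬝ᵥ g.p x' = 0 := by
  obtain ⟨s', h1, h2, h3⟩ := h.ex2 (h.xa hx) (h.xc hx) (h.xa hx') (h.xc hx') hne
    (s.1 ⬝ᵥ g.p x) 0
  exact ⟨s', h1, by simp [h2], h3⟩

/-- if two ratios agree on a vector where one velocity vanishes -/
theorem same {s : Vec K × Vec K} (hs : s ∈ W) {j i : V} (hj : j ∈ J) (hi : i ∈ J)
    (h0 : g.eta c gr cc ee s j = 0) (h1 : s.1 ⬝ᵥ g.p i ≠ 0) : cc i * ee j = cc j * ee i := by
  have e1 := congrArg (fun m => m ⬝ᵥ g.p i) h0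
  simp only [h.ej hj, add_dotProduct, smul_dotProduct, smul_eq_mul, zero_dotProduct] at e1
  have e2 := h.lp hs hi
  exact mul_right_cancel₀ h1 (by linear_combination cc i * e1 - cc j * e2)

theorem dot_same {s : Vec K × Vec K} (hs : s ∈ W) {j i : V} (hj : j ∈ J) (hi : i ∈ J)
    (hc : cc i ≠ 0) (e : cc i * ee j = cc j * ee i) : g.eta c gr cc ee s j ⬝ᵥ g.p i = 0 := by
  simp only [h.ej hj, add_dotProduct, smul_dotProduct, smul_eq_mul]
  have e2 := h.lp hs hi
  exact mul_left_cancel₀ hc (by linear_combination cc j * e2 + (s.1 ⬝ᵥ g.p i) * e)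

theorem eta_same (s : Vec K × Vec K) {j i : V} (hj : j ∈ J) (hi : i ∈ J)
    (hc : cc j ≠ 0) (e : cc i * ee j = cc j * ee i) (h0 : g.eta c gr cc ee s j = 0) :
    g.eta c gr cc ee s i = 0 := by
  rw [h.ej hj] at h0
  rw [h.ej hi]
  ext k
  have := congrFun h0 k
  simp only [Pi.add_apply, Pi.smul_apply, smul_eq_mul, Pi.zero_apply] at this ⊢
  exact mul_left_cancel₀ hc (by linear_combination cc i * this - s.1 k * e)

/-- three nonzero weights with equal ratios stop everything -/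
theorem three {i j k : V} (hi : i ∈ J) (hj : j ∈ J) (hk : k ∈ J) (hij : i ≠ j) (hik : i ≠ k)
    (hjk : j ≠ k) (ci : cc i ≠ 0) (cj : cc j ≠ 0) (ck : cc k ≠ 0)
    (e1 : cc j * ee i = cc i * ee j) (e2 : cc k * ee i = cc i * ee k) {s : Vec K × Vec K}
    (hs : s ∈ W) : g.eta c gr cc ee s i = 0 := by
  have _ := ci
  exact g.cov4 (h.ja hi) (h.ja hj) (h.ja hk) hij hik hjk (h.loop s hs i hi).2 (h.loop s hs i hi).1
    (h.dot_same hs hi hj cj e1) (h.dot_same hs hi hk ck e2)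

/-- every row gives a rigid triple -/
theorem exP {x : V} (hx : x ∈ T) : ∃ P ⊆ insert c J, P.card = 3 ∧
    ∀ u ∈ P, ∀ u' ∈ P, g.Lk c gr cc ee W x u u' := by
  obtain ⟨r, r1, r2, r3, -, -, r6 | ⟨-, P, p1, p2, p3, -⟩⟩ := h.rows x hx
  · have : 3 ≤ ((insert c J).filter (fun u => r u ≠ 0)).card := by
      by_contra hh
      have z := g.dep_zero r1 (insert a (insert x ((insert c J).filter (fun u => r u ≠ 0))))
        (by
          have := Finset.card_insert_le a (insert x ((insert c J).filter (fun u => r u ≠ 0)))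
          have := Finset.card_insert_le x ((insert c J).filter (fun u => r u ≠ 0))
          omega)
        (fun u hu => by
          by_contra h0
          refine h0 (r3 u fun hm => hu ?_)
          simp only [Finset.mem_insert, Finset.mem_filter] at hm ⊢
          tauto)
      rw [z] at r2
      simp at r2
    obtain ⟨P, p1, p2⟩ := Finset.exists_subset_card_eq this
    refine ⟨P, p1.trans (Finset.filter_subset _ _), p2, fun u hu u' hu' => ?_⟩
    have a1 := Finset.mem_filter.1 (p1 hu)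
    have a2 := Finset.mem_filter.1 (p1 hu')
    exact r6 u a1.1 u' a2.1 a1.2 a2.2
  · exact ⟨P, p1, p2, p3⟩

theorem rg {x x' : V} (hx : x ∈ T) (hx' : x' ∈ T) (hne : x ≠ x') {u u' : V}
    (l1 : g.Lk c gr cc ee W x u u') (l2 : g.Lk c gr cc ee W x' u u') {s : Vec K × Vec K}
    (hs : s ∈ W) : g.eta c gr cc ee s u ⬝ᵥ g.p u' + g.eta c gr cc ee s u' ⬝ᵥ g.p u = 0 := by
  obtain ⟨s', h1, h2, h3⟩ := h.split hx hx' hne s
  have e1 := l1 _ (W.sub_mem hs h1) h2
  have e2 := l2 _ h1 h3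
  rw [A6x_add s s' u, A6x_add s s' u', add_dotProduct, add_dotProduct]
  linear_combination e1 + e2

/-- two other elements of the four -/
theorem others {i j : V} (hi : i ∈ J) (hj : j ∈ J) (hij : i ≠ j) : ∃ k ∈ J, ∃ l ∈ J,
    i ≠ k ∧ j ≠ k ∧ i ≠ l ∧ j ≠ l ∧ k ≠ l ∧ ∀ u ∈ J, u = i ∨ u = j ∨ u = k ∨ u = l := by
  have e : ((J.erase i).erase j).card = 2 := by
    rw [Finset.card_erase_of_mem (by simp [hj, hij.symm]), Finset.card_erase_of_mem hi, h.cardJ]
  obtain ⟨k, l, hkl, e'⟩ := Finset.card_eq_two.1 e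
  have hk : k ∈ (J.erase i).erase j := by simp [e']
  have hl : l ∈ (J.erase i).erase j := by simp [e']
  simp only [Finset.mem_erase] at hk hl
  refine ⟨k, hk.2.2, l, hl.2.2, hk.2.1.symm, hk.1.symm, hl.2.1.symm, hl.1.symm, hkl, fun u hu => ?_⟩
  by_cases a1 : u = i
  · exact Or.inl a1
  by_cases a2 : u = j
  · exact Or.inr (Or.inl a2)
  have : u ∈ (J.erase i).erase j := by simp [a1, a2, hu]
  rw [e'] at this
  exact Or.inr (Or.inr (by simpa using this))

/-- all weights nonzero: the ratios are distinct -/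
theorem dist (hc : ∀ j ∈ J, cc j ≠ 0) {i j : V} (hi : i ∈ J) (hj : j ∈ J) (hij : i ≠ j) :
    cc j * ee i ≠ cc i * ee j := by
  intro e
  obtain ⟨k, hk, l, hl, ik, jk, il, jl, kl, hall⟩ := h.others hi hj hij
  have key : ∀ k ∈ J, ∀ l ∈ J, i ≠ k → j ≠ k → k ≠ l → cc l * ee i = cc i * ee l := by
    intro k hk l hl ik jk kl
    obtain ⟨s, hs, -, s2, s3⟩ := h.ex1 (h.ja hk) (h.jc hk)
    refine h.same hs hi hl (g.cov4 (h.ja hi) (h.ja hj) (h.ja hk) hij ik jk (h.loop s hs i hi).2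
      (h.loop s hs i hi).1 (h.dot_same hs hi hj (hc j hj) e) ?_) (s3 l (h.ja hl) (h.jc hl) kl)
    have e2 := h.lp hs hk
    rw [s2, mul_zero, add_zero] at e2
    simp [h.ej hi, s2, (mul_eq_zero.1 e2).resolve_left (hc k hk)]
  have e1 := key l hl k hk il jl kl.symm
  have e2 := key k hk l hl ik jk kl
  obtain ⟨s, hs, u, hu, h0⟩ := h.nok
  have z := h.three hi hj hk hij ik jk (hc i hi) (hc j hj) (hc k hk) e e1 hs
  rcases hall u hu with rfl | rfl | rfl | rfl
  · exact h0 z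
  · exact h0 (h.eta_same s hi hu (hc i hi) e z)
  · exact h0 (h.eta_same s hi hu (hc i hi) e1 z)
  · exact h0 (h.eta_same s hi hu (hc i hi) e2 z)

theorem nrg (hc : ∀ j ∈ J, cc j ≠ 0) {u u' : V} (hu : u ∈ insert c J) (hu' : u' ∈ J)
    (hne : u ≠ u') (hr : ∀ s ∈ W,
      g.eta c gr cc ee s u ⬝ᵥ g.p u' + g.eta c gr cc ee s u' ⬝ᵥ g.p u = 0) : False := by
  obtain ⟨s, hs, s1, s2, s3⟩ := h.ex1 (h.ja hu') (h.jc hu')
  have e := hr s hs
  have b : s.2 ⬝ᵥ g.p u' = 0 := by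
    have e2 := h.lp hs hu'
    rw [s2, mul_zero, add_zero] at e2
    exact (mul_eq_zero.1 e2).resolve_left (hc u' hu')
  rcases Finset.mem_insert.1 hu with rfl | hu
  · rw [A6x_c, smul_dotProduct, s2, smul_zero, zero_add] at e
    obtain ⟨t, ht⟩ := normal_prop (g.li3 h.ac (h.ja hu') (h.jc hu')) s1 (h.perp s hs).1
      (h.perp s hs).2 s2 (h.loop s hs u' hu').2 e (h.loop s hs u' hu').1
    obtain ⟨i, hi, hi'⟩ : ∃ i ∈ J, i ≠ u' :=
      Finset.exists_mem_ne (by rw [h.cardJ]; omega) u'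
    obtain ⟨k, hk, l, hl, ik, jk, il, jl, kl, -⟩ := h.others hu' hi hi'.symm
    have key : ∀ k ∈ J, u' ≠ k → cc k * (t - ee u') + cc u' * ee k = 0 := by
      intro k hk hne
      have e1 := congrArg (fun m => m ⬝ᵥ g.p k) ht
      simp only [h.ej hu', add_dotProduct, smul_dotProduct, smul_eq_mul] at e1
      have e2 := h.lp hs hk
      exact mul_right_cancel₀ (s3 k (h.ja hk) (h.jc hk) hne)
        (by linear_combination cc u' * e2 - cc k * e1)
    exact h.dist hc hk hl kl (mul_left_cancel₀ (hc u' hu')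
      (by linear_combination cc l * key k hk ik - cc k * key l hl il))
  · have e1 : g.eta c gr cc ee s u ⬝ᵥ g.p u' = 0 := by simp [h.ej hu, s2, b]
    rw [e1, zero_add] at e
    simp only [h.ej hu', add_dotProduct, smul_dotProduct, smul_eq_mul] at e
    have e2 := h.lp hs hu
    exact h.dist hc hu hu' hne (mul_right_cancel₀ (s3 u (h.ja hu) (h.jc hu) hne.symm)
      (by linear_combination cc u' * e2 - cc u * e))

/-- a constant ratio is not the ratio cut out by a moving plane -/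
theorem nc (hc : ∀ j ∈ J, ∀ k, g.d a k (cc j) = 0) {x i j : V} (hx : x ∈ T) (hi : i ∈ J)
    (hj : j ∈ J) (hij : i ≠ j) (ci : cc i ≠ 0) {s : Vec K × Vec K} (hs : s ∈ W) (s1 : s.1 ≠ 0)
    (s2 : s.1 ⬝ᵥ g.p x = 0) : cc i * (s.1 ⬝ᵥ g.p j) ≠ cc j * (s.1 ⬝ᵥ g.p i) := by
  intro e
  refine s1 (g.constn a (x := g.p c) (y := g.p x) (z := cc i • g.p j - cc j • g.p i) ?_
    (g.d_ne h.ac.symm) (g.d_ne (h.xa hx).symm) (fun k => ?_) (h.perp s hs).2 s2 (by simp [e])
    (h.perp s hs).1)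
  · rw [Fintype.linearIndependent_iff]
    intro t ht
    obtain ⟨a1, a2, a3, -⟩ := g.rel4 (h.xc hx) (h.jc hj) (h.jc hi) (h.xj hx hj) (h.xj hx hi)
      hij.symm (s := t 0) (t := t 1) (r := t 2 * cc i) (q := -(t 2 * cc j)) (by
        rw [← ht]
        simp only [Fin.sum_univ_three, Matrix.cons_val_zero, Matrix.cons_val_one, Matrix.cons_val]
        module)
    intro k
    fin_cases k
    · exact a1
    · exact a2
    · exact (mul_eq_zero.1 a3).resolve_right ci
  · ext l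
    have b1 := congrFun (g.d_ne (h.ja hj).symm k) l
    have b2 := congrFun (g.d_ne (h.ja hi).symm k) l
    simp only [dv, Pi.zero_apply] at b1 b2
    simp [dv, b1, b2, hc i hi, hc j hj]

theorem lam (hc : ∀ j ∈ J, ∀ k, g.d a k (cc j) = 0) {x i j : V} (hx : x ∈ T) (hi : i ∈ J)
    (hj : j ∈ J) (ci : cc i ≠ 0) (l : g.Lk c gr cc ee W x i j) : cc j * ee i = cc i * ee j := by
  by_cases hij : i = j
  · rw [hij]
  obtain ⟨s, hs, s1, s2, -⟩ := h.ex1 (h.xa hx) (h.xc hx)
  have e := l s hs s2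
  simp only [h.ej hi, h.ej hj, add_dotProduct, smul_dotProduct, smul_eq_mul] at e
  refine sub_eq_zero.1 ((mul_eq_zero.1 ?_).resolve_right
    (sub_ne_zero.2 (h.nc hc hx hi hj hij ci hs s1 s2)))
  linear_combination cc i * cc j * e - cc i * cc i * h.lp hs hj - cc j * cc j * h.lp hs hi

theorem kap0 {x j : V} (hx : x ∈ T) (hj : j ∈ J) (cj : cc j = 0)
    (l : g.Lk c gr cc ee W x c j) : 1 + gr ⬝ᵥ g.p c = 0 := by
  obtain ⟨s, hs, -, s2, s3⟩ := h.ex1 (h.xa hx) (h.xc hx)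
  have e := l s hs s2
  rw [h.eta0 hj cj, A6x_c, zero_dotProduct, add_zero, smul_dotProduct] at e
  exact (mul_eq_zero.1 e).resolve_right (s3 j (h.ja hj) (h.jc hj) (h.xj hx hj))

/-- a member of a rigid triple is at rest -/
theorem kill (hc : ∀ j ∈ J, ∀ k, g.d a k (cc j) = 0) {x j : V} (hx : x ∈ T) {P : Finset V}
    (p1 : P ⊆ insert c J) (p2 : P.card = 3) (p3 : ∀ u ∈ P, ∀ u' ∈ P, g.Lk c gr cc ee W x u u')
    (hjP : j ∈ P) (hj : j ∈ J) {s : Vec K × Vec K} (hs : s ∈ W) (s2 : s.1 ⬝ᵥ g.p x = 0) :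
    g.eta c gr cc ee s j = 0 := by
  by_cases cj : cc j = 0
  · exact h.eta0 hj cj s
  have key : ∀ u ∈ P, ∀ u' ∈ P, j ≠ u' → u ≠ u' → g.eta c gr cc ee s j ⬝ᵥ g.p u = 0 := by
    intro u hu u' hu' n1 n2
    rcases Finset.mem_insert.1 (p1 hu) with rfl | huJ
    · have hu'J : u' ∈ J := (Finset.mem_insert.1 (p1 hu')).resolve_left n2.symm
      have k0 : 1 + gr ⬝ᵥ g.p u = 0 := by
        by_cases cu : cc u' = 0
        · exact h.kap0 hx hu'J cu (p3 _ hu _ hu')
        obtain ⟨s, hs, s1, s2, -⟩ := h.ex1 (h.xa hx) (h.xc hx)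
        have e1 := p3 _ hu _ hjP s hs s2
        have e2 := p3 _ hu _ hu' s hs s2
        simp only [A6x_c, h.ej hj, h.ej hu'J, add_dotProduct, smul_dotProduct, smul_eq_mul,
          (h.perp s hs).2] at e1 e2
        refine (mul_eq_zero.1 ?_).resolve_right (sub_ne_zero.2 (h.nc hc hx hj hu'J n1 cj hs s1 s2))
        linear_combination cc j * e2 - cc u' * e1
      have e := p3 _ hu _ hjP s hs s2
      rwa [A6x_c, k0, zero_smul, zero_dotProduct, zero_add] at e
    · by_cases cu : cc u = 0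
      · have e := p3 _ hjP _ hu s hs s2
        rwa [h.eta0 huJ cu, zero_dotProduct, add_zero] at e
      · exact h.dot_same hs hj huJ cu (h.lam hc hx hj huJ cj (p3 _ hjP _ hu))
  have e : (P.erase j).card = 2 := by rw [Finset.card_erase_of_mem hjP, p2]
  obtain ⟨u, u', huu, e'⟩ := Finset.card_eq_two.1 e
  have hu : u ∈ P.erase j := by simp [e']
  have hu' : u' ∈ P.erase j := by simp [e']
  rw [Finset.mem_erase] at hu hu'
  have na : ∀ u ∈ P, a ≠ u := fun u hu =>
    (Finset.mem_insert.1 (p1 hu)).elim (fun e => e ▸ h.ac) h.ja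
  exact g.cov4 (h.ja hj) (na u hu.2) (na u' hu'.2) hu.1.symm hu'.1.symm huu (h.loop s hs j hj).2
    (h.loop s hs j hj).1 (key u hu.2 u' hu'.2 hu'.1.symm huu)
    (key u' hu'.2 u hu.2 hu.1.symm huu.symm)

/-- a nonzero weight in a rigid triple makes all ratios equal -/
theorem alleq (hc : ∀ j ∈ J, ∀ k, g.d a k (cc j) = 0) {x j : V} (hx : x ∈ T) {P : Finset V}
    (p1 : P ⊆ insert c J) (p2 : P.card = 3) (p3 : ∀ u ∈ P, ∀ u' ∈ P, g.Lk c gr cc ee W x u u')
    (hjP : j ∈ P) (hj : j ∈ J) {i : V} (hi : i ∈ J) : cc i * ee j = cc j * ee i := by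
  obtain ⟨s, hs, -, s2, s3⟩ := h.ex1 (h.xa hx) (h.xc hx)
  exact h.same hs hj hi (h.kill hc hx p1 p2 p3 hjP hj hs s2)
    (s3 i (h.ja hi) (h.jc hi) (h.xj hx hi))

end A6D

end Gen

omit [CharZero K] in
theorem A62_thm (g : Gen V K) : g.StA62 := by
  intro a c j₁ J T ρ gr cc ee W h
  by_contra hh
  push Not at hh
  have key : ∀ x ∈ T, ∀ x' ∈ T, x ≠ x' → ∀ P P' : Finset V, P ⊆ insert c J →
      (∀ u ∈ P, ∀ u' ∈ P, g.Lk c gr cc ee W x u u') →
      (∀ u ∈ P', ∀ u' ∈ P', g.Lk c gr cc ee W x' u u') → (P ∩ P').card ≤ 1 := by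
    intro x hx x' hx' hne P P' hP l1 l2
    rw [Finset.card_le_one]
    intro u hu u' hu'
    rw [Finset.mem_inter] at hu hu'
    by_contra huu
    rcases Finset.mem_insert.1 (hP hu'.1) with e | e
    · refine h.nrg hh (hP hu'.1) ((Finset.mem_insert.1 (hP hu.1)).resolve_left
        fun e' => huu (e'.trans e.symm)) (Ne.symm huu) fun s hs => ?_
      exact h.rg hx hx' hne (l1 _ hu'.1 _ hu.1) (l2 _ hu'.2 _ hu.2) hs
    · exact h.nrg hh (hP hu.1) e huu fun s hs =>
        h.rg hx hx' hne (l1 _ hu.1 _ hu'.1) (l2 _ hu.2 _ hu'.2) hs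
  obtain ⟨x, y, z, xy, xz, yz, hT⟩ := Finset.card_eq_three.1 h.cardT
  have hx : x ∈ T := by simp [hT]
  have hy : y ∈ T := by simp [hT]
  have hz : z ∈ T := by simp [hT]
  obtain ⟨P, p1, p2, p3⟩ := h.exP hx
  obtain ⟨Q, q1, q2, q3⟩ := h.exP hy
  obtain ⟨R, r1, r2, r3⟩ := h.exP hz
  have k1 := key x hx y hy xy P Q p1 p3 q3
  have k2 := key z hz x hx xz.symm R P r1 r3 p3
  have k3 := key z hz y hy yz.symm R Q r1 r3 q3
  have c5 : (insert c J).card = 5 := by rw [Finset.card_insert_of_notMem h.cJ, h.cardJ]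
  have e1 := Finset.card_union_add_card_inter P Q
  have e2 := Finset.card_union_add_card_inter R (P ∪ Q)
  have e3 : (R ∪ (P ∪ Q)).card ≤ 5 := c5 ▸ Finset.card_le_card
    (Finset.union_subset r1 (Finset.union_subset p1 q1))
  rw [Finset.inter_union_distrib_left] at e2
  have e4 := Finset.card_union_le (R ∩ P) (R ∩ Q)
  omega

theorem A6x_sym0 {f q : Vec K} (h : ∀ k l, f l * q k + f k * q l = 0) (hq : q ≠ 0) : f = 0 := by
  obtain ⟨k, hk⟩ : ∃ k, q k ≠ 0 := by
    by_contra hh; push Not at hh; exact hq (funext hh)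
  have h1 : f k = 0 := (mul_eq_zero.1 (by linear_combination h k k / 2)).resolve_right hk
  ext l
  have := h k l
  rw [h1, zero_mul, add_zero] at this
  exact (mul_eq_zero.1 this).resolve_right hk

omit [CharZero K] in
theorem A6x_dots {f q f' q' : Vec K}
    (h : ∀ k l, f l * q k + f k * q l = f' l * q' k + f' k * q' l) (m m' : Vec K) :
    (f ⬝ᵥ m) * (q ⬝ᵥ m') + (f ⬝ᵥ m') * (q ⬝ᵥ m)
      = (f' ⬝ᵥ m) * (q' ⬝ᵥ m') + (f' ⬝ᵥ m') * (q' ⬝ᵥ m) := by
  have e : ∀ f q : Vec K, (f ⬝ᵥ m) * (q ⬝ᵥ m') + (f ⬝ᵥ m') * (q ⬝ᵥ m)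
      = ∑ k, ∑ l, m l * m' k * (f l * q k + f k * q l) := fun f q => by
    simp only [dotProduct, Fin.sum_univ_four]; ring
  simp only [e, h]

theorem A63_thm (g : Gen V K) : g.StA63 := by
  intro a c j₁ J T ρ gr cc ee W h ⟨j, hj, h0⟩
  obtain ⟨x, hx⟩ : T.Nonempty := Finset.card_pos.1 (by rw [h.cardT]; omega)
  have dp : ∀ i ∈ J, ∀ l, g.d a l (gr ⬝ᵥ g.p i) = dv (g.d a l) gr ⬝ᵥ g.p i := fun i hi l => by
    rw [d_dot, g.d_ne (h.ja hi).symm, dotProduct_zero, add_zero]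
  have hG : ∀ k, dv (g.d a k) gr = 0 := by
    obtain ⟨s, hs, s1, s2, -⟩ := h.ex1 (h.ja hj) (h.jc hj)
    have v0 := A6x_sym0 (f := fun l => g.d a l (gr ⬝ᵥ g.p j)) (fun k l => by
      have := h.snd j hj s hs k l
      simp only [h0, h.e0 hj h0, s2, map_zero, zero_mul, zero_sub, map_neg, sub_zero] at this
      linear_combination this) s1
    obtain ⟨s, hs, -, -, s3⟩ := h.ex1 (h.xa hx) (h.xc hx)
    intro l
    ext k
    have := h.snd j hj s hs k l
    have v1 : ∀ l, g.d a l (gr ⬝ᵥ g.p j) = 0 := fun l => congrFun v0 l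
    simp only [h0, h.e0 hj h0, map_zero, zero_mul, zero_sub, map_neg, sub_zero, v1, neg_zero,
      add_zero, neg_eq_zero] at this
    exact (mul_eq_zero.1 this).resolve_left (s3 j (h.ja hj) (h.jc hj) (h.xj hx hj))
  refine ⟨hG, fun i hi => ?_⟩
  have E : ∀ s ∈ W, ∀ k l, g.d a l (ee i) * s.1 k + g.d a k (ee i) * s.1 l
      = (-s.2) l * g.d a k (cc i) + (-s.2) k * g.d a l (cc i) := fun s hs k l => by
    have := h.snd i hi s hs k l
    have z : g.d a l (gr k) = 0 := congrFun (hG l) k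
    simp only [z, map_sub, dp i hi, hG, zero_dotProduct, sub_zero, mul_zero, neg_zero] at this
    simp only [Pi.neg_apply]
    linear_combination -this
  have u0 : (fun k => g.d a k (cc i)) = 0 := by
    by_contra hu
    by_cases hv : ∃ t : K, (fun k => g.d a k (ee i)) = t • fun k => g.d a k (cc i)
    · obtain ⟨t, ht⟩ := hv
      have b : ∀ s ∈ W, s.2 + t • s.1 = 0 := fun s hs => A6x_sym0 (fun k l => by
        have e := E s hs k l
        have e1 := congrFun ht k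
        have e2 := congrFun ht l
        simp only [Pi.smul_apply, smul_eq_mul, Pi.neg_apply, Pi.add_apply] at e e1 e2 ⊢
        rw [e1, e2] at e
        linear_combination e) hu
      obtain ⟨s, hs, u, hu', n0⟩ := h.nok
      obtain ⟨s', hs', -, -, s3⟩ := h.ex1 (h.xa hx) (h.xc hx)
      have e := h.lp hs' hu'
      rw [eq_neg_of_add_eq_zero_left (b s' hs'), neg_dotProduct, smul_dotProduct, smul_eq_mul] at e
      have e' : ee u = cc u * t := mul_right_cancel₀ (s3 u (h.ja hu') (h.jc hu') (h.xj hx hu'))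
        (by linear_combination e)
      apply n0
      rw [h.ej hu', eq_neg_of_add_eq_zero_left (b s hs), e']
      module
    · have b : ∀ s ∈ W, ∃ t : K, s.1 = t • fun k => g.d a k (cc i) := fun s hs =>
        ((prod_eq (f := fun k => g.d a k (ee i)) (g := s.1) (f' := -s.2)
          (A6x_dots (E s hs)) hu).resolve_left hv).imp fun t ht => ht.1
      obtain ⟨s, hs, a1, -⟩ := h.ex2 (h.ja hi) (h.jc hi) (h.xa hx) (h.xc hx) (h.xj hx hi).symm 1 0
      obtain ⟨s', hs', b1, b2⟩ := h.ex2 (h.ja hi) (h.jc hi) (h.xa hx) (h.xc hx)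
        (h.xj hx hi).symm 0 1
      obtain ⟨t, ht⟩ := b s hs
      obtain ⟨t', ht'⟩ := b s' hs'
      rw [ht, smul_dotProduct, smul_eq_mul] at a1
      rw [ht', smul_dotProduct, smul_eq_mul] at b1 b2
      rcases mul_eq_zero.1 b1 with e | e
      · simp [e] at b2
      · simp [e] at a1
  have u1 : ∀ k, g.d a k (cc i) = 0 := fun k => congrFun u0 k
  obtain ⟨s, hs, s1, -⟩ := h.ex1 (h.xa hx) (h.xc hx)
  have v0 := A6x_sym0 (f := fun k => g.d a k (ee i)) (fun k l => by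
    have := E s hs k l
    simpa only [u1, mul_zero, add_zero] using this) s1
  exact fun k => ⟨u1 k, congrFun v0 k⟩

omit [CharZero K] in
theorem A64_thm (g : Gen V K) : g.StA64 := by
  intro a c j₁ J T ρ gr cc ee W h hc h1
  obtain ⟨x, hx⟩ : T.Nonempty := Finset.card_pos.1 (by rw [h.cardT]; omega)
  obtain ⟨P, p1, p2, p3⟩ := h.exP hx
  obtain ⟨i, hiP, hi'⟩ : ∃ i ∈ P, i ∉ insert c (J.filter (fun j => cc j = 0)) := by
    by_contra hh
    push Not at hh
    have := Finset.card_le_card hh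
    have := Finset.card_insert_le c (J.filter (fun j => cc j = 0))
    omega
  simp only [Finset.mem_insert, Finset.mem_filter, not_or, not_and] at hi'
  have hi : i ∈ J := (Finset.mem_insert.1 (p1 hiP)).resolve_left hi'.1
  have ci := hi'.2 hi
  have e : ((J.filter (fun j => ¬ cc j = 0)).erase i).card = 2 := by
    have := Finset.card_filter_add_card_filter_not (s := J) (fun j => cc j = 0)
    rw [Finset.card_erase_of_mem (by simp [hi, ci])]
    rw [h.cardJ] at this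
    omega
  obtain ⟨j, k, hjk, e'⟩ := Finset.card_eq_two.1 e
  have hj : j ∈ (J.filter (fun j => ¬ cc j = 0)).erase i := by simp [e']
  have hk : k ∈ (J.filter (fun j => ¬ cc j = 0)).erase i := by simp [e']
  simp only [Finset.mem_erase, Finset.mem_filter] at hj hk
  obtain ⟨s, hs, u, hu, n0⟩ := h.nok
  exact n0 (h.eta_same s hi hu ci (h.alleq hc hx p1 p2 p3 hiP hi hu)
    (h.three hi hj.2.1 hk.2.1 hj.1.symm hk.1.symm hjk ci hj.2.2 hk.2.2
      (h.alleq hc hx p1 p2 p3 hiP hi hj.2.1) (h.alleq hc hx p1 p2 p3 hiP hi hk.2.1) hs))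

omit [CharZero K] in
theorem A65_thm (g : Gen V K) : g.StA65 := by
  intro a c j₁ J T ρ gr cc ee W h hc h2
  by_cases k0 : 1 + gr ⬝ᵥ g.p c = 0
  · have e : (J.filter (fun j => ¬ cc j = 0)).card = 2 := by
      have := Finset.card_filter_add_card_filter_not (s := J) (fun j => cc j = 0)
      rw [h.cardJ] at this
      omega
    obtain ⟨i, j, hij, e'⟩ := Finset.card_eq_two.1 e
    have hi : i ∈ J.filter (fun j => ¬ cc j = 0) := by simp [e']
    have hj : j ∈ J.filter (fun j => ¬ cc j = 0) := by simp [e']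
    simp only [Finset.mem_filter] at hi hj
    have sm : ∀ f : V → K, (∀ u ∈ J, cc u = 0 → f u = 0) → ∑ u ∈ J, f u = f i + f j := by
      intro f hf
      rw [← Finset.sum_filter_add_sum_filter_not J (fun j => cc j = 0), e', Finset.sum_pair hij,
        Finset.sum_eq_zero fun u hu => hf u (Finset.mem_filter.1 hu).1 (Finset.mem_filter.1 hu).2,
        zero_add]
    have z : ∀ x ∈ T, gr ⬝ᵥ g.p x = 0 := by
      intro x hx
      obtain ⟨r, -, -, -, r4, r5, r6⟩ := h.rows x hx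
      rw [sm _ (fun u _ h0 => by rw [h0, zero_mul])] at r4
      rw [sm _ (fun u hu h0 => by rw [h.e0 hu h0, mul_zero]), k0, zero_mul, add_zero] at r5
      by_cases ri : r i = 0
      · have rj : r j = 0 := by
          rw [ri, mul_zero, zero_add] at r4
          exact (mul_eq_zero.1 r4).resolve_left hj.2
        simpa [ri, rj] using r5
      have rj : r j ≠ 0 := fun e => ri (by
        rw [e, mul_zero, add_zero] at r4
        exact (mul_eq_zero.1 r4).resolve_left hi.2)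
      have mi : i ∈ insert c J := Finset.mem_insert_of_mem hi.1
      have mj : j ∈ insert c J := Finset.mem_insert_of_mem hj.1
      have l : cc j * ee i = cc i * ee j := by
        rcases r6 with r6 | ⟨-, P, p1, p2, p3, p4⟩
        · exact h.lam hc hx hi.1 hj.1 hi.2 (r6 i mi j mj ri rj)
        by_cases a1 : i ∈ P
        · exact h.alleq hc hx p1 p2 p3 a1 hi.1 hj.1
        by_cases a2 : j ∈ P
        · exact (h.alleq hc hx p1 p2 p3 a2 hj.1 hi.1).symm
        exact h.lam hc hx hi.1 hj.1 hi.2 (p4 i (Finset.mem_sdiff.2 ⟨mi, a1⟩) j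
          (Finset.mem_sdiff.2 ⟨mj, a2⟩))
      exact mul_left_cancel₀ hi.2 (by linear_combination cc i * r5 - ee i * r4 + r j * l)
    have := h.off gr z (by
      rw [dotProduct_add, dotProduct_smul, h.gra, smul_eq_mul]
      linear_combination ρ * k0)
    exact h.rho (by rw [← h.gra, this, zero_dotProduct])
  have key : ∀ x ∈ T, ∀ s ∈ W, s.1 ⬝ᵥ g.p x = 0 → ∀ u ∈ J, g.eta c gr cc ee s u = 0 := by
    intro x hx s hs s2 u hu
    obtain ⟨P, p1, p2, p3⟩ := h.exP hx
    obtain ⟨i, hiP, hi'⟩ : ∃ i ∈ P, i ∉ insert c (J.filter (fun j => cc j = 0)) := by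
      by_contra hh
      push Not at hh
      have e : P = insert c (J.filter (fun j => cc j = 0)) :=
        Finset.eq_of_subset_of_card_le hh (by
          have := Finset.card_insert_le c (J.filter (fun j => cc j = 0))
          omega)
      obtain ⟨j, hj⟩ : (J.filter (fun j => cc j = 0)).Nonempty := Finset.card_pos.1 (by omega)
      have hj' := Finset.mem_filter.1 hj
      exact k0 (h.kap0 hx hj'.1 hj'.2 (p3 c (by simp [e]) j (by simp [e, hj'.1, hj'.2])))
    simp only [Finset.mem_insert, Finset.mem_filter, not_or, not_and] at hi'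
    have hi : i ∈ J := (Finset.mem_insert.1 (p1 hiP)).resolve_left hi'.1
    exact h.eta_same s hi hu (hi'.2 hi) (h.alleq hc hx p1 p2 p3 hiP hi hu)
      (h.kill hc hx p1 p2 p3 hiP hi hs s2)
  obtain ⟨x, hx, x', hx', hne⟩ := Finset.one_lt_card.1 (by rw [h.cardT]; omega : 1 < T.card)
  obtain ⟨s, hs, u, hu, n0⟩ := h.nok
  obtain ⟨s', h1, a2, a3⟩ := h.split hx hx' hne s
  apply n0
  rw [Gen.A6x_add s s', key x hx _ (W.sub_mem hs h1) a2 u hu, key x' hx' _ h1 a3 u hu, add_zero]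

end Pool.Agent.Dress
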