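import Pool.Agent.Lib.MP_d237f6_co.DR.A5
import Pool.Agent.Lib.MP_d237f6_co.DR.A6x

/-! A rod end does not have degree six. -/

set_option autoImplicit false
set_option linter.unusedSectionVars false

namespace Pool.Agent.Dress

open Matrix Module Classical

variable {K : Type} [Field K] [CharZero K] {V : Type} [DecidableEq V] [Fintype V]

theorem A6_nok {g : Gen V K} (h0 : g.StA5) {G : V → V → Prop} {ω : V → V → K} {w a c : V}
    {T : Finset V} {ρ : K} (h : g.Set1 G ω w a c T ρ) (h6 : (nb ω a).card ≤ 6) :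
    g.NoK5 G ω w a := by
  intro S hS h4 hq
  obtain ⟨s, hs⟩ : S.Nonempty := Finset.card_pos.1 (by omega)
  have hS' := hS.trans (Finset.erase_subset _ _)
  obtain ⟨ω', b1, b2, b3⟩ := h.ctx.rd ω a S s h.bad.1 hS' h4 hq hs
  have e1 := h.ctx.d5 ω' a b1.1
  have e2 := Finset.card_le_card b2
  rw [Finset.card_erase_of_mem (hS' hs)] at e2
  refine h0 _ _ _ _ _ _ _ (h.keep b1 (b3 w ?_)) (by omega)
  rw [Finset.mem_insert, not_or]
  exact ⟨h.t1.wa, fun e => (Finset.mem_erase.1 (hS e)).1 rfl⟩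

theorem A6_thm (g : Gen V K) (h0 : g.StA5) (h1 : g.StA61) (h2 : g.StA62) (h3 : g.StA63)
    (h4 : g.StA64) (h5 : g.StA65) : g.StA6 := by
  intro G ω₀ w a c T ρ h₀ h6₀
  obtain ⟨ω, h, hc, hle⟩ := A5_edge h₀
  have h6 : (nb ω a).card = 6 := by
    have e1 := h.ctx.d5 ω a h.bad.1
    have e2 := h0 _ _ _ _ _ _ _ h
    omega
  obtain ⟨j₁, J, gr, cc, ee, W, D⟩ := h1 _ _ _ _ _ _ _ h h6 hc (A6_nok h0 h h6.le)
  have z := h2 _ _ _ _ _ _ _ _ _ _ D
  have cst : ∀ j ∈ J, ∀ k, g.d a k (cc j) = 0 := fun j hj k =>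
    ((h3 _ _ _ _ _ _ _ _ _ _ D z).2 j hj k).1
  have n1 := h4 _ _ _ _ _ _ _ _ _ _ D cst
  have n2 := h5 _ _ _ _ _ _ _ _ _ _ D cst
  have n0 : 0 < (J.filter (fun j => cc j = 0)).card := by
    obtain ⟨j, hj, e⟩ := z
    exact Finset.card_pos.2 ⟨j, Finset.mem_filter.2 ⟨hj, e⟩⟩
  have e := Finset.card_filter_add_card_filter_not (s := J) (fun j => cc j = 0)
  have e4 := D.cardJ
  obtain ⟨s, -, j, hj, hne⟩ := D.nok
  have cj : cc j ≠ 0 := fun e => hne (D.eta0 hj e s)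
  have one : (J.filter (fun j => ¬ cc j = 0)).card ≤ 1 := by
    have : 0 < (J.filter (fun j => ¬ cc j = 0)).card :=
      Finset.card_pos.2 ⟨j, Finset.mem_filter.2 ⟨hj, cj⟩⟩
    omega
  obtain ⟨μ, m1, m2⟩ := D.om
  rw [Finset.sum_eq_single j (fun i hi hij => ?_) (fun e => absurd hj e)] at m2
  · exact mul_ne_zero cj (m1 j hj) m2
  · have : cc i = 0 := by
      by_contra hh
      exact hij (Finset.card_le_one.1 one i (Finset.mem_filter.2 ⟨hi, hh⟩) j
        (Finset.mem_filter.2 ⟨hj, cj⟩))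
    rw [this, zero_mul]

end Pool.Agent.Dress
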