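import Pool.Agent.Lib.MP_d237f6_co.DR.T1

/-! The data at a rod end of degree six. -/

set_option autoImplicit false
set_option linter.unusedSectionVars false

namespace Pool.Agent.Dress

open Matrix Module Classical

variable {K : Type} [Field K] [CharZero K] {V : Type} [DecidableEq V] [Fintype V]

/-- the skew matrix attached to two vectors -/
def A61_lam (gr θ : Vec K) : Mat K := vecMulVec gr θ - vecMulVec θ gr

theorem A61_skew (gr θ : Vec K) : (A61_lam gr θ)ᵀ = -A61_lam gr θ := by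
  ext i j
  simp [A61_lam, vecMulVec_apply, mul_comm]

theorem A61_mul (gr θ z : Vec K) :
    A61_lam gr θ *ᵥ z = (θ ⬝ᵥ z) • gr - (gr ⬝ᵥ z) • θ := by
  ext i
  simp only [A61_lam, mulVec, dotProduct, Matrix.sub_apply, vecMulVec_apply, Pi.sub_apply,
    Pi.smul_apply, smul_eq_mul, Fin.sum_univ_four]
  ring

/-- fields of a graph vanishing on a set of vertices -/
def A61_fam (g : Gen V K) (F : V → V → Prop) (X : Finset V) : Submodule K (V → Vec K) where
  carrier := {U | U ∈ g.flex F ∧ ∀ x ∈ X, U x = 0}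
  add_mem' := fun {a b} ha hb => ⟨Submodule.add_mem _ ha.1 hb.1, fun x hx => by
    simp [ha.2 x hx, hb.2 x hx]⟩
  zero_mem' := ⟨Submodule.zero_mem _, fun _ _ => rfl⟩
  smul_mem' := fun r a ha => ⟨Submodule.smul_mem _ r ha.1, fun x hx => by simp [ha.2 x hx]⟩

/-- the edge condition at the removed rod end -/
def A61_B (g : Gen V K) (a c : V) (ρ : K) (j : V) (U : V → Vec K) : K :=
  U j ⬝ᵥ g.p a - ρ * (U c ⬝ᵥ g.p j)

theorem A61_B_lin (g : Gen V K) (a c : V) (ρ : K) (j : V) : IsLinearMap K (A61_B g a c ρ j) :=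
  ⟨fun U U' => by simp only [A61_B, Pi.add_apply, add_dotProduct]; ring,
    fun r U => by simp only [A61_B, Pi.smul_apply, smul_dotProduct, smul_eq_mul]; ring⟩

/-- the pair of vectors describing a framed flex near the rod end -/
def A61_phi (g : Gen V K) (c j₁ : V) (gr : Vec K) : (V → Vec K) →ₗ[K] Vec K × Vec K where
  toFun U := (U c, U j₁ - (U c ⬝ᵥ g.p j₁) • gr)
  map_add' U U' := by
    simp only [Pi.add_apply, add_dotProduct, add_smul, Prod.mk_add_mk, Prod.mk.injEq, true_and]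
    abel
  map_smul' r U := by
    simp only [Pi.smul_apply, smul_dotProduct, smul_eq_mul, RingHom.id_apply, Prod.smul_mk,
      smul_sub, mul_smul]

section Tools

variable {g : Gen V K} {G : V → V → Prop} {ω : V → V → K} {w a c : V} {T : Finset V} {ρ : K}

theorem A61_stab {U : V → Vec K}
    (hU : U ∈ A61_fam g (del (del (adj ω) w) a) (insert a T)) (k : Fin 4) :
    dU (g.d a k) U ∈ A61_fam g (del (del (adj ω) w) a) (insert a T) :=
  ⟨g.dU_mem (isol_del _ a) hU.1 (hU.2 a (by simp)) k, fun x hx => by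
    simp only [dU, hU.2 x hx, dv_zero]⟩

theorem A61_reset {U : V → Vec K} (hU : U ∈ A61_fam g (del (adj ω) w) T) :
    Function.update U a 0 ∈ A61_fam g (del (del (adj ω) w) a) (insert a T) :=
  ⟨g.update_mem (isol_del _ a) (g.flex_anti (fun _ _ e => Or.inl e.1) hU.1) (zero_dotProduct _),
    fun x hx => by
      by_cases e : x = a
      · simp [e]
      · simp [e, hU.2 x ((Finset.mem_insert.1 hx).resolve_left e)]⟩

/-- extension to the removed rod end -/
theorem A61_ext (h : g.Set1 G ω w a c T ρ) {U : V → Vec K}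
    (hU : U ∈ A61_fam g (del (del (adj ω) w) a) (insert a T)) {η : Vec K}
    (h1 : ∀ j ∈ (nb ω a).erase w, η ⬝ᵥ g.p j + A61_B g a c ρ j U = 0)
    (h2 : η ⬝ᵥ g.p a - ρ * (U c ⬝ᵥ g.p a) = 0) : η = 0 := by
  have e1 := g.extend_mem (isol_del (del (adj ω) w) a) hU.1 ((nb ω a).erase w)
    (by simp [mem_nb]) (ξ := η - ρ • U c) (by simpa using h2) (fun s hs => by
      have := h1 s hs
      simp only [A61_B] at this
      simp only [sub_dotProduct, smul_dotProduct, smul_eq_mul]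
      linear_combination this)
  have e2 : Function.update U a (η - ρ • U c) ∈ g.flex (del (adj ω) w) := by
    refine g.flex_anti (fun u v e => ?_) e1
    by_cases hu : u = a
    · exact Or.inl (Or.inr ⟨hu, Finset.mem_erase.2 ⟨e.2.2, mem_nb.2 (hu ▸ e.1)⟩⟩)
    by_cases hv : v = a
    · exact Or.inr (Or.inr ⟨hv, Finset.mem_erase.2
        ⟨e.2.1, g.nb_symm h.bad.1.1 (mem_nb.2 (hv ▸ e.1))⟩⟩)
    exact Or.inl (Or.inl ⟨e, hu, hv⟩)
  have e3 := (h.fr e2 (fun x hx => by simp [(h.ax hx).symm, hU.2 x (by simp [hx])])).1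
  simp only [Function.update_self, Function.update_of_ne h.t1.ac.symm] at e3
  linear_combination (exp := 1) e3

theorem A61_Bz (h : g.Set1 G ω w a c T ρ) {U : V → Vec K}
    (hU : U ∈ A61_fam g (del (adj ω) w) T) {j : V} (hj : j ∈ (nb ω a).erase w) :
    A61_B g a c ρ j (Function.update U a 0) = 0 := by
  rw [Finset.mem_erase, mem_nb] at hj
  have e := hU.1.2 a j ⟨hj.2, h.t1.wa.symm, hj.1⟩
  simp only [dl, (h.fr hU.1 hU.2).1, neg_dotProduct, smul_dotProduct, smul_eq_mul] at e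
  simp only [A61_B, Function.update_of_ne hj.2.1.symm, Function.update_of_ne h.t1.ac.symm]
  linear_combination e

theorem A61_Bc (h : g.Set1 G ω w a c T ρ) :
    ∃ U ∈ A61_fam g (del (del (adj ω) w) a) (insert a T), U c ⬝ᵥ g.p a ≠ 0 := by
  by_contra hh
  push Not at hh
  obtain ⟨U, a1, -, a3, a4, -⟩ := h.exN h.t1.wa.symm h.t1.wc.symm
  have m := A61_reset (a := a) (⟨a1, a3⟩ : U ∈ A61_fam g (del (adj ω) w) T)
  apply a4
  ext k
  have e := congrArg (g.d a k) (hh _ m)
  have e' := hh _ (A61_stab m k)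
  simp only [dU] at e'
  rw [d_dot, g.d_self, e', map_zero] at e
  simpa [Function.update_of_ne h.t1.ac.symm] using e

/-- the edge conditions span at most two dimensions -/
theorem A61_two (h : g.Set1 G ω w a c T ρ) (h6 : (nb ω a).card = 6) (hc : c ∈ nb ω a) :
    ∃ j₁ ∈ (nb ω a).erase w, ∀ U ∈ A61_fam g (del (del (adj ω) w) a) (insert a T),
      A61_B g a c ρ j₁ U = 0 → U c ⬝ᵥ g.p a = 0 →
        ∀ j ∈ (nb ω a).erase w, A61_B g a c ρ j U = 0 := by
  have hwa : w ∈ nb ω a := g.nb_symm h.bad.1.1 (by rw [h.nbw]; simp)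
  have hcm : c ∈ (nb ω a).erase w := Finset.mem_erase.2 ⟨h.t1.wc.symm, hc⟩
  by_contra hh
  push Not at hh
  obtain ⟨U₀, m0, n0⟩ := A61_Bc h
  obtain ⟨U₁, m1, -, z1, j₁, hj₁, n1⟩ := hh c hcm
  obtain ⟨U₂, m2, y2, z2, j₂, hj₂, n2⟩ := hh j₁ hj₁
  let β : (V → Vec K) → V → K := fun U u =>
    if u = a then -(ρ * (U c ⬝ᵥ g.p a)) else A61_B g a c ρ u U
  obtain ⟨lam, l0, l1⟩ := dep (K := K) (ι := Fin 3 ⊕ Fin 4) (κ := ↥(insert a ((nb ω a).erase w)))
    (by
      rw [Fintype.card_coe, Finset.card_insert_of_notMem (by simp [mem_nb]),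
        Finset.card_erase_of_mem hwa, h6]
      simp)
    (fun i u => Sum.elim (fun i => β (![U₀, U₁, U₂] i) u) (fun k => g.p u k) i)
  set U := lam (Sum.inl 0) • U₀ + lam (Sum.inl 1) • U₁ + lam (Sum.inl 2) • U₂ with hUdef
  have mU : U ∈ A61_fam g (del (del (adj ω) w) a) (insert a T) :=
    Submodule.add_mem _ (Submodule.add_mem _ (Submodule.smul_mem _ _ m0)
      (Submodule.smul_mem _ _ m1)) (Submodule.smul_mem _ _ m2)
  have k1 : ∀ j ∈ (nb ω a).erase w,
      (fun k => lam (Sum.inr k)) ⬝ᵥ g.p j + A61_B g a c ρ j U = 0 := by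
    intro j hj
    have := l1 ⟨j, Finset.mem_insert_of_mem hj⟩
    have hja : j ≠ a := (mem_nb.1 (Finset.mem_of_mem_erase hj)).1.symm
    simp only [Fintype.sum_sum_type, Sum.elim_inl, Sum.elim_inr, Fin.sum_univ_three, β, hja,
      if_false, cons_val_zero, cons_val_one, cons_val] at this
    rw [hUdef, (A61_B_lin g a c ρ j).map_add, (A61_B_lin g a c ρ j).map_add,
      (A61_B_lin g a c ρ j).map_smul, (A61_B_lin g a c ρ j).map_smul,
      (A61_B_lin g a c ρ j).map_smul]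
    simp only [smul_eq_mul, dotProduct]
    linear_combination this
  have k2 : (fun k => lam (Sum.inr k)) ⬝ᵥ g.p a - ρ * (U c ⬝ᵥ g.p a) = 0 := by
    have := l1 ⟨a, Finset.mem_insert_self _ _⟩
    simp only [Fintype.sum_sum_type, Sum.elim_inl, Sum.elim_inr, Fin.sum_univ_three, β,
      if_true, cons_val_zero, cons_val_one, cons_val] at this
    rw [hUdef]
    simp only [Pi.add_apply, Pi.smul_apply, add_dotProduct, smul_dotProduct, smul_eq_mul]
    rw [dotProduct]
    linear_combination this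
  have k3 := A61_ext h mU k1 k2
  rw [k3, zero_dotProduct, zero_sub, neg_eq_zero] at k2
  simp only [k3, zero_dotProduct, zero_add] at k1
  have t0 : lam (Sum.inl 0) = 0 := by
    have := (mul_eq_zero.1 k2).resolve_left h.t1.rho
    simp only [hUdef, Pi.add_apply, Pi.smul_apply, add_dotProduct, smul_dotProduct, smul_eq_mul,
      z1, z2, mul_zero, add_zero] at this
    exact (mul_eq_zero.1 this).resolve_right n0
  have lin : ∀ j, A61_B g a c ρ j U = lam (Sum.inl 1) * A61_B g a c ρ j U₁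
      + lam (Sum.inl 2) * A61_B g a c ρ j U₂ := fun j => by
    rw [hUdef, t0, zero_smul, zero_add, (A61_B_lin g a c ρ j).map_add,
      (A61_B_lin g a c ρ j).map_smul, (A61_B_lin g a c ρ j).map_smul, smul_eq_mul, smul_eq_mul]
  have t1 : lam (Sum.inl 1) = 0 := by
    have := k1 j₁ hj₁
    rw [lin, y2, mul_zero, add_zero] at this
    exact (mul_eq_zero.1 this).resolve_right n1
  have t2 : lam (Sum.inl 2) = 0 := by
    have := k1 j₂ hj₂
    rw [lin, t1, zero_mul, zero_add] at this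
    exact (mul_eq_zero.1 this).resolve_right n2
  apply l0
  ext i
  rcases i with i | k
  · fin_cases i
    · exact t0
    · exact t1
    · exact t2
  · exact congrFun k3 k

theorem A61_cc (h : g.Set1 G ω w a c T ρ) (h6 : (nb ω a).card = 6) (hc : c ∈ nb ω a) :
    ∃ j₁ ∈ (nb ω a).erase w, ∃ cc et : V → K, ∀ j ∈ (nb ω a).erase w,
      ∀ U ∈ A61_fam g (del (del (adj ω) w) a) (insert a T),
        A61_B g a c ρ j U = cc j * A61_B g a c ρ j₁ U + et j * (U c ⬝ᵥ g.p a) := by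
  obtain ⟨j₁, hj₁, key⟩ := A61_two h h6 hc
  have : ∀ j, ∃ s t : K, j ∈ (nb ω a).erase w →
      ∀ U ∈ A61_fam g (del (del (adj ω) w) a) (insert a T),
        A61_B g a c ρ j U = s * A61_B g a c ρ j₁ U + t * (U c ⬝ᵥ g.p a) := by
    intro j
    by_cases hj : j ∈ (nb ω a).erase w
    · obtain ⟨s, hs⟩ := la1 (A61_fam g (del (del (adj ω) w) a) (insert a T))
        (fun (i : Bool) U => if i then A61_B g a c ρ j₁ U else U c ⬝ᵥ g.p a)
        (fun i => by
          cases i
          · exact ⟨fun U U' => by simp, fun r U => by simp⟩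
          · exact A61_B_lin g a c ρ j₁) _ (A61_B_lin g a c ρ j)
        (fun U hU h0 => key U hU (h0 true) (h0 false) j hj)
      exact ⟨s true, s false, fun _ U hU => by simpa using hs U hU⟩
    · exact ⟨0, 0, fun e => absurd e hj⟩
  choose cc et hh using this
  exact ⟨j₁, hj₁, cc, et, fun j hj => hh j hj⟩

theorem A61_dB {j : V} (hj : j ≠ a) (U : V → Vec K) (k : Fin 4) :
    g.d a k (A61_B g a c ρ j U) = A61_B g a c ρ j (dU (g.d a k) U)
      + (U j k - g.grad a ρ k * (U c ⬝ᵥ g.p j)) := by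
  simp only [A61_B, map_sub, d_mul, d_dot, g.d_self, g.d_ne hj, dU, Gen.grad, dotProduct_single,
    dotProduct_zero]
  ring

theorem A61_dC (U : V → Vec K) (k : Fin 4) :
    g.d a k (U c ⬝ᵥ g.p a) = dU (g.d a k) U c ⬝ᵥ g.p a + U c k := by
  simp only [d_dot, g.d_self, dU, dotProduct_single, mul_one]

/-- first derivative of a relation between the edge conditions -/
theorem A61_d1 {j j₁ : V} (hj : j ≠ a) (hj₁ : j₁ ≠ a) {s t : K}
    (hr : ∀ U ∈ A61_fam g (del (del (adj ω) w) a) (insert a T),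
      A61_B g a c ρ j U = s * A61_B g a c ρ j₁ U + t * (U c ⬝ᵥ g.p a))
    {U : V → Vec K} (hU : U ∈ A61_fam g (del (del (adj ω) w) a) (insert a T)) (k : Fin 4) :
    U j k - g.grad a ρ k * (U c ⬝ᵥ g.p j) = s * (U j₁ k - g.grad a ρ k * (U c ⬝ᵥ g.p j₁))
      + t * U c k + g.d a k s * A61_B g a c ρ j₁ U + g.d a k t * (U c ⬝ᵥ g.p a) := by
  have e1 := congrArg (g.d a k) (hr U hU)
  have e2 := hr _ (A61_stab hU k)
  rw [map_add, d_mul, d_mul, A61_dB hj, A61_dB hj₁, A61_dC] at e1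
  linear_combination e1 - e2

/-- second derivative, on the zero set -/
theorem A61_d2 {j j₁ : V} (hj : j ≠ a) (hj₁ : j₁ ≠ a) {s t : K}
    (hr : ∀ U ∈ A61_fam g (del (del (adj ω) w) a) (insert a T),
      A61_B g a c ρ j U = s * A61_B g a c ρ j₁ U + t * (U c ⬝ᵥ g.p a))
    {U : V → Vec K} (hU : U ∈ A61_fam g (del (del (adj ω) w) a) (insert a T))
    (z1 : A61_B g a c ρ j₁ U = 0) (z2 : U c ⬝ᵥ g.p a = 0) (k l : Fin 4) :
    -((U c ⬝ᵥ g.p j - s * (U c ⬝ᵥ g.p j₁)) * g.d a l (g.grad a ρ k))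
      = g.d a l s * (U j₁ k - g.grad a ρ k * (U c ⬝ᵥ g.p j₁))
        + g.d a k s * (U j₁ l - g.grad a ρ l * (U c ⬝ᵥ g.p j₁))
        + g.d a l t * U c k + g.d a k t * U c l := by
  have e1 := congrArg (g.d a l) (A61_d1 hj hj₁ hr hU k)
  have e2 := A61_d1 hj hj₁ hr (A61_stab hU l) k
  have e3 : ∀ u, u ≠ a → g.d a l (U c ⬝ᵥ g.p u) = dU (g.d a l) U c ⬝ᵥ g.p u := fun u hu => by
    simp only [d_dot, g.d_ne hu, dU, dotProduct_zero, add_zero]
  have e4 : ∀ u i, dU (g.d a l) U u i = g.d a l (U u i) := fun _ _ => rfl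
  simp only [map_add, map_sub, d_mul, e3 j hj, e3 j₁ hj₁, A61_dB hj₁, A61_dC] at e1
  simp only [z1, z2, mul_zero] at e1
  simp only [e4] at e2
  linear_combination e1 - e2

theorem A61_gra (h : g.Set1 G ω w a c T ρ) : g.grad a ρ ⬝ᵥ g.p a = ρ := by
  obtain ⟨x, hx⟩ : T.Nonempty := Finset.card_pos.1 (by rw [h.t1.card]; omega)
  obtain ⟨Γ, hΓ⟩ := h.gam hx
  obtain ⟨U, a1, -, a3, -, -, a6⟩ := h.exN h.t1.wa.symm h.t1.wc.symm
  have n0 : dl g.p U c x ≠ 0 := by
    rw [(h.fr a1 a3).2.2.2 x hx]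
    exact a6 x (h.ax hx).symm (h.cx hx).symm (h.wx hx).symm
  have e1 := congrArg (fun m => m ⬝ᵥ g.p a) (h.row hx hΓ a1 a)
  simp only [sum_dotProduct, smul_dotProduct, neg_dotProduct, smul_eq_mul] at e1
  have e2 := g.dep_dot (hΓ.1.2 a) (U a)
  have e3 : ∑ u, Γ a u * dl g.p U a u = dl g.p U a x := by
    rw [Finset.sum_eq_single x (fun u _ hu => ?_) (by simp), hΓ.2.1, one_mul]
    by_cases h0 : Γ a u = 0
    · rw [h0, zero_mul]
    by_cases e : a = u
    · rw [← e, g.link_refl _ a U a1, mul_zero]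
    rcases h.nb_gam hΓ (mem_nb.2 ⟨e, h0⟩) with m | m | m
    · rw [Finset.mem_erase, mem_nb] at m
      rw [a1.2 a u ⟨m.2, h.t1.wa.symm, m.1⟩, mul_zero]
    · exact absurd m.2 hu
    · exact absurd m.1 (h.ax hx)
  simp only [dl, mul_add, Finset.sum_add_distrib, e1, e2] at e3
  have e4 := h.rel a1 hx
  simp only [dl] at e4 n0
  refine mul_left_cancel₀ n0 ?_
  linear_combination -e3 - e4

theorem A61_eta (h : g.Set1 G ω w a c T ρ) {j₁ : V} (hj₁ : j₁ ∈ (nb ω a).erase w)
    {cc et : V → K} (hr : ∀ j ∈ (nb ω a).erase w,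
      ∀ U ∈ A61_fam g (del (del (adj ω) w) a) (insert a T),
        A61_B g a c ρ j U = cc j * A61_B g a c ρ j₁ U + et j * (U c ⬝ᵥ g.p a))
    {U : V → Vec K} (hU : U ∈ A61_fam g (del (adj ω) w) T) {u : V} (hu : u ∈ (nb ω a).erase w) :
    U u - A61_lam (g.grad a ρ) (U c) *ᵥ g.p u = g.eta c (g.grad a ρ) cc
      (fun j => et j + g.grad a ρ ⬝ᵥ g.p j) (A61_phi g c j₁ (g.grad a ρ) U) u := by
  have na : ∀ j ∈ (nb ω a).erase w, j ≠ a := fun j hj =>
    (mem_nb.1 (Finset.mem_of_mem_erase hj)).1.symm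
  rw [A61_mul, Gen.eta]
  by_cases e : u = c
  · rw [if_pos e, e, (h.fr hU.1 hU.2).2.2.1]
    simp only [A61_phi, LinearMap.coe_mk, AddHom.coe_mk, zero_smul, zero_sub, sub_neg_eq_add,
      add_smul, one_smul]
  · rw [if_neg e]
    ext k
    have e1 := A61_d1 (na u hu) (na j₁ hj₁) (hr u hu) (A61_reset hU) k
    rw [A61_Bz h hU hj₁] at e1
    simp only [Function.update_of_ne h.t1.ac.symm, Function.update_of_ne (na u hu),
      Function.update_of_ne (na j₁ hj₁), (h.fr hU.1 hU.2).2.1] at e1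
    simp only [A61_phi, LinearMap.coe_mk, AddHom.coe_mk, Pi.sub_apply, Pi.add_apply, Pi.smul_apply,
      smul_eq_mul]
    linear_combination e1

theorem A61_etaa (h : g.Set1 G ω w a c T ρ) {U : V → Vec K}
    (hU : U ∈ A61_fam g (del (adj ω) w) T) :
    U a - A61_lam (g.grad a ρ) (U c) *ᵥ g.p a = 0 := by
  rw [A61_mul, (h.fr hU.1 hU.2).1, (h.fr hU.1 hU.2).2.1, A61_gra h]
  simp

end Tools

theorem A61_thm (g : Gen V K) (hLC : g.StLC) : g.StA61 := by
  intro G ω w a c T ρ h h6 hc hK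
  obtain ⟨j₁, hj₁, cc, et, hr⟩ := A61_cc h h6 hc
  have eta := fun U hU u hu => A61_eta h hj₁ hr (U := U) hU (u := u) hu
  have etaa := fun U hU => A61_etaa h (U := U) hU
  have gra := A61_gra h
  have snd := fun j hj U (hU : U ∈ A61_fam g (del (adj ω) w) T) =>
    A61_d2 (ρ := ρ) (mem_nb.1 (Finset.mem_of_mem_erase hj)).1.symm
      (mem_nb.1 (Finset.mem_of_mem_erase hj₁)).1.symm (hr j hj) (A61_reset hU) (A61_Bz h hU hj₁)
      (by rw [Function.update_of_ne h.t1.ac.symm]; exact (h.fr hU.1 hU.2).2.1)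
  set gr := g.grad a ρ with hgr
  set ee : V → K := fun j => et j + gr ⬝ᵥ g.p j with hee
  set J := ((nb ω a).erase w).erase c with hJ
  have hwa : w ∈ nb ω a := g.nb_symm h.bad.1.1 (by rw [h.nbw]; simp)
  have hcm : c ∈ (nb ω a).erase w := Finset.mem_erase.2 ⟨h.t1.wc.symm, hc⟩
  have hN : insert c J = (nb ω a).erase w := Finset.insert_erase hcm
  have JN : ∀ j ∈ J, j ∈ (nb ω a).erase w := fun j hj => Finset.mem_of_mem_erase hj
  have Jc : ∀ j ∈ J, j ≠ c := fun j hj => Finset.ne_of_mem_erase hj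
  have na : ∀ j ∈ (nb ω a).erase w, j ≠ a := fun j hj =>
    (mem_nb.1 (Finset.mem_of_mem_erase hj)).1.symm
  have cJ : c ∉ J := Finset.notMem_erase _ _
  have aJ : a ∉ J := fun e => na a (JN a e) rfl
  have cardJ : J.card = 4 := by
    rw [hJ, Finset.card_erase_of_mem hcm, Finset.card_erase_of_mem hwa, h6]
  have TN : ∀ x ∈ T, x ∉ (nb ω a).erase w := fun x hx e => (h.nnb hx).1 (Finset.mem_of_mem_erase e)
  have skw := fun U : V → Vec K => A61_skew gr (U c)
  have etaJ : ∀ U, ∀ j ∈ J, g.eta c gr cc ee (A61_phi g c j₁ gr U) j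
      = cc j • (A61_phi g c j₁ gr U).2 + ee j • U c := fun U j hj => by
    rw [Gen.eta, if_neg (Jc j hj)]; rfl
  have etac : ∀ U, g.eta c gr cc ee (A61_phi g c j₁ gr U) c = (1 + gr ⬝ᵥ g.p c) • U c :=
    fun U => by rw [Gen.eta, if_pos rfl]; rfl
  have loop : ∀ U ∈ A61_fam g (del (adj ω) w) T, ∀ j ∈ J,
      g.eta c gr cc ee (A61_phi g c j₁ gr U) j ⬝ᵥ g.p j = 0 ∧
      g.eta c gr cc ee (A61_phi g c j₁ gr U) j ⬝ᵥ g.p a = 0 := by
    intro U hU j hj
    have m := g.sub_skew_mem hU.1 (skw U)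
    have hj' := Finset.mem_erase.1 (JN j hj)
    have e1 := m.1 j
    have e2 := m.2 a j ⟨mem_nb.1 hj'.2, h.t1.wa.symm, hj'.1⟩
    simp only [dl, etaa U hU, zero_dotProduct, zero_add] at e1 e2
    rw [eta U hU j (JN j hj)] at e1 e2
    exact ⟨e1, e2⟩
  have GH : ∀ U, U ∈ A61_fam g (adj ω) T → U ∈ A61_fam g (del (adj ω) w) T := fun U hU =>
    ⟨g.flex_anti (fun _ _ e => Or.inl e.1) hU.1, hU.2⟩
  have nokG : ¬ ∀ U ∈ A61_fam g (adj ω) T, ∀ j ∈ J,
      g.eta c gr cc ee (A61_phi g c j₁ gr U) j = 0 := by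
    intro hh
    refine hK J (fun j hj => JN j hj) cardJ fun y hy z hz U hU => ?_
    rw [← h.ctx.span ω h.bad.1] at hU
    obtain ⟨L, hL, m1, m2⟩ := h.frame (g.flex_anti (fun _ _ e => Or.inl e.1)) hU
    have m : (fun x => U x - L *ᵥ g.p x) ∈ A61_fam g (adj ω) T := ⟨m1, m2⟩
    have key : ∀ u ∈ insert a J, (U u - L *ᵥ g.p u)
        - A61_lam gr (U c - L *ᵥ g.p c) *ᵥ g.p u = 0 := fun u hu => by
      rcases Finset.mem_insert.1 hu with e | e
      · rw [e]; exact etaa _ (GH _ m)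
      · exact (eta _ (GH _ m) u (JN u e)).trans (hh _ m u e)
    rw [← dl_sub_skew g.p U hL, ← dl_sub_skew g.p _ (A61_skew gr (U c - L *ᵥ g.p c))]
    simp only [dl, key y hy, key z hz, zero_dotProduct, add_zero]
  have NP : ∀ s t : K, (∀ U ∈ A61_fam g (adj ω) T,
      s • (A61_phi g c j₁ gr U).2 + t • U c = 0) → s = 0 ∧ t = 0 := by
    intro s t hst
    obtain ⟨U₀, a1, -, a3, a4, -, a6⟩ := h.exG
    have hs : s = 0 := by
      by_contra hs
      have e : ∀ U ∈ A61_fam g (adj ω) T, ∀ j ∈ J, g.eta c gr cc ee (A61_phi g c j₁ gr U) j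
          = (ee j - cc j * t / s) • U c := fun U hU j hj => by
        rw [etaJ U j hj]
        ext k
        have := congrFun (hst U hU) k
        simp only [Pi.add_apply, Pi.smul_apply, smul_eq_mul, Pi.zero_apply] at this ⊢
        field_simp
        linear_combination cc j * this
      refine nokG fun U hU j hj => ?_
      have e1 := (loop U₀ (GH _ ⟨a1, a3⟩) j hj).1
      rw [e U₀ ⟨a1, a3⟩ j hj, smul_dotProduct, smul_eq_mul] at e1
      rw [e U hU j hj, (mul_eq_zero.1 e1).resolve_right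
        (a6 j (na j (JN j hj)) (Jc j hj) (Finset.ne_of_mem_erase (JN j hj))), zero_smul]
    have := hst U₀ ⟨a1, a3⟩
    rw [hs, zero_smul, zero_add] at this
    exact ⟨hs, (smul_eq_zero.1 this).resolve_right a4⟩
  have sumJ : ∀ (r : V → K) (y : V) (U : V → Vec K), U ∈ A61_fam g (del (adj ω) w) T →
      y ≠ a → y ∉ (nb ω a).erase w → U y = 0 →
      (∀ u, u ∉ insert a (insert y (insert c J)) → r u = 0) →
      ∑ u, r u • (U u - A61_lam gr (U c) *ᵥ g.p u) = -((r y * U c ⬝ᵥ g.p y) • gr)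
        + ((∑ j ∈ J, cc j * r j) • (A61_phi g c j₁ gr U).2
          + (r y * gr ⬝ᵥ g.p y + (1 + gr ⬝ᵥ g.p c) * r c + ∑ j ∈ J, r j * ee j) • U c) := by
    intro r y U hU hy hy' hy0 hs
    rw [← Finset.sum_subset (Finset.subset_univ (insert a (insert y (insert c J))))
      (fun u _ hu => by rw [hs u hu, zero_smul]),
      Finset.sum_insert (by
        rw [Finset.mem_insert, hN, not_or]; exact ⟨hy.symm, fun e => na a e rfl⟩),
      Finset.sum_insert (by rw [hN]; exact hy'), Finset.sum_insert cJ, etaa U hU,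
      eta U hU c hcm, etac, Finset.sum_congr rfl (fun j hj => by
        rw [eta U hU j (JN j hj), etaJ U j hj]), hy0, A61_mul]
    simp only [smul_add, Finset.sum_add_distrib, smul_smul, ← Finset.sum_smul, mul_comm (cc _)]
    module
  refine ⟨j₁, J, gr, cc, ee, (A61_fam g (del (adj ω) w) T).map (A61_phi g c j₁ gr), cardJ,
    h.t1.card, h.t1.ac, aJ, cJ, h.t1.aT, h.t1.cT,
    Finset.disjoint_left.2 fun j hj hT => TN j hT (JN j hj), h.t1.rho, gra, h.t1.off,
    fun θ h1 h2 => ?_, ?_, ?_, ?_, ?_, fun x hx => ?_, ?_⟩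
  · obtain ⟨U, a1, -, a3, a4, -⟩ := h.onto θ h1 h2
    exact ⟨(A61_phi g c j₁ gr U).2, U, ⟨a1, a3⟩, Prod.ext a4 rfl⟩
  · rintro _ ⟨U, hU, rfl⟩
    exact ⟨(h.fr hU.1 hU.2).2.1, (h.fr hU.1 hU.2).2.2.1⟩
  · rintro _ ⟨U, hU, rfl⟩
    exact loop U hU
  · by_contra hh
    push Not at hh
    exact nokG fun U hU j hj => hh _ ⟨U, GH U hU, rfl⟩ j hj
  · refine ⟨ω a, fun j hj => (mem_nb.1 (Finset.mem_of_mem_erase (JN j hj))).2,
      (NP _ (ω a w * gr ⬝ᵥ g.p w + (1 + gr ⬝ᵥ g.p c) * ω a c + ∑ j ∈ J, ω a j * ee j)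
        fun U hU => ?_).1⟩
    have f := h.frG hU.1 hU.2
    have e1 := sumJ (ω a) w U (GH U hU) h.t1.wa (Finset.notMem_erase _ _) f.1 (fun u hu => by
      rw [hN, Finset.insert_erase hwa, Finset.mem_insert, not_or, mem_nb] at hu
      by_contra h0
      exact hu.2 ⟨Ne.symm hu.1, h0⟩)
    rw [f.2, mul_zero, zero_smul, neg_zero, zero_add] at e1
    rw [← e1]
    ext k
    have m := g.sub_skew_mem hU.1 (skw U)
    rw [h.ctx.span ω h.bad.1] at m
    have e2 := g.d_stress h.bad.1.1 a k (fun x => U x - A61_lam gr (U c) *ᵥ g.p x)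
    rw [Finset.sum_eq_zero (fun u _ => Finset.sum_eq_zero fun v _ => by
      by_cases h0 : ω u v = 0
      · rw [h0, map_zero, zero_mul]
      · rw [h.bad.1.2.1 u v h0 _ m, mul_zero])] at e2
    rw [Pi.zero_apply]
    linear_combination e2 / 2
  · obtain ⟨Γ, hΓ⟩ := h.gam hx
    have sub : nb Γ a ⊆ insert x (insert c J) := fun u hu => by
      rw [hN]
      rcases h.nb_gam hΓ hu with m | m | m
      · exact Finset.mem_insert_of_mem m
      · rw [m.2]; exact Finset.mem_insert_self _ _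
      · exact absurd m.1 (h.ax hx)
    have hs : ∀ u, u ∉ insert a (insert x (insert c J)) → Γ a u = 0 := fun u hu => by
      rw [Finset.mem_insert, not_or] at hu
      by_contra h0
      exact hu.2 (sub (mem_nb.2 ⟨Ne.symm hu.1, h0⟩))
    have c6 : (insert x (insert c J)).card = 6 := by
      rw [Finset.card_insert_of_notMem (by rw [hN]; exact TN x hx),
        Finset.card_insert_of_notMem cJ, cardJ]
    have lk : ∀ u ∈ insert c J, ∀ u' ∈ insert c J,
        g.Link (addT (del (adj ω) w) a c x) u u' → g.Lk c gr cc ee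
          ((A61_fam g (del (adj ω) w) T).map (A61_phi g c j₁ gr)) x u u' := by
      rintro u hu u' hu' hl _ ⟨U, hU, rfl⟩ h0
      have e := hl U ((h.memF hx).2 ⟨hU.1, by rw [(h.fr hU.1 hU.2).2.2.2 x hx]; exact h0⟩)
      rw [← dl_sub_skew g.p U (skw U)] at e
      rw [← eta U hU u (hN ▸ hu), ← eta U hU u' (hN ▸ hu')]
      exact e
    have key := NP (∑ j ∈ J, cc j * Γ a j)
      (Γ a x * gr ⬝ᵥ g.p x + (1 + gr ⬝ᵥ g.p c) * Γ a c + ∑ j ∈ J, Γ a j * ee j) fun U hU => by
        have hH := GH U hU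
        have e1 := sumJ (Γ a) x U hH (h.ax hx).symm (TN x hx) (hU.2 x hx) hs
        rw [h.row hx hΓ (g.sub_skew_mem hH.1 (skw U)) a, dl_sub_skew _ _ (skw U),
          (h.fr hH.1 hH.2).2.2.2 x hx, hΓ.2.1, one_mul] at e1
        rw [hΓ.2.1]
        exact (add_left_cancel (e1.symm.trans (add_zero _).symm))
    rw [hΓ.2.1, one_mul] at key
    refine ⟨Γ a, hΓ.1.2 a, hΓ.2.1, hs, key.1, key.2, ?_⟩
    have h0 : Γ a ≠ 0 := fun e => by
      have := hΓ.2.1
      rw [e] at this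
      exact zero_ne_one this
    have c7 := Finset.card_le_card sub
    rcases hLC _ Γ a (h.gamK hx hΓ) h0 (by omega) with q |
      ⟨y, S₁, S₂, r₁, r₂, -, -, -, hd, c1, c2, s1, s2, -, -, -, -, -, -, q1, q2⟩
    · refine Or.inl fun u hu u' hu' n n' => lk u hu u' hu' (q u ?_ u' ?_)
      · exact Finset.mem_insert_of_mem (mem_nb.2 ⟨(na u (hN ▸ hu)).symm, n⟩)
      · exact Finset.mem_insert_of_mem (mem_nb.2 ⟨(na u' (hN ▸ hu')).symm, n'⟩)
    · have c8 := Finset.card_union_of_disjoint hd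
      have s3 := Finset.union_subset s1 s2
      have c9 := Finset.card_le_card (s3.trans sub)
      have eq1 : S₁ ∪ S₂ = insert x (insert c J) :=
        Finset.eq_of_subset_of_card_le (s3.trans sub) (by omega)
      have fin : ∀ P Q : Finset V, P ∪ Q = insert x (insert c J) → Disjoint P Q → x ∈ Q →
          P.card = 3 → g.Clq (addT (del (adj ω) w) a c x) P →
          g.Clq (addT (del (adj ω) w) a c x) Q → ∃ P ⊆ insert c J, P.card = 3 ∧
          (∀ u ∈ P, ∀ u' ∈ P, g.Lk c gr cc ee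
            ((A61_fam g (del (adj ω) w) T).map (A61_phi g c j₁ gr)) x u u') ∧
          ∀ u ∈ insert c J \ P, ∀ u' ∈ insert c J \ P, g.Lk c gr cc ee
            ((A61_fam g (del (adj ω) w) T).map (A61_phi g c j₁ gr)) x u u' := by
        intro P Q e1 e2 e3 e4 e5 e6
        have sP : P ⊆ insert c J := fun u hu => by
          have : u ∈ insert x (insert c J) := e1 ▸ Finset.mem_union_left _ hu
          exact (Finset.mem_insert.1 this).resolve_left fun e =>
            Finset.disjoint_left.1 e2 hu (e ▸ e3)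
        have sQ : ∀ u ∈ insert c J \ P, u ∈ Q := fun u hu => by
          rw [Finset.mem_sdiff] at hu
          have : u ∈ P ∪ Q := e1 ▸ Finset.mem_insert_of_mem hu.1
          exact (Finset.mem_union.1 this).resolve_left hu.2
        exact ⟨P, sP, e4, fun u hu u' hu' => lk u (sP hu) u' (sP hu') (e5 u hu u' hu'),
          fun u hu u' hu' => lk u (Finset.mem_sdiff.1 hu).1 u' (Finset.mem_sdiff.1 hu').1
            (e6 u (sQ u hu) u' (sQ u' hu'))⟩
      have q1' := g.clq_sub q1 ((Finset.subset_insert _ _).trans (Finset.subset_insert _ _))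
      have q2' := g.clq_sub q2 ((Finset.subset_insert _ _).trans (Finset.subset_insert _ _))
      refine Or.inr ⟨fun u hu => (mem_nb.1 (s3 (eq1 ▸ Finset.mem_insert_of_mem hu))).2, ?_⟩
      have : x ∈ S₁ ∪ S₂ := eq1 ▸ Finset.mem_insert_self _ _
      rcases Finset.mem_union.1 this with e | e
      · exact fin S₂ S₁ (by rw [Finset.union_comm, eq1]) hd.symm e (by omega) q2' q1'
      · exact fin S₁ S₂ eq1 hd e (by omega) q1' q2'
  · rintro j hj _ ⟨U, hU, rfl⟩ k l
    have e := snd j (JN j hj) U hU k l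
    simp only [Function.update_of_ne h.t1.ac.symm, Function.update_of_ne (na j₁ hj₁)] at e
    simp only [A61_phi, LinearMap.coe_mk, AddHom.coe_mk, Pi.sub_apply, Pi.smul_apply,
      smul_eq_mul, hee, add_sub_cancel_right]
    linear_combination e

end Pool.Agent.Dress
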