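import Pool.Agent.Lib.MP_d237f6_co.DR.PL

/-! The row of the rod stress at a triangle vertex. -/

set_option autoImplicit false
set_option linter.unusedSectionVars false

namespace Pool.Agent.Dress

open Matrix Module Classical

variable {K : Type} [Field K] [CharZero K] {V : Type} [DecidableEq V] [Fintype V]

section Tools

variable {g : Gen V K} {G : V → V → Prop} {ω : V → V → K} {w a c : V} {T : Finset V} {ρ : K}

theorem B1_nlH (h : g.Set1 G ω w a c T ρ) {x : V} (hx : x ∈ T) :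
    ¬ g.Link (del (adj ω) w) a x ∧ ¬ g.Link (del (adj ω) w) c x := by
  obtain ⟨U, hU, b⟩ := TR_onto1 h hx
  refine ⟨fun e => ?_, fun e => ?_⟩
  · have := TR_rel h hU hx
    rw [e U hU, b, zero_add, mul_one] at this
    exact h.t1.rho this
  · rw [e U hU] at b
    exact zero_ne_one b

theorem B1_nlG (h : g.Set1 G ω w a c T ρ) {x : V} (hx : x ∈ T) :
    ¬ g.Link G a x ∧ ¬ g.Link G c x :=
  ⟨fun e => (B1_nlH h hx).1 (TR_HG h h.t1.wa.symm (TR_wx h hx).symm e),
    fun e => (B1_nlH h hx).2 (TR_HG h h.t1.wc.symm (TR_wx h hx).symm e)⟩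

theorem B1_nlF (h : g.Set1 G ω w a c T ρ) {x x' : V} (hx : x ∈ T) (hx' : x' ∈ T) (hne : x ≠ x') :
    ¬ g.Link (addT (del (adj ω) w) a c x) a x' ∧ ¬ g.Link (addT (del (adj ω) w) a c x) c x' := by
  obtain ⟨U, hU, b1, b2⟩ := TR_onto2 h hx hx' hne 0 1
  have hF := TR_memT h hx hU b1
  refine ⟨fun e => ?_, fun e => ?_⟩
  · have := TR_rel h hU hx'
    rw [e U hF, b2, zero_add, mul_one] at this
    exact h.t1.rho this
  · rw [e U hF] at b2
    exact zero_ne_one b2

/-- the framed flex that survives the two extra edges -/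
theorem B1_theta (h : g.Set1 G ω w a c T ρ) {x : V} (hx : x ∈ T) :
    ∃ U ∈ g.flex (del (adj ω) w), U ∈ g.flex (addT (del (adj ω) w) a c x) ∧ (∀ y ∈ T, U y = 0) ∧
      U c ≠ 0 ∧ U a = -(ρ • U c) ∧ ∀ y ∈ T, y ≠ x → dl g.p U c y ≠ 0 := by
  obtain ⟨x', hx', hne⟩ := TR_other h x
  obtain ⟨θ, f1, f2, f3, f4⟩ := g.exists_cov4 h.t1.ac (TR_ax h hx) (TR_ax h hx') (TR_cx h hx)
    (TR_cx h hx') hne 0 0 0 1
  obtain ⟨U, hU, -, b2, b3, b4, b5⟩ := TR_onto h f1 f2
  have h0 : θ ≠ 0 := fun e => by simp [e] at f4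
  refine ⟨U, hU, TR_memT h hx hU (by rw [b5 x hx, f3]), b2, b3 ▸ h0, b3 ▸ b4, fun y hy hyx e => ?_⟩
  rw [b5 y hy] at e
  exact h0 (g.cov4 h.t1.ac (TR_ax h hx) (TR_ax h hy) (TR_cx h hx) (TR_cx h hy) hyx.symm
    f1 f2 f3 e)

theorem B1_li (g : Gen V K) (ρ : K) {a c u u' : V} (hac : a ≠ c) (hau : a ≠ u) (hau' : a ≠ u')
    (hcu : c ≠ u) (hcu' : c ≠ u') (huu : u ≠ u') :
    LinearIndependent K ![g.p a + ρ • g.p c, g.p u, g.p u'] := by
  rw [Fintype.linearIndependent_iff]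
  intro s hs
  obtain ⟨e1, -, e2, e3⟩ := g.rel4 hac hau hau' hcu hcu' huu (s := s 0) (t := s 0 * ρ) (r := s 1)
    (q := s 2) (by rw [← hs]; simp [Fin.sum_univ_three, smul_add, smul_smul])
  intro i
  fin_cases i <;> assumption

/-- a body containing the rod and two points at rest is at rest -/
theorem B1_rod {F : V → V → Prop} {X : Finset V} (hX : g.Clq F X) {U : V → Vec K}
    (hU : U ∈ g.flex F) {u u' : V} (hac : a ≠ c) (hau : a ≠ u) (hau' : a ≠ u') (hcu : c ≠ u)
    (hcu' : c ≠ u') (huu : u ≠ u') (ha : a ∈ X) (hc : c ∈ X) (hu : u ∈ X) (hu' : u' ∈ X)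
    (e1 : U a = -(ρ • U c)) (e2 : U u = 0) (e3 : U u' = 0) : U c = 0 := by
  obtain ⟨L, hL, hUL⟩ := g.rigX X U (fun y hy z hz => hX y hy z hz U hU)
  have := skew_zero hL (B1_li g ρ hac hau hau' hcu hcu' huu)
    (by rw [mulVec_add, mulVec_smul, ← hUL a ha, ← hUL c hc, e1, neg_add_cancel])
    (by rw [← hUL u hu, e2]) (by rw [← hUL u' hu', e3])
  rw [hUL c hc, this, zero_mulVec]

/-- a point linked to three points at rest is at rest -/
theorem B1_rest {F : V → V → Prop} {U : V → Vec K} (hU : U ∈ g.flex F) {x y z t : V}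
    (hxy : x ≠ y) (hxz : x ≠ z) (hyz : y ≠ z) (e1 : U x = 0) (e2 : U y = 0) (e3 : U z = 0)
    (l1 : g.Link F t x) (l2 : g.Link F t y) (l3 : g.Link F t z) : U t = 0 := by
  have := g.follow (U := U) (L := 0) (by simp) hxy hxz hyz (by simp [e1]) (by simp [e2])
    (by simp [e3]) (hU.1 t) (l1 U hU) (l2 U hU) (l3 U hU)
  simpa using this

variable {b d e : V} {L : Finset V}

theorem B1_ne (h : g.SetB G ω w a c b d e ρ L) : b ≠ d ∧ b ≠ e ∧ d ≠ e := by
  have := h.s1.t1.card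
  refine ⟨fun k => ?_, fun k => ?_, fun k => ?_⟩
  · rw [k, Finset.insert_eq_of_mem (by simp)] at this
    have := Finset.card_le_two (a := d) (b := e); omega
  · rw [k, Finset.insert_eq_of_mem (by simp)] at this
    have := Finset.card_le_two (a := d) (b := e); omega
  · rw [k, Finset.insert_eq_of_mem (s := {e}) (by simp)] at this
    have := Finset.card_le_two (a := b) (b := e); omega

theorem B1_L (h : g.SetB G ω w a c b d e ρ L) {l : V} (hl : l ∈ L) :
    l ≠ w ∧ l ≠ a ∧ l ≠ c ∧ l ≠ b ∧ l ≠ d ∧ l ≠ e ∧ del (adj ω) w b l := by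
  have m : l ∈ (nb ω b).erase w := by rw [h.nbb]; simp [hl]
  rw [Finset.mem_erase, mem_nb] at m
  have k := g.link_symm (h.s1.bad.1.2.1 b l m.2.2)
  have hb : b ∈ ({b, d, e} : Finset V) := by simp
  exact ⟨m.1, fun q => (B1_nlG h.s1 hb).1 (q ▸ k), fun q => (B1_nlG h.s1 hb).2 (q ▸ k),
    m.2.1.symm, fun q => h.dL (q ▸ hl), fun q => h.eL (q ▸ hl), m.2, (TR_wx h.s1 hb).symm, m.1⟩

theorem B1_nb (h : g.SetB G ω w a c b d e ρ L) {Γ : V → V → K}
    (hΓ : g.IsGam (del (adj ω) w) a c b ρ Γ) :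
    nb Γ b ⊆ insert d (insert e (insert a (insert c L))) := by
  intro u hu
  rw [mem_nb] at hu
  have hb : b ∈ ({b, d, e} : Finset V) := by simp
  have key : u ∈ (nb ω b).erase w → u ∈ insert d (insert e (insert a (insert c L))) := by
    rw [h.nbb]
    simp only [Finset.mem_insert]
    tauto
  rcases hΓ.2.2.2 b u hu.1 hu.2 with (k | k | k) | (k | k | k)
  · exact key (Finset.mem_erase.2 ⟨k.2.2, mem_nb.2 k.1⟩)
  · exact absurd k.1.symm (TR_ax h.s1 hb)
  · exact absurd k.1.symm (TR_cx h.s1 hb)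
  · exact key (Finset.mem_erase.2 ⟨k.2.1, mem_nb.2 ⟨hu.1, by
      rw [h.s1.bad.1.1.1]; exact k.1.2⟩⟩)
  · simp [k.1]
  · simp [k.1]

theorem B1_two (h : g.SetB G ω w a c b d e ρ L) {Γ : V → V → K}
    (hΓ : g.IsGam (del (adj ω) w) a c b ρ Γ) {k x : V} {S₁ S₂ : Finset V} {r₁ r₂ : V → K}
    (hx : x ∈ ({d, e} : Finset V)) (hxS : x ∈ S₂) (kb : k ≠ b) (k1 : k ∉ S₁)
    (hd : Disjoint S₁ S₂) (c1 : 3 ≤ S₁.card) (c2 : 3 ≤ S₂.card) (s1 : S₁ ⊆ nb Γ b)
    (s2 : S₂ ⊆ nb Γ b) (s3 : nb Γ b ⊆ insert k (S₁ ∪ S₂)) (d1 : g.Dep r₁) (hr : Γ b = r₁ + r₂)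
    (z1 : ∀ u, u ∉ insert b (insert k S₁) → r₁ u = 0)
    (z2 : ∀ u, u ∉ insert b (insert k S₂) → r₂ u = 0)
    (q1 : g.Clq (addT (del (adj ω) w) a c b) (insert b (insert k S₁)))
    (q2 : g.Clq (addT (del (adj ω) w) a c b) (insert b (insert k S₂))) :
    ∃ (u u' : V) (α : V → K), u ≠ u' ∧ u ∈ L ∧ u' ∉ ({a, c, b} : Finset V) ∧ g.Dep α ∧ α a = 1 ∧
      α c = ρ ∧ (∀ y, y ∉ ({a, c, b, u, u'} : Finset V) → α y = 0) ∧
      g.Clq (addT (del (adj ω) w) a c b) {a, c, b, u, u'} ∧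
      (u' ∈ L ∨ ∃ x ∈ ({d, e} : Finset V), L.card = 3 ∧
        g.Clq (addT (del (adj ω) w) a c b) (insert x (L.erase u))) := by
  obtain ⟨bd, be, de⟩ := B1_ne h
  have hb : b ∈ ({b, d, e} : Finset V) := by simp
  have hT : ∀ y ∈ ({d, e} : Finset V), y ∈ ({b, d, e} : Finset V) ∧ b ≠ y := fun y hy =>
    ⟨Finset.mem_insert_of_mem hy, fun q => by
      rw [← q] at hy; simp [bd, be] at hy⟩
  have nl := fun y hy => B1_nlF h.s1 hb (hT y hy).1 (hT y hy).2
  have ab := TR_ax h.s1 hb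
  have cb := TR_cx h.s1 hb
  have ga : Γ b a = 1 := by rw [hΓ.1.1, hΓ.2.1]
  have gc : Γ b c = ρ := by rw [hΓ.1.1, hΓ.2.2.1]
  have a2 : a ∉ insert b (insert k S₂) := fun m => (nl x hx).1 (q2 a m x (by simp [hxS]))
  have c2' : c ∉ insert b (insert k S₂) := fun m => (nl x hx).2 (q2 c m x (by simp [hxS]))
  have a1 : a ∈ S₁ := by
    have := s3 (mem_nb.2 ⟨ab.symm, by rw [ga]; exact one_ne_zero⟩)
    simp only [Finset.mem_insert, Finset.mem_union, not_or] at this a2
    tauto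
  have c1' : c ∈ S₁ := by
    have := s3 (mem_nb.2 ⟨cb.symm, by rw [gc]; exact h.s1.t1.rho⟩)
    simp only [Finset.mem_insert, Finset.mem_union, not_or] at this c2'
    tauto
  have y1 : ∀ y ∈ ({d, e} : Finset V), y ∉ insert b (insert k S₁) := fun y hy m =>
    (nl y hy).1 (q1 a (by simp [a1]) y m)
  have ka : a ≠ k := fun q => k1 (q ▸ a1)
  have kc : c ≠ k := fun q => k1 (q ▸ c1')
  have one : ¬ (d ∈ S₂ ∧ e ∈ S₂) := by
    rintro ⟨m1, m2⟩
    obtain ⟨U, -, hF, b1, b2, b3, -⟩ := B1_theta h.s1 hb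
    have uk : U k = 0 := B1_rest hF bd be de (b1 b hb) (b1 d (by simp)) (b1 e (by simp))
      (q2 k (by simp) b (by simp)) (q2 k (by simp) d (by simp [m1])) (q2 k (by simp) e (by simp [m2]))
    exact b2 (B1_rod q1 hF h.s1.t1.ac ab ka cb kc kb.symm (by simp [a1]) (by simp [c1'])
      (by simp) (by simp) b3 (b1 b hb) uk)
  have t1 : S₁ ⊆ insert a (insert c (S₁ ∩ L)) := fun y hy => by
    have m := B1_nb h hΓ (s1 hy)
    have m1 : y ≠ d := fun q => y1 d (by simp) (by simp [← q, hy])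
    have m2 : y ≠ e := fun q => y1 e (by simp) (by simp [← q, hy])
    simp only [Finset.mem_insert, Finset.mem_inter] at m ⊢
    tauto
  have t2 : S₂ ⊆ insert x (S₂ ∩ L) := fun y hy => by
    have m := B1_nb h hΓ (s2 hy)
    have m1 : y ≠ a := fun q => a2 (by simp [← q, hy])
    have m2 : y ≠ c := fun q => c2' (by simp [← q, hy])
    simp only [Finset.mem_insert, Finset.mem_inter, Finset.mem_singleton] at m hx ⊢
    rcases m with m | m | m | m | m
    · rcases hx with q | q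
      · exact Or.inl (m.trans q.symm)
      · exact absurd ⟨m ▸ hy, q ▸ hxS⟩ one
    · rcases hx with q | q
      · exact absurd ⟨q ▸ hxS, m ▸ hy⟩ one
      · exact Or.inl (m.trans q.symm)
    · exact absurd m m1
    · exact absurd m m2
    · exact Or.inr ⟨hy, m⟩
  have n1 := Finset.card_le_card t1
  have n2 := Finset.card_le_card t2
  have n3 := Finset.card_insert_le a (insert c (S₁ ∩ L))
  have n4 := Finset.card_insert_le c (S₁ ∩ L)
  have n5 := Finset.card_insert_le x (S₂ ∩ L)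
  have hd' : Disjoint (S₁ ∩ L) (S₂ ∩ L) :=
    hd.mono Finset.inter_subset_left Finset.inter_subset_left
  have sub : S₁ ∩ L ∪ S₂ ∩ L ⊆ L :=
    Finset.union_subset Finset.inter_subset_right Finset.inter_subset_right
  have n6 := Finset.card_le_card sub
  rw [Finset.card_union_of_disjoint hd'] at n6
  have n7 := h.cardL
  obtain ⟨u, hu⟩ := Finset.card_eq_one.1 (by omega : (S₁ ∩ L).card = 1)
  have mu : u ∈ S₁ ∩ L := by rw [hu]; simp
  rw [Finset.mem_inter] at mu
  have eq := Finset.eq_of_subset_of_card_le sub (by rw [Finset.card_union_of_disjoint hd']; omega)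
  rw [hu] at t1
  refine ⟨u, k, r₁, fun q => k1 (q ▸ mu.1), mu.2, by simp [ka.symm, kc.symm, kb], d1, ?_, ?_,
    fun y hy => z1 y fun m => hy ?_, g.clq_sub q1 ?_,
    Or.inr ⟨x, hx, by omega, g.clq_sub q2 fun y hy => ?_⟩⟩
  · have := congrFun hr a
    rw [ga, Pi.add_apply, z2 a a2, add_zero] at this
    exact this.symm
  · have := congrFun hr c
    rw [gc, Pi.add_apply, z2 c c2', add_zero] at this
    exact this.symm
  · have := @t1 y
    simp only [Finset.mem_insert, Finset.mem_singleton] at m this ⊢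
    tauto
  · intro y hy
    simp only [Finset.mem_insert, Finset.mem_singleton] at hy ⊢
    rcases hy with q | q | q | q | q <;> simp [q, a1, c1', mu.1]
  · rcases Finset.mem_insert.1 hy with q | q
    · simp [q, hxS]
    · rw [Finset.mem_erase, ← eq, hu, Finset.mem_union, Finset.mem_singleton,
        Finset.mem_inter] at q
      simp [(q.2.resolve_left q.1).1]

end Tools

theorem B1_thm (g : Gen V K) (hLC : g.StLC) : g.StB1 := by
  intro G ω w a c b d e ρ L h
  obtain ⟨bd, be, de⟩ := B1_ne h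
  have hb : b ∈ ({b, d, e} : Finset V) := by simp
  obtain ⟨Γ, hΓ⟩ := TR_gam h.s1 hb
  have ab := TR_ax h.s1 hb
  have cb := TR_cx h.s1 hb
  have ga : Γ b a = 1 := by rw [hΓ.1.1, hΓ.2.1]
  have gc : Γ b c = ρ := by rw [hΓ.1.1, hΓ.2.2.1]
  have h0 : Γ b ≠ 0 := fun q => by simp [q] at ga
  have ma : a ∈ nb Γ b := mem_nb.2 ⟨ab.symm, by rw [ga]; exact one_ne_zero⟩
  have mc : c ∈ nb Γ b := mem_nb.2 ⟨cb.symm, by rw [gc]; exact h.s1.t1.rho⟩
  have sub := B1_nb h hΓ
  have n1 := Finset.card_insert_le d (insert e (insert a (insert c L)))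
  have n2 := Finset.card_insert_le e (insert a (insert c L))
  have n3 := Finset.card_insert_le a (insert c L)
  have n4 := Finset.card_insert_le c L
  have n5 := h.cardL
  have n6 := Finset.card_le_card sub
  rcases hLC _ Γ b (TR_KK h.s1 hb hΓ) h0 (by omega) with q |
    ⟨k, S₁, S₂, r₁, r₂, kb, k1, k2, hd, c1, c2, s1, s2, s3, d1, d2, hr, z1, z2, q1, q2⟩
  · have t1 : nb Γ b ⊆ insert a (insert c (nb Γ b ∩ L)) := fun y hy => by
      have m := sub hy
      have m1 : y ≠ d := fun k => (B1_nlF h.s1 hb (by simp) bd).1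
        (q a (by simp [ma]) d (by simp [← k, hy]))
      have m2 : y ≠ e := fun k => (B1_nlF h.s1 hb (by simp) be).1
        (q a (by simp [ma]) e (by simp [← k, hy]))
      simp only [Finset.mem_insert, Finset.mem_inter] at m ⊢
      tauto
    have m1 := Finset.card_le_card t1
    have m2 := Finset.card_insert_le a (insert c (nb Γ b ∩ L))
    have m3 := Finset.card_insert_le c (nb Γ b ∩ L)
    have m4 := TR_four hΓ.1 h0
    have m5 := Finset.card_le_card (Finset.inter_subset_right (s₁ := nb Γ b) (s₂ := L))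
    by_cases h3 : (nb Γ b ∩ L).card = 2
    · obtain ⟨u, u', huu, hu⟩ := Finset.card_eq_two.1 h3
      have mu : u ∈ nb Γ b ∩ L := by rw [hu]; simp
      have mu' : u' ∈ nb Γ b ∩ L := by rw [hu]; simp
      rw [Finset.mem_inter] at mu mu'
      obtain ⟨-, v1, v2, v3, -⟩ := B1_L h mu'.2
      rw [hu] at t1
      refine Or.inr ⟨u, u', Γ b, huu, mu.2, by simp [v1, v2, v3], hΓ.1.2 b, ga, gc,
        fun y hy => ?_, g.clq_sub q fun y hy => ?_, Or.inl mu'.2⟩
      · by_contra hh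
        have := fun k => t1 (mem_nb.2 ⟨k, hh⟩)
        simp only [Finset.mem_insert, Finset.mem_singleton, not_or] at hy this
        have := this (Ne.symm hy.2.2.1)
        tauto
      · simp only [Finset.mem_insert, Finset.mem_singleton] at hy ⊢
        rcases hy with k | k | k | k | k <;> simp [k, ma, mc, mu.1, mu'.1]
    · have eq := Finset.eq_of_subset_of_card_le
        (Finset.inter_subset_right (s₁ := nb Γ b) (s₂ := L)) (by omega)
      refine Or.inl ⟨by omega, g.clq_sub q fun y hy => ?_⟩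
      simp only [Finset.mem_insert] at hy ⊢
      rcases hy with k | k | k | k
      · exact Or.inl k
      · exact Or.inr (k ▸ ma)
      · exact Or.inr (k ▸ mc)
      · rw [← eq] at k
        exact Or.inr (Finset.mem_inter.1 k).1
  · obtain ⟨x, hx, hxS⟩ : ∃ x ∈ ({d, e} : Finset V), x ∈ S₁ ∪ S₂ := by
      by_contra hh
      push Not at hh
      have : S₁ ∪ S₂ ⊆ insert a (insert c L) := fun y hy => by
        have m := sub (Finset.union_subset s1 s2 hy)
        have m1 : y ≠ d := fun k => hh d (by simp) (k ▸ hy)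
        have m2 : y ≠ e := fun k => hh e (by simp) (k ▸ hy)
        simp only [Finset.mem_insert] at m ⊢
        tauto
      have m := Finset.card_le_card this
      rw [Finset.card_union_of_disjoint hd] at m
      omega
    rcases Finset.mem_union.1 hxS with m | m
    · exact Or.inr (B1_two h hΓ hx m kb k2 hd.symm c2 c1 s2 s1 (by rwa [Finset.union_comm]) d2
        (by rw [hr, add_comm]) z2 z1 q2 q1)
    · exact Or.inr (B1_two h hΓ hx m kb k1 hd c1 c2 s1 s2 s3 d1 hr z1 z2 q1 q2)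

end Pool.Agent.Dress
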