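import Pool.Agent.Lib.MP_d237f6_co.DR.B1

/-! The turning ratio does not depend on a triangle vertex of small degree. -/

set_option autoImplicit false
set_option linter.unusedSectionVars false

namespace Pool.Agent.Dress

open Matrix Module Classical

variable {K : Type} [Field K] [CharZero K] {V : Type} [DecidableEq V] [Fintype V]

theorem B2_thm (g : Gen V K) (h1 : g.StTR) (h2 : g.StB1) : g.StB2 := by
  intro G ω w a c b d e ρ L h
  obtain ⟨bd, be, de⟩ := B1_ne h
  have hb : b ∈ ({b, d, e} : Finset V) := by simp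
  have hd : d ∈ ({b, d, e} : Finset V) := by simp
  have he : e ∈ ({b, d, e} : Finset V) := by simp
  have ab := TR_ax h.s1 hb
  have cb := TR_cx h.s1 hb
  have wb := TR_wx h.s1 hb
  by_contra g0
  obtain ⟨Γ, hΓ⟩ := TR_gam h.s1 hd
  obtain ⟨Γ', hΓ'⟩ := TR_gam h.s1 he
  have n5 : ((nb ω b).erase w).card ≤ 5 := by
    have n1 := Finset.card_insert_le d (insert e L)
    have n2 := Finset.card_insert_le e L
    have n3 := h.cardL
    rw [h.nbb]; omega
  obtain ⟨Δ, s, s', d3, hss, hs, hs', eN, eS, eS', q, -, g1, g2, g3, key⟩ :=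
    h1 G ω w a c _ ρ h.s1 d hd e he de b wb.symm ab.symm cb.symm bd be Γ Γ' hΓ hΓ'
      (fun k => g0 (TR_grad0 h.s1 hd hΓ k)) (fun k => g0 (TR_grad0 h.s1 he hΓ' k)) n5 h.nok
  have mN : ∀ y, y ∈ insert s (insert s' Δ) → y ≠ w ∧ b ≠ y := fun y hy => by
    rw [← eN, Finset.mem_erase, mem_nb] at hy
    exact ⟨hy.1, hy.2.1⟩
  have mΔ : ∀ y ∈ Δ, y ≠ w ∧ b ≠ y := fun y hy => mN y (by simp [hy])
  have bs := (mN s (by simp)).2
  have bs' := (mN s' (by simp)).2
  have gs : Γ b s ≠ 0 := (mem_nb.1 (show s ∈ nb Γ b by rw [eS]; simp)).2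
  have gs' : Γ' b s' ≠ 0 := (mem_nb.1 (show s' ∈ nb Γ' b by rw [eS']; simp)).2
  have wΔ : ∀ y ∈ insert b Δ, y ≠ w := fun y hy =>
    (Finset.mem_insert.1 hy).elim (fun k => k ▸ wb.symm) fun k => (mΔ y k).1
  have fr : ∀ U ∈ g.flex (del (adj ω) w), ∃ M : Mat K, Mᵀ = -M ∧
      (∀ u ∈ insert b Δ, U u = M *ᵥ g.p u) ∧
      Γ b s • (U s - M *ᵥ g.p s) = -(dl g.p U c d • g.grad b ρ) ∧
      Γ' b s' • (U s' - M *ᵥ g.p s') = -(dl g.p U c e • g.grad b ρ) := fun U hU => by
    obtain ⟨M, hM, hUM⟩ := g.rigX _ U (fun y hy z hz =>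
      TR_HG h.s1 (wΔ y hy) (wΔ z hz) (q y hy z hz) U hU)
    exact ⟨M, hM, hUM, key U hU M hM hUM⟩
  have eL : insert s (insert s' Δ) = insert d (insert e L) := by rw [← eN, h.nbb]
  have lde : g.Link (del (adj ω) w) d e :=
    TR_HG h.s1 (TR_wx h.s1 hd).symm (TR_wx h.s1 he).symm (h.s1.t1.lT d hd e he)
  have NL : ∀ t, t = s ∨ t = s' → ∀ y ∈ Δ, ¬ g.Link (del (adj ω) w) t y := by
    intro t ht y hy lk
    obtain ⟨U, hU, u1, u2⟩ := TR_onto2 h.s1 hd he de 1 1
    obtain ⟨M, hM, hUM, k1, k2⟩ := fr U hU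
    have e1 := lk _ (g.sub_skew_mem hU hM)
    simp only [dl, hUM y (by simp [hy]), sub_self, zero_dotProduct, add_zero] at e1
    have e2 : g.grad b ρ ⬝ᵥ g.p y = 0 := by
      rcases ht with rfl | rfl
      · have := congrArg (fun m => m ⬝ᵥ g.p y) k1
        simpa [u1, e1, -sub_dotProduct] using this.symm
      · have := congrArg (fun m => m ⬝ᵥ g.p y) k2
        simpa [u2, e1, -sub_dotProduct] using this.symm
    exact g0 (g.cov4 bs bs' (mΔ y hy).2 hss (fun k => hs (k ▸ hy)) (fun k => hs' (k ▸ hy))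
      g1 g2 g3 e2)
  have md : d = s ∨ d = s' ∨ d ∈ Δ := by
    have : d ∈ insert s (insert s' Δ) := by rw [eL]; simp
    simpa using this
  have me : e = s ∨ e = s' ∨ e ∈ Δ := by
    have : e ∈ insert s (insert s' Δ) := by rw [eL]; simp
    simpa using this
  have c5 : (insert s (insert s' Δ)).card = 5 := by
    rw [Finset.card_insert_of_notMem (by simp [hss, hs]), Finset.card_insert_of_notMem hs', d3]
  have cL : L.card = 3 := by
    rw [eL, Finset.card_insert_of_notMem (by simp [de, h.dL]),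
      Finset.card_insert_of_notMem h.eL] at c5
    omega
  have mL : ∀ y, y ∈ L ↔ (y = s ∨ y = s' ∨ y ∈ Δ) ∧ y ≠ d ∧ y ≠ e := fun y => by
    have k1 : y ∈ insert s (insert s' Δ) ↔ y ∈ insert d (insert e L) := by rw [eL]
    simp only [Finset.mem_insert] at k1
    refine ⟨fun k => ⟨k1.2 (by simp [k]), fun r => h.dL (r ▸ k), fun r => h.eL (r ▸ k)⟩,
      fun k => ?_⟩
    exact ((k1.1 k.1).resolve_left k.2.1).resolve_left k.2.2
  obtain ⟨U, hU, hF, b1, b2, b3, b4⟩ := B1_theta h.s1 hb
  obtain ⟨M, hM, hUM, k1, k2⟩ := fr U hU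
  have mv : ∀ t, t = s ∨ t = s' → U t ≠ M *ᵥ g.p t := by
    rintro t (rfl | rfl) k
    · rw [k, sub_self, smul_zero, eq_comm, neg_eq_zero, smul_eq_zero] at k1
      exact k1.elim (b4 d hd bd.symm) g0
    · rw [k, sub_self, smul_zero, eq_comm, neg_eq_zero, smul_eq_zero] at k2
      exact k2.elim (b4 e he be.symm) g0
  have lb : ∀ l ∈ L, g.Link (addT (del (adj ω) w) a c b) l b := fun l hl =>
    g.link_symm (g.link_of (Or.inl (B1_L h hl).2.2.2.2.2.2))
  by_cases dΔ : d ∈ Δ
  · have eΔ : e ∈ Δ := by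
      by_contra k
      exact NL e (me.imp_right fun r => r.resolve_right k) d dΔ (g.link_symm lde)
    have fz : ∀ U' : V → Vec K, (∀ y ∈ ({b, d, e} : Finset V), U' y = 0) → ∀ M' : Mat K,
        M'ᵀ = -M' → (∀ u ∈ insert b Δ, U' u = M' *ᵥ g.p u) → M' = 0 := fun U' r M' r1 r2 =>
      skew_zero r1 (g.li3 bd be de) (by rw [← r2 b (by simp), r b hb])
        (by rw [← r2 d (by simp [dΔ]), r d hd]) (by rw [← r2 e (by simp [eΔ]), r e he])
    have M0 := fz U b1 M hM hUM
    obtain ⟨l, hl, ld, le⟩ : ∃ l ∈ Δ, l ≠ d ∧ l ≠ e := by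
      by_contra k
      push Not at k
      have : Δ ⊆ {d, e} := fun y hy => by
        by_cases r : y = d
        · simp [r]
        · simp [k y hy r]
      have r1 := Finset.card_le_card this
      have r2 := Finset.card_le_two (a := d) (b := e)
      omega
    have eΔ' : Δ = {d, e, l} := (Finset.eq_of_subset_of_card_le (fun y hy => by
      simp only [Finset.mem_insert, Finset.mem_singleton] at hy
      rcases hy with rfl | rfl | rfl <;> assumption)
      (by rw [d3, Finset.card_eq_three.2 ⟨d, e, l, de, ld.symm, le.symm, rfl⟩])).symm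
    have lL : l ∈ L := (mL l).2 ⟨by simp [hl], ld, le⟩
    obtain ⟨-, la, lc, lb', -⟩ := B1_L h lL
    have Ul : U l = 0 := by rw [hUM l (by simp [hl]), M0, zero_mulVec]
    have no : ∀ X, g.Clq (addT (del (adj ω) w) a c b) X → a ∈ X → c ∈ X → b ∈ X → l ∉ X :=
      fun X r r1 r2 r3 r4 => b2 (B1_rod r hF h.s1.t1.ac ab la.symm cb lc.symm lb'.symm r1 r2 r3 r4
        b3 (b1 b hb) Ul)
    have oL : ∀ y ∈ L, y ≠ l → y = s ∨ y = s' := fun y hy r => by
      have := (mL y).1 hy
      rw [eΔ'] at this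
      simp only [Finset.mem_insert, Finset.mem_singleton] at this
      exact this.1.imp_right fun k => k.resolve_right fun k' =>
        k'.elim this.2.1 fun k' => k'.elim this.2.2 r
    rcases h2 G ω w a c b d e ρ L h with ⟨-, r⟩ |
      ⟨u, u', α, huu, hu, hu', a0, a1, a2, a3, r, hu'L | ⟨x, hx, -, r'⟩⟩
    · exact no _ r (by simp) (by simp) (by simp) (by simp [lL])
    · have r0 := no _ r (by simp) (by simp) (by simp)
      simp only [Finset.mem_insert, Finset.mem_singleton, not_or] at r0 hu'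
      obtain ⟨-, v1, v2, v3, -⟩ := B1_L h hu
      obtain ⟨U₁, hU₁, i1, i2⟩ := TR_onto2 h.s1 hd he de 1 0
      obtain ⟨U₂, hU₂, j1, j2⟩ := TR_onto2 h.s1 hd he de 0 1
      have pp := g.ppd5 h.s1.t1.ac (TR_ax h.s1 hd) (TR_cx h.s1 hd) (TR_ax h.s1 he) (TR_cx h.s1 he)
        h.s1.t1.rho (fun U hU => TR_rel h.s1 hU hd) (fun U hU => TR_rel h.s1 hU he) hU₁ hU₂
        (by simp [i1, i2, j1, j2]) a0 a1 a2 cb v2.symm (Ne.symm hu'.2.1) v3.symm
        (Ne.symm hu'.2.2) huu a3
      obtain ⟨θ, f1, f2, f3, f4⟩ := g.exists_cov4 h.s1.t1.ac (TR_ax h.s1 hd) (TR_ax h.s1 he)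
        (TR_cx h.s1 hd) (TR_cx h.s1 he) de 0 0 1 0
      obtain ⟨W, hW, -, w2, w3, w4, w5⟩ := TR_onto h.s1 f1 f2
      obtain ⟨M', hM', hWM, k3, k4⟩ := fr W hW
      rw [fz W w2 M' hM' hWM, zero_mulVec, sub_zero] at k3 k4
      rw [w5 d hd, f3, one_smul] at k3
      rw [w5 e he, f4, zero_smul, neg_zero, smul_eq_zero] at k4
      have Ws : W s ≠ 0 := fun k => g0 (by simpa [k] using k3.symm)
      have Ws' := k4.resolve_left gs'
      have e1 := pp W hW
      rw [← Finset.sum_subset (Finset.subset_univ {a, c, b, u, u'})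
        (fun y _ hy => by rw [a3 y hy, zero_smul]),
        Finset.sum_insert (by simp [h.s1.t1.ac, ab, v1.symm, Ne.symm hu'.1]),
        Finset.sum_insert (by simp [cb, v2.symm, Ne.symm hu'.2.1]),
        Finset.sum_insert (by simp [v3.symm, Ne.symm hu'.2.2]), Finset.sum_pair huu, a1, a2, w3,
        w4, w2 b hb, one_smul, smul_zero, zero_add, neg_add_cancel_left] at e1
      have full := g.dep_full a0 _ Finset.card_le_five a3 (fun k => by simp [k] at a1)
      rcases oL u hu (Ne.symm r0.2.2.2.1) with k | k <;>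
        rcases oL u' hu'L (Ne.symm r0.2.2.2.2) with k' | k'
      · exact huu (k.trans k'.symm)
      · rw [k', Ws', smul_zero, add_zero, smul_eq_zero] at e1
        exact e1.elim (full u (by simp)) (k ▸ Ws)
      · rw [k, Ws', smul_zero, zero_add, smul_eq_zero] at e1
        exact e1.elim (full u' (by simp)) (k' ▸ Ws)
      · exact huu (k.trans k'.symm)
    · have r0 := no _ r (by simp) (by simp) (by simp)
      simp only [Finset.mem_insert, Finset.mem_singleton, not_or] at r0
      have ml : l ∈ L.erase u := Finset.mem_erase.2 ⟨r0.2.2.2.1, lL⟩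
      obtain ⟨l', hl', ll⟩ := Finset.exists_mem_ne
        (by rw [Finset.card_erase_of_mem hu]; omega : 1 < (L.erase u).card) l
      have hxT : x ∈ ({b, d, e} : Finset V) := Finset.mem_insert_of_mem hx
      have bx : b ≠ x := fun k => by rw [← k] at hx; simp [bd, be] at hx
      have xl : x ≠ l := fun k => by rw [k] at hx; simp [ld, le] at hx
      have := B1_rest hF bx lb'.symm xl (b1 b hb) (b1 x hxT) Ul
        (lb l' (Finset.mem_of_mem_erase hl')) (r' l' (by simp [hl']) x (by simp))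
        (r' l' (by simp [hl']) l (by simp [ml]))
      exact mv l' (oL l' (Finset.mem_of_mem_erase hl') ll) (by rw [this, M0, zero_mulVec])
  · have eΔ : e ∉ Δ := fun k => NL d (md.imp_right fun r => r.resolve_right dΔ) e k lde
    have sd : (s = d ∨ s = e) ∧ (s' = d ∨ s' = e) := by
      rcases md with k | k | k
      · rcases me with k' | k' | k'
        · exact absurd (k.trans k'.symm) de
        · exact ⟨Or.inl k.symm, Or.inr k'.symm⟩
        · exact absurd k' eΔ
      · rcases me with k' | k' | k'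
        · exact ⟨Or.inr k'.symm, Or.inl k.symm⟩
        · exact absurd (k.trans k'.symm) de
        · exact absurd k' eΔ
      · exact absurd k dΔ
    have LΔ : ∀ y ∈ L, y ∈ insert b Δ := fun y hy => by
      obtain ⟨k, r1, r2⟩ := (mL y).1 hy
      rcases k with k | k | k
      · exact (sd.1.elim (fun r => r1 (k.trans r)) fun r => r2 (k.trans r)).elim
      · exact (sd.2.elim (fun r => r1 (k.trans r)) fun r => r2 (k.trans r)).elim
      · simp [k]
    have sT : s ∈ ({b, d, e} : Finset V) := by rcases sd.1 with k | k <;> simp [k]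
    have fin : U a = M *ᵥ g.p a → U c = M *ᵥ g.p c → False := by
      intro r1 r2
      have e1 : M *ᵥ (g.p a + ρ • g.p c) = 0 := by
        rw [mulVec_add, mulVec_smul, ← r1, ← r2, b3, neg_add_cancel]
      have e2 := congrArg (fun m => m ⬝ᵥ (g.p a + ρ • g.p c)) k1
      simp only [b1 s sT, zero_sub, smul_dotProduct, neg_dotProduct, skew_dot hM (g.p s), e1,
        zero_dotProduct, neg_zero, mul_zero, zero_eq_neg, smul_eq_mul, mul_eq_zero] at e2
      refine g0 (h.s1.t1.off _ (fun x hx => ?_) (e2.resolve_left (b4 d hd bd.symm)))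
      simp only [Finset.mem_insert, Finset.mem_singleton] at hx
      rcases hx with rfl | rfl | rfl
      · exact g1
      · rcases md with k | k | k
        · exact k ▸ g2
        · exact k ▸ g3
        · exact absurd k dΔ
      · rcases me with k | k | k
        · exact k ▸ g2
        · exact k ▸ g3
        · exact absurd k eΔ
    have fol : ∀ t u u', u ∈ L → u' ∈ L → u ≠ u' → g.Link (addT (del (adj ω) w) a c b) t b →
        g.Link (addT (del (adj ω) w) a c b) t u → g.Link (addT (del (adj ω) w) a c b) t u' →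
        U t = M *ᵥ g.p t := fun t u u' r1 r2 r3 r4 r5 r6 =>
      g.follow hM (B1_L h r1).2.2.2.1.symm (B1_L h r2).2.2.2.1.symm r3 (hUM b (by simp))
        (hUM u (LΔ u r1)) (hUM u' (LΔ u' r2)) (hU.1 t) (r4 U hF) (r5 U hF) (r6 U hF)
    rcases h2 G ω w a c b d e ρ L h with ⟨-, r⟩ |
      ⟨u, u', α, huu, hu, hu', a0, a1, a2, a3, r, hu'L | ⟨x, hx, -, r'⟩⟩
    · obtain ⟨u, hu, u', hu', huu⟩ := Finset.one_lt_card.1 (by omega : 1 < L.card)
      exact fin (fol a u u' hu hu' huu (r a (by simp) b (by simp)) (r a (by simp) u (by simp [hu]))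
          (r a (by simp) u' (by simp [hu'])))
        (fol c u u' hu hu' huu (r c (by simp) b (by simp)) (r c (by simp) u (by simp [hu]))
          (r c (by simp) u' (by simp [hu'])))
    · exact fin (fol a u u' hu hu'L huu (r a (by simp) b (by simp)) (r a (by simp) u (by simp))
          (r a (by simp) u' (by simp)))
        (fol c u u' hu hu'L huu (r c (by simp) b (by simp)) (r c (by simp) u (by simp))
          (r c (by simp) u' (by simp)))
    · obtain ⟨l, hl, l', hl', ll⟩ := Finset.one_lt_card.1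
        (by rw [Finset.card_erase_of_mem hu]; omega : 1 < (L.erase u).card)
      have hxT : x ∈ ({b, d, e} : Finset V) := Finset.mem_insert_of_mem hx
      refine mv x ?_ (fol x l l' (Finset.mem_of_mem_erase hl) (Finset.mem_of_mem_erase hl') ll
        (g.link_mono (TR_leT g _ a c b) (TR_HG h.s1 (TR_wx h.s1 hxT).symm wb.symm
          (h.s1.t1.lT x hxT b hb))) (r' x (by simp) l (by simp [hl]))
        (r' x (by simp) l' (by simp [hl'])))
      simp only [Finset.mem_insert, Finset.mem_singleton] at hx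
      rcases hx with k | k
      · exact k ▸ md.imp_right fun r => r.resolve_right dΔ
      · exact k ▸ me.imp_right fun r => r.resolve_right eΔ

end Pool.Agent.Dress
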