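import Pool.Agent.Lib.MP_d237f6_co.DR.B1

/-! The rod and the outer neighbours of a triangle vertex form a body. -/

set_option autoImplicit false
set_option linter.unusedSectionVars false

namespace Pool.Agent.Dress

open Matrix Module Classical

variable {K : Type} [Field K] [CharZero K] {V : Type} [DecidableEq V] [Fintype V]

/-- a skew matrix killing a triangle vertex, the turning point and another point of the plane -/
theorem B3_off {g : Gen V K} {G : V → V → Prop} {w a c b d e : V} {ρ : K}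
    (h : g.T1 G w a c {b, d, e} ρ) (bd : b ≠ d) (be : b ≠ e) (de : d ≠ e) {M : Mat K}
    (hM : Mᵀ = -M) (h0 : M ≠ 0) (h1 : M *ᵥ g.p b = 0) (h2 : M *ᵥ (g.p a + ρ • g.p c) = 0)
    {s t : K} (h3 : M *ᵥ (s • g.p d + t • g.p e) = 0) : s = 0 ∧ t = 0 := by
  by_contra hh
  refine h0 (skew_zero hM ?_ h1 h2 h3)
  rw [Fintype.linearIndependent_iff]
  intro q hq
  simp only [Fin.sum_univ_three, Matrix.cons_val_zero, Matrix.cons_val_one, Matrix.cons_val_two,
    Matrix.head_cons, Matrix.tail_cons] at hq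
  obtain ⟨φ, f0, f1, f2, f3⟩ := exists_normal (g.p b) (g.p d) (g.p e)
  have e1 : q 1 = 0 := by
    by_contra k
    have := congrArg (fun m => φ ⬝ᵥ m) hq
    simp only [dotProduct_add (v := q 0 • g.p b + q 1 • (g.p a + ρ • g.p c)),
      dotProduct_add (v := q 0 • g.p b), dotProduct_add (v := s • g.p d), dotProduct_smul, f1, f2,
      f3, mul_zero, add_zero, zero_add, dotProduct_zero, smul_eq_mul, mul_eq_zero, k,
      false_or] at this
    exact f0 (h.off φ (fun x hx => by
      simp only [Finset.mem_insert, Finset.mem_singleton] at hx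
      rcases hx with rfl | rfl | rfl <;> assumption) this)
  have e2 := Fintype.linearIndependent_iff.1 (g.li3 bd be de) ![q 0, q 2 * s, q 2 * t] (by
    rw [← hq, e1]; simp [Fin.sum_univ_three, smul_add, smul_smul, add_assoc])
  have e3 : q 0 = 0 := e2 0
  have e4 : q 2 * s = 0 := e2 1
  have e5 : q 2 * t = 0 := e2 2
  have e6 : q 2 = 0 := by
    by_contra k
    exact hh ⟨(mul_eq_zero.1 e4).resolve_left k, (mul_eq_zero.1 e5).resolve_left k⟩
  intro i
  fin_cases i <;> assumption

theorem B3_thm (g : Gen V K) (h1 : g.StB1) (h2 : g.StB2) : g.StB3 := by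
  intro G ω w a c b d e ρ L h
  obtain ⟨bd, be, de⟩ := B1_ne h
  have hb : b ∈ ({b, d, e} : Finset V) := by simp
  have g0 := h2 G ω w a c b d e ρ L h
  rcases h1 G ω w a c b d e ρ L h with ⟨c3, q⟩ | ⟨u, u', α, huu, hu, hu', a0, a1, a2, a3, -, -⟩
  · refine ⟨c3, q, fun x hx Γ hΓ => ?_⟩
    have hxT : x ∈ ({b, d, e} : Finset V) := Finset.mem_insert_of_mem hx
    have bx : b ≠ x := fun k => by rw [← k] at hx; simp [bd, be] at hx
    have sub := TR_nb h.s1 hΓ (TR_ax h.s1 hb).symm (TR_cx h.s1 hb).symm bx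
    rw [h.nbb] at sub
    have z : ∀ y, y ≠ b → y ∉ insert d (insert e L) → Γ b y = 0 := fun y k1 k2 => by
      by_contra hh
      exact k2 (sub (mem_nb.2 ⟨k1.symm, hh⟩))
    obtain ⟨U, hU, hF, b1, b2, b3, -⟩ := B1_theta h.s1 hb
    obtain ⟨M, hM, hUM⟩ := g.rigX _ U (fun y hy z hz => q y hy z hz U hF)
    have e1 := TR_row h.s1 hxT hΓ (g.sub_skew_mem hU hM) b
    rw [g0, smul_zero, neg_zero, ← Finset.sum_subset (Finset.subset_univ {d, e}) (fun y _ hy => by
      simp only [Finset.mem_insert, Finset.mem_singleton, not_or] at hy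
      by_cases k : y = b ∨ y ∈ L
      · rw [hUM y (by simp only [Finset.mem_insert]; tauto), sub_self, smul_zero]
      · rw [not_or] at k
        rw [z y k.1 (by simp [hy.1, hy.2, k.2]), zero_smul]), Finset.sum_pair de,
      b1 d (by simp), b1 e (by simp)] at e1
    obtain ⟨r1, r2⟩ := B3_off h.s1.t1 bd be de hM
      (fun k => b2 (by rw [hUM c (by simp), k, zero_mulVec]))
      (by rw [← hUM b (by simp), b1 b hb])
      (by rw [mulVec_add, mulVec_smul, ← hUM a (by simp), ← hUM c (by simp), b3, neg_add_cancel])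
      (s := Γ b d) (t := Γ b e) (by
        rw [mulVec_add, mulVec_smul, mulVec_smul, ← neg_eq_zero, ← e1]
        simp only [zero_sub, smul_neg, neg_add])
    refine g.dep_zero (hΓ.1.2 b) (insert b L) ((Finset.card_insert_le _ _).trans (by omega))
      fun y hy => ?_
    rw [Finset.mem_insert, not_or] at hy
    by_cases k1 : y = d
    · rw [k1, r1]
    by_cases k2 : y = e
    · rw [k2, r2]
    exact z y hy.1 (by simp [k1, k2, hy.2])
  · exfalso
    obtain ⟨-, v1, v2, v3, -⟩ := B1_L h hu
    simp only [Finset.mem_insert, Finset.mem_singleton, not_or] at hu'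
    obtain ⟨φ, f0, f1⟩ := g.kap a0 a1 a2 h.s1.t1.ac (TR_cx h.s1 hb) v2.symm (Ne.symm hu'.2.1)
      v3.symm (Ne.symm hu'.2.2) huu a3
    have := g.dep_full a0 _ Finset.card_le_five a3 (fun k => by simp [k] at a1) b (by simp)
    rw [f1 b, smul_eq_zero] at g0
    exact g0.elim this f0

end Pool.Agent.Dress
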