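import Pool.Agent.Lib.MP_d237f6_co.DR.T1

/-! The turning point lies in the plane of the three further neighbours of a triangle vertex. -/

set_option autoImplicit false

namespace Pool.Agent.Dress

open Matrix Module Classical

variable {K : Type} [Field K] [CharZero K] {V : Type} [DecidableEq V] [Fintype V]

omit [CharZero K] in
theorem B4_perm {x y z : Vec K} (h : LinearIndependent K ![x, y, z]) :
    LinearIndependent K ![x, z, y] := by
  rw [Fintype.linearIndependent_iff] at h ⊢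
  intro s hs
  have := h ![s 0, s 2, s 1] (by
    rw [← hs]
    simp only [Fin.sum_univ_three, cons_val_zero, cons_val_one, cons_val]
    abel)
  intro i
  fin_cases i
  · exact this 0
  · exact this 2
  · exact this 1

omit [CharZero K] in
theorem B4_li4 {x y z m φ : Vec K} (h : LinearIndependent K ![x, y, z]) (h1 : φ ⬝ᵥ x = 0)
    (h2 : φ ⬝ᵥ y = 0) (h3 : φ ⬝ᵥ z = 0) (h4 : φ ⬝ᵥ m ≠ 0) :
    LinearIndependent K ![m, x, y, z] := by
  refine linearIndependent_finCons.2 ⟨h, fun hmem => h4 ?_⟩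
  obtain ⟨c, rfl⟩ := (Submodule.mem_span_range_iff_exists_fun K).1 hmem
  simp [Fin.sum_univ_three, h1, h2, h3]

/-- elementary facts on the configuration -/
structure B4_Fa (ω : V → V → K) (w a c b d e : V) (L : Finset V) : Prop where
  bd : b ≠ d
  be : b ≠ e
  de : d ≠ e
  bL : b ∉ L
  wL : w ∉ L
  aL : a ∉ L
  cL : c ∉ L
  card : ((nb ω b).erase w).card ≤ 5
  edge : ∀ u ∈ insert d (insert e L), del (adj ω) w b u

omit [CharZero K] in
theorem B4_fa (g : Gen V K) {G : V → V → Prop} {ω : V → V → K} {w a c b d e : V} {ρ : K}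
    {L : Finset V} (s : g.SetB G ω w a c b d e ρ L) : B4_Fa ω w a c b d e L := by
  have h3 := s.s1.t1.card
  have hb : b ∈ ({b, d, e} : Finset V) := by simp
  have sub : ∀ u ∈ insert d (insert e L), u ≠ w ∧ u ∈ nb ω b := fun u hu =>
    Finset.mem_erase.1 (s.nbb ▸ hu)
  have n3 : ∀ x y : V, ({x, y} : Finset V).card ≠ 3 := fun x y e => by
    have := Finset.card_le_two (a := x) (b := y)
    omega
  refine ⟨fun e => ?_, fun e => ?_, fun e => ?_, fun e => ?_, fun e => ?_, fun e => ?_,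
    fun e => ?_, ?_, fun u hu => ⟨mem_nb.1 (sub u hu).2, (s.s1.wx hb).symm, (sub u hu).1⟩⟩
  · subst e; exact n3 _ _ (by simpa using h3)
  · subst e; exact n3 d b (by rw [← h3]; congr 1; ext; simp)
  · subst e; exact n3 _ _ (by simpa using h3)
  · exact (mem_nb.1 (sub b (by simp [e])).2).1 rfl
  · exact (sub w (by simp [e])).1 rfl
  · exact (s.s1.nnb hb).2.2.1 (sub a (by simp [e])).2
  · exact (s.s1.nnb hb).2.2.2 (sub c (by simp [e])).2
  · rw [s.nbb]
    have := s.cardL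
    have h1 := Finset.card_insert_le d (insert e L)
    have h2 := Finset.card_insert_le e L
    omega

/-- the three further neighbours and the turning point move rigidly -/
theorem B4_rigid (g : Gen V K) {G : V → V → Prop} {ω : V → V → K} {w a c b d e : V} {ρ : K}
    {L : Finset V} (s : g.SetB G ω w a c b d e ρ L) (hL : L.card = 3)
    (hX : g.Clq (addT (del (adj ω) w) a c b) (insert b (insert a (insert c L))))
    (hg : g.grad b ρ = 0) {φ : Vec K} (hφ : ∀ l ∈ L, φ ⬝ᵥ g.p l = 0)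
    (hy : φ ⬝ᵥ (g.p a + ρ • g.p c) ≠ 0) :
    ∀ U ∈ g.flex (del (del (adj ω) w) b), ∃ M : Mat K, Mᵀ = -M ∧ (∀ l ∈ L, U l = M *ᵥ g.p l) ∧
      U a + ρ • U c = M *ᵥ (g.p a + ρ • g.p c) := by
  have f := B4_fa g s
  have h := s.s1
  have hb : b ∈ ({b, d, e} : Finset V) := by simp
  have hd : d ∈ ({b, d, e} : Finset V) := by simp
  have he : e ∈ ({b, d, e} : Finset V) := by simp
  have ab := h.ax hb
  have cb := h.cx hb
  obtain ⟨Γ, hΓ⟩ := h.gam hb
  have ra : Γ b a = 1 := by rw [hΓ.1.1]; exact hΓ.2.1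
  have rc : Γ b c = ρ := by rw [hΓ.1.1]; exact hΓ.2.2.1
  have sup : ∀ u, u ∉ insert d (insert e (insert b (insert a (insert c L)))) → Γ b u = 0 := by
    intro u hu
    by_contra h0
    simp only [Finset.mem_insert, not_or] at hu
    rcases h.nb_gam hΓ (mem_nb.2 ⟨fun e => hu.2.2.1 e.symm, h0⟩) with e | e | e
    · rw [s.nbb] at e
      simp only [Finset.mem_insert] at e
      tauto
    · exact hu.2.2.1 e.2
    · tauto
  have n1 : d ∉ insert e (insert b (insert a (insert c L))) := by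
    simp [f.de, f.bd.symm, (h.ax hd).symm, (h.cx hd).symm, s.dL]
  have n2 : e ∉ insert b (insert a (insert c L)) := by
    simp [f.be.symm, (h.ax he).symm, (h.cx he).symm, s.eL]
  have n3 : b ∉ insert a (insert c L) := by simp [ab.symm, cb.symm, f.bL]
  have n4 : a ∉ insert c L := by simp [h.t1.ac, f.aL]
  have ex : ∀ X : V → Vec K, ∑ u, Γ b u • X u = Γ b d • X d + (Γ b e • X e + (Γ b b • X b +
      (X a + (ρ • X c + ∑ l ∈ L, Γ b l • X l)))) := by
    intro X
    rw [← Finset.sum_subset (Finset.subset_univ _) (fun u _ hu => by rw [sup u hu, zero_smul]),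
      Finset.sum_insert n1, Finset.sum_insert n2, Finset.sum_insert n3, Finset.sum_insert n4,
      Finset.sum_insert f.cL, ra, rc, one_smul]
  obtain ⟨Uo, o1, -, o3, o4, -, -⟩ := h.exF hb
  obtain ⟨L1, l1, l2⟩ := g.rigX _ Uo fun x hx y hy => hX x hx y hy Uo o1
  have z1 : L1 *ᵥ g.p b = 0 := by rw [← l2 b (by simp), o3 b hb]
  have z2 := (h.rod (h.F_le b o1) o3 l1 (l2 a (by simp)) (l2 c (by simp))).1
  have z3 : L1 *ᵥ (Γ b d • g.p d + Γ b e • g.p e) = 0 := by
    have e1 := h.row hb hΓ (h.F_le b o1) b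
    have e2 := g.dep_mulVec (hΓ.1.2 b) L1
    rw [hg, smul_zero, neg_zero, ex, o3 d hd, o3 e he, o3 b hb] at e1
    rw [ex (fun u => L1 *ᵥ g.p u), z1, ← l2 a (by simp), ← l2 c (by simp),
      Finset.sum_congr rfl (fun l hl => by rw [← l2 l (by simp [hl])])] at e2
    rw [mulVec_add, mulVec_smul, mulVec_smul]
    simp only [smul_zero, zero_add] at e1 e2
    rw [e1, add_zero] at e2
    exact e2
  have rde : Γ b d = 0 ∧ Γ b e = 0 := by
    by_contra hh
    have hi : LinearIndependent K ![g.p b, Γ b d • g.p d + Γ b e • g.p e] := by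
      rw [LinearIndependent.pair_iff]
      intro s t hst
      have := Fintype.linearIndependent_iff.1 (g.li3 f.bd f.be f.de) ![s, t * Γ b d, t * Γ b e]
        (by
          rw [← hst]
          simp only [Fin.sum_univ_three, cons_val_zero, cons_val_one, cons_val, smul_add, mul_smul]
          abel)
      refine ⟨this 0, ?_⟩
      by_contra ht
      exact hh ⟨(mul_eq_zero.1 (this 1)).resolve_left ht, (mul_eq_zero.1 (this 2)).resolve_left ht⟩
    have := skew_zero l1 (h.li_off hi (fun ψ hψ => hψ b hb) (fun ψ hψ => by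
      simp [hψ d hd, hψ e he])) z1 z3 z2
    exact o4 (by rw [l2 c (by simp), this, zero_mulVec])
  have dp : Γ b b • g.p b + ((g.p a + ρ • g.p c) + ∑ l ∈ L, Γ b l • g.p l) = 0 := by
    have := hΓ.1.2 b
    rw [Gen.Dep, ex, rde.1, rde.2, zero_smul, zero_smul, zero_add, zero_add] at this
    rw [add_assoc]
    exact this
  have rb : Γ b b ≠ 0 := by
    intro e0
    have := congrArg (fun m => φ ⬝ᵥ m) dp
    simp only [e0, zero_smul, zero_add, dotProduct_add φ (g.p a + ρ • g.p c), dotProduct_sum,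
      dotProduct_smul, dotProduct_zero] at this
    rw [Finset.sum_eq_zero (fun l hl => by rw [hφ l hl, smul_zero]), add_zero] at this
    exact hy this
  have pr : ∀ U ∈ g.flex (del (del (adj ω) w) b),
      ((U a + ρ • U c) + ∑ l ∈ L, Γ b l • U l) ⬝ᵥ g.p b = 0 := by
    intro U hU
    have e1 := g.row_pair hΓ.1 U b (fun u v hu hv h0 => by
      by_cases e : u = v
      · rw [e]; exact g.link_refl _ v U hU
      rcases hΓ.2.2.2 u v e h0 with (e | e | e) | (e | e | e)
      · exact hU.2 u v ⟨e, hu, hv⟩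
      · exact absurd e.2 hv
      · exact absurd e.2 hv
      · rw [dl_comm]; exact hU.2 v u ⟨e, hv, hu⟩
      · exact absurd e.2 hu
      · exact absurd e.2 hu)
    have e2 : (∑ u, Γ b u • U u) ⬝ᵥ g.p b = 0 := by
      rw [sum_dotProduct, ← e1]
      symm
      refine (Finset.sum_subset (Finset.subset_univ _) fun u _ hu => ?_).trans
        (Finset.sum_congr rfl fun u _ => by rw [smul_dotProduct, smul_eq_mul])
      by_cases e : u = b
      · rw [e, hU.1 b, mul_zero]
      · have : Γ b u = 0 := by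
          by_contra hh
          exact hu (mem_nb.2 ⟨Ne.symm e, hh⟩)
        rw [this, zero_mul]
    rw [ex, rde.1, rde.2, zero_smul, zero_smul, zero_add, zero_add, add_dotProduct,
      smul_dotProduct, hU.1 b, smul_zero, zero_add, ← add_assoc] at e2
    exact e2
  have dρ : ∀ k, g.d b k ρ = 0 := fun k => congrFun hg k
  have dy : ∀ k, dv (g.d b k) (g.p a + ρ • g.p c) = 0 := fun k => by
    ext i
    have a1 := congrFun (g.d_ne ab k) i
    have a2 := congrFun (g.d_ne cb k) i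
    simp only [dv, Pi.zero_apply] at a1 a2
    simp [dv, a1, a2, dρ k]
  have iso : Isol (del (del (adj ω) w) b) b := isol_del _ _
  have key := g.quad_zero b {M | ∃ U ∈ g.flex (del (del (adj ω) w) b), U b = 0 ∧
      (∀ l ∈ L, U l = M *ᵥ g.p l) ∧ U a + ρ • U c = M *ᵥ (g.p a + ρ • g.p c)}
    (fun k M ⟨U, hU, h0, h1, h2⟩ => ⟨_, g.dU_mem iso hU h0 k, by simp [dU, h0, dv_zero],
      fun l hl => by
        rw [← dv_mulVec _ _ _ (g.d_ne (fun e : l = b => f.bL (e ▸ hl)) k), ← h1 l hl]; rfl,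
      by
        rw [← dv_mulVec _ _ _ (dy k), ← h2]
        ext i
        simp [dU, dv, dρ k]⟩)
    (fun M ⟨U, hU, _, h1, h2⟩ => by
      have e1 := congrArg (fun m => (M *ᵥ m) ⬝ᵥ g.p b) dp
      have e2 := pr U hU
      simp only [mulVec_add M (Γ b b • g.p b), mulVec_add M (g.p a + ρ • g.p c), mulVec_smul,
        mulVec_sum, mulVec_zero, zero_dotProduct] at e1
      rw [← h2, Finset.sum_congr rfl (fun l hl => by rw [← h1 l hl]), add_dotProduct, e2,
        add_zero, smul_dotProduct, smul_eq_mul] at e1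
      rw [bil_eq']
      exact (mul_eq_zero.1 e1).resolve_left rb)
  intro U hU
  obtain ⟨x, y, z, h1, h2, h3, eL⟩ := Finset.card_eq_three.1 hL
  obtain ⟨M, hM⟩ := exists_mat' ![g.p a + ρ • g.p c, g.p x, g.p y, g.p z]
    ![U a + ρ • U c, U x, U y, U z] (B4_li4 (g.li3 h1 h2 h3) (hφ x (by simp [eL]))
      (hφ y (by simp [eL])) (hφ z (by simp [eL])) hy)
  have m1 : ∀ l ∈ L, U l = M *ᵥ g.p l := by
    intro l hl
    rw [eL] at hl
    simp only [Finset.mem_insert, Finset.mem_singleton] at hl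
    rcases hl with rfl | rfl | rfl
    · exact (hM 1).symm
    · exact (hM 2).symm
    · exact (hM 3).symm
  have m2 : U a + ρ • U c = M *ᵥ (g.p a + ρ • g.p c) := (hM 0).symm
  have m3 := key M ⟨Function.update U b 0, g.update_mem iso hU (zero_dotProduct _), by simp,
    fun l hl => by rw [Function.update_of_ne (fun e : l = b => f.bL (e ▸ hl)), m1 l hl],
    by rw [Function.update_of_ne ab, Function.update_of_ne cb, m2]⟩
  refine ⟨M, ?_, m1, m2⟩
  ext i j
  have := m3 (Pi.single i 1) (Pi.single j 1)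
  rw [sb, bil_single, bil_single] at this
  show M j i = -M i j
  linear_combination this

/-- a flex that keeps one further neighbour fixed and turns the others -/
theorem B4_turn (g : Gen V K) {G : V → V → Prop} {ω : V → V → K} {w a c b d e : V} {ρ : K}
    {L : Finset V} (s : g.SetB G ω w a c b d e ρ L) (hL : L.card = 3)
    (cL : g.Clq (del (del (adj ω) w) b) L) (lde : g.Link (del (del (adj ω) w) b) d e)
    {Uo : V → Vec K} (o1 : Uo ∈ g.flex (del (adj ω) w)) (o2 : Uo b = 0) {l₀ : V} (hl₀ : l₀ ∈ L)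
    (o3 : dl g.p Uo d l₀ ≠ 0) (l : V) :
    ∃ U ∈ g.flex (del (del (adj ω) w) b), dl g.p U d l = 0 ∧ dl g.p U e l = 0 ∧
      ∃ x ∈ ({d, e} : Finset V), ∃ l' ∈ L, dl g.p U x l' ≠ 0 := by
  have f := B4_fa g s
  have h := s.s1
  by_contra hc
  push Not at hc
  obtain ⟨γ₁, a1, a2, a3⟩ := g.dep5 (insert b (insert d L)) (by
    rw [Finset.card_insert_of_notMem (by simp [f.bd, f.bL]), Finset.card_insert_of_notMem s.dL, hL])
  obtain ⟨γ₂, b1, b2, b3⟩ := g.dep5 (insert b (insert e L)) (by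
    rw [Finset.card_insert_of_notMem (by simp [f.be, f.bL]), Finset.card_insert_of_notMem s.eL, hL])
  have s1 : ∀ u, u ∉ insert b (insert d (insert e L)) → γ₁ u = 0 := fun u hu =>
    a2 u fun e => hu (by simp only [Finset.mem_insert] at e ⊢; tauto)
  have s2 : ∀ u, u ∉ insert b (insert d (insert e L)) → γ₂ u = 0 := fun u hu =>
    b2 u fun e => hu (by simp only [Finset.mem_insert] at e ⊢; tauto)
  have lin : ∀ γ : V → K, IsLinearMap K (fun U : V → Vec K => ∑ u, γ u * (U u ⬝ᵥ g.p b)) :=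
    fun γ => ⟨fun a b => by simp [mul_add, Finset.sum_add_distrib],
      fun r a => by simp [Finset.mul_sum, mul_left_comm]⟩
  have van : ∀ γ, g.Dep γ → (∀ u, u ∉ insert b (insert d (insert e L)) → γ u = 0) →
      ∀ U ∈ g.flex (del (del (adj ω) w) b), dl g.p U d l = 0 → dl g.p U e l = 0 →
      ∑ u, γ u * (U u ⬝ᵥ g.p b) = 0 := by
    intro γ h1 h2 U hU e1 e2
    have r := hc U hU e1 e2
    obtain ⟨M, m1, m2⟩ := g.rigX (insert d (insert e L)) U (fun x hx y hy => by
      simp only [Finset.mem_insert] at hx hy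
      rcases hx with rfl | rfl | hx <;> rcases hy with rfl | rfl | hy
      · exact g.link_refl _ _ U hU
      · exact lde U hU
      · exact r _ (by simp) y hy
      · rw [dl_comm]; exact lde U hU
      · exact g.link_refl _ _ U hU
      · exact r _ (by simp) y hy
      · rw [dl_comm]; exact r _ (by simp) x hx
      · rw [dl_comm]; exact r _ (by simp) x hx
      · exact cL x hx y hy U hU)
    have e3 := congrArg (fun m => m ⬝ᵥ g.p b) (g.dep_mulVec h1 M)
    simp only [sum_dotProduct, smul_dotProduct, smul_eq_mul, zero_dotProduct] at e3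
    rw [← e3]
    refine Finset.sum_congr rfl fun u _ => ?_
    by_cases hu : u = b
    · rw [hu, hU.1 b, skew_self m1]
    by_cases hu' : u ∈ insert d (insert e L)
    · rw [m2 u hu']
    · rw [h2 u (by rw [Finset.mem_insert, not_or]; exact ⟨hu, hu'⟩), zero_mul, zero_mul]
  have hO : ∀ i : Fin 2, IsLinearMap K (![fun U => dl g.p U d l, fun U => dl g.p U e l] i) := by
    intro i
    fin_cases i
    · exact dl_lin _ _ _
    · exact dl_lin _ _ _
  obtain ⟨c₁, hc₁⟩ := la1 (g.flex (del (del (adj ω) w) b)) _ hO _ (lin γ₁)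
    (fun U hU h0 => van γ₁ a1 s1 U hU (h0 0) (h0 1))
  obtain ⟨c₂, hc₂⟩ := la1 (g.flex (del (del (adj ω) w) b)) _ hO _ (lin γ₂)
    (fun U hU h0 => van γ₂ b1 s2 U hU (h0 0) (h0 1))
  obtain ⟨c₃, hc₃⟩ := la1 (g.flex (del (del (adj ω) w) b)) _ hO _ (dl_lin g.p d l₀)
    (fun U hU h0 => hc U hU (h0 0) (h0 1) d (by simp) l₀ hl₀)
  obtain ⟨lam, h0, h1⟩ := dep (K := K) (ι := Fin 3) (κ := Fin 2) (by simp) ![c₁, c₂, c₃]
  have k0 := h1 0
  have k1 := h1 1
  simp only [Fin.sum_univ_three, cons_val_zero, cons_val_one, cons_val] at k0 k1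
  have comb : ∀ U ∈ g.flex (del (del (adj ω) w) b),
      lam 0 * ∑ u, γ₁ u * (U u ⬝ᵥ g.p b) + lam 1 * ∑ u, γ₂ u * (U u ⬝ᵥ g.p b)
        + lam 2 * dl g.p U d l₀ = 0 := by
    intro U hU
    rw [hc₁ U hU, hc₂ U hU, hc₃ U hU]
    simp only [Fin.sum_univ_two, cons_val_zero, cons_val_one]
    linear_combination dl g.p U d l * k0 + dl g.p U e l * k1
  have zo : ∀ γ : V → K, (∀ u, u ∉ insert b (insert d (insert e L)) → γ u = 0) →
      ∑ u, γ u * (Uo u ⬝ᵥ g.p b) = 0 := fun γ h2 => Finset.sum_eq_zero fun u _ => by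
    by_cases hu : u = b
    · rw [hu, o2, zero_dotProduct, mul_zero]
    by_cases hu' : u ∈ insert d (insert e L)
    · have := o1.2 b u (f.edge u hu')
      rw [dl, o2, zero_dotProduct, zero_add] at this
      rw [this, mul_zero]
    · rw [h2 u (by rw [Finset.mem_insert, not_or]; exact ⟨hu, hu'⟩), zero_mul]
  have l2 : lam 2 = 0 := by
    have := comb Uo (g.flex_anti (fun _ _ e => Or.inl e.1) o1)
    rw [zo γ₁ s1, zo γ₂ s2, mul_zero, mul_zero, zero_add, zero_add] at this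
    exact (mul_eq_zero.1 this).resolve_right o3
  obtain ⟨σ, t1, t2, t3⟩ := g.star_stress (isol_del (del (adj ω) w) b)
    (g.dep_add (g.dep_smul a1 (lam 0)) (g.dep_smul b1 (lam 1))) (fun U hU _ => by
      have := comb U hU
      rw [l2, zero_mul, add_zero, Finset.mul_sum, Finset.mul_sum, ← Finset.sum_add_distrib] at this
      rw [← this]
      refine Finset.sum_congr rfl fun u _ => ?_
      simp only [Pi.add_apply, Pi.smul_apply, smul_eq_mul]
      ring)
  have eg : ∀ v, b ≠ v → σ b v ≠ 0 → del (adj ω) w b v := fun v hv h0 => f.edge v (by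
    by_contra hh
    have : v ∉ insert b (insert d (insert e L)) := by
      rw [Finset.mem_insert, not_or]; exact ⟨hv.symm, hh⟩
    exact h0 (by simp [t2, s1 v this, s2 v this]))
  have z := g.H_ind h.ctx h.bad w t1 (fun u v huv h0 => by
    by_cases e1 : u = b
    · subst e1; exact Or.inl (eg v huv h0)
    by_cases e2 : v = b
    · subst e2; exact Or.inr (eg u huv.symm (by rwa [t1.1]))
    exact (t3 u v huv e1 e2 h0).imp (·.1) (·.1))
  rw [z] at t2
  have q1 := congrFun t2 d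
  have q2 := congrFun t2 e
  simp only [Pi.zero_apply, Pi.add_apply, Pi.smul_apply, smul_eq_mul] at q1 q2
  rw [b2 d (by simp [f.bd.symm, f.de, s.dL]), mul_zero, add_zero] at q1
  rw [a2 e (by simp [f.be.symm, f.de.symm, s.eL]), mul_zero, zero_add] at q2
  refine h0 (funext fun i => ?_)
  fin_cases i
  · exact (mul_eq_zero.1 q1.symm).resolve_right (a3 d (by simp))
  · exact (mul_eq_zero.1 q2.symm).resolve_right (b3 e (by simp))
  · exact l2

theorem B4_thm (g : Gen V K) (h0 : g.StLC) (h1 : g.StB3) (h2 : g.StPPL) : g.StB4 := by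
  intro G ω w a c b d e ρ L s
  have f := B4_fa g s
  have h := s.s1
  obtain ⟨hL, hX, hΓ⟩ := h1 G ω w a c b d e ρ L s
  have hb : b ∈ ({b, d, e} : Finset V) := by simp
  have hd : d ∈ ({b, d, e} : Finset V) := by simp
  have he : e ∈ ({b, d, e} : Finset V) := by simp
  have ab := h.ax hb
  have cb := h.cx hb
  have ac := h.t1.ac
  obtain ⟨x₁, x₂, x₃, n1, n2, n3, eL⟩ := Finset.card_eq_three.1 hL
  have m1 : x₁ ∈ L := by simp [eL]
  have m2 : x₂ ∈ L := by simp [eL]
  have m3 : x₃ ∈ L := by simp [eL]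
  obtain ⟨φ, φ0, φ1, φ2, φ3⟩ := exists_normal (g.p x₁) (g.p x₂) (g.p x₃)
  have hφ : ∀ l ∈ L, φ ⬝ᵥ g.p l = 0 := by
    intro l hl
    rw [eL] at hl
    simp only [Finset.mem_insert, Finset.mem_singleton] at hl
    rcases hl with rfl | rfl | rfl <;> assumption
  refine ⟨φ, φ0, hφ, ?_⟩
  by_contra hy
  have le : g.flex (del (adj ω) w) ≤ g.flex (del (del (adj ω) w) b) :=
    g.flex_anti fun _ _ e => Or.inl e.1
  have relx : ∀ x ∈ ({d, e} : Finset V), ∀ U ∈ g.flex (del (del (adj ω) w) b),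
      dl g.p U a x + ρ * dl g.p U c x = 0 := by
    intro x hx U hU
    have hx' : x ∈ ({b, d, e} : Finset V) := Finset.mem_insert_of_mem hx
    obtain ⟨Γ, hG⟩ := h.gam hx'
    have z := hΓ x hx Γ hG
    refine g.gam_rel ac (h.ax hx') (h.cx hx') hG.1 hG.2.1 hG.2.2.1 (fun u v huv e0 => ?_) hU
    have hu : u ≠ b := fun e => e0 (by rw [e, z]; rfl)
    have hv : v ≠ b := fun e => e0 (by rw [hG.1.1, e, z]; rfl)
    exact (hG.2.2.2 u v huv e0).imp (fun e => e.imp (fun e => ⟨e, hu, hv⟩) id)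
      (fun e => e.imp (fun e => ⟨e, hv, hu⟩) id)
  have hg : g.grad b ρ = 0 := by
    obtain ⟨Γ, hG⟩ := h.gam hd
    exact h.grad_zero hd hG (hΓ d (by simp) Γ hG)
  have lac : g.Link (del (del (adj ω) w) b) a c := g.lnk_del2 h0 h.ctx h.bad.1 h.deg f.card s.nok
    h.t1.wa.symm h.t1.wc.symm ab cb h.t1.lac
  have lde : g.Link (del (del (adj ω) w) b) d e := g.lnk_del2 h0 h.ctx h.bad.1 h.deg f.card s.nok
    (h.wx hd).symm (h.wx he).symm f.bd.symm f.be.symm (h.t1.lT d hd e he)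
  have rg := B4_rigid g s hL hX hg hφ hy
  have cL : g.Clq (del (del (adj ω) w) b) L := fun x hx y hy U hU => by
    obtain ⟨M, a1, a2, -⟩ := rg U hU
    rw [dl, a2 x hx, a2 y hy, skew_dot a1, neg_add_cancel]
  have ex : ∀ (U : V → Vec K) x, dl g.p U a x + ρ * dl g.p U c x
      = (U a + ρ • U c) ⬝ᵥ g.p x + U x ⬝ᵥ (g.p a + ρ • g.p c) := fun U x => by
    simp only [dl, add_dotProduct, dotProduct_add, smul_dotProduct, dotProduct_smul, smul_eq_mul]
    ring
  have relL : ∀ U ∈ g.flex (del (del (adj ω) w) b), ∀ x ∈ L,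
      dl g.p U a x + ρ * dl g.p U c x = 0 := fun U hU x hx => by
    obtain ⟨M, a1, a2, a3⟩ := rg U hU
    rw [ex, a3, a2 x hx, skew_dot a1, neg_add_cancel]
  have iw : Isol (del (del (adj ω) w) b) w := isol_del_of (isol_del _ _) _
  have ib : Isol (del (del (adj ω) w) b) b := isol_del _ _
  have wb := h.wx hb
  obtain ⟨t', ht'⟩ := h2 h.ctx.ih _ w b a c L ρ wb iw ib hL ac f.aL f.cL
    (by simp [h.t1.wa, h.t1.wc, f.wL]) (by simp [ab.symm, cb.symm, f.bL]) lac cL h.t1.rho relL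
  have fol : ∀ U ∈ g.flex (del (adj ω) w), (∀ x ∈ ({b, d, e} : Finset V), U x = 0) →
      ∃ M : Mat K, Mᵀ = -M ∧ (∀ l ∈ L, U l = M *ᵥ g.p l) ∧ M *ᵥ g.p b = 0 ∧
        M *ᵥ (g.p a + ρ • g.p c) = 0 := fun U hU hz => by
    obtain ⟨M, a1, a2, a3⟩ := rg U (le hU)
    refine ⟨M, a1, a2, ?_, by rw [← a3, (h.fr hU hz).1, neg_add_cancel]⟩
    rw [← g.follow a1 n1 n2 n3 (a2 _ m1) (a2 _ m2) (a2 _ m3) (hU.1 b)
      (hU.2 _ _ (f.edge _ (by simp [m1]))) (hU.2 _ _ (f.edge _ (by simp [m2])))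
      (hU.2 _ _ (f.edge _ (by simp [m3]))), hz b hb]
  obtain ⟨Uo, o1, -, o3, o4, o5, -⟩ := h.exF hb
  have o1' := h.F_le b o1
  obtain ⟨Mo, p1, p2, p3, p4⟩ := fol Uo o1' o3
  have p5 : Mo ≠ 0 := by
    intro e0
    apply o4
    rw [g.follow p1 n1 n2 n3 (p2 _ m1) (p2 _ m2) (p2 _ m3) (o1.1 c)
      (hX c (by simp) _ (by simp [m1]) Uo o1) (hX c (by simp) _ (by simp [m2]) Uo o1)
      (hX c (by simp) _ (by simp [m3]) Uo o1), e0, zero_mulVec]
  obtain ⟨l₀, hl₀, o6⟩ : ∃ l₀ ∈ L, dl g.p Uo d l₀ ≠ 0 := by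
    by_contra hh
    push Not at hh
    have := g.follow p1 n1 n2 n3 (p2 _ m1) (p2 _ m2) (p2 _ m3) (o1.1 d) (hh _ m1) (hh _ m2)
      (hh _ m3)
    rw [o3 d hd] at this
    exact p5 (skew_zero p1 (h.li_T hb hd f.bd) p3 this.symm p4)
  obtain ⟨Us, s1, s2, s3, s4⟩ : ∃ U ∈ g.flex (del (adj ω) w),
      (∀ x ∈ ({b, d, e} : Finset V), U x = 0) ∧ (∀ l ∈ L, U l = 0) ∧ U c ≠ 0 := by
    obtain ⟨U, a1, -, a3, -, -, a6⟩ := h.exN (h.ax hd) (h.cx hd)
    obtain ⟨M, q1, q2, q3, q4⟩ := fol U a1 a3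
    obtain ⟨κ, hκ⟩ := skew_prop p1 q1 (B4_perm (h.li_T hb hd f.bd)) p5 p3 p4 q3 q4
    refine ⟨U - κ • Uo, Submodule.sub_mem _ a1 (Submodule.smul_mem _ _ o1'),
      fun x hx => by simp [a3 x hx, o3 x hx], fun l hl => ?_, fun e0 => ?_⟩
    · simp [q2 l hl, p2 l hl, hκ, smul_mulVec]
    · have := congrArg (fun m => m ⬝ᵥ g.p b) e0
      simp only [Pi.sub_apply, Pi.smul_apply, sub_dotProduct, smul_dotProduct, o5, smul_zero,
        sub_zero, zero_dotProduct] at this
      exact a6 b ab.symm cb.symm f.bd this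
  obtain ⟨-, sa, sc, -⟩ := h.fr s1 s2
  have good : ∀ l ∈ L, (∀ ψ : Vec K, (∀ x ∈ ({d, e, l} : Finset V), ψ ⬝ᵥ g.p x = 0) →
      ψ ⬝ᵥ (g.p a + ρ • g.p c) = 0 → ψ = 0) → Us c ⬝ᵥ g.p l = 0 := by
    intro l hl off
    have dl' : d ≠ l := fun e0 => s.dL (e0 ▸ hl)
    have el' : e ≠ l := fun e0 => s.eL (e0 ▸ hl)
    have al : a ≠ l := fun e0 => f.aL (e0 ▸ hl)
    have cl : c ≠ l := fun e0 => f.cL (e0 ▸ hl)
    have wl : w ≠ l := fun e0 => f.wL (e0 ▸ hl)
    have bl : b ≠ l := fun e0 => f.bL (e0 ▸ hl)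
    have le2 : g.flex (addT (del (del (adj ω) w) b) d e l) ≤ g.flex (del (del (adj ω) w) b) :=
      g.flex_anti fun _ _ e => Or.inl (Or.inl e)
    have mk : ∀ U ∈ g.flex (del (del (adj ω) w) b), dl g.p U d l = 0 → dl g.p U e l = 0 →
        U ∈ g.flex (addT (del (del (adj ω) w) b) d e l) := fun U hU e1 e2 =>
      ⟨hU.1, fun u v huv => huv.elim (hU.2 u v) fun e => e.elim (fun e => by rw [e.1, e.2, e1])
        fun e => by rw [e.1, e.2, e2]⟩
    have iso : ∀ z, Isol (del (del (adj ω) w) b) z → z ≠ d → z ≠ e → z ≠ l →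
        Isol (addT (del (del (adj ω) w) b) d e l) z := fun z i1 i2 i3 i4 u =>
      ⟨fun e => e.elim (i1 u).1 fun e => e.elim (fun e => i2 e.1) fun e => i3 e.1,
        fun e => e.elim (i1 u).2 fun e => e.elim (fun e => i4 e.2) fun e => i4 e.2⟩
    have k1 : g.Link (addT (del (del (adj ω) w) b) d e l) d l :=
      g.link_of (Or.inr (Or.inl ⟨rfl, rfl⟩))
    have k2 : g.Link (addT (del (del (adj ω) w) b) d e l) e l :=
      g.link_of (Or.inr (Or.inr ⟨rfl, rfl⟩))
    have k3 := g.link_mono le2 lde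
    have cT : g.Clq (addT (del (del (adj ω) w) b) d e l) {d, e, l} := by
      intro x hx y hy
      simp only [Finset.mem_insert, Finset.mem_singleton] at hx hy
      rcases hx with rfl | rfl | rfl <;> rcases hy with rfl | rfl | rfl <;>
        first
          | exact g.link_refl _ _
          | assumption
          | (apply g.link_symm; assumption)
    have relT : ∀ U ∈ g.flex (addT (del (del (adj ω) w) b) d e l), ∀ x ∈ ({d, e, l} : Finset V),
        dl g.p U a x + ρ * dl g.p U c x = 0 := by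
      intro U hU x hx
      simp only [Finset.mem_insert, Finset.mem_singleton] at hx
      rcases hx with rfl | rfl | rfl
      · exact relx _ (by simp) U (le2 hU)
      · exact relx _ (by simp) U (le2 hU)
      · exact relL U (le2 hU) _ hl
    obtain ⟨t, ht⟩ := h2 h.ctx.ih _ w b a c {d, e, l} ρ wb (iso w iw (h.wx hd) (h.wx he) wl)
      (iso b ib f.bd f.be bl) (Finset.card_eq_three.2 ⟨d, e, l, f.de, dl', el', rfl⟩) ac
      (by simp [h.ax hd, h.ax he, al]) (by simp [h.cx hd, h.cx he, cl])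
      (by simp [h.t1.wa, h.t1.wc, h.wx hd, h.wx he, wl])
      (by simp [ab.symm, cb.symm, f.bd, f.be, bl]) (g.link_mono le2 lac) cT h.t1.rho relT
    obtain ⟨U₀, u1, u2, u3, x, hx, l', hl', u4⟩ := B4_turn g s hL cL lde o1' (o3 b hb) hl₀ o6 l
    have u5 := mk U₀ u1 u2 u3
    obtain ⟨M₀, r1, r2⟩ := g.rigX _ U₀ fun x hx y hy => cT x hx y hy U₀ u5
    have v1 := g.sub_skew_mem u5 r1
    rw [← dl_sub_skew g.p U₀ r1] at u4
    have v2 : ∀ x ∈ ({d, e, l} : Finset V), (fun x => U₀ x - M₀ *ᵥ g.p x) x = 0 :=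
      fun x hx => sub_eq_zero.2 (r2 x hx)
    generalize (fun x => U₀ x - M₀ *ᵥ g.p x) = U at v1 u4 v2
    have v3 : U a + ρ • U c = 0 := by
      refine off _ (fun x hx => ?_) ?_
      · have := relT U v1 x hx
        rwa [ex, v2 x hx, zero_dotProduct, add_zero] at this
      · have := lac U (le2 v1)
        simp only [dl] at this
        simp only [add_dotProduct, dotProduct_add, smul_dotProduct, dotProduct_smul, smul_eq_mul,
          v1.1 a, v1.1 c]
        linear_combination ρ * this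
    obtain ⟨M, q1, q2, q3⟩ := rg U (le2 v1)
    have q4 : M *ᵥ g.p l = 0 := by rw [← q2 l hl, v2 l (by simp)]
    have q5 : M *ᵥ g.p c ≠ 0 := by
      intro e0
      rw [v3, mulVec_add, mulVec_smul, e0, smul_zero, add_zero] at q3
      apply u4
      have hx' : x ∈ ({d, e, l} : Finset V) := by
        simp only [Finset.mem_insert, Finset.mem_singleton] at hx ⊢
        tauto
      rw [dl, v2 x hx', q2 l' hl', skew_zero q1 (g.li3 ac al cl) q3.symm e0 q4]
      simp
    obtain ⟨σ, hσ⟩ := ht U v1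
    obtain ⟨σs, hσs⟩ := ht Us (mk Us (le s1) (by simp [dl, s2 d hd, s3 l hl])
      (by simp [dl, s2 e he, s3 l hl]))
    obtain ⟨τ, hτ⟩ := ht' U (le2 v1)
    obtain ⟨τs, hτs⟩ := ht' Us (le s1)
    have zs : ∀ x ∈ ({d, e, l} : Finset V), Us x = 0 := by
      intro x hx
      simp only [Finset.mem_insert, Finset.mem_singleton] at hx
      rcases hx with rfl | rfl | rfl
      · exact s2 _ hd
      · exact s2 _ he
      · exact s3 _ hl
    have A1 : ∀ x ∈ ({d, e, l} : Finset V), U c ⬝ᵥ g.p x = σ * t x := fun x hx => by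
      rw [← hσ x hx, dl, v2 x hx, zero_dotProduct, add_zero]
    have A2 : ∀ x ∈ ({d, e, l} : Finset V), Us c ⬝ᵥ g.p x = σs * t x := fun x hx => by
      rw [← hσs x hx, dl, zs x hx, zero_dotProduct, add_zero]
    have A3 : ∀ x ∈ L, U c ⬝ᵥ g.p x - (M *ᵥ g.p c) ⬝ᵥ g.p x = τ * t' x := fun x hx => by
      rw [← hτ x hx, dl, q2 x hx, skew_dot q1 (g.p x)]; ring
    have A4 : ∀ x ∈ L, Us c ⬝ᵥ g.p x = τs * t' x := fun x hx => by
      rw [← hτs x hx, dl, s3 x hx, zero_dotProduct, add_zero]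
    have B1 : σs ≠ 0 := fun e0 => s4 (g.cov4 ac (h.ax hd) (h.ax he) (h.cx hd) (h.cx he) f.de sa sc
      (by rw [A2 d (by simp), e0, zero_mul]) (by rw [A2 e (by simp), e0, zero_mul]))
    have B2 : τs ≠ 0 := fun e0 => s4 (g.cov_zero (insert c L)
      (by rw [Finset.card_insert_of_notMem f.cL]; omega) _ fun x hx =>
        (Finset.mem_insert.1 hx).elim (fun e1 => e1 ▸ sc) fun hx => by rw [A4 x hx, e0, zero_mul])
    have C1 : σs • U c - σ • Us c = 0 := g.cov4 (h.cx hd) (h.cx he) cl f.de dl' el'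
      (by simp [v1.1 c, sc]) (by simp [A1 d, A2 d]; ring) (by simp [A1 e, A2 e]; ring)
      (by simp [A1 l, A2 l]; ring)
    have C2 : τs • (U c - M *ᵥ g.p c) - τ • Us c = 0 := g.cov_zero (insert c L)
      (by rw [Finset.card_insert_of_notMem f.cL]; omega) _ fun x hx =>
        (Finset.mem_insert.1 hx).elim (fun e1 => by simp [e1, v1.1 c, sc, skew_self q1])
          fun hx => by
            simp only [sub_dotProduct, smul_dotProduct, smul_eq_mul, A3 x hx, A4 x hx]; ring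
    have D1 : (σs * τs) • (M *ᵥ g.p c) = (τs * σ - σs * τ) • Us c := by
      linear_combination (norm := module) τs • C1 - σs • C2
    have D2 := congrArg (fun m => m ⬝ᵥ g.p l) D1
    simp only [smul_dotProduct, smul_eq_mul] at D2
    rw [skew_dot q1, q4, zero_dotProduct, neg_zero, mul_zero] at D2
    refine (mul_eq_zero.1 D2.symm).resolve_left fun e0 => q5 ?_
    rw [e0, zero_smul] at D1
    exact (smul_eq_zero.1 D1).resolve_left (mul_ne_zero B1 B2)
  have two : ∀ l ∈ L, ∀ l' ∈ L, l ≠ l' → Us c ⬝ᵥ g.p l = 0 ∨ Us c ⬝ᵥ g.p l' = 0 := by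
    intro l hl l' hl' hne
    by_contra hh
    rw [not_or] at hh
    have b1 := mt (good l hl) hh.1
    have b2 := mt (good l' hl') hh.2
    push Not at b1 b2
    obtain ⟨ψ, c1, c2, c3⟩ := b1
    obtain ⟨ψ', c1', c2', c3'⟩ := b2
    have cd : ∀ l ∈ L, ({d, e, l} : Finset V).card = 3 ∧ a ∉ ({d, e, l} : Finset V) ∧
        c ∉ ({d, e, l} : Finset V) := fun l hl => by
      have al : a ≠ l := fun e0 => f.aL (e0 ▸ hl)
      have cl : c ≠ l := fun e0 => f.cL (e0 ▸ hl)
      exact ⟨Finset.card_eq_three.2 ⟨d, e, l, f.de, fun e0 => s.dL (e0 ▸ hl),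
        fun e0 => s.eL (e0 ▸ hl), rfl⟩, by simp [h.ax hd, h.ax he, al],
        by simp [h.cx hd, h.cx he, cl]⟩
    refine g.br (cd l hl).1 (cd l' hl').1 (fun e0 => ?_) ac (cd l hl).2.1 (cd l hl).2.2
      (cd l' hl').2.1 (cd l' hl').2.2 c3 c3' c1 c1' ?_
    · have : l ∈ ({d, e, l'} : Finset V) := e0 ▸ (by simp)
      simp only [Finset.mem_insert, Finset.mem_singleton] at this
      rcases this with e1 | e1 | e1
      · exact s.dL (e1 ▸ hl)
      · exact s.eL (e1 ▸ hl)
      · exact hne e1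
    · simp only [dotProduct_add, dotProduct_smul, smul_eq_mul] at c2 c2'
      linear_combination ψ' ⬝ᵥ g.p c * c2 - ψ ⬝ᵥ g.p c * c2'
  have fin : ∀ l ∈ L, ∀ l' ∈ L, l ≠ l' → Us c ⬝ᵥ g.p l = 0 → Us c ⬝ᵥ g.p l' = 0 → False :=
    fun l hl l' hl' hne e1 e2 => s4 (g.cov4 ac (fun e0 => f.aL (e0 ▸ hl))
      (fun e0 => f.aL (e0 ▸ hl')) (fun e0 => f.cL (e0 ▸ hl)) (fun e0 => f.cL (e0 ▸ hl')) hne
      sa sc e1 e2)
  rcases two _ m1 _ m2 n1 with e1 | e1
  · rcases two _ m2 _ m3 n3 with e2 | e2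
    · exact fin _ m1 _ m2 n1 e1 e2
    · exact fin _ m1 _ m3 n2 e1 e2
  · rcases two _ m1 _ m3 n2 with e2 | e2
    · exact fin _ m1 _ m2 n1 e2 e1
    · exact fin _ m2 _ m3 n3 e1 e2

end Pool.Agent.Dress
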