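import Pool.Agent.Lib.MP_d237f6_co.DR.T1

/-! Degrees of the triangle vertices at a vertex of first type. -/

set_option autoImplicit false

namespace Pool.Agent.Dress

open Matrix Module Classical

variable {K : Type} [Field K] [CharZero K] {V : Type} [DecidableEq V] [Fintype V]

omit [Fintype V] in
theorem B5_third {T : Finset V} (hT : T.card = 3) {b d : V} (hb : b ∈ T) (hd : d ∈ T)
    (hbd : b ≠ d) : ∃ e, T = {b, d, e} ∧ b ≠ e ∧ d ≠ e := by
  have hd' : d ∈ T.erase b := Finset.mem_erase.2 ⟨hbd.symm, hd⟩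
  obtain ⟨e, he⟩ := Finset.card_eq_one.1 (show ((T.erase b).erase d).card = 1 by
    rw [Finset.card_erase_of_mem hd', Finset.card_erase_of_mem hb, hT])
  have me : e ∈ (T.erase b).erase d := he ▸ Finset.mem_singleton_self e
  refine ⟨e, ?_, (Finset.mem_erase.1 (Finset.mem_erase.1 me).2).1.symm,
    (Finset.mem_erase.1 me).1.symm⟩
  rw [← he, Finset.insert_erase hd', Finset.insert_erase hb]

section

variable {g : Gen V K} {G : V → V → Prop} {ω : V → V → K} {w a c : V} {T : Finset V} {ρ : K}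

theorem B5_wb (h : g.Set1 G ω w a c T ρ) {b : V} (hb : b ∈ T) : w ∈ nb ω b :=
  g.nb_symm h.bad.1.1 (by
    rw [h.nbw]; exact Finset.mem_insert_of_mem (Finset.mem_insert_of_mem hb))

theorem B5_xl (h : g.Set1 G ω w a c T ρ) {s t : V} (hs : s ∈ T) (ht : t ∈ T) (hst : s ≠ t)
    (hn : t ∉ nb ω s) (B : Finset V) (hB : B.card ≤ 2) : ∃ ω' u, g.Set1 G ω' w a c T ρ ∧ u ∉ B ∧
      u ≠ w ∧ u ∈ nb ω s ∧ (nb ω' s).card ≤ (nb ω s).card ∧ t ∈ nb ω' s ∧
      ((nb ω s).card ≤ (nb ω' s).card → nb ω' s = insert t ((nb ω s).erase u)) ∧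
      ∀ x, x ≠ s → x ≠ t → nb ω' x ⊆ nb ω x := by
  obtain ⟨ω', u, b', uB, uw, us, t', e1, e2, -, e4⟩ := h.ctx.xl ω w s t B h.bad h.deg
    (h.wx hs).symm (h.wx ht).symm hst (h.t1.lT s hs t ht) hn hB
  have c1 : (insert t ((nb ω s).erase u)).card = (nb ω s).card := by
    rw [Finset.card_insert_of_notMem fun m => hn (Finset.mem_of_mem_erase m),
      Finset.card_erase_add_one us]
  exact ⟨ω', u, h.keep b' e1.subset, uB, uw, us, c1 ▸ Finset.card_le_card e2, t',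
    fun hh => Finset.eq_of_subset_of_card_le e2 (c1 ▸ hh), e4⟩

theorem B5_get (h : g.Set1 G ω w a c T ρ) {s t : V} (hs : s ∈ T) (ht : t ∈ T) (hst : s ≠ t)
    (y : V) : ∃ ω', g.Set1 G ω' w a c T ρ ∧ t ∈ nb ω' s ∧ (nb ω' s).card ≤ (nb ω s).card ∧
      ((nb ω s).card ≤ (nb ω' s).card → y ∈ nb ω s → y ∈ nb ω' s) ∧
      ∀ x, x ≠ s → x ≠ t → nb ω' x ⊆ nb ω x := by
  by_cases hn : t ∈ nb ω s
  · exact ⟨ω, h, hn, le_rfl, fun _ m => m, fun _ _ _ => subset_refl _⟩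
  obtain ⟨ω', u, h', uB, -, -, c1, t', e1, e2⟩ := B5_xl h hs ht hst hn {y} (by simp)
  refine ⟨ω', h', t', c1, fun hh m => ?_, e2⟩
  rw [e1 hh]
  exact Finset.mem_insert_of_mem (Finset.mem_erase.2 ⟨fun e => uB (by simp [e]), m⟩)

theorem B5_setB {b d e : V} (h : g.Set1 G ω w a c {b, d, e} ρ) (hde : d ≠ e) (hd : d ∈ nb ω b)
    (he : e ∈ nb ω b) (h6 : (nb ω b).card ≤ 6) (hk : g.NoK5 G ω w b) :
    g.SetB G ω w a c b d e ρ ((((nb ω b).erase w).erase d).erase e) ∧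
      ((((nb ω b).erase w).erase d).erase e).card + 3 = (nb ω b).card := by
  have m1 : d ∈ (nb ω b).erase w := Finset.mem_erase.2 ⟨(h.wx (by simp)).symm, hd⟩
  have m2 : e ∈ ((nb ω b).erase w).erase d :=
    Finset.mem_erase.2 ⟨hde.symm, Finset.mem_erase.2 ⟨(h.wx (by simp)).symm, he⟩⟩
  have c0 := Finset.card_erase_add_one (B5_wb h (b := b) (by simp))
  have c1 := Finset.card_erase_add_one m1
  have c2 := Finset.card_erase_add_one m2
  exact ⟨⟨h, by rw [Finset.insert_erase m2, Finset.insert_erase m1], by simp, by simp, by omega,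
    hk⟩, by omega⟩

theorem B5_five (h1 : g.StB3) : g.StB5 := by
  intro G ω w a c T ρ h b hb h5
  obtain ⟨d, hd⟩ : (T.erase b).Nonempty := Finset.card_pos.1 (by
    rw [Finset.card_erase_of_mem hb, h.t1.card]; omega)
  obtain ⟨db, hd⟩ := Finset.mem_erase.1 hd
  obtain ⟨e, rfl, be, de⟩ := B5_third h.t1.card hb hd db.symm
  obtain ⟨ω1, s1, m1, c1, -, -⟩ := B5_get h hb hd db.symm d
  have d1 := h.ctx.d5 ω1 b s1.bad.1
  obtain ⟨ω2, s2, m2, c2, k2, -⟩ := B5_get s1 hb (t := e) (by simp) be d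
  have d2 := h.ctx.d5 ω2 b s2.bad.1
  obtain ⟨sb, cb⟩ := B5_setB s2 de (k2 (by omega) m1) m2 (by omega)
    (g.nok_of_deg5 h.ctx s2.bad.1 (by omega) w)
  have := (h1 _ _ _ _ _ _ _ _ _ _ sb).1
  omega

theorem B5_six (h5 : g.StB5) (h : g.Set1 G ω w a c T ρ) {b : V} (hb : b ∈ T)
    (h6 : (nb ω b).card ≤ 6) : (nb ω b).card = 6 := by
  have := h5 _ _ _ _ _ _ _ h b hb
  have := h.ctx.d5 ω b h.bad.1
  omega

theorem B5_nok (h5 : g.StB5) (h : g.Set1 G ω w a c T ρ) {b : V} (hb : b ∈ T)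
    (h6 : (nb ω b).card ≤ 6) : g.NoK5 G ω w b := by
  intro S hS c4 hq
  obtain ⟨s, hs⟩ : S.Nonempty := Finset.card_pos.1 (by omega)
  have sub : S ⊆ nb ω b := hS.trans (Finset.erase_subset _ _)
  obtain ⟨ω', b', r1, r2⟩ := h.ctx.rd ω b S s h.bad.1 sub c4 hq hs
  have h' := h.keep b' (r2 w fun m => (Finset.mem_insert.1 m).elim (h.wx hb)
    fun m => Finset.notMem_erase _ _ (hS m))
  have c1 := Finset.card_le_card r1
  have c2 := Finset.card_erase_add_one (sub hs)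
  have := B5_six h5 h' hb (by omega)
  omega

theorem B5_eq (h2 : g.StB4) {ω' : V → V → K} {b d e b' d' e' : V} {L L' : Finset V}
    (s : g.SetB G ω w a c b d e ρ L) (s' : g.SetB G ω' w a c b' d' e' ρ L') (c1 : L.card = 3)
    (c2 : L'.card = 3) : L = L' := by
  have out : ∀ {ω : V → V → K} {b d e : V} {L : Finset V}, g.SetB G ω w a c b d e ρ L →
      a ∉ L ∧ c ∉ L := fun {ω b d e L} s => by
    have sub : ∀ x ∈ L, x ∈ nb ω b := fun x hx => Finset.mem_of_mem_erase (by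
      rw [s.nbb]; exact Finset.mem_insert_of_mem (Finset.mem_insert_of_mem hx))
    have n := s.s1.nnb (x := b) (by simp)
    exact ⟨fun m => n.2.2.1 (sub a m), fun m => n.2.2.2 (sub c m)⟩
  by_contra ne
  obtain ⟨φ, p0, p1, p2⟩ := h2 _ _ _ _ _ _ _ _ _ _ s
  obtain ⟨φ', q0, q1, q2⟩ := h2 _ _ _ _ _ _ _ _ _ _ s'
  refine g.br c1 c2 ne s.s1.t1.ac (out s).1 (out s).2 (out s').1 (out s').2 p0 q0 p1 q1 ?_
  rw [dotProduct_add, dotProduct_smul, smul_eq_mul] at p2 q2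
  linear_combination (φ' ⬝ᵥ g.p c) * p2 - (φ ⬝ᵥ g.p c) * q2

end

theorem B5_thm (g : Gen V K) (h1 : g.StB3) (h2 : g.StB4) : g.StB5 ∧ g.StB6 := by
  have h5 := B5_five h1
  refine ⟨h5, fun G ω0 w a c T ρ h0 b hb d hd bd b6 d6 => ?_⟩
  obtain ⟨e, rfl, be, de⟩ := B5_third h0.t1.card hb hd bd
  have he : e ∈ ({b, d, e} : Finset V) := by simp
  obtain ⟨ω1, s1, m1, c1, -, r1⟩ := B5_get h0 hb he be d
  have c1' := Finset.card_le_card (r1 d bd.symm de)
  obtain ⟨ω, h, m2, c2, -, r2⟩ := B5_get s1 hd he de b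
  have c2' := Finset.card_le_card (r2 b bd be)
  have nb6 := B5_six h5 h hb (by omega)
  have nd6 := B5_six h5 h hd (by omega)
  have eb : e ∈ nb ω b := by
    rw [Finset.eq_of_subset_of_card_le (r2 b bd be) (by omega)]; exact m1
  by_cases hn : d ∈ nb ω b
  · obtain ⟨sb, cb⟩ := B5_setB h de hn eb nb6.le (B5_nok h5 h hb nb6.le)
    obtain ⟨sd, cd⟩ := B5_setB (b := d) (d := b) (e := e) (by rw [Finset.insert_comm]; exact h) be
      (g.nb_symm h.bad.1.1 hn) m2 nd6.le (B5_nok h5 h hd nd6.le)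
    have eL := B5_eq h2 sb sd (by omega) (by omega)
    obtain ⟨cL, hq, -⟩ := h1 _ _ _ _ _ _ _ _ _ _ sb
    obtain ⟨U, hU, -, U0, Uc, -⟩ := h.exF hb
    obtain ⟨M, hM, hM'⟩ := g.rigX _ U fun x hx y hy => hq x hx y hy U hU
    have hU' := h.F_le b hU
    refine Uc ((h.rod hU' U0 hM (hM' a (by simp)) (hM' c (by simp))).2 b d (h.ax hb) (h.ax hd)
      (h.cx hb) (h.cx hd) bd (by rw [← hM' b (by simp), U0 b hb]) ?_)
    refine g.cov_zero (insert d ((((nb ω b).erase w).erase d).erase e))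
      (by rw [Finset.card_insert_of_notMem sb.dL, cL]) _ fun x hx => ?_
    rcases Finset.mem_insert.1 hx with rfl | hx
    · exact skew_self hM _
    · have x' := hx
      rw [eL] at x'
      obtain ⟨xw, xd⟩ := Finset.mem_erase.1 (Finset.mem_of_mem_erase (Finset.mem_of_mem_erase x'))
      have := hU'.2 d x ⟨mem_nb.1 xd, (h.wx hd).symm, xw⟩
      rw [dl, U0 d hd, zero_dotProduct, zero_add, hM' x (by simp only [Finset.mem_insert]; tauto),
        skew_dot hM, neg_eq_zero] at this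
      exact this
  · have step : ∀ B : Finset V, e ∈ B → B.card ≤ 2 → ∃ ω' u L, g.SetB G ω' w a c b d e ρ L ∧
        L.card = 3 ∧ u ∉ B ∧ u ∉ L ∧ u ∈ (((nb ω b).erase w).erase d).erase e ∧
        ∀ x ∈ (((nb ω b).erase w).erase d).erase e, x ≠ u → x ∈ L := fun B eB cB => by
      obtain ⟨ω', u, h', uB, uw, us, k1, k2, k3, -⟩ := B5_xl h hb hd bd hn B cB
      have k6 := B5_six h5 h' hb (by omega)
      have k4 := k3 (by omega)
      have ue : u ≠ e := fun q => uB (q ▸ eB)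
      have ud : u ≠ d := fun q => hn (q ▸ us)
      obtain ⟨sb, cb⟩ := B5_setB h' de k2 (by rw [k4]; simp [eb, ue.symm]) k6.le
        (B5_nok h5 h' hb k6.le)
      refine ⟨ω', u, _, sb, by omega, uB, by rw [k4]; simp [ud], by simp [ue, ud, uw, us],
        fun x hx xu => ?_⟩
      rw [k4]
      simp only [Finset.mem_erase, Finset.mem_insert] at hx ⊢
      tauto
    obtain ⟨ω', u, L, sb, cL, -, uL, um, -⟩ := step {e} (by simp) (by simp)
    obtain ⟨ω'', u', L', sb', cL', uB, -, -, k⟩ := step {e, u} (by simp) Finset.card_le_two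
    exact uL (B5_eq h2 sb sb' cL cL' ▸ k u um fun q => uB (by simp [q]))

end Pool.Agent.Dress
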