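import Pool.Agent.Lib.MP_d237f6_co.Gen

/-! Flexes, stresses, duality and elementary rigidity in the homogeneous model. -/

set_option autoImplicit false

namespace Pool.Agent.Dress

open Matrix Module

variable {K : Type} [Field K]

section General

variable {I : Type}

/-- the first order change of the pairing of two points -/
def dl (P U : I → Vec K) (u v : I) : K := U u ⬝ᵥ P v + U v ⬝ᵥ P u

theorem dl_comm (P U : I → Vec K) (u v : I) : dl P U u v = dl P U v u := add_comm _ _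

theorem dl_add (P U U' : I → Vec K) (u v : I) :
    dl P (U + U') u v = dl P U u v + dl P U' u v := by
  simp only [dl, Pi.add_apply, add_dotProduct]; ring

theorem dl_sub (P U U' : I → Vec K) (u v : I) :
    dl P (U - U') u v = dl P U u v - dl P U' u v := by
  simp only [dl, Pi.sub_apply, sub_dotProduct]; ring

theorem dl_smul (P U : I → Vec K) (c : K) (u v : I) : dl P (c • U) u v = c * dl P U u v := by
  simp only [dl, Pi.smul_apply, smul_dotProduct, smul_eq_mul]; ring

theorem dl_zero (P : I → Vec K) (u v : I) : dl P 0 u v = 0 := by simp [dl]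

theorem dl_lin (P : I → Vec K) (u v : I) : IsLinearMap K (fun U => dl P U u v) :=
  ⟨fun a b => dl_add P a b u v, fun c a => dl_smul P a c u v⟩

/-- `dl` as a linear functional -/
def dlL (P : I → Vec K) (u v : I) : (I → Vec K) →ₗ[K] K := (dl_lin P u v).mk' _

theorem dlL_apply (P U : I → Vec K) (u v : I) : dlL P u v U = dl P U u v := rfl

theorem skew_dot {L : Mat K} (hL : Lᵀ = -L) (x y : Vec K) :
    (L *ᵥ x) ⬝ᵥ y = -((L *ᵥ y) ⬝ᵥ x) := by
  have h1 : (L *ᵥ x) ⬝ᵥ y = bil L y x := (bil_eq' L y x).symm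
  have h2 : (L *ᵥ y) ⬝ᵥ x = bil L x y := (bil_eq' L x y).symm
  rw [h1, h2, ← bil_transpose L x y, hL]
  simp [bil, neg_mulVec]

theorem skew_self [CharZero K] {L : Mat K} (hL : Lᵀ = -L) (x : Vec K) : (L *ᵥ x) ⬝ᵥ x = 0 := by
  have := skew_dot hL x x
  linear_combination this / 2

theorem dl_skew (P : I → Vec K) {L : Mat K} (hL : Lᵀ = -L) (u v : I) :
    dl P (fun x => L *ᵥ P x) u v = 0 := by
  simp only [dl]; rw [skew_dot hL]; ring

theorem dl_sub_skew (P U : I → Vec K) {L : Mat K} (hL : Lᵀ = -L) (u v : I) :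
    dl P (fun x => U x - L *ᵥ P x) u v = dl P U u v := by
  have := dl_sub P U (fun x => L *ᵥ P x) u v
  rw [dl_skew P hL, sub_zero] at this
  exact this

variable [Fintype I]

theorem pair (P : I → Vec K) (Ω : I → I → K) (hs : ∀ u v, Ω u v = Ω v u) (U : I → Vec K) :
    ∑ u, ∑ v, Ω u v * dl P U u v = 2 * ∑ u, U u ⬝ᵥ ∑ v, Ω u v • P v := by
  simp only [dl, mul_add, Finset.sum_add_distrib, dotProduct_sum, dotProduct_smul, smul_eq_mul]
  rw [Finset.sum_comm (f := fun u v => Ω u v * (U v ⬝ᵥ P u)), two_mul]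
  congr 1
  exact Finset.sum_congr rfl fun u _ => Finset.sum_congr rfl fun v _ => by rw [hs]

theorem load_ext [DecidableEq I] {ℓ ℓ' : I → Vec K}
    (h : ∀ U : I → Vec K, ∑ i, U i ⬝ᵥ ℓ i = ∑ i, U i ⬝ᵥ ℓ' i) : ℓ = ℓ' := by
  ext i k
  have := h (Pi.single i (Pi.single k 1))
  rw [Finset.sum_eq_single i (fun j _ hj => by simp [hj]) (by simp),
    Finset.sum_eq_single i (fun j _ hj => by simp [hj]) (by simp)] at this
  simpa using this

open Classical in
theorem sym_ext (E : I → I → Prop) (c : {ij : I × I // E ij.1 ij.2} → K) :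
    ∃ Ξ : I → I → K, (∀ i j, Ξ i j = Ξ j i) ∧ (∀ i j, Ξ i j ≠ 0 → E i j ∨ E j i) ∧
      ∀ ψ : I → I → K, (∀ i j, ψ i j = ψ j i) →
        ∑ i, ∑ j, Ξ i j * ψ i j = 2 * ∑ ij, c ij * ψ ij.1.1 ij.1.2 := by
  classical
  let c' : I → I → K := fun i j => if h : E i j then c ⟨(i, j), h⟩ else 0
  refine ⟨fun i j => c' i j + c' j i, fun i j => add_comm _ _, fun i j h => ?_, fun ψ hψ => ?_⟩
  · by_contra hh
    rw [not_or] at hh
    simp [c', hh.1, hh.2] at h
  · have e : ∑ i, ∑ j, c' i j * ψ i j = ∑ ij, c ij * ψ ij.1.1 ij.1.2 := by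
      rw [← Fintype.sum_prod_type', ← Finset.sum_filter_add_sum_filter_not Finset.univ
        (fun ij : I × I => E ij.1 ij.2),
        Finset.sum_eq_zero (s := Finset.univ.filter (fun ij : I × I => ¬ E ij.1 ij.2)), add_zero,
        Finset.sum_subtype (p := fun ij : I × I => E ij.1 ij.2) _ (by simp)]
      · exact Finset.sum_congr rfl fun ij _ => by simp [c', ij.2]
      · intro ij hij
        simp only [Finset.mem_filter, Finset.mem_univ, true_and] at hij
        simp [c', hij]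
    simp only [add_mul, Finset.sum_add_distrib]
    rw [Finset.sum_comm (f := fun i j => c' j i * ψ i j), two_mul, ← e]
    congr 1
    exact Finset.sum_congr rfl fun u _ => Finset.sum_congr rfl fun v _ => by rw [hψ]

variable [CharZero K]

/-- a load orthogonal to all flexes is resolved -/
theorem res0 [DecidableEq I] (P : I → Vec K) (E : I → I → Prop) (ℓ : I → Vec K)
    (h : ∀ U : I → Vec K, (∀ i j, E i j → dl P U i j = 0) → ∑ i, U i ⬝ᵥ ℓ i = 0) :
    ∃ Ξ : I → I → K, (∀ i j, Ξ i j = Ξ j i) ∧ (∀ i j, Ξ i j ≠ 0 → E i j ∨ E j i) ∧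
      ∀ i, ∑ j, Ξ i j • P j = ℓ i := by
  classical
  obtain ⟨c, hc⟩ := la1 (K := K) (⊤ : Submodule K (I → Vec K))
    (fun (ij : {ij : I × I // E ij.1 ij.2}) U => dl P U ij.1.1 ij.1.2)
    (fun ij => dl_lin P _ _) (fun U => ∑ i, U i ⬝ᵥ ℓ i)
    ⟨fun a b => by simp [Finset.sum_add_distrib], fun r a => by simp [Finset.mul_sum]⟩
    (fun U _ hU => h U (fun i j hij => hU ⟨(i, j), hij⟩))
  obtain ⟨Ξ, h1, h2, h3⟩ := sym_ext E c
  refine ⟨Ξ, h1, h2, fun i => congrFun (load_ext (ℓ := fun i => ∑ j, Ξ i j • P j) fun U => ?_) i⟩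
  have e1 := pair P Ξ h1 U
  rw [h3 _ (dl_comm P U), ← hc U trivial] at e1
  linear_combination -e1 / 2

/-- a symmetric function orthogonal to all stresses is a first order change -/
theorem res1 [DecidableEq I] (P : I → Vec K) (E : I → I → Prop) (ψ : I → I → K)
    (hψ : ∀ i j, ψ i j = ψ j i)
    (h : ∀ Ω : I → I → K, (∀ i j, Ω i j = Ω j i) → (∀ i j, Ω i j ≠ 0 → E i j ∨ E j i) →
      (∀ i, ∑ j, Ω i j • P j = 0) → ∑ i, ∑ j, Ω i j * ψ i j = 0) :
    ∃ U : I → Vec K, ∀ i j, E i j → dl P U i j = ψ i j := by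
  classical
  let D : (I → Vec K) →ₗ[K] ({ij : I × I // E ij.1 ij.2} → K) :=
    LinearMap.pi (fun ij => dlL P ij.1.1 ij.1.2)
  by_contra hc
  have hn : (fun ij : {ij : I × I // E ij.1 ij.2} => ψ ij.1.1 ij.1.2) ∉ LinearMap.range D := by
    rintro ⟨U, hU⟩
    exact hc ⟨U, fun i j hij => congrFun hU ⟨(i, j), hij⟩⟩
  obtain ⟨f, hf1, hf2⟩ := Submodule.exists_le_ker_of_notMem hn
  have hf : ∀ x, f x = ∑ ij, f (Pi.single ij 1) * x ij := by
    intro x
    rw [LinearMap.pi_apply_eq_sum_univ]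
    refine Finset.sum_congr rfl fun i _ => ?_
    have : (fun j => if i = j then (1 : K) else 0) = Pi.single i 1 := by
      ext j; simp [Pi.single_apply, eq_comm]
    rw [this, smul_eq_mul, mul_comm]
  obtain ⟨Ξ, h1, h2, h3⟩ := sym_ext E (fun ij => f (Pi.single ij 1))
  have h4 : (fun i => ∑ j, Ξ i j • P j) = fun _ => 0 := by
    refine load_ext fun U => ?_
    have e1 := pair P Ξ h1 U
    have e2 : f (D U) = 0 := hf2 ⟨U, rfl⟩
    rw [hf] at e2
    rw [h3 _ (dl_comm P U)] at e1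
    have e3 : ∑ ij : {ij : I × I // E ij.1 ij.2}, f (Pi.single ij 1) * dl P U ij.1.1 ij.1.2 = 0 := e2
    rw [e3] at e1
    simp only [dotProduct_zero, Finset.sum_const_zero]
    linear_combination -e1 / 2
  have h5 := h Ξ h1 h2 (fun i => congrFun h4 i)
  rw [h3 ψ hψ, ← hf] at h5
  exact hf1 (by linear_combination h5 / 2)

end General

section Skew

/-- prescribed values of a matrix at independent vectors -/
theorem exists_mat' {ι : Type} [Fintype ι] (z θ : ι → Vec K) (hz : LinearIndependent K z) :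
    ∃ B : Mat K, ∀ i, B *ᵥ z i = θ i := by
  obtain ⟨f, hf⟩ := LinearMap.exists_extend ((Module.Basis.span hz).constr K θ)
  refine ⟨LinearMap.toMatrix' f, fun b => ?_⟩
  rw [LinearMap.toMatrix'_mulVec]
  have := LinearMap.congr_fun hf (Module.Basis.span hz b)
  rw [Module.Basis.constr_basis, LinearMap.comp_apply, Submodule.subtype_apply,
    Module.Basis.span_apply] at this
  exact this

/-- compatible velocities at independent vectors come from a skew matrix -/
theorem rig {ι : Type} [Fintype ι] (z θ : ι → Vec K) (hz : LinearIndependent K z)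
    (h : ∀ i j, θ i ⬝ᵥ z j + θ j ⬝ᵥ z i = 0) :
    ∃ L : Mat K, Lᵀ = -L ∧ ∀ i, L *ᵥ z i = θ i := by
  obtain ⟨B, hB⟩ := exists_mat' z θ hz
  obtain ⟨E, hE⟩ := exists_mat' z z hz
  obtain ⟨f, hf⟩ := (Submodule.span K (Set.range z)).exists_isCompl
  let π := LinearMap.toMatrix' ((Submodule.span K (Set.range z)).projection f hf)
  have hπ : ∀ m, π *ᵥ m ∈ Submodule.span K (Set.range z) := fun m => by
    rw [LinearMap.toMatrix'_mulVec]
    exact Submodule.projection_apply_mem hf m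
  have hπz : ∀ i, π *ᵥ z i = z i := fun i => by
    rw [LinearMap.toMatrix'_mulVec]
    exact Submodule.projection_apply_of_mem_left hf (Submodule.subset_span ⟨i, rfl⟩)
  have key : ∀ x ∈ Submodule.span K (Set.range z), ∀ y ∈ Submodule.span K (Set.range z),
      (B *ᵥ x) ⬝ᵥ y + (B *ᵥ y) ⬝ᵥ x = 0 := by
    intro x hx y hy
    obtain ⟨a, rfl⟩ := (Submodule.mem_span_range_iff_exists_fun K).1 hx
    obtain ⟨b, rfl⟩ := (Submodule.mem_span_range_iff_exists_fun K).1 hy
    simp only [mulVec_sum, mulVec_smul, hB, sum_dotProduct, dotProduct_sum, smul_dotProduct,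
      dotProduct_smul, smul_eq_mul, Finset.mul_sum]
    rw [Finset.sum_comm, ← Finset.sum_add_distrib]
    refine Finset.sum_eq_zero fun i _ => ?_
    rw [← Finset.sum_add_distrib]
    refine Finset.sum_eq_zero fun j _ => ?_
    linear_combination a i * b j * h i j
  have k2 : πᵀ * B * π + πᵀ * Bᵀ * π = 0 := by
    ext i j
    have := key _ (hπ (Pi.single j 1)) _ (hπ (Pi.single i 1))
    have e : ∀ (C : Mat K), (πᵀ * C * π) i j = (π *ᵥ Pi.single i 1) ⬝ᵥ (C *ᵥ (π *ᵥ Pi.single j 1)) := by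
      intro C
      rw [← bil_single (πᵀ * C * π) i j, bil, ← mulVec_mulVec, ← mulVec_mulVec, dotProduct_mulVec,
        vecMul_transpose]
    rw [Matrix.add_apply, e, e, Matrix.zero_apply, mulVec_transpose, dotProduct_comm _ (_ ᵥ* B),
      ← dotProduct_mulVec, dotProduct_comm (π *ᵥ Pi.single i 1),
      dotProduct_comm (π *ᵥ Pi.single j 1)]
    exact this
  refine ⟨B * π - πᵀ * Bᵀ - πᵀ * B * π, ?_, fun i => ?_⟩
  · simp only [transpose_sub, transpose_mul, transpose_transpose]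
    rw [← Matrix.mul_assoc, eq_neg_of_add_eq_zero_right k2]
    abel
  · have k3 := congrArg (fun C => C *ᵥ z i) k2
    simp only [add_mulVec, ← mulVec_mulVec, hπz, zero_mulVec, hB] at k3
    simp only [sub_mulVec, ← mulVec_mulVec, hπz, hB]
    linear_combination (exp := 1) -k3

/-- a covector orthogonal to a spanning family vanishes -/
theorem cov_zero4 {z : Fin 4 → Vec K} (hz : LinearIndependent K z) {f : Vec K}
    (h : ∀ i, f ⬝ᵥ z i = 0) : f = 0 := by
  apply vec_eq_zero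
  intro m
  have h1 := hz.span_eq_top_of_card_eq_finrank' (by simp)
  have h2 : m ∈ Submodule.span K (Set.range z) := by rw [h1]; trivial
  obtain ⟨c, rfl⟩ := (Submodule.mem_span_range_iff_exists_fun K).1 h2
  simp [dotProduct_sum, h]

/-- covectors orthogonal to three independent vectors are proportional -/
theorem normal_prop {x y z f f' : Vec K} (h : LinearIndependent K ![x, y, z]) (hf : f ≠ 0)
    (h1 : f ⬝ᵥ x = 0) (h2 : f ⬝ᵥ y = 0) (h3 : f ⬝ᵥ z = 0)
    (h1' : f' ⬝ᵥ x = 0) (h2' : f' ⬝ᵥ y = 0) (h3' : f' ⬝ᵥ z = 0) : ∃ c : K, f' = c • f := by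
  obtain ⟨m, hm⟩ : ∃ m, f ⬝ᵥ m ≠ 0 := by
    by_contra hh; push Not at hh; exact hf (vec_eq_zero hh)
  have hi : LinearIndependent K ![m, x, y, z] := by
    refine linearIndependent_finCons.2 ⟨h, fun hmem => hm ?_⟩
    obtain ⟨c, rfl⟩ := (Submodule.mem_span_range_iff_exists_fun K).1 hmem
    simp [Fin.sum_univ_three, h1, h2, h3]
  refine ⟨f' ⬝ᵥ m / f ⬝ᵥ m, sub_eq_zero.1 (cov_zero4 hi fun i => ?_)⟩
  fin_cases i <;> simp [h1, h2, h3, h1', h2', h3']
  field_simp
  simp

/-- there is a nonzero covector orthogonal to three vectors -/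
theorem exists_normal (x y z : Vec K) :
    ∃ f : Vec K, f ≠ 0 ∧ f ⬝ᵥ x = 0 ∧ f ⬝ᵥ y = 0 ∧ f ⬝ᵥ z = 0 := by
  obtain ⟨lam, h0, h1⟩ := dep (K := K) (ι := Fin 4) (κ := Fin 3) (by simp)
    (fun i j => ![x, y, z] j i)
  exact ⟨lam, h0, h1 0, h1 1, h1 2⟩

/-- a skew matrix killing three independent vectors vanishes -/
theorem skew_zero [CharZero K] {L : Mat K} (hL : Lᵀ = -L) {x y z : Vec K}
    (h : LinearIndependent K ![x, y, z]) (hx : L *ᵥ x = 0) (hy : L *ᵥ y = 0) (hz : L *ᵥ z = 0) :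
    L = 0 := by
  have key : ∀ m, L *ᵥ m = 0 := by
    intro m
    by_cases hm : m ∈ Submodule.span K (Set.range ![x, y, z])
    · obtain ⟨c, rfl⟩ := (Submodule.mem_span_range_iff_exists_fun K).1 hm
      simp [Fin.sum_univ_three, mulVec_add, mulVec_smul, hx, hy, hz]
    · have hi : LinearIndependent K ![m, x, y, z] := linearIndependent_finCons.2 ⟨h, hm⟩
      refine cov_zero4 hi fun i => ?_
      fin_cases i
      · exact skew_self hL m
      · show L *ᵥ m ⬝ᵥ x = 0
        rw [skew_dot hL, hx]; simp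
      · show L *ᵥ m ⬝ᵥ y = 0
        rw [skew_dot hL, hy]; simp
      · show L *ᵥ m ⬝ᵥ z = 0
        rw [skew_dot hL, hz]; simp
  ext i j
  simpa using congrFun (key (Pi.single j 1)) i

/-- the normal of three constant vectors can be chosen constant -/
theorem const_normal {ι : Type} (δ : ι → Der K) {x y z f : Vec K}
    (h : LinearIndependent K ![x, y, z]) (hx : ∀ i, dv (δ i) x = 0) (hy : ∀ i, dv (δ i) y = 0)
    (hz : ∀ i, dv (δ i) z = 0) (hf : f ≠ 0) (h1 : f ⬝ᵥ x = 0) (h2 : f ⬝ᵥ y = 0)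
    (h3 : f ⬝ᵥ z = 0) : ∃ c : K, c ≠ 0 ∧ ∀ i, dv (δ i) (c • f) = 0 := by
  obtain ⟨k, hk⟩ : ∃ k, f k ≠ 0 := by
    by_contra hh; push Not at hh; exact hf (funext hh)
  refine ⟨(f k)⁻¹, inv_ne_zero hk, fun i => ?_⟩
  have e : ∀ m, f ⬝ᵥ m = 0 → dv (δ i) m = 0 → dv (δ i) ((f k)⁻¹ • f) ⬝ᵥ m = 0 := by
    intro m hm hm'
    have := d_dot (δ i) ((f k)⁻¹ • f) m
    rw [hm', smul_dotProduct, hm, smul_zero, map_zero, dotProduct_zero, add_zero] at this
    exact this.symm
  obtain ⟨c, hc⟩ := normal_prop h hf h1 h2 h3 (e x h1 (hx i)) (e y h2 (hy i)) (e z h3 (hz i))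
  have h5 := congrFun hc k
  simp only [dv, Pi.smul_apply, smul_eq_mul, inv_mul_cancel₀ hk, Derivation.map_one_eq_zero] at h5
  rw [hc, (mul_eq_zero.1 h5.symm).resolve_right hk, zero_smul]

end Skew

/-- dimension of an image drops by at most the number of conditions -/
theorem finrank_map_le_add {X Y Z : Type} [AddCommGroup X] [Module K X] [AddCommGroup Y]
    [Module K Y] [AddCommGroup Z] [Module K Z] [FiniteDimensional K X] [FiniteDimensional K Z]
    (S : Submodule K X) (Ξ : X →ₗ[K] Y) (χ : X →ₗ[K] Z) :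
    finrank K (S.map Ξ) ≤ finrank K ((S ⊓ LinearMap.ker χ).map Ξ) + finrank K Z := by
  obtain ⟨T, hT⟩ := (LinearMap.ker (χ.domRestrict S)).exists_isCompl
  have h1 : finrank K T ≤ finrank K Z := by
    refine LinearMap.finrank_le_finrank_of_injective (f := (χ.domRestrict S).domRestrict T) ?_
    rw [injective_iff_map_eq_zero]
    intro x hx
    have : x.1 ∈ LinearMap.ker (χ.domRestrict S) ⊓ T := ⟨hx, x.2⟩
    rw [hT.inf_eq_bot] at this
    exact Subtype.ext this
  have h2 : S.map Ξ ≤ (S ⊓ LinearMap.ker χ).map Ξ ⊔ T.map (Ξ.domRestrict S) := by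
    rintro _ ⟨x, hx, rfl⟩
    have : (⟨x, hx⟩ : S) ∈ LinearMap.ker (χ.domRestrict S) ⊔ T := by rw [hT.sup_eq_top]; trivial
    obtain ⟨a, ha, b, hb, hab⟩ := Submodule.mem_sup.1 this
    have e : x = a.1 + b.1 := (congrArg Subtype.val hab).symm
    rw [e, map_add]
    exact Submodule.add_mem_sup ⟨a.1, ⟨a.2, ha⟩, rfl⟩ ⟨b, hb, rfl⟩
  have h3 := Submodule.finrank_mono h2
  have h4 := Submodule.finrank_add_le_finrank_add_finrank ((S ⊓ LinearMap.ker χ).map Ξ)
    (T.map (Ξ.domRestrict S))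
  have h5 := Submodule.finrank_map_le (Ξ.domRestrict S) T
  omega

/-- filtration bound: a part killed by a map plus the rank of another part -/
theorem finrank_layer {X Y : Type} [AddCommGroup X] [Module K X] [AddCommGroup Y] [Module K Y]
    (S S₁ S₂ : Submodule K X) [FiniteDimensional K S] (f : X →ₗ[K] Y) (h1 : S₁ ≤ S) (h2 : S₂ ≤ S)
    (hk : S₁ ≤ LinearMap.ker f) : finrank K S₁ + finrank K (S₂.map f) ≤ finrank K S := by
  have e := LinearMap.finrank_range_add_finrank_ker (f.domRestrict S)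
  have a1 : finrank K S₁ ≤ finrank K (LinearMap.ker (f.domRestrict S)) := by
    refine LinearMap.finrank_le_finrank_of_injective
      (f := LinearMap.codRestrict _ (Submodule.inclusion h1) (fun x => hk x.2)) ?_
    intro x y hxy
    exact Submodule.inclusion_injective h1 (congrArg Subtype.val hxy)
  have a2 : finrank K (S₂.map f) ≤ finrank K (LinearMap.range (f.domRestrict S)) := by
    refine Submodule.finrank_mono ?_
    rintro _ ⟨x, hx, rfl⟩
    exact ⟨⟨x, h2 hx⟩, rfl⟩
  omega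

end Pool.Agent.Dress
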