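import Pool.Agent.Lib.MP_d237f6_co.DR.CB1

/-! Six conditions of rank two have rank one. -/

set_option autoImplicit false

namespace Pool.Agent.Dress

open Matrix Module Classical

variable {K : Type} [Field K] [CharZero K] {V : Type} [DecidableEq V] [Fintype V]

/-- the covector of the edge condition at a vertex -/
def CB_psi (g : Gen V K) (x : V) (s : (V → Vec K) × Mat K) : Vec K := s.1 x + s.2ᵀ *ᵥ g.p x

section Aux

variable {g : Gen V K} {i : V} {A N : Finset V} {S : Submodule K ((V → Vec K) × Mat K)}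

omit [CharZero K] [Fintype V] in
theorem CB_lin (x : V) : IsLinearMap K fun s => g.Bf i s x :=
  lin_dot (χ := CB_psi g x) ⟨fun a b => by simp [CB_psi, add_mulVec]; abel,
    fun c a => by simp [CB_psi, smul_mulVec]⟩ _

omit [CharZero K] [Fintype V] in
theorem CB_act {x : V} (hx : x ≠ i) (k : Fin 4) (s : (V → Vec K) × Mat K) :
    CB_psi g x (dU (g.d i k) s.1, dm (g.d i k) s.2) = dv (g.d i k) (CB_psi g x s) := by
  rw [CB_psi, CB_psi, dv_add, dv_mulVec _ _ _ (g.d_ne hx k)]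
  rfl

omit [CharZero K] [Fintype V] in
theorem CB_dot (x y : V) (s : (V → Vec K) × Mat K) :
    CB_psi g x s ⬝ᵥ g.p y = s.1 x ⬝ᵥ g.p y + bil s.2 (g.p x) (g.p y) := by
  rw [CB_psi, add_dotProduct, ← bil_eq', bil_transpose]

omit [CharZero K] in
theorem CB_plane (h : g.CHyp i A N S) (n : Vec K) : ¬ ∀ s ∈ {s | s ∈ S ∧ g.Zf i N s},
    ∃ φ, φ ⬝ᵥ g.p i = 0 ∧ ∀ z, bil s.2 z z = (n ⬝ᵥ z) * (φ ⬝ᵥ z) := by
  intro H
  have key : ∀ a ∈ A, n ⬝ᵥ g.p a = 0 ∧ n ≠ 0 := fun a ha => by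
    obtain ⟨s, hs, hz, h0⟩ := h.unl a ha
    obtain ⟨φ, h1, h2⟩ := H s ⟨hs, hz⟩
    have h3 := h2 (g.p a)
    rw [bil_eq', h.hM s hs a ha, h.hl s hs a (Finset.mem_union_left _ ha)] at h3
    rw [CB_sb, h2, h2, h2, dotProduct_add, dotProduct_add, h1] at h0
    refine ⟨(mul_eq_zero.1 h3.symm).resolve_right fun e => h0 ?_, fun e => h0 (by simp [e])⟩
    rw [e]
    ring
  obtain ⟨a, ha⟩ : A.Nonempty := Finset.card_pos.1 (by rw [h.cardA]; norm_num)
  exact (key a ha).2 (g.cov_zero A h.cardA.ge n fun b hb => (key b hb).1)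

omit [CharZero K] in
theorem CB_m2 (h : g.CHyp i A N S) : ∃ s ∈ S, ∃ s' ∈ S, g.Zf i N s ∧ g.Zf i N s' ∧
    ∀ t t' : K, (∀ z, t * bil s.2 z z + t' * bil s'.2 z z = 0) → t = 0 ∧ t' = 0 := by
  obtain ⟨s, hs, s', hs', h1, h2, h3⟩ := h.m2
  refine ⟨s, hs, s', hs', h1, h2, fun t t' e => h3 t t' ?_⟩
  rw [← CB_sym (M := t • s.2 + t' • s'.2) fun z => by rw [bil_add, bil_smul, bil_smul, e]]
  simp only [smul_add, transpose_add, transpose_smul]
  abel

omit [CharZero K] in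
theorem CB_span (h : g.CHyp i A N S) {j k : V} (hj : j ∈ N) (hk : k ∈ N)
    (ind : ∀ t t' : K, (∀ s ∈ S, t * g.Bf i s j + t' * g.Bf i s k = 0) → t = 0 ∧ t' = 0) :
    ∃ (c : Fin 2 → K) (e : V → Fin 2 → K),
      (∀ s ∈ S, bil s.2 (g.p i) (g.p i) = ∑ l, c l * g.Bf i s (![j, k] l)) ∧
      (∀ x ∈ N, ∀ s ∈ S, g.Bf i s x = ∑ l, e x l * g.Bf i s (![j, k] l)) ∧ ∀ x ∉ N, e x = 0 := by
  have ne : ∀ x ∈ N, x ≠ i := fun x hx e => h.iN (e ▸ hx)
  have key : ∀ s ∈ S, (∀ l, g.Bf i s (![j, k] l) = 0) → ∀ x ∈ insert i N,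
      (if x = i then bil s.2 (g.p i) (g.p i) else g.Bf i s x) = 0 := fun s hs h0 x hx => by
    refine CB_rel (S := (S : Set _)) (j := j) (k := k) (by rw [Finset.card_insert_of_notMem h.iN,
      h.cardN]) (by simp [hj]) (by simp [hk]) ?_
      (fun x s => if x = i then bil s.2 (g.p i) (g.p i) else g.Bf i s x) g.p (fun z => ?_)
      (by simpa only [if_neg (ne j hj), if_neg (ne k hk), SetLike.mem_coe] using ind) hs
      ((if_neg (ne j hj)).trans (h0 0)) ((if_neg (ne k hk)).trans (h0 1)) hx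
    · rintro rfl
      exact one_ne_zero (ind 1 (-1) fun s _ => by ring).1
    · obtain ⟨μ, μ₀, h1, h2⟩ := h.rel z
      refine ⟨fun x => if x = i then μ₀ else μ x, ?_, fun s hs => ?_⟩
      · beta_reduce
        rw [Finset.sum_insert h.iN, if_pos rfl, add_comm, ← h1]
        exact congrArg (· + _) (Finset.sum_congr rfl fun x hx => by rw [if_neg (ne x hx)])
      · beta_reduce
        rw [Finset.sum_insert h.iN, if_pos rfl, if_pos rfl, add_comm, ← h2 s hs]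
        exact congrArg (· + _) (Finset.sum_congr rfl fun x hx => by simp only [if_neg (ne x hx)])
  obtain ⟨c, hc⟩ := la1 S (fun l s => g.Bf i s (![j, k] l)) (fun l => CB_lin _)
    (fun s => bil s.2 (g.p i) (g.p i)) (lin_bil ⟨fun _ _ => rfl, fun _ _ => rfl⟩ _ _)
    fun s hs h0 => by simpa using key s hs h0 i (by simp)
  have : ∀ x, ∃ e : Fin 2 → K,
      (x ∈ N → ∀ s ∈ S, g.Bf i s x = ∑ l, e l * g.Bf i s (![j, k] l)) ∧ (x ∉ N → e = 0) := by
    intro x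
    by_cases hx : x ∈ N
    · obtain ⟨e, he⟩ := la1 S (fun l s => g.Bf i s (![j, k] l)) (fun l => CB_lin _)
        (fun s => g.Bf i s x) (CB_lin _)
        fun s hs h0 => by simpa [ne x hx] using key s hs h0 x (by simp [hx])
      exact ⟨e, fun _ => he, fun e => (e hx).elim⟩
    · exact ⟨0, fun e => (hx e).elim, fun _ => rfl⟩
  choose e h1 h2 using this
  exact ⟨c, e, hc, h1, h2⟩

theorem CB_flat (h : g.CHyp i A N S) {j k : V} (hj : j ∈ N) (hk : k ∈ N)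
    (ind : ∀ t t' : K, (∀ s ∈ S, t * g.Bf i s j + t' * g.Bf i s k = 0) → t = 0 ∧ t' = 0) :
    ∃ (g₁ g₂ : Vec K) (e : V → Fin 2 → K),
      (∀ s ∈ S, ∀ z, bil s.2 z z =
        (g₁ ⬝ᵥ z) * (CB_psi g j s ⬝ᵥ z) + (g₂ ⬝ᵥ z) * (CB_psi g k s ⬝ᵥ z)) ∧
      (∀ x ∈ N, ∀ s ∈ S, CB_psi g x s = e x 0 • CB_psi g j s + e x 1 • CB_psi g k s) ∧
      ∀ x ∉ N, e x = 0 := by
  obtain ⟨c, e, hc, he, he0⟩ := CB_span h hj hk ind
  have ne : ∀ x ∈ N, x ≠ i := fun x hx e => h.iN (e ▸ hx)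
  have hχ : ∀ (l : Fin 2) (k' : Fin 4) (s : (V → Vec K) × Mat K),
      CB_psi g (![j, k] l) (dU (g.d i k') s.1, dm (g.d i k') s.2) =
        dv (g.d i k') (CB_psi g (![j, k] l) s) := fun l => by
    fin_cases l
    exacts [CB_act (ne j hj), CB_act (ne k hk)]
  have r0 : ∀ s ∈ (S : Set ((V → Vec K) × Mat K)), bil s.2 (g.p i) (g.p i) + 0 ⬝ᵥ g.p i =
      ∑ l, c l * (CB_psi g (![j, k] l) s ⬝ᵥ g.p i) := fun s hs => by
    rw [zero_dotProduct, add_zero]
    exact hc s hs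
  have r1 : ∀ x ∈ N, ∀ s ∈ (S : Set ((V → Vec K) × Mat K)), bil 0 (g.p i) (g.p i) +
      CB_psi g x s ⬝ᵥ g.p i = ∑ l, e x l * (CB_psi g (![j, k] l) s ⬝ᵥ g.p i) := fun x hx s hs => by
    rw [bil_zero, zero_add]
    exact he x hx s hs
  have a1 := sd1 (g.d i) (g.p i) (g.d_self i) _ _ h.stab (fun s => s.2) (fun _ _ => rfl)
    (fun _ => 0) (fun _ _ => (dv_zero _).symm) _ hχ c r0
  have a2 := td1 (g.d i) (g.p i) (g.d_self i) _ _ h.stab (fun s => s.2) (fun _ _ => rfl)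
    (fun _ => 0) (fun _ _ => (dv_zero _).symm) _ hχ c r0
  have a3 := fun x hx => sd1 (g.d i) (g.p i) (g.d_self i) _ _ h.stab (fun _ => 0)
    (fun _ _ => (dm_zero _).symm) _ (CB_act (ne x hx)) _ hχ (e x) (r1 x hx)
  have a4 := fun x hx => fd0 (g.d i) (g.p i) (g.d_self i) _ _ h.stab (fun _ => 0)
    (fun _ _ => (dm_zero _).symm) _ (CB_act (ne x hx)) _ hχ (e x) (r1 x hx)
  simp only [Fin.sum_univ_two, Fin.forall_fin_two, cons_val_zero, cons_val_one, sb, bil_zero,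
    dotProduct_single, mul_one] at a1 a2 a3 a4
  have hy : ∀ s ∈ {s | s ∈ S ∧ g.Zf i N s},
      CB_psi g j s ⬝ᵥ g.p i = 0 ∧ CB_psi g k s ⬝ᵥ g.p i = 0 :=
    fun s hs => ⟨hs.2.1 j hj, hs.2.1 k hk⟩
  obtain ⟨s₁, h₁, s₂, h₂, z₁, z₂, m2⟩ := CB_m2 h
  obtain ⟨s, hs, s', hs', z₀, hD⟩ := CB_two (Q := fun s z => bil s.2 z z)
    (g₁ := fun k' => g.d i k' (c 0)) (g₂ := fun k' => g.d i k' (c 1)) (fun s hs z => by
      have := a1 s hs.1 z
      rw [(hy s hs).1, (hy s hs).2] at this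
      linear_combination this / 2) hy (CB_plane h) ⟨h₁, z₁⟩ ⟨h₂, z₂⟩ m2
  obtain ⟨b1, b2⟩ := CB_one (poly_hes (g.d i) (c 0)) (poly_hes (g.d i) (c 1)) hD
    (a2 s hs.1 (hy s hs)) (a2 s' hs'.1 (hy s' hs'))
  refine ⟨fun k' => g.d i k' (c 0), fun k' => g.d i k' (c 1), e, fun s hs z => ?_,
    fun x hx t ht => funext fun k' => ?_, he0⟩
  · have := a1 s hs z
    rw [b1, b2] at this
    linear_combination this / 2
  · have b3 : ∀ s ∈ {s | s ∈ S ∧ g.Zf i N s}, ∀ z,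
        ((fun k' => g.d i k' (e x 0)) ⬝ᵥ z) * (CB_psi g j s ⬝ᵥ z) +
        ((fun k' => g.d i k' (e x 1)) ⬝ᵥ z) * (CB_psi g k s ⬝ᵥ z) = 0 := fun s hs z => by
      have := a3 x hx s hs.1 z
      rw [(hy s hs).1, (hy s hs).2] at this
      linear_combination -this / 2
    obtain ⟨b4, b5⟩ := CB_one (poly_dot _) (poly_dot _) hD (b3 s hs) (b3 s' hs')
    have b6 : g.d i k' (e x 0) = 0 := congrFun (vec_eq_zero b4) k'
    have b7 : g.d i k' (e x 1) = 0 := congrFun (vec_eq_zero b5) k'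
    simpa [b6, b7] using a4 x hx t ht k'

end Aux

theorem CB_thm (g : Gen V K) : g.StCB := by
  intro i A N S h j hj k hk
  by_contra H
  have ind : ∀ t t' : K, (∀ s ∈ S, t * g.Bf i s j + t' * g.Bf i s k = 0) → t = 0 ∧ t' = 0 :=
    fun t t' e => by
      by_contra e'
      exact H ⟨t, t', not_and_or.1 e', e⟩
  obtain ⟨g₁, g₂, e, hQ, he, he0⟩ := CB_flat h hj hk ind
  let P : V → Prop := fun x => g₁ ⬝ᵥ g.p x - e x 0 ≠ 0 ∨ g₂ ⬝ᵥ g.p x - e x 1 ≠ 0
  have nP : ∀ x, ¬ P x → g₁ ⬝ᵥ g.p x = e x 0 ∧ g₂ ⬝ᵥ g.p x = e x 1 := fun x hx => by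
    simpa only [P, not_or, not_not, sub_eq_zero, ne_eq] using hx
  have eA : ∀ a ∈ A, e a = 0 := fun a ha => he0 a (Finset.disjoint_left.1 h.disj ha)
  have c1 : (N.filter fun x => ¬ P x).card ≤ 2 := by
    by_contra hc
    obtain ⟨T, hT, cT⟩ := Finset.exists_subset_card_eq (not_le.1 hc)
    obtain ⟨s, hs, x, hx, y, hy, h0⟩ := h.tri T (hT.trans (Finset.filter_subset _ _)) cT
    obtain ⟨x1, x2⟩ := Finset.mem_filter.1 (hT hx)
    obtain ⟨y1, y2⟩ := Finset.mem_filter.1 (hT hy)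
    have b1 := CB_dot (g := g) x y s
    have b2 := CB_dot (g := g) y x s
    have b3 := CB_sb s.2 (g.p x) (g.p y)
    rw [he x x1 s hs] at b1
    rw [he y y1 s hs] at b2
    simp only [sb, hQ s hs, dotProduct_add, nP x x2, nP y y2] at b3
    simp only [add_dotProduct, smul_dotProduct, smul_eq_mul] at b1 b2
    exact h0 (by rw [dl]; linear_combination -b1 - b2 - b3)
  have c2 : (A.filter fun x => ¬ P x).card ≤ 2 := by
    by_contra hc
    obtain ⟨a, ha, b, hb, c, hc, ab, ac, bc⟩ := Finset.two_lt_card.1 (not_le.1 hc)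
    have z : ∀ x ∈ A.filter fun x => ¬ P x, g₁ ⬝ᵥ g.p x = 0 ∧ g₂ ⬝ᵥ g.p x = 0 := fun x hx => by
      simpa [eA x (Finset.mem_filter.1 hx).1] using nP x (Finset.mem_filter.1 hx).2
    obtain ⟨n, n0, n1, n2, n3⟩ := exists_normal (g.p a) (g.p b) (g.p c)
    obtain ⟨t, ht⟩ := normal_prop (g.li3 ab ac bc) n0 n1 n2 n3 (z a ha).1 (z b hb).1 (z c hc).1
    obtain ⟨t', ht'⟩ := normal_prop (g.li3 ab ac bc) n0 n1 n2 n3 (z a ha).2 (z b hb).2 (z c hc).2
    refine CB_plane h n fun s hs => ⟨t • CB_psi g j s + t' • CB_psi g k s, ?_, fun z => ?_⟩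
    · rw [add_dotProduct, smul_dotProduct, smul_dotProduct,
        show CB_psi g j s ⬝ᵥ g.p i = 0 from hs.2.1 j hj,
        show CB_psi g k s ⬝ᵥ g.p i = 0 from hs.2.1 k hk, smul_zero, smul_zero, add_zero]
    · simp only [hQ s hs.1, ht, ht', add_dotProduct, smul_dotProduct, smul_eq_mul]
      ring
  have c3 := Finset.card_filter_add_card_filter_not (s := A ∪ N) P
  rw [Finset.filter_union (fun x => ¬ P x), Finset.card_union_of_disjoint h.disj, h.cardA,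
    h.cardN] at c3
  have c4 := Finset.card_union_le (A.filter fun x => ¬ P x) (N.filter fun x => ¬ P x)
  obtain ⟨X, hX, cX⟩ := Finset.exists_subset_card_eq (n := 5) (s := (A ∪ N).filter P) (by omega)
  obtain ⟨s₁, h₁, s₂, h₂, z₁, z₂, m2⟩ := CB_m2 h
  obtain ⟨r₁, k₁, r₂, k₂, hr⟩ : ∃ s ∈ S, ∃ s' ∈ S,
      g.Bf i s j * g.Bf i s' k - g.Bf i s' j * g.Bf i s k ≠ 0 := by
    by_contra hc
    push Not at hc
    refine one_ne_zero (ind 1 0 fun s hs => ?_).1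
    rw [neg_eq_zero.1 (ind (g.Bf i s k) (-g.Bf i s j) fun s' hs' => by
      linear_combination -hc s hs s' hs').2]
    ring
  obtain ⟨t, t', h0, ht⟩ := CB_five g (S := (S : Set _)) (u := CB_psi g j) (v := CB_psi g k) cX
    (fun x hx => (Finset.mem_filter.1 (hX hx)).2) (fun s hs x hx => by
      have hx' := (Finset.mem_filter.1 (hX hx)).1
      have b1 := hQ s hs (g.p x)
      have b2 := h.hl s hs x hx'
      rcases Finset.mem_union.1 hx' with ha | hn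
      · rw [bil_eq', h.hM s hs x ha, b2] at b1
        simpa [eA x ha] using b1.symm
      · have b3 := CB_dot (g := g) x x s
        rw [he x hn s hs] at b3
        simp only [add_dotProduct, smul_dotProduct, smul_eq_mul] at b3
        linear_combination -b1 - b3 - b2) ![r₁, r₂, s₁, s₂]
    (fun l => by fin_cases l; exacts [k₁, k₂, h₁, h₂]) (by
      rw [Fintype.linearIndependent_iff]
      intro c hc
      have b1 := fun z => congrArg (fun r : Vec K × Vec K => r.1 ⬝ᵥ z) hc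
      have b2 := fun z => congrArg (fun r : Vec K × Vec K => r.2 ⬝ᵥ z) hc
      simp only [Fin.sum_univ_four, cons_val_zero, cons_val_one, cons_val, Prod.fst_add,
        Prod.snd_add, Prod.smul_fst, Prod.smul_snd, add_dotProduct, smul_dotProduct, smul_eq_mul,
        Prod.fst_zero, Prod.snd_zero, zero_dotProduct] at b1 b2
      have b3 : c 0 * g.Bf i r₁ j + c 1 * g.Bf i r₂ j + c 2 * g.Bf i s₁ j + c 3 * g.Bf i s₂ j = 0 :=
        b1 (g.p i)
      have b4 : c 0 * g.Bf i r₁ k + c 1 * g.Bf i r₂ k + c 2 * g.Bf i s₁ k + c 3 * g.Bf i s₂ k = 0 :=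
        b2 (g.p i)
      rw [z₁.1 j hj, z₂.1 j hj] at b3
      rw [z₁.1 k hk, z₂.1 k hk] at b4
      have b5 : c 0 = 0 := mul_right_cancel₀ hr (by
        linear_combination g.Bf i r₂ k * b3 - g.Bf i r₂ j * b4)
      have b6 : c 1 = 0 := mul_right_cancel₀ hr (by
        linear_combination g.Bf i r₁ j * b4 - g.Bf i r₁ k * b3)
      rw [b5, b6] at b1 b2
      obtain ⟨b7, b8⟩ := m2 (c 2) (c 3) fun z => by
        rw [hQ s₁ h₁, hQ s₂ h₂]
        linear_combination (g₁ ⬝ᵥ z) * b1 z + (g₂ ⬝ᵥ z) * b2 z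
      intro l
      fin_cases l
      exacts [b5, b6, b7, b8])
  refine H ⟨t, t', h0, fun s hs => ?_⟩
  have := congrArg (· ⬝ᵥ g.p i) (ht s hs)
  simp only [add_dotProduct, smul_dotProduct, smul_eq_mul, zero_dotProduct] at this
  exact this

end Pool.Agent.Dress
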