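import Pool.Agent.Lib.MP_d237f6_co.DR.Gam

/-! Six conditions of rank two: linear algebra. -/

set_option autoImplicit false

namespace Pool.Agent.Dress

open Matrix Module Classical

variable {K : Type} [Field K] {V : Type} [DecidableEq V]

theorem CB_sb (M : Mat K) (z z' : Vec K) :
    sb M z z' = bil M (z + z') (z + z') - bil M z z - bil M z' z' := by
  simp only [sb, bil_add_left, bil_add_right]
  ring

theorem CB_sym {M : Mat K} (h : ∀ z, bil M z z = 0) : M + Mᵀ = 0 := by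
  ext i j
  rw [← bil_single (M + Mᵀ), ← sb_eq, CB_sb, h, h, h]
  simp

theorem CB_rel {σ : Type} {S : Set σ} {X : Finset V} (hX : X.card = 6) {j k : V} (hj : j ∈ X)
    (hk : k ∈ X) (hjk : j ≠ k) (f : V → σ → K) (P : V → Vec K)
    (rel : ∀ z, ∃ μ : V → K, ∑ x ∈ X, μ x • P x = z ∧ ∀ s ∈ S, ∑ x ∈ X, μ x * f x s = 0)
    (ind : ∀ t t' : K, (∀ s ∈ S, t * f j s + t' * f k s = 0) → t = 0 ∧ t' = 0)
    {s : σ} (hs : s ∈ S) (h1 : f j s = 0) (h2 : f k s = 0) {x : V} (hx : x ∈ X) : f x s = 0 := by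
  by_contra h0
  have xj : x ≠ j := fun e => h0 (e ▸ h1)
  have xk : x ≠ k := fun e => h0 (e ▸ h2)
  choose μ m1 m2 using fun l : Fin 4 => rel (Pi.single l 1)
  have hT : ({x, j, k} : Finset V) ⊆ X := by simp [Finset.insert_subset_iff, hx, hj, hk]
  obtain ⟨t, t0, ht⟩ := dep (K := K) (ι := Fin 4) (κ := (X \ {x, j, k} : Finset V)) (by
    rw [Fintype.card_coe, Finset.card_sdiff_of_subset hT,
      Finset.card_eq_three.2 ⟨x, j, k, xj, xk, hjk, rfl⟩, hX]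
    simp) fun l y => μ l y
  have red : ∀ {W : Type} [AddCommGroup W] [Module K W] (F : V → W),
      ∑ l, t l • ∑ y ∈ X, μ l y • F y = (∑ l, t l * μ l x) • F x + ((∑ l, t l * μ l j) • F j +
        (∑ l, t l * μ l k) • F k) := by
    intro W _ _ F
    simp only [Finset.smul_sum, smul_smul]
    rw [Finset.sum_comm, ← Finset.sum_subset hT fun y h h' => by
      rw [← Finset.sum_smul, ht ⟨y, Finset.mem_sdiff.2 ⟨h, h'⟩⟩, zero_smul],
      Finset.sum_insert (by simp [xj, xk]), Finset.sum_pair hjk]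
    simp only [Finset.sum_smul]
  have r1 : ∀ s' ∈ S, (∑ l, t l * μ l x) * f x s' + ((∑ l, t l * μ l j) * f j s' +
      (∑ l, t l * μ l k) * f k s') = 0 := fun s' hs' => by
    have := red fun y => f y s'
    simp only [smul_eq_mul, m2 _ s' hs', mul_zero, Finset.sum_const_zero] at this
    exact this.symm
  have a1 : ∑ l, t l * μ l x = 0 := by simpa [h1, h2, h0] using r1 s hs
  obtain ⟨a2, a3⟩ := ind _ _ fun s' hs' => by simpa only [a1, zero_mul, zero_add] using r1 s' hs'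
  have := red P
  rw [a1, a2, a3] at this
  simp only [m1, zero_smul, add_zero] at this
  exact t0 (funext fun l => by simpa [Finset.sum_apply, Pi.single_apply] using congrFun this l)

variable [CharZero K]

theorem CB_dom {f f' : Vec K} (h0 : f ≠ 0) (h : ∀ z, (f ⬝ᵥ z) * (f' ⬝ᵥ z) = 0) : f' = 0 :=
  vec_eq_zero ((poly_dom _ _ (poly_dot f) (poly_dot f') h).resolve_left fun e => h0 (vec_eq_zero e))

theorem CB_two {σ : Type} {Z : Set σ} {u v : σ → Vec K} {g₁ g₂ y : Vec K} {Q : σ → Vec K → K}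
    (hQ : ∀ s ∈ Z, ∀ z, Q s z = (g₁ ⬝ᵥ z) * (u s ⬝ᵥ z) + (g₂ ⬝ᵥ z) * (v s ⬝ᵥ z))
    (hy : ∀ s ∈ Z, u s ⬝ᵥ y = 0 ∧ v s ⬝ᵥ y = 0)
    (pl : ∀ n : Vec K, ¬ ∀ s ∈ Z, ∃ φ, φ ⬝ᵥ y = 0 ∧ ∀ z, Q s z = (n ⬝ᵥ z) * (φ ⬝ᵥ z))
    {s₁ s₂ : σ} (h₁ : s₁ ∈ Z) (h₂ : s₂ ∈ Z)
    (m2 : ∀ t t' : K, (∀ z, t * Q s₁ z + t' * Q s₂ z = 0) → t = 0 ∧ t' = 0) :
    ∃ s ∈ Z, ∃ s' ∈ Z, ∃ z, (u s ⬝ᵥ z) * (v s' ⬝ᵥ z) - (u s' ⬝ᵥ z) * (v s ⬝ᵥ z) ≠ 0 := by
  by_contra hD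
  push Not at hD
  by_cases hu : u s₁ = 0
  · have hv : v s₁ ≠ 0 := fun e => one_ne_zero (m2 1 0 fun z => by simp [hQ s₁ h₁, hu, e]).1
    refine pl g₂ fun s hs => ⟨v s, (hy s hs).2, fun z => ?_⟩
    have : u s = 0 := CB_dom hv fun z => by simpa [hu, mul_comm] using hD s hs s₁ h₁ z
    simp [hQ s hs, this]
  by_cases hc : ∃ c : K, v s₁ = c • u s₁
  · obtain ⟨c, hc⟩ := hc
    refine pl (g₁ + c • g₂) fun s hs => ⟨u s, (hy s hs).1, fun z => ?_⟩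
    have : v s - c • u s = 0 := CB_dom hu fun z => by
      have := hD s₁ h₁ s hs z
      simp only [hc, sub_dotProduct, smul_dotProduct, smul_eq_mul] at this ⊢
      linear_combination this
    simp only [hQ s hs, sub_eq_zero.1 this, add_dotProduct, smul_dotProduct, smul_eq_mul]
    ring
  rcases prod_eq (f := u s₂) (g := v s₁) (f' := v s₂) (g' := u s₁) (fun m m' => by
    have := hD s₂ h₂ s₁ h₁ (m + m')
    simp only [dotProduct_add] at this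
    linear_combination this - hD s₂ h₂ s₁ h₁ m - hD s₂ h₂ s₁ h₁ m') hu with ⟨c, e⟩ | ⟨c, e, -⟩
  · have : v s₂ - c • v s₁ = 0 := CB_dom hu fun z => by
      have := hD s₁ h₁ s₂ h₂ z
      simp only [e, sub_dotProduct, smul_dotProduct, smul_eq_mul] at this ⊢
      linear_combination this
    refine neg_ne_zero.2 one_ne_zero (m2 c (-1) fun z => ?_).2
    simp only [hQ s₁ h₁, hQ s₂ h₂, e, sub_eq_zero.1 this, smul_dotProduct, smul_eq_mul]
    ring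
  · exact hc ⟨c, e⟩

theorem CB_one {a b : Vec K → K} {u v u' v' z₀ : Vec K}
    (ha : ∀ x y : Vec K, ∃ P : Polynomial K, ∀ t : K, a (x + t • (y - x)) = P.eval t)
    (hb : ∀ x y : Vec K, ∃ P : Polynomial K, ∀ t : K, b (x + t • (y - x)) = P.eval t)
    (h0 : (u ⬝ᵥ z₀) * (v' ⬝ᵥ z₀) - (u' ⬝ᵥ z₀) * (v ⬝ᵥ z₀) ≠ 0)
    (h : ∀ z, a z * (u ⬝ᵥ z) + b z * (v ⬝ᵥ z) = 0)
    (h' : ∀ z, a z * (u' ⬝ᵥ z) + b z * (v' ⬝ᵥ z) = 0) : (∀ z, a z = 0) ∧ ∀ z, b z = 0 := by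
  let D : Vec K → K := fun z => (u ⬝ᵥ z) * (v' ⬝ᵥ z) - (u' ⬝ᵥ z) * (v ⬝ᵥ z)
  have hD : ∀ x y : Vec K, ∃ P : Polynomial K, ∀ t : K, D (x + t • (y - x)) = P.eval t := by
    intro x y
    obtain ⟨P1, e1⟩ := poly_dot u x y
    obtain ⟨P2, e2⟩ := poly_dot v' x y
    obtain ⟨P3, e3⟩ := poly_dot u' x y
    obtain ⟨P4, e4⟩ := poly_dot v x y
    exact ⟨P1 * P2 - P3 * P4, fun t => by
      simp only [D, e1, e2, e3, e4, Polynomial.eval_sub, Polynomial.eval_mul]⟩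
  exact ⟨(poly_dom a D ha hD fun z => by
      linear_combination (v' ⬝ᵥ z) * h z - (v ⬝ᵥ z) * h' z).resolve_right fun e => h0 (e z₀),
    (poly_dom b D hb hD fun z => by
      linear_combination (u ⬝ᵥ z) * h' z - (u' ⬝ᵥ z) * h z).resolve_right fun e => h0 (e z₀)⟩

omit [CharZero K] in
theorem CB_five [Fintype V] (g : Gen V K) {σ : Type} {S : Set σ} {u v : σ → Vec K} {X : Finset V}
    (hX : X.card = 5) {l₁ l₂ : V → K} (h0 : ∀ x ∈ X, l₁ x ≠ 0 ∨ l₂ x ≠ 0)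
    (h : ∀ s ∈ S, ∀ x ∈ X, l₁ x * (u s ⬝ᵥ g.p x) + l₂ x * (v s ⬝ᵥ g.p x) = 0)
    (w : Fin 4 → σ) (hw : ∀ l, w l ∈ S) (li : LinearIndependent K fun l => (u (w l), v (w l))) :
    ∃ t t' : K, (t ≠ 0 ∨ t' ≠ 0) ∧ ∀ s ∈ S, t • u s + t' • v s = 0 := by
  obtain ⟨lam, n0, hl⟩ := dep2 (κ := X) _ li
    (fun x r => l₁ x * (r.1 ⬝ᵥ g.p x) + l₂ x * (r.2 ⬝ᵥ g.p x))
    (fun x => ⟨fun a b => by simp only [Prod.fst_add, Prod.snd_add, add_dotProduct]; ring,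
      fun c a => by simp only [Prod.smul_fst, Prod.smul_snd, smul_dotProduct, smul_eq_mul]; ring⟩)
    (fun x l => h _ (hw l) x x.2) (by simp [hX])
  obtain ⟨α, a1, a2, a3⟩ := g.dep5 X hX
  obtain ⟨x₀, hx₀⟩ := Function.ne_iff.1 n0
  have key : ∀ l : V → K, (∀ r : Vec K, ∑ x : X, lam x * (l x * (r ⬝ᵥ g.p x)) = 0) →
      ∃ t : K, ∀ x : X, lam x * l x = t * α x := fun l hl => by
    have hs : ∀ y, y ∉ X → (if h : y ∈ X then lam ⟨y, h⟩ * l y else 0) = 0 := fun y h => dif_neg h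
    obtain ⟨t, ht⟩ := g.dep5_prop ((g.dep_sum hs).2 (vec_eq_zero fun r => by
      rw [← hl r, ← Finset.sum_coe_sort, sum_dotProduct]
      exact Finset.sum_congr rfl fun x _ => by simp [dotProduct_comm r, mul_assoc]))
      a1 X hX.le hs a2 fun e => a3 x₀ x₀.2 (congrFun e x₀)
    exact ⟨t, fun x => by simpa using congrFun ht x⟩
  obtain ⟨t, ht⟩ := key l₁ fun r => by simpa using hl (r, 0)
  obtain ⟨t', ht'⟩ := key l₂ fun r => by simpa using hl (0, r)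
  refine ⟨t, t', ?_, fun s hs => g.cov_zero X (by omega) _ fun x hx => ?_⟩
  · refine (h0 x₀ x₀.2).imp (fun e e' => ?_) fun e e' => ?_
    · exact mul_ne_zero hx₀ e (by rw [ht, e', zero_mul])
    · exact mul_ne_zero hx₀ e (by rw [ht', e', zero_mul])
  · refine mul_left_cancel₀ (a3 x hx) ?_
    simp only [add_dotProduct, smul_dotProduct, smul_eq_mul]
    linear_combination lam ⟨x, hx⟩ * h s hs x hx - (u s ⬝ᵥ g.p x) * ht ⟨x, hx⟩ -
      (v s ⬝ᵥ g.p x) * ht' ⟨x, hx⟩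

end Pool.Agent.Dress
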