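import Pool.Agent.Lib.MP_d237f6_co.DR.T1

/-! A rod end of degree seven has at most four neighbours of degree five. -/

set_option autoImplicit false

namespace Pool.Agent.Dress

open Matrix Module Classical

variable {K : Type} [Field K] [CharZero K] {V : Type} [DecidableEq V] [Fintype V]

/-- the gradient at the rod end does not depend on a vertex outside the stress -/
theorem CR_const (g : Gen V K) {G : V → V → Prop} {ω : V → V → K} {w a c : V} {T : Finset V}
    {ρ : K} (h : g.Set1 G ω w a c T ρ) {x m l l' : V} (hx : x ∈ T) {Γ : V → V → K}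
    (hΓ : g.IsGam (del (adj ω) w) a c x ρ Γ)
    (hs : ∀ u, u ∉ ({x, a, c, m, l'} : Finset V) → Γ a u = 0) (hz : Γ l = 0) (hcl : c ≠ l)
    (hxl : x ≠ l) (k : Fin 4) : dv (g.d l k) (g.grad a ρ) = 0 := by
  have hal : Γ a l = 0 := by rw [hΓ.1.1, hz]; rfl
  have hG : g.IsGam (del (del (adj ω) w) l) a c x ρ Γ := by
    refine ⟨hΓ.1, hΓ.2.1, hΓ.2.2.1, fun u v huv h0 => ?_⟩
    have hu : u ≠ l := fun e => h0 (by rw [e, hz]; rfl)
    have hv : v ≠ l := fun e => h0 (by rw [hΓ.1.1, e, hz]; rfl)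
    rcases hΓ.2.2.2 u v huv h0 with (e | e) | (e | e)
    · exact Or.inl (Or.inl ⟨e, hu, hv⟩)
    · exact Or.inl (Or.inr e)
    · exact Or.inr (Or.inl ⟨e, hv, hu⟩)
    · exact Or.inr (Or.inr e)
  have hd : (fun u => g.d l k (Γ a u)) = 0 := by
    refine g.dep_zero (γ := fun u => g.d l k (Γ a u)) ?_ {a, c, m, l'} Finset.card_le_four
      fun u hu => ?_
    · have := congrArg (dv (g.d l k)) (hΓ.1.2 a)
      rw [dv_sum_smul, dv_zero, Finset.sum_add_distrib,
        Finset.sum_eq_zero (f := fun u => Γ a u • dv (g.d l k) (g.p u)), add_zero] at this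
      · exact this
      · intro u _
        by_cases e : u = l
        · rw [e, hal, zero_smul]
        · rw [g.d_ne e, smul_zero]
    · by_cases e : u = x
      · rw [e, hΓ.2.1, Derivation.map_one_eq_zero]
      · rw [hs u (by simpa [e] using hu), map_zero]
  obtain ⟨U, a1, -, a3, -, -, a6⟩ := h.exN h.t1.wa.symm h.t1.wc.symm
  have b1 := g.update_mem (isol_del (del (adj ω) w) l)
    (g.flex_anti (fun _ _ e => Or.inl e.1) a1) (zero_dotProduct _)
  have b2 := g.dU_mem (isol_del _ l) b1 (by simp) k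
  have e1 := congrArg (dv (g.d l k)) (g.gam_row h.t1.ac (h.ax hx) (h.cx hx) hG b1 a)
  have e2 := g.gam_row h.t1.ac (h.ax hx) (h.cx hx) hG b2 a
  rw [dv_sum_smul] at e1
  simp only [congrFun hd, Pi.zero_apply, zero_smul, zero_add] at e1
  rw [← g.d_dl l k _ hcl hxl] at e2
  have e3 : ∑ u, Γ a u • dv (g.d l k) (Function.update U l 0 u)
      = ∑ u, Γ a u • dU (g.d l k) (Function.update U l 0) u := rfl
  rw [e3, e2, g.dl_update _ _ _ hcl hxl, (h.fr a1 a3).2.2.2 x hx] at e1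
  have e4 := a6 x (h.ax hx).symm (h.cx hx).symm (h.wx hx).symm
  ext i
  have := congrFun e1 i
  simp only [dv, Pi.neg_apply, Pi.smul_apply, smul_eq_mul, map_neg, d_mul] at this
  refine (mul_eq_zero.1 ?_).resolve_left e4
  simp only [dv]
  linear_combination this

/-- a row with four neighbours: the last point follows the rigid motion -/
theorem CR_one (g : Gen V K) {G : V → V → Prop} {ω : V → V → K} {w a c : V} {T : Finset V}
    {ρ : K} (h : g.Set1 G ω w a c T ρ) {x x' m l : V} (hx : x ∈ T) (hx' : x' ∈ T)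
    (hne : x ≠ x') {Γ : V → V → K} (hΓ : g.IsGam (del (adj ω) w) a c x ρ Γ)
    (hs : ∀ u, u ∉ ({x, a, c, m, l} : Finset V) → Γ a u = 0) (hl : Γ a l ≠ 0)
    (ham : a ≠ m) (hcm : c ≠ m) (hal : a ≠ l) (hcl : c ≠ l) (hxl : x ≠ l) (hxl' : x' ≠ l)
    (q0 : g.Clq (del (adj ω) w) {a, c, m})
    (q1 : g.Link (addT (del (adj ω) w) a c x) x m) (q2 : g.Link (addT (del (adj ω) w) a c x') x' m)
    (hr : g.grad l ρ = 0) (hg : ∀ k, dv (g.d l k) (g.grad a ρ) = 0)
    {U : V → Vec K} (hU : U ∈ g.flex (del (adj ω) w)) (h0 : ∀ y ∈ T, U y = 0) {L : Mat K}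
    (hL : Lᵀ = -L) (hm : ∀ y ∈ ({a, c, m} : Finset V), U y = L *ᵥ g.p y) :
    U l = L *ᵥ g.p l := by
  have hac := h.t1.ac
  have fol : ∀ y ∈ T, g.Link (addT (del (adj ω) w) a c y) y m →
      ∀ U ∈ g.flex (addT (del (adj ω) w) a c y), U y = 0 → ∀ L : Mat K, Lᵀ = -L →
      (∀ y ∈ ({a, c, m} : Finset V), U y = L *ᵥ g.p y) → L *ᵥ g.p y = 0 := by
    intro y _ q U hU h0 L hL hm
    rw [← h0]
    exact (g.follow hL hac ham hcm (hm a (by simp)) (hm c (by simp)) (hm m (by simp)) (hU.1 y)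
      (by rw [dl_comm]; exact hU.2 a y (Or.inr (Or.inl ⟨rfl, rfl⟩)))
      (by rw [dl_comm]; exact hU.2 c y (Or.inr (Or.inr ⟨rfl, rfl⟩))) (q U hU)).symm
  obtain ⟨hv, v1, v2, v3, v4⟩ := g.exists_cov4 hne (h.cx hx).symm (h.ax hx).symm (h.cx hx').symm
    (h.ax hx').symm hac.symm 0 0 (-1) ρ
  have key : ∀ U ∈ g.flex (del (adj ω) w), (∀ y ∈ T, U y = 0) → ∀ L : Mat K, Lᵀ = -L →
      (∀ y ∈ ({a, c, m} : Finset V), U y = L *ᵥ g.p y) →
      Γ a l • (U l - L *ᵥ g.p l) = (U c ⬝ᵥ g.p x) • (hv - g.grad a ρ) := by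
    intro U hU h0 L hL hm
    obtain ⟨U₁, a1, U₂, a2, e, a3⟩ := h.split hx hx' hne hU
    obtain ⟨L₁, b1, b2⟩ := g.rigX {a, c, m} U₁ fun y hy z hz => q0 y hy z hz U₁ (h.F_le x a1)
    have e' : ∀ y, U₂ y = U y - U₁ y := fun y => by rw [e]; simp
    have f1 := fol x hx q1 U₁ a1 (a3 x hx) L₁ b1 b2
    have sk : (L - L₁)ᵀ = -(L - L₁) := by rw [transpose_sub, hL, b1]; abel
    have f2 := fol x' hx' q2 U₂ a2 (by rw [e', h0 x' hx', a3 x' hx', sub_zero]) (L - L₁) sk
      (fun y hy => by rw [e', hm y hy, b2 y hy, sub_mulVec])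
    have f3 : (L *ᵥ g.p x) ⬝ᵥ g.p x' = 0 := by
      have := skew_dot sk (g.p x) (g.p x')
      rwa [f2, sub_mulVec, f1, sub_zero, zero_dotProduct, neg_zero] at this
    have fr := h.fr hU h0
    have f4 : L *ᵥ g.p x = (U c ⬝ᵥ g.p x) • hv := by
      refine sub_eq_zero.1 (g.cov4 hne (h.cx hx).symm (h.ax hx).symm (h.cx hx').symm
        (h.ax hx').symm hac.symm ?_ ?_ ?_ ?_)
      · simp [skew_self hL, v1]
      · simp [f3, v2]
      · rw [sub_dotProduct, skew_dot hL, ← hm c (by simp), smul_dotProduct, v3]; simp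
      · rw [sub_dotProduct, skew_dot hL, ← hm a (by simp), smul_dotProduct, v4, fr.1]
        simp [mul_comm]
    have r1 := h.row hx hΓ hU a
    have r2 := g.dep_mulVec (hΓ.1.2 a) L
    have r3 : ∑ u, Γ a u • (U u - L *ᵥ g.p u) = -(dl g.p U c x • g.grad a ρ) := by
      simp only [smul_sub, Finset.sum_sub_distrib, r1, r2, sub_zero]
    rw [← Finset.sum_subset (Finset.subset_univ {x, l}), Finset.sum_pair hxl, hΓ.2.1, h0 x hx, f4,
      fr.2.2.2 x hx, one_smul] at r3
    · rw [smul_sub (U c ⬝ᵥ g.p x)]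
      linear_combination (exp := 1) r3
    · intro u _ hu
      by_cases e : u ∈ ({a, c, m} : Finset V)
      · rw [hm u e, sub_self, smul_zero]
      · rw [hs u (by simp only [Finset.mem_insert, Finset.mem_singleton] at hu e ⊢; tauto),
          zero_smul]
  have hn : hv - g.grad a ρ = 0 := by
    refine g.const_cov_zero l (fun k => ?_) ?_
    · rw [dv_sub, hg, sub_zero]
      have dd : ∀ y, y ≠ l → dv (g.d l k) hv ⬝ᵥ g.p y = g.d l k (hv ⬝ᵥ g.p y) := fun y hy => by
        rw [d_dot, g.d_ne hy]; simp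
      refine g.cov4 hne (h.cx hx).symm (h.ax hx).symm (h.cx hx').symm (h.ax hx').symm hac.symm
        ?_ ?_ ?_ ?_
      · rw [dd x hxl, v1, map_zero]
      · rw [dd x' hxl', v2, map_zero]
      · rw [dd c hcl, v3]; simp
      · rw [dd a hal, v4]; exact congrFun hr k
    · obtain ⟨U, a1, -, a3, -, -, a6⟩ := h.exN h.t1.wa.symm h.t1.wc.symm
      obtain ⟨L, b1, b2⟩ := g.rigX {a, c, m} U fun y hy z hz => q0 y hy z hz U a1
      have := congrArg (fun z => z ⬝ᵥ g.p l) (key U a1 a3 L b1 b2)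
      simp only [smul_dotProduct, sub_dotProduct (U l), a1.1 l, skew_self b1, sub_self,
        smul_eq_mul, mul_zero] at this
      exact (mul_eq_zero.1 this.symm).resolve_left
        (a6 x (h.ax hx).symm (h.cx hx).symm (h.wx hx).symm)
  have := key U hU h0 L hL hm
  rw [hn, smul_zero] at this
  exact sub_eq_zero.1 ((smul_eq_zero.1 this).resolve_left hl)

theorem CR_thm (g : Gen V K) (h0 : g.StLC) (h1 : g.StPL) (h2 : g.StA5) (h3 : g.StA6) :
    g.StCR := by
  intro G ω w a c T ρ h h7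
  by_contra hc
  push Not at hc
  have hwa : w ∈ nb ω a := g.nb_symm h.bad.1.1 (by rw [h.nbw]; simp)
  have hca : c ∈ nb ω a := by
    by_contra hh
    have e1 := h.ctx.ng ω a w c h.bad.1 hwa h.deg h.t1.ac.symm hh h.t1.lac
    have e2 := Finset.card_filter_add_card_filter_not (s := nb ω a) (fun u => (nb ω u).card = 5)
    simp only [ne_eq] at e1
    omega
  have hc5 := h2 G ω w c a T ρ⁻¹ h.swap
  set J := ((nb ω a).erase w).erase c with hJ
  have cJ : J.card = 5 := by
    rw [hJ, Finset.card_erase_of_mem (Finset.mem_erase.2 ⟨h.t1.wc.symm, hca⟩),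
      Finset.card_erase_of_mem hwa, h7]
  have mJ : ∀ u ∈ J, u ≠ c ∧ u ≠ w ∧ a ≠ u ∧ u ∉ T ∧ u ∈ nb ω a := fun u hu => by
    simp only [hJ, Finset.mem_erase] at hu
    exact ⟨hu.1, hu.2.1, (mem_nb.1 hu.2.2).1, fun e => (h.nnb e).1 hu.2.2, hu.2.2⟩
  obtain ⟨D, hD, cD⟩ := Finset.exists_subset_card_eq
    (s := J.filter (fun u => (nb ω u).card = 5)) (n := 4) (by
      have := Finset.card_le_card (s := (nb ω a).filter (fun u => (nb ω u).card = 5))
        (t := insert w (J.filter (fun u => (nb ω u).card = 5))) (fun u hu => by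
          simp only [hJ, Finset.mem_filter, Finset.mem_insert, Finset.mem_erase] at hu ⊢
          by_cases e : u = w
          · exact Or.inl e
          · exact Or.inr ⟨⟨fun e' => hc5 (e' ▸ hu.2), e, hu.1⟩, hu.2⟩)
      have := Finset.card_insert_le w (J.filter (fun u => (nb ω u).card = 5))
      omega)
  have DJ : D ⊆ J := hD.trans (Finset.filter_subset _ _)
  obtain ⟨m, hm⟩ := Finset.card_eq_one.1 (by rw [Finset.card_sdiff_of_subset DJ]; omega :
    (J \ D).card = 1)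
  have mm : m ∈ J ∧ m ∉ D := Finset.mem_sdiff.1 (by rw [hm]; simp)
  have PL : ∀ l ∈ D, g.grad l ρ = 0 ∧ ∀ x ∈ T, ∀ x' ∈ T, x ≠ x' → ∀ Γ Γ',
      g.IsGam (del (adj ω) w) a c x ρ Γ → g.IsGam (del (adj ω) w) a c x' ρ Γ' →
      Γ l = 0 ∨ Γ' l = 0 := fun l hl => by
    have := mJ l (DJ hl)
    refine h1 G ω w a c T ρ h l this.2.1 ?_ (Finset.mem_filter.1 (hD hl)).2
    rw [h.nbw]
    simp [this.1, this.2.2.1.symm, this.2.2.2.1]
  choose! Γ hΓ using fun x (hx : x ∈ T) => h.gam hx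
  have r0 : ∀ x ∈ T, Γ x a ≠ 0 := fun x hx e => by
    have := (hΓ x hx).2.1
    rw [e] at this
    exact zero_ne_one this
  have sub : ∀ x ∈ T, nb (Γ x) a ⊆ insert x (insert c (insert m (nb (Γ x) a ∩ D))) := by
    intro x hx u hu
    simp only [Finset.mem_insert, Finset.mem_inter]
    rcases h.nb_gam (hΓ x hx) hu with e | e | e
    · by_cases e1 : u = c
      · exact Or.inr (Or.inl e1)
      by_cases e2 : u ∈ D
      · exact Or.inr (Or.inr (Or.inr ⟨hu, e2⟩))
      · have : u ∈ J \ D := Finset.mem_sdiff.2 ⟨Finset.mem_erase.2 ⟨e1, e⟩, e2⟩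
        rw [hm] at this
        exact Or.inr (Or.inr (Or.inl (by simpa using this)))
    · exact Or.inl e.2
    · exact absurd e.1 (h.ax hx)
  have one : ∀ x ∈ T, 1 ≤ (nb (Γ x) a ∩ D).card := fun x hx => by
    have e1 := Finset.card_le_card (sub x hx)
    have e2 := g.four_le (hΓ x hx).1 (r0 x hx)
    have e3 := Finset.card_insert_le x (insert c (insert m (nb (Γ x) a ∩ D)))
    have e4 := Finset.card_insert_le c (insert m (nb (Γ x) a ∩ D))
    have e5 := Finset.card_insert_le m (nb (Γ x) a ∩ D)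
    omega
  have nz : ∀ x ∈ T, ∀ l ∈ nb (Γ x) a, Γ x l ≠ 0 := fun x hx l hl e =>
    (mem_nb.1 hl).2 (by rw [(hΓ x hx).1.1, e]; rfl)
  have dis : ∀ x ∈ T, ∀ x' ∈ T, x ≠ x' → Disjoint (nb (Γ x) a ∩ D) (nb (Γ x') a ∩ D) := by
    intro x hx x' hx' hne
    rw [Finset.disjoint_left]
    intro l e1 e2
    rw [Finset.mem_inter] at e1 e2
    exact ((PL l e1.2).2 x hx x' hx' hne _ _ (hΓ x hx) (hΓ x' hx')).elim (nz x hx l e1.1)
      (nz x' hx' l e2.1)
  have str : ∀ x ∈ T, (nb (Γ x) a ∩ D).card = 1 → ∃ l ∈ D, l ∈ nb (Γ x) a ∧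
      (∀ u, u ∉ ({x, a, c, m, l} : Finset V) → Γ x a u = 0) ∧
      g.Clq (addT (del (adj ω) w) a c x) (insert a {x, c, m, l}) := by
    intro x hx e
    obtain ⟨l, hl⟩ := Finset.card_eq_one.1 e
    have e1 : l ∈ nb (Γ x) a ∩ D := by rw [hl]; simp
    have e2 : nb (Γ x) a ⊆ {x, c, m, l} := by
      have := sub x hx
      rwa [hl] at this
    have e3 : nb (Γ x) a = {x, c, m, l} := Finset.eq_of_subset_of_card_le e2
      (Finset.card_le_four.trans (g.four_le (hΓ x hx).1 (r0 x hx)))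
    have e4 := (Finset.card_le_card e2).trans Finset.card_le_four
    refine ⟨l, (Finset.mem_inter.1 e1).2, (Finset.mem_inter.1 e1).1, fun u hu => ?_, ?_⟩
    · refine Gen.off_nb ?_
      rw [e3]
      simp only [Finset.mem_insert, Finset.mem_singleton] at hu ⊢
      tauto
    · rcases h0 _ _ a (h.gamK hx (hΓ x hx)) (r0 x hx) (by omega) with
        q | ⟨_, S₁, S₂, _, _, -, -, -, b1, b2, b3, b4, b5, -⟩
      · rwa [e3] at q
      · have := Finset.card_le_card (Finset.union_subset b4 b5)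
        rw [Finset.card_union_of_disjoint b1] at this
        omega
  have fin : ∀ x ∈ T, ∀ x' ∈ T, x ≠ x' → (nb (Γ x) a ∩ D).card = 1 →
      (nb (Γ x') a ∩ D).card = 1 → False := by
    intro x hx x' hx' hne e e'
    obtain ⟨l, l1, l2, l3, l4⟩ := str x hx e
    obtain ⟨l', l1', l2', l3', l4'⟩ := str x' hx' e'
    have ll : l ≠ l' := fun e => Finset.disjoint_left.1 (dis x hx x' hx' hne)
      (Finset.mem_inter.2 ⟨l2, l1⟩) (Finset.mem_inter.2 ⟨e ▸ l2', l1⟩)
    have z0 := ((PL l l1).2 x hx x' hx' hne _ _ (hΓ x hx) (hΓ x' hx')).resolve_left (nz x hx l l2)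
    have z' := ((PL l' l1').2 x hx x' hx' hne _ _ (hΓ x hx) (hΓ x' hx')).resolve_right
      (nz x' hx' l' l2')
    have a1 := mJ l (DJ l1)
    have a2 := mJ l' (DJ l1')
    have a3 := mJ m mm.1
    have t1 : ∀ y ∈ T, y ≠ l := fun y hy e => a1.2.2.2.1 (e ▸ hy)
    have t2 : ∀ y ∈ T, y ≠ l' := fun y hy e => a2.2.2.2.1 (e ▸ hy)
    have q0 : g.Clq (del (adj ω) w) {a, c, m} := fun y hy z hz => h.link2 hx hx' hne
      (l4 y (by simp only [Finset.mem_insert, Finset.mem_singleton] at hy ⊢; tauto) z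
        (by simp only [Finset.mem_insert, Finset.mem_singleton] at hz ⊢; tauto))
      (l4' y (by simp only [Finset.mem_insert, Finset.mem_singleton] at hy ⊢; tauto) z
        (by simp only [Finset.mem_insert, Finset.mem_singleton] at hz ⊢; tauto))
    have q1 := l4 x (by simp) m (by simp)
    have q2 := l4' x' (by simp) m (by simp)
    have q : g.Clq G (insert a {c, m, l, l'}) := by
      intro y hy z hz
      refine g.lnk_H h.ctx h.bad.1 (w := w) fun U hU => ?_
      obtain ⟨L, b1, b2, b3⟩ := h.frame le_rfl hU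
      obtain ⟨L', c1, c2⟩ := g.rigX {a, c, m} _ fun y hy z hz => q0 y hy z hz _ b2
      have d1 := CR_one g h hx hx' hne (hΓ x hx) l3 (mem_nb.1 l2).2 a3.2.2.1 a3.1.symm a1.2.2.1
        a1.1.symm (t1 x hx) (t1 x' hx') q0 q1 q2 (PL l l1).1
        (CR_const g h hx' (hΓ x' hx') l3' z0 a1.1.symm (t1 x' hx')) b2 b3 c1 c2
      have d2 := CR_one g h hx' hx hne.symm (hΓ x' hx') l3' (mem_nb.1 l2').2 a3.2.2.1 a3.1.symm
        a2.2.2.1 a2.1.symm (t2 x' hx') (t2 x hx) q0 q2 q1 (PL l' l1').1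
        (CR_const g h hx (hΓ x hx) l3 z' a2.1.symm (t2 x hx)) b2 b3 c1 c2
      have all : ∀ y ∈ (insert a {c, m, l, l'} : Finset V), U y - L *ᵥ g.p y = L' *ᵥ g.p y := by
        intro y hy
        simp only [Finset.mem_insert, Finset.mem_singleton] at hy
        rcases hy with rfl | rfl | rfl | rfl | rfl
        · exact c2 _ (by simp)
        · exact c2 _ (by simp)
        · exact c2 _ (by simp)
        · exact d1
        · exact d2
      rw [← dl_sub_skew g.p U b1, ← dl_skew g.p c1 y z]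
      simp only [dl, all y hy, all z hz]
    have ml : m ≠ l := fun e => mm.2 (e ▸ l1)
    have ml' : m ≠ l' := fun e => mm.2 (e ▸ l1')
    obtain ⟨ω', w1, w2, w3⟩ := h.ctx.rd ω a {c, m, l, l'} c h.bad.1
      (by
        intro u hu
        simp only [Finset.mem_insert, Finset.mem_singleton] at hu
        rcases hu with rfl | rfl | rfl | rfl
        exacts [hca, a3.2.2.2.2, a1.2.2.2.2, a2.2.2.2.2])
      (Finset.card_eq_four.2 ⟨c, m, l, l', a3.1.symm, a1.1.symm, a2.1.symm, ml, ml', ll, rfl⟩) q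
      (by simp)
    have h' := h.keep w1 (w3 w (by
      simp [h.t1.wa, h.t1.wc, a3.2.1.symm, a1.2.1.symm, a2.2.1.symm]))
    have f1 := Finset.card_le_card w2
    rw [Finset.card_erase_of_mem hca] at f1
    have f2 := h.ctx.d5 ω' a w1.1
    have f3 := h2 G ω' w a c T ρ h'
    have f4 := h3 G ω' w a c T ρ h'
    omega
  obtain ⟨b, d, e, hbd, hbe, hde, hT⟩ := Finset.card_eq_three.1 h.t1.card
  have hb : b ∈ T := by simp [hT]
  have hd : d ∈ T := by simp [hT]
  have he : e ∈ T := by simp [hT]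
  have tot := Finset.card_le_card (s := nb (Γ b) a ∩ D ∪ nb (Γ d) a ∩ D ∪ nb (Γ e) a ∩ D) (t := D)
    (Finset.union_subset (Finset.union_subset Finset.inter_subset_right Finset.inter_subset_right)
      Finset.inter_subset_right)
  rw [Finset.card_union_of_disjoint (Finset.disjoint_union_left.2
    ⟨dis b hb e he hbe, dis d hd e he hde⟩),
    Finset.card_union_of_disjoint (dis b hb d hd hbd)] at tot
  have o1 := one b hb
  have o2 := one d hd
  have o3 := one e he
  by_cases p1 : (nb (Γ b) a ∩ D).card = 1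
  · by_cases p2 : (nb (Γ d) a ∩ D).card = 1
    · exact fin b hb d hd hbd p1 p2
    · exact fin b hb e he hbe p1 (by omega)
  · exact fin d hd e he hde (by omega) (by omega)

end Pool.Agent.Dress
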