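import Pool.Agent.Lib.MP_d237f6_co.DR.Gam

/-! The five conditions at a neighbour of degree six are multiples of one, with constant factors. -/

set_option autoImplicit false

namespace Pool.Agent.Dress

open Matrix Module Classical

variable {K : Type} [Field K] [CharZero K] {V : Type} [DecidableEq V] [Fintype V]

/-- the covector attached to a point -/
def Cc_psi (g : Gen V K) (j : V) (s : (V → Vec K) × Mat K) : Vec K := s.1 j + s.2ᵀ *ᵥ g.p j

omit [CharZero K] [Fintype V] in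
theorem Cc_act (g : Gen V K) {i j : V} (h : j ≠ i) (k : Fin 4) (s : (V → Vec K) × Mat K) :
    Cc_psi g j (dU (g.d i k) s.1, dm (g.d i k) s.2) = dv (g.d i k) (Cc_psi g j s) := by
  simp only [Cc_psi, dv_add, dv_mulVec _ _ _ (g.d_ne h k), dm_transpose, dU]

omit [CharZero K] in
theorem Cc_ex (g : Gen V K) {i : V} {A N : Finset V} {S : Submodule K ((V → Vec K) × Mat K)}
    (H : g.CHyp i A N S) : ∃ j ∈ N, ∃ s ∈ S, g.Bf i s j ≠ 0 := by
  by_contra hc
  push Not at hc
  obtain ⟨ζ, h1, h2, h3⟩ := g.dep5 N H.cardN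
  obtain ⟨u, hu⟩ : N.Nonempty := Finset.card_pos.1 (by rw [H.cardN]; omega)
  have h0 := H.ind ζ h1 (fun v hv => h2 v fun hv' => hv (Finset.mem_insert_of_mem hv'))
    (fun s hs => by
      have e1 : ∑ j ∈ N, ζ j • g.p j = 0 := (g.dep_sum h2).1 h1
      have e2 := congrArg (fun m => (s.2ᵀ *ᵥ m) ⬝ᵥ g.p i) e1
      simp only [mulVec_sum, mulVec_smul, sum_dotProduct, smul_dotProduct, smul_eq_mul,
        mulVec_zero, zero_dotProduct] at e2
      have e3 : ∑ j ∈ N, ζ j * g.Bf i s j = 0 :=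
        Finset.sum_eq_zero fun j hj => by rw [hc j hj s hs, mul_zero]
      simp only [Gen.Bf, add_dotProduct, mul_add, Finset.sum_add_distrib] at e3
      linear_combination e3 - e2)
  exact h3 u hu (congrFun h0 u)

theorem Cc_nz (g : Gen V K) {i : V} {A N : Finset V} {S : Submodule K ((V → Vec K) × Mat K)}
    (H : g.CHyp i A N S) : ∃ s ∈ S, g.Zf i N s ∧ ∃ j ∈ N, Cc_psi g j s ≠ 0 := by
  by_contra hc
  push Not at hc
  obtain ⟨s, hs, s', -, hz, -, hind⟩ := H.m2
  have hcard : 10 ≤ (insert i (A ∪ N)).card := by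
    rw [Finset.card_insert_of_notMem (by simp [H.iA, H.iN]), Finset.card_union_of_disjoint H.disj,
      H.cardA, H.cardN]
  have hq := g.q10 (insert i (A ∪ N)) hcard s.2 (fun u hu => by
    rcases Finset.mem_insert.1 hu with rfl | hu
    · exact hz.2
    · have hl := H.hl s hs u hu
      rcases Finset.mem_union.1 hu with ha | hn
      · rw [bil_eq', H.hM s hs u ha, hl]
      · have e := congrArg (fun m => m ⬝ᵥ g.p u) (hc s hs hz u hn)
        simp only [Cc_psi, add_dotProduct, hl, zero_add, zero_dotProduct] at e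
        rw [← bil_transpose, bil_eq', e])
  have h0 : s.2 + s.2ᵀ = 0 := by
    ext a b
    have := hq (Pi.single a 1) (Pi.single b 1)
    rw [sb_eq, bil_single] at this
    exact this
  exact one_ne_zero (hind 1 0 (by rw [h0]; simp)).1

theorem Cc_thm (g : Gen V K) (h : g.StCB) : g.StCc := by
  intro i A N S H
  obtain ⟨j₁, hj₁, s₀, hs₀, hB⟩ := Cc_ex g H
  have hc : ∀ j, ∃ c : K, (j ∉ N → c = 0) ∧
      (j ∈ N → ∀ s ∈ S, g.Bf i s j = c * g.Bf i s j₁) := by
    intro j
    by_cases hj : j ∈ N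
    · obtain ⟨t, t', ht, h1⟩ := h i A N S H j hj j₁ hj₁
      have ht0 : t ≠ 0 := by
        rintro rfl
        have := h1 s₀ hs₀
        rw [zero_mul, zero_add] at this
        exact hB ((mul_eq_zero.1 this).resolve_left (ht.resolve_left fun h => h rfl))
      refine ⟨-t' / t, fun h' => absurd hj h', fun _ s hs => ?_⟩
      have := h1 s hs
      field_simp
      linear_combination this
    · exact ⟨0, fun _ => rfl, fun h' => absurd h' hj⟩
  choose c hc0 hc1 using hc
  have hne : ∀ j ∈ N, j ≠ i := fun j hj e => H.iN (e ▸ hj)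
  have rel : ∀ j ∈ N, ∀ s ∈ (S : Set ((V → Vec K) × Mat K)),
      bil ((fun _ => (0 : Mat K)) s) (g.p i) (g.p i) + Cc_psi g j s ⬝ᵥ g.p i
        = ∑ l : Unit, (fun _ => c j) l * ((fun _ => Cc_psi g j₁) l s ⬝ᵥ g.p i) := by
    intro j hj s hs
    have e : Cc_psi g j s ⬝ᵥ g.p i = c j * (Cc_psi g j₁ s ⬝ᵥ g.p i) := hc1 j hj s hs
    simpa [bil_zero] using e
  have first : ∀ j ∈ N, ∀ s ∈ S, ∀ k, Cc_psi g j s k
      = g.d i k (c j) * (Cc_psi g j₁ s ⬝ᵥ g.p i) + c j * Cc_psi g j₁ s k := by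
    intro j hj s hs k
    have := fd0 (ι := Unit) (g.d i) (g.p i) (g.d_self i) (S : Set ((V → Vec K) × Mat K))
      (fun k s => (dU (g.d i k) s.1, dm (g.d i k) s.2)) H.stab (fun _ => (0 : Mat K))
      (fun k _ => (dm_zero _).symm) (Cc_psi g j) (fun k s => Cc_act g (hne j hj) k s)
      (fun _ => Cc_psi g j₁) (fun _ k s => Cc_act g (hne j₁ hj₁) k s) (fun _ => c j)
      (rel j hj) s hs k
    simpa [sb, bil_zero] using this
  obtain ⟨s₁, hs₁, hz₁, j₂, hj₂, hn₂⟩ := Cc_nz g H
  have hz : Cc_psi g j₁ s₁ ⬝ᵥ g.p i = 0 := hz₁.1 j₁ hj₁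
  have hn₁ : Cc_psi g j₁ s₁ ≠ 0 := by
    intro h0
    refine hn₂ (funext fun k => ?_)
    rw [first j₂ hj₂ s₁ hs₁ k, h0]
    simp
  have cst : ∀ k j, g.d i k (c j) = 0 := by
    intro k j
    by_cases hj : j ∈ N
    · have : (fun k => g.d i k (c j)) = 0 := by
        refine prod_zero (fun m m' => ?_) hn₁
        have := sd (ι := Unit) (g.d i) (g.p i) (g.d_self i) (S : Set ((V → Vec K) × Mat K))
          (fun k s => (dU (g.d i k) s.1, dm (g.d i k) s.2)) H.stab (fun _ => (0 : Mat K))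
          (fun k _ => (dm_zero _).symm) (Cc_psi g j) (fun k s => Cc_act g (hne j hj) k s)
          (fun _ => Cc_psi g j₁) (fun _ k s => Cc_act g (hne j₁ hj₁) k s) (fun _ => c j)
          (rel j hj) s₁ hs₁ (fun _ => hz) m m'
        simpa [sb, bil_zero] using this.symm
      exact congrFun this k
    · rw [hc0 j hj, map_zero]
  refine ⟨c, cst, fun s hs => ⟨Cc_psi g j₁ s, fun j hj => ?_⟩⟩
  have e : Cc_psi g j s = c j • Cc_psi g j₁ s := by
    ext k
    rw [first j hj s hs k, cst, zero_mul, zero_add]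
    rfl
  rw [← e, neg_mulVec, Cc_psi]
  abel

end Pool.Agent.Dress
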