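import Pool.Agent.Lib.MP_d237f6_co.DR.Gam

/-! The structure at a neighbour of degree six of a vertex of second type. -/

set_option autoImplicit false

namespace Pool.Agent.Dress

open Matrix Module Classical

variable {K : Type} [Field K] [CharZero K] {V : Type} [DecidableEq V] [Fintype V]

/-- the states at the removed vertex -/
def Cg_S (g : Gen V K) (F : V → V → Prop) (i : V) (A : Finset V) :
    Submodule K ((V → Vec K) × Mat K) where
  carrier := {s | s.1 ∈ g.flex F ∧ s.1 i = 0 ∧ ∀ a ∈ A, s.2 *ᵥ g.p a = s.1 a}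
  add_mem' := fun {a b} ha hb => ⟨(g.flex F).add_mem ha.1 hb.1, by simp [ha.2.1, hb.2.1],
    fun x hx => by simp [add_mulVec, ha.2.2 x hx, hb.2.2 x hx]⟩
  zero_mem' := ⟨(g.flex F).zero_mem, rfl, fun x _ => by simp⟩
  smul_mem' := fun c a ha => ⟨(g.flex F).smul_mem c ha.1, by simp [ha.2.1],
    fun x hx => by simp [smul_mulVec, ha.2.2 x hx]⟩

omit [CharZero K] in
theorem Cg_tr (M : Mat K) (x y : Vec K) : (Mᵀ *ᵥ x) ⬝ᵥ y = (M *ᵥ y) ⬝ᵥ x := by
  rw [← bil_eq', ← bil_eq', bil_transpose]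

omit [CharZero K] [Fintype V] in
theorem Cg_Bf (g : Gen V K) (i : V) (s : (V → Vec K) × Mat K) (j : V) :
    g.Bf i s j = s.1 j ⬝ᵥ g.p i + (s.2 *ᵥ g.p i) ⬝ᵥ g.p j := by
  rw [Gen.Bf, add_dotProduct, Cg_tr]

section

variable {g : Gen V K} {G : V → V → Prop} {ω : V → V → K} {w i : V}

omit [CharZero K] in
theorem Cg_adj (h : g.Set2 G ω w) (hi : i ∈ nb ω w) {j : V} (hj : j ∈ (nb ω i).erase w) :
    del (adj ω) w i j :=
  ⟨mem_nb.1 (Finset.mem_of_mem_erase hj), (mem_nb.1 hi).1.symm, Finset.ne_of_mem_erase hj⟩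

omit [CharZero K] in
theorem Cg_le (g : Gen V K) (F : V → V → Prop) (i : V) : g.flex F ≤ g.flex (del F i) :=
  g.flex_anti fun _ _ h => Or.inl h.1

omit [CharZero K] in
theorem Cg_mem {U : V → Vec K} (hU : U ∈ g.flex (del (del (adj ω) w) i)) {M : Mat K}
    (hM : ∀ a ∈ (nb ω w).erase i, M *ᵥ g.p a = U a) :
    (Function.update U i 0, M) ∈ Cg_S g (del (del (adj ω) w) i) i ((nb ω w).erase i) :=
  ⟨g.update_mem (isol_del _ i) hU (zero_dotProduct _), Function.update_self .., fun a ha => by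
    rw [hM a ha]
    exact (Function.update_of_ne (Finset.ne_of_mem_erase ha) _ _).symm⟩

omit [CharZero K] in
theorem Cg_zf (h : g.Set2 G ω w) (hi : i ∈ nb ω w) {U : V → Vec K}
    (hU : U ∈ g.flex (del (adj ω) w)) {M : Mat K} (hM : ∀ a ∈ nb ω w, M *ᵥ g.p a = U a) :
    (Function.update U i 0, M) ∈ Cg_S g (del (del (adj ω) w) i) i ((nb ω w).erase i) ∧
      g.Zf i ((nb ω i).erase w) (Function.update U i 0, M) := by
  refine ⟨Cg_mem (Cg_le g _ i hU) fun a ha => hM a (Finset.mem_of_mem_erase ha),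
    fun j hj => ?_, ?_⟩
  · have h1 := Cg_adj h hi hj
    have h2 := hU.2 i j h1
    rw [Cg_Bf]
    simp only [Function.update_of_ne h1.1.1.symm, hM i hi]
    rw [add_comm]
    exact h2
  · rw [bil_eq', hM i hi]
    exact hU.1 i

theorem Cg_ind (h : g.Set2 G ω w) (hi : i ∈ nb ω w) {γ : V → K} (hγ : g.Dep γ)
    (hs : ∀ u, u ∉ insert i ((nb ω i).erase w) → γ u = 0)
    (h0 : ∀ s ∈ Cg_S g (del (del (adj ω) w) i) i ((nb ω w).erase i),
      ∑ j ∈ (nb ω i).erase w, γ j * (s.1 j ⬝ᵥ g.p i) = 0) : γ = 0 := by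
  have hwi : w ≠ i := (mem_nb.1 hi).1
  obtain ⟨σ, hσ, h1, h2⟩ := g.star_stress (isol_del (del (adj ω) w) i) hγ fun U hU hU0 => by
    obtain ⟨M, hM⟩ := g.exists_mat4 ((nb ω w).erase i)
      (by rw [Finset.card_erase_of_mem hi, h.deg]) U
    rw [← h0 (U, M) ⟨hU, hU0, hM⟩]
    refine (Finset.sum_subset (Finset.subset_univ _) fun u _ hu => ?_).symm
    by_cases hui : u = i
    · rw [hui, hU0, zero_dotProduct, mul_zero]
    · rw [hs u (by rw [Finset.mem_insert]; tauto), zero_mul]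
  have h3 : ∀ v, i ≠ v → σ i v ≠ 0 → v ∈ (nb ω i).erase w := fun v hv h' => by
    by_contra hc
    rw [h1, hs v (by rw [Finset.mem_insert]; rintro (e | e); exacts [hv e.symm, hc e])] at h'
    exact h' rfl
  have h4 := h.ctx.ind ω σ w h.bad hσ (fun u v huv h' => ?_) ?_
  · rw [← h1, h4]
    rfl
  · by_cases hu : u = i
    · subst hu
      exact Or.inl (Cg_adj h hi (h3 v huv h')).1
    by_cases hv : v = i
    · subst hv
      exact Or.inr (Cg_adj h hi (h3 u huv.symm (hσ.1 u v ▸ h'))).1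
    exact (h2 u v huv hu hv h').imp (fun e => e.1.1) fun e => e.1.1
  · refine Finset.eq_empty_of_forall_notMem fun v hv => ?_
    obtain ⟨hv1, hv2⟩ := mem_nb.1 hv
    by_cases hvi : v = i
    · subst hvi
      exact Finset.notMem_erase _ _ (h3 w hv1.symm (hσ.1 w v ▸ hv2))
    · exact (h2 w v hv1 hwi hvi hv2).elim (fun e => e.1.2.1 rfl) fun e => e.1.2.2 rfl

omit [CharZero K] in
theorem Cg_eta (h2 : g.StT2) (h : g.Set2 G ω w) (hi : i ∈ nb ω w) {s : (V → Vec K) × Mat K}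
    (hs : s ∈ Cg_S g (del (del (adj ω) w) i) i ((nb ω w).erase i)) {η : Vec K}
    (h0 : η ⬝ᵥ g.p i + bil s.2 (g.p i) (g.p i) = 0)
    (h1 : ∀ j ∈ (nb ω i).erase w, η ⬝ᵥ g.p j + g.Bf i s j = 0) : η = 0 := by
  have hiN : i ∉ (nb ω i).erase w := fun e => (mem_nb.1 (Finset.mem_of_mem_erase e)).1 rfl
  have h3 := g.extend_mem (isol_del (del (adj ω) w) i) hs.1 _ hiN (ξ := η + s.2 *ᵥ g.p i)
    (by rw [add_dotProduct, ← bil_eq', h0]) fun j hj => by
      rw [add_dotProduct, ← h1 j hj, Cg_Bf]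
      ring
  have h4 : Function.update s.1 i (η + s.2 *ᵥ g.p i) ∈ g.flex (del (adj ω) w) := by
    refine g.flex_anti (fun u v huv => ?_) h3
    by_cases hu : u = i
    · exact Or.inl (Or.inr ⟨hu, Finset.mem_erase.2 ⟨huv.2.2, mem_nb.2 (hu ▸ huv.1)⟩⟩)
    by_cases hv : v = i
    · exact Or.inr (Or.inr ⟨hv, Finset.mem_erase.2 ⟨huv.2.1, mem_nb.2
        ⟨fun e => hu e.symm, hv ▸ h.bad.1.1.1 u v ▸ huv.1.2⟩⟩⟩)
    exact Or.inl (Or.inl ⟨huv, hu, hv⟩)
  obtain ⟨M, hM⟩ := (h2 G ω w h).2.1 _ h4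
  have h5 : M - s.2 = 0 := g.mat4_zero ((nb ω w).erase i)
    (by rw [Finset.card_erase_of_mem hi, h.deg]) fun a ha => by
      rw [sub_mulVec, hM a (Finset.mem_of_mem_erase ha), hs.2.2 a ha,
        Function.update_of_ne (Finset.ne_of_mem_erase ha), sub_self]
  have h6 := hM i hi
  rw [Function.update_self, sub_eq_zero.1 h5] at h6
  exact left_eq_add.1 (h6.trans (add_comm _ _))

omit [CharZero K] in
theorem Cg_rel (h2 : g.StT2) (h : g.Set2 G ω w) (hi : i ∈ nb ω w) (z : Vec K) :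
    ∃ (μ : V → K) (μ₀ : K), ∑ j ∈ (nb ω i).erase w, μ j • g.p j + μ₀ • g.p i = z ∧
      ∀ s ∈ Cg_S g (del (del (adj ω) w) i) i ((nb ω w).erase i),
        ∑ j ∈ (nb ω i).erase w, μ j * g.Bf i s j + μ₀ * bil s.2 (g.p i) (g.p i) = 0 := by
  have key := la1 (K := K)
    ((Cg_S g (del (del (adj ω) w) i) i ((nb ω w).erase i)).prod (⊤ : Submodule K (Vec K)))
    (fun (o : Option V) x => o.elim (x.2 ⬝ᵥ g.p i + bil x.1.2 (g.p i) (g.p i))
      fun j => if j ∈ (nb ω i).erase w then x.2 ⬝ᵥ g.p j + g.Bf i x.1 j else 0)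
    (fun o => ?_) (fun x => x.2 ⬝ᵥ z) ⟨fun a b => by simp, fun a b => by simp⟩
    fun x hx h0 => ?_
  · obtain ⟨c, hc⟩ := key
    simp only [Fintype.sum_option, Option.elim, mul_ite, mul_zero, Finset.sum_ite_mem,
      Finset.univ_inter] at hc
    refine ⟨fun j => c (some j), c none, ?_, fun s hs => ?_⟩
    · rw [← sub_eq_zero]
      refine vec_eq_zero fun m => ?_
      have h1 := hc (0, m) ⟨Submodule.zero_mem _, trivial⟩
      simp only [Cg_Bf, Prod.fst_zero, Prod.snd_zero, Pi.zero_apply, zero_dotProduct, bil_zero,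
        zero_mulVec, add_zero] at h1
      rw [dotProduct_comm, dotProduct_sub, dotProduct_add, dotProduct_sum, h1]
      simp only [dotProduct_smul, smul_eq_mul]
      ring
    · have h1 := hc (s, 0) ⟨hs, trivial⟩
      simp only [zero_dotProduct, zero_add] at h1
      rw [h1, add_comm]
  · rcases o with _ | j
    · refine ⟨fun a b => ?_, fun a b => ?_⟩
      · simp only [Option.elim, Prod.snd_add, Prod.fst_add, add_dotProduct, bil_add]
        ring
      · simp only [Option.elim, Prod.smul_snd, Prod.smul_fst, smul_dotProduct, bil_smul,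
          smul_eq_mul]
        ring
    · by_cases hj : j ∈ (nb ω i).erase w
      · refine ⟨fun a b => ?_, fun a b => ?_⟩
        · simp only [Option.elim, if_pos hj, Cg_Bf, Prod.snd_add, Prod.fst_add, add_dotProduct,
            Pi.add_apply, add_mulVec]
          ring
        · simp only [Option.elim, if_pos hj, Cg_Bf, Prod.smul_snd, Prod.smul_fst,
            smul_dotProduct, Pi.smul_apply, smul_mulVec, smul_eq_mul]
          ring
      · exact ⟨fun a b => by simp only [Option.elim, if_neg hj, add_zero],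
          fun a b => by simp only [Option.elim, if_neg hj, smul_zero]⟩
  · rw [Cg_eta h2 h hi hx.1 (h0 none) fun j hj => by
      simpa only [Option.elim, if_pos hj] using h0 (some j), zero_dotProduct]

omit [CharZero K] in
theorem Cg_flex (h : g.Set2 G ω w) {U : V → Vec K} (hU : U ∈ g.flex G) :
    U ∈ g.flex (del (adj ω) w) :=
  Cg_le g _ w (h.ctx.span ω h.bad.1 ▸ hU)

theorem Cg_hyp (h2 : g.StT2) (h3 : g.StN2) (h : g.Set2 G ω w) (hi : i ∈ nb ω w)
    (h6 : (nb ω i).card = 6) : g.CHyp i ((nb ω w).erase i) ((nb ω i).erase w)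
      (Cg_S g (del (del (adj ω) w) i) i ((nb ω w).erase i)) := by
  obtain ⟨n1, n2⟩ := (h3 G ω w i h hi).2 h6
  obtain ⟨-, t2, ⟨U₁, hU₁, M₁, hM₁, b₁⟩, U₂, hU₂, M₂, hM₂, b₂, s₂⟩ := h2 G ω w h
  have hw : w ∈ nb ω i := mem_nb.2 ⟨(mem_nb.1 hi).1.symm, h.bad.1.1.1 w i ▸ (mem_nb.1 hi).2⟩
  refine
    { cardA := by rw [Finset.card_erase_of_mem hi, h.deg]
      cardN := by rw [Finset.card_erase_of_mem hw, h6]
      disj := Finset.disjoint_left.2 fun a ha ha' => n1 a (Finset.mem_of_mem_erase ha)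
        (Finset.ne_of_mem_erase ha) (h.bad.1.2.1 i a (Cg_adj h hi ha').1.2)
      iA := Finset.notMem_erase _ _
      iN := fun e => (mem_nb.1 (Finset.mem_of_mem_erase e)).1 rfl
      stab := fun k s hs => ⟨g.dU_mem (isol_del _ i) hs.1 hs.2.1 k, ?_, fun a ha => ?_⟩
      hM := fun s hs => hs.2.2
      hl := fun s hs x _ => hs.1.1 x
      rel := Cg_rel h2 h hi
      ind := fun γ hγ hs h0 => Cg_ind h hi hγ hs h0
      m2 := ⟨_, (Cg_zf h hi hU₁ hM₁).1, _, (Cg_zf h hi (Cg_le g _ w hU₂) hM₂).1,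
        (Cg_zf h hi hU₁ hM₁).2, (Cg_zf h hi (Cg_le g _ w hU₂) hM₂).2, fun t t' e => ?_⟩
      unl := fun a ha => ?_
      tri := fun T hT hc => ?_ }
  · change dv _ (s.1 i) = 0
    rw [hs.2.1, dv_zero]
  · change dm _ s.2 *ᵥ g.p a = dv _ (s.1 a)
    rw [← hs.2.2 a ha, dv_mulVec _ _ _ (g.d_ne (Finset.ne_of_mem_erase ha) k)]
  · have e1 := congrArg (fun B => bil B (g.p w) (g.p w)) e
    simp only [bil_add, bil_smul, bil_transpose, bil_zero, b₂] at e1
    have e2 : t = 0 := by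
      refine (mul_eq_zero.1 (?_ : t * bil M₁ (g.p w) (g.p w) = 0)).resolve_right b₁
      linear_combination e1 / 2
    rw [e2, zero_smul, zero_add] at e
    exact ⟨e2, (smul_eq_zero.1 e).resolve_right s₂⟩
  · have h1 := n1 a (Finset.mem_of_mem_erase ha) (Finset.ne_of_mem_erase ha)
    simp only [Gen.Link, not_forall] at h1
    obtain ⟨U, hU, h1⟩ := h1
    obtain ⟨M, hM⟩ := t2 U (Cg_flex h hU)
    refine ⟨_, (Cg_zf h hi (Cg_flex h hU) hM).1, (Cg_zf h hi (Cg_flex h hU) hM).2, ?_⟩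
    rw [sb, bil_eq', bil_eq', hM i hi, hM a (Finset.mem_of_mem_erase ha), add_comm]
    exact h1
  · have h1 := n2 T hT hc
    simp only [Gen.Clq, Gen.Link, not_forall] at h1
    obtain ⟨x, hx, y, hy, U, hU, h1⟩ := h1
    obtain ⟨M, hM⟩ := t2 U (Cg_flex h hU)
    refine ⟨_, (Cg_zf h hi (Cg_flex h hU) hM).1, x, hx, y, hy, ?_⟩
    rwa [g.dl_update U i 0 (Cg_adj h hi (hT hx)).1.1.symm (Cg_adj h hi (hT hy)).1.1.symm]

end

theorem Cg_thm (g : Gen V K) (h1 : g.StCc) (h2 : g.StT2) (h3 : g.StN2) : g.StCg := by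
  intro G ω w i h hi h6
  have hy := Cg_hyp h2 h3 h hi h6
  obtain ⟨c, hc, hl⟩ := h1 _ _ _ _ hy
  have hlift : ∀ U ∈ g.flex (del (del (adj ω) w) i), ∀ M : Mat K,
      (∀ a ∈ (nb ω w).erase i, M *ᵥ g.p a = U a) →
      ∃ β, g.Lift ((nb ω i).erase w) c U (-Mᵀ) β := fun U hU M hM => by
    obtain ⟨β, hβ⟩ := hl _ (Cg_mem hU hM)
    refine ⟨β, fun j hj => ?_⟩
    rw [← hβ j hj]
    exact (Function.update_of_ne (Cg_adj h hi hj).1.1.symm _ _).symm
  refine ⟨c, hc, fun α hα hs h0 => ?_, ?_, hlift⟩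
  · refine hy.ind α hα (fun u hu => hs u fun e => hu (Finset.mem_insert_of_mem e)) fun s hs' => ?_
    obtain ⟨β, hβ⟩ := hl s hs'
    have e1 := congrArg (· ⬝ᵥ g.p i) (g.dep_mulVec hα (-s.2ᵀ))
    simp only [sum_dotProduct, smul_dotProduct, smul_eq_mul, zero_dotProduct] at e1
    have e2 : ∑ u, α u * (((-s.2ᵀ) *ᵥ g.p u + c u • β) ⬝ᵥ g.p i) = 0 := by
      simp only [add_dotProduct, smul_dotProduct, smul_eq_mul, mul_add, Finset.sum_add_distrib,
        ← mul_assoc, ← Finset.sum_mul, e1, h0, zero_mul, add_zero]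
    rw [← e2, ← Finset.sum_subset (Finset.subset_univ ((nb ω i).erase w)) fun u _ hu => by
      rw [hs u hu, zero_mul]]
    exact Finset.sum_congr rfl fun j hj => by rw [hβ j hj]
  · by_contra hc'
    obtain ⟨-, -, -, U, hU, M, hM, b, hs⟩ := h2 G ω w h
    obtain ⟨β, hβ⟩ := hlift U (Cg_le g _ i (Cg_le g _ w hU)) M
      fun a ha => hM a (Finset.mem_of_mem_erase ha)
    have hd : Disjoint (nb ω w) (((nb ω i).erase w).filter fun j => c j = 0) :=
      Finset.disjoint_left.2 fun a ha ha' => by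
        have ha'' := (Finset.mem_filter.1 ha').1
        by_cases e : a = i
        · exact hy.iN (e ▸ ha'')
        · exact Finset.disjoint_left.1 hy.disj (Finset.mem_erase.2 ⟨e, ha⟩) ha''
    have hw : w ∉ nb ω w ∪ ((nb ω i).erase w).filter fun j => c j = 0 := fun e =>
      (Finset.mem_union.1 e).elim (fun e' => (mem_nb.1 e').1 rfl)
        fun e' => Finset.notMem_erase _ _ (Finset.mem_filter.1 e').1
    have hq := g.q10 (insert w (nb ω w ∪ ((nb ω i).erase w).filter fun j => c j = 0))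
      (by rw [Finset.card_insert_of_notMem hw, Finset.card_union_of_disjoint hd, h.deg]; omega)
      M fun u hu => ?_
    · refine hs ?_
      ext a b
      have := hq (Pi.single a 1) (Pi.single b 1)
      rwa [sb_eq, bil_single] at this
    · rcases Finset.mem_insert.1 hu with rfl | hu
      · exact b
      rcases Finset.mem_union.1 hu with hu | hu
      · rw [bil_eq', hM u hu]
        exact hU.1 u
      · obtain ⟨hu1, hu2⟩ := Finset.mem_filter.1 hu
        have e1 := hU.1 u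
        rw [hβ u hu1, hu2, zero_smul, add_zero, neg_mulVec, neg_dotProduct, Cg_tr,
          neg_eq_zero] at e1
        rwa [bil_eq']

end Pool.Agent.Dress
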