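import Pool.Agent.Lib.MP_d237f6_co.DR.Stmt

/-! The minimal counterexample, first part. -/

set_option autoImplicit false
set_option linter.unusedSectionVars false

namespace Pool.Agent.Dress

open Matrix Module Classical

variable {K : Type} [Field K] {V : Type} [DecidableEq V] [Fintype V]

namespace Gen

variable [CharZero K] (g : Gen V K) {G : V → V → Prop} {ω σ : V → V → K}

omit [CharZero K] in
theorem adj_symm (h : g.Stress ω) {u v : V} (e : adj ω u v) : adj ω v u :=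
  ⟨e.1.symm, by rw [h.1]; exact e.2⟩

omit [CharZero K] in
theorem nb_symm (h : g.Stress ω) {u v : V} (e : u ∈ nb ω v) : v ∈ nb ω u :=
  mem_nb.2 (g.adj_symm h (mem_nb.1 e))

omit [CharZero K] in
theorem not_mem_nb (ω : V → V → K) (v : V) : v ∉ nb ω v := fun h => (mem_nb.1 h).1 rfl

omit [CharZero K] in
theorem off_nb {v u : V} (h : u ∉ insert v (nb ω v)) : ω v u = 0 := by
  rw [Finset.mem_insert, not_or, mem_nb] at h
  by_contra hh
  exact h.2 ⟨fun e => h.1 e.symm, hh⟩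

omit [CharZero K] in
theorem on_iff (h : g.Stress ω) : On (adj ω) σ ↔ ∀ u v, adj σ u v → adj ω u v :=
  ⟨fun e u v huv => (e u v huv.1 huv.2).elim id (g.adj_symm h),
    fun e u v h1 h2 => Or.inl (e u v ⟨h1, h2⟩)⟩

omit [CharZero K] in
theorem stress_diag (h : g.Stress σ) (e : ∀ u v, ¬ adj σ u v) : σ = 0 := by
  funext v
  refine g.row_zero h v ?_
  have : nb σ v = ∅ := Finset.eq_empty_of_forall_notMem fun u hu => e v u (mem_nb.1 hu)
  simp [this]

omit [CharZero K] in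
theorem flex_le_adj (hl : ∀ u v, σ u v ≠ 0 → g.Link G u v) : g.flex G ≤ g.flex (adj σ) :=
  g.flex_le_of_link fun u v h => hl u v h.2

omit [CharZero K] in
/-- a stress of the closure with a vanishing row lies in the clique space -/
theorem iso_KK (ih : g.IH) (h : g.Stress σ) (hl : ∀ u v, σ u v ≠ 0 → g.Link G u v) (z : V)
    (hz : ∀ u, u ≠ z → σ z u = 0) : σ ∈ g.KK G :=
  g.KK_mono (g.flex_le_adj hl) (ih z _ σ (fun u => ⟨fun e => e.2 (hz u e.1.symm),
    fun e => e.2 (by rw [h.1]; exact hz u e.1)⟩) h (on_adj σ))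

omit [CharZero K] in
theorem nk_sub (h : g.NK G ω) {κ : V → V → K} (hκ : κ ∈ g.KK G) : g.NK G (ω - κ) := by
  refine ⟨g.stress_sub h.1 (g.KK_stress hκ).1, fun u v h0 => ?_, fun e => h.2.2 ?_⟩
  · by_cases e : ω u v = 0
    · exact (g.KK_stress hκ).2 u v fun e' => h0 (by simp [e, e'])
    · exact h.2.1 u v e
  · simpa using Submodule.add_mem _ e hκ

omit [CharZero K] in
theorem nk_red (h : g.NK G ω) : ∃ ω', g.Bad G ω' ∧ ∀ u v, adj ω' u v → adj ω u v := by
  let m : (V → V → K) → ℕ := fun σ => (Finset.univ.filter fun p : V × V => adj σ p.1 p.2).card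
  obtain ⟨ω', h1, h2⟩ := (measure m).wf.has_min
    {σ | g.NK G σ ∧ ∀ u v, adj σ u v → adj ω u v} ⟨ω, h, fun _ _ e => e⟩
  refine ⟨ω', ⟨h1.1, fun σ hσ hs u v e => ?_⟩, h1.2⟩
  have h3 := h2 σ ⟨hσ, fun u v e => h1.2 u v (hs u v e)⟩
  have h4 : (Finset.univ.filter fun p : V × V => adj σ p.1 p.2) =
      Finset.univ.filter fun p : V × V => adj ω' p.1 p.2 :=
    Finset.eq_of_subset_of_card_le (fun p hp => by
      simp only [Finset.mem_filter, Finset.mem_univ, true_and] at hp ⊢; exact hs _ _ hp)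
      (not_lt.1 h3)
  have : (u, v) ∈ Finset.univ.filter fun p : V × V => adj σ p.1 p.2 := by rw [h4]; simpa using e
  simpa using this

omit [CharZero K] in
theorem adj_sub {t : K} (hs : ∀ u v, adj σ u v → adj ω u v) (u v : V)
    (e : adj (ω - t • σ) u v) : adj ω u v := by
  by_contra hh
  have h1 : ω u v = 0 := by by_contra h; exact hh ⟨e.1, h⟩
  have h2 : σ u v = 0 := by by_contra h; exact hh (hs u v ⟨e.1, h⟩)
  exact e.2 (by simp [h1, h2])

omit [CharZero K] in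
theorem bad_KK (h : g.Bad G ω) (hσ : σ ∈ g.KK G) (hs : ∀ u v, adj σ u v → adj ω u v) : σ = 0 := by
  refine g.stress_diag (g.KK_stress hσ).1 fun u v e => ?_
  have := h.2 _ (g.nk_sub h.1 (Submodule.smul_mem _ (ω u v / σ u v) hσ)) (adj_sub hs) u v
    (hs u v e)
  exact this.2 (by simp [div_mul_cancel₀ _ e.2])

omit [CharZero K] in
theorem bad_circ (h : g.Bad G ω) (hσ : g.Stress σ) (ho : On (adj ω) σ) : ∃ t : K, σ = t • ω := by
  have hs := (g.on_iff h.1.1).1 ho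
  by_cases h0 : σ = 0
  · exact ⟨0, by simp [h0]⟩
  obtain ⟨u, v, e⟩ : ∃ u v, adj σ u v := by
    by_contra hh; push Not at hh; exact h0 (g.stress_diag hσ hh)
  have hk : ω - (ω u v / σ u v) • σ ∈ g.KK G := by
    by_contra hk
    have := h.2 _ ⟨g.stress_sub h.1.1 (g.stress_smul hσ _), fun a b h1 => ?_, hk⟩ (adj_sub hs) u v
      (hs u v e)
    · exact this.2 (by simp [div_mul_cancel₀ _ e.2])
    · by_cases hab : a = b
      · rw [hab]; exact g.link_refl G b
      · exact h.1.2.1 a b (adj_sub hs a b ⟨hab, h1⟩).2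
  have := g.bad_KK h hk (adj_sub hs)
  have hω := (hs u v e).2
  refine ⟨σ u v / ω u v, ?_⟩
  rw [sub_eq_zero.1 this, smul_smul]
  have e2 := e.2
  rw [← sub_eq_zero.1 this, show σ u v / ω u v * (ω u v / σ u v) = 1 by field_simp, one_smul]

omit [CharZero K] in
theorem nk_row (ih : g.IH) (h : g.NK G ω) (v : V) : 4 ≤ (nb ω v).card := by
  by_contra hh
  exact h.2.2 (g.iso_KK ih h.1 h.2.1 v fun u _ => congrFun (g.row_zero h.1 v (by omega)) u)

omit [CharZero K] in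
theorem nk_cl (ih : g.IH) (h : g.NK G ω) (v : V) : ¬ g.Clq G (insert v (nb ω v)) := by
  intro hc
  obtain ⟨B, hB, hB4⟩ := Finset.exists_subset_card_eq (g.nk_row ih h v)
  have hv : v ∉ B := fun e => not_mem_nb ω v (hB e)
  obtain ⟨ζ, z1, z2, z3⟩ := g.dep5 (insert v B) (by rw [Finset.card_insert_of_notMem hv, hB4])
  have z4 : ∀ u, u ∉ insert v (nb ω v) → ζ u = 0 := fun u hu =>
    z2 u fun e => hu (Finset.insert_subset_insert _ hB e)
  have zv := z3 v (Finset.mem_insert_self _ _)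
  have k1 := g.prod_mem hc (h.1.2 v) z1 (fun u => off_nb) z4
  have k2 := g.sq_mem hc z1 z4
  have k3 := Submodule.sub_mem _ (Submodule.smul_mem _ (ζ v)⁻¹ k1)
    (Submodule.smul_mem _ (ω v v / ζ v ^ 2) k2)
  have h' := g.nk_sub h k3
  refine h'.2.2 (g.iso_KK ih h'.1 h'.2.1 v fun u _ => ?_)
  simp only [Pi.sub_apply, Pi.smul_apply, smul_eq_mul]
  field_simp
  ring

theorem del_row (h : g.Stress ω) {U : V → Vec K} {w : V} (hU : U ∈ g.flex (del (adj ω) w)) :
    ∑ u ∈ nb ω w, ω w u * (U u ⬝ᵥ g.p w) = 0 :=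
  g.row_pair h U w fun a b ha hb h0 => by
    by_cases e : a = b
    · rw [e]; exact g.link_refl _ b U hU
    · exact hU.2 a b ⟨⟨e, h0⟩, ha, hb⟩

omit [CharZero K] in
theorem zero_mem_del {F : V → V → Prop} {U : V → Vec K} (hU : U ∈ g.flex F) (w : V) :
    Function.update U w 0 ∈ g.flex (del F w) :=
  g.update_mem (isol_del F w) (g.flex_anti (fun _ _ e => Or.inl e.1) hU) (zero_dotProduct _)

omit [CharZero K] in
theorem clq_star (hl : ∀ u v, ω u v ≠ 0 → g.Link G u v) {v : V} {S : Finset V} (hS : S ⊆ nb ω v)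
    (h : g.Clq G S) : g.Clq G (insert v S) := by
  intro x hx y hy
  rcases Finset.mem_insert.1 hx with e | hx' <;> rcases Finset.mem_insert.1 hy with e' | hy'
  · rw [e, e']; exact g.link_refl G _
  · rw [e]; exact hl _ _ (mem_nb.1 (hS hy')).2
  · rw [e']; exact g.link_symm (hl _ _ (mem_nb.1 (hS hx')).2)
  · exact h x hx' y hy'

theorem nk_d5 (ih : g.IH) (h : g.NK G ω) (v : V) : 5 ≤ (nb ω v).card := by
  by_contra hh
  have h4 : (nb ω v).card = 4 := by have := g.nk_row ih h v; omega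
  have h0 : ω v ≠ 0 := fun e => by
    obtain ⟨u, hu⟩ := Finset.card_pos.1 (by omega : 0 < (nb ω v).card)
    exact (mem_nb.1 hu).2 (congrFun e u)
  have := g.deg4 v {U | U ∈ g.flex (del (adj ω) v) ∧ U v = 0}
    (fun k U hU => ⟨g.dU_mem (isol_del _ _) hU.1 hU.2 k, by simp [dU, hU.2, dv_zero]⟩) _ h4
    (not_mem_nb ω v) (fun U hU b _ => hU.1.1 b) (h.1.2 v) (fun u => off_nb) h0
    (fun U hU => g.del_row h.1 hU.1)
  refine g.nk_cl ih h v (g.clq_star h.2.1 subset_rfl fun x hx y hy U hU => ?_)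
  have e := this _ ⟨g.zero_mem_del (g.flex_le_adj h.2.1 hU) v, by simp⟩ x hx y hy
  rwa [g.dl_update U v 0 (mem_nb.1 hx).1.symm (mem_nb.1 hy).1.symm] at e

omit [CharZero K] in
theorem nb_mono {ω' : V → V → K} (h : ∀ u v, adj ω' u v → adj ω u v) (v : V) :
    nb ω' v ⊆ nb ω v := fun u hu => mem_nb.2 (h v u (mem_nb.1 hu))

omit [CharZero K] in
theorem nk_rd (h : g.NK G ω) {v s : V} {S : Finset V} (hS : S ⊆ nb ω v) (h4 : S.card = 4)
    (hc : g.Clq G (insert v S)) (hs : s ∈ S) : ∃ ω', g.Bad G ω' ∧ nb ω' v ⊆ (nb ω v).erase s ∧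
      ∀ u, u ∉ insert v S → nb ω' u ⊆ nb ω u := by
  have hv : v ∉ S := fun e => not_mem_nb ω v (hS e)
  obtain ⟨ζ, z1, z2, z3⟩ := g.dep5 (insert v S) (by rw [Finset.card_insert_of_notMem hv, h4])
  have zv := z3 v (Finset.mem_insert_self _ _)
  have zs := z3 s (Finset.mem_insert_of_mem hs)
  obtain ⟨ω', h1, h2⟩ := g.nk_red (g.nk_sub h
    (Submodule.smul_mem _ (ω v s / (ζ v * ζ s)) (g.sq_mem hc z1 z2)))
  refine ⟨ω', h1, fun u hu => ?_, fun u hu x hx => ?_⟩
  · have e := h2 v u (mem_nb.1 hu)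
    refine Finset.mem_erase.2 ⟨fun e' => e.2 ?_, ?_⟩
    · rw [e']; simp only [Pi.sub_apply, Pi.smul_apply, smul_eq_mul]; field_simp; ring
    · by_cases hu' : u ∈ S
      · exact hS hu'
      · refine mem_nb.2 ⟨e.1, fun e' => e.2 ?_⟩
        simp [e', z2 u (by simp [hu', e.1.symm])]
  · have e := h2 u x (mem_nb.1 hx)
    exact mem_nb.2 ⟨e.1, fun e' => e.2 (by simp [e', z2 u hu])⟩

/-- extension of a flex to a vertex of degree five -/
theorem ext6 (h : g.Stress ω) {w s : V} (h5 : (nb ω w).card = 5) (hs : s ∈ nb ω w) {ν : V → K}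
    (hν : g.Dep ν) (h1 : ∀ u, u ∉ insert w ((nb ω w).erase s) → ν u = 0) (h0 : ν ≠ 0)
    {U : V → Vec K} (hU : U ∈ g.flex (del (adj ω) w))
    (hl : ∑ u ∈ (nb ω w).erase s, ν u * (U u ⬝ᵥ g.p w) = 0) :
    ∃ ξ, Function.update U w ξ ∈ g.flex (adj ω) := by
  have hw : w ∉ (nb ω w).erase s := fun e => not_mem_nb ω w (Finset.mem_of_mem_erase e)
  have hc : (insert w ((nb ω w).erase s)).card ≤ 5 := by
    rw [Finset.card_insert_of_notMem hw, Finset.card_erase_of_mem hs]; omega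
  obtain ⟨ξ, hξ⟩ := g.ext5 (insert w ((nb ω w).erase s)) hc ν
    (fun u => if u = w then 0 else -(U u ⬝ᵥ g.p w)) ((g.dep_sum h1).1 hν) w
    (Finset.mem_insert_self _ _) (g.dep_full hν _ hc h1 h0 w (Finset.mem_insert_self _ _)) (by
      rw [Finset.sum_insert hw, if_pos rfl, mul_zero, zero_add, ← neg_eq_zero, ← hl,
        ← Finset.sum_neg_distrib]
      exact Finset.sum_congr rfl fun u hu => by
        rw [if_neg (fun e : u = w => hw (e ▸ hu))]; ring)
  have e0 : ξ ⬝ᵥ g.p w = 0 := by simpa using hξ w (Finset.mem_insert_self _ _)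
  have e1 : ∀ u ∈ (nb ω w).erase s, ξ ⬝ᵥ g.p u + U u ⬝ᵥ g.p w = 0 := fun u hu => by
    rw [hξ u (Finset.mem_insert_of_mem hu), if_neg (fun e : u = w => hw (e ▸ hu))]; ring
  have e2 : ξ ⬝ᵥ g.p s + U s ⬝ᵥ g.p w = 0 := by
    have a1 := g.dep_dot (h.2 w) ξ
    rw [← Finset.sum_subset (Finset.subset_univ (insert w (nb ω w)))
      (fun u _ hu => by rw [off_nb hu, zero_mul]), Finset.sum_insert (not_mem_nb ω w), e0, mul_zero,
      zero_add, ← Finset.add_sum_erase _ _ hs] at a1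
    have a2 := g.del_row h hU
    rw [← Finset.add_sum_erase _ _ hs] at a2
    have a3 : ∑ u ∈ (nb ω w).erase s, ω w u * (ξ ⬝ᵥ g.p u)
        + ∑ u ∈ (nb ω w).erase s, ω w u * (U u ⬝ᵥ g.p w) = 0 := by
      rw [← Finset.sum_add_distrib]
      exact Finset.sum_eq_zero fun u hu => by rw [← mul_add, e1 u hu, mul_zero]
    exact mul_left_cancel₀ (mem_nb.1 hs).2 (by linear_combination a1 + a2 - a3)
  refine ⟨ξ, g.flex_anti (fun u v e => ?_) (g.extend_mem (isol_del _ _) hU (nb ω w)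
    (not_mem_nb ω w) e0 fun u hu => ?_)⟩
  · by_cases hu : u = w
    · exact Or.inl (Or.inr ⟨hu, mem_nb.2 (hu ▸ e)⟩)
    by_cases hv : v = w
    · exact Or.inr (Or.inr ⟨hv, mem_nb.2 (hv ▸ g.adj_symm h e)⟩)
    · exact Or.inl (Or.inl ⟨e, hu, hv⟩)
  · by_cases e : u = s
    · rw [e]; exact e2
    · exact e1 u (Finset.mem_erase.2 ⟨e, hu⟩)

theorem nk_gw (ih : g.IH) (h : g.NK G ω) (hsp : g.flex (adj ω) = g.flex G) {w : V}
    (h5 : (nb ω w).card = 5) : g.flex (del (adj ω) w) = g.flex (del (g.Link G) w) := by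
  refine le_antisymm (fun U₁ hU₁ => ⟨hU₁.1, fun x y ⟨hxy, hx, hy⟩ => ?_⟩)
    (g.flex_anti fun u v e => Or.inl ⟨h.2.1 u v e.1.2, e.2⟩)
  by_contra hne
  have key : ∀ s ∈ nb ω w, ∀ U ∈ {U | U ∈ g.flex (del (adj ω) w) ∧ U w = 0 ∧ dl g.p U x y = 0},
      ∀ a ∈ (nb ω w).erase s, ∀ b ∈ (nb ω w).erase s, dl g.p U a b = 0 := by
    intro s hs
    have hw : w ∉ (nb ω w).erase s := fun e => not_mem_nb ω w (Finset.mem_of_mem_erase e)
    have h4 : ((nb ω w).erase s).card = 4 := by rw [Finset.card_erase_of_mem hs, h5]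
    obtain ⟨ν, n1, n2, n3⟩ := g.dep5 (insert w ((nb ω w).erase s))
      (by rw [Finset.card_insert_of_notMem hw, h4])
    have n0 : ν ≠ 0 := fun e => n3 w (Finset.mem_insert_self _ _) (congrFun e w)
    have hk : ∀ U ∈ g.flex (del (adj ω) w),
        ∑ u ∈ (nb ω w).erase s, ν u * (U u ⬝ᵥ g.p w) = 0 → dl g.p U x y = 0 := fun U hU hl => by
      obtain ⟨ξ, hξ⟩ := g.ext6 h.1 h5 hs n1 n2 n0 hU hl
      rw [← g.dl_update U w ξ hx hy]
      exact hxy _ (hsp ▸ hξ)
    refine g.deg4 w {U | U ∈ g.flex (del (adj ω) w) ∧ U w = 0 ∧ dl g.p U x y = 0} (fun k U hU => ⟨g.dU_mem (isol_del _ _) hU.1 hU.2.1 k,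
      by simp [dU, hU.2.1, dv_zero], by rw [← g.d_dl w k U hx hy, hU.2.2, map_zero]⟩) _ h4 hw
      (fun U hU b _ => hU.1.1 b) n1 n2 n0 fun U hU => ?_
    have := hk _ (Submodule.sub_mem _
      (Submodule.smul_mem _ (∑ u ∈ (nb ω w).erase s, ν u * (U u ⬝ᵥ g.p w)) hU₁)
      (Submodule.smul_mem _ (∑ u ∈ (nb ω w).erase s, ν u * (U₁ u ⬝ᵥ g.p w)) hU.1)) (by
        simp only [Pi.sub_apply, Pi.smul_apply, sub_dotProduct, smul_dotProduct, smul_eq_mul,
          mul_sub, Finset.sum_sub_distrib, mul_left_comm (ν _), ← Finset.mul_sum]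
        ring)
    rw [dl_sub, dl_smul, dl_smul, hU.2.2, mul_zero, sub_zero] at this
    exact (mul_eq_zero.1 this).resolve_right hne
  refine g.nk_cl ih h w (g.clq_star h.2.1 subset_rfl fun a ha b hb U hU => ?_)
  obtain ⟨s, hs, hs'⟩ : ∃ s ∈ nb ω w, s ∉ ({a, b} : Finset V) := by
    by_contra hh
    push Not at hh
    have := (Finset.card_le_card hh).trans Finset.card_le_two
    omega
  simp only [Finset.mem_insert, Finset.mem_singleton, not_or] at hs'
  have e := key s hs _ ⟨g.zero_mem_del (hsp ▸ hU) w, by simp, by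
    rw [g.dl_update U w 0 hx hy]; exact hxy U hU⟩ a (Finset.mem_erase.2 ⟨Ne.symm hs'.1, ha⟩) b
    (Finset.mem_erase.2 ⟨Ne.symm hs'.2, hb⟩)
  rwa [g.dl_update U w 0 (mem_nb.1 ha).1.symm (mem_nb.1 hb).1.symm] at e

end Gen

end Pool.Agent.Dress
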