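import Pool.Agent.Lib.MP_d237f6_co.DR.Gam
import Pool.Agent.Lib.MP_d237f6_co.DR.Ctx1

/-! Classification of the vertices of degree five. -/

set_option autoImplicit false
set_option linter.unusedSectionVars false

namespace Pool.Agent.Dress

open Matrix Module Classical

variable {K : Type} [Field K] [CharZero K] {V : Type} [DecidableEq V] [Fintype V]

/-- a normalised dependency on five points is constant with respect to another point -/
theorem Cl_const (g : Gen V K) {ζ : V → K} (h : g.Dep ζ) (X : Finset V) (hX : X.card ≤ 5)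
    (hs : ∀ u, u ∉ X → ζ u = 0) {s z : V} (hs1 : s ∈ X) (h1 : ζ s = 1) (hz : z ∉ X) (k : Fin 4) :
    ∀ u, g.d z k (ζ u) = 0 := by
  have e := congrArg (dv (g.d z k)) h
  rw [dv_sum_smul, dv_zero, Finset.sum_add_distrib,
    Finset.sum_eq_zero (f := fun u => ζ u • dv (g.d z k) (g.p u)) (fun u _ => by
      by_cases hu : u = z
      · rw [hu, hs z hz, zero_smul]
      · rw [g.d_ne hu, smul_zero]), add_zero] at e
  exact congrFun (g.dep_zero (γ := fun u => g.d z k (ζ u)) e (X.erase s)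
    (by rw [Finset.card_erase_of_mem hs1]; omega) fun u hu => by
      by_cases e' : u = s
      · simp [e', h1]
      · simp [hs u fun h' => hu (Finset.mem_erase.2 ⟨e', h'⟩)])

theorem Cl_dep (g : Gen V K) (X : Finset V) (hX : X.card = 5) {s : V} (hs : s ∈ X) :
    ∃ ζ : V → K, g.Dep ζ ∧ (∀ u, u ∉ X → ζ u = 0) ∧ (∀ u ∈ X, ζ u ≠ 0) ∧ ζ s = 1 := by
  obtain ⟨ζ, h1, h2, h3⟩ := g.dep5 X hX
  exact ⟨(ζ s)⁻¹ • ζ, g.dep_smul h1 _, fun u hu => by simp [h2 u hu],
    fun u hu => by simp [h3 u hu, h3 s hs], by simp [h3 s hs]⟩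

theorem Cl_dsum (g : Gen V K) {ζ : V → K} {z : V} {k : Fin 4} (h : ∀ u, g.d z k (ζ u) = 0)
    (U : V → Vec K) : ∑ u, ζ u • dU (g.d z k) U u = dv (g.d z k) (∑ u, ζ u • U u) := by
  rw [dv_sum_smul]
  exact Finset.sum_congr rfl fun u _ => by rw [h u, zero_smul, zero_add]; rfl

theorem Cl_reset {ζ : V → K} {z : V} (h : ζ z = 0) (U : V → Vec K) (ξ : Vec K) :
    ∑ u, ζ u • Function.update U z ξ u = ∑ u, ζ u • U u :=
  Finset.sum_congr rfl fun u _ => by
    by_cases e : u = z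
    · rw [e, h, zero_smul, zero_smul]
    · rw [Function.update_of_ne e]

theorem Cl_sum {γ : V → K} {X : Finset V} (h : ∀ u, u ∉ X → γ u = 0) (U : V → Vec K) :
    ∑ u, γ u • U u = ∑ u ∈ X, γ u • U u :=
  (Finset.sum_subset (Finset.subset_univ X) fun u _ hu => by rw [h u hu, zero_smul]).symm

theorem Cl_kill (g : Gen V K) {F : V → V → Prop} {w : V} (hw : Isol F w) {ζ : V → K}
    (hc : ∀ k u, g.d w k (ζ u) = 0)
    (h : ∀ U ∈ g.flex F, U w = 0 → (∑ u, ζ u • U u) ⬝ᵥ g.p w = 0) :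
    ∀ U ∈ g.flex F, U w = 0 → ∑ u, ζ u • U u = 0 := by
  intro U hU h0
  ext k
  have e := congrArg (g.d w k) (h U hU h0)
  rw [d_dot, g.d_self, ← Cl_dsum g (hc k), h _ (g.dU_mem hw hU h0 k) (by simp [dU, h0, dv_zero]),
    map_zero] at e
  simpa using e

theorem Cl_pol {M : Mat K} {a b : Vec K} (h : ∀ z, 2 * bil M z z = 2 * (a ⬝ᵥ z) * (b ⬝ᵥ z))
    (m m' : Vec K) : sb M m m' = (a ⬝ᵥ m) * (b ⬝ᵥ m') + (a ⬝ᵥ m') * (b ⬝ᵥ m) := by
  have h1 := h (m + m')
  have h2 := h m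
  have h3 := h m'
  simp only [bil_add_left, bil_add_right, dotProduct_add] at h1
  rw [sb]
  linear_combination (h1 - h2 - h3) / 2

theorem Cl_dl (g : Gen V K) {M : Mat K} {U : V → Vec K} {a b : V} (ha : M *ᵥ g.p a = U a)
    (hb : M *ᵥ g.p b = U b) : dl g.p U a b = sb M (g.p a) (g.p b) := by
  rw [sb, bil_eq', bil_eq', ha, hb, dl, add_comm]

/-- the normal form of the flexes at a vertex with a loop stress -/
theorem Cl_form (g : Gen V K) {G : V → V → Prop} {ω : V → V → K} {w : V} (hc : g.Ctx G)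
    (hb : g.Bad G ω) (h5 : (nb ω w).card = 5) (hww : ω w w ≠ 0) :
    ∃ α ℓ : V → K, g.Dep α ∧ (∀ u, u ∉ nb ω w → α u = 0) ∧ (∀ u ∈ nb ω w, α u ≠ 0) ∧
      ∑ u ∈ nb ω w, α u * ℓ u = 1 ∧
      (∀ U ∈ g.flex (del (adj ω) w), ∀ a ∈ nb ω w, ∀ b ∈ nb ω w, dl g.p U a b =
        ℓ a * ((∑ u, α u • U u) ⬝ᵥ g.p b) + ℓ b * ((∑ u, α u • U u) ⬝ᵥ g.p a)) ∧
      (∃ U ∈ g.flex (del (adj ω) w), ∑ u, α u • U u ≠ 0 ∧ (∑ u, α u • U u) ⬝ᵥ g.p w = 0) ∧
      (∃ U ∈ g.flex (del (adj ω) w), (∑ u, α u • U u) ⬝ᵥ g.p w ≠ 0) ∧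
      ∀ a ∈ nb ω w, ∃ b ∈ nb ω w, b ≠ a ∧ ℓ b ≠ 0 := by
  have hω := hb.1.1
  obtain ⟨s, hs⟩ := Finset.card_pos.1 (by omega : 0 < (nb ω w).card)
  obtain ⟨α, a1, a2, a3, a4⟩ := Cl_dep g _ h5 hs
  have hw := Gen.not_mem_nb ω w
  have ac := fun k => Cl_const g a1 _ h5.le a2 hs a4 hw k
  set B := (nb ω w).erase s with hB
  have hB4 : B.card = 4 := by rw [hB, Finset.card_erase_of_mem hs, h5]
  have hBw : ∀ b ∈ B, b ≠ w := fun b hb => (mem_nb.1 (Finset.mem_of_mem_erase hb)).1.symm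
  set c : K := ω w s / ω w w with hcd
  set 𝒮 : Set ((V → Vec K) × Mat K) :=
    {t | t.1 ∈ g.flex (del (adj ω) w) ∧ t.1 w = 0 ∧ ∀ b ∈ B, t.2 *ᵥ g.p b = t.1 b} with h𝒮
  have hact : ∀ k, ∀ t ∈ 𝒮, (dU (g.d w k) t.1, dm (g.d w k) t.2) ∈ 𝒮 := fun k t ht =>
    ⟨g.dU_mem (isol_del _ _) ht.1 ht.2.1 k, by simp [dU, ht.2.1, dv_zero], fun b hb => by
      rw [← dv_mulVec _ _ _ (g.d_ne (hBw b hb) k), ht.2.2 b hb]; rfl⟩
  have dα : g.p s + ∑ b ∈ B, α b • g.p b = 0 := by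
    have := (g.dep_sum a2).1 a1
    rwa [← Finset.add_sum_erase _ _ hs, a4, one_smul] at this
  have dω : ω w w • g.p w + (ω w s • g.p s + ∑ b ∈ B, ω w b • g.p b) = 0 := by
    have := (g.dep_sum (X := insert w (nb ω w)) fun u => Gen.off_nb).1 (hω.2 w)
    rwa [Finset.sum_insert hw, ← Finset.add_sum_erase _ _ hs] at this
  have hUs : ∀ t ∈ 𝒮, t.1 s = t.2 *ᵥ g.p s + ∑ u, α u • t.1 u := fun t ht => by
    have e := congrArg (fun m => t.2 *ᵥ m) dα
    simp only [mulVec_add, mulVec_sum, mulVec_smul, mulVec_zero] at e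
    rw [Finset.sum_congr rfl fun b hb => by rw [ht.2.2 b hb]] at e
    rw [Cl_sum a2, ← Finset.add_sum_erase _ _ hs, a4, one_smul]
    linear_combination (exp := 1) -e
  have hrel : ∀ t ∈ 𝒮, bil t.2 (g.p w) (g.p w) + (0 : Vec K) ⬝ᵥ g.p w =
      ∑ _l : Unit, c * ((∑ u, α u • t.1 u) ⬝ᵥ g.p w) := fun t ht => by
    have e := congrArg (fun m => (t.2 *ᵥ m) ⬝ᵥ g.p w) dω
    simp only [mulVec_add, mulVec_sum, mulVec_smul, mulVec_zero, add_dotProduct, sum_dotProduct,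
      smul_dotProduct, smul_eq_mul, zero_dotProduct] at e
    rw [Finset.sum_congr rfl fun b hb => by rw [ht.2.2 b hb]] at e
    have e2 := g.del_row hω ht.1
    rw [← Finset.add_sum_erase _ _ hs, hUs t ht, add_dotProduct] at e2
    simp only [Finset.univ_unique, Finset.sum_singleton, zero_dotProduct, add_zero, bil_eq', hcd]
    field_simp
    linear_combination e - e2
  have hχ : ∀ (_ : Unit) k (t : (V → Vec K) × Mat K), ∑ u, α u • dU (g.d w k) t.1 u =
      dv (g.d w k) (∑ u, α u • t.1 u) := fun _ k t => Cl_dsum g (ac k) t.1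
  have mk : ∀ U ∈ g.flex (del (adj ω) w), ∃ M, (Function.update U w 0, M) ∈ 𝒮 := fun U hU => by
    obtain ⟨M, hM⟩ := g.exists_mat4 B hB4.le (Function.update U w 0)
    exact ⟨M, g.update_mem (isol_del _ _) hU (zero_dotProduct _), by simp, hM⟩
  have aw : α w = 0 := a2 w hw
  have form : ∀ t ∈ 𝒮, ∀ gr : Vec K, (∀ m m', sb t.2 m m' = (gr ⬝ᵥ m) * ((∑ u, α u • t.1 u) ⬝ᵥ m')
      + (gr ⬝ᵥ m') * ((∑ u, α u • t.1 u) ⬝ᵥ m)) → ∀ a ∈ nb ω w, ∀ b ∈ nb ω w, dl g.p t.1 a b =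
        (gr ⬝ᵥ g.p a + if a = s then 1 else 0) * ((∑ u, α u • t.1 u) ⬝ᵥ g.p b)
        + (gr ⬝ᵥ g.p b + if b = s then 1 else 0) * ((∑ u, α u • t.1 u) ⬝ᵥ g.p a) := by
    intro t ht gr h a ha b hb
    have key : ∀ a ∈ nb ω w, t.1 a = t.2 *ᵥ g.p a +
        (if a = s then (1 : K) else 0) • ∑ u, α u • t.1 u := fun a ha => by
      by_cases e : a = s
      · rw [if_pos e, one_smul, e]; exact hUs t ht
      · rw [if_neg e, zero_smul, add_zero, ht.2.2 a (Finset.mem_erase.2 ⟨e, ha⟩)]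
    have := h (g.p a) (g.p b)
    rw [sb, bil_eq', bil_eq'] at this
    rw [dl, key a ha, key b hb]
    simp only [add_dotProduct, smul_dotProduct, smul_eq_mul]
    linear_combination this
  have z0 : ∃ t ∈ 𝒮, ∑ u, α u • t.1 u ≠ 0 ∧ (∑ u, α u • t.1 u) ⬝ᵥ g.p w = 0 := by
    by_contra hh
    push Not at hh
    refine hc.cl ω w hb.1 (g.clq_star hb.1.2.1 subset_rfl fun a ha b hb' U hU => ?_)
    rw [← hc.span ω hb.1] at hU
    obtain ⟨M, hM⟩ := mk U (g.flex_anti (fun _ _ e => Or.inl e.1) hU)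
    have e1 : (∑ u, α u • Function.update U w 0 u) ⬝ᵥ g.p w = 0 := by
      rw [Cl_reset aw, Cl_sum a2, sum_dotProduct]
      have e2 := g.dep_dot a1 (U w)
      rw [← Finset.sum_subset (Finset.subset_univ (nb ω w))
        (fun u _ hu => by rw [a2 u hu, zero_mul])] at e2
      rw [← neg_eq_zero, ← e2, ← Finset.sum_neg_distrib]
      refine Finset.sum_congr rfl fun u hu => ?_
      have := hU.2 w u (mem_nb.1 hu)
      rw [dl] at this
      rw [smul_dotProduct, smul_eq_mul]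
      linear_combination -α u * this
    have e3 : ∑ u, α u • Function.update U w 0 u = 0 := by
      by_contra e; exact hh _ hM e e1
    have e4 := sd (g.d w) (g.p w) (g.d_self w) 𝒮 _ hact (fun t => t.2) (fun _ _ => rfl)
      (fun _ => 0) (fun k _ => (dv_zero _).symm) (fun _ t => ∑ u, α u • t.1 u) hχ (fun _ => c) hrel
      _ hM (fun _ => e1)
    have := form _ hM 0 (fun m m' => by simpa [e3] using e4 m m') a ha b hb'
    simp only [e3, zero_dotProduct, mul_zero, add_zero] at this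
    rwa [g.dl_update U w 0 (mem_nb.1 ha).1.symm (mem_nb.1 hb').1.symm] at this
  obtain ⟨t0, ht0, t1, t2⟩ := z0
  have hh : ∀ z, hes (g.d w) c z = 0 := by
    refine (poly_dom _ _ (poly_hes _ _) (poly_dot (∑ u, α u • t0.1 u)) fun z => ?_).resolve_right
      fun e => t1 (vec_eq_zero e)
    simpa using td1 (g.d w) (g.p w) (g.d_self w) 𝒮 _ hact (fun t => t.2) (fun _ _ => rfl)
      (fun _ => 0) (fun k _ => (dv_zero _).symm) (fun _ t => ∑ u, α u • t.1 u) hχ (fun _ => c) hrel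
      _ ht0 (fun _ => t2) z
  set gr : Vec K := fun k => g.d w k c with hgr
  have q : ∀ t ∈ 𝒮, ∀ z, 2 * bil t.2 z z = 2 * (gr ⬝ᵥ z) * ((∑ u, α u • t.1 u) ⬝ᵥ z) :=
    fun t ht z => by
      simpa [hh] using sd1 (g.d w) (g.p w) (g.d_self w) 𝒮 _ hact (fun t => t.2) (fun _ _ => rfl)
        (fun _ => 0) (fun k _ => (dv_zero _).symm) (fun _ t => ∑ u, α u • t.1 u) hχ (fun _ => c)
        hrel t ht z
  have z1 : ∃ U ∈ g.flex (del (adj ω) w), U w = 0 ∧ (∑ u, α u • U u) ⬝ᵥ g.p w ≠ 0 := by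
    by_contra e
    push Not at e
    exact t1 (Cl_kill g (isol_del _ _) ac e _ ht0.1 ht0.2.1)
  obtain ⟨U1, u1, -, u3⟩ := z1
  have eul : gr ⬝ᵥ g.p w = c := by
    obtain ⟨M, hM⟩ := mk U1 u1
    have e1 := q _ hM (g.p w)
    have e2 := hrel _ hM
    simp only [Finset.univ_unique, Finset.sum_singleton, zero_dotProduct, add_zero,
      Cl_reset aw] at e1 e2
    exact mul_right_cancel₀ u3 (by linear_combination e2 - e1 / 2)
  have sα : ∑ u ∈ nb ω w, α u * (gr ⬝ᵥ g.p u + if u = s then 1 else 0) = 1 := by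
    have e2 := g.dep_dot a1 gr
    rw [← Finset.sum_subset (Finset.subset_univ (nb ω w))
      (fun u _ hu => by rw [a2 u hu, zero_mul])] at e2
    simp [mul_add, Finset.sum_add_distrib, e2, hs, a4]
  have sω : ∑ u ∈ nb ω w, ω w u * (gr ⬝ᵥ g.p u + if u = s then 1 else 0) = 0 := by
    have e2 := g.dep_dot (hω.2 w) gr
    rw [← Finset.sum_subset (Finset.subset_univ (insert w (nb ω w)))
      (fun u _ hu => by rw [Gen.off_nb hu, zero_mul]), Finset.sum_insert hw, eul, hcd,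
      mul_div_cancel₀ _ hww] at e2
    simp only [mul_add, Finset.sum_add_distrib, mul_ite, mul_one, mul_zero, Finset.sum_ite_eq', hs,
      if_true]
    linear_combination e2
  refine ⟨α, fun a => gr ⬝ᵥ g.p a + if a = s then 1 else 0, a1, a2, a3, sα, fun U hU a ha b hb => ?_,
    ⟨t0.1, ht0.1, t1, t2⟩, ⟨U1, u1, u3⟩, fun a ha => ?_⟩
  · obtain ⟨M, hM⟩ := mk U hU
    have := form _ hM gr (Cl_pol (q _ hM)) a ha b hb
    rwa [g.dl_update U w 0 (mem_nb.1 ha).1.symm (mem_nb.1 hb).1.symm, Cl_reset aw] at this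
  · by_contra e
    push Not at e
    rw [Finset.sum_eq_single a (fun b hb hba => by rw [e b hb hba, mul_zero]) (fun h => absurd ha h)]
      at sα sω
    rw [(mul_eq_zero.1 sω).resolve_left (mem_nb.1 ha).2, mul_zero] at sα
    exact zero_ne_one sα

theorem Cl_thm (g : Gen V K) : g.StCl := by
  intro G ω w hc hb h5
  have hω := hb.1.1
  have hw := Gen.not_mem_nb ω w
  have gw := hc.gw ω w hb.1 h5
  by_cases hww : ω w w = 0
  · refine Or.inl ⟨hc, hb, h5, fun α a1 a2 U hU => ?_⟩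
    obtain ⟨s, hs⟩ := Finset.card_pos.1 (by omega : 0 < (nb ω w).card)
    obtain ⟨ζ, z1, z2, z3, z4⟩ := Cl_dep g _ h5 hs
    have z0 : ζ ≠ 0 := fun e => z3 s hs (congrFun e s)
    obtain ⟨t, ht⟩ := g.dep5_prop a1 z1 _ h5.le a2 z2 z0
    obtain ⟨r, hr⟩ := g.dep5_prop (hω.2 w) z1 _ h5.le (fun u hu => by
      by_cases e : u = w
      · rw [e, hww]
      · exact Gen.off_nb (by simp [e, hu])) z2 z0
    have r0 : r ≠ 0 := fun e => (mem_nb.1 hs).2 (by simpa [e] using congrFun hr s)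
    have := Cl_kill g (isol_del (adj ω) w) (fun k => Cl_const g z1 _ h5.le z2 hs z4 hw k)
      (fun U hU _ => by
        have e := g.del_row hω hU
        rw [Cl_sum z2, sum_dotProduct]
        refine mul_left_cancel₀ r0 ?_
        rw [mul_zero, ← e, Finset.mul_sum, hr]
        exact Finset.sum_congr rfl fun u _ => by simp [mul_assoc])
      _ (g.update_mem (isol_del _ _) (gw ▸ hU) (zero_dotProduct _)) (by simp)
    rw [Cl_reset (z2 w hw)] at this
    simp only [ht, Pi.smul_apply, smul_eq_mul, mul_smul, ← Finset.smul_sum, this, smul_zero]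
  right
  obtain ⟨α, ℓ, a1, a2, a3, a4, form, ⟨U0, u0, u0', u0''⟩, ⟨U1, u1, u1'⟩, two⟩ :=
    Cl_form g hc hb h5 hww
  have kill : ∀ U ∈ g.flex (del (adj ω) w), ∀ a ∈ nb ω w, ℓ a ≠ 0 →
      (∑ u, α u • U u) ⬝ᵥ g.p a = 0 := fun U hU a ha h0 => by
    have := form U hU a ha a ha
    rw [g.link_refl _ a U hU] at this
    exact mul_left_cancel₀ h0 (by linear_combination -this / 2)
  obtain ⟨s, hs⟩ := Finset.card_pos.1 (by omega : 0 < (nb ω w).card)
  obtain ⟨a, ha, -, la⟩ := two s hs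
  obtain ⟨c, hc', hca, lc⟩ := two a ha
  have wa := (mem_nb.1 ha).1
  have wc := (mem_nb.1 hc').1
  set T := ((nb ω w).erase a).erase c with hT
  have mT : ∀ x, x ∈ T ↔ x ≠ c ∧ x ≠ a ∧ x ∈ nb ω w := fun x => by simp [hT]
  have lx : ∀ x ∈ T, ℓ x = 0 := fun x hx => by
    by_contra e
    obtain ⟨x1, x2, x3⟩ := (mT x).1 hx
    exact u0' (g.cov4 wa wc (mem_nb.1 x3).1 hca.symm x2.symm x1.symm u0'' (kill _ u0 a ha la)
      (kill _ u0 c hc' lc) (kill _ u0 x x3 e))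
  have cT : T.card = 3 := by
    rw [hT, Finset.card_erase_of_mem (Finset.mem_erase.2 ⟨hca, hc'⟩), Finset.card_erase_of_mem ha, h5]
  have eN : nb ω w = insert a (insert c T) := by
    rw [hT, Finset.insert_erase (Finset.mem_erase.2 ⟨hca, hc'⟩), Finset.insert_erase ha]
  have aT : a ∉ T := fun e => ((mT a).1 e).2.1 rfl
  have cT' : c ∉ T := fun e => ((mT c).1 e).1 rfl
  have split : ∀ f : V → K, (∀ x ∈ T, f x = 0) → ∑ u ∈ nb ω w, α u * f u = α a * f a + α c * f c :=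
    fun f hf => by
      rw [eN, Finset.sum_insert (by simp [hca.symm, aT]), Finset.sum_insert cT',
        Finset.sum_eq_zero fun x hx => by rw [hf x hx, mul_zero], add_zero]
  rw [split ℓ lx] at a4
  have fG : ∀ U ∈ g.flex G, U ∈ g.flex (del (adj ω) w) := fun U hU =>
    g.flex_anti (fun _ _ e => Or.inl e.1) (hc.span ω hb.1 ▸ hU)
  have rT : ∀ U ∈ g.flex (del (adj ω) w), ∀ x ∈ T, ∀ y ∈ T, dl g.p U x y = 0 := fun U hU x hx y hy => by
    rw [form U hU x ((mT x).1 hx).2.2 y ((mT y).1 hy).2.2, lx x hx, lx y hy]; ring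
  refine ⟨a, c, T, -(ℓ a / ℓ c), hc, hb, ⟨cT, hca.symm, aT, cT', wa, wc,
    fun e => hw ((mT w).1 e).2.2, fun U hU => ?_, fun x hx y hy U hU => rT U (fG U hU) x hx y hy,
    neg_ne_zero.2 (div_ne_zero la lc), fun U hU x hx => ?_, fun φ h1 h2 => ?_,
    fun θ h1 h2 => ?_⟩, eN⟩
  · rw [form U (fG U hU) a ha c hc', kill U (fG U hU) a ha la, kill U (fG U hU) c hc' lc]; ring
  · rw [form U (gw ▸ hU) a ha x ((mT x).1 hx).2.2, form U (gw ▸ hU) c hc' x ((mT x).1 hx).2.2,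
      lx x hx]
    field_simp
    ring
  · have e := g.dep_dot a1 φ
    rw [← Finset.sum_subset (Finset.subset_univ (nb ω w))
      (fun u _ hu => by rw [a2 u hu, zero_mul]), split _ h1] at e
    rw [dotProduct_add, dotProduct_smul, smul_eq_mul] at h2
    have e2 : φ ⬝ᵥ g.p c = 0 := by
      field_simp at h2
      linear_combination ℓ c * e - α a * h2 - (φ ⬝ᵥ g.p c) * a4
    exact g.cov_zero (insert c T) (by rw [Finset.card_insert_of_notMem cT', cT]) φ fun b hb =>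
      (Finset.mem_insert.1 hb).elim (fun e => e ▸ e2) (h1 b)
  · obtain ⟨t0, ht0⟩ := normal_prop (g.li3 hca.symm wa.symm wc.symm) u0' (kill _ u0 a ha la)
      (kill _ u0 c hc' lc) u0''
      (f' := θ - (θ ⬝ᵥ g.p w / (∑ u, α u • U1 u) ⬝ᵥ g.p w) • ∑ u, α u • U1 u)
      (by simp [h1, kill _ u1 a ha la]) (by simp [h2, kill _ u1 c hc' lc])
      (by simp only [sub_dotProduct, smul_dotProduct, smul_eq_mul]; field_simp; ring)
    set U := (ℓ c)⁻¹ • ((θ ⬝ᵥ g.p w / (∑ u, α u • U1 u) ⬝ᵥ g.p w) • U1 + t0 • U0) with hUd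
    have hU : U ∈ g.flex (del (adj ω) w) := Submodule.smul_mem _ _
      (Submodule.add_mem _ (Submodule.smul_mem _ _ u1) (Submodule.smul_mem _ _ u0))
    have hχ : ∑ u, α u • U u = (ℓ c)⁻¹ • θ := by
      simp only [hUd, Pi.smul_apply, Pi.add_apply, smul_add, smul_comm (α _), Finset.sum_add_distrib,
        ← Finset.smul_sum]
      rw [← ht0, ← smul_add, add_sub_cancel]
    obtain ⟨L, hL, hL'⟩ := g.rigX T U (rT U hU)
    have hU' := g.sub_skew_mem hU hL
    have val : ∀ b ∈ nb ω w, b ∉ T → ℓ b ≠ 0 → U b - L *ᵥ g.p b = ℓ b • (ℓ c)⁻¹ • θ :=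
      fun b hb hbT lb => by
        refine sub_eq_zero.1 (g.cov_zero (insert b T)
          (by rw [Finset.card_insert_of_notMem hbT, cT]) _ fun x hx => ?_)
        rcases Finset.mem_insert.1 hx with e | hx
        · rw [e, sub_dotProduct, hU'.1 b, smul_dotProduct, ← hχ, kill U hU b hb lb]; simp
        · have e := form U hU b hb x ((mT x).1 hx).2.2
          rw [← dl_sub_skew _ _ hL, dl, ← hL' x hx, sub_self, zero_dotProduct, add_zero, lx x hx,
            zero_mul, add_zero, hχ] at e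
          rw [sub_dotProduct, e]; simp only [smul_dotProduct, smul_eq_mul, sub_self]
    refine ⟨Function.update (fun x => U x - L *ᵥ g.p x) w 0,
      gw ▸ g.update_mem (isol_del _ _) hU' (zero_dotProduct _), by simp, fun x hx => ?_, ?_, ?_⟩
    · rw [Function.update_of_ne (mem_nb.1 ((mT x).1 hx).2.2).1.symm, hL' x hx, sub_self]
    · rw [Function.update_of_ne wc.symm, val c hc' cT' lc, smul_smul, mul_inv_cancel₀ lc, one_smul]
    · rw [Function.update_of_ne wa.symm, val a ha aT la, smul_smul, neg_smul, neg_neg,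
        div_eq_mul_inv]

theorem T2_thm (g : Gen V K) : g.StT2 := by
  intro G ω w h
  have hω := h.bad.1.1
  have hw := Gen.not_mem_nb ω w
  have gw := h.ctx.gw ω w h.bad.1 h.deg
  have p2 : ∀ U ∈ g.flex (del (adj ω) w), ∃ M : Mat K, ∀ a ∈ nb ω w, M *ᵥ g.p a = U a := by
    intro U hU
    obtain ⟨s, hs⟩ := Finset.card_pos.1 (by have := h.deg; omega : 0 < (nb ω w).card)
    obtain ⟨α, a1, a2, -, a4⟩ := Cl_dep g _ h.deg hs
    obtain ⟨M, hM⟩ := g.exists_mat4 ((nb ω w).erase s)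
      (by rw [Finset.card_erase_of_mem hs, h.deg]) U
    refine ⟨M, fun a ha => ?_⟩
    by_cases e : a = s
    · have e1 := h.t2 α a1 a2 U (gw ▸ hU)
      have e2 := g.dep_mulVec a1 M
      rw [Cl_sum a2, ← Finset.add_sum_erase _ _ hs, a4, one_smul] at e1 e2
      rw [Finset.sum_congr rfl fun b hb => by rw [hM b hb]] at e2
      rw [e]
      linear_combination (exp := 1) e2 - e1
    · exact hM a (Finset.mem_erase.2 ⟨e, ha⟩)
  have fG : ∀ U ∈ g.flex (adj ω), U ∈ g.flex (del (adj ω) w) := fun U hU =>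
    g.flex_anti (fun _ _ e => Or.inl e.1) hU
  obtain ⟨U0, u0, a, ha, b, hb, hab⟩ : ∃ U ∈ g.flex (adj ω), ∃ a ∈ nb ω w, ∃ b ∈ nb ω w,
      dl g.p U a b ≠ 0 := by
    by_contra e
    push Not at e
    exact h.ctx.cl ω w h.bad.1 (g.clq_star h.bad.1.2.1 subset_rfl fun a ha b hb U hU =>
      e U (h.ctx.span ω h.bad.1 ▸ hU) a ha b hb)
  have p3 : ∃ U ∈ g.flex (del (adj ω) w), ∃ M : Mat K, (∀ a ∈ nb ω w, M *ᵥ g.p a = U a) ∧
      bil M (g.p w) (g.p w) ≠ 0 := by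
    by_contra e
    push Not at e
    obtain ⟨M, hM⟩ := p2 U0 (fG U0 u0)
    refine hab ((Cl_dl g (hM a ha) (hM b hb)).trans (g.quad_zero w
      {M | ∃ U ∈ g.flex (del (adj ω) w), U w = 0 ∧ ∀ a ∈ nb ω w, M *ᵥ g.p a = U a}
      (fun k M ⟨U, hU, h0, hM⟩ => ⟨_, g.dU_mem (isol_del _ _) hU h0 k, by simp [dU, h0, dv_zero],
        fun b hb => by
          rw [← dv_mulVec _ _ _ (g.d_ne (mem_nb.1 hb).1.symm k), hM b hb]; rfl⟩)
      (fun M ⟨U, hU, _, hM⟩ => e U hU M hM) M ⟨_, g.zero_mem_del u0 w, by simp, fun a ha => by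
        rw [Function.update_of_ne (mem_nb.1 ha).1.symm, hM a ha]⟩ _ _))
  refine ⟨?_, p2, p3, ?_⟩
  · obtain ⟨U, hU, M, hM, h0⟩ := p3
    have e1 := g.del_row hω hU
    have e2 := congrArg (fun m => m ⬝ᵥ g.p w) (g.dep_mulVec (hω.2 w) M)
    simp only [Cl_sum (X := insert w (nb ω w)) fun u => Gen.off_nb, Finset.sum_insert hw,
      add_dotProduct, sum_dotProduct, smul_dotProduct, smul_eq_mul, zero_dotProduct] at e2
    rw [Finset.sum_congr rfl fun b hb => by rw [hM b hb], e1, add_zero, ← bil_eq'] at e2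
    exact (mul_eq_zero.1 e2).resolve_right h0
  · obtain ⟨M, hM⟩ := p2 U0 (fG U0 u0)
    refine ⟨U0, u0, M, hM, ?_, fun e => hab ?_⟩
    · have e := g.cov_zero (nb ω w) (by have := h.deg; omega) (U0 w + g.p w ᵥ* M) fun a ha => by
        rw [add_dotProduct, ← bil_eq, bil_eq', hM a ha]
        exact u0.2 w a (mem_nb.1 ha)
      have e2 := congrArg (fun m => m ⬝ᵥ g.p w) e
      simpa only [add_dotProduct, u0.1 w, zero_add, zero_dotProduct, ← bil_eq] using e2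
    · rw [Cl_dl g (hM a ha) (hM b hb), sb_eq, e, bil_zero]

end Pool.Agent.Dress
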