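import Pool.Agent.Lib.MP_d237f6_co.DR.Gam

/-! The cone over a sparse graph carries no stress. -/

set_option autoImplicit false

namespace Pool.Agent.Dress

open Matrix Module Classical

variable {K : Type} [Field K] [CharZero K] {V : Type} [DecidableEq V] [Fintype V]

/-- the edges inside a set -/
noncomputable def Cone_in (E : Finset (Sym2 V)) (X : Finset V) : Finset (Sym2 V) :=
  E.filter (fun e => ∀ x ∈ e, x ∈ X)

theorem Cone_mem {E : Finset (Sym2 V)} {X : Finset V} {a b : V} :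
    s(a, b) ∈ Cone_in E X ↔ s(a, b) ∈ E ∧ a ∈ X ∧ b ∈ X := by
  simp [Cone_in]

theorem Cone_submod (E : Finset (Sym2 V)) (X X' : Finset V) :
    (Cone_in E X).card + (Cone_in E X').card ≤
      (Cone_in E (X ∪ X')).card + (Cone_in E (X ∩ X')).card := by
  rw [← Finset.card_union_add_card_inter]
  refine add_le_add (Finset.card_le_card fun e => ?_) (Finset.card_le_card fun e => ?_) <;>
    induction e using Sym2.ind <;> simp only [Finset.mem_union, Finset.mem_inter, Cone_mem] <;> tauto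

theorem Cone_disj {E : Finset (Sym2 V)} (hE : ∀ e ∈ E, ¬ e.IsDiag) {X X' : Finset V}
    (h : ¬ 2 ≤ (X ∩ X').card) : Disjoint (Cone_in E X) (Cone_in E X') := by
  refine Finset.disjoint_left.2 fun e => ?_
  induction e using Sym2.ind with
  | _ a b =>
  intro h1 h2
  rw [Cone_mem] at h1 h2
  exact h (Finset.one_lt_card.2 ⟨a, Finset.mem_inter.2 ⟨h1.2.1, h2.2.1⟩, b,
    Finset.mem_inter.2 ⟨h1.2.2, h2.2.2⟩, fun e => hE _ h1.1 (Sym2.mk_isDiag_iff.2 e)⟩)

omit [Fintype V] in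
theorem Cone_deg {E : Finset (Sym2 V)} {Y : Finset V} (hY : Y.Nonempty)
    (h : 2 ≤ Y.card → E.card + 3 ≤ 2 * Y.card) :
    ∃ y ∈ Y, (Y.filter fun u => s(y, u) ∈ E).card ≤ 3 := by
  by_contra hc
  push Not at hc
  obtain ⟨y, hy⟩ := hY
  have h0 := (hc y hy).trans_le (Finset.card_filter_le _ _)
  have h1 : Y.card * 4 ≤ ∑ y ∈ Y, (Y.filter fun u => s(y, u) ∈ E).card := by
    rw [← smul_eq_mul]
    exact Finset.card_nsmul_le_sum _ _ _ hc
  have h2 : ∑ y ∈ Y, (Y.filter fun u => s(y, u) ∈ E).card =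
      ((Y ×ˢ Y).filter fun p => s(p.1, p.2) ∈ E).card := by
    simp only [Finset.card_filter, Finset.sum_product]
  have h3 : ((Y ×ˢ Y).filter fun p => s(p.1, p.2) ∈ E).card ≤ 2 * E.card := by
    refine Finset.card_le_mul_card_image_of_maps_to (f := fun p : V × V => s(p.1, p.2))
      (fun p hp => (Finset.mem_filter.1 hp).2) 2 fun e _ => ?_
    induction e using Sym2.ind with
    | _ a b =>
    refine (Finset.card_le_card (t := {(a, b), (b, a)}) fun p hp => ?_).trans Finset.card_le_two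
    have := Sym2.eq_iff.1 (Finset.mem_filter.1 hp).2
    simp only [Finset.mem_insert, Finset.mem_singleton, Prod.ext_iff]
    exact this
  have := h (by omega)
  omega

theorem Cone_tight {E : Finset (Sym2 V)} (hE : ∀ e ∈ E, ¬ e.IsDiag) {Y : Finset V}
    (hs : ∀ X ⊆ Y, 2 ≤ X.card → (Cone_in E X).card + 3 ≤ 2 * X.card) {a b c : V} (hac : a ≠ c)
    {X₁ X₂ X₃ : Finset V} (s1 : X₁ ⊆ Y) (s2 : X₂ ⊆ Y) (s3 : X₃ ⊆ Y) (a1 : a ∈ X₁) (b1 : b ∈ X₁)
    (b2 : b ∈ X₂) (c2 : c ∈ X₂) (a3 : a ∈ X₃) (c3 : c ∈ X₃)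
    (t1 : 2 * X₁.card ≤ (Cone_in E X₁).card + 3) (t2 : 2 * X₂.card ≤ (Cone_in E X₂).card + 3)
    (t3 : 2 * X₃.card ≤ (Cone_in E X₃).card + 3) :
    ∃ Z ⊆ Y, a ∈ Z ∧ b ∈ Z ∧ c ∈ Z ∧ 2 * Z.card ≤ (Cone_in E Z).card + 3 := by
  have key : ∀ X X' : Finset V, X ⊆ Y → 2 * X.card ≤ (Cone_in E X).card + 3 →
      2 * X'.card ≤ (Cone_in E X').card + 3 → 2 ≤ (X ∩ X').card →
      2 * (X ∪ X').card ≤ (Cone_in E (X ∪ X')).card + 3 := fun X X' h0 h1 h2 h3 => by
    have := Cone_submod E X X'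
    have := hs _ (Finset.inter_subset_left.trans h0) h3
    have := Finset.card_union_add_card_inter X X'
    omega
  by_cases h12 : 2 ≤ (X₁ ∩ X₂).card
  · exact ⟨_, Finset.union_subset s1 s2, by simp [a1], by simp [b1], by simp [c2],
      key _ _ s1 t1 t2 h12⟩
  by_cases h13 : 2 ≤ (X₁ ∩ X₃).card
  · exact ⟨_, Finset.union_subset s1 s3, by simp [a1], by simp [b1], by simp [c3],
      key _ _ s1 t1 t3 h13⟩
  by_cases h23 : 2 ≤ (X₂ ∩ X₃).card
  · exact ⟨_, Finset.union_subset s2 s3, by simp [a3], by simp [b2], by simp [c2],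
      key _ _ s2 t2 t3 h23⟩
  refine ⟨X₁ ∪ X₂ ∪ X₃, Finset.union_subset (Finset.union_subset s1 s2) s3, by simp [a1],
    by simp [b1], by simp [c2], ?_⟩
  have e1 := Finset.card_union_add_card_inter X₁ X₂
  have e2 := Finset.card_union_add_card_inter (X₁ ∪ X₂) X₃
  have e3 : 0 < (X₁ ∩ X₂).card := Finset.card_pos.2 ⟨b, by simp [b1, b2]⟩
  have e4 : 1 < ((X₁ ∪ X₂) ∩ X₃).card :=
    Finset.one_lt_card.2 ⟨a, by simp [a1, a3], c, by simp [c2, c3], hac⟩
  have e5 : (Cone_in E X₁ ∪ Cone_in E X₂ ∪ Cone_in E X₃).card ≤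
      (Cone_in E (X₁ ∪ X₂ ∪ X₃)).card := by
    refine Finset.card_le_card fun e => ?_
    induction e using Sym2.ind
    simp only [Finset.mem_union, Cone_mem]
    tauto
  rw [Finset.card_union_of_disjoint (Finset.disjoint_union_left.2
    ⟨Cone_disj hE h13, Cone_disj hE h23⟩), Finset.card_union_of_disjoint (Cone_disj hE h12)] at e5
  omega

theorem Cone_laman {E : Finset (Sym2 V)} (hE : ∀ e ∈ E, ¬ e.IsDiag) {Y : Finset V}
    (hs : ∀ X ⊆ Y, 2 ≤ X.card → (Cone_in E X).card + 3 ≤ 2 * X.card) {y : V} (hy : y ∈ Y)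
    {N : Finset V} (hN : N.card = 3) (hNY : ∀ u ∈ N, u ∈ Y ∧ s(y, u) ∈ E) :
    ∃ s ∈ N, ∃ t ∈ N, s ≠ t ∧ s(s, t) ∉ E ∧ ∀ X ⊆ Y.erase y, 2 ≤ X.card →
      (Cone_in (insert s(s, t) E) X).card + 3 ≤ 2 * X.card := by
  by_contra hc
  push Not at hc
  have mY : ∀ u ∈ N, u ∈ Y.erase y := fun u hu => Finset.mem_erase.2
    ⟨fun e => hE _ (hNY u hu).2 (Sym2.mk_isDiag_iff.2 e.symm), (hNY u hu).1⟩
  have key : ∀ s ∈ N, ∀ t ∈ N, s ≠ t → ∃ X ⊆ Y.erase y, s ∈ X ∧ t ∈ X ∧
      2 * X.card ≤ (Cone_in E X).card + 3 := fun s hs' t ht hst => by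
    by_cases h : s(s, t) ∈ E
    · refine ⟨{s, t}, Finset.insert_subset (mY s hs') (Finset.singleton_subset_iff.2 (mY t ht)),
        by simp, by simp, ?_⟩
      have : 0 < (Cone_in E {s, t}).card := Finset.card_pos.2 ⟨s(s, t), Cone_mem.2 ⟨h, by simp⟩⟩
      have := Finset.card_le_two (a := s) (b := t)
      omega
    · obtain ⟨X, h1, h2, h3⟩ := hc s hs' t ht hst h
      have h4 := hs X (h1.trans (Finset.erase_subset _ _)) h2
      unfold Cone_in at h3 h4 ⊢
      rw [Finset.filter_insert] at h3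
      split_ifs at h3 with h5
      · have := Finset.card_insert_le s(s, t) (E.filter fun e => ∀ x ∈ e, x ∈ X)
        exact ⟨X, h1, h5 s (by simp), h5 t (by simp), by omega⟩
      · omega
  obtain ⟨a, b, c, hab, hac, hbc, rfl⟩ := Finset.card_eq_three.1 hN
  obtain ⟨X₁, s1, a1, b1, t1⟩ := key a (by simp) b (by simp) hab
  obtain ⟨X₂, s2, b2, c2, t2⟩ := key b (by simp) c (by simp) hbc
  obtain ⟨X₃, s3, a3, c3, t3⟩ := key a (by simp) c (by simp) hac
  obtain ⟨Z, sZ, aZ, bZ, cZ, tZ⟩ := Cone_tight hE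
    (fun X h => hs X (h.trans (Finset.erase_subset y Y))) hac s1 s2 s3 a1 b1 b2 c2 a3 c3 t1 t2 t3
  have yZ : y ∉ Z := fun h => by simpa using sZ h
  have e1 := hs (insert y Z) (Finset.insert_subset hy (sZ.trans (Finset.erase_subset _ _))) (by
    rw [Finset.card_insert_of_notMem yZ]
    have := Finset.card_pos.2 ⟨a, aZ⟩
    omega)
  rw [Finset.card_insert_of_notMem yZ] at e1
  have e2 : (({a, b, c} : Finset V).image (fun u => s(y, u)) ∪ Cone_in E Z).card ≤
      (Cone_in E (insert y Z)).card := by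
    refine Finset.card_le_card (Finset.union_subset (Finset.image_subset_iff.2 fun u hu => ?_)
      fun e => ?_)
    · refine Cone_mem.2 ⟨(hNY u hu).2, by simp, Finset.mem_insert_of_mem ?_⟩
      simp only [Finset.mem_insert, Finset.mem_singleton] at hu
      rcases hu with rfl | rfl | rfl <;> assumption
    · induction e using Sym2.ind
      simp only [Finset.mem_insert, Cone_mem]
      tauto
  rw [Finset.card_union_of_disjoint (Finset.disjoint_left.2 fun e h1 h2 => by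
    obtain ⟨u, -, rfl⟩ := Finset.mem_image.1 h1
    exact yZ (Cone_mem.1 h2).2.1), Finset.card_image_of_injective _ fun u u' h => by
      simpa using Sym2.congr_right.1 h, hN] at e2
  omega

theorem Cone_thm (g : Gen V K) : g.StCone := by
  intro v Y
  induction' hn : Y.card using Nat.strong_induction_on with n ih generalizing Y
  intro E hv hE hs σ hσ hon
  have hs' : ∀ X ⊆ Y, 2 ≤ X.card → (Cone_in E X).card + 3 ≤ 2 * X.card := fun X h1 h2 => by
    unfold Cone_in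
    convert hs X h1 h2
  rcases Y.eq_empty_or_nonempty with rfl | hY
  · have hE0 : ∀ a b, s(a, b) ∉ E := fun a b h => by simpa using (hE _ h).2 a (by simp)
    funext u
    refine g.row_zero hσ u ((Finset.card_le_card (t := ∅) fun w hw => ?_).trans (by simp))
    obtain ⟨h1, h2⟩ := mem_nb.1 hw
    simpa [hE0] using hon u w h1 h2
  obtain ⟨y, hy, hd⟩ := Cone_deg (E := E) hY fun h => by
    have := hs' Y le_rfl h
    rwa [Cone_in, Finset.filter_true_of_mem fun e he => (hE e he).2] at this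
  have hyv : y ≠ v := fun e => hv (e ▸ hy)
  have hc : (Y.erase y).card < n := hn ▸ Finset.card_erase_lt_of_mem hy
  have hv' : v ∉ Y.erase y := fun h => hv (Finset.mem_of_mem_erase h)
  have fin : ∀ E' : Finset (Sym2 V), (∀ e ∈ E', ¬ e.IsDiag) →
      (∀ X ⊆ Y.erase y, 2 ≤ X.card → (Cone_in E' X).card + 3 ≤ 2 * X.card) → ∀ τ, g.Stress τ →
      On (fun a b => s(a, b) ∈ Cone_in E' (Y.erase y) ∨ (a = v ∧ b ∈ Y.erase y)) τ → τ = 0 := by
    intro E' h1 h2
    refine ih _ hc _ rfl _ hv' (fun e he => ⟨h1 e (Finset.mem_filter.1 he).1,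
      (Finset.mem_filter.1 he).2⟩) fun X h3 h4 => le_trans (Nat.add_le_add_right ?_ 3) (h2 X h3 h4)
    refine Finset.card_le_card fun e he => ?_
    rw [Finset.mem_filter] at he
    exact Finset.mem_filter.2 ⟨(Finset.mem_filter.1 he.1).1, he.2⟩
  set F : V → V → Prop :=
    fun a b => s(a, b) ∈ Cone_in E (Y.erase y) ∨ (a = v ∧ b ∈ Y.erase y) with hF
  have hFon : ∀ a b, a ≠ b → a ≠ y → b ≠ y → σ a b ≠ 0 → F a b ∨ F b a := fun a b h1 h2 h3 h4 => by
    have m : ∀ a b, s(a, b) ∈ E → a ∈ Y ∧ b ∈ Y := fun a b h =>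
      ⟨(hE _ h).2 a (by simp), (hE _ h).2 b (by simp)⟩
    have := hon a b h1 h4
    have := m a b
    have := m b a
    simp only [hF, Cone_mem, Finset.mem_erase]
    tauto
  by_cases h0 : σ y = 0
  · refine fin E (fun e he => (hE e he).1)
      (fun X h => hs' X (h.trans (Finset.erase_subset _ _))) σ hσ fun a b h1 h2 => ?_
    refine hFon a b h1 (fun e => h2 ?_) (fun e => h2 ?_) h2
    · rw [e, h0]; rfl
    · rw [e, hσ.1, h0]; rfl
  exfalso
  set N := Y.filter fun u => s(y, u) ∈ E with hN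
  have hsub : nb σ y ⊆ insert v N := fun u hu => by
    obtain ⟨h1, h2⟩ := mem_nb.1 hu
    rcases hon y u h1 h2 with (h | h) | h | h
    · exact Finset.mem_insert_of_mem (Finset.mem_filter.2 ⟨(hE _ h).2 u (by simp), h⟩)
    · exact absurd h.1 hyv
    · exact Finset.mem_insert_of_mem
        (Finset.mem_filter.2 ⟨(hE _ h).2 u (by simp), Sym2.eq_swap ▸ h⟩)
    · exact h.1 ▸ Finset.mem_insert_self _ _
  have h4 : 4 ≤ (nb σ y).card := not_lt.1 fun h => h0 (g.row_zero hσ y (by omega))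
  have h5 := Finset.card_insert_le v N
  have h6 := Finset.card_le_card hsub
  have hB : nb σ y = insert v N := Finset.eq_of_subset_of_card_le hsub (by omega)
  have hiso : Isol F y := fun u => by simp [hF, Cone_mem, hyv]
  have hl := g.deg4 y {U | U ∈ g.flex F ∧ U y = 0}
    (fun k U hU => ⟨g.dU_mem hiso hU.1 hU.2 k, by simp [dU, hU.2, dv_zero]⟩) (nb σ y) (by omega)
    (fun h => (mem_nb.1 h).1 rfl) (fun U hU b _ => hU.1.1 b) (hσ.2 y) (fun u hu => by
      by_contra hh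
      rw [Finset.mem_insert, not_or, mem_nb] at hu
      exact hu.2 ⟨fun e => hu.1 e.symm, hh⟩) h0
    fun U hU => g.row_pair hσ U y fun a b h1 h2 h3 => by
      by_cases e : a = b
      · exact e ▸ g.link_refl F a U hU.1
      · exact (hFon a b e h1 h2 h3).elim (hU.1.2 a b) fun h => by rw [dl_comm]; exact hU.1.2 b a h
  obtain ⟨s, hs1, t, ht1, hst, hnE, hsp⟩ := Cone_laman (fun e he => (hE e he).1) hs' hy
    (N := N) (by omega) fun u hu => Finset.mem_filter.1 hu
  have mN : ∀ u ∈ N, u ∈ Y.erase y ∧ u ∈ nb σ y := fun u hu => by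
    have h := hB ▸ Finset.mem_insert_of_mem (b := v) hu
    exact ⟨Finset.mem_erase.2 ⟨(mem_nb.1 h).1.symm, (Finset.mem_filter.1 hu).1⟩, h⟩
  have hlink : g.Link F s t := fun U hU => by
    rw [← g.dl_update U y 0 (Finset.mem_erase.1 (mN s hs1).1).1 (Finset.mem_erase.1 (mN t ht1).1).1]
    exact hl _ ⟨g.update_mem hiso hU (zero_dotProduct _), by simp⟩ s (mN s hs1).2 t (mN t ht1).2
  obtain ⟨τ, h1, h2, h3⟩ := g.link_stress hst hlink
    (fun h => h.elim (fun h => hnE (Cone_mem.1 h).1) fun h => hv' (h.1 ▸ (mN s hs1).1))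
    (fun h => h.elim (fun h => hnE (Sym2.eq_swap ▸ (Cone_mem.1 h).1))
      fun h => hv' (h.1 ▸ (mN t ht1).1))
  have := fin (insert s(s, t) E) (fun e he => (Finset.mem_insert.1 he).elim
    (fun e1 => by rw [e1, Sym2.mk_isDiag_iff]; exact hst) fun he => (hE e he).1) hsp τ h1
    fun a b h4 h5 => by
      have m : ∀ a b, F a b ∨ (a = s ∧ b = t) → s(a, b) ∈ Cone_in (insert s(s, t) E) (Y.erase y) ∨
          (a = v ∧ b ∈ Y.erase y) := by
        rintro a b ((h | h) | ⟨rfl, rfl⟩)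
        · exact Or.inl (Cone_mem.2 ⟨Finset.mem_insert_of_mem (Cone_mem.1 h).1, (Cone_mem.1 h).2⟩)
        · exact Or.inr h
        · exact Or.inl (Cone_mem.2 ⟨Finset.mem_insert_self _ _, (mN _ hs1).1, (mN _ ht1).1⟩)
      exact (h3 a b h4 h5).imp (m a b) (m b a)
  rw [this] at h2
  exact zero_ne_one h2

end Pool.Agent.Dress
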