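import Pool.Agent.Lib.MP_d237f6_co.DR.Ctx1

/-! The minimal counterexample. -/

set_option autoImplicit false
set_option linter.unusedSectionVars false

namespace Pool.Agent.Dress

open Matrix Module Classical

variable {K : Type} [Field K] {V : Type} [DecidableEq V] [Fintype V]

namespace Gen

variable [CharZero K] (g : Gen V K) {G : V → V → Prop} {ω σ : V → V → K}

/-- the stress of a linked pair that avoids a vertex of degree five -/
theorem lk_stress (ih : g.IH) (h : g.NK G ω) (hsp : g.flex (adj ω) = g.flex G) {w s t : V}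
    (h5 : (nb ω w).card = 5) (hs : s ≠ w) (ht : t ≠ w) (hst : s ≠ t) (hl : g.Link G s t)
    (hn : t ∉ nb ω s) : ∃ σ, σ ∈ g.KK G ∧ σ s t = 1 ∧ (∀ u, σ w u = 0) ∧
      ∀ u v, adj σ u v → adj ω u v ∨ (u = s ∧ v = t) ∨ (u = t ∧ v = s) := by
  have hl' : g.Link (del (adj ω) w) s t := fun U hU =>
    (g.nk_gw ih h hsp h5 ▸ hU : U ∈ g.flex (del (g.Link G) w)).2 s t ⟨hl, hs, ht⟩
  obtain ⟨σ, a1, a2, a3⟩ := g.link_stress hst hl' (fun e => hn (mem_nb.2 e.1))
    (fun e => hn (mem_nb.2 (g.adj_symm h.1 e.1)))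
  have a4 : ∀ u, u ≠ w → σ w u = 0 := fun u hu => by
    by_contra hh
    rcases a3 w u hu.symm hh with (e | e) | (e | e)
    · exact e.2.1 rfl
    · exact hs e.1.symm
    · exact e.2.2 rfl
    · exact ht e.2.symm
  have a5 : ∀ u v, adj σ u v → adj ω u v ∨ (u = s ∧ v = t) ∨ (u = t ∧ v = s) := fun u v e => by
    rcases a3 u v e.1 e.2 with (e | e) | (e | e)
    · exact Or.inl e.1
    · exact Or.inr (Or.inl e)
    · exact Or.inl (g.adj_symm h.1 e.1)
    · exact Or.inr (Or.inr e.symm)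
  refine ⟨σ, g.iso_KK ih a1 (fun u v h0 => ?_) w a4, a2, fun u => congrFun (g.row_zero a1 w ?_) u,
    a5⟩
  · by_cases e : u = v
    · rw [e]; exact g.link_refl G v
    rcases a5 u v ⟨e, h0⟩ with e | e | e
    · exact h.2.1 u v e.2
    · rw [e.1, e.2]; exact hl
    · rw [e.1, e.2]; exact g.link_symm hl
  · have : nb σ w = ∅ := Finset.eq_empty_of_forall_notMem fun u hu =>
      (mem_nb.1 hu).2 (a4 u (mem_nb.1 hu).1.symm)
    simp [this]

theorem bad_gwS (ih : g.IH) (h : g.Bad G ω) (hsp : g.flex (adj ω) = g.flex G) {D : Finset V}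
    (hD : D.Nonempty) (h5 : ∀ w ∈ D, (nb ω w).card = 5) {s t : V} (hs : s ∉ D) (ht : t ∉ D)
    (hl : g.Link G s t) : g.Link (delS (adj ω) D) s t := by
  by_cases hst : s = t
  · rw [hst]; exact g.link_refl _ t
  by_cases hn : t ∈ nb ω s
  · exact g.link_of ⟨mem_nb.1 hn, hs, ht⟩
  obtain ⟨w, hw⟩ := hD
  have ex := fun w (hw : w ∈ D) => g.lk_stress ih h.1 hsp (h5 w hw) (fun e : s = w => hs (e ▸ hw))
    (fun e : t = w => ht (e ▸ hw)) hst hl hn
  obtain ⟨σ, a1, a2, -, a4⟩ := ex w hw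
  have hσ := (g.KK_stress a1).1
  have a3 : ∀ w' ∈ D, ∀ u, σ w' u = 0 := fun w' hw' u => by
    obtain ⟨σ', b1, b2, b3, b4⟩ := ex w' hw'
    have := g.bad_KK h (Submodule.sub_mem _ a1 b1) fun x y e => by
      have e1 : ¬ (x = s ∧ y = t) := fun e' => e.2 (by simp [e'.1, e'.2, a2, b2])
      have e2 : ¬ (x = t ∧ y = s) := fun e' => e.2 (by
        simp [e'.1, e'.2, hσ.1 t s, (g.KK_stress b1).1.1 t s, a2, b2])
      by_cases e3 : σ x y = 0
      · exact ((b4 x y ⟨e.1, fun e' => e.2 (by simp [e3, e'])⟩).resolve_right (by tauto))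
      · exact (a4 x y ⟨e.1, e3⟩).resolve_right (by tauto)
    rw [sub_eq_zero.1 this, b3]
  intro U hU
  have e := g.stress_pair hσ U
  rw [← Fintype.sum_prod_type', ← Finset.sum_subset (Finset.subset_univ {(s, t), (t, s)}),
    Finset.sum_pair (by simp [hst])] at e
  · simp only [hσ.1 t s, a2, dl_comm _ _ t s] at e
    linear_combination e / 2
  · rintro ⟨u, v⟩ - huv
    simp only [Finset.mem_insert, Prod.mk.injEq, Finset.mem_singleton, not_or] at huv
    by_cases h0 : σ u v = 0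
    · simp [h0]
    by_cases e : u = v
    · subst e; simp [g.link_refl _ u U hU]
    rcases a4 u v ⟨e, h0⟩ with e' | e' | e'
    · simp [hU.2 u v ⟨e', fun hu => h0 (a3 u hu v), fun hv => h0 (by rw [hσ.1]; exact a3 v hv u)⟩]
    · exact absurd e' huv.1
    · exact absurd e' huv.2

theorem nk_gwS (ih : g.IH) (hsp : ∀ ω, g.NK G ω → g.flex (adj ω) = g.flex G) (h : g.NK G ω)
    {D : Finset V} (hD : D.Nonempty) (h5 : ∀ w ∈ D, (nb ω w).card = 5) :
    g.flex (delS (adj ω) D) = g.flex (delS (g.Link G) D) := by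
  obtain ⟨ω', h1, h2⟩ := g.nk_red h
  refine le_antisymm (g.flex_le_of_link fun s t e => g.link_mono ?_
    (g.bad_gwS ih h1 (hsp _ h1.1) hD (fun w hw => ?_) e.2.1 e.2.2 e.1))
    (g.flex_anti fun u v e => Or.inl ⟨h.2.1 u v e.1.2, e.2⟩)
  · exact g.flex_anti fun u v e => Or.inl ⟨h2 u v e.1, e.2⟩
  · exact le_antisymm (h5 w hw ▸ Finset.card_le_card (nb_mono h2 w)) (g.nk_d5 ih h1.1 w)

omit [CharZero K] in
theorem row4 (h : g.Stress σ) {s t : V} (h1 : σ s t = 1) : 4 ≤ (nb σ s).card := by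
  by_contra hh
  have := congrFun (g.row_zero h s (by omega)) t
  simp [h1] at this

theorem bad_xl (ih : g.IH) (h : g.Bad G ω) (hsp : g.flex (adj ω) = g.flex G) {w s t : V}
    {B : Finset V} (h5 : (nb ω w).card = 5) (hs : s ≠ w) (ht : t ≠ w) (hst : s ≠ t)
    (hl : g.Link G s t) (hn : t ∉ nb ω s) (hB : B.card ≤ 2) :
    ∃ ω' u, g.Bad G ω' ∧ u ∉ B ∧ u ≠ w ∧ u ∈ nb ω s ∧
      t ∈ nb ω' s ∧ nb ω' w = nb ω w ∧ nb ω' s ⊆ insert t ((nb ω s).erase u) ∧
      nb ω' t ⊆ insert s (nb ω t) ∧ ∀ x, x ≠ s → x ≠ t → nb ω' x ⊆ nb ω x := by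
  obtain ⟨σ, a1, a2, a3, a4⟩ := g.lk_stress ih h.1 hsp h5 hs ht hst hl hn
  have hσ := (g.KK_stress a1).1
  obtain ⟨u, hu, hu'⟩ : ∃ u ∈ nb σ s, u ∉ insert t B := by
    by_contra hh
    push Not at hh
    have := (Finset.card_le_card hh).trans (Finset.card_insert_le _ _)
    have := g.row4 hσ a2
    omega
  rw [Finset.mem_insert, not_or] at hu'
  have u1 := mem_nb.1 hu
  have u2 : adj ω s u := by
    rcases a4 s u u1 with e | e | e
    · exact e
    · exact absurd e.2 hu'.1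
    · exact absurd e.1 hst
  obtain ⟨ω', h1, h2⟩ := g.nk_red (g.nk_sub h.1 (Submodule.smul_mem _ (ω s u / σ s u) a1))
  have h3 : ∀ x y, adj ω' x y → adj ω x y ∨ (x = s ∧ y = t) ∨ (x = t ∧ y = s) := fun x y e => by
    have e' := h2 x y e
    by_cases e3 : σ x y = 0
    · exact Or.inl ⟨e.1, fun e4 => e'.2 (by simp [e3, e4])⟩
    · exact a4 x y ⟨e.1, e3⟩
  have h4 : ¬ adj ω' s u := fun e => (h2 s u e).2 (by simp [div_mul_cancel₀ _ u1.2])
  have h6 : ∀ x, x ≠ s → x ≠ t → nb ω' x ⊆ nb ω x := fun x hx hx' y hy =>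
    mem_nb.2 ((h3 x y (mem_nb.1 hy)).resolve_right (by tauto))
  refine ⟨ω', u, h1, hu'.2, fun e => u1.2 (by rw [hσ.1, e, a3]), mem_nb.2 u2, ?_,
    Finset.eq_of_subset_of_card_le (h6 w hs.symm ht.symm) (h5 ▸ g.nk_d5 ih h1.1 w),
    fun y hy => ?_, fun y hy => ?_, h6⟩
  · by_contra hh
    refine h4 (h.2 ω' h1.1 (fun x y e => ?_) s u u2)
    rcases h3 x y e with e' | e' | e'
    · exact e'
    · exact absurd (mem_nb.2 (e'.1 ▸ e'.2 ▸ e)) hh
    · exact absurd (mem_nb.2 (g.adj_symm h1.1.1 (e'.1 ▸ e'.2 ▸ e))) hh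
  · rcases h3 s y (mem_nb.1 hy) with e' | e' | e'
    · exact Finset.mem_insert_of_mem (Finset.mem_erase.2
        ⟨fun e => h4 (e ▸ mem_nb.1 hy), mem_nb.2 e'⟩)
    · rw [e'.2]; exact Finset.mem_insert_self _ _
    · exact absurd e'.1 hst
  · rcases h3 t y (mem_nb.1 hy) with e' | e' | e'
    · exact Finset.mem_insert_of_mem (mem_nb.2 e')
    · exact absurd e'.1.symm hst
    · rw [e'.2]; exact Finset.mem_insert_self _ _

theorem nk_ng (ih : g.IH) (hsp : ∀ ω, g.NK G ω → g.flex (adj ω) = g.flex G) (h : g.NK G ω)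
    {v w x : V} (hw : w ∈ nb ω v) (h5 : (nb ω w).card = 5) (hx : x ≠ v) (hx' : x ∉ nb ω v)
    (hl : g.Link G v x) : 3 ≤ ((nb ω v).filter (fun u => (nb ω u).card ≠ 5)).card := by
  set D := (nb ω v).filter (fun u => (nb ω u).card = 5) with hD
  have hv : v ∉ D := fun e => not_mem_nb ω v (Finset.mem_filter.1 e).1
  have hxD : x ∉ D := fun e => hx' (Finset.mem_filter.1 e).1
  have hl' : g.Link (delS (adj ω) D) v x := fun U hU =>
    (g.nk_gwS ih hsp h ⟨w, Finset.mem_filter.2 ⟨hw, h5⟩⟩ (fun u hu => (Finset.mem_filter.1 hu).2)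
      ▸ hU : U ∈ g.flex (delS (g.Link G) D)).2 v x ⟨hl, hv, hxD⟩
  obtain ⟨σ, a1, a2, a3⟩ := g.link_stress hx.symm hl' (fun e => hx' (mem_nb.2 e.1))
    (fun e => hx' (mem_nb.2 (g.adj_symm h.1 e.1)))
  have : nb σ v ⊆ insert x ((nb ω v).filter (fun u => (nb ω u).card ≠ 5)) := fun u hu => by
    have key : adj ω v u → u ∉ D → u ∈ (nb ω v).filter (fun u => (nb ω u).card ≠ 5) :=
      fun e e' => Finset.mem_filter.2 ⟨mem_nb.2 e, fun e5 => e' (Finset.mem_filter.2 ⟨mem_nb.2 e, e5⟩)⟩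
    rcases a3 v u (mem_nb.1 hu).1 (mem_nb.1 hu).2 with (e | e) | (e | e)
    · exact Finset.mem_insert_of_mem (key e.1 e.2.2)
    · rw [e.2]; exact Finset.mem_insert_self _ _
    · exact Finset.mem_insert_of_mem (key (g.adj_symm h.1 e.1) e.2.1)
    · exact absurd e.2.symm hx
  have h1 := (Finset.card_le_card this).trans (Finset.card_insert_le _ _)
  have := g.row4 a1 a2
  omega

omit [CharZero K] in
theorem bad_cnt (hRB : g.StRB) (ih : g.IH) (h : g.Bad G ω) :
    ∑ v, (nb ω v).card + 10 ≤ 6 * Fintype.card V := by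
  obtain ⟨s, t, hst⟩ : ∃ s t, adj ω s t := by
    by_contra hh; push Not at hh
    exact h.1.2.2 (g.stress_diag h.1.1 hh ▸ Submodule.zero_mem _)
  let H : SimpleGraph V := ⟨adj ω, ⟨fun _ _ e => g.adj_symm h.1.1 e⟩, ⟨fun _ e => e.1 rfl⟩⟩
  have h1 : ∑ v, (nb ω v).card = 2 * H.edgeFinset.card := by
    rw [← H.sum_degrees_eq_twice_card_edges]
    refine Finset.sum_congr rfl fun v _ => ?_
    rw [← H.card_neighborFinset_eq_degree]
    congr 1
    ext u
    rw [SimpleGraph.mem_neighborFinset, mem_nb]; rfl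
  have h2 : s(s, t) ∈ H.edgeFinset := SimpleGraph.mem_edgeFinset.2 hst
  have h3 := hRB (H.edgeFinset.erase s(s, t)) Finset.univ
    (le_trans (by have := g.nk_row ih h.1 s; omega) (Finset.card_le_univ (nb ω s)))
    (fun e he => ⟨H.not_isDiag_of_mem_edgeSet
      (SimpleGraph.mem_edgeFinset.1 (Finset.mem_of_mem_erase he)), fun _ _ => Finset.mem_univ _⟩)
    (fun σ hσ ho => by
      obtain ⟨c, hc⟩ := g.bad_circ h hσ fun u v huv h0 => (ho u v huv h0).imp
        (fun e => SimpleGraph.mem_edgeFinset.1 (Finset.mem_of_mem_erase e))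
        (fun e => SimpleGraph.mem_edgeFinset.1 (Finset.mem_of_mem_erase e))
      have : σ s t = 0 := by
        by_contra hh
        rcases ho s t hst.1 hh with e | e
        · exact Finset.notMem_erase _ _ e
        · rw [Sym2.eq_swap] at e; exact Finset.notMem_erase _ _ e
      rw [hc] at this ⊢
      simp only [Pi.smul_apply, smul_eq_mul] at this
      rw [(mul_eq_zero.1 this).resolve_right hst.2, zero_smul])
  rw [Finset.card_erase_of_mem h2, Finset.card_univ] at h3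
  have := Finset.card_pos.2 ⟨_, h2⟩
  omega

theorem ctx (hRB : g.StRB) : g.StCtx := by
  intro ih hD
  obtain ⟨F, Ω, h1, h2, h3⟩ : ∃ F Ω, g.Stress Ω ∧ On F Ω ∧ Ω ∉ g.KK F := by
    by_contra hh; push Not at hh; exact hD hh
  have h0 : g.NK F Ω := ⟨h1, fun u v e => by
    by_cases e' : u = v
    · rw [e']; exact g.link_refl F v
    · exact (h2 u v e' e).elim g.link_of fun e => g.link_symm (g.link_of e), h3⟩
  obtain ⟨G, ⟨ω, hω⟩, hG⟩ := (measure fun G : V → V → Prop =>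
    finrank K (V → Vec K) - finrank K (g.flex G)).wf.has_min {G | ∃ ω, g.NK G ω} ⟨F, Ω, h0⟩
  have hsp : ∀ ω, g.NK G ω → g.flex (adj ω) = g.flex G := fun ω h => by
    have hle := g.flex_le_adj h.2.1
    have := hG (adj ω) ⟨ω, h.1, fun u v e => by
      by_cases e' : u = v
      · rw [e']; exact g.link_refl _ v
      · exact g.link_of ⟨e', e⟩, fun e => h.2.2 (g.KK_mono hle e)⟩
    have a1 := Submodule.finrank_le (g.flex (adj ω))
    have a2 := Submodule.finrank_le (g.flex G)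
    have a3 : ¬ (finrank K (V → Vec K) - finrank K (g.flex (adj ω)) <
      finrank K (V → Vec K) - finrank K (g.flex G)) := this
    exact (Submodule.eq_of_le_of_finrank_le hle (by omega)).symm
  obtain ⟨ω', h', -⟩ := g.nk_red hω
  refine ⟨G, ω', ⟨ih, hsp, fun ω => g.nk_red, fun ω σ => g.bad_circ, fun ω σ z h hσ ho hz => ?_,
    fun ω v h => g.nk_cl ih h v, fun ω v h => g.nk_d5 ih h v,
    fun ω v S s h => g.nk_rd h, fun ω w h => g.nk_gw ih h (hsp ω h),
    fun ω D h => g.nk_gwS ih hsp h, fun ω w s t B h => g.bad_xl ih h (hsp ω h.1),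
    fun ω v w x h => g.nk_ng ih hsp h, fun ω => g.bad_cnt hRB ih⟩, h'⟩
  obtain ⟨c, hc⟩ := g.bad_circ h hσ ho
  obtain ⟨u, hu⟩ := Finset.card_pos.1 (by have := g.nk_row ih h.1 z; omega : 0 < (nb ω z).card)
  have : σ z u = 0 := by
    by_contra hh
    exact Finset.notMem_empty u (hz ▸ mem_nb.2 ⟨(mem_nb.1 hu).1, hh⟩)
  rw [hc] at this ⊢
  simp only [Pi.smul_apply, smul_eq_mul] at this
  rw [(mul_eq_zero.1 this).resolve_right (mem_nb.1 hu).2, zero_smul]

end Gen

theorem Ctx_thm [CharZero K] (g : Gen V K) (h : g.StRB) : g.StCtx := g.ctx h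

end Pool.Agent.Dress
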