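import Pool.Agent.Lib.MP_d237f6_co.DR.Gam

/-! The dimension of the stress space of a closed graph. -/

namespace Pool.Agent.Dress

open Matrix Module Classical

variable {K : Type} [Field K] [CharZero K] {V : Type} [DecidableEq V] [Fintype V]

omit [CharZero K] in
theorem Dim_rank {M N : Type} [AddCommGroup M] [Module K M] [AddCommGroup N] [Module K N]
    [FiniteDimensional K M] (A : Submodule K M) (f : M →ₗ[K] N) :
    finrank K A = finrank K (A.map f) + finrank K ↥(A ⊓ LinearMap.ker f) := by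
  rw [← LinearMap.finrank_range_add_finrank_ker (f.domRestrict A), LinearMap.range_domRestrict,
    LinearMap.ker_domRestrict, ← Submodule.map_comap_subtype, Submodule.finrank_map_subtype_eq]

/-- dependencies supported on a set -/
def Dim_D (g : Gen V K) (X : Finset V) : Submodule K (V → K) where
  carrier := {γ | g.Dep γ ∧ ∀ u, u ∉ X → γ u = 0}
  add_mem' := fun ha hb => ⟨g.dep_add ha.1 hb.1, fun u hu => by simp [ha.2 u hu, hb.2 u hu]⟩
  zero_mem' := ⟨by simp [Gen.Dep], fun _ _ => rfl⟩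
  smul_mem' := fun c _ ha => ⟨g.dep_smul ha.1 c, fun u hu => by simp [ha.2 u hu]⟩

/-- stresses supported on a set -/
def Dim_S (g : Gen V K) (X : Finset V) : Submodule K (V → V → K) where
  carrier := {Ω | g.Stress Ω ∧ ∀ u, u ∉ X → Ω u = 0}
  add_mem' := fun ha hb => ⟨g.stress_add ha.1 hb.1, fun u hu => by simp [ha.2 u hu, hb.2 u hu]⟩
  zero_mem' := ⟨g.stress_zero, fun _ _ => rfl⟩
  smul_mem' := fun c _ ha => ⟨g.stress_smul ha.1 c, fun u hu => by simp [ha.2 u hu]⟩

omit [CharZero K] in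
theorem Dim_row (g : Gen V K) {X : Finset V} {Ω : V → V → K} (h : Ω ∈ Dim_S g X) (x : V) :
    Ω x ∈ Dim_D g X :=
  ⟨h.1.2 x, fun u hu => by rw [h.1.1, h.2 u hu]; rfl⟩

omit [CharZero K] in
theorem Dim_zeta (g : Gen V K) {x : V} {Y : Finset V} (hx : x ∉ Y) (hY : 4 ≤ Y.card) :
    ∃ ζ ∈ Dim_D g (insert x Y), ζ x = 1 := by
  obtain ⟨T, hT, hc⟩ := Finset.exists_subset_card_eq hY
  obtain ⟨ζ, h1, h2, h3⟩ := g.dep5 (insert x T)
    (by rw [Finset.card_insert_of_notMem (fun h => hx (hT h)), hc])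
  refine ⟨(ζ x)⁻¹ • ζ, Submodule.smul_mem _ _ ⟨h1, fun u hu => h2 u fun h =>
    hu (Finset.insert_subset_insert x hT h)⟩, ?_⟩
  simp [h3 x (Finset.mem_insert_self x T)]

theorem Dim_clq (g : Gen V K) (n : ℕ) : ∀ X : Finset V, X.card = n + 4 →
    finrank K (Dim_D g X) = n ∧ finrank K (Dim_S g X) = (n + 1).choose 2 := by
  induction n with
  | zero =>
    intro X hX
    have h1 : Dim_D g X = ⊥ := eq_bot_iff.2 fun γ h => g.dep_zero h.1 X hX.le h.2
    have h2 : Dim_S g X = ⊥ := eq_bot_iff.2 fun Ω h => funext fun x => by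
      have := Dim_row g h x
      rw [h1] at this
      exact this
    rw [h1, h2]
    simp
  | succ n ih =>
    intro X hX
    obtain ⟨x, Y, hx, rfl, hY⟩ := Finset.card_eq_succ.1 (by omega : X.card = n + 4 + 1)
    obtain ⟨i1, i2⟩ := ih Y hY
    obtain ⟨ζ, hζ, hζ1⟩ := Dim_zeta g hx (by omega : 4 ≤ Y.card)
    have a1 : (Dim_D g (insert x Y)).map (LinearMap.proj x : (V → K) →ₗ[K] K) = ⊤ :=
      eq_top_iff.2 fun c _ => ⟨c • ζ, Submodule.smul_mem _ _ hζ, by simp [hζ1]⟩
    have a2 : Dim_D g (insert x Y) ⊓ LinearMap.ker (LinearMap.proj x : (V → K) →ₗ[K] K)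
        = Dim_D g Y := by
      ext γ
      refine ⟨fun h => ⟨h.1.1, fun u hu => ?_⟩, fun h => ⟨⟨h.1, fun u hu => h.2 u fun h' =>
        hu (Finset.mem_insert_of_mem h')⟩, h.2 x hx⟩⟩
      by_cases e : u = x
      · rw [e]; exact h.2
      · exact h.1.2 u (by simp [e, hu])
    have a3 : finrank K (Dim_D g (insert x Y)) = n + 1 := by
      rw [Dim_rank _ (LinearMap.proj x : (V → K) →ₗ[K] K), a1, a2, i1]
      simp [add_comm]
    have b1 : (Dim_S g (insert x Y)).map (LinearMap.proj x : (V → V → K) →ₗ[K] (V → K))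
        = Dim_D g (insert x Y) := by
      refine le_antisymm ?_ fun γ hγ => ?_
      · rintro _ ⟨Ω, h, rfl⟩
        exact Dim_row g h x
      · refine ⟨fun u => ζ u • γ + γ u • ζ - (γ x * ζ u) • ζ, ⟨⟨fun u v => ?_, fun u => ?_⟩,
          fun u hu => ?_⟩, ?_⟩
        · simp only [Pi.add_apply, Pi.sub_apply, Pi.smul_apply, smul_eq_mul]; ring
        · exact g.dep_sub (g.dep_add (g.dep_smul hγ.1 _) (g.dep_smul hζ.1 _)) (g.dep_smul hζ.1 _)
        · simp [hζ.2 u hu, hγ.2 u hu]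
        · simp [hζ1]
    have b2 : Dim_S g (insert x Y) ⊓
        LinearMap.ker (LinearMap.proj x : (V → V → K) →ₗ[K] (V → K)) = Dim_S g Y := by
      ext Ω
      refine ⟨fun h => ⟨h.1.1, fun u hu => ?_⟩, fun h => ⟨⟨h.1, fun u hu => h.2 u fun h' =>
        hu (Finset.mem_insert_of_mem h')⟩, h.2 x hx⟩⟩
      by_cases e : u = x
      · rw [e]; exact h.2
      · exact h.1.2 u (by simp [e, hu])
    refine ⟨a3, ?_⟩
    rw [Dim_rank _ (LinearMap.proj x : (V → V → K) →ₗ[K] (V → K)), b1, b2, a3, i2,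
      Nat.choose_succ_succ' (n + 1) 1, Nat.choose_one_right]

theorem Dim_cast (n : ℕ) :
    (((n + 1).choose 2 : ℕ) : ℤ) = ((n + 4).choose 2 : ℤ) - (3 * ((n + 4 : ℕ) : ℤ) - 6) := by
  have h1 := Nat.choose_succ_succ' (n + 3) 1
  have h2 := Nat.choose_succ_succ' (n + 2) 1
  have h3 := Nat.choose_succ_succ' (n + 1) 1
  simp only [Nat.choose_one_right, add_assoc, Nat.reduceAdd] at h1 h2 h3
  rw [h1, h2, h3]
  push_cast
  ring

theorem Dim_thm (g : Gen V K) (h1 : g.D1) (h2 : g.StDec) (h3 : g.StD2) : g.StDim := by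
  intro G hG S hS
  set C := Finset.univ.filter (fun X => g.MaxC G.Adj X) with hC
  have mC : ∀ X, X ∈ C ↔ g.MaxC G.Adj X := fun X => by simp [hC]
  let Φ : (∀ X : C, Dim_S g X.1) →ₗ[K] (V → V → K) :=
    ∑ X : C, (Dim_S g X.1).subtype ∘ₗ LinearMap.proj X
  have hΦ : ∀ κ, Φ κ = ∑ X : C, (κ X).1 := fun κ => by simp [Φ]
  have inj : Function.Injective Φ := by
    rw [injective_iff_map_eq_zero]
    intro κ hκ
    let κ' : Finset V → V → V → K := fun X => if h : X ∈ C then (κ ⟨X, h⟩).1 else 0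
    have e : ∀ X : C, κ' X.1 = (κ X).1 := fun X => dif_pos X.2
    have f : g.Fam G.Adj κ' := by
      refine ⟨fun X => ?_, fun X h => ?_, fun X u v h => ?_⟩
      · by_cases hX : X ∈ C
        · rw [e ⟨X, hX⟩]; exact (κ ⟨X, hX⟩).2.1
        · rw [show κ' X = 0 from dif_neg hX]; exact g.stress_zero
      · by_contra hX
        exact h (dif_neg fun h' => hX ((mC X).1 h'))
      · by_contra hu
        by_cases hX : X ∈ C
        · rw [e ⟨X, hX⟩, (κ ⟨X, hX⟩).2.2 u hu] at h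
          exact h rfl
        · rw [show κ' X = 0 from dif_neg hX] at h
          exact h rfl
    have s : ∑ X, κ' X = 0 := by
      rw [← Finset.sum_subset (Finset.subset_univ C) (fun X _ hX => dif_neg hX),
        ← Finset.sum_coe_sort]
      exact (Finset.sum_congr rfl fun X _ => e X).trans ((hΦ κ).symm.trans hκ)
    funext X
    exact Subtype.ext ((e X).symm.trans (h3 _ _ f s X.1))
  have ran : LinearMap.range Φ = S := by
    refine le_antisymm ?_ fun Ω hΩ => ?_
    · rintro _ ⟨κ, rfl⟩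
      rw [hΦ]
      refine S.sum_mem fun X _ => (hS _).2 ⟨(κ X).2.1, fun u v huv h => Or.inl (hG u v huv ?_)⟩
      refine ((mC X.1).1 X.2).2.1 u ?_ v ?_
      · by_contra hu
        exact h (by rw [(κ X).2.2 u hu]; rfl)
      · by_contra hv
        exact h (by rw [(κ X).2.1.1, (κ X).2.2 v hv]; rfl)
    · obtain ⟨κ, f, rfl⟩ := h2 _ _ (h1 _ _ ((hS Ω).1 hΩ).1 ((hS Ω).1 hΩ).2)
      refine ⟨fun X => ⟨κ X.1, f.1 _, fun u hu => funext fun v => ?_⟩, ?_⟩
      · by_contra h
        exact hu (f.2.2 _ u v h)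
      · rw [hΦ, Finset.sum_coe_sort C κ]
        refine Finset.sum_subset (Finset.subset_univ C) fun X _ hX => ?_
        by_contra h
        exact hX ((mC X).2 (f.2.1 X h))
  rw [← ran, LinearMap.finrank_range_of_inj inj, Module.finrank_pi_fintype, Nat.cast_sum,
    ← Finset.sum_coe_sort C]
  refine Finset.sum_congr rfl fun X _ => ?_
  obtain ⟨n, hn⟩ : ∃ n, X.1.card = n + 4 := ⟨X.1.card - 4, by have := ((mC X.1).1 X.2).1; omega⟩
  rw [(Dim_clq g n X.1 hn).2, hn, Dim_cast]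

end Pool.Agent.Dress
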