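import Pool.Agent.Lib.MP_d237f6_co.DR.Ctx

/-! Discharging and the induction on the number of vertices. -/

set_option autoImplicit false
set_option linter.unusedSectionVars false

namespace Pool.Agent.Dress

open Matrix Module Classical

variable {K : Type} [Field K] {V : Type} [DecidableEq V] [Fintype V]

namespace Gen

theorem discharge (g : Gen V K) (h5 : g.StS5) (h7 : g.StS7) {G : V → V → Prop} {ω : V → V → K}
    (hc : g.Ctx G) (hb : g.Bad G ω) : False := by
  have e : ∑ w, ((nb ω w).filter fun u => (nb ω w).card = 5 ∧ 7 ≤ (nb ω u).card).card =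
      ∑ v, ((nb ω v).filter fun u => (nb ω u).card = 5 ∧ 7 ≤ (nb ω v).card).card := by
    simp only [Finset.card_filter, nb, Finset.sum_filter]
    rw [Finset.sum_comm]
    refine Finset.sum_congr rfl fun v _ => Finset.sum_congr rfl fun u _ => ?_
    have : adj ω u v ↔ adj ω v u := ⟨g.adj_symm hb.1.1, g.adj_symm hb.1.1⟩
    simp only [this]
  have key : ∀ v, 24 + ((nb ω v).filter fun u => (nb ω u).card = 5 ∧ 7 ≤ (nb ω v).card).card ≤
      4 * (nb ω v).card +
        ((nb ω v).filter fun u => (nb ω v).card = 5 ∧ 7 ≤ (nb ω u).card).card := by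
    intro v
    have a1 := hc.d5 ω v hb.1
    have a2 := Finset.card_filter_le (nb ω v) fun u => (nb ω u).card = 5 ∧ 7 ≤ (nb ω v).card
    by_cases c5 : (nb ω v).card = 5
    · have := h5 G ω v hc hb c5
      simp only [c5, true_and, show ¬ 7 ≤ 5 by omega, and_false, Finset.filter_false,
        Finset.card_empty]
      omega
    by_cases c6 : (nb ω v).card = 6
    · simp [c6]
    by_cases c7 : (nb ω v).card = 7
    · have := h7 G ω v hc hb c7
      simp only [c7, le_refl, and_true]
      omega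
    omega
  have s := Finset.sum_le_sum fun v (_ : v ∈ Finset.univ) => key v
  rw [Finset.sum_add_distrib, Finset.sum_add_distrib, e, ← Finset.mul_sum, Finset.sum_const,
    Finset.card_univ, smul_eq_mul] at s
  have := hc.cnt ω hb
  omega

/-- the configuration without one vertex -/
def sub (g : Gen V K) (z : V) : Gen {v // v ≠ z} K where
  p v := g.p v
  d u := g.d u
  hd u k j := by rw [g.hd]; simp only [Subtype.ext_iff]

/-- extension by zero -/
noncomputable def ex0 (K : Type) [Field K] (z : V) :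
    ({v // v ≠ z} → {v // v ≠ z} → K) →ₗ[K] (V → V → K) where
  toFun Ω u v := if h : u ≠ z ∧ v ≠ z then Ω ⟨u, h.1⟩ ⟨v, h.2⟩ else 0
  map_add' a b := by ext u v; simp only [Pi.add_apply]; split_ifs <;> simp
  map_smul' c a := by ext u v; simp only [Pi.smul_apply, RingHom.id_apply]; split_ifs <;> simp

theorem dep_sub_iff (g : Gen V K) (z : V) {γ : V → K} (h : γ z = 0) :
    g.Dep γ ↔ (g.sub z).Dep fun v => γ v := by
  rw [Dep, Dep, ← Finset.add_sum_erase _ _ (Finset.mem_univ z), h, zero_smul, zero_add,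
    Finset.sum_subtype (p := fun v => v ≠ z) _ (by simp)]
  rfl

theorem ih_of (g : Gen V K) (h : ∀ z, (g.sub z).D1) : g.IH := by
  intro z F Ω hz hΩ ho
  have a1 : ∀ u, u ≠ z → Ω z u = 0 := fun u hu => by
    by_contra hh
    exact (ho z u hu.symm hh).elim (hz u).1 (hz u).2
  have a2 : Ω z = 0 := g.row_zero hΩ z (by
    have : nb Ω z = ∅ := Finset.eq_empty_of_forall_notMem fun u hu =>
      (mem_nb.1 hu).2 (a1 u (mem_nb.1 hu).1.symm)
    simp [this])
  have a3 : ∀ u, Ω u z = 0 := fun u => by rw [hΩ.1, a2]; rfl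
  have k := h z (fun u v => F u v) (fun u v => Ω u v)
    ⟨fun u v => hΩ.1 u v, fun u => (g.dep_sub_iff z (a3 u)).1 (hΩ.2 u)⟩
    fun u v huv h0 => ho u v (fun e => huv (Subtype.ext e)) h0
  have e : Ω = ex0 K z fun u v => Ω u v := by
    ext u v
    simp only [ex0, LinearMap.coe_mk, AddHom.coe_mk]
    split_ifs with hh
    · rfl
    · by_cases hu : u = z
      · rw [hu, a2]; rfl
      · rw [not_not.1 fun hv => hh ⟨hu, hv⟩, a3]
  rw [e]
  refine (Submodule.map_le_iff_le_comap.2 (Submodule.span_le.2 ?_) :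
    ((g.sub z).KK fun u v => F u v).map (ex0 K z) ≤ g.KK F) ⟨_, k, rfl⟩
  rintro σ ⟨hσ, X, hX, hs⟩
  refine Submodule.subset_span ⟨⟨fun u v => ?_, fun u => ?_⟩,
    X.map (Function.Embedding.subtype _), fun x hx y hy U hU => ?_, fun u v h0 => ?_⟩
  · simp only [ex0, LinearMap.coe_mk, AddHom.coe_mk]
    by_cases hh : u ≠ z ∧ v ≠ z
    · rw [dif_pos hh, dif_pos hh.symm, hσ.1]
    · rw [dif_neg hh, dif_neg fun e => hh e.symm]
  · by_cases hu : u = z
    · simp [Dep, ex0, hu]
    · rw [g.dep_sub_iff z (by simp [ex0])]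
      convert hσ.2 ⟨u, hu⟩ using 2 with v
      simp [ex0, hu, v.2]
  · obtain ⟨x, hx', rfl⟩ := Finset.mem_map.1 hx
    obtain ⟨y, hy', rfl⟩ := Finset.mem_map.1 hy
    exact hX x hx' y hy' (fun v => U v) ⟨fun v => hU.1 v, fun u v e => hU.2 u v e⟩
  · simp only [ex0, LinearMap.coe_mk, AddHom.coe_mk] at h0
    split_ifs at h0 with hh
    · exact Finset.mem_map.2 ⟨_, hs _ _ h0, rfl⟩
    · exact absurd rfl h0

end Gen

/-- the main structure theorem from the two local statements -/
theorem d1_of [CharZero K] (h : ∀ (V : Type) [DecidableEq V] [Fintype V] (g : Gen V K),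
    g.StRB ∧ g.StS5 ∧ g.StS7) (g : Gen V K) : g.D1 := by
  have : ∀ (n : ℕ) (V : Type) [DecidableEq V] [Fintype V] (g : Gen V K),
      Fintype.card V = n → g.D1 := by
    intro n
    induction n using Nat.strong_induction_on with
    | _ n ih =>
      intro V _ _ g hn
      by_contra hD
      obtain ⟨G, ω, hc, hb⟩ := g.ctx (h V g).1 (g.ih_of fun z =>
        ih _ (hn ▸ Fintype.card_subtype_lt (x := z) (by simp)) _ (g.sub z) rfl) hD
      exact g.discharge (h V g).2.1 (h V g).2.2 hc hb
  exact this _ V g rfl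

end Pool.Agent.Dress
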