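import Pool.Agent.Lib.MP_d237f6_co.DR.Fin1

/-! From the stress dimension to the rank formula. -/

set_option autoImplicit false

namespace Pool.Agent.Dress

open Matrix Module Classical

/-- edges inside a clique -/
theorem Fin_edges {V : Type} [Fintype V] (G : SimpleGraph V) [Fintype G.edgeSet] {X : Finset V}
    (hX : G.IsClique (X : Set V)) :
    (G.edgeFinset.filter fun e : Sym2 V => ∀ w, w ∈ e → w ∈ X).card = X.card.choose 2 := by
  rw [← Sym2.card_image_offDiag]
  congr 1
  ext e
  induction e using Sym2.ind with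
  | _ a b =>
    simp only [Finset.mem_filter, SimpleGraph.mem_edgeFinset, SimpleGraph.mem_edgeSet,
      Finset.mem_image, Finset.mem_offDiag]
    constructor
    · rintro ⟨h1, h2⟩
      exact ⟨(a, b), ⟨h2 a (Sym2.mem_mk_left a b), h2 b (Sym2.mem_mk_right a b), G.ne_of_adj h1⟩,
        rfl⟩
    · rintro ⟨⟨c, d⟩, ⟨h1, h2, h3⟩, e⟩
      have e' : s(c, d) = s(a, b) := e
      refine ⟨?_, fun w hw => ?_⟩
      · rw [← SimpleGraph.mem_edgeSet, ← e']
        exact hX h1 h2 h3
      · rw [← e', Sym2.mem_iff] at hw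
        rcases hw with rfl | rfl
        · exact h1
        · exact h2

/-- the double count -/
theorem Fin_count {V : Type} [Fintype V] (G : SimpleGraph V) [Fintype G.edgeSet]
    (P : Finset V → Prop) [DecidablePred P] (hP : ∀ X, P X → G.IsClique (X : Set V)) (deg : Sym2 V → ℕ)
    (hd : ∀ e, deg e = (Finset.univ.filter fun X => P X ∧ ∀ w, w ∈ e → w ∈ X).card) :
    (G.edgeFinset.card : ℤ) - ∑ X ∈ Finset.univ.filter P, (X.card.choose 2 : ℤ) =
      ((G.edgeFinset.filter fun e => deg e = 0).card : ℤ)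
        - ∑ e ∈ G.edgeFinset, (if 2 ≤ deg e then (deg e : ℤ) - 1 else 0) := by
  have h1 : ∑ X ∈ Finset.univ.filter P, (X.card.choose 2 : ℤ) = ∑ e ∈ G.edgeFinset, (deg e : ℤ) := by
    rw [Finset.sum_congr rfl (g := fun X => ∑ e ∈ G.edgeFinset,
      if ∀ w, w ∈ e → w ∈ X then (1 : ℤ) else 0) (fun X hX => by
        rw [← Fin_edges G (hP X (Finset.mem_filter.1 hX).2), Finset.card_filter]
        push_cast
        rfl), Finset.sum_comm]
    refine Finset.sum_congr rfl fun e _ => ?_
    rw [hd, ← Finset.filter_filter, Finset.card_filter]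
    push_cast
    rfl
  rw [h1, Finset.card_filter, Finset.card_eq_sum_ones]
  push_cast
  rw [← Finset.sum_sub_distrib, ← Finset.sum_sub_distrib]
  refine Finset.sum_congr rfl fun e _ => ?_
  split_ifs <;> omega

theorem Fin_thm
    (h : ∀ (V : Type) [DecidableEq V] [Fintype V] (g : Gen V (K4 V)), g.StDim) :
  ∀ (V : Type) [Fintype V] (G : SimpleGraph V) (p : V → Fin 3 → ℝ),
    AlgebraicIndependent ℚ (fun i : V × Fin 3 => p i.1 i.2) →
    (∀ u v : V, u ≠ v → ¬ G.Adj u v →
      Module.finrank ℝ (Submodule.span ℝ {f : V × Fin 3 → ℝ | ∃ a b : V,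
          (G.Adj a b ∨ (a = u ∧ b = v)) ∧
          f = fun x => (if x.1 = a then p a x.2 - p b x.2 else 0)
                        + (if x.1 = b then p b x.2 - p a x.2 else 0)})
        = Module.finrank ℝ (Submodule.span ℝ {f : V × Fin 3 → ℝ | ∃ a b : V,
          G.Adj a b ∧
          f = fun x => (if x.1 = a then p a x.2 - p b x.2 else 0)
                        + (if x.1 = b then p b x.2 - p a x.2 else 0)}) + 1) →
    (Module.finrank ℝ (Submodule.span ℝ {f : V × Fin 3 → ℝ | ∃ a b : V,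
          G.Adj a b ∧
          f = fun x => (if x.1 = a then p a x.2 - p b x.2 else 0)
                        + (if x.1 = b then p b x.2 - p a x.2 else 0)}) : ℤ)
      = (∑ X ∈ Finset.univ.filter (fun X : Finset V => 5 ≤ X.card ∧ G.IsClique (X : Set V) ∧
              (∀ Y : Finset V, G.IsClique (Y : Set V) → X ⊆ Y → Y = X)),
            (3 * (X.card : ℤ) - 6))
        + ((G.edgeFinset.filter (fun e : Sym2 V =>
              (Finset.univ.filter (fun X : Finset V => 5 ≤ X.card ∧ G.IsClique (X : Set V) ∧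
                (∀ Y : Finset V, G.IsClique (Y : Set V) → X ⊆ Y → Y = X) ∧
                (∀ w, w ∈ e → w ∈ X))).card = 0)).card : ℤ)
        - ∑ e ∈ G.edgeFinset,
            (if 2 ≤ (Finset.univ.filter (fun X : Finset V => 5 ≤ X.card ∧ G.IsClique (X : Set V) ∧
                (∀ Y : Finset V, G.IsClique (Y : Set V) → X ⊆ Y → Y = X) ∧
                (∀ w, w ∈ e → w ∈ X))).card
             then ((Finset.univ.filter (fun X : Finset V => 5 ≤ X.card ∧ G.IsClique (X : Set V) ∧
                (∀ Y : Finset V, G.IsClique (Y : Set V) → X ⊆ Y → Y = X) ∧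
                (∀ w, w ∈ e → w ∈ X))).card : ℤ) - 1
             else 0) := by
  intro V _ G p hp hcl
  obtain ⟨ι, hι⟩ := exists_real p hp
  obtain ⟨κ, hκ⟩ := exists_emb (V := V)
  obtain ⟨g, hg⟩ := exists_gen (V := V)
  set X : V → Fin 3 → K4 V := fun j k => x4 V j k.succ with hX
  have hT : ∀ j, x4 V j 0 ≠ 0 := fun j => x4_ne j 0
  have tr : ∀ E : V → V → Prop, finrank ℝ (Fin_sp p E) = finrank (K4 V) (Fin_sp X E) := fun E => by
    rw [Fin_rk_map ι hι, Fin_rk_map κ (X' := X) hκ]
  have closed : ∀ u v, u ≠ v → g.Link G.Adj u v → G.Adj u v := by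
    intro u v huv hl
    by_contra hn
    have h1 : finrank ℝ (Fin_sp p fun a b => G.Adj a b ∨ (a = u ∧ b = v)) =
        finrank ℝ (Fin_sp p G.Adj) + 1 := hcl u v huv hn
    have h2 : Fin_sp X (fun a b => G.Adj a b ∨ (a = u ∧ b = v)) = Fin_sp X G.Adj := by
      apply le_antisymm
      · refine Submodule.span_le.2 ?_
        rintro _ ⟨a, b, hab | ⟨rfl, rfl⟩, rfl⟩
        · exact Submodule.subset_span ⟨a, b, hab, rfl⟩
        · exact Fin_link g hT hg hl
      · refine Submodule.span_mono ?_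
        rintro _ ⟨a, b, hab, rfl⟩
        exact ⟨a, b, Or.inl hab, rfl⟩
    rw [tr, tr, h2] at h1
    omega
  have clq : ∀ Y : Finset V, g.Clq G.Adj Y ↔ G.IsClique (Y : Set V) := by
    intro Y
    refine ⟨fun hY x hx y hy hxy => closed x y hxy (hY x hx y hy), fun hY x hx y hy => ?_⟩
    by_cases e : x = y
    · rw [e]
      exact g.link_refl _ _
    · exact g.link_of (hY hx hy e)
  obtain ⟨S, hS, hr⟩ := Fin_rank g hT hg G
  have hd : (finrank (K4 V) S : ℤ) = ∑ X ∈ Finset.univ.filter (fun X : Finset V =>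
      5 ≤ X.card ∧ G.IsClique (X : Set V) ∧
        (∀ Y : Finset V, G.IsClique (Y : Set V) → X ⊆ Y → Y = X)),
      ((X.card.choose 2 : ℤ) - (3 * (X.card : ℤ) - 6)) := by
    rw [h V g G closed S hS]
    refine Finset.sum_congr ?_ fun _ _ => rfl
    ext Y
    simp only [Finset.mem_filter, Gen.MaxC, clq]
  have hc := Fin_count G (fun X : Finset V => 5 ≤ X.card ∧ G.IsClique (X : Set V) ∧
    (∀ Y : Finset V, G.IsClique (Y : Set V) → X ⊆ Y → Y = X)) (fun X hX => hX.2.1)
    (fun e => (Finset.univ.filter (fun X : Finset V => 5 ≤ X.card ∧ G.IsClique (X : Set V) ∧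
      (∀ Y : Finset V, G.IsClique (Y : Set V) → X ⊆ Y → Y = X) ∧ (∀ w, w ∈ e → w ∈ X))).card)
    (fun e => by simp only [and_assoc])
  have hr' : (finrank ℝ (Fin_sp p G.Adj) : ℤ) + finrank (K4 V) S = G.edgeFinset.card := by
    rw [tr, SimpleGraph.edgeFinset_card]
    exact_mod_cast hr
  rw [Finset.sum_sub_distrib] at hd
  change (finrank ℝ (Fin_sp p G.Adj) : ℤ) = _
  linarith

end Pool.Agent.Dress
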