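import Pool.Agent.Lib.MP_d237f6_co.DR.Gam
import Pool.Agent.Lib.MP_d237f6_co.Transfer

/-! Euclidean rank and homogeneous stresses. -/

set_option autoImplicit false

namespace Pool.Agent.Dress

open Matrix Module Classical

/-- the rank of a set of vectors does not change under a field embedding -/
theorem Fin_span_map {F F' n : Type} [Field F] [Field F'] [Fintype n] (ι : F →+* F')
    (S : Set (n → F)) :
    finrank F' (Submodule.span F' ((fun f x => ι (f x)) '' S)) = finrank F (Submodule.span F S) := by
  obtain ⟨b, hb, hsp, hli⟩ := exists_linearIndependent F S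
  have : Finite b := hli.finite
  have := Fintype.ofFinite b
  let _ := ι.toAlgebra
  have h2 := (linearIndependent_algebraMap_comp_iff (S := F')).2 hli
  have h3 : Submodule.span F' ((fun f x => ι (f x)) '' S) =
      Submodule.span F' (Set.range fun i : b => algebraMap F F' ∘ (i : n → F)) := by
    apply le_antisymm
    · rw [Submodule.span_le]
      rintro _ ⟨f, hf, rfl⟩
      have hm : f ∈ Submodule.span F b := hsp ▸ Submodule.subset_span hf
      refine Submodule.span_induction (p := fun f _ => (fun x => ι (f x)) ∈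
        Submodule.span F' (Set.range fun i : b => algebraMap F F' ∘ (i : n → F))) ?_ ?_ ?_ ?_ hm
      · intro f hf
        exact Submodule.subset_span ⟨⟨f, hf⟩, rfl⟩
      · simp only [Pi.zero_apply, map_zero]
        exact Submodule.zero_mem _
      · intro f g _ _ hf hg
        simp only [Pi.add_apply, map_add]
        exact Submodule.add_mem _ hf hg
      · intro r f _ hf
        simp only [Pi.smul_apply, smul_eq_mul, map_mul]
        exact Submodule.smul_mem _ (ι r) hf
    · refine Submodule.span_mono ?_
      rintro _ ⟨f, rfl⟩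
      exact ⟨f, hb f.2, rfl⟩
  rw [h3, finrank_span_eq_card h2, ← hsp, ← finrank_span_eq_card hli, Subtype.range_coe]

variable {K : Type} [Field K] {V : Type} [DecidableEq V] [Fintype V]

/-- the span of the rows of a relation -/
def Fin_sp (X : V → Fin 3 → K) (E : V → V → Prop) : Submodule K (V × Fin 3 → K) :=
  Submodule.span K {f | ∃ a b, E a b ∧ f = row X a b}

theorem Fin_rk_map {K' : Type} [Field K'] (ι : K →+* K') {X : V → Fin 3 → K}
    {X' : V → Fin 3 → K'} (h : ∀ i k, ι (X i k) = X' i k) (E : V → V → Prop) :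
    finrank K' (Fin_sp X' E) = finrank K (Fin_sp X E) := by
  have hrow : ∀ a b, (fun x => ι (row X a b x)) = row X' a b := by
    intro a b
    ext x
    simp only [row, map_add, apply_ite ι, map_sub, h, map_zero]
  have e : {f | ∃ a b, E a b ∧ f = row X' a b} =
      (fun f x => ι (f x)) '' {f | ∃ a b, E a b ∧ f = row X a b} := by
    ext f
    constructor
    · rintro ⟨a, b, hab, rfl⟩
      exact ⟨_, ⟨a, b, hab, rfl⟩, hrow a b⟩
    · rintro ⟨_, ⟨a, b, hab, rfl⟩, rfl⟩
      exact ⟨a, b, hab, hrow a b⟩
  rw [Fin_sp, Fin_sp, e, Fin_span_map]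

/-- a linked pair has its row in the span -/
theorem Fin_link (g : Gen V K) {T : V → K} (hT : ∀ j, T j ≠ 0) {X : V → Fin 3 → K}
    (hg : ∀ j, g.p j = T j • vecCons 1 (X j)) {E : V → V → Prop} {a b : V} (h : g.Link E a b) :
    row X a b ∈ Fin_sp X E := by
  by_contra hn
  obtain ⟨f, hf1, hf2⟩ := Submodule.exists_le_ker_of_notMem hn
  set u : V × Fin 3 → K := fun i => f (Pi.single i 1) with hu
  have hf : ∀ x, f x = u ⬝ᵥ x := by
    intro x
    rw [LinearMap.pi_apply_eq_sum_univ, dotProduct]
    refine Finset.sum_congr rfl fun i _ => ?_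
    have : (fun j => if i = j then (1 : K) else 0) = Pi.single i 1 := by
      ext j; simp [Pi.single_apply, eq_comm]
    rw [this, smul_eq_mul, mul_comm]
  let φ : V → Vec K := fun j => T j • vecCons (-∑ k, u (j, k) * X j k) (fun k => u (j, k))
  have hφ : ∀ i j, dl g.p φ i j = -(T i * T j) * f (row X i j) := by
    intro i j
    rw [hf, dot_row]
    simp only [dl, hg, φ, smul_dotProduct, dotProduct_smul, smul_eq_mul, cons_dotProduct_cons]
    simp only [dotProduct, Fin.sum_univ_three]
    ring
  have hm : φ ∈ g.flex E := by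
    refine ⟨fun v => ?_, fun i j hij => ?_⟩
    · simp only [hg, φ, smul_dotProduct, dotProduct_smul, smul_eq_mul, cons_dotProduct_cons]
      simp only [dotProduct, Fin.sum_univ_three]
      ring
    · have : f (row X i j) = 0 := hf2 (Submodule.subset_span ⟨i, j, hij, rfl⟩)
      rw [hφ, this, mul_zero]
  have h1 := h φ hm
  rw [hφ] at h1
  exact hf1 ((mul_eq_zero.1 h1).resolve_left (neg_ne_zero.2 (mul_ne_zero (hT a) (hT b))))

/-- the matrix of a function on the edges -/
noncomputable def Fin_ext (G : SimpleGraph V) (w : G.edgeSet → K) (i j : V) : K :=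
  if h : G.Adj i j then w ⟨s(i, j), h⟩ else 0

omit [DecidableEq V] [Fintype V] in
theorem Fin_ext_symm (G : SimpleGraph V) (w : G.edgeSet → K) (i j : V) :
    Fin_ext G w i j = Fin_ext G w j i := by
  by_cases h : G.Adj i j
  · simp only [Fin_ext, dif_pos h, dif_pos h.symm, Sym2.eq_swap]
  · simp only [Fin_ext, dif_neg h, dif_neg (fun h' : G.Adj j i => h h'.symm)]

/-- the rigidity matrix as a linear map on edge weights -/
noncomputable def Fin_R (G : SimpleGraph V) (X : V → Fin 3 → K) :
    (G.edgeSet → K) →ₗ[K] (V × Fin 3 → K) :=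
  Fintype.linearCombination K fun e : G.edgeSet => Sym2.lift ⟨row X, row_comm X⟩ e.1

theorem Fin_R_apply (G : SimpleGraph V) (X : V → Fin 3 → K) (w : G.edgeSet → K) (i : V)
    (k : Fin 3) : Fin_R G X w (i, k) = ∑ j, Fin_ext G w i j * (X i k - X j k) := by
  rw [Fin_R, Fintype.linearCombination_apply, Finset.sum_apply,
    Finset.sum_congr rfl (g := fun e : G.edgeSet => ∑ j,
      if s(i, j) = e.1 then w e * (X i k - X j k) else 0) (by
        rintro ⟨e, he⟩ -
        induction e using Sym2.ind with
        | _ a b =>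
          simp only [Pi.smul_apply, Sym2.lift_mk, smul_eq_mul, row_eq _ a b (G.ne_of_adj he),
            Finset.mul_sum, mul_ite, mul_zero]), Finset.sum_comm]
  refine Finset.sum_congr rfl fun j _ => ?_
  by_cases h : G.Adj i j
  · rw [Finset.sum_eq_single ⟨s(i, j), h⟩ (fun e _ he => if_neg fun h' => he (Subtype.ext h'.symm))
      (by simp)]
    simp [Fin_ext, h]
  · rw [Finset.sum_eq_zero (fun e _ => if_neg fun h' => h (by
      have := e.2
      rwa [← h'] at this))]
    simp [Fin_ext, h]

theorem Fin_range (G : SimpleGraph V) (X : V → Fin 3 → K) :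
    LinearMap.range (Fin_R G X) = Fin_sp X G.Adj := by
  rw [Fin_R, Fintype.range_linearCombination, Fin_sp]
  congr 1
  ext f
  constructor
  · rintro ⟨⟨e, he⟩, rfl⟩
    induction e using Sym2.ind with
    | _ a b => exact ⟨a, b, he, rfl⟩
  · rintro ⟨a, b, h, rfl⟩
    exact ⟨⟨s(a, b), h⟩, rfl⟩

/-- the homogeneous stress of edge weights -/
noncomputable def Fin_Psi (G : SimpleGraph V) (T : V → K) : (G.edgeSet → K) →ₗ[K] (V → V → K) where
  toFun w := fun i j => Fin_ext G w i j / (T i * T j) -
    if i = j then (∑ l, Fin_ext G w i l) / (T i * T j) else 0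
  map_add' a b := by
    have e : ∀ i j, Fin_ext G (a + b) i j = Fin_ext G a i j + Fin_ext G b i j := by
      intro i j
      unfold Fin_ext
      split_ifs <;> simp
    ext i j
    simp only [e, Finset.sum_add_distrib, Pi.add_apply]
    split_ifs <;> ring
  map_smul' c a := by
    have e : ∀ i j, Fin_ext G (c • a) i j = c * Fin_ext G a i j := by
      intro i j
      unfold Fin_ext
      split_ifs <;> simp
    ext i j
    simp only [e, ← Finset.mul_sum, Pi.smul_apply, smul_eq_mul, RingHom.id_apply]
    split_ifs <;> ring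

theorem Fin_Psi_apply (G : SimpleGraph V) (T : V → K) (w : G.edgeSet → K) (i j : V) :
    Fin_Psi G T w i j = Fin_ext G w i j / (T i * T j) -
      if i = j then (∑ l, Fin_ext G w i l) / (T i * T j) else 0 := rfl

theorem Fin_Psi_inj (G : SimpleGraph V) {T : V → K} (hT : ∀ j, T j ≠ 0) :
    Function.Injective (Fin_Psi G T) := by
  rw [injective_iff_map_eq_zero]
  intro w hw
  ext ⟨e, he⟩
  induction e using Sym2.ind with
  | _ a b =>
    have h1 := congrFun (congrFun hw a) b
    have hab : G.Adj a b := he
    simpa only [Fin_Psi_apply, if_neg (G.ne_of_adj hab), sub_zero, Pi.zero_apply, div_eq_zero_iff,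
      mul_eq_zero, hT, or_false, Fin_ext, dif_pos hab] using h1

theorem Fin_dep (g : Gen V K) {T : V → K} {X : V → Fin 3 → K}
    (hg : ∀ j, g.p j = T j • vecCons 1 (X j)) (γ : V → K) :
    g.Dep γ ↔ ∑ j, γ j * T j = 0 ∧ ∀ k, ∑ j, γ j * T j * X j k = 0 := by
  rw [Gen.Dep, funext_iff, Fin.forall_fin_succ]
  simp only [hg, Finset.sum_apply, Pi.smul_apply, smul_eq_mul, cons_val_zero, cons_val_succ,
    mul_one, Pi.zero_apply, mul_assoc]

theorem Fin_map_ker (g : Gen V K) {T : V → K} (hT : ∀ j, T j ≠ 0) {X : V → Fin 3 → K}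
    (hg : ∀ j, g.p j = T j • vecCons 1 (X j)) (G : SimpleGraph V) (Ω : V → V → K) :
    Ω ∈ (LinearMap.ker (Fin_R G X)).map (Fin_Psi G T) ↔ g.Stress Ω ∧ On G.Adj Ω := by
  constructor
  · rintro ⟨w, hw, rfl⟩
    refine ⟨⟨fun a b => ?_, fun a => ?_⟩, fun a b h1 h2 => Or.inl ?_⟩
    · rw [Fin_Psi_apply, Fin_Psi_apply]
      by_cases h : a = b
      · rw [h]
      · rw [if_neg h, if_neg (Ne.symm h), Fin_ext_symm, mul_comm]
    · have e : ∀ j, Fin_Psi G T w a j * T j =
          Fin_ext G w a j / T a - if a = j then (∑ l, Fin_ext G w a l) / T a else 0 := by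
        intro j
        have := hT j
        have := hT a
        rw [Fin_Psi_apply]
        split_ifs <;> field_simp <;> ring
      rw [Fin_dep g hg]
      simp only [e, sub_mul, Finset.sum_sub_distrib, ite_mul, zero_mul, Finset.sum_ite_eq,
        Finset.mem_univ, if_true]
      refine ⟨by rw [Finset.sum_div, sub_self], fun k => ?_⟩
      have h1 : Fin_R G X w (a, k) = 0 := congrFun hw (a, k)
      rw [Fin_R_apply] at h1
      simp only [mul_sub, Finset.sum_sub_distrib, ← Finset.sum_mul] at h1
      simp only [div_mul_eq_mul_div, ← Finset.sum_div]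
      rw [← sub_div, ← neg_sub, h1, neg_zero, zero_div]
    · by_contra h
      simp [Fin_Psi_apply, Fin_ext, h, h1] at h2
  · rintro ⟨⟨hs, hd⟩, ho⟩
    let w : G.edgeSet → K := fun e => Sym2.lift ⟨fun i j => Ω i j * (T i * T j), fun i j => by
      beta_reduce
      rw [hs, mul_comm (T i)]⟩ e.1
    have e : ∀ i j, Fin_ext G w i j = Ω i j * (T i * T j) -
        if i = j then Ω i j * (T i * T j) else 0 := by
      intro i j
      by_cases h : G.Adj i j
      · rw [Fin_ext, dif_pos h, if_neg (G.ne_of_adj h), sub_zero]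
        rfl
      · rw [Fin_ext, dif_neg h]
        by_cases h' : i = j
        · rw [if_pos h', sub_self]
        · have : Ω i j = 0 := by
            by_contra h0
            exact (ho i j h' h0).elim h fun h1 => h h1.symm
          rw [this, if_neg h', zero_mul, sub_zero]
    refine ⟨w, ?_, ?_⟩
    · show Fin_R G X w = 0
      ext ⟨i, k⟩
      obtain ⟨h1, h2⟩ := (Fin_dep g hg _).1 (hd i)
      rw [Fin_R_apply, Finset.sum_congr rfl (g := fun j =>
        T i * X i k * (Ω i j * T j) - T i * (Ω i j * T j * X j k)) (fun j _ => by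
          rw [e]
          split_ifs with h
          · rw [h]; ring
          · ring), Finset.sum_sub_distrib, ← Finset.mul_sum, ← Finset.mul_sum, h1, h2 k]
      simp
    · ext i j
      have := hT i
      have := hT j
      obtain ⟨h1, -⟩ := (Fin_dep g hg _).1 (hd i)
      have h2 : ∑ l, Fin_ext G w i l = -(Ω i i * (T i * T i)) := by
        simp only [e, Finset.sum_sub_distrib, Finset.sum_ite_eq, Finset.mem_univ, if_true]
        rw [Finset.sum_congr rfl (g := fun l => T i * (Ω i l * T l)) (fun l _ => by ring),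
          ← Finset.mul_sum, h1]
        ring
      rw [Fin_Psi_apply, h2, e]
      split_ifs with h
      · subst h
        field_simp
        ring
      · field_simp
        ring

/-- rank plus stress dimension is the number of edges -/
theorem Fin_rank (g : Gen V K) {T : V → K} (hT : ∀ j, T j ≠ 0) {X : V → Fin 3 → K}
    (hg : ∀ j, g.p j = T j • vecCons 1 (X j)) (G : SimpleGraph V) :
    ∃ S : Submodule K (V → V → K), (∀ Ω, Ω ∈ S ↔ g.Stress Ω ∧ On G.Adj Ω) ∧
      finrank K (Fin_sp X G.Adj) + finrank K S = Fintype.card G.edgeSet := by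
  refine ⟨_, Fin_map_ker g hT hg G, ?_⟩
  rw [← (Submodule.equivMapOfInjective _ (Fin_Psi_inj G hT) _).finrank_eq, ← Fin_range,
    LinearMap.finrank_range_add_finrank_ker, Module.finrank_fintype_fun_eq_card]

end Pool.Agent.Dress
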