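import Pool.Agent.Lib.MP_d237f6_co.DR.Base

/-! Graph level notions: flexes, linked pairs, stresses, the clique stress space. -/

set_option autoImplicit false

namespace Pool.Agent.Dress

open Matrix Module

variable {K : Type} [Field K] {V : Type} [DecidableEq V]

/-- deleting a vertex -/
def del (F : V → V → Prop) (w : V) : V → V → Prop := fun u v => F u v ∧ u ≠ w ∧ v ≠ w

/-- deleting a set of vertices -/
def delS (F : V → V → Prop) (D : Finset V) : V → V → Prop := fun u v => F u v ∧ u ∉ D ∧ v ∉ D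

/-- a vertex without edges -/
def Isol (F : V → V → Prop) (z : V) : Prop := ∀ u, ¬ F z u ∧ ¬ F u z

/-- a matrix whose off diagonal support lies in a graph -/
def On (F : V → V → Prop) (Ω : V → V → K) : Prop := ∀ u v, u ≠ v → Ω u v ≠ 0 → F u v ∨ F v u

/-- the support graph of a matrix -/
def adj (Ω : V → V → K) : V → V → Prop := fun u v => u ≠ v ∧ Ω u v ≠ 0

open Classical in
/-- neighbours in the support graph -/
noncomputable def nb [Fintype V] (Ω : V → V → K) (v : V) : Finset V :=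
  Finset.univ.filter (adj Ω v)

/-- coordinatewise derivative of a velocity field -/
def dU (δ : Der K) (U : V → Vec K) : V → Vec K := fun v => dv δ (U v)

omit [DecidableEq V] in
theorem mem_nb [Fintype V] {Ω : V → V → K} {v u : V} : u ∈ nb Ω v ↔ v ≠ u ∧ Ω v u ≠ 0 := by
  simp [nb, adj]

omit [DecidableEq V] in
theorem on_adj (Ω : V → V → K) : On (adj Ω) Ω := fun _ _ h h' => Or.inl ⟨h, h'⟩

omit [DecidableEq V] in
theorem isol_del (F : V → V → Prop) (w : V) : Isol (del F w) w :=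
  fun _ => ⟨fun h => h.2.1 rfl, fun h => h.2.2 rfl⟩

omit [DecidableEq V] in
theorem isol_del_of {F : V → V → Prop} {z : V} (h : Isol F z) (w : V) : Isol (del F w) z :=
  fun u => ⟨fun h' => (h u).1 h'.1, fun h' => (h u).2 h'.1⟩

namespace Gen

variable (g : Gen V K)

/-- infinitesimal flexes in the homogeneous model -/
def flex (F : V → V → Prop) : Submodule K (V → Vec K) where
  carrier := {U | (∀ v, U v ⬝ᵥ g.p v = 0) ∧ ∀ u v, F u v → dl g.p U u v = 0}
  add_mem' := fun {a b} ha hb => ⟨fun v => by simp [ha.1 v, hb.1 v],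
    fun u v h => by rw [dl_add, ha.2 u v h, hb.2 u v h, add_zero]⟩
  zero_mem' := ⟨fun v => by simp, fun u v _ => dl_zero _ _ _⟩
  smul_mem' := fun c a ha => ⟨fun v => by simp [ha.1 v],
    fun u v h => by rw [dl_smul, ha.2 u v h, mul_zero]⟩

/-- linked pairs -/
def Link (F : V → V → Prop) : V → V → Prop := fun u v => ∀ U ∈ g.flex F, dl g.p U u v = 0

/-- cliques of the closure -/
def Clq (F : V → V → Prop) (X : Finset V) : Prop := ∀ x ∈ X, ∀ y ∈ X, g.Link F x y

theorem mem_flex {F : V → V → Prop} {U : V → Vec K} :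
    U ∈ g.flex F ↔ (∀ v, U v ⬝ᵥ g.p v = 0) ∧ ∀ u v, F u v → dl g.p U u v = 0 := Iff.rfl

theorem flex_anti {F F' : V → V → Prop} (h : ∀ u v, F u v → F' u v ∨ F' v u) :
    g.flex F' ≤ g.flex F := fun _ hU => ⟨hU.1, fun u v huv => (h u v huv).elim (hU.2 u v)
      (fun h' => by rw [dl_comm]; exact hU.2 v u h')⟩

theorem flex_le_of_link {F F' : V → V → Prop} (h : ∀ u v, F u v → g.Link F' u v) :
    g.flex F' ≤ g.flex F := fun U hU => ⟨hU.1, fun u v huv => h u v huv U hU⟩

theorem link_of {F : V → V → Prop} {u v : V} (h : F u v) : g.Link F u v := fun _ hU => hU.2 u v h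

theorem link_symm {F : V → V → Prop} {u v : V} (h : g.Link F u v) : g.Link F v u :=
  fun U hU => by rw [dl_comm]; exact h U hU

theorem link_refl (F : V → V → Prop) (u : V) : g.Link F u u :=
  fun U hU => by simp [dl, hU.1 u]

theorem link_mono {F F' : V → V → Prop} (h : g.flex F' ≤ g.flex F) {u v : V}
    (h' : g.Link F u v) : g.Link F' u v := fun U hU => h' U (h hU)

theorem flex_link (F : V → V → Prop) : g.flex (g.Link F) = g.flex F :=
  le_antisymm (g.flex_anti fun _ _ h => Or.inl (g.link_of h)) (g.flex_le_of_link fun _ _ h => h)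

theorem clq_mono {F F' : V → V → Prop} (h : g.flex F' ≤ g.flex F) {X : Finset V}
    (h' : g.Clq F X) : g.Clq F' X := fun x hx y hy => g.link_mono h (h' x hx y hy)

theorem clq_sub {F : V → V → Prop} {X Y : Finset V} (h : g.Clq F X) (h' : Y ⊆ X) : g.Clq F Y :=
  fun x hx y hy => h x (h' hx) y (h' hy)

theorem sub_skew_mem [CharZero K] {F : V → V → Prop} {U : V → Vec K} (hU : U ∈ g.flex F)
    {L : Mat K} (hL : Lᵀ = -L) : (fun x => U x - L *ᵥ g.p x) ∈ g.flex F :=
  ⟨fun v => by simp [hU.1 v, skew_self hL], fun u v h => by rw [dl_sub_skew _ _ hL, hU.2 u v h]⟩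

theorem update_mem {F : V → V → Prop} {z : V} (hz : Isol F z) {U : V → Vec K}
    (hU : U ∈ g.flex F) {ξ : Vec K} (hξ : ξ ⬝ᵥ g.p z = 0) :
    Function.update U z ξ ∈ g.flex F := by
  refine ⟨fun v => ?_, fun u v h => ?_⟩
  · by_cases hv : v = z
    · subst hv; simpa using hξ
    · simpa [hv] using hU.1 v
  · have h1 : u ≠ z := fun e => (hz v).1 (e ▸ h)
    have h2 : v ≠ z := fun e => (hz u).2 (e ▸ h)
    simpa [dl, h1, h2] using hU.2 u v h

theorem dl_update (U : V → Vec K) (z : V) (ξ : Vec K) {u v : V} (hu : u ≠ z) (hv : v ≠ z) :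
    dl g.p (Function.update U z ξ) u v = dl g.p U u v := by simp [dl, hu, hv]

theorem d_dl (z : V) (k : Fin 4) (U : V → Vec K) {u v : V} (hu : u ≠ z) (hv : v ≠ z) :
    g.d z k (dl g.p U u v) = dl g.p (dU (g.d z k) U) u v := by
  simp [dl, d_dot, g.d_ne hu, g.d_ne hv, dU]

/-- flexes vanishing at an isolated vertex are stable under its derivations -/
theorem dU_mem {F : V → V → Prop} {z : V} (hz : Isol F z) {U : V → Vec K} (hU : U ∈ g.flex F)
    (h0 : U z = 0) (k : Fin 4) : dU (g.d z k) U ∈ g.flex F := by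
  refine ⟨fun v => ?_, fun u v h => ?_⟩
  · by_cases hv : v = z
    · subst hv; simp [dU, h0, dv_zero]
    · have := congrArg (g.d z k) (hU.1 v)
      rw [d_dot, g.d_ne hv, map_zero, dotProduct_zero, add_zero] at this
      exact this
  · have h1 : u ≠ z := fun e => (hz v).1 (e ▸ h)
    have h2 : v ≠ z := fun e => (hz u).2 (e ▸ h)
    rw [← g.d_dl z k U h1 h2, hU.2 u v h, map_zero]

theorem li3 {a b c : V} (hab : a ≠ b) (hac : a ≠ c) (hbc : b ≠ c) :
    LinearIndependent K ![g.p a, g.p b, g.p c] := by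
  rw [Fintype.linearIndependent_iff]
  intro s hs
  have := g.indep {a, b, c} (Finset.card_le_three.trans (by omega))
    (fun v => if v = a then s 0 else if v = b then s 1 else s 2) (by
      rw [Finset.sum_insert (by simp [hab, hac]), Finset.sum_pair hbc, ← hs]
      simp [Fin.sum_univ_three, hab.symm, hac.symm, hbc.symm, add_assoc])
  have h0 := this a (by simp)
  have h1 := this b (by simp)
  have h2 := this c (by simp)
  simp only [if_true, hab.symm, hac.symm, hbc.symm, if_false] at h0 h1 h2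
  intro i
  fin_cases i <;> assumption

theorem li4 {a b c d : V} (hab : a ≠ b) (hac : a ≠ c) (had : a ≠ d) (hbc : b ≠ c) (hbd : b ≠ d)
    (hcd : c ≠ d) : LinearIndependent K ![g.p a, g.p b, g.p c, g.p d] := by
  rw [Fintype.linearIndependent_iff]
  intro s hs
  have := g.indep {a, b, c, d} Finset.card_le_four
    (fun v => if v = a then s 0 else if v = b then s 1 else if v = c then s 2 else s 3) (by
      rw [Finset.sum_insert (by simp [hab, hac, had]), Finset.sum_insert (by simp [hbc, hbd]),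
        Finset.sum_pair hcd, ← hs]
      simp [Fin.sum_univ_four, hab.symm, hac.symm, hbc.symm, had.symm, hbd.symm, hcd.symm,
        add_assoc])
  have h0 := this a (by simp)
  have h1 := this b (by simp)
  have h2 := this c (by simp)
  have h3 := this d (by simp)
  simp only [if_true, hab.symm, hac.symm, hbc.symm, had.symm, hbd.symm, hcd.symm,
    if_false] at h0 h1 h2 h3
  intro i
  fin_cases i <;> assumption

/-- four distinct points: every coefficient of a relation vanishes -/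
theorem rel4 {a b c d : V} (hab : a ≠ b) (hac : a ≠ c) (had : a ≠ d) (hbc : b ≠ c) (hbd : b ≠ d)
    (hcd : c ≠ d) {s t r q : K} (h : s • g.p a + t • g.p b + r • g.p c + q • g.p d = 0) :
    s = 0 ∧ t = 0 ∧ r = 0 ∧ q = 0 := by
  have := Fintype.linearIndependent_iff.1 (g.li4 hab hac had hbc hbd hcd) ![s, t, r, q]
    (by simpa [Fin.sum_univ_four] using h)
  exact ⟨this 0, this 1, this 2, this 3⟩

theorem cov4 {a b c d : V} (hab : a ≠ b) (hac : a ≠ c) (had : a ≠ d) (hbc : b ≠ c) (hbd : b ≠ d)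
    (hcd : c ≠ d) {f : Vec K} (h1 : f ⬝ᵥ g.p a = 0) (h2 : f ⬝ᵥ g.p b = 0) (h3 : f ⬝ᵥ g.p c = 0)
    (h4 : f ⬝ᵥ g.p d = 0) : f = 0 :=
  cov_zero4 (g.li4 hab hac had hbc hbd hcd) fun i => by fin_cases i <;> assumption

theorem exists_cov4 {a b c d : V} (hab : a ≠ b) (hac : a ≠ c) (had : a ≠ d) (hbc : b ≠ c)
    (hbd : b ≠ d) (hcd : c ≠ d) (s t r q : K) :
    ∃ f : Vec K, f ⬝ᵥ g.p a = s ∧ f ⬝ᵥ g.p b = t ∧ f ⬝ᵥ g.p c = r ∧ f ⬝ᵥ g.p d = q := by
  obtain ⟨f, hf⟩ := g.exists_cov {a, b, c, d} Finset.card_le_four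
    (fun v => if v = a then s else if v = b then t else if v = c then r else q)
  refine ⟨f, ?_, ?_, ?_, ?_⟩
  · simpa using hf a (by simp)
  · simpa [hab.symm] using hf b (by simp)
  · simpa [hac.symm, hbc.symm] using hf c (by simp)
  · simpa [had.symm, hbd.symm, hcd.symm] using hf d (by simp)

/-- a constant covector orthogonal to a generic point vanishes -/
theorem const_cov_zero (u : V) {f : Vec K} (hf : ∀ k, dv (g.d u k) f = 0)
    (h : f ⬝ᵥ g.p u = 0) : f = 0 := by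
  ext k
  have := congrArg (g.d u k) h
  rw [d_dot, hf, g.d_self, map_zero] at this
  simpa using this

/-- a generic point is not in the plane of three independent constant vectors -/
theorem constn (u : V) {x y z f : Vec K} (h : LinearIndependent K ![x, y, z])
    (hx : ∀ k, dv (g.d u k) x = 0) (hy : ∀ k, dv (g.d u k) y = 0) (hz : ∀ k, dv (g.d u k) z = 0)
    (h1 : f ⬝ᵥ x = 0) (h2 : f ⬝ᵥ y = 0) (h3 : f ⬝ᵥ z = 0) (h4 : f ⬝ᵥ g.p u = 0) : f = 0 := by
  by_contra hf
  obtain ⟨c, hc, hc'⟩ := const_normal (g.d u) h hx hy hz hf h1 h2 h3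
  have := g.const_cov_zero u hc' (by simp [h4])
  exact hf ((smul_eq_zero.1 this).resolve_left hc)

/-- a matrix with prescribed values at four points -/
theorem exists_mat4 (T : Finset V) (hT : T.card ≤ 4) (φ : V → Vec K) :
    ∃ M : Mat K, ∀ b ∈ T, M *ᵥ g.p b = φ b := by
  obtain ⟨B, hB⟩ := g.exists_mat T hT φ
  exact ⟨Bᵀ, fun b hb => by rw [mulVec_transpose, hB b hb]⟩

theorem mat4_zero (T : Finset V) (hT : 4 ≤ T.card) {M : Mat K} (h : ∀ b ∈ T, M *ᵥ g.p b = 0) :
    M = 0 := by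
  ext i j
  exact congrFun (g.cov_zero T hT (M i) (fun b hb => congrFun (h b hb) i)) j

/-- a rigid set moves by a skew matrix -/
theorem rigX (X : Finset V) (U : V → Vec K) (h : ∀ x ∈ X, ∀ y ∈ X, dl g.p U x y = 0) :
    ∃ L : Mat K, Lᵀ = -L ∧ ∀ x ∈ X, U x = L *ᵥ g.p x := by
  by_cases hX : X.card ≤ 4
  · obtain ⟨L, h1, h2⟩ := rig (fun b : X => g.p b) (fun b : X => U b) (g.linInd X hX)
      (fun i j => h i i.2 j j.2)
    exact ⟨L, h1, fun x hx => (h2 ⟨x, hx⟩).symm⟩
  · obtain ⟨T, hT, hc⟩ := Finset.exists_subset_card_eq (by omega : 4 ≤ X.card)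
    obtain ⟨L, h1, h2⟩ := rig (fun b : T => g.p b) (fun b : T => U b) (g.linInd T hc.le)
      (fun i j => h i (hT i.2) j (hT j.2))
    refine ⟨L, h1, fun x hx => sub_eq_zero.1 (g.cov_zero T hc.ge _ fun b hb => ?_)⟩
    have e := h x hx b (hT hb)
    rw [sub_dotProduct, skew_dot h1, h2 ⟨b, hb⟩]
    simp only [dl] at e
    linear_combination e

/-- a point rigid with three points of a body moves with it -/
theorem follow [CharZero K] {U : V → Vec K} {L : Mat K} (hL : Lᵀ = -L) {a b c y : V}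
    (hab : a ≠ b) (hac : a ≠ c) (hbc : b ≠ c) (ha : U a = L *ᵥ g.p a) (hb : U b = L *ᵥ g.p b)
    (hc : U c = L *ᵥ g.p c) (hy : U y ⬝ᵥ g.p y = 0) (h1 : dl g.p U y a = 0)
    (h2 : dl g.p U y b = 0) (h3 : dl g.p U y c = 0) : U y = L *ᵥ g.p y := by
  by_cases e1 : y = a
  · rw [e1, ha]
  by_cases e2 : y = b
  · rw [e2, hb]
  by_cases e3 : y = c
  · rw [e3, hc]
  have key : ∀ x, U x = L *ᵥ g.p x → dl g.p U y x = 0 → (U y - L *ᵥ g.p y) ⬝ᵥ g.p x = 0 := by
    intro x hx e
    rw [sub_dotProduct, skew_dot hL, ← hx]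
    simp only [dl] at e
    linear_combination e
  exact sub_eq_zero.1 (g.cov4 e1 e2 e3 hab hac hbc (by simp [hy, skew_self hL]) (key a ha h1)
    (key b hb h2) (key c hc h3))

/-- two cliques with three common points merge -/
theorem merge [CharZero K] {F : V → V → Prop} {X Y : Finset V} (hX : g.Clq F X) (hY : g.Clq F Y)
    (h : 3 ≤ (X ∩ Y).card) : g.Clq F (X ∪ Y) := by
  obtain ⟨a, ha, b, hb, c, hc, hab, hac, hbc⟩ := Finset.two_lt_card.1 (by omega : 2 < (X ∩ Y).card)
  rw [Finset.mem_inter] at ha hb hc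
  intro x hx y hy U hU
  obtain ⟨L, hL, h1⟩ := g.rigX X U (fun x hx y hy => hX x hx y hy U hU)
  have h2 : ∀ z ∈ X ∪ Y, U z = L *ᵥ g.p z := by
    intro z hz
    rcases Finset.mem_union.1 hz with hz | hz
    · exact h1 z hz
    · exact g.follow hL hab hac hbc (h1 a ha.1) (h1 b hb.1) (h1 c hc.1) (hU.1 z)
        (hY z hz a ha.2 U hU) (hY z hz b hb.2 U hU) (hY z hz c hc.2 U hU)
  have := dl_skew g.p hL x y
  simp only [dl] at this ⊢
  rw [h2 x hx, h2 y hy]
  exact this

variable [Fintype V]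

/-- linear dependencies of the points -/
def Dep (γ : V → K) : Prop := ∑ u, γ u • g.p u = 0

/-- equilibrium stresses (the diagonal carries the loops) -/
def Stress (Ω : V → V → K) : Prop := (∀ u v, Ω u v = Ω v u) ∧ ∀ u, g.Dep (Ω u)

/-- the span of the stresses supported on cliques of the closure -/
def KK (F : V → V → Prop) : Submodule K (V → V → K) :=
  Submodule.span K {Ω | g.Stress Ω ∧ ∃ X : Finset V, g.Clq F X ∧ ∀ u v, Ω u v ≠ 0 → u ∈ X}

/-- every stress is a sum of stresses on cliques of the closure -/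
def D1 : Prop := ∀ F Ω, g.Stress Ω → On F Ω → Ω ∈ g.KK F

/-- the same for graphs with an isolated vertex -/
def IH : Prop := ∀ z F Ω, Isol F z → g.Stress Ω → On F Ω → Ω ∈ g.KK F

theorem dep_sum {γ : V → K} {X : Finset V} (h : ∀ u, u ∉ X → γ u = 0) :
    g.Dep γ ↔ ∑ u ∈ X, γ u • g.p u = 0 := by
  rw [Dep, ← Finset.sum_subset (Finset.subset_univ X) (fun u _ hu => by simp [h u hu])]

theorem dep_add {γ γ' : V → K} (h : g.Dep γ) (h' : g.Dep γ') : g.Dep (γ + γ') := by
  simp only [Dep, Pi.add_apply, add_smul, Finset.sum_add_distrib] at *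
  rw [h, h', add_zero]

theorem dep_smul {γ : V → K} (h : g.Dep γ) (c : K) : g.Dep (c • γ) := by
  simp only [Dep, Pi.smul_apply, smul_eq_mul, mul_smul, ← Finset.smul_sum] at *
  rw [h, smul_zero]

theorem dep_sub {γ γ' : V → K} (h : g.Dep γ) (h' : g.Dep γ') : g.Dep (γ - γ') := by
  simp only [Dep, Pi.sub_apply, sub_smul, Finset.sum_sub_distrib] at *
  rw [h, h', sub_zero]

theorem dep_dot {γ : V → K} (h : g.Dep γ) (f : Vec K) : ∑ u, γ u * (f ⬝ᵥ g.p u) = 0 := by
  have := congrArg (fun m => f ⬝ᵥ m) h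
  simpa [dotProduct_sum] using this

theorem dep_mulVec {γ : V → K} (h : g.Dep γ) (M : Mat K) : ∑ u, γ u • (M *ᵥ g.p u) = 0 := by
  have := congrArg (fun m => M *ᵥ m) h
  simpa [mulVec_sum, mulVec_smul] using this

/-- a dependency supported on at most four points vanishes -/
theorem dep_zero {γ : V → K} (h : g.Dep γ) (X : Finset V) (hX : X.card ≤ 4)
    (hs : ∀ u, u ∉ X → γ u = 0) : γ = 0 := by
  ext u
  by_cases hu : u ∈ X
  · exact g.indep X hX γ ((g.dep_sum hs).1 h) u hu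
  · exact hs u hu

/-- a nonzero dependency on five points has full support -/
theorem dep_full {γ : V → K} (h : g.Dep γ) (X : Finset V) (hX : X.card ≤ 5)
    (hs : ∀ u, u ∉ X → γ u = 0) (h0 : γ ≠ 0) : ∀ u ∈ X, γ u ≠ 0 := by
  intro u hu hγ
  refine h0 (g.dep_zero h (X.erase u) (by rw [Finset.card_erase_of_mem hu]; omega) fun v hv => ?_)
  by_cases e : v = u
  · rw [e, hγ]
  · exact hs v fun hv' => hv (Finset.mem_erase.2 ⟨e, hv'⟩)

/-- five points carry a dependency with full support -/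
theorem dep5 (X : Finset V) (hX : X.card = 5) :
    ∃ ζ : V → K, g.Dep ζ ∧ (∀ u, u ∉ X → ζ u = 0) ∧ ∀ u ∈ X, ζ u ≠ 0 := by
  obtain ⟨lam, h0, h1⟩ := dep (K := K) (ι := X) (κ := Fin 4) (by simp [hX]) (fun u => g.p u)
  have hs : ∀ u, u ∉ X → (if h : u ∈ X then lam ⟨u, h⟩ else 0) = 0 := fun u hu => dif_neg hu
  have hd : g.Dep (fun u => if h : u ∈ X then lam ⟨u, h⟩ else 0) := by
    rw [g.dep_sum hs, ← Finset.sum_coe_sort]
    ext k
    simpa [Finset.sum_apply] using h1 k
  refine ⟨_, hd, hs, g.dep_full hd X hX.le hs fun h => h0 ?_⟩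
  ext u
  simpa using congrFun h u

/-- dependencies on five points are proportional -/
theorem dep5_prop {γ ζ : V → K} (h : g.Dep γ) (h' : g.Dep ζ) (X : Finset V) (hX : X.card ≤ 5)
    (hs : ∀ u, u ∉ X → γ u = 0) (hs' : ∀ u, u ∉ X → ζ u = 0) (h0 : ζ ≠ 0) :
    ∃ t : K, γ = t • ζ := by
  obtain ⟨u, hu⟩ : ∃ u, ζ u ≠ 0 := by
    by_contra hh; push Not at hh; exact h0 (funext hh)
  have huX : u ∈ X := by by_contra hh; exact hu (hs' u hh)
  refine ⟨γ u / ζ u, sub_eq_zero.1 ?_⟩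
  by_contra hh
  refine g.dep_full (g.dep_sub h (g.dep_smul h' _)) X hX (fun v hv => by simp [hs v hv, hs' v hv])
    hh u huX ?_
  simp [div_mul_cancel₀ _ hu]

theorem stress_add {Ω Ω' : V → V → K} (h : g.Stress Ω) (h' : g.Stress Ω') : g.Stress (Ω + Ω') :=
  ⟨fun u v => by simp [h.1 u v, h'.1 u v], fun u => g.dep_add (h.2 u) (h'.2 u)⟩

theorem stress_sub {Ω Ω' : V → V → K} (h : g.Stress Ω) (h' : g.Stress Ω') : g.Stress (Ω - Ω') :=
  ⟨fun u v => by simp [h.1 u v, h'.1 u v], fun u => g.dep_sub (h.2 u) (h'.2 u)⟩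

theorem stress_smul {Ω : V → V → K} (h : g.Stress Ω) (c : K) : g.Stress (c • Ω) :=
  ⟨fun u v => by simp [h.1 u v], fun u => g.dep_smul (h.2 u) c⟩

theorem stress_zero : g.Stress 0 := ⟨fun _ _ => rfl, fun u => by simp [Dep]⟩

/-- the row of a stress at a vertex with at most three neighbours vanishes -/
theorem row_zero {Ω : V → V → K} (h : g.Stress Ω) (v : V) (hv : (nb Ω v).card ≤ 3) : Ω v = 0 :=
  g.dep_zero (h.2 v) (insert v (nb Ω v)) ((Finset.card_insert_le _ _).trans (by omega))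
    fun u hu => by
      rw [Finset.mem_insert, not_or, mem_nb] at hu
      by_contra hh
      exact hu.2 ⟨fun e => hu.1 e.symm, hh⟩

theorem stress_pair {Ω : V → V → K} (h : g.Stress Ω) (U : V → Vec K) :
    ∑ u, ∑ v, Ω u v * dl g.p U u v = 0 := by
  rw [pair _ _ h.1]
  have : ∀ u, ∑ v, Ω u v • g.p v = 0 := h.2
  simp [this]

/-- pairing a stress with a field that is a flex away from a set of vertices -/
theorem rows_pair [CharZero K] {Ω : V → V → K} (h : g.Stress Ω) (U : V → Vec K) (S : Finset V)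
    (hU : ∀ a b, a ∉ S → b ∉ S → Ω a b ≠ 0 → dl g.p U a b = 0) :
    ∑ b ∈ S, ∑ a ∈ Sᶜ, Ω b a * (U a ⬝ᵥ g.p b) = 0 := by
  have e1 : ∑ a ∈ Sᶜ, ∑ b, Ω a b * (U a ⬝ᵥ g.p b) = 0 :=
    Finset.sum_eq_zero fun a _ => g.dep_dot (h.2 a) (U a)
  have e2 : ∑ a ∈ Sᶜ, ∑ b ∈ Sᶜ, Ω a b * dl g.p U a b = 0 :=
    Finset.sum_eq_zero fun a ha => Finset.sum_eq_zero fun b hb => by
      by_cases h0 : Ω a b = 0
      · rw [h0, zero_mul]
      · rw [hU a b (Finset.mem_compl.1 ha) (Finset.mem_compl.1 hb) h0, mul_zero]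
  simp only [dl, mul_add, Finset.sum_add_distrib] at e2
  rw [Finset.sum_comm (f := fun a b => Ω a b * (U b ⬝ᵥ g.p a))] at e2
  simp only [← Finset.sum_add_sum_compl S, Finset.sum_add_distrib] at e1
  rw [Finset.sum_comm] at e1
  have e3 : ∑ a ∈ Sᶜ, ∑ b ∈ Sᶜ, Ω b a * (U a ⬝ᵥ g.p b)
      = ∑ a ∈ Sᶜ, ∑ b ∈ Sᶜ, Ω a b * (U a ⬝ᵥ g.p b) :=
    Finset.sum_congr rfl fun a _ => Finset.sum_congr rfl fun b _ => by rw [h.1]
  have e4 : ∑ b ∈ S, ∑ a ∈ Sᶜ, Ω b a * (U a ⬝ᵥ g.p b)
      = ∑ b ∈ S, ∑ a ∈ Sᶜ, Ω a b * (U a ⬝ᵥ g.p b) :=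
    Finset.sum_congr rfl fun a _ => Finset.sum_congr rfl fun b _ => by rw [h.1]
  rw [e3] at e2
  rw [e4]
  linear_combination e1 - e2 / 2

theorem row_pair [CharZero K] {Ω : V → V → K} (h : g.Stress Ω) (U : V → Vec K) (v : V)
    (hU : ∀ a b, a ≠ v → b ≠ v → Ω a b ≠ 0 → dl g.p U a b = 0) :
    ∑ u ∈ nb Ω v, Ω v u * (U u ⬝ᵥ g.p v) = 0 := by
  have := g.rows_pair h U {v} (fun a b ha hb => hU a b (by simpa using ha) (by simpa using hb))
  rw [Finset.sum_singleton] at this
  rw [← this]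
  refine Finset.sum_subset (fun u hu => ?_) (fun u hu hu' => ?_)
  · simpa using (mem_nb.1 hu).1.symm
  · have : Ω v u = 0 := by
      by_contra hh
      exact hu' (mem_nb.2 ⟨fun e => by simp [e] at hu, hh⟩)
    rw [this, zero_mul]

/-- a load orthogonal to the flexes of a graph is resolved on the graph -/
theorem res [CharZero K] (F : V → V → Prop) (ℓ : V → Vec K)
    (h : ∀ U ∈ g.flex F, ∑ i, U i ⬝ᵥ ℓ i = 0) :
    ∃ Ξ : V → V → K, (∀ i j, Ξ i j = Ξ j i) ∧ On F Ξ ∧ ∀ i, ∑ j, Ξ i j • g.p j = ℓ i := by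
  obtain ⟨Ξ, h1, h2, h3⟩ := res0 g.p (fun u v => F u v ∨ u = v) ℓ (fun U hU => h U
    ⟨fun v => by
      have := hU v v (Or.inr rfl)
      simp only [dl] at this
      linear_combination this / 2, fun u v huv => hU u v (Or.inl huv)⟩)
  exact ⟨Ξ, h1, fun u v huv h0 => by
    rcases h2 u v h0 with (h | h) | (h | h)
    · exact Or.inl h
    · exact absurd h huv
    · exact Or.inr h
    · exact absurd h.symm huv, h3⟩

/-- a symmetric matrix orthogonal to the flexes agrees with a stress off the graph -/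
theorem psi_stress [CharZero K] (F : V → V → Prop) (Ψ : V → V → K) (hs : ∀ u v, Ψ u v = Ψ v u)
    (h : ∀ U ∈ g.flex F, ∑ u, ∑ v, Ψ u v * dl g.p U u v = 0) :
    ∃ σ, g.Stress σ ∧ ∀ u v, u ≠ v → ¬ F u v → ¬ F v u → σ u v = Ψ u v := by
  obtain ⟨Ξ, h1, h2, h3⟩ := g.res F (fun u => ∑ v, Ψ u v • g.p v) (fun U hU => by
    have := h U hU
    rw [pair _ _ hs] at this
    linear_combination this / 2)
  refine ⟨Ψ - Ξ, ⟨fun u v => by simp [hs u v, h1 u v], fun u => ?_⟩, fun u v huv a b => ?_⟩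
  · simp [Dep, sub_smul, Finset.sum_sub_distrib, h3 u]
  · have : Ξ u v = 0 := by
      by_contra hh
      exact (h2 u v huv hh).elim a b
    simp [this]

/-- a linked non-edge carries a stress -/
theorem link_stress [CharZero K] {F : V → V → Prop} {s t : V} (hst : s ≠ t) (h : g.Link F s t)
    (h1 : ¬ F s t) (h2 : ¬ F t s) :
    ∃ σ, g.Stress σ ∧ σ s t = 1 ∧ On (fun u v => F u v ∨ (u = s ∧ v = t)) σ := by
  obtain ⟨σ, a1, a2⟩ := g.psi_stress F
    (fun u v => (if u = s ∧ v = t then 1 else 0) + (if u = t ∧ v = s then 1 else 0))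
    (fun u v => by simp only [and_comm, add_comm]) (fun U hU => by
      simp only [add_mul, ite_mul, one_mul, zero_mul, Finset.sum_add_distrib, ite_and,
        Finset.sum_ite_irrel, Finset.sum_ite_eq', Finset.mem_univ, if_true, Finset.sum_const_zero]
      rw [h U hU, dl_comm, h U hU, add_zero])
  refine ⟨σ, a1, by simp [a2 s t hst h1 h2, hst], fun u v huv h0 => ?_⟩
  by_contra hh
  simp only [not_or, not_and] at hh
  rw [a2 u v huv hh.1.1 hh.2.1, if_neg (fun e => hh.1.2 e.1 e.2),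
    if_neg (fun e => hh.2.2 e.2 e.1)] at h0
  simp at h0

/-- a star at an isolated vertex carries a stress with prescribed row -/
theorem star_stress [CharZero K] {F : V → V → Prop} {w : V} (hw : Isol F w) {γ : V → K}
    (hγ : g.Dep γ) (h : ∀ U ∈ g.flex F, U w = 0 → ∑ u, γ u * (U u ⬝ᵥ g.p w) = 0) :
    ∃ σ, g.Stress σ ∧ σ w = γ ∧ ∀ u v, u ≠ v → u ≠ w → v ≠ w → σ u v ≠ 0 → F u v ∨ F v u := by
  obtain ⟨Ξ, h1, h2, h3⟩ := g.res F (fun u => γ u • g.p w) (fun U hU => by
    have := h _ (g.update_mem hw hU (zero_dotProduct _)) (by simp)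
    simp only [dotProduct_smul, smul_eq_mul]
    rw [← this]
    refine Finset.sum_congr rfl fun u _ => ?_
    by_cases hu : u = w
    · subst hu; simp [hU.1 u]
    · simp [hu])
  have z : ∀ u, u ≠ w → Ξ w u = 0 := fun u hu => by
    by_contra hh
    exact (h2 w u hu.symm hh).elim (hw u).1 (hw u).2
  refine ⟨fun u v => if u = w then γ v else if v = w then γ u else -Ξ u v,
    ⟨fun u v => ?_, fun u => ?_⟩, by ext v; simp, fun u v huv hu hv h0 => ?_⟩
  · by_cases hu : u = w <;> by_cases hv : v = w <;> simp [hu, hv, h1 u v]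
  · by_cases hu : u = w
    · simpa [hu] using hγ
    · have e := h3 u
      rw [← Finset.add_sum_erase _ _ (Finset.mem_univ w), h1, z u hu, zero_smul, zero_add] at e
      simp only [Dep, hu, if_false]
      rw [← Finset.add_sum_erase _ _ (Finset.mem_univ w), if_pos rfl, ← e,
        ← Finset.sum_add_distrib]
      exact Finset.sum_eq_zero fun v hv => by simp [Finset.ne_of_mem_erase hv]
  · simp only [hu, hv, if_false, neg_ne_zero] at h0
    exact h2 u v huv h0

/-- a stable family satisfying one relation at a vertex of degree four is rigid there -/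
theorem deg4 [CharZero K] (w : V) (𝒮 : Set (V → Vec K))
    (hst : ∀ k, ∀ U ∈ 𝒮, dU (g.d w k) U ∈ 𝒮) (B : Finset V) (hB : B.card = 4) (hw : w ∉ B)
    (hl : ∀ U ∈ 𝒮, ∀ b ∈ B, U b ⬝ᵥ g.p b = 0) {γ : V → K} (hγ : g.Dep γ)
    (hs : ∀ u, u ∉ insert w B → γ u = 0) (h0 : γ ≠ 0)
    (h : ∀ U ∈ 𝒮, ∑ u ∈ B, γ u * (U u ⬝ᵥ g.p w) = 0) :
    ∀ U ∈ 𝒮, ∀ x ∈ B, ∀ y ∈ B, dl g.p U x y = 0 := by
  have hw0 := g.dep_full hγ _ (by rw [Finset.card_insert_of_notMem hw]; omega) hs h0 w (by simp)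
  have hd := (g.dep_sum hs).1 hγ
  rw [Finset.sum_insert hw] at hd
  intro U hU x hx y hy
  obtain ⟨M, hM⟩ := g.exists_mat4 B hB.le U
  have := g.quad_zero w {M | ∃ U ∈ 𝒮, ∀ b ∈ B, M *ᵥ g.p b = U b} (fun k M ⟨U, hU, hM⟩ =>
    ⟨_, hst k U hU, fun b hb => by
      rw [← dv_mulVec _ _ _ (g.d_ne (fun e : b = w => hw (e ▸ hb)) k), hM b hb]; rfl⟩)
    (fun M ⟨U, hU, hM⟩ => by
      have e := congrArg (fun m => (M *ᵥ m) ⬝ᵥ g.p w) hd
      simp only [mulVec_add, mulVec_smul, mulVec_sum, add_dotProduct, smul_dotProduct,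
        sum_dotProduct, smul_eq_mul, mulVec_zero, zero_dotProduct] at e
      rw [Finset.sum_congr rfl (fun b hb => by rw [hM b hb]), h U hU, add_zero] at e
      rw [bil_eq']
      exact (mul_eq_zero.1 e).resolve_left hw0) M ⟨U, hU, hM⟩ (g.p x) (g.p y)
  rw [sb, bil_eq', bil_eq', hM x hx, hM y hy, add_comm] at this
  have _ := hl
  exact this

omit [Fintype V] in
/-- extending a velocity field to a new vertex -/
theorem extend_mem {F : V → V → Prop} {w : V} (hw : Isol F w) {U : V → Vec K}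
    (hU : U ∈ g.flex F) (S : Finset V) (hS : w ∉ S) {ξ : Vec K} (h0 : ξ ⬝ᵥ g.p w = 0)
    (h : ∀ s ∈ S, ξ ⬝ᵥ g.p s + U s ⬝ᵥ g.p w = 0) :
    Function.update U w ξ ∈ g.flex (fun u v => F u v ∨ (u = w ∧ v ∈ S)) := by
  have h1 := g.update_mem hw hU h0
  refine ⟨h1.1, fun u v huv => huv.elim (h1.2 u v) fun e => ?_⟩
  have : v ≠ w := fun e' => hS (e' ▸ e.2)
  rw [e.1]
  simpa [dl, this] using h v e.2

theorem KK_mono {F F' : V → V → Prop} (h : g.flex F' ≤ g.flex F) : g.KK F ≤ g.KK F' :=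
  Submodule.span_mono fun _ ⟨h1, X, h2, h3⟩ => ⟨h1, X, g.clq_mono h h2, h3⟩

theorem KK_stress {F : V → V → Prop} {σ : V → V → K} (h : σ ∈ g.KK F) :
    g.Stress σ ∧ ∀ u v, σ u v ≠ 0 → g.Link F u v := by
  induction h using Submodule.span_induction with
  | mem x hx =>
    obtain ⟨h1, X, h2, h3⟩ := hx
    exact ⟨h1, fun u v h0 => h2 u (h3 u v h0) v (h3 v u (by rwa [h1.1]))⟩
  | zero => exact ⟨g.stress_zero, fun u v h0 => absurd rfl h0⟩
  | add x y _ _ hx hy =>
    refine ⟨g.stress_add hx.1 hy.1, fun u v h0 => ?_⟩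
    by_cases e : x u v = 0
    · exact hy.2 u v (by simpa [e] using h0)
    · exact hx.2 u v e
  | smul c x _ hx =>
    exact ⟨g.stress_smul hx.1 c, fun u v h0 => hx.2 u v (fun e => h0 (by simp [e]))⟩

/-- symmetric products of dependencies on a clique -/
theorem prod_mem {F : V → V → Prop} {X : Finset V} (hX : g.Clq F X) {r s : V → K}
    (hr : g.Dep r) (hs : g.Dep s) (hr' : ∀ u, u ∉ X → r u = 0) (hs' : ∀ u, u ∉ X → s u = 0) :
    (fun u v => r u * s v + s u * r v) ∈ g.KK F := by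
  refine Submodule.subset_span ⟨⟨fun u v => by ring, fun u => ?_⟩, X, hX, fun u v h0 => ?_⟩
  · exact g.dep_add (g.dep_smul hs (r u)) (g.dep_smul hr (s u))
  · by_contra hu
    simp [hr' u hu, hs' u hu] at h0

theorem sq_mem {F : V → V → Prop} {X : Finset V} (hX : g.Clq F X) {r : V → K}
    (hr : g.Dep r) (hr' : ∀ u, u ∉ X → r u = 0) : (fun u v => r u * r v) ∈ g.KK F := by
  refine Submodule.subset_span ⟨⟨fun u v => by ring, fun u => g.dep_smul hr (r u)⟩, X, hX,
    fun u v h0 => ?_⟩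
  by_contra hu
  simp [hr' u hu] at h0

/-- derivative of a stress paired with any velocity field -/
theorem d_stress [CharZero K] {Ω : V → V → K} (h : g.Stress Ω) (v : V) (k : Fin 4)
    (U : V → Vec K) :
    ∑ a, ∑ b, g.d v k (Ω a b) * dl g.p U a b = -2 * (∑ u, Ω v u • U u) k := by
  rw [pair _ (fun a b => g.d v k (Ω a b)) (fun a b => by rw [h.1])]
  have e : ∀ a, ∑ b, g.d v k (Ω a b) • g.p b = -(Ω a v • Pi.single k 1) := by
    intro a
    have := congrArg (dv (g.d v k)) (h.2 a)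
    rw [dv_sum_smul, dv_zero, Finset.sum_add_distrib,
      Finset.sum_eq_single v (f := fun b => Ω a b • dv (g.d v k) (g.p b))
        (fun b _ hb => by rw [g.d_ne hb, smul_zero]) (by simp), g.d_self] at this
    exact eq_neg_of_add_eq_zero_left this
  simp only [e, dotProduct_neg, dotProduct_smul, dotProduct_single, mul_one, smul_eq_mul,
    Finset.sum_neg_distrib, Finset.sum_apply, Pi.smul_apply, h.1 v]
  ring

end Gen

end Pool.Agent.Dress
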