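import Pool.Agent.Lib.MP_d237f6_co.DR.Stmt

/-! Third derivatives, the stresses of a turning rod and the tools for vertices of first type. -/

set_option autoImplicit false

namespace Pool.Agent.Dress

open Matrix Module

variable {K : Type} [Field K]

section TD

variable {σ ι : Type} [Fintype ι] (δ : Fin 4 → Der K) (y : Vec K)
  (hy : ∀ k, dv (δ k) y = Pi.single k 1)
  (𝒮 : Set σ) (act : Fin 4 → σ → σ) (hact : ∀ k, ∀ s ∈ 𝒮, act k s ∈ 𝒮)
  (S : σ → Mat K) (hS : ∀ k s, S (act k s) = dm (δ k) (S s))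
  (χ₀ : σ → Vec K) (h₀ : ∀ k s, χ₀ (act k s) = dv (δ k) (χ₀ s))
  (χ : ι → σ → Vec K) (hχ : ∀ l k s, χ l (act k s) = dv (δ k) (χ l s))
  (c : ι → K) (h : ∀ s ∈ 𝒮, bil (S s) y y + χ₀ s ⬝ᵥ y = ∑ l, c l * (χ l s ⬝ᵥ y))

include hy hact hS h₀ hχ h

/-- second derivative of the relation, everywhere -/
theorem sd0 (s : σ) (hs : s ∈ 𝒮) (k k' : Fin 4) :
    S s k k' + S s k' k = ∑ l, (δ k' (δ k (c l)) * (χ l s ⬝ᵥ y) + δ k (c l) * χ l s k'
      + δ k' (c l) * χ l s k) := by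
  have h1 := congrArg (δ k') (fd0 δ y hy 𝒮 act hact S hS χ₀ h₀ χ hχ c h s hs k)
  have h2 := fd0 δ y hy 𝒮 act hact S hS χ₀ h₀ χ hχ c h _ (hact k' s hs) k
  rw [hS, h₀] at h2
  simp only [hχ] at h2
  simp only [sb, map_add, map_sum, d_mul, d_dot, d_bil, hy, Finset.sum_add_distrib,
    dv_single, bil_zero_left, bil_zero_right, dotProduct_zero, bil_single,
    add_zero, mul_add] at h1 h2 ⊢
  simp only [dotProduct_single, mul_one] at h1 h2
  linear_combination h1 - h2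

/-- third derivative of the relation, on the zero set -/
theorem td0 (s : σ) (hs : s ∈ 𝒮) (hz : ∀ l, χ l s ⬝ᵥ y = 0) (k k' k'' : Fin 4) :
    ∑ l, (δ k' (δ k (c l)) * χ l s k'' + δ k'' (δ k (c l)) * χ l s k'
      + δ k'' (δ k' (c l)) * χ l s k) = 0 := by
  have h1 := congrArg (δ k'') (sd0 δ y hy 𝒮 act hact S hS χ₀ h₀ χ hχ c h s hs k k')
  have h2 := sd0 δ y hy 𝒮 act hact S hS χ₀ h₀ χ hχ c h _ (hact k'' s hs) k k'
  rw [hS] at h2
  simp only [hχ] at h2
  simp only [map_add, map_sum, d_mul, d_dot, hy, dotProduct_single, mul_one,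
    Finset.sum_add_distrib, mul_add] at h1 h2 ⊢
  simp only [hz, mul_zero, Finset.sum_const_zero, zero_add] at h1
  have e1 : ∀ i j, dm (δ k'') (S s) i j = δ k'' (S s i j) := fun _ _ => rfl
  have e2 : ∀ l i, dv (δ k'') (χ l s) i = δ k'' (χ l s i) := fun _ _ => rfl
  simp only [e1, e2] at h2
  linear_combination h2 - h1

/-- the Hessian form of a function -/
def hes (δ : Fin 4 → Der K) (c : K) (z : Vec K) : K := ∑ k, ∑ k', δ k' (δ k c) * z k * z k'

theorem sd1 (s : σ) (hs : s ∈ 𝒮) (z : Vec K) :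
    2 * bil (S s) z z = ∑ l, (hes δ (c l) z * (χ l s ⬝ᵥ y)
      + 2 * ((fun k => δ k (c l)) ⬝ᵥ z) * (χ l s ⬝ᵥ z)) := by
  have e : 2 * bil (S s) z z = ∑ k, ∑ k', z k * z k' * (S s k k' + S s k' k) := by
    rw [bil_sum]
    simp only [Fin.sum_univ_four]
    ring
  rw [e]
  simp only [sd0 δ y hy 𝒮 act hact S hS χ₀ h₀ χ hχ c h s hs, Finset.mul_sum]
  rw [Finset.sum_congr rfl (fun k _ => Finset.sum_comm), Finset.sum_comm]
  refine Finset.sum_congr rfl fun l _ => ?_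
  generalize χ l s ⬝ᵥ y = t
  simp only [hes, dotProduct, Fin.sum_univ_four]
  ring

theorem td1 [CharZero K] (s : σ) (hs : s ∈ 𝒮) (hz : ∀ l, χ l s ⬝ᵥ y = 0) (z : Vec K) :
    ∑ l, hes δ (c l) z * (χ l s ⬝ᵥ z) = 0 := by
  have e : ∑ k, ∑ k', ∑ k'', z k * z k' * z k'' * ∑ l, (δ k' (δ k (c l)) * χ l s k''
      + δ k'' (δ k (c l)) * χ l s k' + δ k'' (δ k' (c l)) * χ l s k) = 0 := by
    simp only [td0 δ y hy 𝒮 act hact S hS χ₀ h₀ χ hχ c h s hs hz, mul_zero,
      Finset.sum_const_zero]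
  simp only [Finset.mul_sum] at e
  rw [Finset.sum_congr rfl (fun k _ => Finset.sum_congr rfl (fun k' _ => Finset.sum_comm)),
    Finset.sum_congr rfl (fun k _ => Finset.sum_comm), Finset.sum_comm] at e
  have e2 : 3 * ∑ l, hes δ (c l) z * (χ l s ⬝ᵥ z) = 0 := by
    rw [← e, Finset.mul_sum]
    refine Finset.sum_congr rfl fun l _ => ?_
    simp only [hes, dotProduct, Fin.sum_univ_four]
    ring
  linear_combination e2 / 3

end TD

/-- a product of two polynomial functions along lines vanishes only if one factor does -/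
theorem poly_dom [CharZero K] (f f' : Vec K → K)
    (hf : ∀ x y : Vec K, ∃ P : Polynomial K, ∀ t : K, f (x + t • (y - x)) = P.eval t)
    (hf' : ∀ x y : Vec K, ∃ P : Polynomial K, ∀ t : K, f' (x + t • (y - x)) = P.eval t)
    (h : ∀ z, f z * f' z = 0) : (∀ z, f z = 0) ∨ ∀ z, f' z = 0 := by
  by_contra hc
  push Not at hc
  obtain ⟨⟨x, hx⟩, y, hy⟩ := hc
  obtain ⟨P, hP⟩ := hf x y
  obtain ⟨Q, hQ⟩ := hf' x y
  have : P * Q = 0 := Polynomial.funext fun t => by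
    rw [Polynomial.eval_mul, ← hP, ← hQ, h, Polynomial.eval_zero]
  rcases mul_eq_zero.1 this with h0 | h0
  · have := hP 0
    simp [h0] at this
    exact hx this
  · have := hQ 1
    simp [h0] at this
    exact hy this

theorem poly_dot (f : Vec K) (x y : Vec K) :
    ∃ P : Polynomial K, ∀ t : K, f ⬝ᵥ (x + t • (y - x)) = P.eval t :=
  ⟨Polynomial.C (f ⬝ᵥ x) + Polynomial.C (f ⬝ᵥ (y - x)) * Polynomial.X, fun t => by
    simp [mul_comm]⟩

theorem poly_hes (δ : Fin 4 → Der K) (c : K) (x y : Vec K) :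
    ∃ P : Polynomial K, ∀ t : K, hes δ c (x + t • (y - x)) = P.eval t :=
  ⟨∑ k, ∑ k', Polynomial.C (δ k' (δ k c))
    * (Polynomial.C (x k) + Polynomial.C (y k - x k) * Polynomial.X)
    * (Polynomial.C (x k') + Polynomial.C (y k' - x k') * Polynomial.X), fun t => by
    simp [hes, Polynomial.eval_finsetSum, mul_comm]⟩

variable {V : Type} [DecidableEq V] [Fintype V]

namespace Gen

variable [CharZero K] (g : Gen V K)

omit [CharZero K] in
theorem sum_addT {F : V → V → Prop} {a c x : V} (hac : a ≠ c) (hax : a ≠ x) (hcx : c ≠ x)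
    {Ψ : V → V → K} (hs : ∀ u v, Ψ u v = Ψ v u) (hΨ : On (addT F a c x) Ψ) {U : V → Vec K}
    (hU : U ∈ g.flex F) : ∑ u, ∑ v, Ψ u v * dl g.p U u v
      = 2 * (Ψ a x * dl g.p U a x + Ψ c x * dl g.p U c x) := by
  rw [← Fintype.sum_prod_type', ← Finset.sum_subset
    (Finset.subset_univ {(a, x), (x, a), (c, x), (x, c)})]
  · rw [Finset.sum_insert (by simp [hac, hax]), Finset.sum_insert (by simp [hac, hcx.symm]),
      Finset.sum_pair (by simp [hcx])]
    simp only [hs x, dl_comm _ _ x]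
    ring
  · rintro ⟨u, v⟩ - huv
    simp only [Finset.mem_insert, Prod.mk.injEq, Finset.mem_singleton, not_or] at huv
    by_cases h0 : Ψ u v = 0
    · simp [h0]
    by_cases e : u = v
    · subst e; simp [g.link_refl F u U hU]
    rcases hΨ u v e h0 with (h | h | h) | (h | h | h)
    · simp [hU.2 u v h]
    · exact absurd h huv.1
    · exact absurd h huv.2.2.1
    · simp [dl_comm _ _ u v, hU.2 v u h]
    · exact absurd h.symm huv.2.1
    · exact absurd h.symm huv.2.2.2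

/-- existence of the stress of a turning rod -/
theorem exists_gam {F : V → V → Prop} {a c x : V} {ρ : K} (hac : a ≠ c) (hax : a ≠ x)
    (hcx : c ≠ x) (h1 : ¬ g.Link F a x) (h2 : ¬ g.Link F c x)
    (h : ∀ U ∈ g.flex F, dl g.p U a x + ρ * dl g.p U c x = 0) : ∃ Γ, g.IsGam F a c x ρ Γ := by
  let Ψ : V → V → K := fun u v => if (u = a ∧ v = x) ∨ (v = a ∧ u = x) then 1
    else if (u = c ∧ v = x) ∨ (v = c ∧ u = x) then ρ else 0
  have hs : ∀ u v, Ψ u v = Ψ v u := fun u v => by simp only [Ψ, or_comm]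
  have hon : On (addT (fun _ _ => False) a c x) Ψ := fun u v _ h0 => by
    by_contra hh
    simp only [addT, false_or, not_or] at hh
    simp [Ψ, hh.1.1, hh.1.2, hh.2.1, hh.2.2] at h0
  have e1 : Ψ a x = 1 := by simp [Ψ]
  have e2 : Ψ c x = ρ := by simp [Ψ, hac.symm, hcx]
  obtain ⟨σ, a1, a2⟩ := g.psi_stress F Ψ hs (fun U hU => by
    rw [g.sum_addT hac hax hcx hs hon (g.flex_anti (fun _ _ h => h.elim) hU), e1, e2, one_mul,
      h U hU, mul_zero])
  refine ⟨σ, a1, ?_, ?_, fun u v huv h0 => ?_⟩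
  · rw [a2 a x hax (fun e => h1 (g.link_of e)) (fun e => h1 (g.link_symm (g.link_of e))), e1]
  · rw [a2 c x hcx (fun e => h2 (g.link_of e)) (fun e => h2 (g.link_symm (g.link_of e))), e2]
  · by_cases f1 : F u v
    · exact Or.inl (Or.inl f1)
    by_cases f2 : F v u
    · exact Or.inr (Or.inl f2)
    rw [a2 u v huv f1 f2] at h0
    rcases hon u v huv h0 with (h | h) | (h | h)
    · exact h.elim
    · exact Or.inl (Or.inr h)
    · exact h.elim
    · exact Or.inr (Or.inr h)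

/-- the relation carried by the stress -/
theorem gam_rel {F : V → V → Prop} {a c x : V} {ρ : K} (hac : a ≠ c) (hax : a ≠ x)
    (hcx : c ≠ x) {Γ : V → V → K} (hΓ : g.Stress Γ) (h1 : Γ a x = 1) (h2 : Γ c x = ρ)
    (hon : On (addT F a c x) Γ) {U : V → Vec K} (hU : U ∈ g.flex F) :
    dl g.p U a x + ρ * dl g.p U c x = 0 := by
  have := g.stress_pair hΓ U
  rw [g.sum_addT hac hax hcx hΓ.1 hon hU, h1, h2] at this
  linear_combination this / 2

/-- the row identity -/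
theorem gam_row {F : V → V → Prop} {a c x : V} {ρ : K} (hac : a ≠ c) (hax : a ≠ x)
    (hcx : c ≠ x) {Γ : V → V → K} (hΓ : g.IsGam F a c x ρ Γ) {U : V → Vec K}
    (hU : U ∈ g.flex F) (v : V) : ∑ u, Γ v u • U u = -(dl g.p U c x • g.grad v ρ) := by
  ext k
  have := g.d_stress hΓ.1 v k U
  rw [g.sum_addT hac hax hcx (fun u v => by rw [hΓ.1.1]) (fun u v huv h0 =>
    hΓ.2.2.2 u v huv fun e => h0 (by rw [e, map_zero])) hU, hΓ.2.1, hΓ.2.2.1] at this
  simp only [Derivation.map_one_eq_zero, zero_mul, zero_add] at this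
  simp only [Pi.neg_apply, Pi.smul_apply, smul_eq_mul, grad]
  linear_combination this / 2

/-- two independent classes: the ratio is constant along all linear images of flexes -/
theorem ppd {F : V → V → Prop} {a c x x' : V} {ρ : K} (hac : a ≠ c) (hax : a ≠ x) (hcx : c ≠ x)
    (hax' : a ≠ x') (hcx' : c ≠ x') (hρ : ρ ≠ 0)
    (h : ∀ U ∈ g.flex F, dl g.p U a x + ρ * dl g.p U c x = 0)
    (h' : ∀ U ∈ g.flex F, dl g.p U a x' + ρ * dl g.p U c x' = 0)
    {U₁ U₂ : V → Vec K} (h1 : U₁ ∈ g.flex F) (h2 : U₂ ∈ g.flex F)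
    (hdet : dl g.p U₁ c x * dl g.p U₂ c x' ≠ dl g.p U₁ c x' * dl g.p U₂ c x) :
    ∀ U ∈ g.flex F, ∀ k l, ∑ v, U v l * g.d v k ρ = 0 := by
  have nl : ∀ y, (∀ U ∈ g.flex F, dl g.p U a y + ρ * dl g.p U c y = 0) → g.Link F a y →
      g.Link F c y := fun y hy e U hU => by
    have := hy U hU
    rw [e U hU, zero_add] at this
    exact (mul_eq_zero.1 this).resolve_left hρ
  have n1 : ¬ g.Link F c x := fun e => hdet (by rw [e _ h1, e _ h2]; ring)
  have n2 : ¬ g.Link F c x' := fun e => hdet (by rw [e _ h1, e _ h2]; ring)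
  obtain ⟨Γ, hΓ⟩ := g.exists_gam hac hax hcx (fun e => n1 (nl x h e)) n1 h
  obtain ⟨Γ', hΓ'⟩ := g.exists_gam hac hax' hcx' (fun e => n2 (nl x' h' e)) n2 h'
  have key : ∀ y (Γ : V → V → K), a ≠ y → c ≠ y → g.IsGam F a c y ρ Γ → ∀ U ∈ g.flex F,
      ∀ U' ∈ g.flex F, ∀ k l, dl g.p U c y * ∑ v, U' v l * g.d v k ρ
        = dl g.p U' c y * ∑ v, U v k * g.d v l ρ := by
    intro y Γ hay hcy hΓ U hU U' hU' k l
    have e1 := fun v => congrFun (g.gam_row hac hay hcy hΓ hU v) k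
    have e2 := fun v => congrFun (g.gam_row hac hay hcy hΓ hU' v) l
    simp only [Finset.sum_apply, Pi.smul_apply, smul_eq_mul, Pi.neg_apply, grad] at e1 e2
    have e3 : ∑ v, U' v l * ∑ u, Γ v u * U u k = ∑ v, U v k * ∑ u, Γ v u * U' u l := by
      simp only [Finset.mul_sum]
      rw [Finset.sum_comm]
      exact Finset.sum_congr rfl fun u _ => Finset.sum_congr rfl fun v _ => by
        rw [hΓ.1.1 v u]; ring
    simp only [e1, e2, mul_neg, Finset.sum_neg_distrib, neg_inj] at e3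
    simp only [Finset.mul_sum]
    refine Eq.trans (Finset.sum_congr rfl fun v _ => by ring) (e3.trans ?_)
    exact Finset.sum_congr rfl fun v _ => by ring
  have z1 : ∀ k l, ∑ v, U₁ v k * g.d v l ρ = 0 := fun k l => by
    have e1 := key x Γ hax hcx hΓ U₁ h1 U₂ h2 k l
    have e2 := key x' Γ' hax' hcx' hΓ' U₁ h1 U₂ h2 k l
    refine (mul_eq_zero.1 ?_).resolve_left (sub_ne_zero.2 hdet)
    linear_combination dl g.p U₁ c x' * e1 - dl g.p U₁ c x * e2
  intro U hU k l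
  have e1 := key x Γ hax hcx hΓ U₁ h1 U hU k l
  have e2 := key x' Γ' hax' hcx' hΓ' U₁ h1 U hU k l
  rw [z1, mul_zero] at e1 e2
  by_contra hh
  exact hdet (by rw [(mul_eq_zero.1 e1).resolve_right hh, (mul_eq_zero.1 e2).resolve_right hh]; ring)

omit [CharZero K] in
/-- the gradient of a ratio defined by a dependency on five points -/
theorem kap {a c u₁ u₂ u₃ : V} {ρ : K} {α : V → K} (hα : g.Dep α) (h1 : α a = 1) (h2 : α c = ρ)
    (hac : a ≠ c) (hc1 : c ≠ u₁) (hc2 : c ≠ u₂) (hc3 : c ≠ u₃) (h12 : u₁ ≠ u₂) (h13 : u₁ ≠ u₃)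
    (h23 : u₂ ≠ u₃) (hs : ∀ y, y ∉ ({a, c, u₁, u₂, u₃} : Finset V) → α y = 0) :
    ∃ φ : Vec K, φ ≠ 0 ∧ ∀ v, g.grad v ρ = α v • φ := by
  obtain ⟨φ, f0, f1, f2, f3⟩ := g.exists_cov4 hc1 hc2 hc3 h12 h13 h23 (-1) 0 0 0
  refine ⟨φ, fun e => by simp [e] at f0, fun v => ?_⟩
  ext k
  have e := congrArg (fun m => φ ⬝ᵥ dv (g.d v k) m) hα
  simp only [dv_sum_smul, dv_zero, dotProduct_zero, Finset.sum_add_distrib, dotProduct_add,
    dotProduct_sum, dotProduct_smul, smul_eq_mul] at e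
  rw [Finset.sum_eq_single c, Finset.sum_eq_single v (fun b _ hb => by simp [g.d_ne hb])
    (by simp), g.d_self, f0, h2] at e
  · simp only [dotProduct_single, mul_one] at e
    simp only [grad, Pi.smul_apply, smul_eq_mul]
    linear_combination -e
  · intro b _ hb
    by_cases hm : b ∈ ({a, c, u₁, u₂, u₃} : Finset V)
    · simp only [Finset.mem_insert, Finset.mem_singleton] at hm
      rcases hm with rfl | rfl | rfl | rfl | rfl
      · simp [h1]
      · exact absurd rfl hb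
      · simp [f1]
      · simp [f2]
      · simp [f3]
    · simp [hs b hm]
  · simp

/-- if the turning point lies in the plane of three vertices, the dependency holds for flexes -/
theorem ppd5 {F : V → V → Prop} {a c x x' : V} {ρ : K} (hac : a ≠ c) (hax : a ≠ x) (hcx : c ≠ x)
    (hax' : a ≠ x') (hcx' : c ≠ x') (hρ : ρ ≠ 0)
    (h : ∀ U ∈ g.flex F, dl g.p U a x + ρ * dl g.p U c x = 0)
    (h' : ∀ U ∈ g.flex F, dl g.p U a x' + ρ * dl g.p U c x' = 0)
    {U₁ U₂ : V → Vec K} (h1 : U₁ ∈ g.flex F) (h2 : U₂ ∈ g.flex F)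
    (hdet : dl g.p U₁ c x * dl g.p U₂ c x' ≠ dl g.p U₁ c x' * dl g.p U₂ c x)
    {u₁ u₂ u₃ : V} {α : V → K} (hα : g.Dep α) (a1 : α a = 1) (a2 : α c = ρ)
    (hc1 : c ≠ u₁) (hc2 : c ≠ u₂) (hc3 : c ≠ u₃) (h12 : u₁ ≠ u₂) (h13 : u₁ ≠ u₃)
    (h23 : u₂ ≠ u₃) (hs : ∀ y, y ∉ ({a, c, u₁, u₂, u₃} : Finset V) → α y = 0) :
    ∀ U ∈ g.flex F, ∑ u, α u • U u = 0 := by
  obtain ⟨φ, f0, f1⟩ := g.kap hα a1 a2 hac hc1 hc2 hc3 h12 h13 h23 hs
  obtain ⟨k, hk⟩ : ∃ k, φ k ≠ 0 := by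
    by_contra hh; push Not at hh; exact f0 (funext hh)
  intro U hU
  ext l
  have e := g.ppd hac hax hcx hax' hcx' hρ h h' h1 h2 hdet U hU k l
  have e2 : ∀ v, g.d v k ρ = α v * φ k := fun v => congrFun (f1 v) k
  simp only [e2] at e
  simp only [Finset.sum_apply, Pi.smul_apply, smul_eq_mul, Pi.zero_apply]
  refine (mul_eq_zero.1 ?_).resolve_right hk
  rw [← e, Finset.sum_mul]
  exact Finset.sum_congr rfl fun v _ => by ring

omit [CharZero K] [Fintype V] in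
/-- two different planes cut a generic line in different points -/
theorem br {T T' : Finset V} (hT : T.card = 3) (hT' : T'.card = 3) (hne : T ≠ T') {a c : V}
    (hac : a ≠ c) (haT : a ∉ T) (hcT : c ∉ T) (haT' : a ∉ T') (hcT' : c ∉ T') {φ φ' : Vec K}
    (h0 : φ ≠ 0) (h0' : φ' ≠ 0) (h : ∀ x ∈ T, φ ⬝ᵥ g.p x = 0) (h' : ∀ x ∈ T', φ' ⬝ᵥ g.p x = 0) :
    (φ ⬝ᵥ g.p a) * (φ' ⬝ᵥ g.p c) ≠ (φ ⬝ᵥ g.p c) * (φ' ⬝ᵥ g.p a) := by
  have cn : ∀ (T : Finset V) (φ : Vec K), T.card = 3 → a ∉ T → φ ≠ 0 →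
      (∀ x ∈ T, φ ⬝ᵥ g.p x = 0) → ∃ s : K, s ≠ 0 ∧ ∀ k, dv (g.d a k) (s • φ) = 0 := by
    intro T φ hT ha h0 h
    obtain ⟨x, y, z, h1, h2, h3, rfl⟩ := Finset.card_eq_three.1 hT
    simp only [Finset.mem_insert, Finset.mem_singleton, not_or] at ha
    exact const_normal (g.d a) (g.li3 h1 h2 h3) (g.d_ne (Ne.symm ha.1)) (g.d_ne (Ne.symm ha.2.1))
      (g.d_ne (Ne.symm ha.2.2)) h0 (h x (by simp)) (h y (by simp)) (h z (by simp))
  have nz : ∀ (T : Finset V) (φ : Vec K) (y : V), T.card = 3 → y ∉ T → φ ≠ 0 →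
      (∀ x ∈ T, φ ⬝ᵥ g.p x = 0) → φ ⬝ᵥ g.p y ≠ 0 := by
    intro T φ y hT hy h0 h e
    exact h0 (g.cov_zero (insert y T) (by rw [Finset.card_insert_of_notMem hy]; omega) φ
      fun b hb => (Finset.mem_insert.1 hb).elim (fun e' => e' ▸ e) (h b))
  obtain ⟨s, hs, hs'⟩ := cn T φ hT haT h0 h
  obtain ⟨t, ht, ht'⟩ := cn T' φ' hT' haT' h0' h'
  intro e
  have c1 : ∀ (ψ : Vec K), (∀ k, dv (g.d a k) ψ = 0) → ∀ k, g.d a k (ψ ⬝ᵥ g.p c) = 0 :=
    fun ψ hψ k => by rw [d_dot, hψ, g.d_ne hac.symm]; simp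
  have z := g.const_cov_zero a (f := ((t • φ') ⬝ᵥ g.p c) • (s • φ) - ((s • φ) ⬝ᵥ g.p c) • (t • φ'))
    (fun k => by
      ext i
      have b1 := congrFun (hs' k) i
      have b2 := congrFun (ht' k) i
      simp only [dv] at b1 b2
      simp only [dv, Pi.sub_apply, Pi.smul_apply (_ ⬝ᵥ _), smul_eq_mul, map_sub, d_mul, b1, b2,
        c1 _ hs', c1 _ ht']
      simp)
    (by simp only [sub_dotProduct, smul_dotProduct, smul_eq_mul]; linear_combination s * t * e)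
  obtain ⟨y, hy, hy'⟩ : ∃ y ∈ T', y ∉ T := by
    by_contra hh
    push Not at hh
    exact hne (Finset.eq_of_subset_of_card_le hh (by omega)).symm
  have z2 := congrArg (fun m => m ⬝ᵥ g.p y) z
  simp only [sub_dotProduct, smul_dotProduct, smul_eq_mul, h' y hy, mul_zero, sub_zero,
    zero_dotProduct, mul_eq_zero, hs, ht, false_or] at z2
  exact z2.elim (nz T' φ' c hT' hcT' h0' h') (nz T φ y hT hy' h0 h)

end Gen

end Pool.Agent.Dress
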