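import Pool.Agent.Lib.MP_d237f6_co.DR.Gam

/-! One class and a neighbour of degree at most six; four or five vertices in one class. -/

set_option autoImplicit false

namespace Pool.Agent.Dress

open Matrix Module Classical

variable {K : Type} [Field K] [CharZero K] {V : Type} [DecidableEq V] [Fintype V]
  {Λ : Type} [AddCommGroup Λ] [Module K Λ] [FiniteDimensional K Λ]

section Aux

omit [CharZero K] [FiniteDimensional K Λ]

theorem K1_qm_comm (x y : Λ) : qm (K := K) x y = qm y x := by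
  ext f; simp only [qm, mul_comm]

theorem K1_qm_mem {U W : Submodule K Λ} {x y : Λ} (hx : x ∈ U) (hy : y ∈ W) :
    qm x y ∈ qp U W := Submodule.subset_span ⟨x, hx, y, hy, rfl⟩

theorem K1_qp_le {U W : Submodule K Λ} {S : Submodule K (Dual K Λ → K)}
    (h : ∀ x ∈ U, ∀ y ∈ W, qm x y ∈ S) : qp U W ≤ S :=
  Submodule.span_le.2 (by rintro _ ⟨x, hx, y, hy, rfl⟩; exact h x hx y hy)

theorem K1_qp_mono {U W U' W' : Submodule K Λ} (h1 : U ≤ U') (h2 : W ≤ W') :
    qp U W ≤ qp U' W' := K1_qp_le fun _ hx _ hy => K1_qm_mem (h1 hx) (h2 hy)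

theorem K1_qp_swap {U W : Submodule K Λ} : qp U W ≤ qp W ⊤ :=
  K1_qp_le fun x _ y hy => by rw [K1_qm_comm]; exact K1_qm_mem hy trivial

theorem K1_qs_le {ι : Type} {x : ι → Λ} {N : Finset ι} {S : Submodule K (Dual K Λ → K)}
    (h : ∀ i ∈ N, qm (x i) (x i) ∈ S) : qs x N ≤ S :=
  Submodule.span_le.2 (by rintro _ ⟨i, hi, rfl⟩; exact h i hi)

theorem K1_qp_span {x : Λ} {T : Set Λ} {S : Submodule K (Dual K Λ → K)}
    (h : ∀ y ∈ T, qm x y ∈ S) : qp (K ∙ x) (Submodule.span K T) ≤ S := by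
  refine K1_qp_le fun a ha y hy => ?_
  obtain ⟨c, rfl⟩ := Submodule.mem_span_singleton.1 ha
  have e : qm (c • x) y = c • qm (K := K) x y := by
    ext f; simp only [qm, map_smul, smul_eq_mul, Pi.smul_apply, mul_assoc]
  rw [e]
  refine S.smul_mem c ?_
  induction hy using Submodule.span_induction with
  | mem z hz => exact h z hz
  | zero =>
    have : qm (K := K) x 0 = 0 := by ext f; simp [qm]
    rw [this]; exact S.zero_mem
  | add a b ha hb h1 h2 =>
    have : qm (K := K) x (a + b) = qm x a + qm x b := by ext f; simp [qm, mul_add]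
    rw [this]
    exact S.add_mem (h1 (by ext f; simp [qm, mul_assoc])) (h2 (by ext f; simp [qm, mul_assoc]))
  | smul r a ha h1 =>
    have : qm (K := K) x (r • a) = r • qm x a := by ext f; simp [qm, mul_left_comm]
    rw [this]
    exact S.smul_mem r (h1 (by ext f; simp [qm, mul_assoc]))

variable {g : Gen V K} (q : QS g Λ)

omit [Fintype V] in
theorem K1_ev_mem {A : Finset V} {a : V} (h : a ∈ A) : q.ev a ∈ q.sp A :=
  Submodule.subset_span ⟨a, h, rfl⟩

omit [Fintype V] in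
theorem K1_sp_le {A : Finset V} {U : Submodule K Λ} (h : ∀ a ∈ A, q.ev a ∈ U) : q.sp A ≤ U :=
  Submodule.span_le.2 (by rintro _ ⟨a, ha, rfl⟩; exact h a ha)

omit [Fintype V] in
theorem K1_sp_dim (A : Finset V) : finrank K (q.sp A) ≤ A.card := by
  have h := finrank_span_finset_le_card (R := K) (A.image q.ev)
  rw [Set.finrank, Finset.coe_image] at h
  exact h.trans Finset.card_image_le

omit [Fintype V] in
theorem K1_ev_ne (i : V) : q.ev i ≠ 0 := fun h => by
  have := q.hpr i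
  rw [h, map_zero] at this
  exact g.coord_ne i 0 (by rw [← this]; rfl)

end Aux

variable {g : Gen V K} (q : QS g Λ)

omit [CharZero K] [Fintype V] [FiniteDimensional K Λ] in
theorem K1_base_le {A : Finset V} {W U : Submodule K Λ} (h : q.Cls A W) (h1 : W ≤ U)
    (h2 : q.sp A ≤ U) : qp W (q.sp A) ⊔ qs q.ev A ≤ q.R ⊓ qp U U :=
  sup_le (le_inf h.wy (K1_qp_mono h1 h2)) (le_inf h.sq
    (K1_qs_le fun _ ha => K1_qm_mem (h2 (K1_ev_mem q ha)) (h2 (K1_ev_mem q ha))))

omit [CharZero K] [Fintype V] [FiniteDimensional K Λ] in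
theorem K1_base_ker (hQ : StQ K Λ) (A : Finset V) (W : Submodule K Λ) :
    qp W (q.sp A) ⊔ qs q.ev A ≤ LinearMap.ker (res (q.sp A) (q.sp A)) :=
  sup_le (K1_qp_swap.trans (hQ.ker2 _ _ le_rfl))
    ((K1_qs_le fun _ ha => K1_qm_mem (K1_ev_mem q ha) (K1_ev_mem q ha)).trans (hQ.ker1 _ _))

omit [CharZero K] [Fintype V] in
theorem K1_kw (hQ : StQ K Λ) (hB : q.StQB) : q.StKW := by
  intro A W h
  have hb := hB.base A W h
  have hd := Submodule.finrank_sup_add_finrank_inf_eq W (q.sp A)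
  rw [h.dimW, h.dimY] at hd
  have := hQ.fin (W ⊔ q.sp A) (W ⊔ q.sp A)
  have hle := K1_base_le q h (U := W ⊔ q.sp A) le_sup_left le_sup_right
  have h1 := Submodule.finrank_mono hle
  refine ⟨fun hbd => ?_, fun x hx hx0 hxR hbd => ?_⟩
  · unfold QS.Bd at hbd
    omega
  · unfold QS.Bd at hbd
    have h0 : finrank K ↥(W ⊓ q.sp A) = 0 := by omega
    have hbot := Submodule.finrank_eq_zero.1 h0
    have hxY : x ∉ q.sp A := fun hy => hx0 (by
      have : x ∈ W ⊓ q.sp A := ⟨hx, hy⟩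
      rwa [hbot, Submodule.mem_bot] at this)
    have h2 := hQ.rc (q.sp A) (q.sp A) Unit (fun _ => x) Finset.univ (fun _ _ => hxY)
      (fun c hc i _ => by
        by_contra hne
        simp only [Finset.univ_unique, Finset.sum_singleton] at hc
        exact hxY ((Submodule.smul_mem_iff _ hne).1 hc))
    have h3 := finrank_layer (q.R ⊓ qp (W ⊔ q.sp A) (W ⊔ q.sp A)) _
      (qs (fun _ : Unit => x) Finset.univ) (res (q.sp A) (q.sp A)) hle
      (K1_qs_le fun _ _ => ⟨hxR, K1_qm_mem (Submodule.mem_sup_left hx) (Submodule.mem_sup_left hx)⟩)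
      (K1_base_ker q hQ A W)
    simp only [Finset.univ_unique, Finset.card_singleton] at h2 h3
    omega

omit [CharZero K] [Fintype V] in
theorem K1_count (hQ : StQ K Λ) (hB : q.StQB) {A N : Finset V} {W : Submodule K Λ} {i : V}
    (h : q.Cls A W) (hi : i ∈ A) (hW : W ≤ q.sp (insert i N))
    (hN : ∀ u ∈ N, qm (q.ev i) (q.ev u) ∈ q.R) (hbd : ∀ U, W ≤ U → q.Bd U 8)
    (T : Submodule K (Dual K Λ → K)) (hT : T ≤ q.R)
    (hT' : T ≤ qp (q.sp N ⊔ q.sp A) (q.sp N ⊔ q.sp A)) :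
    21 + finrank K (T.map (res (q.sp A) (q.sp A))) ≤ 3 * finrank K ↥(q.sp N ⊔ q.sp A) := by
  set Y := q.sp A with hY
  set E := q.sp (insert i N) with hE
  set U := q.sp N ⊔ Y with hU
  have hiY : q.ev i ∈ Y := K1_ev_mem q hi
  have hEU : E ≤ U := K1_sp_le q fun a ha => by
    rcases Finset.mem_insert.1 ha with rfl | ha
    · exact Submodule.mem_sup_right hiY
    · exact Submodule.mem_sup_left (K1_ev_mem q ha)
  have hWU : W ≤ U := hW.trans hEU
  have hFU : W ⊔ Y ≤ U := sup_le hWU le_sup_right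
  have hUE : U ≤ E ⊔ (W ⊔ Y) :=
    sup_le ((K1_sp_le q fun a ha => K1_ev_mem q (Finset.mem_insert_of_mem ha)).trans le_sup_left)
      (le_sup_right.trans le_sup_right)
  have hb := hB.base A W h
  have hd := Submodule.finrank_sup_add_finrank_inf_eq W Y
  rw [h.dimW, h.dimY] at hd
  have hfu := Submodule.finrank_mono hFU
  have hue := Submodule.finrank_mono hUE
  have := hQ.fin U U
  have hle := K1_base_le q h hWU (le_sup_right : Y ≤ U)
  have hiK : (K ∙ q.ev i) ≤ Y := (Submodule.span_singleton_le_iff_mem _ _).2 hiY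
  have hle2 : qp (K ∙ q.ev i) E ≤ q.R ⊓ qp U U := by
    refine le_inf (K1_qp_span ?_) (K1_qp_mono (hiK.trans le_sup_right) hEU)
    rintro _ ⟨a, ha, rfl⟩
    rcases Finset.mem_insert.1 (Finset.mem_coe.1 ha) with rfl | ha
    · exact h.sq (Submodule.subset_span ⟨a, hi, rfl⟩)
    · exact hN a ha
  have hle3 := sup_le hle hle2
  have : FiniteDimensional K ↥((qp W Y ⊔ qs q.ev A) ⊔ qp (K ∙ q.ev i) E) :=
    Submodule.finiteDimensional_of_le hle3
  have l2 := finrank_layer ((qp W Y ⊔ qs q.ev A) ⊔ qp (K ∙ q.ev i) E) _ _ (res (W ⊔ Y) ⊥)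
    le_sup_left le_sup_right
    (((K1_base_le q h le_sup_left le_sup_right).trans inf_le_right).trans (hQ.ker1 _ _))
  have r2 := hQ.ra (W ⊔ Y) ⊥ (K ∙ q.ev i) E 1 (finrank K U - finrank K ↥(W ⊔ Y)) bot_le
    (hiK.trans le_sup_right)
    (by rw [sup_bot_eq, finrank_bot, finrank_span_singleton (K1_ev_ne q i)]) (by omega)
  have l1 := finrank_layer (q.R ⊓ qp U U) _ T (res Y Y) hle3 (le_inf hT hT')
    (sup_le (K1_base_ker q hQ A W) ((K1_qp_mono hiK le_top).trans (hQ.ker2 _ _ le_rfl)))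
  have hbU := hbd U hWU
  unfold QS.Bd at hbU
  rw [← hY] at hb l1
  omega

omit [CharZero K] [Fintype V] in
theorem K1_k1 (hQ : StQ K Λ) (hB : q.StQB) : q.StK1 := by
  intro A N W i h hi _ hc hW hNR hN hbd
  have hmem : ∀ u ∈ N, q.ev u ∈ q.sp N ⊔ q.sp A := fun u hu =>
    Submodule.mem_sup_left (K1_ev_mem q hu)
  have hsq : qs q.ev N ≤ qp (q.sp N ⊔ q.sp A) (q.sp N ⊔ q.sp A) :=
    K1_qs_le fun u hu => K1_qm_mem (hmem u hu) (hmem u hu)
  have c1 := K1_count q hQ hB h hi hW hN hbd _ hNR hsq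
  have r1 := hQ.rd (q.sp A) V q.ev N
  change finrank K ↥(q.sp N ⊔ q.sp A) ≤ _ at r1
  rw [h.dimY] at r1
  have d1 := Submodule.finrank_add_le_finrank_add_finrank (q.sp N) (q.sp A)
  have d2 := K1_sp_dim q N
  rw [h.dimY] at d1
  have hN5 : N.card = 5 := by omega
  have key : ∀ j ∈ N, q.ev j ∉ q.sp (N.erase j) ⊔ q.sp A := fun j hj hm => by
    have e1 : q.sp N ⊔ q.sp A ≤ q.sp (N.erase j) ⊔ q.sp A := by
      refine sup_le (K1_sp_le q fun a ha => ?_) le_sup_right
      by_cases e : a = j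
      · rwa [e]
      · exact Submodule.mem_sup_left (K1_ev_mem q (Finset.mem_erase.2 ⟨e, ha⟩))
    have e2 := Submodule.finrank_mono e1
    have e3 := Submodule.finrank_add_le_finrank_add_finrank (q.sp (N.erase j)) (q.sp A)
    have e4 := K1_sp_dim q (N.erase j)
    rw [Finset.card_erase_of_mem hj] at e4
    rw [h.dimY] at e3
    omega
  refine ⟨hN5, Finset.disjoint_left.2 fun j hj hjA =>
    key j hj (Submodule.mem_sup_right (K1_ev_mem q hjA)), ?_⟩
  rintro x hx y hy z hz hxy hxz hyz ⟨t1, t2, t3⟩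
  have hind : ∀ c : V → K, ∑ i ∈ N, c i • q.ev i ∈ q.sp A → ∀ i ∈ N, c i = 0 := by
    intro c hcs j hj
    by_contra hne
    refine key j hj ((Submodule.smul_mem_iff _ hne).1 ?_)
    rw [← Finset.add_sum_erase N _ hj] at hcs
    have e : ∑ u ∈ N.erase j, c u • q.ev u ∈ q.sp (N.erase j) :=
      Submodule.sum_mem _ fun u hu => Submodule.smul_mem _ _ (K1_ev_mem q hu)
    have := Submodule.sub_mem _ (Submodule.mem_sup_right (S := q.sp (N.erase j)) hcs)
      (Submodule.mem_sup_left (T := q.sp A) e)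
    rwa [add_sub_cancel_right] at this
  have r3 := hQ.re (q.sp A) V q.ev N x y z hind hx hy hz hxy hxz hyz
  have c2 := K1_count q hQ hB h hi hW hN hbd (qs q.ev N ⊔ Submodule.span K
      {qm (q.ev x) (q.ev y), qm (q.ev x) (q.ev z), qm (q.ev y) (q.ev z)})
    (sup_le hNR (Submodule.span_le.2 (by
      rintro _ (rfl | rfl | rfl)
      exacts [t1, t2, t3])))
    (sup_le hsq (Submodule.span_le.2 (by
      rintro _ (rfl | rfl | rfl)
      exacts [K1_qm_mem (hmem x hx) (hmem y hy), K1_qm_mem (hmem x hx) (hmem z hz),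
        K1_qm_mem (hmem y hy) (hmem z hz)])))
  omega

set_option linter.unusedSectionVars false in
theorem K1_thm (g : Gen V K) (q : QS g Λ) (hQ : StQ K Λ) (hB : q.StQB) : q.StK1 ∧ q.StKW :=
  ⟨K1_k1 q hQ hB, K1_kw q hQ hB⟩

end Pool.Agent.Dress
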