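import Pool.Agent.Lib.MP_d237f6_co.DR.Gam

/-! First order changes of the lifted configuration lie in the shared stress kernel. -/

set_option autoImplicit false

namespace Pool.Agent.Dress

open Matrix Module Classical

variable {K : Type} [Field K] [CharZero K] {V : Type} [DecidableEq V] [Fintype V]

/-- the row of a movable vertex -/
theorem Kh0_real {I : Type} [Fintype I] (P : I → Vec K) (Ω : I → I → K)
    (hs : ∀ i j, Ω i j = Ω j i) (hP : ∀ i, ∑ j, Ω i j • P j = 0) (F F' : I → K)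
    (hF : ∀ i, ∑ j, Ω i j * F j = 0) (hF' : ∀ i, ∑ j, Ω i j * F' j = 0) (h : I → Vec K)
    (hh : ∀ i j, Ω i j ≠ 0 → dl P h i j = F i * F' j + F' i * F j) (δ : Der K) (v : I)
    (k : Fin 4) (hv : dv δ (P v) = Pi.single k 1) (hn : ∀ j, j ≠ v → dv δ (P j) = 0) :
    ∑ j, Ω v j * h j k = 0 := by
  have h1 : ∀ i, ∑ j, δ (Ω i j) • P j = -(Ω i v • (Pi.single k 1 : Vec K)) := by
    intro i
    have := congrArg (dv δ) (hP i)
    rw [dv_sum_smul, dv_zero, Finset.sum_add_distrib] at this
    rw [eq_neg_iff_add_eq_zero, ← this, ← hv]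
    congr 1
    symm
    refine Finset.sum_eq_single v (fun j _ hj => ?_) (fun hj => absurd (Finset.mem_univ v) hj)
    rw [hn j hj, smul_zero]
  have h2 := pair P (fun i j => δ (Ω i j)) (fun i j => by rw [hs]) h
  simp only [h1, dotProduct_neg, dotProduct_smul, dotProduct_single, mul_one, smul_eq_mul,
    Finset.sum_neg_distrib] at h2
  have h3 : ∀ G G' : I → K, (∀ i, ∑ j, Ω i j * G j = 0) → (∀ i, ∑ j, Ω i j * G' j = 0) →
      ∑ i, ∑ j, δ (Ω i j) * (G i * G' j) = 0 := by
    intro G G' hG hG'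
    have e1 : ∀ i, ∑ j, δ (Ω i j) * (G i * G' j) = -∑ j, Ω j i * G i * δ (G' j) := by
      intro i
      have := congrArg (fun t => G i * δ t) (hG' i)
      simp only [map_sum, d_mul, map_zero, mul_zero, Finset.mul_sum, mul_add,
        Finset.sum_add_distrib] at this
      rw [eq_neg_iff_add_eq_zero, ← this]
      congr 1
      · exact Finset.sum_congr rfl fun j _ => by ring
      · exact Finset.sum_congr rfl fun j _ => by rw [hs j i]; ring
    simp only [e1, Finset.sum_neg_distrib]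
    rw [Finset.sum_comm]
    simp only [← Finset.sum_mul, hG, zero_mul, Finset.sum_const_zero, neg_zero]
  have h4 : ∑ i, ∑ j, δ (Ω i j) * dl P h i j = 0 := by
    have e : ∀ i j, δ (Ω i j) * dl P h i j
        = δ (Ω i j) * (F i * F' j) + δ (Ω i j) * (F' i * F j) := by
      intro i j
      by_cases h0 : Ω i j = 0
      · simp [h0]
      · rw [hh i j h0, mul_add]
    simp only [e, Finset.sum_add_distrib, h3 F F' hF hF', h3 F' F hF' hF, add_zero]
  rw [h4] at h2
  have h5 : ∑ j, Ω v j * h j k = ∑ j, Ω j v * h j k :=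
    Finset.sum_congr rfl fun j _ => by rw [hs]
  rw [h5]
  linear_combination h2 / 2

omit [CharZero K] in
/-- the row of a vertex whose neighbours are joined to a vertex in a coordinate position -/
theorem Kh0_virt {I : Type} [Fintype I] (P : I → Vec K) (r : I → K)
    (hP : ∑ j, r j • P j = 0) (F F' : I → K)
    (hF : ∑ j, r j * F j = 0) (hF' : ∑ j, r j * F' j = 0) (h : I → Vec K) (w : I) (l : Fin 4)
    (hw : P w = Pi.single l 1)
    (hh : ∀ j, r j ≠ 0 → dl P h j w = F j * F' w + F' j * F w) :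
    ∑ j, r j * h j l = 0 := by
  have e : ∀ j, r j * h j l = r j * F j * F' w + r j * F' j * F w - h w ⬝ᵥ (r j • P j) := by
    intro j
    by_cases h0 : r j = 0
    · simp [h0]
    · have := hh j h0
      rw [dl, hw, dotProduct_single, mul_one] at this
      rw [dotProduct_smul, smul_eq_mul]
      linear_combination r j * this
  simp only [e, Finset.sum_sub_distrib, Finset.sum_add_distrib, ← Finset.sum_mul, hF, hF',
    ← dotProduct_sum, hP, dotProduct_zero, zero_mul, add_zero, sub_zero]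

omit [CharZero K] in
theorem Kh0_row (g : Gen V K) {ω : V → V → K} {D : Finset V}
    {Ω : V ⊕ V × Fin 4 → V ⊕ V × Fin 4 → K} (hΩ : g.Sh ω D Ω) (f : Dual K (g.Lam ω D))
    (i : V ⊕ V × Fin 4) : ∑ j, Ω i j * f (g.eh ω D j) = 0 := by
  have h1 : (g.L0 ω D).mkQ (Ω i) = 0 := by
    rw [Submodule.mkQ_apply, Submodule.Quotient.mk_eq_zero]
    exact Submodule.subset_span ⟨Ω, i, hΩ, rfl⟩
  have h2 : ∑ j, Ω i j • g.eh ω D j = (g.L0 ω D).mkQ (Ω i) := by
    simp only [Gen.eh, ← map_smul, ← map_sum]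
    congr 1
    ext j
    simp [Finset.sum_apply, Pi.single_apply]
  have h3 := congrArg f (h2.trans h1)
  simpa only [map_sum, map_smul, smul_eq_mul, map_zero] using h3

theorem Kh0_thm (g : Gen V K) : g.StKh0 := by
  intro ω D f f' h hh
  have key : ∀ Ω, g.Sh ω D Ω → ∀ i, ∑ j, Ω i j • h j = 0 := by
    intro Ω hΩ i
    ext k
    simp only [Finset.sum_apply, Pi.smul_apply, smul_eq_mul, Pi.zero_apply]
    rcases i with v | ⟨w, l⟩
    · refine Kh0_real g.Ph Ω hΩ.1 hΩ.2.2 (fun i => f (g.eh ω D i)) (fun i => f' (g.eh ω D i))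
        (Kh0_row g hΩ f) (Kh0_row g hΩ f') h (fun i j h0 => hh i j (hΩ.2.1 i j h0)) (g.d v k)
        (Sum.inl v) k (g.d_self v k) ?_
      rintro (u | jk) hj
      · exact g.d_ne (fun e : u = v => hj (by rw [e])) k
      · exact dv_single _ _
    · refine Kh0_virt g.Ph (Ω (Sum.inr (w, l))) (hΩ.2.2 _) (fun i => f (g.eh ω D i))
        (fun i => f' (g.eh ω D i)) (Kh0_row g hΩ f _) (Kh0_row g hΩ f' _) h (Sum.inr (w, k)) k
        rfl ?_
      rintro (u | jk) h0
      · have h1 : w ∈ D ∧ u ∈ nb ω w := hΩ.2.1 _ _ h0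
        exact hh _ _ h1
      · exact (hΩ.2.1 _ _ h0).elim
  refine ⟨(g.L0 ω D).liftQ (Fintype.linearCombination K h) (Submodule.span_le.2 ?_), fun i => ?_⟩
  · rintro _ ⟨Ω, i, hΩ, rfl⟩
    exact key Ω hΩ i
  · simp [Gen.eh]

end Pool.Agent.Dress
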