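import Pool.Agent.Lib.MP_d237f6_co.DR.Gam

/-! Independence of the loop conditions at vertices of second type. -/

set_option autoImplicit false

namespace Pool.Agent.Dress

open Matrix Module Classical

variable {K : Type} [Field K] [CharZero K] {V : Type} [DecidableEq V] [Fintype V]

theorem Kh1_thm (g : Gen V K) (h : g.StT2) : g.StKh1 := by
  rintro G ω D ⟨⟨w, hw⟩, hD, hI⟩ t
  have st : g.Stress ω := (hD w hw).bad.1.1
  have h0 : ∀ j ∈ D, ω j j = 0 := fun j hj => (h G ω j (hD j hj)).1
  obtain ⟨U, hU⟩ := res1 g.p (fun u v => adj ω u v ∨ u = v)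
    (fun i j => if i = j ∧ i ∈ D then -2 * t i else 0)
    (fun i j => by
      by_cases e : i = j
      · rw [e]
      · simp [e, Ne.symm e]) fun Ω h1 h2 h3 => by
      obtain ⟨s, rfl⟩ := (hD w hw).ctx.circ ω Ω (hD w hw).bad ⟨h1, h3⟩ fun u v e e' =>
        (h2 u v e').imp (·.resolve_right e) (·.resolve_right e.symm)
      refine Finset.sum_eq_zero fun i _ => Finset.sum_eq_zero fun j _ => ?_
      split_ifs with e
      · obtain ⟨rfl, e⟩ := e
        simp [h0 i e]
      · simp
  have h1 : ∀ a b, ω a b ≠ 0 → dl g.p U a b = 0 := fun a b e => by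
    rw [hU a b ((ne_or_eq a b).imp_left fun e' => ⟨e', e⟩), if_neg]
    rintro ⟨rfl, e'⟩
    exact e (h0 a e')
  have h2 : ∀ j ∈ D, ∃ M : Mat K, (∀ a ∈ nb ω j, M *ᵥ g.p a = U a) ∧
      bil M (g.p j) (g.p j) = t j := fun j hj => by
    have c5 := (hD j hj).deg
    have h3 : ∑ u, ω j u • U u = 0 := funext fun k => by
      have := g.d_stress st j k U
      rw [Finset.sum_eq_zero fun a _ => Finset.sum_eq_zero fun b _ => by
        by_cases e : ω a b = 0
        · rw [e, map_zero, zero_mul]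
        · rw [h1 a b e, mul_zero]] at this
      simpa using this
    obtain ⟨a₀, ha₀⟩ := Finset.card_pos.1 (show 0 < (nb ω j).card by omega)
    obtain ⟨M, hM⟩ := g.exists_mat4 ((nb ω j).erase a₀)
      (by rw [Finset.card_erase_of_mem ha₀]; omega) U
    have h4 : ∀ a ∈ nb ω j, M *ᵥ g.p a = U a := fun a ha => by
      by_cases e : a = a₀
      swap
      · exact hM a (Finset.mem_erase.2 ⟨e, ha⟩)
      have h5 : ∑ u, ω j u • (M *ᵥ g.p u - U u) = 0 := by
        simp only [smul_sub, Finset.sum_sub_distrib, h3, g.dep_mulVec (st.2 j) M, sub_zero]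
      rw [Finset.sum_eq_single a (fun u _ hu => ?_) (by simp)] at h5
      · exact sub_eq_zero.1 ((smul_eq_zero.1 h5).resolve_left (mem_nb.1 ha).2)
      · by_cases e' : ω j u = 0
        · rw [e', zero_smul]
        · rw [hM u (Finset.mem_erase.2 ⟨e ▸ hu, mem_nb.2 ⟨fun e'' => e' (e'' ▸ h0 j hj), e'⟩⟩),
            sub_self, smul_zero]
    have h5 := g.cov_zero (nb ω j) (by omega) (U j + g.p j ᵥ* M) fun a ha => by
      rw [add_dotProduct, ← bil_eq, bil_eq', h4 a ha]
      exact h1 j a (mem_nb.1 ha).2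
    have h6 := hU j j (.inr rfl)
    have h7 := congrArg (· ⬝ᵥ g.p j) h5
    simp only [add_dotProduct, ← bil_eq, zero_dotProduct] at h7
    rw [if_pos ⟨rfl, hj⟩, dl] at h6
    exact ⟨M, h4, by linear_combination h7 - h6 / 2⟩
  choose! M hM using h2
  refine ⟨fun v => if v ∈ D then 0 else U v, ⟨fun v => ?_, fun u v e => ?_⟩, M, fun j hj =>
    ⟨fun a ha => ?_, (hM j hj).2⟩⟩
  · have := hU v v (.inr rfl)
    by_cases e : v ∈ D
    · simp [e]
    · simp only [dl, e, and_false, if_false] at this ⊢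
      linear_combination this / 2
  · simpa [dl, e.2.1, e.2.2] using h1 u v e.1.2
  · rw [(hM j hj).1 a ha]
    exact (if_neg fun e => hI j hj a e ha).symm

end Pool.Agent.Dress
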