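import Pool.Agent.Lib.MP_d237f6_co.DR.KhA1

/-! The dimension bound for the lifted configuration. -/

set_option autoImplicit false

namespace Pool.Agent.Dress

open Matrix Module Classical

variable {K : Type} [Field K] [CharZero K] {V : Type} [DecidableEq V] [Fintype V]

section Aux

variable (g : Gen V K) (ω : V → V → K) (D : Finset V)

omit [CharZero K] in
theorem KhA_pr (i : V ⊕ V × Fin 4) : (g.qh ω D).pr (g.eh ω D i) = g.Ph i := by
  change Fintype.linearCombination K g.Ph (Pi.single i 1) = _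
  simp

omit [CharZero K] in
theorem KhA_Eh_symm {i j : V ⊕ V × Fin 4} (h : g.Eh ω D i j) : g.Eh ω D j i := by
  rcases i with u | u <;> rcases j with v | v
  · exact ⟨h.2.1, h.1, g.link_symm h.2.2⟩
  · exact h
  · exact h
  · exact h

omit [CharZero K] in
theorem KhA_row {Ω : V ⊕ V × Fin 4 → V ⊕ V × Fin 4 → K} (h : g.Sh ω D Ω) (i : V ⊕ V × Fin 4)
    (f : Dual K (g.Lam ω D)) : ∑ j, Ω i j * f (g.eh ω D j) = 0 := by
  have h1 : (g.L0 ω D).mkQ (Ω i) = 0 :=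
    (Submodule.Quotient.mk_eq_zero _).2 (Submodule.subset_span ⟨Ω, i, h, rfl⟩)
  rw [pi_eq_sum_univ' (Ω i), map_sum] at h1
  have := congrArg f h1
  rw [map_sum, map_zero] at this
  rw [← this]
  exact Finset.sum_congr rfl fun j _ => by rw [map_smul, map_smul, smul_eq_mul]; rfl

omit [CharZero K] in
theorem KhA_onR {φ ψ : (Dual K (g.Lam ω D) → K) →ₗ[K] K}
    (h : ∀ i j, g.Eh ω D i j → φ (qm (g.eh ω D i) (g.eh ω D j)) = ψ (qm (g.eh ω D i) (g.eh ω D j))) :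
    ∀ r ∈ (g.qh ω D).R, φ r = ψ r := fun _ hr =>
  LinearMap.eqOn_span (by rintro _ ⟨i, j, hij, rfl⟩; exact h i j hij) hr

theorem KhA_polar (h0 : g.StKh0) (f f' : Dual K (g.Lam ω D)) : ∃ H : g.Lam ω D →ₗ[K] Vec K,
    ∀ r ∈ (g.qh ω D).R, KhA_T (g.qh ω D).pr H r = KhA_pol f f' r := by
  obtain ⟨h, hh⟩ := res1 g.Ph (g.Eh ω D)
    (fun i j => f (g.eh ω D i) * f' (g.eh ω D j) + f' (g.eh ω D i) * f (g.eh ω D j))
    (fun i j => by ring) (fun Ω h1 h2 h3 => by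
      have hS : g.Sh ω D Ω := ⟨h1, fun i j h => (h2 i j h).elim id (KhA_Eh_symm g ω D), h3⟩
      refine Finset.sum_eq_zero fun i _ => ?_
      have e1 := KhA_row g ω D hS i f
      have e2 := KhA_row g ω D hS i f'
      have e3 : ∑ j, Ω i j * (f (g.eh ω D i) * f' (g.eh ω D j) + f' (g.eh ω D i) * f (g.eh ω D j))
          = f (g.eh ω D i) * ∑ j, Ω i j * f' (g.eh ω D j)
            + f' (g.eh ω D i) * ∑ j, Ω i j * f (g.eh ω D j) := by
        rw [Finset.mul_sum, Finset.mul_sum, ← Finset.sum_add_distrib]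
        exact Finset.sum_congr rfl fun j _ => by ring
      rw [e3, e1, e2]; ring)
  obtain ⟨H, hH⟩ := h0 ω D f f' h hh
  refine ⟨H, KhA_onR g ω D fun i j hij => ?_⟩
  rw [KhA_T_qm, KhA_pol_qm, hH, hH, KhA_pr, KhA_pr]
  exact hh i j hij

/-- a flex with its matrices, lifted -/
structure KhA_L (U : V → Vec K) (M : V → Mat K) (H : g.Lam ω D →ₗ[K] Vec K) : Prop where
  real : ∀ v, H ((g.qh ω D).ev v) = U v
  virt : ∀ j k, H (g.eh ω D (Sum.inr (j, k))) = -M j k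
  ann : ∀ r ∈ (g.qh ω D).R, KhA_T (g.qh ω D).pr H r = 0

omit [CharZero K] in
theorem KhA_lift (h0 : g.StKh0) {U : V → Vec K} (hU : U ∈ g.flex (delS (adj ω) D))
    (M : V → Mat K) (hM : ∀ j ∈ D, ∀ a ∈ nb ω j, M j *ᵥ g.p a = U a) :
    ∃ H, KhA_L g ω D U M H := by
  have key : ∀ (u : V) (jk : V × Fin 4), jk.1 ∈ D → u ∈ nb ω jk.1 →
      dl g.Ph (Sum.elim U fun jk : V × Fin 4 => -M jk.1 jk.2) (Sum.inl u) (Sum.inr jk) = 0 := by
    intro u jk h1 h2
    have := congrFun (hM jk.1 h1 u h2) jk.2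
    simp only [dl, Gen.Ph, Sum.elim_inl, Sum.elim_inr, dotProduct_single, mul_one, neg_dotProduct]
    rw [← this]
    exact add_neg_cancel _
  have hd : ∀ i j, g.Eh ω D i j →
      dl g.Ph (Sum.elim U fun jk : V × Fin 4 => -M jk.1 jk.2) i j = 0 := by
    rintro (u | u) (v | v) h
    · exact h.2.2 U hU
    · exact key u v h.1 h.2
    · rw [dl_comm]; exact key v u h.1 h.2
    · exact h.elim
  obtain ⟨H, hH⟩ := h0 ω D 0 0 _ (fun i j h => by rw [hd i j h]; simp)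
  refine ⟨H, fun v => hH (Sum.inl v), fun j k => hH (Sum.inr (j, k)),
    KhA_onR g ω D (ψ := 0) fun i j hij => ?_⟩
  rw [KhA_T_qm, hH, hH, KhA_pr, KhA_pr]
  exact hd i j hij

variable {g ω D}

omit [CharZero K] in
theorem KhA_W {U : V → Vec K} {M : V → Mat K} {H : g.Lam ω D →ₗ[K] Vec K}
    (h : KhA_L g ω D U M H) (j : V) {x : g.Lam ω D} (hx : x ∈ g.Wh ω D j) :
    H x = -((M j)ᵀ *ᵥ (g.qh ω D).pr x) := by
  obtain ⟨c, rfl⟩ := (Submodule.mem_span_range_iff_exists_fun K).1 hx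
  simp only [map_sum, map_smul, h.virt, KhA_pr, Gen.Ph, mulVec_sum, mulVec_smul,
    ← Finset.sum_neg_distrib, smul_neg]
  refine Finset.sum_congr rfl fun k _ => ?_
  congr 2
  ext l
  simp [mulVec, dotProduct, Pi.single_apply]

omit [CharZero K] in
theorem KhA_Y {U : V → Vec K} {M : V → Mat K} {H : g.Lam ω D →ₗ[K] Vec K}
    (h : KhA_L g ω D U M H) {A : Finset V} {B : Mat K} (hB : ∀ a ∈ A, B *ᵥ g.p a = U a)
    {x : g.Lam ω D} (hx : x ∈ (g.qh ω D).sp A) : H x = B *ᵥ (g.qh ω D).pr x :=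
  LinearMap.eqOn_span (f := H) (g := Matrix.mulVecLin B ∘ₗ (g.qh ω D).pr) (by
    rintro _ ⟨a, ha, rfl⟩
    rw [h.real, LinearMap.comp_apply, (g.qh ω D).hpr, Matrix.mulVecLin_apply, hB a ha]) hx

omit [CharZero K] in
theorem KhA_inj (j : V) {x : g.Lam ω D} (hx : x ∈ g.Wh ω D j) (h : (g.qh ω D).pr x = 0) :
    x = 0 := by
  obtain ⟨c, rfl⟩ := (Submodule.mem_span_range_iff_exists_fun K).1 hx
  simp only [map_sum, map_smul, KhA_pr, Gen.Ph] at h
  have : c = 0 := by rw [pi_eq_sum_univ' c]; exact h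
  simp [this]

omit [CharZero K] in
theorem KhA_mats (h2 : g.StT2) {G : V → V → Prop} (hD : g.SetD G ω D) {U : V → Vec K}
    (hU : U ∈ g.flex (adj ω)) : ∃ M : V → Mat K, ∀ j ∈ D,
      (∀ a ∈ nb ω j, M j *ᵥ g.p a = U a) ∧ bil (M j) (g.p j) (g.p j) = 0 := by
  have key : ∀ j, ∃ M : Mat K, j ∈ D →
      (∀ a ∈ nb ω j, M *ᵥ g.p a = U a) ∧ bil M (g.p j) (g.p j) = 0 := fun j => by
    by_cases hj : j ∈ D
    · obtain ⟨M, hM⟩ := (h2 G ω j (hD.2.1 j hj)).2.1 U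
        (g.flex_anti (fun u v h => Or.inl h.1) hU)
      refine ⟨M, fun _ => ⟨hM, ?_⟩⟩
      have e : U j + Mᵀ *ᵥ g.p j = 0 :=
        g.cov_zero (nb ω j) (by rw [(hD.2.1 j hj).deg]; omega) _ fun a ha => by
          have := hU.2 j a (mem_nb.1 ha)
          rw [add_dotProduct, ← bil_eq', bil_transpose, bil_eq', hM a ha]
          exact this
      have e2 := congrArg (fun m => m ⬝ᵥ g.p j) e
      simp only [add_dotProduct, hU.1 j, zero_add, zero_dotProduct] at e2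
      rwa [← bil_eq', bil_transpose] at e2
    · exact ⟨0, fun h => absurd h hj⟩
  choose M hM using key
  exact ⟨M, hM⟩

omit [CharZero K] in
theorem KhA_last (h2 : g.StT2) {G : V → V → Prop} (hD : g.SetD G ω D) {j₀ : V} (hj : j₀ ∈ D) :
    ∃ U ∈ g.flex (delS (adj ω) D), ∃ M : V → Mat K, (∀ j ∈ D,
      (∀ a ∈ nb ω j, M j *ᵥ g.p a = U a) ∧ bil (M j) (g.p j) (g.p j) = 0) ∧
      M j₀ + (M j₀)ᵀ ≠ 0 := by
  obtain ⟨U, hU, M₀, h1, -, h3⟩ := (h2 G ω j₀ (hD.2.1 j₀ hj)).2.2.2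
  obtain ⟨M, hM⟩ := KhA_mats h2 hD hU
  have e : M j₀ - M₀ = 0 := g.mat4_zero (nb ω j₀) (by rw [(hD.2.1 j₀ hj).deg]; omega)
    fun a ha => by rw [sub_mulVec, (hM j₀ hj).1 a ha, h1 a ha, sub_self]
  exact ⟨U, g.flex_anti (fun u v h => Or.inl h.1) hU, M, hM, by rwa [sub_eq_zero.1 e]⟩

theorem KhA_part1 (h0 : g.StKh0) (h1 : g.StKh1) (h2 : g.StT2) {G : V → V → Prop}
    (hD : g.SetD G ω D) {J : Finset V} (hJ : J ⊆ D) (hne : J.Nonempty)
    (U : Submodule K (g.Lam ω D)) (hU : ∀ j ∈ J, g.Wh ω D j ≤ U) :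
    (g.qh ω D).Bd U (7 + J.card) := by
  obtain ⟨j₀, hj₀⟩ := hne
  choose U1 a1 M1 a2 using fun j : J => h1 G ω D hD (Pi.single j.1 1)
  obtain ⟨U2, b1, M2, b2, b3⟩ := KhA_last h2 hD (hJ hj₀)
  choose H1 c1 using fun j : J => KhA_lift g ω D h0 (a1 j) (M1 j) fun i hi => (a2 j i hi).1
  obtain ⟨H2, c2⟩ := KhA_lift g ω D h0 b1 M2 fun i hi => (b2 i hi).1
  choose H0 c0 using fun s : Fin 6 => KhA_lift g ω D h0
    (U := fun x => RB_sk (Pi.single s 1) *ᵥ g.p x)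
    ⟨fun v => skew_self (RB_sk_skew _) _, fun u v _ => dl_skew _ (RB_sk_skew _) u v⟩
    (fun _ => RB_sk (Pi.single s 1)) fun _ _ _ _ => rfl
  have key := KhA_bound (g.qh ω D).pr (g.qh ω D).R U (KhA_polar g ω D h0)
    (ι := (Fin 6 ⊕ Unit) ⊕ J) (Sum.elim (Sum.elim H0 fun _ => H2) H1)
    (by
      rintro ((s | s) | j)
      exacts [(c0 s).ann, c2.ann, (c1 j).ann])
    (fun c hc => by
      have e : ∀ j ∈ J, RB_sk (fun s => c (Sum.inl (Sum.inl s))) + c (Sum.inl (Sum.inr ())) • M2 j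
          + ∑ i : J, c (Sum.inr i) • M1 i j = 0 := fun j hj => by
        rw [pi_eq_sum_univ' (fun s => c (Sum.inl (Sum.inl s))),
          ← IsLinearMap.mk'_apply RB_sk_lin, map_sum]
        ext k l
        have := congrFun (hc _ (hU j hj (Submodule.subset_span ⟨k, rfl⟩))) l
        simp only [Fintype.sum_sum_type, Sum.elim_inl, Sum.elim_inr, (c0 _).virt, c2.virt,
          (c1 _).virt, Finset.univ_unique, Finset.sum_singleton, smul_neg,
          Finset.sum_neg_distrib, Pi.neg_apply, Finset.sum_apply, Pi.smul_apply,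
          Pi.zero_apply] at this
        simp only [map_smul, IsLinearMap.mk'_apply, Matrix.add_apply, Matrix.sum_apply,
          Matrix.smul_apply, Matrix.zero_apply]
        linear_combination -this
      have e1 : ∀ i : J, c (Sum.inr i) = 0 := fun i => by
        have := congrArg (fun B => (B *ᵥ g.p i) ⬝ᵥ g.p i) (e i i.2)
        simp only [add_mulVec, add_dotProduct, skew_self (RB_sk_skew _), smul_mulVec,
          smul_dotProduct, sum_mulVec, sum_dotProduct, zero_mulVec, zero_dotProduct, ← bil_eq',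
          (b2 i (hJ i.2)).2, (a2 _ i (hJ i.2)).2, smul_eq_mul, mul_zero, zero_add] at this
        rw [Finset.sum_eq_single i (fun j _ hj => by
          rw [Pi.single_eq_of_ne (fun h => hj (Subtype.ext h.symm)), mul_zero]) (by simp)] at this
        simpa using this
      have e2 := e j₀ hj₀
      simp only [e1, zero_smul, Finset.sum_const_zero, add_zero] at e2
      have e3 : c (Sum.inl (Sum.inr ())) = 0 := by
        have e4 := congrArg transpose e2
        rw [transpose_add, RB_sk_skew, transpose_smul, transpose_zero] at e4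
        have e5 : c (Sum.inl (Sum.inr ())) • (M2 j₀ + (M2 j₀)ᵀ) = 0 := by
          rw [smul_add, eq_neg_of_add_eq_zero_right e2, eq_neg_of_add_eq_zero_right e4, neg_neg,
            neg_add_cancel]
        exact (smul_eq_zero.1 e5).resolve_right b3
      rw [e3, zero_smul, add_zero] at e2
      rintro ((s | s) | j)
      exacts [congrFun (RB_sk_inj e2) s, e3, e1 j])
  simpa [QS.Bd] using key

omit [CharZero K] in
theorem KhA_part2 (h0 : g.StKh0) (h2 : g.StT2) {G : V → V → Prop} (hD : g.SetD G ω D) {u v : V}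
    (h : qm ((g.qh ω D).ev u) ((g.qh ω D).ev v) ∈ (g.qh ω D).R) : g.Link G u v := by
  intro U hU
  obtain ⟨j, hj⟩ := hD.1
  rw [← (hD.2.1 j hj).ctx.span ω (hD.2.1 j hj).bad.1] at hU
  obtain ⟨M, hM⟩ := KhA_mats h2 hD hU
  obtain ⟨H, hH⟩ := KhA_lift g ω D h0 (g.flex_anti (fun u v h => Or.inl h.1) hU) M
    fun i hi => (hM i hi).1
  have := hH.ann _ h
  rwa [KhA_T_qm, hH.real, hH.real, (g.qh ω D).hpr, (g.qh ω D).hpr] at this

theorem KhA_part3 (h0 : g.StKh0) (h1 : g.StKh1) (h2 : g.StT2) {G : V → V → Prop}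
    (hD : g.SetD G ω D) {j : V} (hj : j ∈ D) :
    finrank K ↥(g.Wh ω D j ⊓ (g.qh ω D).sp (nb ω j)) ≤ 1 := by
  by_contra hc
  obtain ⟨x, hx⟩ := exists_linearIndependent_of_le_finrank (n := 2) (not_le.1 hc)
  have hz := hx.map' ((g.qh ω D).pr ∘ₗ Submodule.subtype _) (LinearMap.ker_eq_bot'.2 fun y hy =>
    Subtype.ext (KhA_inj j y.2.1 hy))
  have hz' : LinearIndependent K ![(g.qh ω D).pr (x 0), (g.qh ω D).pr (x 1)] := by
    have e : ![(g.qh ω D).pr (x 0), (g.qh ω D).pr (x 1)]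
        = ⇑((g.qh ω D).pr ∘ₗ Submodule.subtype _) ∘ x := by
      ext1 i
      fin_cases i <;> rfl
    rw [e]
    exact hz
  have kill : ∀ U ∈ g.flex (delS (adj ω) D), ∀ M : V → Mat K,
      (∀ i ∈ D, ∀ a ∈ nb ω i, M i *ᵥ g.p a = U a) →
      (∀ i, (M j + (M j)ᵀ) *ᵥ (g.qh ω D).pr (x i) = 0) ∧
        ∀ a ∈ nb ω j, bil (M j + (M j)ᵀ) (g.p a) (g.p a) = 0 := fun U hU M hM => by
    obtain ⟨H, hH⟩ := KhA_lift g ω D h0 hU M hM
    refine ⟨fun i => ?_, fun a ha => ?_⟩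
    · rw [add_mulVec, ← KhA_Y hH (hM j hj) (x i).2.2, KhA_W hH j (x i).2.1, neg_add_cancel]
    · rw [bil_add, bil_transpose, bil_eq', hM j hj a ha, hU.1 a, add_zero]
  obtain ⟨U1, a1, M1, a2⟩ := h1 G ω D hD (fun _ => 1)
  obtain ⟨U2, b1, M2, b2, b3⟩ := KhA_last h2 hD hj
  obtain ⟨k1, k2⟩ := kill U1 a1 M1 fun i hi => (a2 i hi).1
  obtain ⟨k3, k4⟩ := kill U2 b1 M2 fun i hi => (b2 i hi).1
  refine b3 (KhA_two g (nb ω j) (by rw [(hD.2.1 j hj).deg]; omega) hz' (y := g.p j)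
    (by rw [transpose_add, transpose_transpose, add_comm])
    (by rw [transpose_add, transpose_transpose, add_comm]) (k1 0) (k1 1) (k3 0) (k3 1) k2 k4 ?_ ?_)
  · rw [bil_add, bil_transpose, (a2 j hj).2]; norm_num
  · rw [bil_add, bil_transpose, (b2 j hj).2, add_zero]

end Aux

set_option linter.unusedVariables false in
theorem KhA_thm (g : Gen V K) (h0 : g.StKh0) (h1 : g.StKh1) (h2 : g.StT2)
    (hQ : ∀ ω D, StQ K (g.Lam ω D)) : g.StKhA := fun _ _ _ hD =>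
  ⟨fun _ hJ hne U hU => KhA_part1 h0 h1 h2 hD hJ hne U hU,
    fun _ _ _ _ h => KhA_part2 h0 h2 hD h, fun _ hj => KhA_part3 h0 h1 h2 hD hj⟩

end Pool.Agent.Dress
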