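import Pool.Agent.Lib.MP_d237f6_co.DR.RB

/-! Linear algebra for the dimension bound of the lifted configuration. -/

set_option autoImplicit false

namespace Pool.Agent.Dress

open Matrix Module Classical

variable {K : Type} [Field K] {Λ : Type} [AddCommGroup Λ] [Module K Λ]

/-- the polar form at two covectors -/
def KhA_pol (f f' : Dual K Λ) : (Dual K Λ → K) →ₗ[K] K where
  toFun r := r (f + f') - r f - r f'
  map_add' := fun a b => by simp only [Pi.add_apply]; ring
  map_smul' := fun c a => by simp only [Pi.smul_apply, smul_eq_mul, RingHom.id_apply]; ring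

theorem KhA_pol_qm (f f' : Dual K Λ) (x y : Λ) :
    KhA_pol f f' (qm x y) = f x * f' y + f' x * f y := by
  simp only [KhA_pol, qm, LinearMap.coe_mk, AddHom.coe_mk, LinearMap.add_apply]; ring

/-- the pairing of a quadratic function with a velocity field -/
def KhA_T (pr H : Λ →ₗ[K] Vec K) : (Dual K Λ → K) →ₗ[K] K :=
  ∑ k : Fin 4, KhA_pol (LinearMap.proj k ∘ₗ H) (LinearMap.proj k ∘ₗ pr)

theorem KhA_T_qm (pr H : Λ →ₗ[K] Vec K) (x y : Λ) :
    KhA_T pr H (qm x y) = H x ⬝ᵥ pr y + H y ⬝ᵥ pr x := by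
  simp only [KhA_T, LinearMap.sum_apply, KhA_pol_qm, LinearMap.comp_apply, LinearMap.proj_apply,
    dotProduct, ← Finset.sum_add_distrib]
  exact Finset.sum_congr rfl fun k _ => by ring

theorem KhA_theta (pr : Λ →ₗ[K] Vec K) (U : Submodule K Λ) {r : Dual K Λ → K} (hr : r ∈ qp U U) :
    ∃ θ : Dual K (U →ₗ[K] Vec K), ∀ H : Λ →ₗ[K] Vec K, KhA_T pr H r = θ (H.domRestrict U) := by
  induction hr using Submodule.span_induction with
  | mem r hr =>
    obtain ⟨x, hx, y, hy, rfl⟩ := hr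
    refine ⟨⟨⟨fun B => B ⟨x, hx⟩ ⬝ᵥ pr y + B ⟨y, hy⟩ ⬝ᵥ pr x, fun a b => ?_⟩, fun c a => ?_⟩,
      fun H => KhA_T_qm pr H x y⟩
    · simp only [LinearMap.add_apply, add_dotProduct]; ring
    · simp only [LinearMap.smul_apply, smul_dotProduct, smul_eq_mul, RingHom.id_apply]; ring
  | zero => exact ⟨0, fun H => by simp⟩
  | add a b _ _ ha hb =>
    obtain ⟨θ, h⟩ := ha
    obtain ⟨θ', h'⟩ := hb
    exact ⟨θ + θ', fun H => by rw [map_add, h, h', LinearMap.add_apply]⟩
  | smul c a _ ha =>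
    obtain ⟨θ, h⟩ := ha
    exact ⟨c • θ, fun H => by rw [map_smul, h, LinearMap.smul_apply]⟩

theorem KhA_pol_self (U : Submodule K Λ) {r : Dual K Λ → K} (hr : r ∈ qp U U) (f : Dual K Λ) :
    KhA_pol f f r = 2 * r f := by
  induction hr using Submodule.span_induction with
  | mem r hr =>
    obtain ⟨x, -, y, -, rfl⟩ := hr
    rw [KhA_pol_qm, qm]; ring
  | zero => simp
  | add a b _ _ ha hb => rw [map_add, ha, hb, Pi.add_apply]; ring
  | smul c a _ ha => rw [map_smul, ha, Pi.smul_apply, smul_eq_mul, smul_eq_mul]; ring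

theorem KhA_bound [CharZero K] [FiniteDimensional K Λ] (pr : Λ →ₗ[K] Vec K)
    (R : Submodule K (Dual K Λ → K)) (U : Submodule K Λ)
    (hR : ∀ f f' : Dual K Λ, ∃ H : Λ →ₗ[K] Vec K, ∀ r ∈ R, KhA_T pr H r = KhA_pol f f' r)
    {ι : Type} [Fintype ι] (Hs : ι → Λ →ₗ[K] Vec K) (h0 : ∀ l, ∀ r ∈ R, KhA_T pr (Hs l) r = 0)
    (hind : ∀ c : ι → K, (∀ x ∈ U, ∑ l, c l • Hs l x = 0) → ∀ l, c l = 0) :
    finrank K ↥(R ⊓ qp U U) + Fintype.card ι ≤ 4 * finrank K U := by
  obtain ⟨π, hπ⟩ := U.subtype.exists_leftInverse_of_injective U.ker_subtype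
  choose θ hθ using fun r : ↥(R ⊓ qp U U) => KhA_theta pr U r.2.2
  have key : ∀ r B, θ r B = KhA_T pr (B ∘ₗ π) r := fun r B => by
    rw [hθ]
    congr 1
    ext1 x
    exact congrArg B (LinearMap.congr_fun hπ x).symm
  have hli : LinearIndependent K fun l => (Hs l).domRestrict U := by
    rw [Fintype.linearIndependent_iff]
    intro c hc
    refine hind c fun x hx => ?_
    simpa [LinearMap.sum_apply] using LinearMap.congr_fun hc ⟨x, hx⟩
  set X := Submodule.span K (Set.range fun l => (Hs l).domRestrict U) with hX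
  have hm : ∀ r, θ r ∈ X.dualAnnihilator := fun r => by
    rw [Submodule.mem_dualAnnihilator]
    intro B hB
    obtain ⟨c, rfl⟩ := (Submodule.mem_span_range_iff_exists_fun K).1 hB
    rw [map_sum]
    exact Finset.sum_eq_zero fun l _ => by rw [map_smul, ← hθ, h0 l r r.2.1, smul_zero]
  let Θ : ↥(R ⊓ qp U U) →ₗ[K] X.dualAnnihilator :=
    { toFun := fun r => ⟨θ r, hm r⟩
      map_add' := fun a b => Subtype.ext (LinearMap.ext fun B => by simp [key])
      map_smul' := fun c a => Subtype.ext (LinearMap.ext fun B => by simp [key]) }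
  have hinj : Function.Injective Θ := by
    rw [injective_iff_map_eq_zero]
    intro r hr
    have h1 : θ r = 0 := congrArg Subtype.val hr
    refine Subtype.ext (funext fun f => ?_)
    obtain ⟨H, hH⟩ := hR f f
    have h2 := hH r r.2.1
    rw [hθ, h1, KhA_pol_self U r.2.2, LinearMap.zero_apply] at h2
    exact (mul_eq_zero.1 h2.symm).resolve_left two_ne_zero
  have e1 := LinearMap.finrank_le_finrank_of_injective hinj
  have e2 := Subspace.finrank_add_finrank_dualAnnihilator_eq X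
  rw [hX, finrank_span_eq_card hli, Module.finrank_linearMap, ← hX] at e2
  simp only [finrank_fintype_fun_eq_card, Fintype.card_fin] at e2
  omega

/-- a symmetric matrix that vanishes on all pairs of a basis -/
theorem KhA_sym4 {a b z₁ z₂ : Vec K} (hz : LinearIndependent K ![b, a, z₁, z₂]) {Q : Mat K}
    (hs : Qᵀ = Q) (h1 : Q *ᵥ z₁ = 0) (h2 : Q *ᵥ z₂ = 0) (ha : bil Q a a = 0) (hb : bil Q b b = 0)
    (hab : bil Q a b = 0) : Q = 0 := by
  have e1 : ∀ m, bil Q m z₁ = 0 := fun m => by simp [bil, h1]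
  have e2 : ∀ m, bil Q m z₂ = 0 := fun m => by simp [bil, h2]
  have e1' : ∀ m, bil Q z₁ m = 0 := fun m => by rw [bil_symm hs, e1]
  have e2' : ∀ m, bil Q z₂ m = 0 := fun m => by rw [bil_symm hs, e2]
  have hba : bil Q b a = 0 := by rw [bil_symm hs, hab]
  refine mat_eq_zero (fun f hf => cov_zero4 hz hf) fun i j => ?_
  fin_cases i <;> fin_cases j <;> simp [*]

theorem KhA_cons {n : ℕ} {z : Fin n → Vec K} (hz : LinearIndependent K z) {f m : Vec K}
    (h : ∀ i, f ⬝ᵥ z i = 0) (hm : f ⬝ᵥ m ≠ 0) :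
    LinearIndependent K (Fin.cons m z : Fin (n + 1) → Vec K) := by
  refine linearIndependent_finCons.2 ⟨hz, fun hmem => hm ?_⟩
  obtain ⟨c, rfl⟩ := (Submodule.mem_span_range_iff_exists_fun K).1 hmem
  simp [dotProduct_sum, h]

variable {V : Type} [DecidableEq V]

/-- two quadrics through five points cannot share a singular line -/
theorem KhA_two (g : Gen V K) (A : Finset V) (hA : 4 ≤ A.card) {z₁ z₂ y : Vec K}
    (hz : LinearIndependent K ![z₁, z₂]) {Q Q' : Mat K} (hs : Qᵀ = Q) (hs' : Q'ᵀ = Q')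
    (h1 : Q *ᵥ z₁ = 0) (h2 : Q *ᵥ z₂ = 0) (h1' : Q' *ᵥ z₁ = 0) (h2' : Q' *ᵥ z₂ = 0)
    (ha : ∀ a ∈ A, bil Q (g.p a) (g.p a) = 0) (ha' : ∀ a ∈ A, bil Q' (g.p a) (g.p a) = 0)
    (hy : bil Q y y ≠ 0) (hy' : bil Q' y y = 0) : Q' = 0 := by
  have pick : ∀ f : Vec K, f ≠ 0 → ∃ a ∈ A, f ⬝ᵥ g.p a ≠ 0 := fun f hf => by
    by_contra hh
    push Not at hh
    exact hf (g.cov_zero A hA f hh)
  obtain ⟨f, f0, f1, f2, -⟩ := exists_normal z₁ z₂ z₂
  obtain ⟨a, haA, hfa⟩ := pick f f0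
  have l3 : LinearIndependent K ![g.p a, z₁, z₂] :=
    KhA_cons hz (fun i => by fin_cases i <;> assumption) hfa
  obtain ⟨f', f0', f1', f2', f3'⟩ := exists_normal (g.p a) z₁ z₂
  obtain ⟨b, hbA, hfb⟩ := pick f' f0'
  have l4 : LinearIndependent K ![g.p b, g.p a, z₁, z₂] :=
    KhA_cons l3 (fun i => by fin_cases i <;> assumption) hfb
  have e := KhA_sym4 l4 (Q := bil Q' (g.p a) (g.p b) • Q - bil Q (g.p a) (g.p b) • Q')
    (by rw [transpose_sub, transpose_smul, transpose_smul, hs, hs'])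
    (by simp [sub_mulVec, smul_mulVec, h1, h1']) (by simp [sub_mulVec, smul_mulVec, h2, h2'])
    (by rw [bil_sub, bil_smul, bil_smul, ha a haA, ha' a haA]; ring)
    (by rw [bil_sub, bil_smul, bil_smul, ha b hbA, ha' b hbA]; ring)
    (by rw [bil_sub, bil_smul, bil_smul]; ring)
  have e2 := congrArg (fun M => bil M y y) e
  simp only [bil_sub, bil_smul, hy', bil_zero, mul_zero, sub_zero] at e2
  exact KhA_sym4 l4 hs' h1' h2' (ha' a haA) (ha' b hbA) ((mul_eq_zero.1 e2).resolve_right hy)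

end Pool.Agent.Dress
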