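import Pool.Agent.Lib.MP_d237f6_co.DR.Gam

/-! Relations in the lifted configuration attached to vertices of second type. -/

namespace Pool.Agent.Dress

open Matrix Module Classical

variable {K : Type} [Field K] [CharZero K] {V : Type} [DecidableEq V] [Fintype V]

section Lin

variable {Λ : Type} [AddCommGroup Λ] [Module K Λ]

omit [CharZero K]

/-- the vectors whose product with a given vector is a relation -/
def KhB_ann (R : Submodule K (Dual K Λ → K)) (x : Λ) : Submodule K Λ where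
  carrier := {y | qm x y ∈ R}
  add_mem' := fun {a b} ha hb => by
    have : qm (K := K) x (a + b) = qm x a + qm x b := by ext f; simp [qm, mul_add]
    simp only [Set.mem_ofPred_eq] at ha hb ⊢
    rw [this]; exact R.add_mem ha hb
  zero_mem' := by
    have : qm (K := K) x 0 = 0 := by ext f; simp [qm]
    simp only [Set.mem_ofPred_eq]
    rw [this]; exact R.zero_mem
  smul_mem' := fun c a ha => by
    have : qm (K := K) x (c • a) = c • qm x a := by ext f; simp [qm, mul_left_comm]
    simp only [Set.mem_ofPred_eq] at ha ⊢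
    rw [this]; exact R.smul_mem c ha

theorem KhB_comm (x y : Λ) : qm (K := K) x y = qm y x := by ext f; simp [qm, mul_comm]

theorem KhB_qp_le (R : Submodule K (Dual K Λ → K)) (S : Set Λ) (W : Submodule K Λ)
    (h : ∀ x ∈ S, W ≤ KhB_ann R x) : qp (Submodule.span K S) W ≤ R := by
  refine Submodule.span_le.2 ?_
  rintro _ ⟨x, hx, y, hy, rfl⟩
  have : Submodule.span K S ≤ KhB_ann R y := Submodule.span_le.2 fun s hs => by
    show qm y s ∈ R
    rw [KhB_comm]; exact h s hs hy
  rw [KhB_comm]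
  exact this hx

theorem KhB_sum_mem (x : V → Λ) (N : Finset V) (c : V → K) (hc : ∀ u, u ∉ N → c u = 0) :
    ∑ u, c u • x u ∈ Submodule.span K (x '' N) := by
  refine Submodule.sum_mem _ fun u _ => ?_
  by_cases hu : u ∈ N
  · exact Submodule.smul_mem _ _ (Submodule.subset_span ⟨u, hu, rfl⟩)
  · simp [hc u hu]

theorem KhB_red (x : V → Λ) (N : Finset V) (c : V → K) (hc : ∀ u, u ∉ N → c u = 0)
    (h : ∑ u, c u • x u = 0) (j : V) (hj : c j ≠ 0) :
    Submodule.span K (x '' N) ≤ Submodule.span K (x '' (N.erase j : Finset V)) := by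
  refine Submodule.span_le.2 ?_
  rintro _ ⟨u, hu, rfl⟩
  by_cases e : u = j
  · subst e
    have h1 := KhB_sum_mem x (N.erase u) (Function.update c u 0) (fun w hw => by
      by_cases e : w = u
      · subst e; simp
      · rw [Function.update_of_ne e]
        exact hc w fun hw' => hw (Finset.mem_erase.2 ⟨e, hw'⟩))
    have h2 : ∑ w, Function.update c u 0 w • x w = -(c u • x u) := by
      rw [← Finset.add_sum_erase _ _ (Finset.mem_univ u)] at h ⊢
      rw [Finset.sum_congr rfl (fun w hw => by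
        rw [Function.update_of_ne (Finset.mem_erase.1 hw).1])]
      simp only [Function.update_self, zero_smul, zero_add]
      exact eq_neg_of_add_eq_zero_right h
    rw [h2, Submodule.neg_mem_iff] at h1
    exact (Submodule.smul_mem_iff _ hj).1 h1
  · exact Submodule.subset_span ⟨u, Finset.mem_erase.2 ⟨e, hu⟩, rfl⟩

end Lin

namespace Gen

variable (g : Gen V K) {ω : V → V → K} {D : Finset V}

omit [CharZero K] in
theorem KhB_row {Ω : V ⊕ V × Fin 4 → V ⊕ V × Fin 4 → K} (h : g.Sh ω D Ω) (i : V ⊕ V × Fin 4) :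
    ∑ j, Ω i j • g.eh ω D j = 0 := by
  have e : ∑ j, Ω i j • g.eh ω D j = (g.L0 ω D).mkQ (Ω i) := by
    simp only [eh, ← map_smul, ← map_sum]
    congr 1
    ext j
    simp [Finset.sum_apply, Pi.single_apply]
  rw [e, Submodule.mkQ_apply, Submodule.Quotient.mk_eq_zero]
  exact Submodule.subset_span ⟨Ω, i, h, rfl⟩

omit [CharZero K] in
theorem KhB_der {Ω : V ⊕ V × Fin 4 → V ⊕ V × Fin 4 → K} (h : g.Sh ω D Ω) (z : V)
    (hz : ∀ i, Ω i (Sum.inl z) = 0) (k : Fin 4) : g.Sh ω D (fun i j => g.d z k (Ω i j)) := by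
  refine ⟨fun i j => congrArg _ (h.1 i j), fun i j hij => h.2.1 i j fun e => hij (by simp [e]),
    fun i => ?_⟩
  have h1 := congrArg (dv (g.d z k)) (h.2.2 i)
  rw [dv_sum_smul, dv_zero] at h1
  rw [← h1]
  refine Finset.sum_congr rfl fun j _ => ?_
  rcases j with v | jl
  · by_cases e : v = z
    · subst e; simp [hz]
    · simp [Ph, g.d_ne e]
  · simp [Ph, dv_single]

/-- the lifted stress -/
noncomputable def KhB_om (ω : V → V → K) (D : Finset V) :
    V ⊕ V × Fin 4 → V ⊕ V × Fin 4 → K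
  | Sum.inl u, Sum.inl v => if u ∉ D ∧ v ∉ D then ω u v else 0
  | Sum.inl a, Sum.inr jk => if jk.1 ∈ D then ω a jk.1 * g.p jk.1 jk.2 else 0
  | Sum.inr jk, Sum.inl a => if jk.1 ∈ D then ω a jk.1 * g.p jk.1 jk.2 else 0
  | Sum.inr _, Sum.inr _ => 0

omit [CharZero K] [Fintype V] in
theorem KhB_basis (c : K) (x : Vec K) : ∑ l, (c * x l) • (Pi.single l 1 : Vec K) = c • x := by
  ext m
  simp [Finset.sum_apply, Pi.single_apply]

omit [CharZero K] in
theorem KhB_link (u v : V) (hu : u ∉ D) (hv : v ∉ D) (h : u = v ∨ ω u v ≠ 0) :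
    g.Eh ω D (Sum.inl u) (Sum.inl v) := by
  refine ⟨hu, hv, ?_⟩
  by_cases e : u = v
  · subst e; exact g.link_refl _ _
  · exact g.link_of ⟨⟨e, h.resolve_left e⟩, hu, hv⟩

omit [CharZero K] in
theorem KhB_sh (hs : g.Stress ω) (hD : ∀ j ∈ D, ∀ j' ∈ D, ω j j' = 0) :
    g.Sh ω D (g.KhB_om ω D) := by
  have hn : ∀ (a : V) (jk : V × Fin 4),
      (if jk.1 ∈ D then ω a jk.1 * g.p jk.1 jk.2 else 0) ≠ 0 → jk.1 ∈ D ∧ a ∈ nb ω jk.1 := by
    intro a jk h
    by_cases hj : jk.1 ∈ D
    · rw [if_pos hj] at h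
      have h1 := left_ne_zero_of_mul h
      refine ⟨hj, mem_nb.2 ⟨fun e => h1 (by rw [← e]; exact hD _ hj _ hj), by rwa [hs.1]⟩⟩
    · exact absurd (if_neg hj) h
  refine ⟨?_, ?_, ?_⟩
  · rintro (u | jk) (v | jl)
    · simp only [KhB_om, hs.1 u v, and_comm]
    · rfl
    · rfl
    · rfl
  · rintro (u | jk) (v | jl) h
    · by_cases e : u ∉ D ∧ v ∉ D
      · simp only [KhB_om, if_pos e] at h
        exact g.KhB_link u v e.1 e.2 (Or.inr h)
      · exact absurd (if_neg e) h
    · exact hn u jl h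
    · exact hn v jk h
    · exact absurd rfl h
  · rintro (u | jk)
    · rw [Fintype.sum_sum_type, Fintype.sum_prod_type, ← Finset.sum_add_distrib]
      by_cases hu : u ∈ D
      · refine Finset.sum_eq_zero fun v _ => ?_
        by_cases hv : v ∈ D
        · simp [KhB_om, hu, hv, hD u hu v hv]
        · simp [KhB_om, hu, hv]
      · rw [← (hs.2 u : ∑ v, ω u v • g.p v = 0)]
        refine Finset.sum_congr rfl fun v _ => ?_
        by_cases hv : v ∈ D
        · simp only [KhB_om, Ph, hu, hv, if_true, KhB_basis]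
          simp
        · simp [KhB_om, Ph, hu, hv]
    · rw [Fintype.sum_sum_type]
      by_cases hj : jk.1 ∈ D
      · have := g.dep_smul (hs.2 jk.1) (g.p jk.1 jk.2)
        simp only [KhB_om, Ph, if_pos hj, zero_smul, Finset.sum_const_zero, add_zero]
        rw [← this]
        refine Finset.sum_congr rfl fun a _ => ?_
        rw [hs.1 a, mul_comm]; rfl
      · simp [KhB_om, hj]

/-- the classes of the real vertices, and the combination of the copies at a virtual vertex -/
noncomputable def KhB_x (ω : V → V → K) (D : Finset V) (u : V) : g.Lam ω D :=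
  if u ∈ D then ∑ l, g.p u l • g.eh ω D (Sum.inr (u, l)) else g.eh ω D (Sum.inl u)

omit [CharZero K] in
theorem KhB_r0 (hs : g.Stress ω) (hD : ∀ j ∈ D, ∀ j' ∈ D, ω j j' = 0) {v : V} (hv : v ∉ D) :
    ∑ u, ω v u • g.KhB_x ω D u = 0 := by
  rw [← g.KhB_row (g.KhB_sh hs hD) (Sum.inl v), Fintype.sum_sum_type, Fintype.sum_prod_type,
    ← Finset.sum_add_distrib]
  refine Finset.sum_congr rfl fun u _ => ?_
  by_cases hu : u ∈ D
  · simp [KhB_om, KhB_x, hu, Finset.smul_sum, smul_smul]
  · simp [KhB_om, KhB_x, hu, hv]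

omit [CharZero K] in
theorem KhB_r1 (hs : g.Stress ω) (hD : ∀ j ∈ D, ∀ j' ∈ D, ω j j' = 0) {v z : V} (hv : v ∉ D)
    (hz : z ∈ D) (k : Fin 4) :
    ∑ u, g.d z k (ω v u) • g.KhB_x ω D u + ω v z • g.eh ω D (Sum.inr (z, k)) = 0 := by
  have h := g.KhB_der (g.KhB_sh hs hD) z (by
    rintro (u | jk)
    · simp [KhB_om, hz]
    · by_cases hj : jk.1 ∈ D
      · simp [KhB_om, hD z hz _ hj]
      · simp [KhB_om, hj]) k
  have e : ω v z • g.eh ω D (Sum.inr (z, k))
      = ∑ u, if u = z then ω v z • g.eh ω D (Sum.inr (z, k)) else 0 := by simp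
  rw [← g.KhB_row h (Sum.inl v), Fintype.sum_sum_type, Fintype.sum_prod_type,
    ← Finset.sum_add_distrib, e, ← Finset.sum_add_distrib]
  refine Finset.sum_congr rfl fun u _ => ?_
  by_cases hu : u ∈ D
  · simp only [KhB_om, KhB_x, hu, if_true, not_true, and_false, if_false, map_zero, zero_smul,
      zero_add, d_mul, add_smul, Finset.sum_add_distrib, Finset.smul_sum, smul_smul]
    congr 1
    by_cases e : u = z
    · subst e
      have : ∀ l, g.d u k (g.p u l) = (Pi.single k 1 : Vec K) l :=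
        fun l => congrFun (g.d_self u k) l
      simp [this, Pi.single_apply]
    · have : ∀ l, g.d z k (g.p u l) = 0 := fun l => congrFun (g.d_ne e k) l
      simp [this, e]
  · have e : u ≠ z := fun e => hu (e ▸ hz)
    simp [KhB_om, KhB_x, hu, hv, e]

omit [CharZero K] in
theorem KhB_same (hs : g.Stress ω) {j j' : V} (hj : j ∈ D) (hj' : j' ∈ D) (h0 : ω j j = 0)
    (hn : nb ω j = nb ω j') (hne : (nb ω j).Nonempty) (k : Fin 4) :
    g.eh ω D (Sum.inr (j, k)) = g.eh ω D (Sum.inr (j', k)) := by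
  let c : V × Fin 4 → K := Pi.single (j, k) 1 - Pi.single (j', k) 1
  have hc : ∀ {M : Type} [AddCommGroup M] [Module K M] (t : K) (y : V × Fin 4 → M),
      ∑ x, (t * c x) • y x = t • (y (j, k) - y (j', k)) := by
    intro M _ _ t y
    simp [c, mul_sub, sub_smul, Finset.sum_sub_distrib, Pi.single_apply, smul_sub]
  let Ω : V ⊕ V × Fin 4 → V ⊕ V × Fin 4 → K := fun a b =>
    match a, b with
    | Sum.inl a, Sum.inr x => ω j a * c x
    | Sum.inr x, Sum.inl a => ω j a * c x
    | _, _ => 0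
  have hE : ∀ a x, ω j a * c x ≠ 0 → x.1 ∈ D ∧ a ∈ nb ω x.1 := by
    intro a x h
    have h1 := left_ne_zero_of_mul h
    have h2 := right_ne_zero_of_mul h
    have ha : a ∈ nb ω j := mem_nb.2 ⟨fun e => h1 (e ▸ h0), h1⟩
    by_cases e : x = (j, k)
    · subst e; exact ⟨hj, ha⟩
    by_cases e' : x = (j', k)
    · subst e'; exact ⟨hj', hn ▸ ha⟩
    · exact absurd (by simp [c, e, e']) h2
  have hS : g.Sh ω D Ω := by
    refine ⟨?_, ?_, ?_⟩
    · rintro (u | x) (v | y) <;> rfl
    · rintro (u | x) (v | y) h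
      · exact absurd rfl h
      · exact hE _ _ h
      · exact hE _ _ h
      · exact absurd rfl h
    · rintro (u | x)
      · rw [Fintype.sum_sum_type]
        simp only [Ω, hc, Ph]
        simp
      · rw [Fintype.sum_sum_type]
        have := g.dep_smul (hs.2 j) (c x)
        simp only [Ω, Ph, zero_smul, Finset.sum_const_zero, add_zero]
        rw [← this]
        refine Finset.sum_congr rfl fun a _ => ?_
        rw [mul_comm]; rfl
  obtain ⟨a, ha⟩ := hne
  have h := g.KhB_row hS (Sum.inl a)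
  rw [Fintype.sum_sum_type] at h
  simp only [Ω, hc, zero_smul, Finset.sum_const_zero, zero_add] at h
  exact sub_eq_zero.1 ((smul_eq_zero.1 h).resolve_left (mem_nb.1 ha).2)

omit [CharZero K] in
theorem KhB_R {i j : V ⊕ V × Fin 4} (h : g.Eh ω D i j) :
    qm (g.eh ω D i) (g.eh ω D j) ∈ (g.qh ω D).R := Submodule.subset_span ⟨i, j, h, rfl⟩

omit [CharZero K] in
theorem KhB_one (hs : g.Stress ω) (hD : ∀ j ∈ D, ∀ j' ∈ D, ω j j' = 0) {j : V} (hj : j ∈ D)
    (h5 : (nb ω j).card = 5) :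
    finrank K (g.Wh ω D j) = 4 ∧ finrank K ((g.qh ω D).sp (nb ω j)) = 4 ∧
      qp (g.Wh ω D j) ((g.qh ω D).sp (nb ω j)) ≤ (g.qh ω D).R := by
  refine ⟨?_, ?_, ?_⟩
  · have : LinearIndependent K (fun k : Fin 4 => g.eh ω D (Sum.inr (j, k))) := by
      refine LinearIndependent.of_comp (g.qh ω D).pr ?_
      have e : ((g.qh ω D).pr ∘ fun k : Fin 4 => g.eh ω D (Sum.inr (j, k)))
          = Pi.basisFun K (Fin 4) := by
        ext k : 1
        simp [qh, eh, Ph]
      rw [e]
      exact (Pi.basisFun K (Fin 4)).linearIndependent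
    rw [Wh, finrank_span_eq_card this, Fintype.card_fin]
  · obtain ⟨a, ha⟩ : (nb ω j).Nonempty := Finset.card_pos.1 (by omega)
    have hT : ((nb ω j).erase a).card = 4 := by rw [Finset.card_erase_of_mem ha, h5]
    have h := g.KhB_row (g.KhB_sh hs hD) (Sum.inr (j, 0))
    rw [Fintype.sum_sum_type] at h
    simp only [KhB_om, if_pos hj, zero_smul, Finset.sum_const_zero, add_zero] at h
    have h1 := KhB_red (g.qh ω D).ev (nb ω j) (fun u => ω u j * g.p j 0) (fun u hu => by
      by_cases e : j = u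
      · subst e; simp [hD j hj j hj]
      · have : ω j u = 0 := by
          by_contra hh
          exact hu (mem_nb.2 ⟨e, hh⟩)
        simp [hs.1 u, this]) h a (mul_ne_zero (by rw [hs.1]; exact (mem_nb.1 ha).2)
          (g.coord_ne j 0))
    have h2 : (g.qh ω D).sp (nb ω j) = (g.qh ω D).sp ((nb ω j).erase a) :=
      le_antisymm h1 (Submodule.span_mono (Set.image_mono (Finset.erase_subset _ _)))
    have h3 : LinearIndependent K (fun b : ((nb ω j).erase a : Finset V) => (g.qh ω D).ev b) := by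
      refine LinearIndependent.of_comp (g.qh ω D).pr ?_
      have e : ((g.qh ω D).pr ∘ fun b : ((nb ω j).erase a : Finset V) => (g.qh ω D).ev b)
          = fun b : ((nb ω j).erase a : Finset V) => g.p b := by
        ext b : 1
        exact (g.qh ω D).hpr b
      rw [e]
      exact g.linInd _ hT.le
    rw [h2, QS.sp, Set.image_eq_range]
    exact (finrank_span_eq_card h3).trans (by rw [Fintype.card_coe, hT])
  · refine KhB_qp_le _ _ _ ?_
    rintro _ ⟨k, rfl⟩
    refine Submodule.span_le.2 ?_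
    rintro _ ⟨a, ha, rfl⟩
    exact g.KhB_R (i := Sum.inr (j, k)) (j := Sum.inl a) ⟨hj, ha⟩

omit [CharZero K] in
theorem KhB_star (hs : g.Stress ω) (hD : ∀ j ∈ D, ∀ j' ∈ D, ω j j' = 0) {v j : V} (hj : j ∈ D)
    (hv : v ∈ nb ω j) :
    Submodule.span K (g.KhB_x ω D '' (insert v (nb ω v) : Finset V))
      ≤ Submodule.span K (g.KhB_x ω D '' ((insert v (nb ω v)).erase j : Finset V)) ∧
    ∀ j' ∈ nb ω v ∩ D, g.Wh ω D j'
      ≤ Submodule.span K (g.KhB_x ω D '' (insert v (nb ω v) : Finset V)) := by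
  have hvD : v ∉ D := fun h => (mem_nb.1 hv).2 (hD j hj v h)
  have hoff : ∀ u, u ∉ insert v (nb ω v) → ω v u = 0 := fun u hu => by
    rw [Finset.mem_insert, not_or, mem_nb] at hu
    by_contra hh
    exact hu.2 ⟨fun e => hu.1 e.symm, hh⟩
  refine ⟨KhB_red _ _ (ω v) hoff (g.KhB_r0 hs hD hvD) j (by rw [hs.1]; exact (mem_nb.1 hv).2),
    fun z hz => Submodule.span_le.2 ?_⟩
  rintro _ ⟨k, rfl⟩
  rw [Finset.mem_inter] at hz
  have h1 := KhB_sum_mem (g.KhB_x ω D) (insert v (nb ω v)) (fun u => g.d z k (ω v u))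
    (fun u hu => by rw [hoff u hu, map_zero])
  rw [eq_neg_of_add_eq_zero_left (g.KhB_r1 hs hD hvD hz.2 k), Submodule.neg_mem_iff] at h1
  exact (Submodule.smul_mem_iff _ (mem_nb.1 hz.1).2).1 h1

end Gen

theorem KhB_thm (g : Gen V K) (h : g.StT2) : g.StKhB := by
  intro G ω D hD
  obtain ⟨⟨w, hw⟩, h2, hi⟩ := hD
  have hs : g.Stress ω := (h2 w hw).bad.1.1
  have hD : ∀ j ∈ D, ∀ j' ∈ D, ω j j' = 0 := fun j hj j' hj' => by
    by_cases e : j = j'
    · subst e; exact (h G ω j (h2 j hj)).1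
    · by_contra hh
      exact hi j hj j' hj' (mem_nb.2 ⟨e, hh⟩)
  refine ⟨fun j hj => g.KhB_one hs hD hj (h2 j hj).deg, fun u v hu hv hl => ?_,
    fun j hj j' hj' hn => ?_, fun v j hj hv hn => ?_, fun v j hj hv => ?_⟩
  · refine g.KhB_R (i := Sum.inl u) (j := Sum.inl v) ⟨hu, hv, fun U hU => ?_⟩
    rw [(h2 w hw).ctx.gwS ω D (h2 w hw).bad.1 ⟨w, hw⟩ (fun j hj => (h2 j hj).deg)] at hU
    exact hU.2 u v ⟨hl, hu, hv⟩
  · have : ∀ k, g.eh ω D (Sum.inr (j, k)) = g.eh ω D (Sum.inr (j', k)) :=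
      g.KhB_same hs hj hj' (hD j hj j hj) hn (Finset.card_pos.1 (by rw [(h2 j hj).deg]; omega))
    simp only [Gen.Wh, this]
  · obtain ⟨h3, h4⟩ := g.KhB_star hs hD hj hv
    have hvD : v ∉ D := fun h => hi j hj v h hv
    refine (h4 j (by rw [hn]; simp)).trans (h3.trans (Submodule.span_le.2 ?_))
    rintro _ ⟨u, hu, rfl⟩
    rw [Finset.mem_coe, Finset.mem_erase, Finset.mem_insert] at hu
    have huD : u ∉ D := fun hh => by
      rcases hu.2 with e | e
      · exact hvD (e ▸ hh)
      · have : u ∈ nb ω v ∩ D := Finset.mem_inter.2 ⟨e, hh⟩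
        rw [hn] at this
        exact hu.1 (Finset.mem_singleton.1 this)
    refine Submodule.subset_span ⟨u, ?_, by simp [Gen.KhB_x, Gen.qh, huD]⟩
    rw [Finset.mem_coe, Finset.mem_insert, Finset.mem_sdiff]
    exact hu.2.imp_right fun e => ⟨e, huD⟩
  · obtain ⟨h3, h4⟩ := g.KhB_star hs hD hj hv
    have hvD : v ∉ D := fun h => hi j hj v h hv
    have hjv : j ∈ nb ω v := mem_nb.2 ⟨(mem_nb.1 hv).1.symm, by rw [hs.1]; exact (mem_nb.1 hv).2⟩
    refine ⟨Submodule.span K (g.KhB_x ω D '' (insert v (nb ω v) : Finset V)), ?_, ?_, h4, ?_⟩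
    · refine (Submodule.finrank_mono h3).trans ?_
      rw [← Finset.coe_image]
      refine (finrank_span_finset_le_card _).trans (Finset.card_image_le.trans ?_)
      rw [Finset.card_erase_of_mem (Finset.mem_insert_of_mem hjv)]
      have := Finset.card_insert_le v (nb ω v)
      omega
    · refine Submodule.span_le.2 ?_
      rintro _ ⟨u, hu, rfl⟩
      rw [Finset.mem_coe, Finset.mem_insert, Finset.mem_sdiff] at hu
      have huD : u ∉ D := by
        rcases hu with e | e
        · exact e ▸ hvD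
        · exact e.2
      refine Submodule.subset_span ⟨u, ?_, by simp [Gen.KhB_x, Gen.qh, huD]⟩
      rw [Finset.mem_coe, Finset.mem_insert]
      exact hu.imp_right fun e => e.1
    · refine KhB_qp_le _ _ _ ?_
      rintro _ rfl
      refine Submodule.span_le.2 ?_
      rintro _ ⟨u, hu, rfl⟩
      rw [Finset.mem_coe, Finset.mem_insert] at hu
      by_cases huD : u ∈ D
      · have hu' : u ∈ nb ω v := hu.resolve_left fun e => hvD (e ▸ huD)
        rw [Gen.KhB_x, if_pos huD]
        refine Submodule.sum_mem _ fun l _ => Submodule.smul_mem _ _ ?_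
        exact g.KhB_R (i := Sum.inl v) (j := Sum.inr (u, l))
          ⟨huD, mem_nb.2 ⟨(mem_nb.1 hu').1.symm, by rw [hs.1]; exact (mem_nb.1 hu').2⟩⟩
      · rw [Gen.KhB_x, if_neg huD]
        exact g.KhB_R (g.KhB_link v u hvD huD (hu.imp Eq.symm fun e => (mem_nb.1 e).2))

end Pool.Agent.Dress
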