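import Pool.Agent.Lib.MP_d237f6_co.DR.Gam

/-! Decomposition of clique stresses along maximal cliques and the local count at a vertex. -/

set_option autoImplicit false

namespace Pool.Agent.Dress

open Matrix Module Classical

variable {K : Type} [Field K] [CharZero K] {V : Type} [DecidableEq V] [Fintype V]

omit [CharZero K] in
theorem LC_dec (g : Gen V K) : g.StDec := by
  intro F σ hσ
  induction hσ using Submodule.span_induction with
  | mem Ω hΩ =>
    obtain ⟨h1, X₀, h2, h3⟩ := hΩ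
    by_cases h0 : Ω = 0
    · exact ⟨0, ⟨fun _ => g.stress_zero, fun _ h => absurd rfl h, fun _ _ _ h => absurd rfl h⟩,
        by simp [h0]⟩
    have h5 : 5 ≤ X₀.card := by
      by_contra hc
      refine h0 (funext fun u => g.dep_zero (h1.2 u) X₀ (by omega) fun w hw => ?_)
      by_contra hh
      exact hw (h3 w u (by rwa [h1.1]))
    obtain ⟨X, hX, hmax⟩ := Finset.exists_max_image
      (Finset.univ.filter (fun Y : Finset V => g.Clq F Y ∧ X₀ ⊆ Y)) Finset.card
      ⟨X₀, by simp [h2]⟩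
    simp only [Finset.mem_filter, Finset.mem_univ, true_and] at hX hmax
    have hM : g.MaxC F X := ⟨h5.trans (Finset.card_le_card hX.2), hX.1, fun Y hY hXY =>
      (Finset.eq_of_subset_of_card_le hXY (hmax Y ⟨hY, hX.2.trans hXY⟩)).symm⟩
    refine ⟨Pi.single X Ω, ⟨fun Y => ?_, fun Y hY => ?_, fun Y u v hY => ?_⟩, by simp⟩
    · by_cases e : Y = X
      · subst e; simpa using h1
      · rw [Pi.single_eq_of_ne e]; exact g.stress_zero
    · by_cases e : Y = X
      · rw [e]; exact hM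
      · exact absurd (Pi.single_eq_of_ne e _) hY
    · by_cases e : Y = X
      · subst e
        rw [Pi.single_eq_same] at hY
        exact hX.2 (h3 u v hY)
      · rw [Pi.single_eq_of_ne e] at hY
        exact absurd rfl hY
  | zero =>
    exact ⟨0, ⟨fun _ => g.stress_zero, fun _ h => absurd rfl h, fun _ _ _ h => absurd rfl h⟩,
      by simp⟩
  | add a b _ _ ha hb =>
    obtain ⟨κ, ⟨a1, a2, a3⟩, rfl⟩ := ha
    obtain ⟨κ', ⟨b1, b2, b3⟩, rfl⟩ := hb
    refine ⟨κ + κ', ⟨fun X => g.stress_add (a1 X) (b1 X), fun X hX => ?_, fun X u v hX => ?_⟩,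
      by simp [Finset.sum_add_distrib]⟩
    · by_cases e : κ X = 0
      · exact b2 X (fun e' => hX (by simp [e, e']))
      · exact a2 X e
    · by_cases e : κ X u v = 0
      · exact b3 X u v (fun e' => hX (by simp [e, e']))
      · exact a3 X u v e
  | smul c a _ ha =>
    obtain ⟨κ, ⟨a1, a2, a3⟩, rfl⟩ := ha
    refine ⟨c • κ, ⟨fun X => g.stress_smul (a1 X) c, fun X hX => ?_, fun X u v hX => ?_⟩,
      by simp [Finset.smul_sum]⟩
    · exact a2 X (fun e => hX (by simp [e]))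
    · exact a3 X u v (fun e => hX (by simp [e]))

omit [Fintype V] in
/-- double counting: points lying in exactly one member of a family -/
theorem LC_own {ι : Type} [DecidableEq ι] (C : Finset ι) (S : ι → Finset V) :
    2 * (C.biUnion S).card ≤ ∑ X ∈ C, (S X).card +
      ((C.biUnion S).filter (fun u => (C.filter (fun X => u ∈ S X)).card = 1)).card := by
  have e1 : ∑ X ∈ C, (S X).card = ∑ u ∈ C.biUnion S, (C.filter (fun X => u ∈ S X)).card := by
    have : ∀ X ∈ C, (S X).card = ∑ u ∈ C.biUnion S, if u ∈ S X then 1 else 0 := by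
      intro X hX
      rw [← Finset.card_filter, Finset.filter_mem_eq_inter,
        Finset.inter_eq_right.2 (Finset.subset_biUnion_of_mem S hX)]
    rw [Finset.sum_congr rfl this, Finset.sum_comm]
    exact Finset.sum_congr rfl fun u _ => by rw [Finset.card_filter]
  rw [e1, Finset.card_filter, ← Finset.sum_add_distrib, mul_comm, Finset.card_eq_sum_ones,
    Finset.sum_mul]
  refine Finset.sum_le_sum fun u hu => ?_
  obtain ⟨X, hX, huX⟩ := Finset.mem_biUnion.1 hu
  have : 0 < (C.filter (fun X => u ∈ S X)).card :=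
    Finset.card_pos.2 ⟨X, Finset.mem_filter.2 ⟨hX, huX⟩⟩
  split_ifs <;> omega

omit [CharZero K] in
/-- the members of a family that see a vertex -/
theorem LC_mem (g : Gen V K) {F : V → V → Prop} {κ : Finset V → V → V → K} (hκ : g.Fam F κ)
    (v : V) (X : Finset V) (hX : κ X v ≠ 0) :
    g.MaxC F X ∧ v ∈ X ∧ nb (κ X) v ⊆ X.erase v ∧ 4 ≤ (nb (κ X) v).card := by
  refine ⟨hκ.2.1 X (fun e => hX (by rw [e]; rfl)), ?_, fun u hu => ?_, ?_⟩
  · obtain ⟨u, hu⟩ := Function.ne_iff.1 hX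
    exact hκ.2.2 X v u hu
  · rw [mem_nb] at hu
    exact Finset.mem_erase.2 ⟨hu.1.symm, hκ.2.2 X u v (by rw [(hκ.1 X).1]; exact hu.2)⟩
  · by_contra hc
    exact hX (g.row_zero (hκ.1 X) v (by omega))

omit [CharZero K] [DecidableEq V] in
theorem LC_row (κ : Finset V → V → V → K) (v : V) :
    (∑ X, κ X) v = ∑ X ∈ Finset.univ.filter (fun X => κ X v ≠ 0), κ X v := by
  rw [Finset.sum_apply, Finset.sum_filter_ne_zero]

omit [CharZero K] in
/-- the count of own points -/
theorem LC_count (g : Gen V K) {F : V → V → Prop} {κ : Finset V → V → V → K} (hκ : g.Fam F κ)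
    (v : V) (C : Finset (Finset V)) (hC : C = Finset.univ.filter (fun X => κ X v ≠ 0)) :
    4 * C.card ≤ ∑ X ∈ C, (nb (κ X) v).card ∧
    2 * (C.biUnion fun X => nb (κ X) v).card
      ≤ ∑ X ∈ C, (nb (κ X) v).card + (nb (∑ X, κ X) v).card := by
  have hm : ∀ X, X ∈ C ↔ κ X v ≠ 0 := fun X => by simp [hC]
  constructor
  · rw [mul_comm, Finset.card_eq_sum_ones, Finset.sum_mul]
    exact Finset.sum_le_sum fun X hX => by
      have := (LC_mem g hκ v X ((hm X).1 hX)).2.2.2
      omega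
  · refine (LC_own C fun X => nb (κ X) v).trans (Nat.add_le_add_left (Finset.card_le_card ?_) _)
    intro u hu
    obtain ⟨hu1, hu2⟩ := Finset.mem_filter.1 hu
    obtain ⟨X, hX⟩ := Finset.card_eq_one.1 hu2
    have hX1 : X ∈ C.filter (fun X => u ∈ nb (κ X) v) := by rw [hX]; simp
    obtain ⟨hXC, huX⟩ := Finset.mem_filter.1 hX1
    rw [mem_nb] at huX ⊢
    refine ⟨huX.1, ?_⟩
    rw [LC_row, ← hC, Finset.sum_apply, Finset.sum_eq_single_of_mem X hXC]
    · exact huX.2
    · intro Y hY hne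
      by_contra hh
      have : Y ∈ C.filter (fun X => u ∈ nb (κ X) v) :=
        Finset.mem_filter.2 ⟨hY, mem_nb.2 ⟨huX.1, hh⟩⟩
      rw [hX] at this
      exact hne (Finset.mem_singleton.1 this)

omit [CharZero K] in
theorem LC_ineq (g : Gen V K) (h : g.StLCc) {F : V → V → Prop} {κ : Finset V → V → V → K}
    (hκ : g.Fam F κ) (v : V) (C : Finset (Finset V))
    (hC : C = Finset.univ.filter (fun X => κ X v ≠ 0)) (h2 : 2 ≤ C.card) :
    2 * ∑ X ∈ C, (nb (κ X) v).card + 4
      ≤ 2 * (C.biUnion fun X => nb (κ X) v).card + 3 * C.card := by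
  have := h F v C (fun X => nb (κ X) v) h2 (fun X hX => by
    obtain ⟨a, b, c, d⟩ := LC_mem g hκ v X (by simpa [hC] using hX)
    exact ⟨a, b, c, by omega⟩)
  rwa [← Finset.mul_sum] at this

omit [CharZero K] in
theorem LC_d2 (g : Gen V K) (h : g.StLCc) : g.StD2 := by
  intro F κ hκ h0 X
  funext v
  by_contra hX
  obtain ⟨C, hC⟩ : ∃ C, C = Finset.univ.filter (fun X => κ X v ≠ 0) := ⟨_, rfl⟩
  have hXC : X ∈ C := by simpa [hC] using hX
  have hpos : 0 < C.card := Finset.card_pos.2 ⟨X, hXC⟩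
  obtain ⟨c1, c2⟩ := LC_count g hκ v C hC
  have hnb : (nb (∑ X, κ X) v).card = 0 := by
    rw [Finset.card_eq_zero, h0]
    ext u
    simp [mem_nb]
  by_cases h2 : 2 ≤ C.card
  · have := LC_ineq g h hκ v C hC h2
    omega
  · obtain ⟨Y, hY⟩ := Finset.card_eq_one.1 (by omega : C.card = 1)
    have e := LC_row κ v
    rw [← hC, hY, Finset.sum_singleton, h0] at e
    rw [hY, Finset.mem_singleton] at hXC
    exact hX (by rw [hXC, ← e])

omit [CharZero K] in
theorem LC_lc (g : Gen V K) (h : g.StLCc) : g.StLC := by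
  intro F σ v hσ h0 h7
  obtain ⟨κ, hκ, rfl⟩ := LC_dec g F σ hσ
  obtain ⟨C, hC⟩ : ∃ C, C = Finset.univ.filter (fun X => κ X v ≠ 0) := ⟨_, rfl⟩
  have hm : ∀ X, X ∈ C ↔ κ X v ≠ 0 := fun X => by simp [hC]
  obtain ⟨c1, c2⟩ := LC_count g hκ v C hC
  have e := LC_row κ v
  rw [← hC] at e
  have hpos : C.card ≠ 0 := fun hz => h0 (by rw [e, Finset.card_eq_zero.1 hz]; simp)
  by_cases h2 : 2 ≤ C.card
  · have c3 := LC_ineq g h hκ v C hC h2
    obtain ⟨X₁, X₂, hne, hCC⟩ := Finset.card_eq_two.1 (by omega : C.card = 2)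
    have m1 := LC_mem g hκ v X₁ ((hm X₁).1 (by simp [hCC]))
    have m2 := LC_mem g hκ v X₂ ((hm X₂).1 (by simp [hCC]))
    have hU : (C.biUnion fun X => nb (κ X) v) = nb (κ X₁) v ∪ nb (κ X₂) v := by simp [hCC]
    have hcard : C.card = 2 := by omega
    rw [hU, hcard] at c3
    rw [hU] at c2
    rw [hCC, Finset.sum_pair hne] at c2 c3 e
    have c4 := Finset.card_union_add_card_inter (nb (κ X₁) v) (nb (κ X₂) v)
    have d1 := m1.2.2.2
    have d2 := m2.2.2.2
    obtain ⟨z, hz⟩ := Finset.card_eq_one.1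
      (by omega : (nb (κ X₁) v ∩ nb (κ X₂) v).card = 1)
    have hz' : z ∈ nb (κ X₁) v ∩ nb (κ X₂) v := by rw [hz]; simp
    obtain ⟨z1, z2⟩ := Finset.mem_inter.1 hz'
    have only : ∀ u, u ∈ nb (κ X₁) v → u ∈ nb (κ X₂) v → u = z := fun u a b => by
      have : u ∈ nb (κ X₁) v ∩ nb (κ X₂) v := Finset.mem_inter.2 ⟨a, b⟩
      rw [hz] at this
      exact Finset.mem_singleton.1 this
    have ev : ∀ u, (∑ X, κ X) v u = κ X₁ v u + κ X₂ v u := fun u => by rw [e]; rfl
    have sub : ∀ X, v ∈ X → nb (κ X) v ⊆ X.erase v → insert v (nb (κ X) v) ⊆ X :=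
      fun X a b => Finset.insert_subset a (b.trans (Finset.erase_subset _ _))
    have off : ∀ X u, u ∉ insert v (nb (κ X) v) → κ X v u = 0 := fun X u hu => by
      rw [Finset.mem_insert, not_or, mem_nb] at hu
      by_contra hh
      exact hu.2 ⟨fun e => hu.1 e.symm, hh⟩
    refine Or.inr ⟨z, (nb (κ X₁) v).erase z, (nb (κ X₂) v).erase z, κ X₁ v, κ X₂ v,
      (mem_nb.1 z1).1.symm, Finset.notMem_erase _ _, Finset.notMem_erase _ _, ?_, ?_, ?_, ?_, ?_,
      ?_, (hκ.1 X₁).2 v, (hκ.1 X₂).2 v, e, ?_, ?_, ?_, ?_⟩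
    · rw [Finset.disjoint_left]
      intro u a b
      rw [Finset.mem_erase] at a b
      exact a.1 (only u a.2 b.2)
    · rw [Finset.card_erase_of_mem z1]; omega
    · rw [Finset.card_erase_of_mem z2]; omega
    · intro u hu
      obtain ⟨a, b⟩ := Finset.mem_erase.1 hu
      have hb := mem_nb.1 b
      have : κ X₂ v u = 0 := by
        by_contra hh
        exact a (only u b (mem_nb.2 ⟨hb.1, hh⟩))
      exact mem_nb.2 ⟨hb.1, by rw [ev, this, add_zero]; exact hb.2⟩
    · intro u hu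
      obtain ⟨a, b⟩ := Finset.mem_erase.1 hu
      have hb := mem_nb.1 b
      have : κ X₁ v u = 0 := by
        by_contra hh
        exact a (only u (mem_nb.2 ⟨hb.1, hh⟩) b)
      exact mem_nb.2 ⟨hb.1, by rw [ev, this, zero_add]; exact hb.2⟩
    · intro u hu
      obtain ⟨a, b⟩ := mem_nb.1 hu
      rw [Finset.mem_insert, Finset.mem_union, Finset.mem_erase, Finset.mem_erase]
      by_cases e1 : u = z
      · exact Or.inl e1
      · by_cases e2 : κ X₁ v u = 0
        · rw [ev, e2, zero_add] at b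
          exact Or.inr (Or.inr ⟨e1, mem_nb.2 ⟨a, b⟩⟩)
        · exact Or.inr (Or.inl ⟨e1, mem_nb.2 ⟨a, e2⟩⟩)
    · rw [Finset.insert_erase z1]; exact off X₁
    · rw [Finset.insert_erase z2]; exact off X₂
    · rw [Finset.insert_erase z1]; exact g.clq_sub m1.1.2.1 (sub X₁ m1.2.1 m1.2.2.1)
    · rw [Finset.insert_erase z2]; exact g.clq_sub m2.1.2.1 (sub X₂ m2.2.1 m2.2.2.1)
  · obtain ⟨X, hX⟩ := Finset.card_eq_one.1 (by omega : C.card = 1)
    rw [hX, Finset.sum_singleton] at e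
    have m := LC_mem g hκ v X ((hm X).1 (by simp [hX]))
    have : nb (∑ X, κ X) v = nb (κ X) v := by
      ext u
      rw [mem_nb, mem_nb, e]
    rw [this]
    exact Or.inl (g.clq_sub m.1.2.1
      (Finset.insert_subset m.2.1 (m.2.2.1.trans (Finset.erase_subset _ _))))

theorem LC_thm (g : Gen V K) (h : g.StLCc) : g.StDec ∧ g.StD2 ∧ g.StLC :=
  ⟨LC_dec g, LC_d2 g h, LC_lc g h⟩

end Pool.Agent.Dress
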