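import Pool.Agent.Lib.MP_d237f6_co.DR.Gam

/-! The count for the maximal cliques through a vertex. -/

set_option autoImplicit false

namespace Pool.Agent.Dress

open Matrix Module Classical

variable {K : Type} [Field K] [CharZero K] {V : Type} [DecidableEq V] [Fintype V]

theorem LCc_star (x : V) (A Y : Finset V) :
    ((A.image fun y => s(x, y)).filter (fun e => ∀ z ∈ e, z ∈ Y)).card ≤
      if x ∈ Y then (A ∩ Y).card else 0 := by
  split_ifs with h
  · refine (Finset.card_le_card (t := (A ∩ Y).image fun y => s(x, y)) fun e he => ?_).trans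
      Finset.card_image_le
    obtain ⟨h1, h2⟩ := Finset.mem_filter.1 he
    obtain ⟨y, hy, rfl⟩ := Finset.mem_image.1 h1
    exact Finset.mem_image_of_mem _ (Finset.mem_inter.2 ⟨hy, h2 y (by simp)⟩)
  · refine (Finset.card_eq_zero.2 (Finset.filter_eq_empty_iff.2 fun e he h2 => ?_)).le
    obtain ⟨y, -, rfl⟩ := Finset.mem_image.1 he
    exact h (h2 x (by simp))

omit [Fintype V] in
theorem LCc_card (x : V) (A : Finset V) : (A.image fun y => s(x, y)).card = A.card :=
  Finset.card_image_of_injective _ fun _ _ h => Sym2.congr_right.1 h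

theorem LCc_fan (S : Finset V) (hS : 2 ≤ S.card) : ∃ E : Finset (Sym2 V),
    (∀ e ∈ E, ¬ e.IsDiag ∧ ∀ x ∈ e, x ∈ S) ∧ E.card + 3 = 2 * S.card ∧
    ∀ Y : Finset V, 2 ≤ Y.card → (E.filter (fun e => ∀ x ∈ e, x ∈ Y)).card + 3 ≤ 2 * Y.card := by
  obtain ⟨a, ha, b, hb, hab⟩ := Finset.one_lt_card.1 (show 1 < S.card by omega)
  refine ⟨(S.erase a).image (fun y => s(a, y)) ∪ ((S.erase a).erase b).image fun y => s(b, y),
    fun e he => ?_, ?_, fun Y hY => ?_⟩
  · simp only [Finset.mem_union, Finset.mem_image, Finset.mem_erase] at he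
    rcases he with ⟨y, hy, rfl⟩ | ⟨y, hy, rfl⟩
    · simp [ha, hy.2, hy.1.symm]
    · simp [hb, hy.2.2, hy.1.symm]
  · have e1 := Finset.card_erase_add_one ha
    have e2 := Finset.card_erase_add_one (Finset.mem_erase.2 ⟨hab.symm, hb⟩)
    rw [Finset.card_union_of_disjoint, LCc_card, LCc_card]
    · omega
    refine Finset.disjoint_left.2 fun e h1 h2 => ?_
    obtain ⟨y, -, rfl⟩ := Finset.mem_image.1 h1
    obtain ⟨z, hz, e⟩ := Finset.mem_image.1 h2
    have : a ∈ s(b, z) := e ▸ Sym2.mem_mk_left a y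
    rcases Sym2.mem_iff.1 this with h | h
    · exact hab h
    · exact (Finset.mem_erase.1 (Finset.mem_erase.1 hz).2).1 h.symm
  · rw [Finset.filter_union]
    have h0 := Finset.card_union_le (((S.erase a).image fun y => s(a, y)).filter
      (fun e => ∀ z ∈ e, z ∈ Y)) ((((S.erase a).erase b).image fun y => s(b, y)).filter
      (fun e => ∀ z ∈ e, z ∈ Y))
    have h1 := LCc_star a (S.erase a) Y
    have h2 := LCc_star b ((S.erase a).erase b) Y
    have h3 : (S.erase a ∩ Y).card ≤ (Y.erase a).card := Finset.card_le_card fun y hy => by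
      simp only [Finset.mem_inter, Finset.mem_erase] at hy ⊢; tauto
    have h4 : ((S.erase a).erase b ∩ Y).card ≤ ((Y.erase a).erase b).card :=
      Finset.card_le_card fun y hy => by
        simp only [Finset.mem_inter, Finset.mem_erase] at hy ⊢; tauto
    by_cases ya : a ∈ Y <;> by_cases yb : b ∈ Y <;> simp only [ya, yb, if_true, if_false] at h1 h2
    · have := Finset.card_erase_add_one ya
      have := Finset.card_erase_add_one (Finset.mem_erase.2 ⟨hab.symm, yb⟩)
      omega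
    · have := Finset.card_erase_add_one ya
      omega
    · rw [Finset.erase_eq_of_notMem ya] at h4
      have := Finset.card_erase_add_one yb
      omega
    · omega

namespace Gen

variable (g : Gen V K)

theorem LCc_rigid (h1 : g.StRB) (h2 : g.StCone) {F : V → V → Prop} {v : V} {Y : Finset V}
    {E : Finset (Sym2 V)} (hv : v ∉ Y) (hE : ∀ e ∈ E, ¬ e.IsDiag ∧ ∀ x ∈ e, x ∈ Y)
    (hs : ∀ Y' ⊆ Y, 2 ≤ Y'.card → (E.filter (fun e => ∀ x ∈ e, x ∈ Y')).card + 3 ≤ 2 * Y'.card)
    (hc : E.card + 3 = 2 * Y.card) (hl : ∀ a b, s(a, b) ∈ E → g.Link F a b)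
    (hl' : ∀ y ∈ Y, g.Link F v y) : g.Clq F (insert v Y) := by
  intro s hs' t ht U hU
  by_contra hne
  have hst : s ≠ t := by
    rintro rfl
    exact hne (g.link_refl F s U hU)
  let E' := E ∪ Y.image fun y => s(v, y)
  have m : ∀ a b, s(a, b) ∈ E' → s(a, b) ∈ E ∨ (a = v ∧ b ∈ Y) ∨ (b = v ∧ a ∈ Y) := by
    intro a b h
    refine (Finset.mem_union.1 h).imp_right fun h => ?_
    obtain ⟨y, hy, e⟩ := Finset.mem_image.1 h
    rcases Sym2.eq_iff.1 e with ⟨rfl, rfl⟩ | ⟨rfl, rfl⟩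
    exacts [Or.inl ⟨rfl, hy⟩, Or.inr ⟨rfl, hy⟩]
  have l : ∀ a b, s(a, b) ∈ E' → dl g.p U a b = 0 := fun a b h => by
    rcases m a b h with k | ⟨rfl, k⟩ | ⟨rfl, k⟩
    exacts [hl a b k U hU, hl' b k U hU, g.link_symm (hl' a k) U hU]
  have c : E'.card = E.card + Y.card := by
    rw [Finset.card_union_of_disjoint, LCc_card]
    refine Finset.disjoint_left.2 fun e h h' => ?_
    obtain ⟨y, -, rfl⟩ := Finset.mem_image.1 h'
    exact hv ((hE _ h).2 v (by simp))
  have := h1 (insert s(s, t) E') (insert v Y) (by rw [Finset.card_insert_of_notMem hv]; omega)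
    (fun e he => by
      rcases Finset.mem_insert.1 he with rfl | he
      · simpa [hst] using ⟨Finset.mem_insert.1 hs', Finset.mem_insert.1 ht⟩
      rcases Finset.mem_union.1 he with he | he
      · exact ⟨(hE e he).1, fun x hx => Finset.mem_insert_of_mem ((hE e he).2 x hx)⟩
      · obtain ⟨y, hy, rfl⟩ := Finset.mem_image.1 he
        simpa [hy] using fun e : v = y => hv (e ▸ hy))
    fun σ hσ ho => by
      have o : ∀ a b, a ≠ b → σ a b ≠ 0 → s(a, b) = s(s, t) ∨ s(a, b) ∈ E' := fun a b h h' =>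
        Finset.mem_insert.1 ((ho a b h h').elim id fun h => Sym2.eq_swap (a := b) ▸ h)
      have z : σ s t = 0 := by
        have := g.stress_pair hσ U
        rw [← Fintype.sum_prod_type', ← Finset.sum_subset (Finset.subset_univ {(s, t), (t, s)}),
          Finset.sum_pair (by simp [hst]), hσ.1 t s, dl_comm _ _ t s, ← two_mul] at this
        · simpa [hne] using this
        rintro ⟨a, b⟩ - hab
        by_cases e : a = b
        · rw [e, g.link_refl F b U hU, mul_zero]
        by_cases e' : σ a b = 0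
        · rw [e', zero_mul]
        rcases o a b e e' with h | h
        · exact absurd (by simpa using Sym2.eq_iff.1 h) hab
        · rw [l a b h, mul_zero]
      refine h2 v Y E hv hE hs σ hσ fun a b h h' => ?_
      rcases o a b h h' with e | e
      · rcases Sym2.eq_iff.1 e with ⟨rfl, rfl⟩ | ⟨rfl, rfl⟩
        · exact absurd z h'
        · exact absurd ((hσ.1 _ _).trans z) h'
      · rcases m a b e with e | e | e
        exacts [Or.inl (Or.inl e), Or.inl (Or.inr e), Or.inr (Or.inr e)]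
  rw [Finset.card_insert_of_notMem fun h => hne (l s t h), Finset.card_insert_of_notMem hv] at this
  omega

omit [Fintype V] in
theorem LCc_max {F : V → V → Prop} {X Z : Finset V} (hX : g.MaxC F X) (hZ : g.Clq F Z) {v a b : V}
    (hab : a ≠ b) (ha : a ≠ v) (hb : b ≠ v) (h : {v, a, b} ⊆ X ∩ Z) : Z ⊆ X := by
  have := Finset.card_le_card h
  rw [Finset.card_eq_three.2 ⟨v, a, b, ha.symm, hb.symm, hab, rfl⟩] at this
  rw [← hX.2.2 _ (g.merge hX.2.1 hZ this) Finset.subset_union_left]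
  exact Finset.subset_union_right

end Gen

theorem LCc_thm (g : Gen V K) (h1 : g.StRB) (h2 : g.StCone) : g.StLCc := by
  intro F v C S hC hS
  choose! E e1 e2 e3 using LCc_fan (V := V)
  have sub : ∀ X ∈ C, ∀ x ∈ S X, x ≠ v ∧ x ∈ X := fun X hX x hx =>
    Finset.mem_erase.1 ((hS X hX).2.2.1 hx)
  have mx : ∀ X ∈ C, ∀ Z, g.Clq F Z → v ∈ Z → ∀ a b, a ≠ b → a ≠ v → b ≠ v → a ∈ X → b ∈ X →
      a ∈ Z → b ∈ Z → Z ⊆ X := fun X hX Z hZ hv a b hab ha hb a1 b1 a2 b2 =>
    g.LCc_max (hS X hX).1 hZ hab ha hb (by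
      simp [Finset.insert_subset_iff, (hS X hX).2.1, hv, a1, a2, b1, b2])
  have eq : ∀ X ∈ C, ∀ X' ∈ C, ∀ a b, a ≠ b → a ∈ S X → b ∈ S X → a ∈ X' → b ∈ X' → X = X' :=
    fun X hX X' hX' a b hab ha hb a' b' => ((hS X hX).1.2.2 _ (hS X' hX').1.2.1
      (mx X' hX' X (hS X hX).1.2.1 (hS X hX).2.1 a b hab (sub X hX a ha).1 (sub X hX b hb).1 a' b'
        (sub X hX a ha).2 (sub X hX b hb).2)).symm
  have ed : ∀ X ∈ C, ∀ a b, s(a, b) ∈ E (S X) → a ≠ b ∧ a ∈ S X ∧ b ∈ S X := fun X hX a b h => by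
    simpa using e1 _ (hS X hX).2.2.2 _ h
  let A := C.biUnion fun X => E (S X)
  have mA : ∀ e, e ∈ A ↔ ∃ X ∈ C, e ∈ E (S X) := fun e => Finset.mem_biUnion
  have cA : A.card + 3 * C.card = ∑ X ∈ C, 2 * (S X).card := by
    rw [Finset.card_biUnion, Finset.card_eq_sum_ones C, Finset.mul_sum, ← Finset.sum_add_distrib]
    · exact Finset.sum_congr rfl fun X hX => e2 _ (hS X hX).2.2.2
    intro X hX X' hX' ne
    refine Finset.disjoint_left.2 fun e h h' => ?_
    induction e using Sym2.ind with | _ a b =>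
    obtain ⟨hab, ha, hb⟩ := ed X hX a b h
    obtain ⟨-, ha', hb'⟩ := ed X' hX' a b h'
    exact ne (eq X hX X' hX' a b hab ha hb (sub X' hX' a ha').2 (sub X' hX' b hb').2)
  by_contra hc
  obtain ⟨Y, hY, hm⟩ := Finset.exists_min_image ((C.biUnion S).powerset.filter fun Y =>
      (∀ X ∈ C, ¬ Y ⊆ X) ∧ 2 * Y.card ≤ (A.filter (fun e => ∀ x ∈ e, x ∈ Y)).card + 3)
    Finset.card ⟨C.biUnion S, Finset.mem_filter.2 ⟨Finset.mem_powerset_self _, fun X hX h => by
      obtain ⟨X', hX', ne⟩ := Finset.exists_mem_ne (show 1 < C.card by omega) X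
      obtain ⟨a, ha, b, hb, hab⟩ := Finset.one_lt_card.1
        (show 1 < (S X').card by have := (hS X' hX').2.2.2; omega)
      exact ne (eq X' hX' X hX a b hab ha hb (h (Finset.mem_biUnion.2 ⟨X', hX', ha⟩))
        (h (Finset.mem_biUnion.2 ⟨X', hX', hb⟩))), by
      rw [Finset.filter_true_of_mem fun e he x hx => by
        obtain ⟨X, hX, h⟩ := (mA e).1 he
        exact Finset.mem_biUnion.2 ⟨X, hX, (e1 _ (hS X hX).2.2.2 _ h).2 x hx⟩]
      omega⟩⟩
  obtain ⟨y1, y2, y3⟩ := Finset.mem_filter.1 hY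
  rw [Finset.mem_powerset] at y1
  have y4 : ∀ y ∈ Y, ∃ X ∈ C, y ∈ S X := fun y hy => Finset.mem_biUnion.1 (y1 hy)
  have y5 : 2 ≤ Y.card := by
    by_contra h
    obtain ⟨X, hX⟩ := Finset.card_pos.1 (show 0 < C.card by omega)
    obtain ⟨y, hy, -⟩ := Finset.not_subset.1 (y2 X hX)
    obtain ⟨X', hX', h'⟩ := y4 y hy
    exact y2 X' hX' fun z hz =>
      Finset.card_le_one.1 (show Y.card ≤ 1 by omega) y hy z hz ▸ (sub X' hX' y h').2
  obtain ⟨E', s1, s2⟩ := Finset.exists_subset_card_eq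
    (show 2 * Y.card - 3 ≤ (A.filter (fun e => ∀ x ∈ e, x ∈ Y)).card by omega)
  have s3 : ∀ e ∈ E', (∃ X ∈ C, e ∈ E (S X)) ∧ ∀ x ∈ e, x ∈ Y := fun e he =>
    (Finset.mem_filter.1 (s1 he)).imp_left (mA e).1
  have cl := g.LCc_rigid h1 h2 (F := F) (v := v) (Y := Y) (E := E')
    (fun h => by
      obtain ⟨X, hX, h'⟩ := y4 v h
      exact (sub X hX v h').1 rfl)
    (fun e he => by
      obtain ⟨⟨X, hX, h⟩, h'⟩ := s3 e he
      exact ⟨(e1 _ (hS X hX).2.2.2 _ h).1, h'⟩)
    (fun Y' hY' c => by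
      rcases hY'.eq_or_ssubset with rfl | ss
      · have := Finset.card_filter_le E' (fun e => ∀ x ∈ e, x ∈ Y')
        omega
      have le := Finset.card_le_card (Finset.filter_subset_filter (fun e => ∀ x ∈ e, x ∈ Y')
        (s1.trans (Finset.filter_subset _ _)))
      by_cases h : ∀ X ∈ C, ¬ Y' ⊆ X
      · by_contra h'
        exact (hm Y' (Finset.mem_filter.2 ⟨Finset.mem_powerset.2 (hY'.trans y1), h,
          by omega⟩)).not_gt (Finset.card_lt_card ss)
      push Not at h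
      obtain ⟨X, hX, h⟩ := h
      refine le_trans (Nat.add_le_add_right (le.trans (Finset.card_le_card fun e he => ?_)) 3)
        (e3 _ (hS X hX).2.2.2 Y' c)
      obtain ⟨a1, a2⟩ := Finset.mem_filter.1 he
      obtain ⟨X', hX', a3⟩ := (mA e).1 a1
      induction e using Sym2.ind with | _ a b =>
      obtain ⟨hab, ha, hb⟩ := ed X' hX' a b a3
      exact Finset.mem_filter.2 ⟨eq X' hX' X hX a b hab ha hb (h (a2 a (by simp)))
        (h (a2 b (by simp))) ▸ a3, a2⟩)
    (by omega)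
    (fun a b h => by
      obtain ⟨⟨X, hX, h⟩, -⟩ := s3 _ h
      obtain ⟨-, ha, hb⟩ := ed X hX a b h
      exact (hS X hX).1.2.1 a (sub X hX a ha).2 b (sub X hX b hb).2)
    fun y hy => by
      obtain ⟨X, hX, h⟩ := y4 y hy
      exact (hS X hX).1.2.1 v (hS X hX).2.1 y (sub X hX y h).2
  obtain ⟨e, he⟩ := Finset.card_pos.1 (show 0 < E'.card by omega)
  induction e using Sym2.ind with | _ a b =>
  obtain ⟨⟨X, hX, h⟩, h'⟩ := s3 _ he
  obtain ⟨hab, ha, hb⟩ := ed X hX a b h
  exact y2 X hX ((Finset.subset_insert v Y).trans (mx X hX _ cl (Finset.mem_insert_self _ _) a b hab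
    (sub X hX a ha).1 (sub X hX b hb).1 (sub X hX a ha).2 (sub X hX b hb).2
    (Finset.mem_insert_of_mem (h' a (by simp))) (Finset.mem_insert_of_mem (h' b (by simp)))))

end Pool.Agent.Dress
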