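import Pool.Agent.Lib.MP_d237f6_co.DR.P2a

/-! Two neighbours of degree six: the two lifts agree. -/

set_option autoImplicit false

namespace Pool.Agent.Dress

open Matrix Module Classical

variable {K : Type} [Field K] [CharZero K] {V : Type} [DecidableEq V] [Fintype V]

omit [DecidableEq V] [Fintype V] in
theorem P2_del_comm (F : V → V → Prop) (a b : V) : del (del F a) b = del (del F b) a := by
  ext u v; simp only [del]; tauto

namespace Gen

variable {g : Gen V K} {G : V → V → Prop} {ω : V → V → K} {w i i' : V} {c c' : V → K}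

omit [CharZero K] in
theorem P2_nb_symm (hs : g.Set2 G ω w) {u v : V} (h : u ∈ nb ω v) : v ∈ nb ω u := by
  rw [mem_nb] at h ⊢
  exact ⟨h.1.symm, by rw [hs.bad.1.1.1]; exact h.2⟩

omit [CharZero K] in
theorem P2_card (hs : g.Set2 G ω w) (hi : i ∈ nb ω w) (h6 : (nb ω i).card = 6) :
    ((nb ω i).erase w).card = 5 := by
  rw [Finset.card_erase_of_mem (P2_nb_symm hs hi), h6]

omit [CharZero K] in
theorem P2_disj (h3 : g.StN2) (hs : g.Set2 G ω w) (hi : i ∈ nb ω w) (h6 : (nb ω i).card = 6) :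
    ∀ a ∈ nb ω w, a ∉ (nb ω i).erase w := by
  intro a ha h
  have h1 := mem_nb.1 (Finset.mem_of_mem_erase h)
  exact ((h3 G ω w i hs hi).2 h6).1 a ha h1.1.symm (hs.bad.1.2.1 i a h1.2)

omit [CharZero K] in
/-- extension of a flex to the second vertex -/
theorem P2_ext (hs : g.Set2 G ω w) (hi : i ∈ nb ω w) (hi' : i' ∈ nb ω w) (hii : i ≠ i')
    (hcd : g.CD ω w i c) (hb : g.P2_Ba ((nb ω i).erase w) c) (hN : i' ∉ (nb ω i).erase w)
    {U : V → Vec K} (hU : U ∈ g.flex (del (del (del (adj ω) w) i) i')) {L L' : Mat K}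
    {β β' : Vec K} (hL : g.Lift ((nb ω i).erase w) c U L β)
    (hL' : g.Lift ((nb ω i').erase w) c' U L' β') (x1 : β' ⬝ᵥ g.p i' = 0)
    (x2 : bil L' (g.p i') (g.p i') = 0) :
    (∀ b ∈ ((nb ω w).erase i).erase i', U b = -(Lᵀ *ᵥ g.p b)) ∧
      Lᵀ *ᵥ g.p i' = L'ᵀ *ᵥ g.p i' := by
  have e1 := g.extend_mem (isol_del _ i') hU ((nb ω i').erase w)
    (fun h => (mem_nb.1 (Finset.mem_of_mem_erase h)).1 rfl) (ξ := -(L'ᵀ *ᵥ g.p i'))
    (by rw [neg_dotProduct, P2_tdot, ← bil_eq', x2, neg_zero])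
    (fun s hs => by
      rw [hL' s hs, neg_dotProduct, P2_tdot, add_dotProduct, smul_dotProduct, x1]; simp)
  have e2 : Function.update U i' (-(L'ᵀ *ᵥ g.p i')) ∈ g.flex (del (del (adj ω) w) i) := by
    refine g.flex_anti (fun u v h => ?_) e1
    by_cases hu : u = i'
    · exact Or.inl (Or.inr ⟨hu, Finset.mem_erase.2 ⟨h.1.2.2, mem_nb.2 (hu ▸ h.1.1)⟩⟩)
    by_cases hv : v = i'
    · exact Or.inr (Or.inr ⟨hv, Finset.mem_erase.2 ⟨h.1.2.1,
        P2_nb_symm hs (mem_nb.2 (hv ▸ h.1.1))⟩⟩)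
    · exact Or.inl (Or.inl ⟨h, hu, hv⟩)
  obtain ⟨M, hM⟩ := g.exists_mat4 ((nb ω w).erase i)
    (by rw [Finset.card_erase_of_mem hi, hs.deg]) (Function.update U i' (-(L'ᵀ *ᵥ g.p i')))
  obtain ⟨β₁, h1⟩ := hcd.lift _ e2 M hM
  have e3 := (P2_uniq hb hL h1 (fun j hj => by
    rw [Function.update_of_ne (fun e : j = i' => hN (e ▸ hj))])).1
  have e4 : Lᵀ = -M := by rw [e3, transpose_neg, transpose_transpose]
  refine ⟨fun b hb => ?_, ?_⟩
  · rw [e4, neg_mulVec, neg_neg, hM b (Finset.mem_of_mem_erase hb),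
      Function.update_of_ne (Finset.ne_of_mem_erase hb)]
  · rw [e4, neg_mulVec, hM i' (Finset.mem_erase.2 ⟨hii.symm, hi'⟩), Function.update_self, neg_neg]

/-- the lift of a flex of the graph with one vertex removed -/
theorem P2_fl (h3 : g.StN2) (hs : g.Set2 G ω w) (hi : i ∈ nb ω w) (h6 : (nb ω i).card = 6)
    (hcd : g.CD ω w i c) (hb : g.P2_Ba ((nb ω i).erase w) c) {U : V → Vec K}
    (hU : U ∈ g.flex (del (adj ω) w)) {M : Mat K} (hM : ∀ a ∈ nb ω w, M *ᵥ g.p a = U a)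
    {L : Mat K} {β : Vec K} (hL : g.Lift ((nb ω i).erase w) c U L β) :
    L = -Mᵀ ∧ β ⬝ᵥ g.p i = 0 ∧ (M + Mᵀ ≠ 0 → β ≠ 0) := by
  obtain ⟨β₁, h1⟩ := hcd.lift U (g.flex_anti (fun u v h => Or.inl h.1) hU) M
    (fun a ha => hM a (Finset.mem_of_mem_erase ha))
  have e1 := (P2_uniq hb hL h1 (fun _ _ => rfl)).1
  refine ⟨e1, ?_, fun hQ hβ => hQ ?_⟩
  · obtain ⟨-, α, -, -, a3⟩ := hb
    obtain ⟨j, hj, hc⟩ := Finset.exists_ne_zero_of_sum_ne_zero a3
    have e := hU.2 i j ⟨mem_nb.1 (Finset.mem_of_mem_erase hj), (mem_nb.1 hi).1.symm,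
      Finset.ne_of_mem_erase hj⟩
    rw [dl, hL j hj, ← hM i hi, e1, neg_mulVec, add_dotProduct, neg_dotProduct, P2_tdot,
      smul_dotProduct, smul_eq_mul] at e
    exact (mul_eq_zero.1 (by linear_combination e)).resolve_left (right_ne_zero_of_mul hc)
  · have := g.q10 (nb ω w ∪ (nb ω i).erase w) (by
      rw [Finset.card_union_of_disjoint (Finset.disjoint_left.2 (P2_disj h3 hs hi h6)), hs.deg,
        hb.1]) M (fun u hu => by
      rcases Finset.mem_union.1 hu with hu | hu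
      · rw [bil_eq', hM u hu, hU.1]
      · have e := hU.1 u
        rw [hL u hu, hβ, smul_zero, add_zero, e1, neg_mulVec, neg_dotProduct, P2_tdot,
          neg_eq_zero] at e
        rw [bil_eq', e])
    ext k l
    have e := this (Pi.single k 1) (Pi.single l 1)
    rwa [sb_eq, bil_single] at e

/-- a flex with nonzero symmetric part in the kernel of a functional -/
theorem P2_two (h2 : g.StT2) (hs : g.Set2 G ω w) (f : (V → Vec K) →ₗ[K] K) :
    ∃ U ∈ g.flex (del (adj ω) w), ∃ M : Mat K, (∀ a ∈ nb ω w, M *ᵥ g.p a = U a) ∧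
      M + Mᵀ ≠ 0 ∧ f U = 0 := by
  obtain ⟨-, -, ⟨U₁, a1, M₁, a2, a3⟩, U₂, b1, M₂, b2, b3, b4⟩ := h2 G ω w hs
  have b0 : U₂ ∈ g.flex (del (adj ω) w) := g.flex_anti (fun u v h => Or.inl h.1) b1
  by_cases hf : f U₂ = 0
  · exact ⟨U₂, b0, M₂, b2, b4, hf⟩
  · refine ⟨f U₂ • U₁ - f U₁ • U₂, Submodule.sub_mem _ (Submodule.smul_mem _ _ a1)
      (Submodule.smul_mem _ _ b0), f U₂ • M₁ - f U₁ • M₂, fun a ha => ?_, fun h => ?_, ?_⟩
    · simp only [sub_mulVec, smul_mulVec, a2 a ha, b2 a ha, Pi.sub_apply, Pi.smul_apply]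
    · have e := sb_eq (f U₂ • M₁ - f U₁ • M₂) (g.p w) (g.p w)
      rw [h, bil_zero, sb, bil_sub, bil_smul, bil_smul, b3] at e
      exact mul_ne_zero hf a3 (by linear_combination e / 2)
    · simp only [map_sub, map_smul, smul_eq_mul]; ring

omit [CharZero K] in
/-- a row with prescribed pairing -/
theorem P2_row {N : Finset V} (hb : g.P2_Ba N c) (hi : i ∉ N) (t₁ t₂ : K) :
    ∃ γ : V → K, g.Dep γ ∧ (∀ u, u ∉ insert i N → γ u = 0) ∧ (γ = 0 → t₁ = 0 ∧ t₂ = 0) ∧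
      ∀ U L β, U i ⬝ᵥ g.p i = 0 → g.Lift N c U L β →
        ∑ v, γ v * dl g.p U i v = t₁ * (β ⬝ᵥ g.p i) + t₂ * bil L (g.p i) (g.p i) := by
  obtain ⟨μ, a1, a2⟩ := P2_dual hb (t₂ • g.p i) t₁
  set γ : V → K := fun u => if u = i then -t₂ else if u ∈ N then μ u else 0 with hγ
  have s1 : ∀ u, u ∉ insert i N → γ u = 0 := fun u hu => by
    rw [Finset.mem_insert, not_or] at hu
    simp [hγ, hu.1, hu.2]
  have s2 : ∀ u ∈ N, γ u = μ u := fun u hu => by
    have : u ≠ i := fun e => hi (e ▸ hu)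
    simp [hγ, this, hu]
  have s3 : γ i = -t₂ := by simp [hγ]
  have s4 : g.Dep γ := by
    rw [g.dep_sum s1, Finset.sum_insert hi, Finset.sum_congr rfl (fun u hu => by rw [s2 u hu]),
      a1, s3]
    simp
  refine ⟨γ, s4, s1, fun h => ⟨?_, ?_⟩, fun U L β h0 hL => ?_⟩
  · rw [← a2]
    exact Finset.sum_eq_zero fun u hu => by rw [← s2 u hu, h]; simp
  · rw [h] at s3
    simpa using s3
  · simp only [dl, mul_add, Finset.sum_add_distrib]
    rw [g.dep_dot s4, zero_add, ← Finset.sum_subset (Finset.subset_univ (insert i N))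
      (fun u _ hu => by rw [s1 u hu, zero_mul]), Finset.sum_insert hi, h0, mul_zero, zero_add,
      Finset.sum_congr rfl (fun u hu => by rw [s2 u hu, hL u hu])]
    have e := congrArg (fun m => (L *ᵥ m) ⬝ᵥ g.p i) a1
    simp only [mulVec_sum, mulVec_smul, sum_dotProduct, smul_dotProduct, smul_eq_mul] at e
    simp only [add_dotProduct, smul_dotProduct, smul_eq_mul, mul_add, Finset.sum_add_distrib,
      ← mul_assoc, ← Finset.sum_mul]
    rw [e, a2, bil_eq']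
    ring

/-- independence of the four extension conditions -/
theorem P2_ind4 (hs : g.Set2 G ω w) (hi : i ∈ nb ω w) (hi' : i' ∈ nb ω w) (hii : i ≠ i')
    (hb : g.P2_Ba ((nb ω i).erase w) c) (hb' : g.P2_Ba ((nb ω i').erase w) c')
    (hN : i' ∉ (nb ω i).erase w) (hN' : i ∉ (nb ω i').erase w) (t₁ t₂ t₃ t₄ : K)
    (h : ∀ U ∈ g.flex (del (del (del (adj ω) w) i) i'), ∃ L β L' β',
      g.Lift ((nb ω i).erase w) c U L β ∧ g.Lift ((nb ω i').erase w) c' U L' β' ∧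
      t₁ * (β ⬝ᵥ g.p i) + t₂ * bil L (g.p i) (g.p i)
        + (t₃ * (β' ⬝ᵥ g.p i') + t₄ * bil L' (g.p i') (g.p i')) = 0) :
    (t₁ = 0 ∧ t₂ = 0) ∧ t₃ = 0 ∧ t₄ = 0 := by
  have n1 : i ∉ (nb ω i).erase w := fun h => (mem_nb.1 (Finset.mem_of_mem_erase h)).1 rfl
  have n2 : i' ∉ (nb ω i').erase w := fun h => (mem_nb.1 (Finset.mem_of_mem_erase h)).1 rfl
  obtain ⟨γ, a1, a2, a3, a4⟩ := P2_row hb n1 t₁ t₂
  obtain ⟨γ', b1, b2, b3, b4⟩ := P2_row hb' n2 t₃ t₄
  have wi : w ≠ i := (mem_nb.1 hi).1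
  have wi' : w ≠ i' := (mem_nb.1 hi').1
  have z1 : γ i' = 0 := a2 _ (by simp only [Finset.mem_insert, not_or]; exact ⟨hii.symm, hN⟩)
  have z2 : γ' i = 0 := b2 _ (by simp only [Finset.mem_insert, not_or]; exact ⟨hii, hN'⟩)
  have z3 : γ w = 0 := a2 _ (by simp [wi])
  have z4 : γ' w = 0 := b2 _ (by simp [wi'])
  obtain ⟨σ, s1, s2⟩ := g.psi_stress (del (del (del (adj ω) w) i) i')
    (fun u v => (if u = i then γ v else 0) + (if v = i then γ u else 0)
      + ((if u = i' then γ' v else 0) + (if v = i' then γ' u else 0)))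
    (fun u v => by ring) (fun U hU => by
      obtain ⟨L, β, L', β', c1, c2, c3⟩ := h U hU
      have e1 := a4 U L β (hU.1 i) c1
      have e2 := b4 U L' β' (hU.1 i') c2
      simp only [add_mul, ite_mul, zero_mul, Finset.sum_add_distrib, Finset.sum_ite_irrel,
        Finset.sum_ite_eq', Finset.mem_univ, if_true, Finset.sum_const_zero]
      simp only [dl_comm g.p U _ i, dl_comm g.p U _ i'] at e1 e2 ⊢
      linear_combination 2 * e1 + 2 * e2 + 2 * c3)
  have i1 : Isol (del (del (del (adj ω) w) i) i') w :=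
    isol_del_of (isol_del_of (isol_del _ w) i) i'
  have i2 : Isol (del (del (del (adj ω) w) i) i') i := isol_del_of (isol_del _ i) i'
  have i3 : Isol (del (del (del (adj ω) w) i) i') i' := isol_del _ i'
  have r1 : ∀ v, v ≠ i → σ i v = γ v := fun v hv => by
    rw [s2 i v hv.symm (i2 v).1 (i2 v).2]
    simp [hv, hii, z2]
  have r2 : ∀ v, v ≠ i' → σ i' v = γ' v := fun v hv => by
    rw [s2 i' v hv.symm (i3 v).1 (i3 v).2]
    simp [hv, hii.symm, z1]
  have q1 : ∀ v, v ≠ i → σ i v ≠ 0 → adj ω i v := fun v hv h0 => by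
    rw [r1 v hv] at h0
    by_contra hh
    exact h0 (a2 v (by
      simp only [Finset.mem_insert, not_or]
      exact ⟨hv, fun e => hh (mem_nb.1 (Finset.mem_of_mem_erase e))⟩))
  have q2 : ∀ v, v ≠ i' → σ i' v ≠ 0 → adj ω i' v := fun v hv h0 => by
    rw [r2 v hv] at h0
    by_contra hh
    exact h0 (b2 v (by
      simp only [Finset.mem_insert, not_or]
      exact ⟨hv, fun e => hh (mem_nb.1 (Finset.mem_of_mem_erase e))⟩))
  have hσ : σ = 0 := hs.ctx.ind ω σ w hs.bad s1 (fun u v huv h0 => by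
    by_cases e1 : u = i
    · subst e1; exact Or.inl (q1 v huv.symm h0)
    by_cases e2 : u = i'
    · subst e2; exact Or.inl (q2 v huv.symm h0)
    by_cases e3 : v = i
    · subst e3; exact Or.inr (q1 u huv (by rwa [s1.1]))
    by_cases e4 : v = i'
    · subst e4; exact Or.inr (q2 u huv (by rwa [s1.1]))
    by_contra hh
    rw [not_or] at hh
    rw [s2 u v huv (fun e => hh.1 e.1.1.1) (fun e => hh.2 e.1.1.1)] at h0
    simp [e1, e2, e3, e4] at h0) (by
    refine Finset.eq_empty_of_forall_notMem fun u hu => ?_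
    rw [mem_nb] at hu
    refine hu.2 ?_
    rw [s2 w u hu.1 (i1 u).1 (i1 u).2]
    simp [wi, wi', z3, z4])
  refine ⟨a3 (g.dep_zero a1 {i} (by simp) fun u hu => ?_),
    b3 (g.dep_zero b1 {i'} (by simp) fun u hu => ?_)⟩
  · rw [← r1 u (by simpa using hu), hσ]; rfl
  · rw [← r2 u (by simpa using hu), hσ]; rfl

/-- one half of the statement, for the linear lifts -/
theorem P2_half (h2 : g.StT2) (h3 : g.StN2) (hs : g.Set2 G ω w) (hi : i ∈ nb ω w)
    (hi' : i' ∈ nb ω w) (hii : i ≠ i') (h6 : (nb ω i).card = 6) (h6' : (nb ω i').card = 6)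
    (hcd : g.CD ω w i c) (hcd' : g.CD ω w i' c') {U : V → Vec K}
    (hU : U ∈ g.flex (del (del (del (adj ω) w) i) i')) {L₀ L₀' : Mat K} {β₀ β₀' : Vec K}
    (hL₀ : g.Lift ((nb ω i).erase w) c U L₀ β₀) (hL₀' : g.Lift ((nb ω i').erase w) c' U L₀' β₀') :
    (∀ b ∈ ((nb ω w).erase i).erase i', U b = -(L₀ᵀ *ᵥ g.p b)) ∧
      ∀ (a a' : K) (m : V → K),
        a • g.p i + a' • g.p i' + ∑ b ∈ ((nb ω w).erase i).erase i', m b • g.p b = 0 →
        ∑ b ∈ ((nb ω w).erase i).erase i', m b • U b = a • L₀ᵀ *ᵥ g.p i + a' • L₀'ᵀ *ᵥ g.p i' := by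
  have hb := P2_ba g (P2_card hs hi h6) hcd.ac
  have hb' := P2_ba g (P2_card hs hi' h6') hcd'.ac
  have n1 := P2_disj h3 hs hi h6
  have n2 := P2_disj h3 hs hi' h6'
  obtain ⟨L, β, hL⟩ := P2_lift hb
  obtain ⟨L', β', hL'⟩ := P2_lift hb'
  set B := ((nb ω w).erase i).erase i' with hB
  have hBc : ((nb ω w).erase i').erase i = B := Finset.erase_right_comm
  have hB3 : B.card = 3 := by
    rw [hB, Finset.card_erase_of_mem (Finset.mem_erase.2 ⟨hii.symm, hi'⟩),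
      Finset.card_erase_of_mem hi, hs.deg]
  have i2 : Isol (del (del (del (adj ω) w) i) i') i := isol_del_of (isol_del _ i) i'
  have i3 : Isol (del (del (del (adj ω) w) i) i') i' := isol_del _ i'
  have θ : ∀ (a a' : K) (m : V → K), a • g.p i + a' • g.p i' + ∑ b ∈ B, m b • g.p b = 0 →
      ∀ U ∈ g.flex (del (del (del (adj ω) w) i) i'),
        ∑ b ∈ B, m b • U b = a • (L U)ᵀ *ᵥ g.p i + a' • (L' U)ᵀ *ᵥ g.p i' := by
    intro a a' m hm U hU
    refine sub_eq_zero.1 (vec_eq_zero fun z => ?_)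
    refine P2_zero (g.flex (del (del (del (adj ω) w) i) i')) (fun U => β U ⬝ᵥ g.p i)
      (fun U => bil (L U) (g.p i) (g.p i)) (fun U => β' U ⬝ᵥ g.p i')
      (fun U => bil (L' U) (g.p i') (g.p i'))
      (fun U => (∑ b ∈ B, m b • U b - (a • (L U)ᵀ *ᵥ g.p i + a' • (L' U)ᵀ *ᵥ g.p i')) ⬝ᵥ z)
      (lin_dot β.isLinear _) (lin_bil L.isLinear _ _) (lin_dot β'.isLinear _)
      (lin_bil L'.isLinear _ _) (lin_dot ⟨fun x y => ?_, fun r x => ?_⟩ _)
      (fun t₁ t₂ t₃ t₄ ht => (P2_ind4 hs hi hi' hii hb hb' (n1 i' hi') (n2 i hi) t₁ t₂ t₃ t₄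
        (fun U hU => ⟨_, _, _, _, hL U, hL' U, ht U hU⟩)).1)
      (fun U hU x1 x2 => ?_) (fun U hU x1 x2 => ?_) U hU
    · simp only [Pi.add_apply, map_add, transpose_add, add_mulVec, smul_add,
        Finset.sum_add_distrib]
      abel
    · simp only [Pi.smul_apply, map_smul, transpose_smul, smul_mulVec, smul_sub, smul_add,
        Finset.smul_sum, smul_comm r]
    · obtain ⟨e1, e2⟩ := P2_ext hs hi' hi hii.symm hcd' hb' (n2 i hi)
        (by rw [P2_del_comm]; exact hU) (hL' U) (hL U) x1 x2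
      rw [hBc] at e1
      have e := congrArg (fun x => (L' U)ᵀ *ᵥ x) hm
      simp only [mulVec_add, mulVec_smul, mulVec_sum, mulVec_zero] at e
      rw [Finset.sum_congr rfl (fun b hb => by rw [e1 b hb, smul_neg]), Finset.sum_neg_distrib,
        ← e2, show ∀ x y : Vec K, -x - y = -(y + x) from fun x y => by abel, e]
      simp
    · obtain ⟨e1, e2⟩ := P2_ext hs hi hi' hii hcd hb (n1 i' hi') hU (hL U) (hL' U) x1 x2
      have e := congrArg (fun x => (L U)ᵀ *ᵥ x) hm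
      simp only [mulVec_add, mulVec_smul, mulVec_sum, mulVec_zero] at e
      rw [Finset.sum_congr rfl (fun b hb => by rw [e1 b hb, smul_neg]), Finset.sum_neg_distrib,
        ← e2, show ∀ x y : Vec K, -x - y = -(y + x) from fun x y => by abel, e]
      simp
  have u1 := (P2_uniq hb hL₀ (hL U) (fun _ _ => rfl)).1
  have u2 := (P2_uniq hb' hL₀' (hL' U) (fun _ _ => rfl)).1
  refine ⟨fun b hbB => ?_, fun a a' m hm => by rw [u1, u2]; exact θ a a' m hm U hU⟩
  let S : Submodule K (V → Vec K) := g.flex (del (del (del (adj ω) w) i) i') ⊓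
    (LinearMap.ker (LinearMap.proj i) ⊓ LinearMap.ker (LinearMap.proj i'))
  have rs : ∀ U ∈ g.flex (del (del (del (adj ω) w) i) i'), ∃ U' ∈ S,
      ∀ j, j ≠ i → j ≠ i' → U' j = U j := fun U hU =>
    ⟨Function.update (Function.update U i 0) i' 0, ⟨g.update_mem i3
      (g.update_mem i2 hU (zero_dotProduct _)) (zero_dotProduct _), by simp [hii], by simp⟩,
      fun j h1 h2 => by simp [h1, h2]⟩
  have m1 : ∀ j ∈ (nb ω i).erase w, j ≠ i ∧ j ≠ i' := fun j hj =>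
    ⟨fun e => n1 i hi (e ▸ hj), fun e => n1 i' hi' (e ▸ hj)⟩
  have m2 : ∀ j ∈ (nb ω i').erase w, j ≠ i ∧ j ≠ i' := fun j hj =>
    ⟨fun e => n2 i hi (e ▸ hj), fun e => n2 i' hi' (e ▸ hj)⟩
  have m3 : ∀ j ∈ B, j ≠ i ∧ j ≠ i' := fun j hj =>
    ⟨Finset.ne_of_mem_erase (Finset.mem_of_mem_erase hj), Finset.ne_of_mem_erase hj⟩
  have st : ∀ (x : V) (k : Fin 4), (x = i ∨ x = i') → ∀ U ∈ S, dU (g.d x k) U ∈ S := by
    intro x k hx U hU
    have p1 : U i = 0 := hU.2.1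
    have p2 : U i' = 0 := hU.2.2
    refine ⟨?_, show dv _ (U i) = 0 by rw [p1, dv_zero], show dv _ (U i') = 0 by rw [p2, dv_zero]⟩
    rcases hx with rfl | rfl
    · exact g.dU_mem i2 hU.1 p1 k
    · exact g.dU_mem i3 hU.1 p2 k
  obtain ⟨b₁, b₂, h12, hbb⟩ := Finset.card_eq_two.1
    (show (B.erase b).card = 2 by rw [Finset.card_erase_of_mem hbB, hB3])
  have k1 : b₁ ∈ B.erase b := by rw [hbb]; simp
  have k2 : b₂ ∈ B.erase b := by rw [hbb]; simp
  rw [Finset.mem_erase] at k1 k2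
  have sm : ∀ (m m₁ m₂ : K) (x : V → Vec K),
      ∑ j ∈ B, (if j = b then m else if j = b₁ then m₁ else m₂) • x j
        = m • x b + m₁ • x b₁ + m₂ • x b₂ := by
    intro m m₁ m₂ x
    rw [← Finset.add_sum_erase _ _ hbB, hbb, Finset.sum_pair h12]
    simp [k1.1, k2.1, h12.symm, add_assoc]
  obtain ⟨U', hU', e'⟩ := rs U hU
  have := P2_core (S := S) hii.symm (m3 b hbB).1 (m3 b₁ k1.2).1 (m3 b₂ k2.2).1 (m3 b hbB).2
    (m3 b₁ k1.2).2 (m3 b₂ k2.2).2 k1.1.symm k2.1.symm h12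
    (P2_dr hb hb' (n1 i hi) (n2 i hi) hL hL' hcd.cst (fun k => st i k (Or.inl rfl)))
    (P2_dr hb' hb (n2 i' hi') (n1 i' hi') hL' hL hcd'.cst (fun k => st i' k (Or.inr rfl)))
    (fun a a' m m₁ m₂ hm U hU => by
      rw [← sm]
      exact θ a a' _ (by rw [sm]; exact hm) U hU.1)
    (by
      obtain ⟨U₀, c1, M, c2, c3, c4⟩ := P2_two h2 hs
        ((lin_dot β.isLinear (g.p b)).mk' (fun U => β U ⬝ᵥ g.p b))
      obtain ⟨U₁, c5, c6⟩ := rs U₀
        (g.flex_anti (F' := del (adj ω) w) (fun u v h => Or.inl h.1.1) c1)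
      obtain ⟨-, c7, c8⟩ := P2_fl h3 hs hi' h6' hcd' hb' c1 c2 (hL' U₀)
      have c9 := (P2_uniq hb (hL U₁) (hL U₀) (fun j hj => c6 j (m1 j hj).1 (m1 j hj).2)).2
      have c10 := (P2_uniq hb' (hL' U₁) (hL' U₀) (fun j hj => c6 j (m2 j hj).1 (m2 j hj).2)).2
      exact ⟨U₁, c5, by rw [c9]; exact c4, by rw [c10]; exact c7, by rw [c10]; exact c8 c3⟩)
    U' hU'
  rw [← e' b (m3 b hbB).1 (m3 b hbB).2, this,
    (P2_uniq hb hL₀ (hL U') (fun j hj => (e' j (m1 j hj).1 (m1 j hj).2).symm)).1]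

end Gen

theorem P2_thm (g : Gen V K) (h2 : g.StT2) (h3 : g.StN2) : g.StP2 := by
  intro G ω w i i' c c' hs hi hi' hii h6 h6' hcd hcd' U hU L β L' β' hL hL'
  obtain ⟨a1, a2⟩ := Gen.P2_half h2 h3 hs hi hi' hii h6 h6' hcd hcd' hU hL hL'
  obtain ⟨b1, -⟩ := Gen.P2_half h2 h3 hs hi' hi hii.symm h6' h6 hcd' hcd
    (by rw [P2_del_comm]; exact hU) hL' hL
  rw [Finset.erase_right_comm] at b1
  refine ⟨?_, a1⟩
  set B := ((nb ω w).erase i).erase i' with hB
  have hB3 : B.card = 3 := by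
    rw [hB, Finset.card_erase_of_mem (Finset.mem_erase.2 ⟨hii.symm, hi'⟩),
      Finset.card_erase_of_mem hi, hs.deg]
  have n1 : i' ∉ B := Finset.notMem_erase _ _
  have n2 : i ∉ B := fun h => Finset.notMem_erase _ _ (Finset.mem_of_mem_erase h)
  have hc : (insert i' B).card = 4 := by rw [Finset.card_insert_of_notMem n1, hB3]
  obtain ⟨μ, hμ⟩ := g.spans (insert i B) (by rw [Finset.card_insert_of_notMem n2, hB3]) (g.p i')
  rw [Finset.sum_insert n2] at hμ
  have e := a2 (μ i) (-1) μ (by linear_combination (norm := module) -hμ)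
  have e2 := congrArg (fun x => Lᵀ *ᵥ x) hμ
  simp only [mulVec_add, mulVec_smul, mulVec_sum] at e2
  rw [Finset.sum_congr rfl (fun b hb => by rw [a1 b hb, smul_neg]), Finset.sum_neg_distrib] at e
  have := g.mat4_zero (insert i' B) hc.ge (M := Lᵀ - L'ᵀ) (fun b hb => by
    rw [sub_mulVec]
    rcases Finset.mem_insert.1 hb with rfl | hb
    · linear_combination (norm := module) e2 - e
    · exact sub_eq_zero.2 (neg_injective ((a1 b hb).symm.trans (b1 b hb))))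
  exact transpose_injective (sub_eq_zero.1 this)

end Pool.Agent.Dress
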