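import Pool.Agent.Lib.MP_d237f6_co.DR.Gam

/-! Two neighbours of degree six: the data on the graph with three vertices removed. -/

set_option autoImplicit false

namespace Pool.Agent.Dress

open Matrix Module Classical

variable {K : Type} [Field K] [CharZero K] {V : Type} [DecidableEq V] [Fintype V]

omit [CharZero K] in
/-- the dependency on five points pairs nontrivially with the weights -/
theorem P3_zeta (g : Gen V K) {N : Finset V} (hN : N.card = 5) {c : V → K}
    (hac : ∀ α, g.Dep α → (∀ u, u ∉ N → α u = 0) → ∑ u, α u * c u = 0 → α = 0) :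
    ∃ ζ : V → K, g.Dep ζ ∧ (∀ u, u ∉ N → ζ u = 0) ∧ (∀ u ∈ N, ζ u ≠ 0) ∧
      ∑ u, ζ u * c u = 1 := by
  obtain ⟨ζ, h1, h2, h3⟩ := g.dep5 N hN
  obtain ⟨j, hj⟩ : N.Nonempty := Finset.card_pos.1 (by omega)
  have hs : ∑ u, ζ u * c u ≠ 0 := fun e => h3 j hj (by rw [hac ζ h1 h2 e]; rfl)
  refine ⟨(∑ u, ζ u * c u)⁻¹ • ζ, g.dep_smul h1 _, fun u hu => by simp [h2 u hu],
    fun u hu => mul_ne_zero (inv_ne_zero hs) (h3 u hu), ?_⟩
  simp only [Pi.smul_apply, smul_eq_mul, mul_assoc, ← Finset.mul_sum]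
  exact inv_mul_cancel₀ hs

omit [CharZero K] in
/-- weighted sums of lifted velocities -/
theorem P3_sum (g : Gen V K) {N : Finset V} {c γ : V → K} (hγ : ∀ u, u ∉ N → γ u = 0)
    {U : V → Vec K} {L : Mat K} {β : Vec K} (h : g.Lift N c U L β) :
    ∑ u, γ u • U u = L *ᵥ (∑ u, γ u • g.p u) + (∑ u, γ u * c u) • β := by
  rw [mulVec_sum, Finset.sum_smul, ← Finset.sum_add_distrib]
  refine Finset.sum_congr rfl fun u _ => ?_
  by_cases hu : u ∈ N
  · rw [h u hu, mulVec_smul, smul_add, smul_smul]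
  · simp [hγ u hu]

omit [CharZero K] in
/-- uniqueness of the lift -/
theorem P3_uniq (g : Gen V K) {N : Finset V} (hN : N.card = 5) {c : V → K}
    (hac : ∀ α, g.Dep α → (∀ u, u ∉ N → α u = 0) → ∑ u, α u * c u = 0 → α = 0)
    {U : V → Vec K} {L L' : Mat K} {β β' : Vec K} (h : g.Lift N c U L β)
    (h' : g.Lift N c U L' β') : L = L' ∧ β = β' := by
  obtain ⟨ζ, h1, h2, -, h4⟩ := P3_zeta g hN hac
  have e := P3_sum g h2 h
  have e' := P3_sum g h2 h'
  rw [show ∑ u, ζ u • g.p u = 0 from h1, h4, mulVec_zero, zero_add, one_smul] at e e'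
  have hβ : β = β' := e.symm.trans e'
  refine ⟨sub_eq_zero.1 (g.mat4_zero N (by omega) fun b hb => ?_), hβ⟩
  have := (h b hb).symm.trans (h' b hb)
  rw [hβ, add_left_inj] at this
  rw [sub_mulVec, this, sub_self]

omit [CharZero K] in
/-- existence of the lift -/
theorem P3_ex (g : Gen V K) {N : Finset V} (hN : N.card = 5) {c : V → K}
    (hac : ∀ α, g.Dep α → (∀ u, u ∉ N → α u = 0) → ∑ u, α u * c u = 0 → α = 0)
    (U : V → Vec K) : ∃ s : Mat K × Vec K, g.Lift N c U s.1 s.2 := by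
  obtain ⟨ζ, h1, h2, h3, h4⟩ := P3_zeta g hN hac
  obtain ⟨j, hj⟩ : N.Nonempty := Finset.card_pos.1 (by omega)
  obtain ⟨M, hM⟩ := g.exists_mat4 (N.erase j) (by rw [Finset.card_erase_of_mem hj]; omega)
    (fun u => U u - c u • ∑ v, ζ v • U v)
  refine ⟨(M, ∑ v, ζ v • U v), fun u hu => ?_⟩
  by_cases e : u = j
  · subst e
    have e1 : ∑ v, ζ v • (U v - (M *ᵥ g.p v + c v • ∑ v, ζ v • U v)) = 0 := by
      simp only [smul_sub, smul_add, Finset.sum_sub_distrib, Finset.sum_add_distrib, smul_smul,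
        ← Finset.sum_smul, h4, one_smul, g.dep_mulVec h1 M, zero_add, sub_self]
    rw [Finset.sum_eq_single u (fun v _ hv => ?_) (by simp)] at e1
    · exact sub_eq_zero.1 ((smul_eq_zero.1 e1).resolve_left (h3 u hu))
    · by_cases hv' : v ∈ N
      · rw [hM v (Finset.mem_erase.2 ⟨hv, hv'⟩)]
        simp
      · rw [h2 v hv', zero_smul]
  · show U u = M *ᵥ g.p u + _
    rw [hM u (Finset.mem_erase.2 ⟨e, hu⟩)]
    simp

omit [CharZero K] in
/-- the lift depends linearly on the velocities -/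
theorem P3_lin (g : Gen V K) {N : Finset V} (hN : N.card = 5) {c : V → K}
    (hac : ∀ α, g.Dep α → (∀ u, u ∉ N → α u = 0) → ∑ u, α u * c u = 0 → α = 0) :
    ∃ (L : (V → Vec K) →ₗ[K] Mat K) (β : (V → Vec K) →ₗ[K] Vec K),
      ∀ U, g.Lift N c U (L U) (β U) := by
  choose s hs using P3_ex g hN hac
  have ha : ∀ U U', s (U + U') = s U + s U' := fun U U' => by
    have := P3_uniq g hN hac (hs (U + U')) (L' := (s U).1 + (s U').1) (β' := (s U).2 + (s U').2)
      (fun j hj => by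
        rw [Pi.add_apply, hs U j hj, hs U' j hj, add_mulVec, smul_add]
        abel)
    exact Prod.ext this.1 this.2
  have hm : ∀ (t : K) U, s (t • U) = t • s U := fun t U => by
    have := P3_uniq g hN hac (hs (t • U)) (L' := t • (s U).1) (β' := t • (s U).2)
      (fun j hj => by
        rw [Pi.smul_apply, hs U j hj, smul_mulVec, smul_add, smul_comm t (c j)])
    exact Prod.ext this.1 this.2
  let Φ : (V → Vec K) →ₗ[K] Mat K × Vec K := { toFun := s, map_add' := ha, map_smul' := hm }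
  exact ⟨LinearMap.fst K _ _ ∘ₗ Φ, LinearMap.snd K _ _ ∘ₗ Φ, hs⟩

omit [CharZero K] in
/-- the five lifted points span -/
theorem P3_gam (g : Gen V K) {N : Finset V} (hN : N.card = 5) {c : V → K}
    (hac : ∀ α, g.Dep α → (∀ u, u ∉ N → α u = 0) → ∑ u, α u * c u = 0 → α = 0)
    (m : Vec K) (t : K) : ∃ γ : V → K, (∀ u, u ∉ N → γ u = 0) ∧ ∑ u, γ u • g.p u = m ∧
      ∑ u, γ u * c u = t := by
  obtain ⟨ζ, h1, h2, -, h4⟩ := P3_zeta g hN hac
  obtain ⟨T, hT, hc⟩ := Finset.exists_subset_card_eq (by omega : 4 ≤ N.card)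
  obtain ⟨a, ha⟩ := g.spans T hc m
  let γ : V → K := fun u => if u ∈ T then a u else 0
  have e : ∑ u, γ u • g.p u = m := by
    rw [ha, ← Finset.sum_subset (Finset.subset_univ T) (fun u _ hu => by simp [γ, hu])]
    exact Finset.sum_congr rfl fun u hu => by simp [γ, hu]
  refine ⟨fun u => γ u + (t - ∑ v, γ v * c v) * ζ u, fun u hu => ?_, ?_, ?_⟩
  · have : u ∉ T := fun h => hu (hT h)
    simp [γ, this, h2 u hu]
  · simp only [add_smul, mul_smul, Finset.sum_add_distrib, ← Finset.smul_sum, e]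
    rw [show ∑ u, ζ u • g.p u = 0 from h1, smul_zero, add_zero]
  · simp only [add_mul, mul_assoc, Finset.sum_add_distrib, ← Finset.mul_sum, h4]
    ring

/-- two stars at removed vertices carry no relation -/
theorem P3_ind (g : Gen V K) {ω : V → V → K} {F : V → V → Prop} {w i i' : V} {N N' : Finset V}
    (hind : ∀ σ, g.Stress σ → On (adj ω) σ → nb σ w = ∅ → σ = 0)
    (hF : ∀ u v, F u v → adj ω u v) (hw : Isol F w) (hi : Isol F i) (hi' : Isol F i')
    (wi : w ≠ i) (wi' : w ≠ i') (ii : i ≠ i') (hN : N ⊆ nb ω i) (hN' : N' ⊆ nb ω i')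
    (wN : w ∉ N) (wN' : w ∉ N') (iN : i' ∉ N) (iN' : i ∉ N') {γ γ' : V → K} {t t' : K}
    (h1 : ∀ u, u ∉ N → γ u = 0) (h1' : ∀ u, u ∉ N' → γ' u = 0)
    (h2 : ∑ u, γ u • g.p u = t • g.p i) (h2' : ∑ u, γ' u • g.p u = t' • g.p i')
    (h : ∀ U ∈ g.flex F, (∑ u, γ u • U u) ⬝ᵥ g.p i + (∑ u, γ' u • U u) ⬝ᵥ g.p i' = 0) :
    γ = 0 ∧ γ' = 0 := by
  let Ψ : V → V → K := fun u v => ((if u = i then γ v else 0) + (if v = i then γ u else 0))
    + ((if u = i' then γ' v else 0) + (if v = i' then γ' u else 0))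
  have key : ∀ (U : V → Vec K) (z : V) (γ : V → K) (t : K), U z ⬝ᵥ g.p z = 0 →
      ∑ u, γ u • g.p u = t • g.p z →
      ∑ u, ∑ v, ((if u = z then γ v else 0) + (if v = z then γ u else 0)) * dl g.p U u v
        = 2 * ((∑ u, γ u • U u) ⬝ᵥ g.p z) := by
    intro U z γ t hz hγ
    have e : ∑ v, γ v * dl g.p U z v = (∑ u, γ u • U u) ⬝ᵥ g.p z := by
      have e1 := congrArg (fun m => U z ⬝ᵥ m) hγ
      simp only [dotProduct_sum, dotProduct_smul, smul_eq_mul, hz, mul_zero] at e1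
      simp only [dl, mul_add, Finset.sum_add_distrib, e1, zero_add, sum_dotProduct,
        smul_dotProduct, smul_eq_mul]
    simp only [add_mul, ite_mul, zero_mul, Finset.sum_add_distrib, Finset.sum_ite_irrel,
      Finset.sum_ite_eq', Finset.mem_univ, if_true, Finset.sum_const_zero]
    simp only [dl_comm _ _ _ z, e]
    ring
  obtain ⟨σ, a1, a2⟩ := g.psi_stress F Ψ (fun u v => by simp only [Ψ]; ring) (fun U hU => by
    simp only [Ψ, add_mul _ (_ + _), Finset.sum_add_distrib]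
    rw [key U i γ t (hU.1 i) h2, key U i' γ' t' (hU.1 i') h2']
    linear_combination 2 * h U hU)
  have m1 : ∀ v, γ v ≠ 0 → adj ω i v := fun v hv => mem_nb.1 (hN (by
    by_contra hh; exact hv (h1 v hh)))
  have m2 : ∀ v, γ' v ≠ 0 → adj ω i' v := fun v hv => mem_nb.1 (hN' (by
    by_contra hh; exact hv (h1' v hh)))
  have z : σ = 0 := by
    refine hind σ a1 (fun u v huv h0 => ?_) (Finset.eq_empty_of_forall_notMem fun u hu => ?_)
    · by_contra hh
      rw [not_or] at hh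
      rw [a2 u v huv (fun e => hh.1 (hF u v e)) (fun e => hh.2 (hF v u e))] at h0
      apply h0
      have b1 : (if u = i then γ v else 0) = 0 := by
        split_ifs with e
        · by_contra e'; exact hh.1 (e ▸ m1 v e')
        · rfl
      have b2 : (if v = i then γ u else 0) = 0 := by
        split_ifs with e
        · by_contra e'; exact hh.2 (e ▸ m1 u e')
        · rfl
      have b3 : (if u = i' then γ' v else 0) = 0 := by
        split_ifs with e
        · by_contra e'; exact hh.1 (e ▸ m2 v e')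
        · rfl
      have b4 : (if v = i' then γ' u else 0) = 0 := by
        split_ifs with e
        · by_contra e'; exact hh.2 (e ▸ m2 u e')
        · rfl
      simp only [Ψ, b1, b2, b3, b4, add_zero]
    · rw [mem_nb] at hu
      apply hu.2
      rw [a2 w u hu.1 (hw u).1 (hw u).2]
      simp [Ψ, wi, wi', h1 w wN, h1' w wN']
  constructor
  · ext v
    by_contra hv
    have hv' : i ≠ v := (m1 v hv).1
    have := a2 i v hv' (hi v).1 (hi v).2
    rw [z] at this
    simp [Ψ, ii, hv'.symm, h1' i iN'] at this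
    exact hv this.symm
  · ext v
    by_contra hv
    have hv' : i' ≠ v := (m2 v hv).1
    have := a2 i' v hv' (hi' v).1 (hi' v).2
    rw [z] at this
    simp [Ψ, ii.symm, hv'.symm, h1 i' iN] at this
    exact hv this.symm

/-- the four conditions at the two removed vertices -/
def P3_psi (x y : Vec K) : (Mat K × Vec K × Vec K) →ₗ[K] (Fin 4 → K) where
  toFun s := ![s.2.1 ⬝ᵥ x, bil s.1 x x, s.2.2 ⬝ᵥ y, bil s.1 y y]
  map_add' a b := by ext k; fin_cases k <;> simp [bil_add]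
  map_smul' t a := by ext k; fin_cases k <;> simp [bil_smul]

omit [CharZero K] in
/-- a subspace without a linear relation is everything -/
theorem P3_top (S : Submodule K (Fin 4 → K))
    (h : ∀ t : Fin 4 → K, (∀ x ∈ S, ∑ k, x k * t k = 0) → t = 0) : S = ⊤ := by
  by_contra hS
  obtain ⟨f, h0, hf⟩ := S.exists_le_ker_of_lt_top (lt_top_iff_ne_top.2 hS)
  have := h (fun k => f (fun j => if k = j then 1 else 0)) (fun x hx => by
    have e := LinearMap.pi_apply_eq_sum_univ f x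
    rw [show f x = 0 from hf hx] at e
    simpa using e.symm)
  apply h0
  refine LinearMap.ext fun x => ?_
  rw [LinearMap.pi_apply_eq_sum_univ f x]
  exact Finset.sum_eq_zero fun k _ => by rw [congrFun this k]; simp

/-- flexes of the graph with one vertex removed satisfy the conditions at a neighbour -/
theorem P3_flex (g : Gen V K) {ω : V → V → K} {w i : V} {c : V → K} (hi : i ∈ nb ω w)
    (hN : ((nb ω i).erase w).card = 5) (hc : g.CD ω w i c) {U : V → Vec K}
    (hU : U ∈ g.flex (del (adj ω) w)) {M : Mat K} (hM : ∀ a ∈ nb ω w, M *ᵥ g.p a = U a)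
    {L : Mat K} {β : Vec K} (h : g.Lift ((nb ω i).erase w) c U L β) :
    L = -Mᵀ ∧ β ⬝ᵥ g.p i = 0 ∧ bil (L + Lᵀ) (g.p i) (g.p i) = 0 := by
  obtain ⟨β₀, h0⟩ := hc.lift U (g.flex_anti (fun _ _ h => Or.inl h.1) hU) M
    (fun a ha => hM a (Finset.mem_of_mem_erase ha))
  have hL := (P3_uniq g hN hc.ac h h0).1
  refine ⟨hL, ?_, ?_⟩
  · obtain ⟨j, hj, hcj⟩ : ∃ j ∈ (nb ω i).erase w, c j ≠ 0 := by
      by_contra hh
      push Not at hh
      have := hc.few
      rw [Finset.filter_true_of_mem hh] at this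
      omega
    have e := hU.2 i j ⟨mem_nb.1 (Finset.mem_of_mem_erase hj), (mem_nb.1 hi).1.symm,
      Finset.ne_of_mem_erase hj⟩
    rw [dl, ← hM i hi, h j hj, hL, add_dotProduct, neg_mulVec, neg_dotProduct, ← bil_eq',
      ← bil_eq', bil_transpose, smul_dotProduct, smul_eq_mul] at e
    exact (mul_eq_zero.1 (by linear_combination e)).resolve_left hcj
  · have e := hU.1 i
    rw [← hM i hi, ← bil_eq'] at e
    rw [bil_add, bil_transpose, hL, ← neg_one_smul K, bil_smul, bil_transpose, e]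
    ring

theorem P3_thm (g : Gen V K) (h1 : g.StP2) (h2 : g.StCg) (h3 : g.StN2) (h4 : g.StT2) :
    g.StP3 := by
  intro G ω w i i' hs hi hi' ii d d'
  obtain ⟨c, hc⟩ := h2 G ω w i hs hi d
  obtain ⟨c', hc'⟩ := h2 G ω w i' hs hi' d'
  have hω := hs.bad.1.1
  have sy : ∀ {u v}, u ∈ nb ω v → v ∈ nb ω u := fun h =>
    mem_nb.2 ⟨(mem_nb.1 h).1.symm, by rw [hω.1]; exact (mem_nb.1 h).2⟩
  have ir : ∀ u, u ∉ nb ω u := fun u h => (mem_nb.1 h).1 rfl
  have wi : w ≠ i := (mem_nb.1 hi).1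
  have wi' : w ≠ i' := (mem_nb.1 hi').1
  have nl : ∀ j ∈ nb ω w, (nb ω j).card = 6 → ∀ a ∈ nb ω w, a ∉ (nb ω j).erase w := by
    intro j hj dj a ha hh
    have hh' := mem_nb.1 (Finset.mem_of_mem_erase hh)
    exact ((h3 G ω w j hs hj).2 dj).1 a ha hh'.1.symm (hs.bad.1.2.1 j a hh'.2)
  have cN : ((nb ω i).erase w).card = 5 := by rw [Finset.card_erase_of_mem (sy hi), d]
  have cN' : ((nb ω i').erase w).card = 5 := by rw [Finset.card_erase_of_mem (sy hi'), d']
  obtain ⟨L, β, hL⟩ := P3_lin g cN hc.ac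
  obtain ⟨L', β', hL'⟩ := P3_lin g cN' hc'.ac
  have p2 := fun U hU => h1 G ω w i i' c c' hs hi hi' ii d d' hc hc' U hU _ _ _ _ (hL U) (hL' U)
  have isw : Isol (del (del (del (adj ω) w) i) i') w :=
    isol_del_of (isol_del_of (isol_del _ _) _) _
  have isi : Isol (del (del (del (adj ω) w) i) i') i := isol_del_of (isol_del _ _) _
  have lift' : ∀ U ∈ g.flex (del (del (del (adj ω) w) i) i'),
      g.Lift ((nb ω i').erase w) c' U (L U) (β' U) := fun U hU => (p2 U hU).1 ▸ hL' U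
  set Ξ := (L + (Matrix.transposeLinearEquiv (Fin 4) (Fin 4) K K).toLinearMap ∘ₗ L).prod
    (β.prod β') with hΞ
  have eΞ : ∀ U, Ξ U = (L U + (L U)ᵀ, β U, β' U) := fun U => rfl
  have top : ((g.flex (del (del (del (adj ω) w) i) i')).map Ξ).map
      (P3_psi (g.p i) (g.p i')) = ⊤ := by
    refine P3_top _ fun t ht => ?_
    obtain ⟨γ, a1, a2, a3⟩ := P3_gam g cN hc.ac ((2 * t 1) • g.p i) (t 0)
    obtain ⟨γ', b1, b2, b3⟩ := P3_gam g cN' hc'.ac ((2 * t 3) • g.p i') (t 2)
    obtain ⟨z, z'⟩ := P3_ind g (fun σ => hs.ctx.ind ω σ w hs.bad) (fun _ _ h => h.1.1.1) isw isi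
      (isol_del _ _) wi wi' ii (Finset.erase_subset _ _) (Finset.erase_subset _ _)
      (Finset.notMem_erase _ _) (Finset.notMem_erase _ _) (nl i hi d i' hi') (nl i' hi' d' i hi)
      a1 b1 a2 b2 (fun U hU => by
        have e := ht _ ⟨_, ⟨U, hU, rfl⟩, rfl⟩
        rw [P3_sum g a1 (hL U), P3_sum g b1 (lift' U hU), a2, a3, b2, b3]
        simp only [eΞ, P3_psi, LinearMap.coe_mk, AddHom.coe_mk, Fin.sum_univ_four,
          Matrix.cons_val, bil_add, bil_transpose] at e
        simp only [mulVec_smul, add_dotProduct, smul_dotProduct, smul_eq_mul, ← bil_eq']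
        linear_combination e)
    subst z z'
    have c1 := congrFun a2 0
    have c2 := congrFun b2 0
    simp [g.coord_ne] at c1 c2 a3 b3
    ext k
    fin_cases k
    · exact a3.symm
    · exact c1
    · exact b3.symm
    · exact c2
  have onto : ∀ x : Fin 4 → K, ∃ U ∈ g.flex (del (del (del (adj ω) w) i) i'),
      P3_psi (g.p i) (g.p i') (Ξ U) = x := fun x => by
    obtain ⟨_, ⟨U, hU, rfl⟩, e⟩ : x ∈ ((g.flex (del (del (del (adj ω) w) i) i')).map Ξ).map
      (P3_psi (g.p i) (g.p i')) := by rw [top]; trivial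
    exact ⟨U, hU, e⟩
  have sub : g.flex (del (adj ω) w) ≤ g.flex (del (del (del (adj ω) w) i) i') :=
    g.flex_anti fun _ _ h => Or.inl h.1.1
  have ker : ∀ U ∈ g.flex (del (adj ω) w), ∀ M : Mat K, (∀ a ∈ nb ω w, M *ᵥ g.p a = U a) →
      L U = -Mᵀ ∧ P3_psi (g.p i) (g.p i') (Ξ U) = 0 := by
    intro U hU M hM
    obtain ⟨a1, a2, a3⟩ := P3_flex g hi cN hc hU hM (hL U)
    obtain ⟨-, b2, b3⟩ := P3_flex g hi' cN' hc' hU hM (lift' U (sub hU))
    refine ⟨a1, ?_⟩
    ext k
    fin_cases k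
    · exact a2
    · exact a3
    · exact b2
    · exact b3
  refine ⟨_, ((nb ω w).erase i).erase i', _, _, c, c', L, β, β', wi, isw, isi, ?_, ?_, ?_, cN,
    cN', ?_, ?_, fun U _ => hL U, lift', fun U hU => (p2 U hU).2, hc.ac, hc'.ac, hc.few, hc'.few,
    ?_, ?_, ?_⟩
  · simp [ir w]
  · simp only [Finset.mem_union, not_or]
    exact ⟨⟨by simp, fun h => ir i (Finset.mem_of_mem_erase h)⟩, nl i' hi' d' i hi⟩
  · rw [Finset.card_erase_of_mem (Finset.mem_erase.2 ⟨ii.symm, hi'⟩),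
      Finset.card_erase_of_mem hi, hs.deg]
  · exact Finset.disjoint_left.2 fun a ha =>
      nl i hi d a (Finset.mem_of_mem_erase (Finset.mem_of_mem_erase ha))
  · exact Finset.disjoint_left.2 fun a ha =>
      nl i' hi' d' a (Finset.mem_of_mem_erase (Finset.mem_of_mem_erase ha))
  · obtain ⟨U, hU, e⟩ := onto 1
    refine ⟨U, hU, fun h0 => ?_⟩
    have e0 : β U ⬝ᵥ g.p i = 1 := congrFun e 0
    simp [h0] at e0
  · obtain ⟨U, hU, e⟩ := onto 1
    refine ⟨U, hU, fun h0 => ?_⟩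
    have e0 : β' U ⬝ᵥ g.p i' = 1 := congrFun e 2
    simp [h0] at e0
  · obtain ⟨-, -, ⟨U₁, a1, M₁, a2, a3⟩, U₂, b0, M₂, b2, b3, b4⟩ := h4 G ω w hs
    have b1 : U₂ ∈ g.flex (del (adj ω) w) := g.flex_anti (fun _ _ h => Or.inl h.1) b0
    obtain ⟨k1, k2⟩ := ker U₁ a1 M₁ a2
    obtain ⟨k3, k4⟩ := ker U₂ b1 M₂ b2
    have li : LinearIndependent K ![Ξ U₁, Ξ U₂] := by
      rw [LinearIndependent.pair_iff]
      intro s t hst
      have e : s • (L U₁ + (L U₁)ᵀ) + t • (L U₂ + (L U₂)ᵀ) = 0 := congrArg Prod.fst hst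
      rw [k1, k3] at e
      have e1 : s • (M₁ + M₁ᵀ) + t • (M₂ + M₂ᵀ) = 0 := by
        rw [← neg_eq_zero, ← e]
        simp only [transpose_neg, transpose_transpose]
        module
      have e2 := congrArg (fun B => bil B (g.p w) (g.p w)) e1
      simp only [bil_add, bil_smul, bil_transpose, b3, bil_zero] at e2
      have s0 : s = 0 := (mul_eq_zero.1 (by linear_combination e2 / 2 :
        s * bil M₁ (g.p w) (g.p w) = 0)).resolve_right a3
      rw [s0, zero_smul, zero_add] at e1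
      exact ⟨s0, (smul_eq_zero.1 e1).resolve_right b4⟩
    have := finrank_layer ((g.flex (del (del (del (adj ω) w) i) i')).map Ξ)
      (Submodule.span K (Set.range ![Ξ U₁, Ξ U₂])) _ (P3_psi (g.p i) (g.p i'))
      (Submodule.span_le.2 (by
        rintro _ ⟨k, rfl⟩
        fin_cases k
        · exact ⟨U₁, sub a1, rfl⟩
        · exact ⟨U₂, sub b1, rfl⟩)) le_rfl
      (Submodule.span_le.2 (by
        rintro _ ⟨k, rfl⟩
        fin_cases k
        · exact k2
        · exact k4))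
    rw [finrank_span_eq_card li, top, finrank_top] at this
    simpa using this

end Pool.Agent.Dress
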