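import Pool.Agent.Lib.MP_d237f6_co.DR.Gam

/-! Two neighbours of degree six without a common neighbour of nonzero weight. -/

set_option autoImplicit false

namespace Pool.Agent.Dress

open Matrix Module Classical

variable {K : Type} [Field K] [CharZero K] {V : Type} [DecidableEq V] [Fintype V]

omit [CharZero K] in
/-- a map that vanishes whenever another one does has smaller rank -/
theorem P4_rank {X Y Z : Type} [AddCommGroup X] [Module K X] [AddCommGroup Y] [Module K Y]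
    [AddCommGroup Z] [Module K Z] [FiniteDimensional K X] (S : Submodule K X) (f : X →ₗ[K] Y)
    (f' : X →ₗ[K] Z) (h : ∀ x ∈ S, f' x = 0 → f x = 0) :
    finrank K (S.map f) ≤ finrank K (S.map f') := by
  have e1 := LinearMap.finrank_range_add_finrank_ker (f.domRestrict S)
  have e2 := LinearMap.finrank_range_add_finrank_ker (f'.domRestrict S)
  rw [LinearMap.range_domRestrict] at e1 e2
  have e3 : finrank K (LinearMap.ker (f'.domRestrict S))
      ≤ finrank K (LinearMap.ker (f.domRestrict S)) :=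
    Submodule.finrank_mono fun x hx => h x.1 x.2 hx
  omega

omit [CharZero K] in
/-- a dependency on a finite set that kills further functions -/
theorem P4_dep (g : Gen V K) {κ : Type} [Fintype κ] (T : Finset V)
    (hT : 4 + Fintype.card κ < T.card) (e : κ → V → K) :
    ∃ γ : V → K, γ ≠ 0 ∧ g.Dep γ ∧ (∀ u, u ∉ T → γ u = 0) ∧ ∀ i, ∑ u, γ u * e i u = 0 := by
  obtain ⟨lam, h0, h1⟩ := dep (K := K) (ι := T) (κ := Fin 4 ⊕ κ) (by simpa using hT)
    (fun u => Sum.elim (g.p u) (fun i => e i u))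
  have hs : ∀ u, u ∉ T → (if h : u ∈ T then lam ⟨u, h⟩ else 0) = 0 := fun u hu => dif_neg hu
  refine ⟨fun u => if h : u ∈ T then lam ⟨u, h⟩ else 0, fun h => h0 ?_, ?_, hs, fun i => ?_⟩
  · ext u
    simpa using congrFun h u
  · rw [g.dep_sum hs, ← Finset.sum_coe_sort]
    ext k
    simpa [Finset.sum_apply] using h1 (Sum.inl k)
  · rw [← Finset.sum_subset (Finset.subset_univ T) (fun u _ hu => by simp [hu]),
      ← Finset.sum_coe_sort]
    simpa using h1 (Sum.inr i)

omit [CharZero K] in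
/-- a minimal relation among the velocities on a set of vertices and its test vertex -/
theorem P4_min (g : Gen V K) (h : g.StTV) (ih : g.IH) {F : V → V → Prop} {w z : V} (hwz : w ≠ z)
    (hw : Isol F w) (hz : Isol F z) {M : Finset V} (hwM : w ∉ M) (hzM : z ∉ M)
    {γ₀ : V → K} {T₀ : Finset V} (h0 : γ₀ ≠ 0) (h1 : g.Dep γ₀) (h2 : T₀ ⊆ M)
    (h3 : ∀ u, u ∉ T₀ → γ₀ u = 0) (h4 : T₀.card ≤ 7)
    (h5 : ∀ U ∈ g.flex F, ∑ u, γ₀ u • U u = 0) :
    ∃ S : Finset V, S ⊆ M ∧ 5 ≤ S.card ∧ S.card ≤ 7 ∧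
      (∀ (γ : V → K) (T : Finset V), γ ≠ 0 → g.Dep γ → T ⊆ M → (∀ u, u ∉ T → γ u = 0) →
        (∀ U ∈ g.flex F, ∑ u, γ u • U u = 0) → S.card ≤ T.card) ∧
      ∃ χ : (V → Vec K) →ₗ[K] (Fin (S.card - 4) → K), ∀ U ∈ g.flex F, χ U = 0 →
        ∃ L₀ : Mat K, L₀ᵀ = -L₀ ∧ ∀ x ∈ S, U x = L₀ *ᵥ g.p x := by
  have hex : ∃ n, ∃ (γ : V → K) (T : Finset V), γ ≠ 0 ∧ g.Dep γ ∧ T ⊆ M ∧
      (∀ u, u ∉ T → γ u = 0) ∧ (∀ U ∈ g.flex F, ∑ u, γ u • U u = 0) ∧ T.card = n :=
    ⟨_, γ₀, T₀, h0, h1, h2, h3, h5, rfl⟩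
  obtain ⟨γ₁, S, a0, a1, a2, a3, a4, a5⟩ := Nat.find_spec hex
  have hmin : ∀ (γ : V → K) (T : Finset V), γ ≠ 0 → g.Dep γ → T ⊆ M → (∀ u, u ∉ T → γ u = 0) →
      (∀ U ∈ g.flex F, ∑ u, γ u • U u = 0) → S.card ≤ T.card := fun γ T b0 b1 b2 b3 b4 =>
    a5 ▸ Nat.find_min' hex ⟨γ, T, b0, b1, b2, b3, b4, rfl⟩
  have hS7 : S.card ≤ 7 := (hmin γ₀ T₀ h0 h1 h2 h3 h5).trans h4
  have hS5 : 5 ≤ S.card := by
    by_contra hh
    exact a0 (g.dep_zero a1 S (by omega) a3)
  have her : ∀ (γ : V → K), g.Dep γ → (∀ u, u ∉ S → γ u = 0) →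
      (∀ U ∈ g.flex F, ∑ u, γ u • U u = 0) → ∀ u ∈ S, γ u = 0 → γ = 0 := by
    intro γ b1 b3 b4 u hu hγ
    by_contra b0
    have := hmin γ (S.erase u) b0 b1 ((Finset.erase_subset _ _).trans a2) (fun v hv => by
      by_cases e : v = u
      · rw [e, hγ]
      · exact b3 v fun hv' => hv (Finset.mem_erase.2 ⟨e, hv'⟩)) b4
    rw [Finset.card_erase_of_mem hu] at this
    omega
  obtain ⟨u₀, hu₀⟩ : S.Nonempty := Finset.card_pos.1 (by omega)
  have hne : ∀ u ∈ S, γ₁ u ≠ 0 := fun u hu e => a0 (her γ₁ a1 a3 a4 u hu e)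
  set γ : V → K := (γ₁ u₀)⁻¹ • γ₁ with hγ
  have c1 : g.Dep γ := g.dep_smul a1 _
  have c3 : ∀ u, u ∉ S → γ u = 0 := fun u hu => by simp [hγ, a3 u hu]
  have c4 : ∀ U ∈ g.flex F, ∑ u, γ u • U u = 0 := fun U hU => by
    simp only [hγ, Pi.smul_apply, smul_eq_mul, mul_smul, ← Finset.smul_sum, a4 U hU, smul_zero]
  have c5 : γ u₀ = 1 := by simp [hγ, hne u₀ hu₀]
  have cw : γ w = 0 := c3 w fun hh => hwM (a2 hh)
  have cd : ∀ k u, g.d w k (γ u) = 0 := by
    intro k
    have dw : g.d w k (γ w) = 0 := by rw [cw, map_zero]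
    refine congrFun (her (fun u => g.d w k (γ u)) ?_ (fun u hu => by rw [c3 u hu, map_zero])
      (fun U hU => ?_) u₀ hu₀ (by simp [c5]))
    · have := congrArg (dv (g.d w k)) c1
      rw [dv_sum_smul, dv_zero, Finset.sum_add_distrib,
        Finset.sum_eq_zero (f := fun b => γ b • dv (g.d w k) (g.p b)) (fun b _ => by
          by_cases hb : b = w
          · rw [hb, cw, zero_smul]
          · rw [g.d_ne hb, smul_zero]), add_zero] at this
      exact this
    · have hU' := g.update_mem hw hU (ξ := 0) (zero_dotProduct _)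
      have e1 := congrArg (dv (g.d w k)) (c4 _ hU')
      have e2 := c4 _ (g.dU_mem hw hU' (by simp) k)
      rw [dv_sum_smul, dv_zero, Finset.sum_add_distrib] at e1
      have e3 : ∑ u, γ u • dv (g.d w k) (Function.update U w 0 u) = 0 := e2
      rw [e3, add_zero] at e1
      rw [← e1]
      refine Finset.sum_congr rfl fun u _ => ?_
      by_cases hu : u = w
      · rw [hu, dw, zero_smul, zero_smul]
      · rw [Function.update_of_ne hu]
  obtain ⟨χ, hχ⟩ := h ih F w z S γ hwz hw hz (fun hh => hwM (a2 hh)) (fun hh => hzM (a2 hh))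
    ⟨u₀, hu₀⟩ hS7 c1 (fun u hu => c3 u fun hh => hu (Finset.mem_insert_of_mem hh))
    (fun u hu => by simp [hγ, hne u hu, hne u₀ hu₀]) (fun U hU => by
      have := congrArg (fun m => m ⬝ᵥ g.p w) (c4 U hU)
      simpa [sum_dotProduct] using this) (Or.inr ⟨cw, cd⟩)
  exact ⟨S, a2, hS5, hS7, hmin, χ, fun U hU h0 => g.rigX S U (hχ U hU h0)⟩

omit [CharZero K] [Fintype V] in
/-- four nontrivial conditions at four points are independent -/
theorem P4_def (g : Gen V K) (Ψ : Submodule K (Vec K × Vec K)) (l l' : V → K) (T : Finset V)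
    (hT : T.card = 4) (hl : ∀ x ∈ T, l x ≠ 0 ∨ l' x ≠ 0)
    (h : ∀ s ∈ Ψ, ∀ x ∈ T, l x * (s.1 ⬝ᵥ g.p x) + l' x * (s.2 ⬝ᵥ g.p x) = 0) :
    finrank K Ψ ≤ 4 := by
  let Φ : (Vec K × Vec K) →ₗ[K] (T → K) :=
    { toFun := fun s x => l x * (s.1 ⬝ᵥ g.p x) + l' x * (s.2 ⬝ᵥ g.p x)
      map_add' := fun a b => by
        ext x; simp only [Prod.fst_add, Prod.snd_add, add_dotProduct, Pi.add_apply]; ring
      map_smul' := fun c a => by
        ext x
        simp only [Prod.smul_fst, Prod.smul_snd, smul_dotProduct, smul_eq_mul, RingHom.id_apply,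
          Pi.smul_apply]
        ring }
  have hs : LinearMap.range Φ = ⊤ := by
    rw [LinearMap.range_eq_top]
    intro t
    let t' : V → K := fun x => if hx : x ∈ T then t ⟨x, hx⟩ else 0
    obtain ⟨b, hb⟩ := g.exists_cov T hT.le (fun x => if l x = 0 then 0 else t' x / l x)
    obtain ⟨b', hb'⟩ := g.exists_cov T hT.le (fun x => if l x = 0 then t' x / l' x else 0)
    refine ⟨(b, b'), funext fun x => ?_⟩
    change l x * (b ⬝ᵥ g.p x) + l' x * (b' ⬝ᵥ g.p x) = t x
    rw [hb x x.2, hb' x x.2]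
    have e : t' x = t x := dif_pos x.2
    by_cases h0 : l x = 0
    · have := (hl x x.2).resolve_left (not_not.2 h0)
      rw [if_pos h0, if_pos h0, e]
      field_simp
      ring
    · rw [if_neg h0, if_neg h0, e]
      field_simp
      ring
  have e1 := LinearMap.finrank_range_add_finrank_ker Φ
  have e2 : finrank K Ψ ≤ finrank K (LinearMap.ker Φ) :=
    Submodule.finrank_mono fun s hs => funext fun x => h s hs x x.2
  rw [hs, finrank_top] at e1
  simp [hT] at e1
  omega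

omit [CharZero K] in
theorem P4_quad {A L : Mat K} (h2 : (2 : K) ≠ 0) (h : A + Aᵀ = L + Lᵀ) (x : Vec K) :
    (L *ᵥ x) ⬝ᵥ x = (A *ᵥ x) ⬝ᵥ x := by
  have e1 := sb_eq A x x
  have e2 := sb_eq L x x
  rw [h, ← e2, sb, sb, bil_eq', bil_eq'] at e1
  exact mul_left_cancel₀ h2 (by linear_combination -e1)

theorem P4_thm (g : Gen V K) (h : g.StTV) : g.StP4 := by
  intro ih F w z B N N' c c' L β β' H hc
  let e : V → K := fun u => if u ∈ N then c u else 0
  let e' : V → K := fun u => if u ∈ N' then c' u else 0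
  have eN : ∀ u ∈ N, e u = c u ∧ e' u = 0 := fun u hu => ⟨if_pos hu, by
    by_cases h' : u ∈ N'
    · exact (if_pos h').trans (hc u hu h').2
    · exact if_neg h'⟩
  have eN' : ∀ u ∈ N', e u = 0 ∧ e' u = c' u := fun u hu => ⟨by
    by_cases h' : u ∈ N
    · exact (if_pos h').trans (hc u h' hu).1
    · exact if_neg h', if_pos hu⟩
  have eB : ∀ u ∈ B, e u = 0 ∧ e' u = 0 := fun u hu =>
    ⟨if_neg (Finset.disjoint_left.1 H.disj hu), if_neg (Finset.disjoint_left.1 H.disj' hu)⟩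
  have hl : ∀ U ∈ g.flex F, ∀ j ∈ N ∪ N', U j = L U *ᵥ g.p j + e j • β U + e' j • β' U := by
    intro U hU j hj
    rcases Finset.mem_union.1 hj with hj | hj
    · rw [(eN j hj).1, (eN j hj).2, zero_smul, add_zero]; exact H.lift U hU j hj
    · rw [(eN' j hj).1, (eN' j hj).2, zero_smul, add_zero]; exact H.lift' U hU j hj
  have hM : 7 ≤ (N ∪ N').card := by
    have a1 := Finset.card_union_add_card_inter N N'
    have a2 : (N ∩ N').card ≤ (N.filter (fun j => c j = 0)).card :=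
      Finset.card_le_card fun u hu => by
        rw [Finset.mem_inter] at hu
        exact Finset.mem_filter.2 ⟨hu.1, (hc u hu.1 hu.2).1⟩
    have := H.few; have := H.cardN; have := H.cardN'
    omega
  have hk : ∀ (γ : V → K) (T : Finset V), g.Dep γ → T ⊆ N ∪ N' → (∀ u, u ∉ T → γ u = 0) →
      ∑ u, γ u * e u = 0 → ∑ u, γ u * e' u = 0 → ∀ U ∈ g.flex F, ∑ u, γ u • U u = 0 := by
    intro γ T b1 b2 b3 b4 b5 U hU
    have : ∀ u, γ u • U u = γ u • (L U *ᵥ g.p u) + (γ u * e u) • β U + (γ u * e' u) • β' U := by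
      intro u
      by_cases hu : u ∈ T
      · rw [hl U hU u (b2 hu), smul_add, smul_add, smul_smul, smul_smul]
      · simp [b3 u hu]
    simp only [this, Finset.sum_add_distrib, ← Finset.sum_smul, b4, b5, g.dep_mulVec b1,
      zero_smul, add_zero]
  obtain ⟨T₀, hT₀, hT₀'⟩ := Finset.exists_subset_card_eq hM
  obtain ⟨γ₀, a0, a1, a2, a3⟩ := P4_dep g (κ := Fin 2) T₀ (by simp [hT₀']) ![e, e']
  have wM : w ∉ N ∪ N' := fun hh => H.wn (by rw [Finset.union_assoc]; exact Finset.mem_union_right _ hh)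
  have zM : z ∉ N ∪ N' := fun hh => H.zn (by rw [Finset.union_assoc]; exact Finset.mem_union_right _ hh)
  obtain ⟨S, hSM, hS5, hS7, hmin, χ, hχ⟩ := P4_min g h ih H.wz H.isw H.isz wM zM a0 a1 hT₀ a2
    hT₀'.le (hk γ₀ T₀ a1 hT₀ a2 (a3 0) (a3 1))
  have hd := H.dim
  set Ξ := ((L + (Matrix.transposeLinearEquiv (Fin 4) (Fin 4) K K).toLinearMap ∘ₗ L).prod
    (β.prod β')) with hΞ
  have hΞ' : ∀ U, Ξ U = (L U + (L U)ᵀ, β U, β' U) := fun U => rfl
  set F₀ := g.flex F ⊓ LinearMap.ker χ with hF₀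
  have hd₀ : 10 ≤ finrank K (F₀.map Ξ) + S.card := by
    have := finrank_map_le_add (g.flex F) Ξ χ
    rw [Module.finrank_fin_fun, ← hF₀] at this
    omega
  have hA : ∀ U ∈ F₀, ∃ A : Mat K, A + Aᵀ = L U + (L U)ᵀ ∧
      ∀ j ∈ S, A *ᵥ g.p j + e j • β U + e' j • β' U = 0 := by
    intro U hU
    obtain ⟨L₀, b1, b2⟩ := hχ U hU.1 hU.2
    refine ⟨L U - L₀, by rw [transpose_sub, b1]; abel, fun j hj => ?_⟩
    have := hl U hU.1 j (hSM hj)
    rw [b2 j hj] at this
    rw [sub_mulVec]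
    linear_combination (exp := 1) -this
  have hz : ∀ U ∈ F₀, β U = 0 → β' U = 0 → Ξ U = 0 := by
    intro U hU b1 b2
    obtain ⟨A, b3, b4⟩ := hA U hU
    have : A = 0 := g.mat4_zero S (by omega) fun j hj => by simpa [b1, b2] using b4 j hj
    rw [hΞ', ← b3, this, b1, b2]
    simp
  have hloop : ∀ U ∈ F₀, ∀ x ∈ B ∪ (N ∪ N'),
      (L U *ᵥ g.p x) ⬝ᵥ g.p x + e x * (β U ⬝ᵥ g.p x) + e' x * (β' U ⬝ᵥ g.p x) = 0 := by
    intro U hU x hx
    have b0 := hU.1.1 x
    rcases Finset.mem_union.1 hx with hx | hx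
    · rw [H.hB U hU.1 x hx, neg_dotProduct, ← bil_eq', bil_transpose, bil_eq', neg_eq_zero] at b0
      rw [(eB x hx).1, (eB x hx).2, b0]; ring
    · rw [hl U hU.1 x hx] at b0
      simpa using b0
  let lin : K → K → Prop := fun t t' => ∃ f : Vec K, ∀ j ∈ S, t * e j + t' * e' j = f ⬝ᵥ g.p j
  have hlin : ∀ U ∈ F₀, ∀ k, lin (β U k) (β' U k) := by
    intro U hU k
    obtain ⟨A, -, b4⟩ := hA U hU
    refine ⟨-A k, fun j hj => ?_⟩
    have := congrFun (b4 j hj) k
    simp only [Pi.add_apply, Pi.smul_apply, smul_eq_mul, Pi.zero_apply, mulVec] at this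
    rw [neg_dotProduct]
    linear_combination this
  have hsum : ∀ (γ : V → K) (T : Finset V) (t t' : K) (f : Vec K), g.Dep γ → T ⊆ S →
      (∀ u, u ∉ T → γ u = 0) → (∀ j ∈ S, t * e j + t' * e' j = f ⬝ᵥ g.p j) →
      t * ∑ u, γ u * e u + t' * ∑ u, γ u * e' u = 0 := by
    intro γ T t t' f b1 b2 b3 b4
    rw [← g.dep_dot b1 f, Finset.mul_sum, Finset.mul_sum, ← Finset.sum_add_distrib]
    refine Finset.sum_congr rfl fun u _ => ?_
    by_cases hu : u ∈ T
    · rw [← b4 u (b2 hu)]; ring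
    · rw [b3 u hu]; ring
  by_cases r0 : lin 1 0 ∧ lin 0 1
  · obtain ⟨⟨f, hf⟩, f', hf'⟩ := r0
    obtain ⟨T, hT, hT'⟩ := Finset.exists_subset_card_eq hS5
    obtain ⟨ζ, b1, b2, b3⟩ := g.dep5 T hT'
    obtain ⟨u, hu⟩ : T.Nonempty := Finset.card_pos.1 (by omega)
    have s5 := hmin ζ T (fun hh => b3 u hu (congrFun hh u)) b1 (hT.trans hSM) b2
      (hk ζ T b1 (hT.trans hSM) b2 (by simpa using hsum ζ T 1 0 f b1 hT b2 hf)
        (by simpa using hsum ζ T 0 1 f' b1 hT b2 hf'))
    have d5 := P4_rank F₀ Ξ (β.prod β') fun U hU h0 =>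
      hz U hU (congrArg Prod.fst h0) (congrArg Prod.snd h0)
    have hdef : ∀ U ∈ F₀, ∀ x ∈ B ∪ (N ∪ N'), (e x - f ⬝ᵥ g.p x) * (β U ⬝ᵥ g.p x)
        + (e' x - f' ⬝ᵥ g.p x) * (β' U ⬝ᵥ g.p x) = 0 := by
      intro U hU x hx
      obtain ⟨A, b4, b5⟩ := hA U hU
      have b6 : A + vecMulVec (β U) f + vecMulVec (β' U) f' = 0 :=
        g.mat4_zero S (by omega) fun j hj => by
          have c1 := hf j hj
          have c2 := hf' j hj
          simp only [one_mul, zero_mul, add_zero, zero_add] at c1 c2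
          rw [add_mulVec, add_mulVec, vecMulVec_mulVec, vecMulVec_mulVec, ← c1, ← c2]
          simpa using b5 j hj
      have b7 := congrArg (fun C => (C *ᵥ g.p x) ⬝ᵥ g.p x) b6
      simp only [add_mulVec, vecMulVec_mulVec, add_dotProduct, zero_mulVec, zero_dotProduct,
        op_smul_eq_smul, smul_dotProduct, smul_eq_mul] at b7
      have b8 := hloop U hU x hx
      rw [P4_quad two_ne_zero b4] at b8
      linear_combination b8 - b7
    set D := (B ∪ (N ∪ N')).filter
      (fun x => e x - f ⬝ᵥ g.p x ≠ 0 ∨ e' x - f' ⬝ᵥ g.p x ≠ 0) with hD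
    have hD3 : D.card ≤ 3 := by
      by_contra hh
      obtain ⟨T', c1, c2⟩ := Finset.exists_subset_card_eq (s := D) (n := 4) (by omega)
      have := P4_def g (F₀.map (β.prod β')) (fun x => e x - f ⬝ᵥ g.p x)
        (fun x => e' x - f' ⬝ᵥ g.p x) T' c2 (fun x hx => (Finset.mem_filter.1 (c1 hx)).2) (by
          rintro _ ⟨U, hU, rfl⟩ x hx
          exact hdef U hU x (Finset.mem_filter.1 (c1 hx)).1)
      omega
    have hnd : ∀ x ∈ B ∪ (N ∪ N'), x ∉ D → e x = f ⬝ᵥ g.p x ∧ e' x = f' ⬝ᵥ g.p x := by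
      intro x hx hx'
      rw [hD, Finset.mem_filter, not_and, not_or, not_not, not_not] at hx'
      exact ⟨sub_eq_zero.1 (hx' hx).1, sub_eq_zero.1 (hx' hx).2⟩
    have f0 : f = 0 := by
      refine g.cov_zero ((B ∪ N') \ D) ?_ f fun x hx => ?_
      · have c1 := Finset.le_card_sdiff D (B ∪ N')
        rw [Finset.card_union_of_disjoint H.disj', H.cardB, H.cardN'] at c1
        omega
      · obtain ⟨c1, c2⟩ := Finset.mem_sdiff.1 hx
        rcases Finset.mem_union.1 c1 with c1 | c1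
        · rw [← (hnd x (Finset.mem_union_left _ c1) c2).1, (eB x c1).1]
        · rw [← (hnd x (by simp [c1]) c2).1, (eN' x c1).1]
    have f0' : f' = 0 := by
      refine g.cov_zero ((B ∪ N) \ D) ?_ f' fun x hx => ?_
      · have c1 := Finset.le_card_sdiff D (B ∪ N)
        rw [Finset.card_union_of_disjoint H.disj, H.cardB, H.cardN] at c1
        omega
      · obtain ⟨c1, c2⟩ := Finset.mem_sdiff.1 hx
        rcases Finset.mem_union.1 c1 with c1 | c1
        · rw [← (hnd x (Finset.mem_union_left _ c1) c2).2, (eB x c1).2]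
        · rw [← (hnd x (by simp [c1]) c2).2, (eN x c1).2]
    have c1 := Finset.card_filter_add_card_filter_not (s := N) (fun j => c j = 0)
    have c2 := Finset.card_filter_add_card_filter_not (s := N') (fun j => c' j = 0)
    have c3 : Disjoint (N.filter (fun j => ¬ c j = 0)) (N'.filter (fun j => ¬ c' j = 0)) :=
      Finset.disjoint_left.2 fun x h1 h2 => (Finset.mem_filter.1 h1).2
        (hc x (Finset.mem_filter.1 h1).1 (Finset.mem_filter.1 h2).1).1
    have c4 : N.filter (fun j => ¬ c j = 0) ∪ N'.filter (fun j => ¬ c' j = 0) ⊆ D := by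
      intro x hx
      rw [hD, Finset.mem_filter, f0, f0', zero_dotProduct, sub_zero, sub_zero]
      rcases Finset.mem_union.1 hx with hx | hx
      · obtain ⟨h1, h2⟩ := Finset.mem_filter.1 hx
        exact ⟨by simp [h1], Or.inl (by rwa [(eN x h1).1])⟩
      · obtain ⟨h1, h2⟩ := Finset.mem_filter.1 hx
        exact ⟨by simp [h1], Or.inr (by rwa [(eN' x h1).2])⟩
    have c5 := Finset.card_le_card c4
    rw [Finset.card_union_of_disjoint c3] at c5
    have := H.few; have := H.few'; have := H.cardN; have := H.cardN'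
    omega
  by_cases r1 : ∃ t t' : K, (t ≠ 0 ∨ t' ≠ 0) ∧ lin t t'
  · obtain ⟨t, t', ht, f, hf⟩ := r1
    obtain ⟨a, a', ha⟩ : ∃ a a' : K, t * a' - t' * a = 1 := by
      rcases ht with ht | ht
      · exact ⟨0, t⁻¹, by field_simp; ring⟩
      · exact ⟨-t'⁻¹, 0, by field_simp; ring⟩
    have hu : ∀ s s' : K, lin s s' → s * t' = s' * t := by
      rintro s s' ⟨f₁, hf₁⟩
      by_contra hh
      have hh' : s * t' - s' * t ≠ 0 := sub_ne_zero.2 hh
      refine r0 ⟨⟨(s * t' - s' * t)⁻¹ • (t' • f₁ - s' • f), fun j hj => ?_⟩,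
        ⟨(s * t' - s' * t)⁻¹ • (s • f - t • f₁), fun j hj => ?_⟩⟩
      all_goals
        simp only [smul_dotProduct, sub_dotProduct, smul_eq_mul, ← hf j hj, ← hf₁ j hj]
        field_simp
        ring
    let η : (V → Vec K) →ₗ[K] Vec K := a' • β - a • β'
    have hη : ∀ U ∈ F₀, β U = t • η U ∧ β' U = t' • η U := by
      intro U hU
      constructor <;> ext k <;> have := hu _ _ (hlin U hU k) <;>
        simp only [η, LinearMap.sub_apply, LinearMap.smul_apply, Pi.smul_apply, Pi.sub_apply,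
          smul_eq_mul]
      · linear_combination (-β U k) * ha - a * this
      · linear_combination (-β' U k) * ha - a' * this
    have s6 : S.card ≤ 6 := by
      by_contra hh
      obtain ⟨T, hT, hT'⟩ := Finset.exists_subset_card_eq (s := S) (n := 6) (by omega)
      obtain ⟨γ, b0, b1, b2, b3⟩ := P4_dep g (κ := Unit) T (by simp [hT'])
        (fun _ u => a * e u + a' * e' u)
      have b4 := hsum γ T t t' f b1 hT b2 hf
      have b5 : a * ∑ u, γ u * e u + a' * ∑ u, γ u * e' u = 0 := by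
        rw [← b3 (), Finset.mul_sum, Finset.mul_sum, ← Finset.sum_add_distrib]
        exact Finset.sum_congr rfl fun u _ => by ring
      have := hmin γ T b0 b1 (hT.trans hSM) b2 (hk γ T b1 (hT.trans hSM) b2
        (by linear_combination a' * b4 - t' * b5 - (∑ u, γ u * e u) * ha)
        (by linear_combination t * b5 - a * b4 - (∑ u, γ u * e' u) * ha))
      omega
    have d4 := P4_rank F₀ Ξ η fun U hU h0 =>
      hz U hU (by rw [(hη U hU).1, h0, smul_zero]) (by rw [(hη U hU).2, h0, smul_zero])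
    have top : F₀.map η = ⊤ := by
      apply Submodule.eq_top_of_finrank_eq
      have := Submodule.finrank_le (F₀.map η)
      rw [Module.finrank_fin_fun] at this ⊢
      omega
    have hall : ∀ x ∈ N ∪ N', t * e x + t' * e' x = f ⬝ᵥ g.p x := by
      intro x hx
      obtain ⟨U, hU, hU'⟩ : Pi.single 0 1 ∈ F₀.map η := by rw [top]; trivial
      obtain ⟨A, b4, b5⟩ := hA U hU
      have b6 : A + vecMulVec (η U) f = 0 :=
        g.mat4_zero S (by omega) fun j hj => by
          have c1 := b5 j hj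
          rw [(hη U hU).1, (hη U hU).2, smul_smul, smul_smul, add_assoc, ← add_smul] at c1
          rw [add_mulVec, vecMulVec_mulVec, ← hf j hj, op_smul_eq_smul, mul_comm t, mul_comm t']
          exact c1
      have b7 := congrArg (fun C => (C *ᵥ g.p x) ⬝ᵥ g.p x) b6
      simp only [add_mulVec, vecMulVec_mulVec, add_dotProduct, zero_mulVec, zero_dotProduct,
        op_smul_eq_smul, smul_dotProduct, smul_eq_mul] at b7
      have b8 := hloop U hU x (Finset.mem_union_right _ hx)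
      rw [P4_quad two_ne_zero b4, (hη U hU).1, (hη U hU).2, smul_dotProduct, smul_dotProduct,
        smul_eq_mul, smul_eq_mul] at b8
      have b9 : η U ⬝ᵥ g.p x ≠ 0 := by
        rw [hU']; simpa using g.coord_ne x 0
      exact mul_left_cancel₀ b9 (by linear_combination b8 - b7)
    have fin : ∀ (P : Finset V) (d : V → K) (s : K), P.card = 5 →
        (∀ α, g.Dep α → (∀ u, u ∉ P → α u = 0) → ∑ u, α u * d u = 0 → α = 0) →
        (∀ x ∈ P, s * d x = f ⬝ᵥ g.p x) → s = 0 := by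
      intro P d s c1 c2 c3
      obtain ⟨ζ, b1, b2, b3⟩ := g.dep5 P c1
      obtain ⟨u, hu⟩ : P.Nonempty := Finset.card_pos.1 (by omega)
      by_contra hs
      refine b3 u hu (congrFun (c2 ζ b1 b2 (mul_left_cancel₀ hs ?_)) u)
      rw [mul_zero, ← g.dep_dot b1 f, Finset.mul_sum]
      refine Finset.sum_congr rfl fun v _ => ?_
      by_cases hv : v ∈ P
      · rw [← c3 v hv]; ring
      · rw [b2 v hv]; ring
    have t0 := fin N c t H.cardN H.ac fun x hx => by
      have := hall x (Finset.mem_union_left _ hx)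
      rwa [(eN x hx).1, (eN x hx).2, mul_zero, add_zero] at this
    have t0' := fin N' c' t' H.cardN' H.ac' fun x hx => by
      have := hall x (Finset.mem_union_right _ hx)
      rwa [(eN' x hx).1, (eN' x hx).2, mul_zero, zero_add] at this
    exact ht.elim (fun hh => hh t0) (fun hh => hh t0')
  · have hb : F₀.map Ξ = ⊥ := by
      rw [Submodule.eq_bot_iff]
      rintro _ ⟨U, hU, rfl⟩
      have : ∀ k, β U k = 0 ∧ β' U k = 0 := fun k => by
        by_contra hh
        exact r1 ⟨_, _, not_and_or.1 hh, hlin U hU k⟩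
      exact hz U hU (funext fun k => (this k).1) (funext fun k => (this k).2)
    rw [hb, finrank_bot] at hd₀
    omega

end Pool.Agent.Dress
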