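import Pool.Agent.Lib.MP_d237f6_co.DR.Gam

/-! Two neighbours of degree six: a common neighbour has weight zero. -/

set_option autoImplicit false

namespace Pool.Agent.Dress

open Matrix Module Classical

variable {K : Type} [Field K] [CharZero K] {V : Type} [DecidableEq V] [Fintype V]

omit [CharZero K] in
theorem P5_tr (L : Mat K) (x y : Vec K) : (Lᵀ *ᵥ x) ⬝ᵥ y = (L *ᵥ y) ⬝ᵥ x := by
  rw [← bil_eq', ← bil_eq', bil_transpose]

omit [Fintype V] in
/-- a quadric containing the plane of three points splits -/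
theorem P5_split (g : Gen V K) {B : Finset V} (hB : B.card = 3) {j : V} (hj : j ∉ B) (L : Mat K)
    (h : ∀ b ∈ B, ∀ b' ∈ B, sb L (g.p b) (g.p b') = 0) {φ : Vec K} (h0 : φ ≠ 0)
    (hφ : ∀ b ∈ B, φ ⬝ᵥ g.p b = 0) :
    ∃ σ : Vec K, ∀ m m', sb L m m' = (φ ⬝ᵥ m) * (σ ⬝ᵥ m') + (σ ⬝ᵥ m) * (φ ⬝ᵥ m') := by
  have hn : φ ⬝ᵥ g.p j ≠ 0 := fun e => h0 (g.cov_zero (insert j B)
    (by rw [Finset.card_insert_of_notMem hj]; omega) φ fun b hb =>
      (Finset.mem_insert.1 hb).elim (fun e' => e' ▸ e) (hφ b))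
  obtain ⟨x, y, z, h1, h2, h3, rfl⟩ := Finset.card_eq_three.1 hB
  simp only [Finset.mem_insert, Finset.mem_singleton, not_or] at hj
  obtain ⟨σ, s1, s2, s3, s4⟩ := g.exists_cov4 h1 h2 (Ne.symm hj.1) h3 (Ne.symm hj.2.1)
    (Ne.symm hj.2.2) (sb L (g.p x) (g.p j) / φ ⬝ᵥ g.p j) (sb L (g.p y) (g.p j) / φ ⬝ᵥ g.p j)
    (sb L (g.p z) (g.p j) / φ ⬝ᵥ g.p j) (sb L (g.p j) (g.p j) / (2 * φ ⬝ᵥ g.p j))
  have f1 := hφ x (by simp)
  have f2 := hφ y (by simp)
  have f3 := hφ z (by simp)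
  have key : L + Lᵀ - (vecMulVec φ σ + vecMulVec σ φ) = 0 := by
    refine mat_eq_zero (z := ![g.p x, g.p y, g.p z, g.p j]) (fun f hf => cov_zero4
      (g.li4 h1 h2 (Ne.symm hj.1) h3 (Ne.symm hj.2.1) (Ne.symm hj.2.2)) hf) fun a b => ?_
    rw [bil_sub, ← sb_eq, bil_add, bil_vecMulVec, bil_vecMulVec]
    have c1 := sb_comm L (g.p j) (g.p x)
    have c2 := sb_comm L (g.p j) (g.p y)
    have c3 := sb_comm L (g.p j) (g.p z)
    fin_cases a <;> fin_cases b <;>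
      simp [f1, f2, f3, s1, s2, s3, s4, h, c1, c2, c3] <;> field_simp <;> ring
  refine ⟨σ, fun m m' => ?_⟩
  have := congrArg (fun S => bil S m m') key
  simp only [bil_sub, ← sb_eq, bil_zero] at this
  rw [bil_add, bil_vecMulVec, bil_vecMulVec] at this
  linear_combination this

/-- rigidity of the three points and vanishing of the vector on them kill everything -/
theorem P5_core (g : Gen V K) {B N : Finset V} (hB : B.card = 3) (hN : N.card = 5)
    (hd : Disjoint B N) {c : V → K}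
    (ac : ∀ α, g.Dep α → (∀ u, u ∉ N → α u = 0) → ∑ u, α u * c u = 0 → α = 0)
    (L : Mat K) (β : Vec K) (h : ∀ b ∈ B, ∀ b' ∈ B, sb L (g.p b) (g.p b') = 0)
    (hβ : ∀ b ∈ B, β ⬝ᵥ g.p b = 0)
    (hl : ∀ j ∈ N, bil L (g.p j) (g.p j) + c j * (β ⬝ᵥ g.p j) = 0) : L + Lᵀ = 0 ∧ β = 0 := by
  obtain ⟨j₀, hj₀⟩ : N.Nonempty := Finset.card_pos.1 (by omega)
  obtain ⟨x, y, z, h1, h2, h3, e⟩ := Finset.card_eq_three.1 hB
  obtain ⟨φ, h0, f1, f2, f3⟩ := exists_normal (g.p x) (g.p y) (g.p z)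
  have hφ : ∀ b ∈ B, φ ⬝ᵥ g.p b = 0 := by
    intro b hb
    rw [e] at hb
    simp only [Finset.mem_insert, Finset.mem_singleton] at hb
    rcases hb with rfl | rfl | rfl <;> assumption
  obtain ⟨t, ht⟩ := normal_prop (g.li3 h1 h2 h3) h0 f1 f2 f3 (hβ x (by simp [e]))
    (hβ y (by simp [e])) (hβ z (by simp [e]))
  obtain ⟨σ, hσ⟩ := P5_split g hB (Finset.disjoint_right.1 hd hj₀) L h h0 hφ
  have k1 : ∀ j ∈ N, σ ⬝ᵥ g.p j = -(t * c j) := by
    intro j hj
    have hn : φ ⬝ᵥ g.p j ≠ 0 := fun e => h0 (g.cov_zero (insert j B)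
      (by rw [Finset.card_insert_of_notMem (Finset.disjoint_right.1 hd hj)]; omega) φ fun b hb =>
        (Finset.mem_insert.1 hb).elim (fun e' => e' ▸ e) (hφ b))
    have a1 := hσ (g.p j) (g.p j)
    have a2 := hl j hj
    rw [ht, smul_dotProduct, smul_eq_mul] at a2
    rw [sb] at a1
    refine mul_left_cancel₀ hn ?_
    linear_combination a2 - a1 / 2
  obtain ⟨ζ, z1, z2, z3⟩ := g.dep5 N hN
  have k2 : t = 0 := by
    by_contra hh
    refine z3 j₀ hj₀ (congrFun (ac ζ z1 z2 ?_) j₀)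
    have a1 := g.dep_dot z1 σ
    refine mul_left_cancel₀ hh ?_
    rw [mul_zero, Finset.mul_sum, ← neg_eq_zero, ← a1, ← Finset.sum_neg_distrib]
    refine Finset.sum_congr rfl fun u _ => ?_
    by_cases hu : u ∈ N
    · rw [k1 u hu]; ring
    · simp [z2 u hu]
  have k3 : σ = 0 := g.cov_zero N (by omega) σ fun j hj => by rw [k1 j hj, k2]; simp
  refine ⟨?_, by rw [ht, k2, zero_smul]⟩
  ext a b
  have := hσ (Pi.single a 1) (Pi.single b 1)
  rw [sb_eq, bil_single, k3] at this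
  simpa using this

omit [CharZero K] [DecidableEq V] [Fintype V] in
theorem P5_two {N : Finset V} {c : V → K} (hN : N.card = 5)
    (few : (N.filter (fun j => c j = 0)).card ≤ 3) :
    ∃ j ∈ N, ∃ j' ∈ N, j ≠ j' ∧ c j ≠ 0 ∧ c j' ≠ 0 := by
  have h1 := Finset.card_filter_add_card_filter_not (s := N) (fun j => c j = 0)
  obtain ⟨j, hj, j', hj', h⟩ := Finset.one_lt_card.1
    (by omega : 1 < (N.filter (fun j => ¬ c j = 0)).card)
  rw [Finset.mem_filter] at hj hj'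
  exact ⟨j, hj.1, j', hj'.1, h, hj.2, hj'.2⟩

theorem P5_thm (g : Gen V K) (h : g.StPPL) : g.StP5 := by
  intro ih F w z B N N' c c' L β β' d u hu hu'
  by_contra hc
  have e0 : ∀ U ∈ g.flex F, c u • β U = c' u • β' U := fun U hU => by
    have := (d.lift U hU u hu).symm.trans (d.lift' U hU u hu')
    exact add_left_cancel this
  have hc' : c' u ≠ 0 := by
    intro e
    obtain ⟨U, hU, h0⟩ := d.nz
    have := e0 U hU
    rw [e, zero_smul] at this
    exact hc ⟨(smul_eq_zero.1 this).resolve_right h0, e⟩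
  obtain ⟨j, hj, j', hj', hjj, cj, cj'⟩ := P5_two d.cardN d.few
  have e1 : ∀ U ∈ g.flex F, ∀ i ∈ N, ∀ x ∈ B, dl g.p U i x = c i * (β U ⬝ᵥ g.p x) := by
    intro U hU i hi x hx
    rw [dl, d.lift U hU i hi, d.hB U hU x hx, neg_dotProduct, P5_tr, add_dotProduct,
      smul_dotProduct, smul_eq_mul]
    ring
  have e2 : ∀ U ∈ g.flex F, ∀ x ∈ B, ∀ y ∈ B,
      dl g.p U x y = -sb (L U) (g.p x) (g.p y) := by
    intro U hU x hx y hy
    rw [dl, d.hB U hU x hx, d.hB U hU y hy, neg_dotProduct, neg_dotProduct, P5_tr, P5_tr, sb,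
      bil_eq', bil_eq']
    ring
  have wn := d.wn
  have zn := d.zn
  simp only [Finset.mem_union, not_or] at wn zn
  let F' : V → V → Prop := fun a b => F a b ∨ (a ∈ B ∧ b ∈ B) ∨ (a = j ∧ b = j')
  have iso : ∀ v, Isol F v → v ∉ B → v ∉ N → Isol F' v := fun v h1 h2 h3 a =>
    ⟨fun e => e.elim (h1 a).1 fun e => e.elim (fun e => h2 e.1) fun e => h3 (e.1 ▸ hj),
      fun e => e.elim (h1 a).2 fun e => e.elim (fun e => h2 e.2) fun e => h3 (e.2 ▸ hj')⟩
  have le : g.flex F' ≤ g.flex F := g.flex_anti fun _ _ e => Or.inl (Or.inl e)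
  have nm : ∀ v, v ∉ B → v ∉ N → v ∉ insert j (insert j' B) := fun v h1 h2 e => by
    simp only [Finset.mem_insert] at e
    rcases e with e | e | e
    · exact h2 (e ▸ hj)
    · exact h2 (e ▸ hj')
    · exact h1 e
  obtain ⟨t, ht⟩ := h ih F' w z j j' B (-(c j / c j')) d.wz (iso w d.isw wn.1.1 wn.1.2)
    (iso z d.isz zn.1.1 zn.1.2) d.cardB hjj (Finset.disjoint_right.1 d.disj hj)
    (Finset.disjoint_right.1 d.disj hj') (nm w wn.1.1 wn.1.2) (nm z zn.1.1 zn.1.2)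
    (g.link_of (Or.inr (Or.inr ⟨rfl, rfl⟩)))
    (fun x hx y hy => g.link_of (Or.inr (Or.inl ⟨hx, hy⟩)))
    (neg_ne_zero.2 (div_ne_zero cj cj')) (fun U hU x hx => by
      rw [e1 U (le hU) j hj x hx, e1 U (le hU) j' hj' x hx]
      field_simp
      ring)
  obtain ⟨x, y, r, h1, h2, h3, eB⟩ := Finset.card_eq_three.1 d.cardB
  obtain ⟨x₀, hx₀, hx₀'⟩ : ∃ x₀ ∈ B, t x₀ = 0 → ∀ x ∈ B, t x = 0 := by
    by_cases e : ∃ x ∈ B, t x ≠ 0
    · obtain ⟨x, hx, e⟩ := e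
      exact ⟨x, hx, fun e' => absurd e' e⟩
    · push Not at e
      exact ⟨x, by simp [eB], fun _ => e⟩
  let χ : (V → Vec K) →ₗ[K] (Fin 5 → K) :=
    LinearMap.pi ![dlL g.p x y, dlL g.p x r, dlL g.p y r, dlL g.p j j', dlL g.p j' x₀]
  have hd := d.dim.trans (finrank_map_le_add (g.flex F) _ χ)
  rw [show (g.flex F ⊓ LinearMap.ker χ).map _ = ⊥ from ?_] at hd
  · simp at hd
  rw [eq_bot_iff]
  rintro _ ⟨U, ⟨hU, hχ⟩, rfl⟩
  have c0 : dl g.p U x y = 0 := congrFun hχ 0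
  have c1 : dl g.p U x r = 0 := congrFun hχ 1
  have c2 : dl g.p U y r = 0 := congrFun hχ 2
  have c3 : dl g.p U j j' = 0 := congrFun hχ 3
  have c4 : dl g.p U j' x₀ = 0 := congrFun hχ 4
  have rB : ∀ a ∈ B, ∀ b ∈ B, dl g.p U a b = 0 := by
    intro a ha b hb
    rw [eB] at ha hb
    simp only [Finset.mem_insert, Finset.mem_singleton] at ha hb
    rcases ha with rfl | rfl | rfl <;> rcases hb with rfl | rfl | rfl <;>
      first
        | assumption
        | exact g.link_refl F _ U hU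
        | (rw [dl_comm]; assumption)
  have hU' : U ∈ g.flex F' := ⟨hU.1, fun a b e => e.elim (hU.2 a b) fun e =>
    e.elim (fun e => rB a e.1 b e.2) fun e => by rw [e.1, e.2]; exact c3⟩
  obtain ⟨s, hs⟩ := ht U hU'
  have k1 : ∀ b ∈ B, β U ⬝ᵥ g.p b = 0 := by
    intro b hb
    have a1 := hs b hb
    have a2 := hs x₀ hx₀
    rw [c4] at a2
    rw [e1 U hU j' hj' b hb] at a1
    refine mul_left_cancel₀ cj' ?_
    rw [a1, mul_zero]
    rcases mul_eq_zero.1 a2.symm with e | e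
    · rw [e, zero_mul]
    · rw [hx₀' e b hb, mul_zero]
  obtain ⟨k2, k3⟩ := P5_core g d.cardB d.cardN d.disj d.ac (L U) (β U)
    (fun a ha b hb => by rw [← neg_eq_zero, ← e2 U hU a ha b hb, rB a ha b hb]) k1
    (fun i hi => by
      have := hU.1 i
      rwa [d.lift U hU i hi, add_dotProduct, smul_dotProduct, smul_eq_mul, ← bil_eq'] at this)
  have k4 : β' U = 0 := by
    have := e0 U hU
    rw [k3, smul_zero] at this
    exact (smul_eq_zero.1 this.symm).resolve_left hc'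
  rw [Submodule.mem_bot]
  refine Prod.ext k2 (Prod.ext k3 k4)

end Pool.Agent.Dress
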