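import Pool.Agent.Lib.MP_d237f6_co.DR.TR

/-! Vertices of degree five away from a vertex of first type. -/

set_option autoImplicit false
set_option linter.unusedSectionVars false

namespace Pool.Agent.Dress

open Matrix Module Classical

variable {K : Type} [Field K] [CharZero K] {V : Type} [DecidableEq V] [Fintype V]

/-- a vertex of degree five is in no clique on five points with four neighbours -/
theorem PL_nok {g : Gen V K} {G : V → V → Prop} {ω : V → V → K} (hc : g.Ctx G) (hb : g.NK G ω)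
    (w : V) {l : V} (h5 : (nb ω l).card = 5) : g.NoK5 G ω w l := by
  intro S hS h4 hq
  obtain ⟨s, hs⟩ : S.Nonempty := Finset.card_pos.1 (by omega)
  have hS' := hS.trans (Finset.erase_subset _ _)
  obtain ⟨ω', b1, b2, -⟩ := hc.rd ω l S s hb hS' h4 hq hs
  have e1 := hc.d5 ω' l b1.1
  have e2 := Finset.card_le_card b2
  rw [Finset.card_erase_of_mem (hS' hs)] at e2
  omega

theorem PL_thm (g : Gen V K) (hTR : g.StTR) : g.StPL := by
  intro G ω w a c T ρ h l hw hl h5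
  have hK := PL_nok h.ctx h.bad.1 w h5
  rw [h.nbw, Finset.mem_insert, Finset.mem_insert, not_or, not_or] at hl
  have hT : ∀ x ∈ T, l ≠ x := fun x hx e => hl.2.2 (e ▸ hx)
  have h5' : ((nb ω l).erase w).card ≤ 5 := (Finset.card_erase_le).trans h5.le
  have key : ∀ x ∈ T, ∀ x' ∈ T, x ≠ x' → ∀ Γ Γ', g.IsGam (del (adj ω) w) a c x ρ Γ →
      g.IsGam (del (adj ω) w) a c x' ρ Γ' → Γ l = 0 ∨ Γ' l = 0 := by
    intro x hx x' hx' hne Γ Γ' hΓ hΓ'
    by_contra hh
    rw [not_or] at hh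
    obtain ⟨y, hy, hyx, hyx'⟩ : ∃ y ∈ T, x ≠ y ∧ x' ≠ y := by
      by_contra h2
      push Not at h2
      have : T ⊆ {x, x'} := fun y hy => by
        by_cases e : x = y
        · simp [e]
        · simp [h2 y hy e]
      have e1 := Finset.card_le_card this
      have e2 := Finset.card_le_two (a := x) (b := x')
      have e3 := h.t1.card
      omega
    obtain ⟨Θ, hΘ⟩ := TR_gam h hy
    obtain ⟨Δ, s, s', d3, hss, hs, hs', eN, eS, eS', -, g0, g1, g2, g3, -⟩ :=
      hTR G ω w a c T ρ h x hx x' hx' hne l hw hl.1 hl.2.1 (hT x hx) (hT x' hx') Γ Γ' hΓ hΓ'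
        hh.1 hh.2 h5' hK
    have hΘ0 : Θ l ≠ 0 := fun e => g0 (TR_grad0 h hy hΘ e)
    have ls : l ≠ s := (mem_nb.1 (show s ∈ nb Γ l by rw [eS]; simp)).1
    have ls' : l ≠ s' := (mem_nb.1 (show s' ∈ nb Γ' l by rw [eS']; simp)).1
    have only : ∀ t, l ≠ t → g.grad l ρ ⬝ᵥ g.p t = 0 → t = s ∨ t = s' := fun t h1 h2 => by
      by_contra h3
      rw [not_or] at h3
      exact g0 (g.cov4 ls ls' h1 hss (Ne.symm h3.1) (Ne.symm h3.2) g1 g2 g3 h2)
    have out : ∀ z ∈ T, z ≠ y → ∀ Ψ, g.IsGam (del (adj ω) w) a c z ρ Ψ → Ψ l ≠ 0 →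
        ∃ t ∈ nb Ψ l, t ∉ nb Θ l ∧ (t = s ∨ t = s') := by
      intro z hz hzy Ψ hΨ h0
      obtain ⟨Δ₂, t, t', -, htt, ht, -, -, e1, e2, -, -, -, g4, -, -⟩ :=
        hTR G ω w a c T ρ h z hz y hy hzy l hw hl.1 hl.2.1 (hT z hz) (hT y hy) Ψ Θ hΨ hΘ
          h0 hΘ0 h5' hK
      have m : t ∈ nb Ψ l := by rw [e1]; simp
      exact ⟨t, m, by rw [e2]; simp [htt, ht], only t (mem_nb.1 m).1 g4⟩
    obtain ⟨t, m1, m2, m3⟩ := out x hx hyx Γ hΓ hh.1
    obtain ⟨t', m1', m2', m3'⟩ := out x' hx' hyx' Γ' hΓ' hh.2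
    have ets : t = s := m3.resolve_right fun e => by
      rw [e, eS, Finset.mem_insert] at m1
      exact m1.elim hss.symm hs'
    have ets' : t' = s' := m3'.resolve_left fun e => by
      rw [e, eS', Finset.mem_insert] at m1'
      exact m1'.elim hss hs
    have sub : nb Θ l ⊆ Δ := fun u hu => by
      have := TR_nb h hΘ hl.1 hl.2.1 (hT y hy) hu
      rw [eN, Finset.mem_insert, Finset.mem_insert] at this
      rcases this with e | e | e
      · exact absurd (ets ▸ e ▸ hu) m2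
      · exact absurd (ets' ▸ e ▸ hu) m2'
      · exact e
    have e1 := Finset.card_le_card sub
    have e2 := TR_four hΘ.1 hΘ0
    omega
  refine ⟨?_, key⟩
  obtain ⟨x, hx⟩ : T.Nonempty := Finset.card_pos.1 (by rw [h.t1.card]; omega)
  obtain ⟨x', hx', hne⟩ := TR_other h x
  obtain ⟨Γ, hΓ⟩ := TR_gam h hx
  obtain ⟨Γ', hΓ'⟩ := TR_gam h hx'
  exact (key x hx x' hx' hne Γ Γ' hΓ hΓ').elim (TR_grad0 h hx hΓ) (TR_grad0 h hx' hΓ')

end Pool.Agent.Dress
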