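import Pool.Agent.Lib.MP_d237f6_co.DR.Gam

/-! A rod turning relative to a triangle has rank at most one when two spare vertices exist. -/

set_option autoImplicit false

namespace Pool.Agent.Dress

open Matrix Module Classical

variable {K : Type} [Field K] [CharZero K] {V : Type} [DecidableEq V] [Fintype V]

omit [CharZero K] [Fintype V] in
/-- the ratio is constant with respect to an isolated vertex -/
theorem PPL_const (g : Gen V K) {F : V → V → Prop} {w a c x : V} {ρ : K} (hw : Isol F w)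
    (ha : a ≠ w) (hc : c ≠ w) (hx : x ≠ w)
    (rel : ∀ U ∈ g.flex F, dl g.p U a x + ρ * dl g.p U c x = 0) {U : V → Vec K}
    (hU : U ∈ g.flex F) (h0 : dl g.p U c x ≠ 0) (k : Fin 4) : g.d w k ρ = 0 := by
  have m1 := g.update_mem hw hU (zero_dotProduct (g.p w))
  have m2 := g.dU_mem hw m1 (by simp) k
  have e1 := congrArg (g.d w k) (rel _ m1)
  rw [map_add, d_mul, g.d_dl w k _ ha hx, g.d_dl w k _ hc hx, map_zero,
    g.dl_update U w 0 hc hx] at e1
  have e2 := rel _ m2
  refine (mul_eq_zero.1 ?_).resolve_right h0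
  linear_combination e1 - e2

omit [CharZero K] in
/-- one test functional forces the determinant to vanish -/
theorem PPL_key (g : Gen V K) (h : g.StTV) (ih : g.IH) {F : V → V → Prop} {w z : V}
    {S : Finset V} {γ : V → K} (hwz : w ≠ z) (hw : Isol F w) (hz : Isol F z) (hS : S.card = 5)
    (hwS : w ∉ S) (hzS : z ∉ S) (hγ : g.Dep γ) (hs : ∀ u, u ∉ insert w S → γ u = 0)
    (hn : ∀ u ∈ S, γ u ≠ 0) (hr : ∀ U ∈ g.flex F, ∑ u, γ u * (U u ⬝ᵥ g.p w) = 0)
    {c x x' : V} (hc : c ∈ S) (hx : x ∈ S) (hx' : x' ∈ S) {U₁ U₂ : V → Vec K}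
    (h1 : U₁ ∈ g.flex F) (h2 : U₂ ∈ g.flex F) :
    dl g.p U₁ c x * dl g.p U₂ c x' = dl g.p U₁ c x' * dl g.p U₂ c x := by
  obtain ⟨χ, hχ⟩ := h ih F w z S γ hwz hw hz hwS hzS (Finset.card_pos.1 (by omega)) (by omega)
    hγ hs hn hr (Or.inl hS.le)
  let i₀ : Fin (S.card - 4) := ⟨0, by omega⟩
  have hi : ∀ i : Fin (S.card - 4), i = i₀ := fun i => Fin.ext (by
    have := i.2
    show i.1 = 0
    omega)
  by_cases e : χ U₁ i₀ = 0
  · have z1 := hχ U₁ h1 (funext fun i => by rw [hi i]; exact e)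
    rw [z1 c hc x hx, z1 c hc x' hx', zero_mul, zero_mul]
  · have z1 := hχ (χ U₂ i₀ • U₁ - χ U₁ i₀ • U₂)
      (Submodule.sub_mem _ (Submodule.smul_mem _ _ h1) (Submodule.smul_mem _ _ h2))
      (funext fun i => by
        rw [hi i]
        simp only [map_sub, map_smul, Pi.sub_apply, Pi.smul_apply, smul_eq_mul, Pi.zero_apply]
        ring)
    have a1 := z1 c hc x hx
    have a2 := z1 c hc x' hx'
    rw [dl_sub, dl_smul, dl_smul] at a1 a2
    refine mul_left_cancel₀ e ?_
    linear_combination dl g.p U₁ c x' * a1 - dl g.p U₁ c x * a2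

theorem PPL_thm (g : Gen V K) (h : g.StTV) : g.StPPL := by
  intro ih F w z a c T ρ hwz hw hz hT hac haT hcT hwS hzS lac lT hρ rel
  by_cases hdet : ∀ U₁ ∈ g.flex F, ∀ U₂ ∈ g.flex F, ∀ x ∈ T, ∀ x' ∈ T,
      dl g.p U₁ c x * dl g.p U₂ c x' = dl g.p U₁ c x' * dl g.p U₂ c x
  · by_cases h0 : ∃ U₀ ∈ g.flex F, ∃ x₀ ∈ T, dl g.p U₀ c x₀ ≠ 0
    · obtain ⟨U₀, m0, x₀, hx₀, h0⟩ := h0
      refine ⟨fun x => dl g.p U₀ c x, fun U hU => ⟨dl g.p U c x₀ / dl g.p U₀ c x₀, fun x hx => ?_⟩⟩
      have := hdet U hU U₀ m0 x hx x₀ hx₀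
      field_simp
      linear_combination this
    · push Not at h0
      exact ⟨0, fun U hU => ⟨0, fun x hx => by rw [h0 U hU x hx, zero_mul]⟩⟩
  exfalso
  push Not at hdet
  obtain ⟨U₁, m1, U₂, m2, x, hx, x', hx', hdet⟩ := hdet
  have haS : a ∉ insert c T := by simp [hac, haT]
  have hS : (insert a (insert c T)).card = 5 := by
    rw [Finset.card_insert_of_notMem haS, Finset.card_insert_of_notMem hcT, hT]
  have hwa : a ≠ w := fun e => hwS (by simp [e])
  have hwc : c ≠ w := fun e => hwS (by simp [e])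
  have hwT : w ∉ T := fun e => hwS (by simp [e])
  have hwS' : w ∉ insert c T := fun e => hwS (Finset.mem_insert_of_mem e)
  suffices H : ∃ γ : V → K, g.Dep γ ∧ (∀ u, u ∉ insert w (insert a (insert c T)) → γ u = 0) ∧
      (∀ u ∈ insert a (insert c T), γ u ≠ 0) ∧
      ∀ U ∈ g.flex F, ∑ u, γ u * (U u ⬝ᵥ g.p w) = 0 by
    obtain ⟨γ, b1, b2, b3, b4⟩ := H
    exact hdet (PPL_key g h ih hwz hw hz hS hwS hzS b1 b2 b3 b4 (by simp) (by simp [hx])
      (by simp [hx']) m1 m2)
  obtain ⟨ζ, z1, z2, z3⟩ := g.dep5 _ hS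
  have za := z3 a (by simp)
  obtain ⟨α, a1, a2, a3, a4⟩ : ∃ α : V → K, g.Dep α ∧ (∀ u, u ∉ insert a (insert c T) → α u = 0) ∧
      (∀ u ∈ insert a (insert c T), α u ≠ 0) ∧ α a = 1 :=
    ⟨(ζ a)⁻¹ • ζ, g.dep_smul z1 _, fun u hu => by simp [z2 u hu],
      fun u hu => by simp [za, z3 u hu], by simp [za]⟩
  have nT : ∀ y ∈ T, a ≠ y ∧ c ≠ y ∧ y ≠ w := fun y hy =>
    ⟨fun e => haT (e ▸ hy), fun e => hcT (e ▸ hy), fun e => hwT (e ▸ hy)⟩
  by_cases hcase : α c = ρ
  · refine ⟨α, a1, fun u hu => a2 u fun e => hu (Finset.mem_insert_of_mem e), a3, fun U hU => ?_⟩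
    obtain ⟨u₁, u₂, u₃, h12, h13, h23, rfl⟩ := Finset.card_eq_three.1 hT
    have := g.ppd5 hac (nT x hx).1 (nT x hx).2.1 (nT x' hx').1 (nT x' hx').2.1 hρ
      (fun U hU => rel U hU x hx) (fun U hU => rel U hU x' hx') m1 m2 hdet a1 a4 hcase
      (nT u₁ (by simp)).2.1 (nT u₂ (by simp)).2.1 (nT u₃ (by simp)).2.1 h12 h13 h23 a2 U hU
    have e := congrArg (fun m => m ⬝ᵥ g.p w) this
    simpa [sum_dotProduct] using e
  · have hδ : ρ - α c ≠ 0 := fun e => hcase (sub_eq_zero.1 e).symm
    have cρ : ∀ k, g.d w k ρ = 0 := fun k => by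
      by_cases e : dl g.p U₁ c x = 0
      · refine PPL_const g hw hwa hwc (nT x' hx').2.2 (fun U hU => rel U hU x' hx') m1
          (fun e' => hdet ?_) k
        rw [e, e', zero_mul, zero_mul]
      · exact PPL_const g hw hwa hwc (nT x hx).2.2 (fun U hU => rel U hU x hx) m1 e k
    obtain ⟨η, y1, y2, y3⟩ := g.dep5 (insert w (insert c T)) (by
      rw [Finset.card_insert_of_notMem hwS', Finset.card_insert_of_notMem hcT, hT])
    have ηa : η a = 0 := y2 a (by simp [hwa, hac, haT])
    have αw : α w = 0 := a2 w hwS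
    have hβ : η c / (ρ - α c) ≠ 0 := div_ne_zero (y3 c (by simp)) hδ
    obtain ⟨γ, β, c1, c2, c3, c4, c5, c6⟩ : ∃ (γ : V → K) (β : K), g.Dep γ ∧
        (∀ u, u ∉ insert w (insert a (insert c T)) → γ u = 0) ∧ β ≠ 0 ∧ γ a = β ∧
        γ c = ρ * β ∧ γ w ≠ 0 := by
      refine ⟨η + (η c / (ρ - α c)) • α, η c / (ρ - α c), g.dep_add y1 (g.dep_smul a1 _),
        fun u hu => ?_, hβ, by simp [ηa, a4], ?_, by simpa [αw] using y3 w (by simp)⟩
      · simp only [Finset.mem_insert, not_or] at hu
        simp [y2 u (by simp [hu]), a2 u (by simp [hu])]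
      · simp only [Pi.add_apply, Pi.smul_apply, smul_eq_mul]
        field_simp
        ring
    refine ⟨γ, c1, c2, fun u hu => ?_, fun U hU => ?_⟩
    · rcases Finset.mem_insert.1 hu with rfl | hu
      · rw [c4]; exact c3
      rcases Finset.mem_insert.1 hu with rfl | hu
      · rw [c5]; exact mul_ne_zero hρ c3
      intro hu0
      obtain ⟨v₁, v₂, h12, hv⟩ := Finset.card_eq_two.1
        (by rw [Finset.card_erase_of_mem hu, hT] : (T.erase u).card = 2)
      have k1 : v₁ ∈ T := Finset.mem_of_mem_erase (a := u) (by rw [hv]; simp)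
      have k2 : v₂ ∈ T := Finset.mem_of_mem_erase (a := u) (by rw [hv]; simp)
      obtain ⟨f, f0, f1, f2, f3⟩ := exists_normal (g.p a + ρ • g.p c) (g.p v₁) (g.p v₂)
      refine f0 (g.constn w ?_ (fun k => ?_) (fun k => g.d_ne (nT v₁ k1).2.2 k)
        (fun k => g.d_ne (nT v₂ k2).2.2 k) f1 f2 f3 ?_)
      · rw [Fintype.linearIndependent_iff]
        intro s hs
        have := g.rel4 hac (nT v₁ k1).1 (nT v₂ k2).1 (nT v₁ k1).2.1 (nT v₂ k2).2.1 h12
          (s := s 0) (t := s 0 * ρ) (r := s 1) (q := s 2) (by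
            rw [← hs]
            simp [Fin.sum_univ_three, smul_smul])
        intro i
        fin_cases i
        · exact this.1
        · exact this.2.2.1
        · exact this.2.2.2
      · ext i
        have b1 := congrFun (g.d_ne hwa k) i
        have b2 := congrFun (g.d_ne hwc k) i
        simp only [dv, Pi.zero_apply] at b1 b2
        simp only [dv, Pi.add_apply, Pi.smul_apply, smul_eq_mul, map_add, d_mul, b1, b2, cρ k,
          Pi.zero_apply]
        ring
      · have e := g.dep_dot c1 f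
        rw [← Finset.sum_subset (Finset.subset_univ {w, a, c}),
          Finset.sum_insert (by simp [hwa.symm, hwc.symm]), Finset.sum_pair hac, c4, c5] at e
        · rw [dotProduct_add, dotProduct_smul, smul_eq_mul] at f1
          refine (mul_eq_zero.1 ?_).resolve_left c6
          linear_combination e - β * f1
        · intro y _ hy
          simp only [Finset.mem_insert, Finset.mem_singleton, not_or] at hy
          by_cases hyT : y ∈ T
          · by_cases e' : y = u
            · rw [e', hu0, zero_mul]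
            · have : y ∈ ({v₁, v₂} : Finset V) := hv ▸ Finset.mem_erase.2 ⟨e', hyT⟩
              simp only [Finset.mem_insert, Finset.mem_singleton] at this
              rcases this with rfl | rfl
              · rw [f2, mul_zero]
              · rw [f3, mul_zero]
          · rw [c2 y (by simp [hy, hyT]), zero_mul]
    · obtain ⟨L, hL, hLT⟩ := g.rigX T U (fun x hx y hy => lT x hx y hy U hU)
      set V₀ : Vec K := U a - L *ᵥ g.p a + ρ • (U c - L *ᵥ g.p c) with hV
      have v1 : ∀ y ∈ T, V₀ ⬝ᵥ g.p y = 0 := fun y hy => by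
        have e := rel U hU y hy
        simp only [dl, hLT y hy] at e
        rw [hV, add_dotProduct, smul_dotProduct, sub_dotProduct, sub_dotProduct, smul_eq_mul,
          skew_dot hL (g.p a), skew_dot hL (g.p c)]
        linear_combination e
      have v2 : V₀ ⬝ᵥ g.p a + ρ * (V₀ ⬝ᵥ g.p c) = 0 := by
        have e := lac U hU
        simp only [dl] at e
        simp only [hV, add_dotProduct, smul_dotProduct, sub_dotProduct, smul_eq_mul,
          skew_self hL, hU.1 a, hU.1 c, skew_dot hL (g.p a) (g.p c)]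
        linear_combination ρ * e
      have v3 : V₀ ⬝ᵥ g.p c = 0 := by
        have e := g.dep_dot a1 V₀
        rw [Fintype.sum_eq_add a c hac, a4] at e
        · refine (mul_eq_zero.1 ?_).resolve_left hδ
          linear_combination v2 - e
        · intro y hy
          by_cases hyT : y ∈ T
          · rw [v1 y hyT, mul_zero]
          · rw [a2 y (by simp [hy, hyT]), zero_mul]
      have v4 : V₀ = 0 := g.cov_zero (insert c T)
        (by rw [Finset.card_insert_of_notMem hcT, hT]) V₀
        (fun b hb => (Finset.mem_insert.1 hb).elim (fun e => e ▸ v3) (v1 b))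
      have e1 : ∑ u, γ u * ((L *ᵥ g.p u) ⬝ᵥ g.p w) = 0 := by
        have := congrArg (fun m => m ⬝ᵥ g.p w) (g.dep_mulVec c1 L)
        simpa [sum_dotProduct] using this
      have e2 : ∑ u, γ u * ((U u - L *ᵥ g.p u) ⬝ᵥ g.p w) = 0 := by
        rw [Fintype.sum_eq_add a c hac, c4, c5]
        · have := congrArg (fun m => m ⬝ᵥ g.p w) v4
          simp only [hV, add_dotProduct, smul_dotProduct, smul_eq_mul, zero_dotProduct] at this
          linear_combination β * this
        · intro y hy
          by_cases hyT : y ∈ T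
          · rw [hLT y hyT, sub_self, zero_dotProduct, mul_zero]
          by_cases hyw : y = w
          · rw [hyw, sub_dotProduct, hU.1 w, skew_self hL, sub_self, mul_zero]
          · rw [c2 y (by simp [hy, hyT, hyw]), zero_mul]
      simp only [sub_dotProduct, mul_sub, Finset.sum_sub_distrib] at e2
      linear_combination e2 + e1

end Pool.Agent.Dress
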