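import Pool.Agent.Lib.MP_d237f6_co.DR.Gam

/-! Two classes at a vertex of degree seven, first step. -/

set_option autoImplicit false

namespace Pool.Agent.Dress

open Matrix Module Classical

variable {K : Type} [Field K] [CharZero K] {V : Type} [DecidableEq V] [Fintype V]
  {Λ : Type} [AddCommGroup Λ] [Module K Λ] [FiniteDimensional K Λ]

omit [CharZero K] [FiniteDimensional K Λ] in
theorem Ph1_mono {U U' W W' : Submodule K Λ} (h : U ≤ U') (h' : W ≤ W') : qp U W ≤ qp U' W' :=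
  Submodule.span_mono fun _ ⟨x, hx, y, hy, e⟩ => ⟨x, h hx, y, h' hy, e⟩

omit [CharZero K] [FiniteDimensional K Λ] in
theorem Ph1_comm (U W : Submodule K Λ) : qp U W ≤ qp W U :=
  Submodule.span_mono fun _ ⟨x, hx, y, hy, e⟩ =>
    ⟨y, hy, x, hx, e.trans (funext fun _ => mul_comm _ _)⟩

omit [CharZero K] [Fintype V] [FiniteDimensional K Λ] in
theorem Ph1_mem {g : Gen V K} (q : QS g Λ) {A : Finset V} {a : V} (ha : a ∈ A) :
    q.ev a ∈ q.sp A :=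
  Submodule.subset_span ⟨a, ha, rfl⟩

omit [CharZero K] [Fintype V] [FiniteDimensional K Λ] in
theorem Ph1_qs {g : Gen V K} (q : QS g Λ) {A : Finset V} {U W : Submodule K Λ}
    (h : q.sp A ≤ U) (h' : q.sp A ≤ W) : qs q.ev A ≤ qp U W :=
  Submodule.span_mono fun _ ⟨a, ha, e⟩ => ⟨_, h (Ph1_mem q ha), _, h' (Ph1_mem q ha), e⟩

omit [Fintype V] [FiniteDimensional K Λ] in
theorem Ph1_dim {g : Gen V K} (q : QS g Λ) (T : Finset V) (hT : T.card ≤ 4) :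
    finrank K (q.sp T) = T.card := by
  have h1 : LinearIndependent K fun b : T => q.ev b :=
    LinearIndependent.of_comp q.pr (by simpa [Function.comp_def, q.hpr] using g.linInd T hT)
  have h2 : q.ev '' T = Set.range fun b : T => q.ev b := by
    ext x
    simp
  rw [QS.sp, h2, finrank_span_eq_card h1, Fintype.card_coe]

omit [Fintype V] in
theorem Ph1_nmem {g : Gen V K} (q : QS g Λ) {N : Finset V} {v : V} (hv : v ∉ N)
    (hN : N.card ≤ 3) : q.ev v ∉ q.sp N := fun h => by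
  have h1 : q.sp (insert v N) ≤ q.sp N := by
    refine Submodule.span_le.2 ?_
    rintro _ ⟨a, ha, rfl⟩
    rcases Finset.mem_insert.1 ha with rfl | ha
    · exact h
    · exact Ph1_mem q ha
  have h2 := Submodule.finrank_mono h1
  have h3 := Finset.card_insert_of_notMem hv
  rw [Ph1_dim q _ (by omega), Ph1_dim q _ (by omega)] at h2
  omega

/-- The basic count. -/
theorem Ph1_count {g : Gen V K} (q : QS g Λ) (hQ : StQ K Λ) (hB : q.StQB) {v : V}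
    {N A₁ A₂ : Finset V} {E W₁ W₂ : Submodule K Λ} (h : q.Phi v N A₁ A₂ E W₁ W₂) :
    9 + finrank K ↥(E ⊔ q.sp A₁) + finrank K ↥(q.sp N ⊔ q.sp A₁) ≤
      finrank K ↥(q.R ⊓ qp (E ⊔ q.sp A₁) (E ⊔ q.sp A₁)) := by
  set Y := q.sp A₁ with hY
  have hv : K ∙ q.ev v ≤ Y := (Submodule.span_singleton_le_iff_mem _ _).2 (Ph1_mem q h.v1)
  have hv0 : q.ev v ≠ 0 := fun e => Ph1_nmem q h.vN h.cardN (e ▸ Submodule.zero_mem _)
  have hfin := hQ.fin (E ⊔ Y) (E ⊔ Y)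
  have hS : qp W₁ Y ⊔ qs q.ev A₁ ⊔ qp (K ∙ q.ev v) E ≤ q.R ⊓ qp (E ⊔ Y) (E ⊔ Y) :=
    sup_le (sup_le (le_inf h.c1.wy (Ph1_mono (h.W1E.trans le_sup_left) le_sup_right))
      (le_inf h.c1.sq (Ph1_qs q le_sup_right le_sup_right)))
      (le_inf h.vR (Ph1_mono (hv.trans le_sup_right) le_sup_left))
  have f1 : FiniteDimensional K ↥(q.R ⊓ qp (E ⊔ Y) (E ⊔ Y)) :=
    Submodule.finiteDimensional_of_le inf_le_right
  have f2 : FiniteDimensional K ↥(qp W₁ Y ⊔ qs q.ev A₁ ⊔ qp (K ∙ q.ev v) E) :=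
    Submodule.finiteDimensional_of_le hS
  have l1 := finrank_layer _ _ (qs q.ev N) (res Y Y) hS
    (le_inf h.NR (Ph1_qs q (h.NE.trans le_sup_left) (h.NE.trans le_sup_left)))
    ((sup_le (sup_le ((Ph1_comm _ _).trans (Ph1_mono le_rfl le_top)) (Ph1_qs q le_rfl le_top))
      (Ph1_mono hv le_top)).trans (hQ.ker2 Y Y le_rfl))
  have l2 := finrank_layer (qp W₁ Y ⊔ qs q.ev A₁ ⊔ qp (K ∙ q.ev v) E) _ _ (res (W₁ ⊔ Y) ⊥)
    le_sup_left le_sup_right
    ((sup_le (Ph1_mono le_sup_left le_sup_right) (Ph1_qs q le_sup_right le_sup_right)).trans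
      (hQ.ker1 (W₁ ⊔ Y) ⊥))
  have hF : finrank K ↥(W₁ ⊔ Y) ≤ finrank K ↥(E ⊔ Y) :=
    Submodule.finrank_mono (sup_le_sup_right h.W1E Y)
  have r1 := hQ.ra (W₁ ⊔ Y) ⊥ (K ∙ q.ev v) E 1 (finrank K ↥(E ⊔ Y) - finrank K ↥(W₁ ⊔ Y)) bot_le
    (hv.trans le_sup_right) (by rw [sup_bot_eq, finrank_bot, finrank_span_singleton hv0])
    (by rw [← sup_assoc, sup_eq_left.2 h.W1E]; omega)
  have r2 : finrank K ↥(q.sp N ⊔ Y) ≤ _ := hQ.rd Y V q.ev N
  have r3 := hB.base A₁ W₁ h.c1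
  have r4 := Submodule.finrank_sup_add_finrank_inf_eq W₁ Y
  have r5 := h.c1.dimW
  have r6 := h.c1.dimY
  rw [← hY] at r3 r6
  omega

theorem Ph1_thm (g : Gen V K) (q : QS g Λ) (hQ : StQ K Λ) (hB : q.StQB) : q.StPh1 := by
  intro v N A₁ A₂ E W₁ W₂ h
  have h1 := Ph1_count q hQ hB h
  have h2 : finrank K ↥(q.sp N ⊓ q.sp A₁) < finrank K ↥(E ⊓ q.sp A₁) :=
    Submodule.finrank_lt_finrank_of_lt (lt_of_le_of_ne (inf_le_inf_right _ h.NE) fun e =>
      Ph1_nmem q h.vN h.cardN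
        (e ▸ (⟨h.vE, Ph1_mem q h.v1⟩ : q.ev v ∈ E ⊓ q.sp A₁) : q.ev v ∈ q.sp N ⊓ q.sp A₁).1)
  have h3 := Submodule.finrank_sup_add_finrank_inf_eq (q.sp N) (q.sp A₁)
  have h4 := Submodule.finrank_sup_add_finrank_inf_eq E (q.sp A₁)
  have h5 := h.cardN
  have h6 := Ph1_dim q N (by omega)
  have h7 := h.c1.dimY
  have h8 := h.dimE
  have h9 := h.bd (E ⊔ q.sp A₁) le_sup_left
  unfold QS.Bd at h9
  omega

end Pool.Agent.Dress
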