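import Pool.Agent.Lib.MP_d237f6_co.DR.Gam

/-! Two classes at a vertex of degree seven: the second step. -/

set_option autoImplicit false

namespace Pool.Agent.Dress

open Matrix Module Classical

variable {K : Type} [Field K] [CharZero K] {V : Type} [DecidableEq V] [Fintype V]
  {Λ : Type} [AddCommGroup Λ] [Module K Λ] [FiniteDimensional K Λ]

omit [CharZero K] [FiniteDimensional K Λ] in
theorem Ph2_qm_mem {U W : Submodule K Λ} {x y : Λ} (hx : x ∈ U) (hy : y ∈ W) :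
    qm x y ∈ qp U W := Submodule.subset_span ⟨x, hx, y, hy, rfl⟩

omit [CharZero K] [FiniteDimensional K Λ] in
theorem Ph2_qp_le {U W : Submodule K Λ} {S : Submodule K (Dual K Λ → K)}
    (h : ∀ x ∈ U, ∀ y ∈ W, qm x y ∈ S) : qp U W ≤ S := by
  refine Submodule.span_le.2 ?_
  rintro _ ⟨x, hx, y, hy, rfl⟩
  exact h x hx y hy

omit [CharZero K] [FiniteDimensional K Λ] in
theorem Ph2_qp_mono {U U' W W' : Submodule K Λ} (h : U ≤ U') (h' : W ≤ W') :
    qp U W ≤ qp U' W' := Ph2_qp_le fun _ hx _ hy => Ph2_qm_mem (h hx) (h' hy)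

omit [CharZero K] [FiniteDimensional K Λ] in
/-- three layers -/
theorem Ph2_layers (hQ : StQ K Λ) (R : Submodule K (Dual K Λ → K)) (U₁ U₂ : Submodule K Λ)
    (h12 : U₁ ≤ U₂) (M T : Submodule K (Dual K Λ → K)) (hM : M ≤ R ⊓ qp U₂ U₂)
    (hM' : M ≤ qp U₁ ⊤) (hT : T ≤ R ⊓ qp U₂ U₂) :
    finrank K ↥(R ⊓ qp U₁ U₁) + finrank K (M.map (res U₁ ⊥)) + finrank K (T.map (res U₁ U₁))
      ≤ finrank K ↥(R ⊓ qp U₂ U₂) := by
  have := hQ.fin U₂ U₂
  have : FiniteDimensional K ↥(R ⊓ qp U₂ U₂) := Submodule.finiteDimensional_of_le inf_le_right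
  have h0 : R ⊓ qp U₁ U₁ ≤ R ⊓ qp U₂ U₂ := inf_le_inf_left _ (Ph2_qp_mono h12 h12)
  have h1 : R ⊓ qp U₁ U₁ ⊔ M ≤ R ⊓ qp U₂ U₂ := sup_le h0 hM
  have : FiniteDimensional K ↥(R ⊓ qp U₁ U₁ ⊔ M) := Submodule.finiteDimensional_of_le h1
  have a1 := finrank_layer (R ⊓ qp U₁ U₁ ⊔ M) (R ⊓ qp U₁ U₁) M (res U₁ ⊥) le_sup_left
    le_sup_right (inf_le_right.trans (hQ.ker1 U₁ ⊥))
  have a2 := finrank_layer (R ⊓ qp U₂ U₂) (R ⊓ qp U₁ U₁ ⊔ M) T (res U₁ U₁) h1 hT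
    ((sup_le (inf_le_right.trans (Ph2_qp_mono le_rfl le_top)) hM').trans (hQ.ker2 U₁ U₁ le_rfl))
  omega

omit [CharZero K] in
theorem Ph2_li_le {n : ℕ} (x : Fin n → Λ) (hx : LinearIndependent K x) (S : Submodule K Λ)
    (h : ∀ i, x i ∈ S) : n ≤ finrank K S := by
  have := (LinearIndependent.of_comp S.subtype
    (v := fun i => (⟨x i, h i⟩ : S)) hx).fintype_card_le_finrank
  simpa using this

omit [CharZero K] in
theorem Ph2_sup_lt {S : Submodule K Λ} {x : Λ} (hx : x ∉ S) :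
    finrank K S + 1 ≤ finrank K ↥(S ⊔ K ∙ x) := by
  refine Submodule.finrank_lt_finrank_of_lt (lt_of_le_of_ne le_sup_left fun e => hx ?_)
  rw [e]
  exact Submodule.mem_sup_right (Submodule.mem_span_singleton_self x)

variable {g : Gen V K}

omit [CharZero K] [FiniteDimensional K Λ] [Fintype V] in
theorem Ph2_ev_mem (q : QS g Λ) {A : Finset V} {a : V} (ha : a ∈ A) : q.ev a ∈ q.sp A :=
  Submodule.subset_span ⟨a, ha, rfl⟩

omit [CharZero K] [FiniteDimensional K Λ] [Fintype V] in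
theorem Ph2_sq_mem (q : QS g Λ) {A : Finset V} {W : Submodule K Λ} (h : q.Cls A W) {a : V}
    (ha : a ∈ A) : qm (q.ev a) (q.ev a) ∈ q.R := h.sq (Submodule.subset_span ⟨a, ha, rfl⟩)

omit [CharZero K] in
/-- four points of a class span -/
theorem Ph2_span4 (q : QS g Λ) {A : Finset V} (hA : finrank K (q.sp A) = 4) {a b c d : V}
    (ha : a ∈ A) (hb : b ∈ A) (hc : c ∈ A) (hd : d ∈ A) (hab : a ≠ b) (hac : a ≠ c) (had : a ≠ d)
    (hbc : b ≠ c) (hbd : b ≠ d) (hcd : c ≠ d) {y : Λ} (hy : y ∈ q.sp A) :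
    ∃ s t r u : K, y = s • q.ev a + t • q.ev b + r • q.ev c + u • q.ev d := by
  have li : LinearIndependent K ![q.ev a, q.ev b, q.ev c, q.ev d] := by
    refine LinearIndependent.of_comp q.pr ?_
    convert g.li4 hab hac had hbc hbd hcd using 1
    ext1 i
    fin_cases i <;> simp [q.hpr]
  have h1 : Submodule.span K (Set.range ![q.ev a, q.ev b, q.ev c, q.ev d]) ≤ q.sp A := by
    refine Submodule.span_le.2 ?_
    rintro _ ⟨i, rfl⟩
    fin_cases i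
    exacts [Ph2_ev_mem q ha, Ph2_ev_mem q hb, Ph2_ev_mem q hc, Ph2_ev_mem q hd]
  have h2 := Ph2_li_le _ li (Submodule.span K (Set.range ![q.ev a, q.ev b, q.ev c, q.ev d]))
    (fun i => Submodule.subset_span ⟨i, rfl⟩)
  have h3 := Submodule.eq_of_le_of_finrank_le h1 (by omega)
  rw [← h3] at hy
  obtain ⟨s, hs⟩ := (Submodule.mem_span_range_iff_exists_fun K).1 hy
  exact ⟨s 0, s 1, s 2, s 3, by simpa [Fin.sum_univ_four] using hs.symm⟩

omit [CharZero K] [FiniteDimensional K Λ] [Fintype V] in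
theorem Ph2_swap (q : QS g Λ) {v : V} {N A₁ A₂ : Finset V} {E W₁ W₂ : Submodule K Λ}
    (h : q.Phi v N A₁ A₂ E W₁ W₂) : q.Phi v N A₂ A₁ E W₂ W₁ :=
  ⟨h.c2, h.c1, h.v2, h.v1, h.vN, h.cardN, h.dimE, h.vE, h.NE, h.W2E, h.W1E, h.vR, h.NR, h.vW2,
    h.vW1, h.h2, h.h1, h.neW.symm, h.neA.symm, h.bd, fun U h1 h2 => h.bd2 U h2 h1⟩

/-- the difference of two points outside lies in the four dimensional space -/
theorem Ph2_eta (q : QS g Λ) (hQ : StQ K Λ) {A : Finset V} {W U : Submodule K Λ} (hc : q.Cls A W)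
    (hW : W ≤ U) (hd : finrank K ↥(U ⊔ q.sp A) ≤ finrank K U + 1)
    (hM : ∀ M : Submodule K (Dual K Λ → K), M ≤ q.R ⊓ qp (U ⊔ q.sp A) (U ⊔ q.sp A) →
      M ≤ qp U ⊤ → finrank K (M.map (res U ⊥)) ≤ 4)
    {a a' : V} (ha : a ∈ A) (ha' : a' ∈ A) (hU : q.ev a ∉ U) (hU' : q.ev a' ∉ U) :
    ∃ μ : K, q.ev a' - μ • q.ev a ∈ W := by
  have e1 : U ⊔ K ∙ q.ev a = U ⊔ q.sp A :=
    Submodule.eq_of_le_of_finrank_le (sup_le_sup_left
      ((Submodule.span_singleton_le_iff_mem _ _).2 (Ph2_ev_mem q ha)) _)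
      (hd.trans (Ph2_sup_lt hU))
  have e2 : q.ev a' ∈ U ⊔ K ∙ q.ev a := by
    rw [e1]; exact Submodule.mem_sup_right (Ph2_ev_mem q ha')
  obtain ⟨η, hη, z, hz, e3⟩ := Submodule.mem_sup.1 e2
  obtain ⟨μ, rfl⟩ := Submodule.mem_span_singleton.1 hz
  have hμ : μ ≠ 0 := by
    rintro rfl
    exact hU' (by rw [← e3]; simpa using hη)
  refine ⟨μ, ?_⟩
  rw [← e3, add_sub_cancel_right]
  by_contra hn
  set ψ : Dual K Λ → K := qm η (η + (2 * μ) • q.ev a) with hψ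
  have p1 : ψ = qm (q.ev a') (q.ev a') - (μ ^ 2) • qm (q.ev a) (q.ev a) := by
    rw [hψ, ← e3]
    ext f
    simp only [qm, map_add, map_smul, smul_eq_mul, Pi.sub_apply, Pi.smul_apply]
    ring
  have p2 : ψ ∈ q.R := by
    rw [p1]
    exact q.R.sub_mem (Ph2_sq_mem q hc ha') (q.R.smul_mem _ (Ph2_sq_mem q hc ha))
  have p3 : ψ ∈ qp (U ⊔ q.sp A) (U ⊔ q.sp A) :=
    Ph2_qm_mem (Submodule.mem_sup_left hη) (Submodule.add_mem_sup hη
      (Submodule.smul_mem _ _ (Ph2_ev_mem q ha)))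
  have p4 : ψ ∈ qp U ⊤ := Ph2_qm_mem hη trivial
  have b1 := hM (qp W (q.sp A) ⊔ K ∙ ψ)
    (sup_le (le_inf hc.wy (Ph2_qp_mono (hW.trans le_sup_left) le_sup_right))
      ((Submodule.span_singleton_le_iff_mem _ _).2 ⟨p2, p3⟩))
    (sup_le (Ph2_qp_mono hW le_top) ((Submodule.span_singleton_le_iff_mem _ _).2 p4))
  have b2 := hQ.ra U ⊥ (W ⊔ K ∙ η) (K ∙ q.ev a) 5 1 bot_le
    (sup_le hW ((Submodule.span_singleton_le_iff_mem _ _).2 hη))
    (by have := Ph2_sup_lt hn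
        rw [sup_bot_eq, finrank_bot]
        have := hc.dimW
        omega)
    (by have := Ph2_sup_lt hU
        rw [sup_comm]
        omega)
  have b3 : (qp (W ⊔ K ∙ η) (K ∙ q.ev a)).map (res U ⊥)
      ≤ (qp W (q.sp A) ⊔ K ∙ ψ).map (res U ⊥) := by
    rw [Submodule.map_le_iff_le_comap]
    refine Ph2_qp_le fun x hx y hy => ?_
    obtain ⟨w, hw, z, hz, rfl⟩ := Submodule.mem_sup.1 hx
    obtain ⟨c, rfl⟩ := Submodule.mem_span_singleton.1 hz
    obtain ⟨s, rfl⟩ := Submodule.mem_span_singleton.1 hy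
    refine ⟨qm w (s • q.ev a) + (c * s * (2 * μ)⁻¹) • ψ, Submodule.add_mem_sup
      (Ph2_qm_mem hw (Submodule.smul_mem _ _ (Ph2_ev_mem q ha)))
      (Submodule.smul_mem _ _ (Submodule.mem_span_singleton_self ψ)), ?_⟩
    have k0 : res U ⊥ (qm η η) = 0 := hQ.ker1 U ⊥ (Ph2_qm_mem hη hη)
    have k1 : qm w (s • q.ev a) + (c * s * (2 * μ)⁻¹) • ψ
        = qm (w + c • η) (s • q.ev a) + (c * s * (2 * μ)⁻¹) • qm η η := by
      rw [hψ]
      ext f
      simp only [qm, map_add, map_smul, smul_eq_mul, Pi.add_apply, Pi.smul_apply]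
      field_simp
      ring
    rw [k1, map_add, map_smul, k0, smul_zero, add_zero]
  have := hQ.fin W (q.sp A)
  have b4 := Submodule.finrank_mono b3
  omega

theorem Ph2_thm (g : Gen V K) (q : QS g Λ) (hQ : StQ K Λ) (hB : q.StQB) (h1 : q.StPh1) :
    q.StPh2 := by
  intro v N A₁ A₂ E W₁ W₂ h h2 hn
  have s1 := (h1 v N A₁ A₂ E W₁ W₂ h).2 h2
  have s2 := (h1 v N A₂ A₁ E W₂ W₁ (Ph2_swap q h)).1
  set U := E ⊔ q.sp A₁ with hU
  have hEU : E ≤ U := le_sup_left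
  have hWU : W₂ ≤ U := h.W2E.trans hEU
  have s3 : finrank K ↥(q.R ⊓ qp (U ⊔ q.sp A₂) (U ⊔ q.sp A₂)) + (14 - N.card)
      ≤ 4 * finrank K ↥(U ⊔ q.sp A₂) := h.bd _ (hEU.trans le_sup_left)
  have s4 : finrank K U < finrank K ↥(U ⊔ q.sp A₂) :=
    Submodule.finrank_lt_finrank_of_lt (lt_of_le_of_ne le_sup_left
      fun e => hn (by rw [e]; exact le_sup_right))
  have s5 : finrank K ↥(U ⊔ q.sp A₂) ≤ finrank K ((qs q.ev A₂).map (res U U)) + finrank K U := by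
    have := hQ.rd U V q.ev A₂
    rwa [sup_comm] at this
  have hT : qs q.ev A₂ ≤ q.R ⊓ qp (U ⊔ q.sp A₂) (U ⊔ q.sp A₂) := by
    refine le_inf h.c2.sq (Submodule.span_le.2 ?_)
    rintro _ ⟨i, hi, rfl⟩
    exact Ph2_qm_mem (Submodule.mem_sup_right (Ph2_ev_mem q hi))
      (Submodule.mem_sup_right (Ph2_ev_mem q hi))
  have hN := h.cardN
  have s6 : finrank K ↥(U ⊔ q.sp A₂) ≤ finrank K U + 1 := by
    have a1 := Ph2_layers hQ q.R U (U ⊔ q.sp A₂) le_sup_left (qp W₂ (q.sp A₂)) _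
      (le_inf h.c2.wy (Ph2_qp_mono (hWU.trans le_sup_left) le_sup_right))
      (Ph2_qp_mono hWU le_top) hT
    have a2 := hQ.ra U ⊥ W₂ (q.sp A₂) 4 (finrank K ↥(U ⊔ q.sp A₂) - finrank K U) bot_le hWU
      (by rw [sup_bot_eq, finrank_bot, h.c2.dimW])
      (by rw [sup_comm (q.sp A₂)]; omega)
    omega
  have s7 : ∀ M : Submodule K (Dual K Λ → K), M ≤ q.R ⊓ qp (U ⊔ q.sp A₂) (U ⊔ q.sp A₂) →
      M ≤ qp U ⊤ → finrank K (M.map (res U ⊥)) ≤ 4 := by
    intro M hM hM'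
    have a1 := Ph2_layers hQ q.R U (U ⊔ q.sp A₂) le_sup_left M _ hM hM' hT
    omega
  have eta := fun {a a' : V} => Ph2_eta q hQ h.c2 hWU s6 s7 (a := a) (a' := a')
  have c1 : (A₂.filter (fun a => q.ev a ∈ U)).card ≤ 3 := by
    by_contra hh
    obtain ⟨a, b, c, d, ha, hb, hc, hd, hab, hac, had, hbc, hbd, hcd⟩ :=
      Finset.three_lt_card_iff.1 (not_le.1 hh)
    rw [Finset.mem_filter] at ha hb hc hd
    refine hn fun y hy => ?_
    obtain ⟨s, t, r, u, rfl⟩ := Ph2_span4 q h.c2.dimY ha.1 hb.1 hc.1 hd.1 hab hac had hbc hbd hcd hy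
    exact U.add_mem (U.add_mem (U.add_mem (U.smul_mem _ ha.2) (U.smul_mem _ hb.2))
      (U.smul_mem _ hc.2)) (U.smul_mem _ hd.2)
  have c2 : (A₂.filter (fun a => ¬ q.ev a ∈ U)).card ≤ 2 := by
    by_contra hh
    obtain ⟨a, b, c, ha, hb, hc, hab, hac, hbc⟩ := Finset.two_lt_card_iff.1 (not_le.1 hh)
    rw [Finset.mem_filter] at ha hb hc
    obtain ⟨μ, hμ⟩ := eta ha.1 hb.1 ha.2 hb.2
    obtain ⟨ν, hν⟩ := eta ha.1 hc.1 ha.2 hc.2
    have li : LinearIndependent K ![q.ev b - μ • q.ev a, q.ev c - ν • q.ev a] := by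
      rw [LinearIndependent.pair_iff]
      intro s t hst
      have e := congrArg q.pr hst
      simp only [map_add, map_smul, map_sub, q.hpr, map_zero] at e
      have := Fintype.linearIndependent_iff.1 (g.li3 hab hac hbc) ![-(s * μ + t * ν), s, t] (by
        rw [← e]
        simp only [Fin.sum_univ_three, Matrix.cons_val_zero, Matrix.cons_val_one,
          Matrix.cons_val]
        module)
      exact ⟨this 1, this 2⟩
    have := Ph2_li_le _ li (W₂ ⊓ q.sp A₂) (fun i => by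
      fin_cases i
      · exact ⟨hμ, Submodule.sub_mem _ (Ph2_ev_mem q hb.1)
          (Submodule.smul_mem _ _ (Ph2_ev_mem q ha.1))⟩
      · exact ⟨hν, Submodule.sub_mem _ (Ph2_ev_mem q hc.1)
          (Submodule.smul_mem _ _ (Ph2_ev_mem q ha.1))⟩)
    have := h.c2.iota
    omega
  have c3 := Finset.card_filter_add_card_filter_not (s := A₂) (fun a => q.ev a ∈ U)
  have c4 := h.c2.card
  have hvI : v ∈ A₂.filter (fun a => q.ev a ∈ U) := Finset.mem_filter.2 ⟨h.v2, hEU h.vE⟩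
  obtain ⟨a, a', ha, ha', haa⟩ :=
    Finset.one_lt_card_iff.1 (show 1 < (A₂.filter (fun a => ¬ q.ev a ∈ U)).card by omega)
  obtain ⟨b, b', hb, hb', hbb⟩ := Finset.one_lt_card_iff.1
    (show 1 < ((A₂.filter (fun a => q.ev a ∈ U)).erase v).card by
      rw [Finset.card_erase_of_mem hvI]; omega)
  rw [Finset.mem_filter] at ha ha' hvI
  rw [Finset.mem_erase, Finset.mem_filter] at hb hb'
  obtain ⟨hbv, hbA, hbU⟩ := hb
  obtain ⟨hbv', hbA', hbU'⟩ := hb'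
  have n1 : ∀ {x y : V}, q.ev x ∈ U → q.ev y ∉ U → x ≠ y := fun hx hy e => hy (e ▸ hx)
  obtain ⟨μ, hμ⟩ := eta ha.1 ha'.1 ha.2 ha'.2
  obtain ⟨α, β, β', γ, e⟩ := Ph2_span4 q h.c2.dimY h.v2 hbA hbA' ha.1 hbv.symm hbv'.symm
    (n1 hvI.2 ha.2) hbb (n1 hbU ha.2) (n1 hbU' ha.2)
    (Submodule.sub_mem _ (Ph2_ev_mem q ha'.1) (Submodule.smul_mem _ μ (Ph2_ev_mem q ha.1)))
  have hγ : γ = 0 := by
    by_contra hγ
    refine ha.2 ((U.smul_mem_iff hγ).1 ?_)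
    have : γ • q.ev a = (q.ev a' - μ • q.ev a) - (α • q.ev v + β • q.ev b + β' • q.ev b') := by
      rw [e]; abel
    rw [this]
    exact U.sub_mem (hWU hμ) (U.add_mem (U.add_mem (U.smul_mem _ hvI.2) (U.smul_mem _ hbU))
      (U.smul_mem _ hbU'))
  rw [hγ, zero_smul, add_zero] at e
  have ep := congrArg q.pr e
  simp only [map_add, map_smul, map_sub, q.hpr] at ep
  have hα : α ≠ 0 := by
    rintro rfl
    have := (g.rel4 hbb (n1 hbU ha.2) (n1 hbU ha'.2) (n1 hbU' ha.2) (n1 hbU' ha'.2) haa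
      (s := β) (t := β') (r := μ) (q := -1) (by linear_combination (norm := module) -ep)).2.2.2
    simp at this
  have hβ : β ≠ 0 := by
    rintro rfl
    have := (g.rel4 hbv'.symm (n1 hvI.2 ha.2) (n1 hvI.2 ha'.2) (n1 hbU' ha.2) (n1 hbU' ha'.2) haa
      (s := α) (t := β') (r := μ) (q := -1) (by linear_combination (norm := module) -ep)).2.2.2
    simp at this
  have hβ' : β' ≠ 0 := by
    rintro rfl
    have := (g.rel4 hbv.symm (n1 hvI.2 ha.2) (n1 hvI.2 ha'.2) (n1 hbU ha.2) (n1 hbU ha'.2) haa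
      (s := α) (t := β) (r := μ) (q := -1) (by linear_combination (norm := module) -ep)).2.2.2
    simp at this
  rw [e] at hμ
  have key : ∀ {x y : V} {s t : K}, x ∈ A₂ → y ∈ A₂ → s ≠ 0 →
      α • q.ev v + s • q.ev x + t • q.ev y ∈ W₂ → q.ev x ∈ E := by
    intro x y s t hx hy hs hw
    refine h.h2 x hx ?_
    have e1 : qm (q.ev v) (q.ev x) = (2 * α * s)⁻¹ •
        (qm (α • q.ev v + s • q.ev x + t • q.ev y) (α • q.ev v + s • q.ev x - t • q.ev y)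
          - α ^ 2 • qm (q.ev v) (q.ev v) - s ^ 2 • qm (q.ev x) (q.ev x)
          + t ^ 2 • qm (K := K) (q.ev y) (q.ev y)) := by
      ext f
      simp only [qm, map_add, map_sub, map_smul, smul_eq_mul, Pi.add_apply, Pi.sub_apply,
        Pi.smul_apply]
      field_simp
      ring
    rw [e1]
    refine q.R.smul_mem _ (q.R.add_mem (q.R.sub_mem (q.R.sub_mem (h.c2.wy (Ph2_qm_mem hw ?_))
      (q.R.smul_mem _ (Ph2_sq_mem q h.c2 h.v2))) (q.R.smul_mem _ (Ph2_sq_mem q h.c2 hx)))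
      (q.R.smul_mem _ (Ph2_sq_mem q h.c2 hy)))
    exact Submodule.sub_mem _ (Submodule.add_mem _ (Submodule.smul_mem _ _ (Ph2_ev_mem q h.v2))
      (Submodule.smul_mem _ _ (Ph2_ev_mem q hx))) (Submodule.smul_mem _ _ (Ph2_ev_mem q hy))
  have k1 := key hbA hbA' hβ hμ
  have k2 := key hbA' hbA hβ' (by rw [add_right_comm]; exact hμ)
  have li : LinearIndependent K ![q.ev v, q.ev b, q.ev b'] := by
    refine LinearIndependent.of_comp q.pr ?_
    convert g.li3 hbv.symm hbv'.symm hbb using 1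
    ext1 i
    fin_cases i <;> simp [q.hpr]
  have := Ph2_li_le _ li (E ⊓ q.sp A₂) (fun i => by
    fin_cases i
    exacts [⟨h.vE, Ph2_ev_mem q h.v2⟩, ⟨k1, Ph2_ev_mem q hbA⟩, ⟨k2, Ph2_ev_mem q hbA'⟩])
  omega

end Pool.Agent.Dress
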