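import Pool.Agent.Lib.MP_d237f6_co.DR.Gam

/-! Two classes at a vertex of degree seven: the second class inside the span of the first. -/

set_option autoImplicit false

namespace Pool.Agent.Dress

open Matrix Module Classical

variable {K : Type} [Field K] [CharZero K] {V : Type} [DecidableEq V] [Fintype V]
  {Λ : Type} [AddCommGroup Λ] [Module K Λ] [FiniteDimensional K Λ]

section Aux

omit [CharZero K] [FiniteDimensional K Λ]

theorem Ph3_mem {U W : Submodule K Λ} {x y : Λ} (hx : x ∈ U) (hy : y ∈ W) : qm x y ∈ qp U W :=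
  Submodule.subset_span ⟨x, hx, y, hy, rfl⟩

theorem Ph3_le {U W : Submodule K Λ} {T : Submodule K (Dual K Λ → K)}
    (h : ∀ x ∈ U, ∀ y ∈ W, qm x y ∈ T) : qp U W ≤ T :=
  Submodule.span_le.2 (by rintro _ ⟨x, hx, y, hy, rfl⟩; exact h x hx y hy)

theorem Ph3_mono {U W U' W' : Submodule K Λ} (h : U ≤ U') (h' : W ≤ W') : qp U W ≤ qp U' W' :=
  Ph3_le fun _ hx _ hy => Ph3_mem (h hx) (h' hy)

theorem Ph3_swap {U W U' W' : Submodule K Λ} (h : U ≤ W') (h' : W ≤ U') : qp U W ≤ qp U' W' :=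
  Ph3_le fun x hx y hy => by
    rw [show qm (K := K) x y = qm y x from funext fun _ => mul_comm _ _]
    exact Ph3_mem (h' hy) (h hx)

theorem Ph3_layer {X Y : Type} [AddCommGroup X] [Module K X] [AddCommGroup Y] [Module K Y]
    {S T L : Submodule K X} [FiniteDimensional K S] (f : X →ₗ[K] Y) (h1 : T ≤ S) (h2 : L ≤ S)
    (hk : T ≤ LinearMap.ker f) : finrank K T + finrank K (L.map f) ≤ finrank K ↥(T ⊔ L) :=
  haveI := Submodule.finiteDimensional_of_le (sup_le h1 h2)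
  finrank_layer _ T L f le_sup_left le_sup_right hk

omit [Fintype V]

variable {g : Gen V K} (q : QS g Λ)

theorem Ph3_ev {A : Finset V} {v : V} (h : v ∈ A) : q.ev v ∈ q.sp A :=
  Submodule.subset_span ⟨v, h, rfl⟩

theorem Ph3_qs {A : Finset V} {U W : Submodule K Λ} (h : q.sp A ≤ U) (h' : q.sp A ≤ W) :
    qs q.ev A ≤ qp U W :=
  Submodule.span_le.2 (by
    rintro _ ⟨x, hx, rfl⟩
    exact Ph3_mem (h (Ph3_ev q hx)) (h' (Ph3_ev q hx)))

theorem Ph3_dim {T : Finset V} (hT : T.card ≤ 4) : finrank K (q.sp T) = T.card := by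
  have h : LinearIndependent K fun b : T => q.ev b :=
    LinearIndependent.of_comp q.pr (by simpa [Function.comp_def, q.hpr] using g.linInd T hT)
  rw [QS.sp, Set.image_eq_range, ← Fintype.card_coe]
  exact finrank_span_eq_card h

end Aux

omit [CharZero K] in
theorem Ph3_add {F : Submodule K Λ} {x : Λ} (h : x ∉ F) :
    1 + finrank K F ≤ finrank K ↥((K ∙ x) ⊔ F) := by
  have := Submodule.finrank_lt_finrank_of_lt (lt_of_le_of_ne (le_sup_right (a := K ∙ x) (b := F))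
    fun e => h (e ▸ Submodule.mem_sup_left (Submodule.mem_span_singleton_self x)))
  omega

omit [CharZero K] in
theorem Ph3_inf {X E Y : Submodule K Λ} {x : Λ} (h : X ≤ E) (hx : x ∉ X) (hE : x ∈ E) (hY : x ∈ Y)
    (h2 : finrank K ↥(E ⊓ Y) = 2) : finrank K X + finrank K Y ≤ finrank K ↥(X ⊔ Y) + 1 := by
  have h3 := Submodule.finrank_lt_finrank_of_lt (lt_of_le_of_ne (inf_le_inf_right Y h)
    fun e => hx (Submodule.mem_inf.1 (e ▸ Submodule.mem_inf.2 ⟨hE, hY⟩)).1)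
  have := Submodule.finrank_sup_add_finrank_inf_eq X Y
  omega

omit [CharZero K] [Fintype V] in
theorem Ph3_last {g : Gen V K} (q : QS g Λ) (hQ : StQ K Λ) (hB : q.StQB) {A : Finset V}
    {W₁ W₂ : Submodule K Λ} (c1 : q.Cls A W₁) (d2 : finrank K W₂ = 4)
    (wy : qp W₂ (q.sp A) ≤ q.R) (ne : W₁ ≠ W₂) (h : W₂ ≤ W₁ ⊔ q.sp A)
    (bd : q.Bd (W₁ ⊔ q.sp A) 9) : False := by
  have := hQ.fin (W₁ ⊔ q.sp A) (W₁ ⊔ q.sp A)
  have : FiniteDimensional K ↥(q.R ⊓ qp (W₁ ⊔ q.sp A) (W₁ ⊔ q.sp A)) :=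
    Submodule.finiteDimensional_of_le inf_le_right
  have dY := c1.dimY
  have dW := c1.dimW
  have e1 := Submodule.finrank_sup_add_finrank_inf_eq W₁ (q.sp A)
  have hb : ∀ W, q.Cls A W → W ≤ W₁ ⊔ q.sp A →
      qp W (q.sp A) ⊔ qs q.ev A ≤ q.R ⊓ qp (W₁ ⊔ q.sp A) (W₁ ⊔ q.sp A) := fun W c hW =>
    le_inf (sup_le c.wy c.sq) (sup_le (Ph3_mono hW le_sup_right)
      (Ph3_qs q le_sup_right le_sup_right))
  unfold QS.Bd at bd
  by_cases hι : finrank K ↥(W₁ ⊓ q.sp A) = 1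
  · have a1 := hB.base A W₁ c1
    have a2 := Submodule.finrank_mono (hb W₁ c1 le_sup_left)
    omega
  have h0 : finrank K ↥(W₁ ⊓ q.sp A) = 0 := by have := c1.iota; omega
  obtain ⟨w', hw', hn⟩ := SetLike.not_le_iff_exists.1 fun e : W₂ ≤ W₁ =>
    ne (Submodule.eq_of_le_of_finrank_eq e (d2.trans dW.symm)).symm
  obtain ⟨w, hw, y, hy, rfl⟩ := Submodule.mem_sup.1 (h hw')
  have y0 : y ≠ 0 := fun e => hn (by rwa [e, add_zero])
  obtain ⟨W₀, hW₀, d0⟩ : ∃ W₀ ≤ W₁, finrank K W₀ = 3 := by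
    obtain ⟨f, hf⟩ := exists_linearIndependent_of_le_finrank (R := K) (M := W₁) (n := 3) (by omega)
    refine ⟨_, Submodule.span_le.2 ?_,
      (finrank_span_eq_card (hf.map' W₁.subtype W₁.ker_subtype)).trans (Fintype.card_fin 3)⟩
    rintro _ ⟨i, rfl⟩
    exact (f i).2
  have yn : y ∉ W₀ := fun e => y0 (by
    have := Submodule.mem_inf.2 ⟨hW₀ e, hy⟩
    rwa [Submodule.finrank_eq_zero.1 h0, Submodule.mem_bot] at this)
  have a1 := Ph3_add yn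
  have a2 := Submodule.finrank_add_le_finrank_add_finrank (K ∙ y) W₀
  have a3 := finrank_span_singleton (K := K) y0
  have a4 := Submodule.finrank_sup_add_finrank_inf_eq W₀ (q.sp A)
  have a5 := Submodule.finrank_mono (inf_le_inf_right (q.sp A) hW₀)
  have a6 := Submodule.finrank_sup_add_finrank_inf_eq ((K ∙ y) ⊔ W₀) (q.sp A)
  have a7 : (K ∙ y) ⊔ W₀ ⊔ q.sp A = W₀ ⊔ q.sp A := by
    rw [sup_assoc, sup_eq_right]
    exact ((Submodule.span_singleton_le_iff_mem _ _).2 hy).trans le_sup_right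
  have c : q.Cls A ((K ∙ y) ⊔ W₀) := by
    refine ⟨c1.card, by omega, dY, by rw [a7] at a6; omega, Ph3_le fun x hx z hz => ?_, c1.sq⟩
    obtain ⟨_, hu, u, hu', rfl⟩ := Submodule.mem_sup.1 hx
    obtain ⟨t, rfl⟩ := Submodule.mem_span_singleton.1 hu
    have e : qm (K := K) (t • y + u) z = t • (qm (w + y) z - qm w z) + qm u z := by
      funext f
      simp only [qm, map_add, map_smul, smul_eq_mul, Pi.add_apply, Pi.smul_apply, Pi.sub_apply]
      ring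
    rw [e]
    exact add_mem (Submodule.smul_mem _ _ (sub_mem (wy (Ph3_mem hw' hz)) (c1.wy (Ph3_mem hw hz))))
      (c1.wy (Ph3_mem (hW₀ hu') hz))
  have hW : (K ∙ y) ⊔ W₀ ≤ W₁ ⊔ q.sp A :=
    le_sup_left.trans (a7.le.trans (sup_le_sup_right hW₀ _))
  have b1 := hB.base A _ c
  have b2 := c.iota
  have l2 : qp (q.sp A) W₁ ≤ q.R ⊓ qp (W₁ ⊔ q.sp A) (W₁ ⊔ q.sp A) :=
    le_inf ((Ph3_swap le_rfl le_rfl).trans c1.wy) (Ph3_mono le_sup_right le_sup_left)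
  have b3 := Ph3_layer (res (W₀ ⊔ q.sp A) ⊥) (hb _ c hW) l2 (le_trans (sup_le
    (Ph3_mono (le_sup_left.trans a7.le) le_sup_right) (Ph3_qs q le_sup_right le_sup_right))
    (hQ.ker1 _ _))
  have b4 := hQ.ra (W₀ ⊔ q.sp A) ⊥ (q.sp A) W₁ 4 1 bot_le le_sup_right
    (by rw [finrank_bot, sup_bot_eq, dY]) (by
      have := Submodule.finrank_mono (sup_le_sup_left (le_sup_right (a := W₀) (b := q.sp A)) W₁)
      omega)
  have b5 := Submodule.finrank_mono (sup_le (hb _ c hW) l2)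
  omega

theorem Ph3_thm (g : Gen V K) (q : QS g Λ) (hQ : StQ K Λ) (hB : q.StQB) : q.StPh3 := by
  intro v N A₁ A₂ E W₁ W₂ h hs hY
  have := hQ.fin (E ⊔ q.sp A₁) (E ⊔ q.sp A₁)
  have : FiniteDimensional K ↥(q.R ⊓ qp (E ⊔ q.sp A₁) (E ⊔ q.sp A₁)) :=
    Submodule.finiteDimensional_of_le inf_le_right
  have dY := h.c1.dimY
  have dW := h.c1.dimW
  have dE := h.dimE
  have cN := h.cardN
  have vY := Ph3_ev q h.v1
  have vY' : (K ∙ q.ev v) ≤ q.sp A₁ := (Submodule.span_singleton_le_iff_mem _ _).2 vY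
  have vN : q.ev v ∉ q.sp N := fun e => by
    have h1 : q.sp (insert v N) ≤ q.sp N := Submodule.span_le.2 (by
      rintro _ ⟨x, hx, rfl⟩
      rcases Finset.mem_insert.1 hx with rfl | hx
      exacts [e, Ph3_ev q hx])
    have h2 := Submodule.finrank_mono h1
    have h3 := Finset.card_insert_of_notMem h.vN
    rw [Ph3_dim q (by omega), Ph3_dim q (by omega)] at h2
    omega
  have d1 := finrank_span_singleton (K := K) fun e : q.ev v = 0 => vN (e ▸ zero_mem _)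
  have e1 := Submodule.finrank_sup_add_finrank_inf_eq E (q.sp A₁)
  have e2 := Submodule.finrank_sup_add_finrank_inf_eq W₁ (q.sp A₁)
  have e3 := Ph3_inf h.NE vN h.vE vY hs
  rw [Ph3_dim q (by omega)] at e3
  have bd := h.bd _ (le_sup_left (b := q.sp A₁))
  unfold QS.Bd at bd
  have hF : W₁ ⊔ q.sp A₁ ≤ E ⊔ q.sp A₁ := sup_le_sup_right h.W1E _
  have k0 : qp W₁ (q.sp A₁) ⊔ qs q.ev A₁ ≤ qp (W₁ ⊔ q.sp A₁) (W₁ ⊔ q.sp A₁) :=
    sup_le (Ph3_mono le_sup_left le_sup_right) (Ph3_qs q le_sup_right le_sup_right)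
  have l0 : qp W₁ (q.sp A₁) ⊔ qs q.ev A₁ ≤ q.R ⊓ qp (E ⊔ q.sp A₁) (E ⊔ q.sp A₁) :=
    le_inf (sup_le h.c1.wy h.c1.sq) (k0.trans (Ph3_mono hF hF))
  have l1 : qp (K ∙ q.ev v) E ≤ q.R ⊓ qp (E ⊔ q.sp A₁) (E ⊔ q.sp A₁) :=
    le_inf h.vR (Ph3_mono (vY'.trans le_sup_right) le_sup_left)
  have l3 : qs q.ev N ≤ q.R ⊓ qp (E ⊔ q.sp A₁) (E ⊔ q.sp A₁) :=
    le_inf h.NR (Ph3_qs q (h.NE.trans le_sup_left) (h.NE.trans le_sup_left))
  have k1 : qp W₁ (q.sp A₁) ⊔ qs q.ev A₁ ⊔ qp (K ∙ q.ev v) E ≤ qp (q.sp A₁) ⊤ :=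
    sup_le (sup_le (Ph3_swap le_top le_rfl) (Ph3_qs q le_rfl le_top)) (Ph3_mono vY' le_top)
  have b0 := hB.base _ _ h.c1
  have b1 := Ph3_layer (res (W₁ ⊔ q.sp A₁) ⊥) l0 l1 (k0.trans (hQ.ker1 _ _))
  have m1 := Submodule.finrank_mono hF
  have b2 := hQ.ra (W₁ ⊔ q.sp A₁) ⊥ (K ∙ q.ev v) E 1
    (finrank K ↥(E ⊔ q.sp A₁) - finrank K ↥(W₁ ⊔ q.sp A₁)) bot_le (vY'.trans le_sup_right)
    (by rw [finrank_bot, sup_bot_eq, d1]) (by
      have := Submodule.finrank_mono (sup_le_sup_left (le_sup_right (a := W₁) (b := q.sp A₁)) E)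
      omega)
  by_cases hA : q.sp A₂ ≤ q.sp A₁
  · have hA' := Submodule.eq_of_le_of_finrank_eq hA (h.c2.dimY.trans dY.symm)
    have wy := hA' ▸ h.c2.wy
    by_cases hW : W₂ ≤ W₁ ⊔ q.sp A₁
    · exact Ph3_last q hQ hB h.c1 h.c2.dimW wy h.neW hW (h.bd2 _ le_sup_left hW)
    obtain ⟨w, hw, hn⟩ := SetLike.not_le_iff_exists.1 hW
    have hw' : (K ∙ w) ≤ W₂ := (Submodule.span_singleton_le_iff_mem _ _).2 hw
    have l2 : qp (q.sp A₁) (K ∙ w) ≤ q.R ⊓ qp (E ⊔ q.sp A₁) (E ⊔ q.sp A₁) :=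
      le_inf ((Ph3_swap le_rfl hw').trans wy)
        (Ph3_mono le_sup_right ((hw'.trans h.W2E).trans le_sup_left))
    have b3 := Ph3_layer (res (W₁ ⊔ q.sp A₁) (K ∙ q.ev v)) (sup_le l0 l1) l2
      (sup_le (k0.trans (hQ.ker1 _ _))
        ((Ph3_mono le_rfl le_top).trans (hQ.ker2 _ _ (vY'.trans le_sup_right))))
    have b4 := hQ.ra (W₁ ⊔ q.sp A₁) (K ∙ q.ev v) (q.sp A₁) (K ∙ w) 3 1 (vY'.trans le_sup_right)
      le_sup_right (by rw [sup_eq_left.2 vY', d1, dY]) (Ph3_add hn)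
    have b5 := Ph3_layer (res (q.sp A₁) (q.sp A₁)) (sup_le (sup_le l0 l1) l2) l3
      ((sup_le k1 (Ph3_mono le_rfl le_top)).trans (hQ.ker2 _ _ le_rfl))
    have b6 : finrank K ↥(q.sp N ⊔ q.sp A₁) ≤ _ := hQ.rd (q.sp A₁) V q.ev N
    have b7 := Submodule.finrank_mono (sup_le (sup_le (sup_le l0 l1) l2) l3)
    omega
  · obtain ⟨y, hy, hn⟩ := SetLike.not_le_iff_exists.1 hA
    have hy' : (K ∙ y) ≤ q.sp A₂ := (Submodule.span_singleton_le_iff_mem _ _).2 hy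
    have l2 : qp (K ∙ y) W₂ ≤ q.R ⊓ qp (E ⊔ q.sp A₁) (E ⊔ q.sp A₁) :=
      le_inf ((Ph3_swap hy' le_rfl).trans h.c2.wy)
        (Ph3_mono (hy'.trans hY) (h.W2E.trans le_sup_left))
    have b3 := Ph3_layer (res (q.sp A₁) (q.sp A₁)) (sup_le l0 l1) l2
      (k1.trans (hQ.ker2 _ _ le_rfl))
    have b4 := hQ.rb (q.sp A₁) W₂ y hn
    have e4 := Ph3_inf h.W2E h.vW2 h.vE vY hs
    have e5 := h.c2.dimW
    have b5 := Ph3_layer (res ((K ∙ y) ⊔ q.sp A₁) ((K ∙ y) ⊔ q.sp A₁))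
      (sup_le (sup_le l0 l1) l2) l3 ((sup_le (k1.trans (Ph3_mono le_sup_right le_rfl))
        (Ph3_mono le_sup_left le_top)).trans (hQ.ker2 _ _ le_rfl))
    have b6 : finrank K ↥(q.sp N ⊔ ((K ∙ y) ⊔ q.sp A₁)) ≤ _ := hQ.rd _ V q.ev N
    have b7 := Submodule.finrank_mono (sup_le (sup_le (sup_le l0 l1) l2) l3)
    have b8 := Submodule.finrank_mono
      (sup_le_sup_left (le_sup_right (a := K ∙ y) (b := q.sp A₁)) (q.sp N))
    have b9 := Submodule.finrank_add_le_finrank_add_finrank (K ∙ y) (q.sp A₁)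
    have d2 := finrank_span_singleton (K := K) fun e : y = 0 => hn (e ▸ zero_mem _)
    omega

end Pool.Agent.Dress
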