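import Pool.Agent.Lib.MP_d237f6_co.DR.Gam

/-! Two classes at a vertex of degree seven that meet the star space in one line each. -/

set_option autoImplicit false

namespace Pool.Agent.Dress

open Matrix Module Classical

variable {K : Type} [Field K] [CharZero K] {V : Type} [DecidableEq V] [Fintype V]
  {Λ : Type} [AddCommGroup Λ] [Module K Λ] [FiniteDimensional K Λ]

omit [CharZero K] [FiniteDimensional K Λ] in
theorem Ph4_qp_mono {U U' W W' : Submodule K Λ} (h1 : U ≤ U') (h2 : W ≤ W') :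
    qp U W ≤ qp U' W' :=
  Submodule.span_mono fun _ ⟨x, hx, y, hy, e⟩ => ⟨x, h1 hx, y, h2 hy, e⟩

omit [CharZero K] [FiniteDimensional K Λ] in
theorem Ph4_qp_swap {U U' W W' : Submodule K Λ} (h1 : U ≤ W') (h2 : W ≤ U') :
    qp U W ≤ qp U' W' :=
  Submodule.span_mono fun _ ⟨x, hx, y, hy, e⟩ =>
    ⟨y, h2 hy, x, h1 hx, by rw [e]; funext f; exact mul_comm _ _⟩

omit [CharZero K] [FiniteDimensional K Λ] in
theorem Ph4_qs_le {ι : Type} {x : ι → Λ} {N : Finset ι} {U W : Submodule K Λ}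
    (h1 : ∀ i ∈ N, x i ∈ U) (h2 : ∀ i ∈ N, x i ∈ W) : qs x N ≤ qp U W :=
  Submodule.span_mono fun _ ⟨i, hi, e⟩ => ⟨x i, h1 i hi, x i, h2 i hi, e⟩

omit [CharZero K] [FiniteDimensional K Λ] in
theorem Ph4_qs_R {ι : Type} {x : ι → Λ} {N : Finset ι} {R : Submodule K (Dual K Λ → K)}
    (h : ∀ i ∈ N, qm (x i) (x i) ∈ R) : qs x N ≤ R :=
  Submodule.span_le.2 fun _ ⟨i, hi, e⟩ => e ▸ h i hi

omit [CharZero K] [FiniteDimensional K Λ] in
theorem Ph4_mem_qs {ι : Type} {x : ι → Λ} {N : Finset ι} {i : ι} (hi : i ∈ N) :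
    qm (x i) (x i) ∈ qs (K := K) x N := Submodule.subset_span ⟨i, hi, rfl⟩

omit [CharZero K] [FiniteDimensional K Λ] in
theorem Ph4_lay (hQ : StQ K Λ) {Z : Type} [AddCommGroup Z] [Module K Z]
    {S₁ S₂ : Submodule K (Dual K Λ → K)} {U : Submodule K Λ} (h1 : S₁ ≤ qp U U)
    (h2 : S₂ ≤ qp U U) (f : (Dual K Λ → K) →ₗ[K] Z) (hk : S₁ ≤ LinearMap.ker f) :
    finrank K S₁ + finrank K (S₂.map f) ≤ finrank K ↥(S₁ ⊔ S₂) := by
  haveI := hQ.fin U U
  haveI : FiniteDimensional K ↥(S₁ ⊔ S₂) := Submodule.finiteDimensional_of_le (sup_le h1 h2)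
  exact finrank_layer _ _ _ f le_sup_left le_sup_right hk

variable {g : Gen V K} (q : QS g Λ)

omit [CharZero K] [FiniteDimensional K Λ] [Fintype V] in
theorem Ph4_ev_mem {A : Finset V} {a : V} (ha : a ∈ A) : q.ev a ∈ q.sp A :=
  Submodule.subset_span ⟨a, Finset.mem_coe.2 ha, rfl⟩

omit [CharZero K] [FiniteDimensional K Λ] [Fintype V] in
theorem Ph4_sp_le {A : Finset V} {U : Submodule K Λ} (h : ∀ a ∈ A, q.ev a ∈ U) : q.sp A ≤ U :=
  Submodule.span_le.2 (by rintro _ ⟨a, ha, rfl⟩; exact h a ha)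

omit [FiniteDimensional K Λ] in
theorem Ph4_ev_ne (v : V) : q.ev v ≠ 0 := fun h => by
  have h1 := q.hpr v
  rw [h, map_zero] at h1
  exact g.coord_ne v 0 (by rw [← h1]; rfl)

omit [FiniteDimensional K Λ] in
theorem Ph4_ind {T : Finset V} {v : V} (hv : v ∉ T) (hT : T.card ≤ 3) (c : V → K)
    (h : ∑ a ∈ T, c a • q.ev a ∈ K ∙ q.ev v) : ∀ a ∈ T, c a = 0 := by
  obtain ⟨s, hs⟩ := Submodule.mem_span_singleton.1 h
  have h1 := congrArg q.pr hs
  simp only [map_smul, map_sum, q.hpr] at h1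
  have h2 := g.indep (insert v T) (by rw [Finset.card_insert_of_notMem hv]; omega)
    (Function.update c v (-s)) (by
      rw [Finset.sum_insert hv, Function.update_self,
        Finset.sum_congr rfl (fun a ha => by
          rw [Function.update_of_ne (fun e : a = v => hv (e ▸ ha))]), ← h1, neg_smul,
        neg_add_cancel])
  intro a ha
  have h3 := h2 a (Finset.mem_insert_of_mem ha)
  rwa [Function.update_of_ne (fun e : a = v => hv (e ▸ ha))] at h3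

theorem Ph4_card_le {T : Finset V} (hT : T.card ≤ 4) {U : Submodule K Λ}
    (h : ∀ a ∈ T, q.ev a ∈ U) : T.card ≤ finrank K U := by
  have h1 : LinearIndependent K (fun b : T => q.ev b) :=
    LinearIndependent.of_comp q.pr (by
      have := g.linInd T hT
      simpa only [Function.comp_def, q.hpr] using this)
  have h2 := finrank_span_eq_card h1
  rw [Fintype.card_coe] at h2
  rw [← h2]
  exact Submodule.finrank_mono (Submodule.span_le.2 (by rintro _ ⟨a, rfl⟩; exact h a a.2))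

variable {q}

/-- the four middle layers -/
theorem Ph4_core (hQ : StQ K Λ) (hB : q.StQB) {v : V} {N A₁ A₂ : Finset V}
    {E W₁ W₂ : Submodule K Λ} (h : q.Phi v N A₁ A₂ E W₁ W₂) (h1 : E ⊓ q.sp A₁ = K ∙ q.ev v)
    (h2 : E ⊓ q.sp A₂ = K ∙ q.ev v) (B : Submodule K (Dual K Λ → K)) (hBR : B ≤ q.R)
    (hBE : B ≤ qp E E) (N' : Finset V) (hc : N'.card ≤ 5) (hv : v ∉ N')
    (hY : q.sp N' ≤ q.sp A₁) (hR : qs q.ev N' ≤ q.R) (δ τ t : ℕ)
    (hδ : δ + 4 ≤ finrank K ↥(W₂ ⊔ W₁)) (hτ : τ + 1 ≤ finrank K ↥(q.sp A₂ ⊓ (E ⊔ q.sp A₁)))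
    (ht : t + finrank K ↥(E ⊔ q.sp A₁) ≤ finrank K ↥(q.sp A₂ ⊔ (E ⊔ q.sp A₁))) :
    ∃ S : Submodule K (Dual K Λ → K), S ≤ q.R ∧
      S ≤ qp (q.sp A₂ ⊔ (E ⊔ q.sp A₁)) (q.sp A₂ ⊔ (E ⊔ q.sp A₁)) ∧
      S ≤ qp E ⊤ ⊔ qp (E ⊔ q.sp A₁) (E ⊔ q.sp A₁) ∧
      finrank K B + 12 + δ * τ + 4 * t + N'.card ≤ finrank K S := by
  have hx : finrank K ↥(K ∙ q.ev v) = 1 := finrank_span_singleton (Ph4_ev_ne q v)
  set Y₁ := q.sp A₁ with hY₁
  set Y₂ := q.sp A₂ with hY₂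
  set U₁ := E ⊔ Y₁ with hU₁
  set U₂ := Y₂ ⊔ U₁ with hU₂
  have eU : E ≤ U₁ := le_sup_left
  have yU : Y₁ ≤ U₁ := le_sup_right
  have uU : U₁ ≤ U₂ := le_sup_right
  have d1 := Submodule.finrank_sup_add_finrank_inf_eq E Y₁
  rw [h1, hx, h.c1.dimY] at d1
  have d2 := Submodule.finrank_sup_add_finrank_inf_eq (Y₂ ⊓ U₁) E
  have e2 : Y₂ ⊓ U₁ ⊓ E = K ∙ q.ev v := by
    rw [inf_assoc, inf_eq_right.2 eU, inf_comm, h2]
  rw [e2, hx] at d2
  have n1 : ∀ a ∈ N', q.ev a ∈ U₁ := fun a ha => yU (hY (Ph4_ev_mem q ha))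
  -- the layers
  have b1 : B ≤ qp U₁ U₁ := hBE.trans (Ph4_qp_mono eU eU)
  have b5 : qp W₁ Y₁ ≤ qp U₁ U₁ := Ph4_qp_mono (h.W1E.trans eU) yU
  have b4 : qp W₂ (Y₂ ⊓ U₁) ≤ qp U₁ U₁ := Ph4_qp_mono (h.W2E.trans eU) inf_le_right
  have b2 : qs q.ev N' ≤ qp U₁ U₁ := Ph4_qs_le n1 n1
  have up : qp U₁ U₁ ≤ qp U₂ U₂ := Ph4_qp_mono uU uU
  have b3 : qp W₂ Y₂ ≤ qp U₂ U₂ := Ph4_qp_mono ((h.W2E.trans eU).trans uU) le_sup_left
  have l5 := Ph4_lay hQ b1 b5 (res E ⊥) (hBE.trans (hQ.ker1 E ⊥))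
  have r5 := hQ.ra E ⊥ W₁ Y₁ 4 3 bot_le h.W1E (by rw [finrank_bot, sup_bot_eq, h.c1.dimW])
    (by rw [sup_comm]; omega)
  have l4 := Ph4_lay hQ (sup_le b1 b5) b4 (res E W₁) (sup_le (hBE.trans (hQ.ker1 E W₁))
    ((Ph4_qp_mono le_rfl le_top).trans (hQ.ker2 E W₁ h.W1E)))
  have r4 := hQ.ra E W₁ W₂ (Y₂ ⊓ U₁) δ τ h.W1E h.W2E (by rw [h.c1.dimW]; exact hδ) (by omega)
  have c4 := sup_le (sup_le b1 b5) b4
  have l3 := Ph4_lay hQ (c4.trans up) b3 (res U₁ ⊥) (c4.trans (hQ.ker1 U₁ ⊥))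
  have r3 := hQ.ra U₁ ⊥ W₂ Y₂ 4 t bot_le (h.W2E.trans eU)
    (by rw [finrank_bot, sup_bot_eq, h.c2.dimW]) ht
  have c3 : B ⊔ qp W₁ Y₁ ⊔ qp W₂ (Y₂ ⊓ U₁) ⊔ qp W₂ Y₂ ≤ qp E ⊤ :=
    sup_le (sup_le (sup_le (hBE.trans (Ph4_qp_mono le_rfl le_top)) (Ph4_qp_mono h.W1E le_top))
      (Ph4_qp_mono h.W2E le_top)) (Ph4_qp_mono h.W2E le_top)
  have l2 := Ph4_lay hQ (sup_le (c4.trans up) b3) (b2.trans up) (res E E)
    (c3.trans (hQ.ker2 E E le_rfl))
  have r2 := hB.gen Y₁ E A₁ N' v (by rw [h.c1.card]; omega) le_rfl h.c1.dimY.le hc hv hY h.vE h1.le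
  refine ⟨B ⊔ qp W₁ Y₁ ⊔ qp W₂ (Y₂ ⊓ U₁) ⊔ qp W₂ Y₂ ⊔ qs q.ev N', ?_, ?_, ?_, by omega⟩
  · exact sup_le (sup_le (sup_le (sup_le hBR h.c1.wy)
      ((Ph4_qp_mono le_rfl inf_le_left).trans h.c2.wy)) h.c2.wy) hR
  · exact sup_le (sup_le (c4.trans up) b3) (b2.trans up)
  · exact sup_le_sup c3 b2

theorem Ph4_thm (g : Gen V K) (q : QS g Λ) (hQ : StQ K Λ) (hB : q.StQB) : q.StPh4 := by
  intro v N A₁ A₂ E W₁ W₂ h i1 i2
  have hx0 := Ph4_ev_ne q v
  have hx : finrank K ↥(K ∙ q.ev v) = 1 := finrank_span_singleton hx0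
  have xE : K ∙ q.ev v ≤ E := (Submodule.span_singleton_le_iff_mem _ _).2 h.vE
  have x1 : K ∙ q.ev v ≤ q.sp A₁ := (Submodule.span_singleton_le_iff_mem _ _).2 (Ph4_ev_mem q h.v1)
  have x2 : K ∙ q.ev v ≤ q.sp A₂ := (Submodule.span_singleton_le_iff_mem _ _).2 (Ph4_ev_mem q h.v2)
  have h1 : E ⊓ q.sp A₁ = K ∙ q.ev v :=
    (Submodule.eq_of_le_of_finrank_le (le_inf xE x1) (by omega)).symm
  have h2 : E ⊓ q.sp A₂ = K ∙ q.ev v :=
    (Submodule.eq_of_le_of_finrank_le (le_inf xE x2) (by omega)).symm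
  have core := Ph4_core hQ hB h h1 h2
  have hn := h.cardN
  have he := h.dimE
  have d1 := Submodule.finrank_sup_add_finrank_inf_eq E (q.sp A₁)
  rw [h1, hx, h.c1.dimY] at d1
  have d2 := Submodule.finrank_sup_add_finrank_inf_eq (q.sp A₂) (E ⊔ q.sp A₁)
  rw [h.c2.dimY] at d2
  have d3 := Submodule.finrank_sup_add_finrank_inf_eq W₂ W₁
  rw [h.c1.dimW, h.c2.dimW] at d3
  have hδ : 5 ≤ finrank K ↥(W₂ ⊔ W₁) := by
    by_contra hc
    have e1 : W₂ = W₂ ⊔ W₁ :=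
      Submodule.eq_of_le_of_finrank_le le_sup_left (by rw [h.c2.dimW]; omega)
    have e2 : W₁ = W₂ ⊔ W₁ :=
      Submodule.eq_of_le_of_finrank_le le_sup_right (by rw [h.c1.dimW]; omega)
    exact h.neW (e2.trans e1.symm)
  have xP : K ∙ q.ev v ≤ q.sp A₂ ⊓ (E ⊔ q.sp A₁) := le_inf x2 (xE.trans le_sup_left)
  have p1 := Submodule.finrank_mono xP
  have p4 : finrank K ↥(q.sp A₂ ⊓ (E ⊔ q.sp A₁)) ≤ 4 :=
    (Submodule.finrank_mono inf_le_left).trans h.c2.dimY.le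
  have hbd := h.bd (q.sp A₂ ⊔ (E ⊔ q.sp A₁)) (le_sup_left.trans le_sup_right)
  unfold QS.Bd at hbd
  have fin : ∀ S : Submodule K (Dual K Λ → K), S ≤ q.R →
      S ≤ qp (q.sp A₂ ⊔ (E ⊔ q.sp A₁)) (q.sp A₂ ⊔ (E ⊔ q.sp A₁)) →
      finrank K S + 14 ≤ 4 * finrank K ↥(q.sp A₂ ⊔ (E ⊔ q.sp A₁)) + N.card := fun S s1 s2 => by
    haveI := hQ.fin (q.sp A₂ ⊔ (E ⊔ q.sp A₁)) (q.sp A₂ ⊔ (E ⊔ q.sp A₁))
    haveI : FiniteDimensional K ↥(q.R ⊓ qp (q.sp A₂ ⊔ (E ⊔ q.sp A₁)) (q.sp A₂ ⊔ (E ⊔ q.sp A₁))) :=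
      Submodule.finiteDimensional_of_le inf_le_right
    have := Submodule.finrank_mono (le_inf s1 s2)
    omega
  -- the two lowest layers
  have nE : ∀ a ∈ N, q.ev a ∈ E := fun a ha => h.NE (Ph4_ev_mem q ha)
  have b7 : qp (K ∙ q.ev v) E ≤ qp E E := Ph4_qp_mono xE le_rfl
  have b6 : qs q.ev N ≤ qp E E := Ph4_qs_le nE nE
  have r7 := hQ.rb0 E _ hx0
  have k7 : qp (K ∙ q.ev v) E ≤ LinearMap.ker (res (K ∙ q.ev v) (K ∙ q.ev v)) :=
    (Ph4_qp_mono le_rfl le_top).trans (hQ.ker2 _ _ le_rfl)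
  have l6 := Ph4_lay hQ b7 b6 _ k7
  have r6 := hQ.rc (K ∙ q.ev v) (K ∙ q.ev v) V q.ev N (fun a ha hm => by
    have := Ph4_ind q (T := {a}) (v := v) (fun e => h.vN (Finset.mem_singleton.1 e ▸ ha))
      (by simp) (fun _ => 1) (by simpa using hm) a (Finset.mem_singleton_self a)
    exact one_ne_zero this) (Ph4_ind q h.vN hn)
  have c1 : (A₁.erase v).card = 4 := by rw [Finset.card_erase_of_mem h.v1, h.c1.card]
  have c2 : (A₂.erase v).card = 4 := by rw [Finset.card_erase_of_mem h.v2, h.c2.card]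
  have s1 : ∀ a ∈ A₁, qm (q.ev a) (q.ev a) ∈ q.R := fun a ha => h.c1.sq (Ph4_mem_qs ha)
  have s2 : ∀ a ∈ A₂, qm (q.ev a) (q.ev a) ∈ q.R := fun a ha => h.c2.sq (Ph4_mem_qs ha)
  have y1 : q.sp (A₁.erase v) ≤ q.sp A₁ :=
    Ph4_sp_le q fun a ha => Ph4_ev_mem q (Finset.mem_of_mem_erase ha)
  have q1 : qs q.ev (A₁.erase v) ≤ q.R := Ph4_qs_R fun a ha => s1 a (Finset.mem_of_mem_erase ha)
  by_cases hp : finrank K ↥(q.sp A₂ ⊓ (E ⊔ q.sp A₁)) = 4
  · by_cases hYY : q.sp A₂ ≤ q.sp A₁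
    · obtain ⟨a, ha2, ha1⟩ : ∃ a ∈ A₂, a ∉ A₁ := by
        by_contra hc
        push Not at hc
        exact h.neA (Finset.eq_of_subset_of_card_le hc (by rw [h.c1.card, h.c2.card])).symm
      have ha3 : a ∉ A₁.erase v := fun e => ha1 (Finset.mem_of_mem_erase e)
      obtain ⟨S, g1, g2, -, g4⟩ := core _ (sup_le h.vR h.NR) (sup_le b7 b6)
        (insert a (A₁.erase v)) (by rw [Finset.card_insert_of_notMem ha3]; omega)
        (fun e => by
          rcases Finset.mem_insert.1 e with e | e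
          · exact ha1 (e ▸ h.v1)
          · exact Finset.notMem_erase v A₁ e)
        (Ph4_sp_le q fun b hb => by
          rcases Finset.mem_insert.1 hb with rfl | hb
          · exact hYY (Ph4_ev_mem q ha2)
          · exact Ph4_ev_mem q (Finset.mem_of_mem_erase hb))
        (Ph4_qs_R fun b hb => by
          rcases Finset.mem_insert.1 hb with rfl | hb
          · exact s2 _ ha2
          · exact s1 b (Finset.mem_of_mem_erase hb))
        1 3 0 (by omega) (by omega) (by omega)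
      have := fin S g1 g2
      rw [Finset.card_insert_of_notMem ha3] at g4
      omega
    · obtain ⟨y, hy2, hy1⟩ := SetLike.not_le_iff_exists.1 hYY
      have e4 : q.sp A₂ ⊓ (E ⊔ q.sp A₁) = q.sp A₂ :=
        Submodule.eq_of_le_of_finrank_le inf_le_left (by rw [h.c2.dimY]; omega)
      obtain ⟨ε, hε, z, hz, rfl⟩ := Submodule.mem_sup.1 (inf_eq_left.1 e4 hy2)
      have hεx : ε ∉ K ∙ q.ev v := fun e => hy1 (add_mem (x1 e) hz)
      have εE : K ∙ ε ≤ E := (Submodule.span_singleton_le_iff_mem _ _).2 hε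
      have bR : qp (K ∙ ε) (W₂ ⊓ W₁) ≤ q.R := Submodule.span_le.2 (by
        rintro _ ⟨x, hx', w, hw, rfl⟩
        obtain ⟨c, rfl⟩ := Submodule.mem_span_singleton.1 hx'
        have e : qm (c • ε) w = c • (qm w (ε + z) - qm w z : Dual K Λ → K) := by
          funext f
          simp only [qm, map_smul, map_add, Pi.smul_apply, Pi.sub_apply, smul_eq_mul]
          ring
        rw [e]
        exact q.R.smul_mem c (sub_mem (h.c2.wy (Submodule.subset_span ⟨w, hw.1, _, hy2, rfl⟩))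
          (h.c1.wy (Submodule.subset_span ⟨w, hw.2, _, hz, rfl⟩))))
      have b8 : qp (K ∙ ε) (W₂ ⊓ W₁) ≤ qp E E := Ph4_qp_mono εE (inf_le_left.trans h.W2E)
      have l8 := Ph4_lay hQ b7 b8 _ k7
      have r8 := hQ.rb (K ∙ q.ev v) (W₂ ⊓ W₁) ε hεx
      have d4 := Submodule.finrank_sup_add_finrank_inf_eq (W₂ ⊓ W₁) (K ∙ q.ev v)
      have e5 : W₂ ⊓ W₁ ⊓ K ∙ q.ev v = ⊥ :=
        disjoint_iff.1 (Submodule.disjoint_span_singleton_of_notMem fun e => h.vW1 e.2)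
      rw [e5, finrank_bot] at d4
      have l9 := Ph4_lay hQ (sup_le b7 b8) b6 (res (K ∙ q.ev v ⊔ K ∙ ε) (K ∙ q.ev v ⊔ K ∙ ε))
        ((sup_le (Ph4_qp_mono le_sup_left le_top) (Ph4_qp_mono le_sup_right le_top)).trans
          (hQ.ker2 _ _ le_rfl))
      have r9 := hQ.rd (K ∙ q.ev v ⊔ K ∙ ε) V q.ev N
      have d5 := Submodule.finrank_add_le_finrank_add_finrank (K ∙ q.ev v) (K ∙ ε)
      have d6 : finrank K ↥(K ∙ ε) = 1 := finrank_span_singleton fun e => hεx (e ▸ zero_mem _)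
      have d7 := Ph4_card_le q (T := insert v N) (by rw [Finset.card_insert_of_notMem h.vN]; omega)
        (U := Submodule.span K (q.ev '' N) ⊔ (K ∙ q.ev v ⊔ K ∙ ε)) (fun a ha => by
          rcases Finset.mem_insert.1 ha with rfl | ha
          · exact Submodule.mem_sup_right
              (Submodule.mem_sup_left (Submodule.mem_span_singleton_self _))
          · exact Submodule.mem_sup_left (Ph4_ev_mem q ha))
      rw [Finset.card_insert_of_notMem h.vN] at d7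
      obtain ⟨S, g1, g2, -, g4⟩ := core _ (sup_le (sup_le h.vR bR) h.NR) (sup_le (sup_le b7 b8) b6)
        (A₁.erase v) (by omega) (Finset.notMem_erase v A₁) y1 q1
        (finrank K ↥(W₂ ⊔ W₁) - 4) 3 0 (by omega) (by omega) (by omega)
      have := fin S g1 g2
      omega
  · obtain ⟨S, g1, g2, g3, g4⟩ := core _ (sup_le h.vR h.NR) (sup_le b7 b6)
      (A₁.erase v) (by omega) (Finset.notMem_erase v A₁) y1 q1
      1 (finrank K ↥(q.sp A₂ ⊓ (E ⊔ q.sp A₁)) - 1) (4 - finrank K ↥(q.sp A₂ ⊓ (E ⊔ q.sp A₁)))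
      (by omega) (by omega) (by omega)
    have top : ∀ (O : Finset V) (Z : Submodule K Λ), O ⊆ A₂ → E ≤ Z → Z ≤ E ⊔ q.sp A₁ →
        finrank K S + finrank K ((qs q.ev O).map (res (E ⊔ q.sp A₁) Z)) + 14
          ≤ 4 * finrank K ↥(q.sp A₂ ⊔ (E ⊔ q.sp A₁)) + N.card := fun O Z o1 o2 o3 => by
      have oU : ∀ a ∈ O, q.ev a ∈ q.sp A₂ ⊔ (E ⊔ q.sp A₁) := fun a ha =>
        Submodule.mem_sup_left (Ph4_ev_mem q (o1 ha))
      have l1 := Ph4_lay hQ g2 (Ph4_qs_le oU oU) (res (E ⊔ q.sp A₁) Z) (g3.trans (sup_le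
        ((Ph4_qp_mono o2 le_rfl).trans (hQ.ker2 _ _ o3)) (hQ.ker1 _ _)))
      have := fin _ (sup_le g1 (Ph4_qs_R fun a ha => s2 a (o1 ha))) (sup_le g2 (Ph4_qs_le oU oU))
      omega
    by_cases hp1 : finrank K ↥(q.sp A₂ ⊓ (E ⊔ q.sp A₁)) = 1
    · have e4 : K ∙ q.ev v = q.sp A₂ ⊓ (E ⊔ q.sp A₁) :=
        Submodule.eq_of_le_of_finrank_le xP (by omega)
      have r1 := hB.gen (q.sp A₂) (E ⊔ q.sp A₁) A₂ (A₂.erase v) v (by rw [h.c2.card]; omega) le_rfl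
        h.c2.dimY.le (by omega) (Finset.notMem_erase v A₂)
        (Ph4_sp_le q fun a ha => Ph4_ev_mem q (Finset.mem_of_mem_erase ha))
        (Submodule.mem_sup_left h.vE) (by rw [inf_comm, ← e4])
      have := top (A₂.erase v) (E ⊔ q.sp A₁) (Finset.erase_subset _ _) le_sup_left le_rfl
      omega
    · have hin : ((A₂.erase v).filter fun a => q.ev a ∈ E ⊔ q.sp A₁).card + 1
          ≤ finrank K ↥(q.sp A₂ ⊓ (E ⊔ q.sp A₁)) := by
        by_contra hc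
        obtain ⟨I, hI, hIc⟩ := Finset.exists_subset_card_eq
          (s := (A₂.erase v).filter fun a => q.ev a ∈ E ⊔ q.sp A₁)
          (n := finrank K ↥(q.sp A₂ ⊓ (E ⊔ q.sp A₁))) (by omega)
        have hvI : v ∉ I := fun e => Finset.notMem_erase v A₂ (Finset.mem_filter.1 (hI e)).1
        have := Ph4_card_le q (T := insert v I) (by rw [Finset.card_insert_of_notMem hvI]; omega)
          (U := q.sp A₂ ⊓ (E ⊔ q.sp A₁)) (fun a ha => by
            rcases Finset.mem_insert.1 ha with rfl | ha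
            · exact xP (Submodule.mem_span_singleton_self _)
            · have := Finset.mem_filter.1 (hI ha)
              exact ⟨Ph4_ev_mem q (Finset.mem_of_mem_erase this.1), this.2⟩)
        rw [Finset.card_insert_of_notMem hvI] at this
        omega
      have hout := Finset.card_filter_add_card_filter_not (s := A₂.erase v)
        (fun a => q.ev a ∈ E ⊔ q.sp A₁)
      obtain ⟨O, hO, hOc⟩ := Finset.exists_subset_card_eq
        (s := (A₂.erase v).filter fun a => ¬ q.ev a ∈ E ⊔ q.sp A₁)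
        (n := 5 - finrank K ↥(q.sp A₂ ⊓ (E ⊔ q.sp A₁))) (by omega)
      have o1 : O ⊆ A₂ := fun a ha => Finset.mem_of_mem_erase (Finset.mem_filter.1 (hO ha)).1
      have hvO : v ∉ O := fun e => Finset.notMem_erase v A₂ (Finset.mem_filter.1 (hO e)).1
      have r1 := hQ.rc (E ⊔ q.sp A₁) E V q.ev O (fun a ha => (Finset.mem_filter.1 (hO ha)).2)
        (fun c hc => Ph4_ind q hvO (by omega) c (h2 ▸ ⟨hc, Submodule.sum_mem _ fun a ha =>
          Submodule.smul_mem _ _ (Ph4_ev_mem q (o1 ha))⟩))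
      have := top O E o1 le_rfl le_sup_left
      omega

end Pool.Agent.Dress
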