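import Pool.Agent.Lib.MP_d237f6_co.DR.Gam

/-! Counts of quadratic relations that use genericity. -/

set_option autoImplicit false
set_option linter.unusedSectionVars false

namespace Pool.Agent.Dress

open Matrix Module Classical

variable {K : Type} [Field K] [CharZero K] {V : Type} [DecidableEq V] [Fintype V]
  {Λ : Type} [AddCommGroup Λ] [Module K Λ] [FiniteDimensional K Λ]

theorem QB_fin {ι : Type} (x : ι → Λ) (N : Finset ι) : FiniteDimensional K (qs (K := K) x N) :=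
  FiniteDimensional.span_of_finite K ((N.finite_toSet.image fun i => qm (x i) (x i)).subset
    fun _ ⟨i, hi, e⟩ => ⟨i, hi, e.symm⟩)

theorem QB_ext {g : Gen V K} (q : QS g Λ) (E Y : Submodule K Λ) (f : Vec K)
    (h : ∀ y ∈ E ⊓ Y, f ⬝ᵥ q.pr y = 0) :
    ∃ φ : E.dualAnnihilator, ∀ y ∈ Y, φ.1 y = f ⬝ᵥ q.pr y := by
  have h1 : (dotProductBilin K K f).comp q.pr ∈ (E ⊓ Y).dualAnnihilator :=
    (Submodule.mem_dualAnnihilator _).2 h
  rw [Subspace.dualAnnihilator_inf_eq] at h1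
  obtain ⟨φ, h2, ψ, h3, e⟩ := Submodule.mem_sup.1 h1
  refine ⟨⟨φ, h2⟩, fun y hy => ?_⟩
  simpa [(Submodule.mem_dualAnnihilator _).1 h3 y hy] using LinearMap.congr_fun e y

theorem QB_key {g : Gen V K} (q : QS g Λ) (E Y : Submodule K Λ) (N : Finset V) (hN : q.sp N ≤ Y)
    (h : ∀ u ∈ N, ∃ f f' : Vec K, (∀ y ∈ E ⊓ Y, f ⬝ᵥ q.pr y = 0) ∧ (∀ y ∈ E ⊓ Y, f' ⬝ᵥ q.pr y = 0) ∧
      ∀ b ∈ N, (f ⬝ᵥ g.p b) * (f' ⬝ᵥ g.p b) = if b = u then 1 else 0) :
    N.card ≤ finrank K ((qs q.ev N).map (res E E)) := by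
  have := QB_fin (K := K) q.ev N
  have h1 : LinearIndependent K fun u : N => (⟨res E E (qm (q.ev u) (q.ev u)),
      Submodule.mem_map_of_mem (Submodule.subset_span ⟨u, u.2, rfl⟩)⟩ :
        (qs q.ev N).map (res E E)) := by
    rw [Fintype.linearIndependent_iff]
    intro c hc u
    obtain ⟨f, f', h1, h2, h3⟩ := h u u.2
    obtain ⟨φ, hφ⟩ := QB_ext q E Y f h1
    obtain ⟨ν, hν⟩ := QB_ext q E Y f' h2
    have h4 : ∀ b : N, res E E (qm (q.ev b) (q.ev b)) (φ, ν) = if b = u then 2 else 0 := fun b => by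
      have h5 : q.ev b ∈ Y := hN (Submodule.subset_span ⟨b, b.2, rfl⟩)
      rw [res_qm, hφ _ h5, hν _ h5, q.hpr, h3 b b.2]
      simp only [Subtype.coe_inj]
      split_ifs <;> norm_num
    simpa [h4] using congrFun (congrArg Subtype.val hc) (φ, ν)
  simpa using h1.fintype_card_le_finrank

theorem QB_split (g : Gen V K) (N T : Finset V) (hN : N.card ≤ 5) (hT : T.card ≤ 1) {u : V}
    (hu : u ∈ N) (hu' : u ∉ T) : ∃ f f' : Vec K, (∀ t ∈ T, f ⬝ᵥ g.p t = 0) ∧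
      (∀ t ∈ T, f' ⬝ᵥ g.p t = 0) ∧
        ∀ b ∈ N, (f ⬝ᵥ g.p b) * (f' ⬝ᵥ g.p b) = if b = u then 1 else 0 := by
  have h1 := Finset.card_erase_of_mem hu
  obtain ⟨S, hS, h2⟩ := Finset.exists_subset_card_eq (min_le_right 2 (N.erase u).card)
  have h3 := Finset.card_sdiff_of_subset hS
  have h4 : ∀ S : Finset V, S.card ≤ 2 → ∃ f : Vec K, ∀ b ∈ insert u (T ∪ S),
      f ⬝ᵥ g.p b = if b = u then 1 else 0 := fun S h => g.exists_cov _
    ((Finset.card_insert_le _ _).trans (by have := Finset.card_union_le T S; omega)) _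
  obtain ⟨f, hf⟩ := h4 S (by omega)
  obtain ⟨f', hf'⟩ := h4 (N.erase u \ S) (by omega)
  refine ⟨f, f', fun t ht => ?_, fun t ht => ?_, fun b hb => ?_⟩
  · rw [hf t (by simp [ht]), if_neg (ne_of_mem_of_not_mem ht hu')]
  · rw [hf' t (by simp [ht]), if_neg (ne_of_mem_of_not_mem ht hu')]
  · by_cases e : b = u
    · rw [hf b (by simp [e]), hf' b (by simp [e]), if_pos e, mul_one]
    · by_cases h : b ∈ S
      · rw [hf b (by simp [h]), if_neg e, zero_mul]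
      · rw [hf' b (by simp [h, e, hb]), if_neg e, mul_zero]

theorem QB_coord (g : Gen V K) {A : Finset V} (hA : A.card = 5) {z : Vec K} (hz : z ≠ 0) :
    ∃ B ⊆ A, B.card = 4 ∧ ∃ c : V → K, z = ∑ b ∈ B, c b • g.p b ∧
      3 ≤ (B.filter fun b => c b ≠ 0).card := by
  obtain ⟨α, h1, h2, h3⟩ := g.dep5 A hA
  rw [g.dep_sum h2] at h1
  obtain ⟨B, hB, h4⟩ := Finset.exists_subset_card_eq (show 4 ≤ A.card by omega)
  obtain ⟨c₀, h5⟩ := g.spans B h4 z
  obtain ⟨r, hr⟩ : ∃ r : V → K, z = ∑ a ∈ A, (r a * α a) • g.p a :=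
    ⟨fun a => (if a ∈ B then c₀ a else 0) / α a, by
      rw [h5, Finset.sum_congr (s₁ := A) rfl fun a ha => by rw [div_mul_cancel₀ _ (h3 a ha)]]
      simp [Finset.inter_eq_right.2 hB]⟩
  have h6 : ∀ a₀, z = ∑ a ∈ A, ((r a - r a₀) * α a) • g.p a := fun a₀ => by
    simp only [sub_mul, sub_smul, Finset.sum_sub_distrib, mul_smul (r a₀), ← Finset.smul_sum, h1,
      smul_zero, sub_zero, ← hr]
  obtain ⟨a₀, h7, h8⟩ : ∃ a₀ ∈ A, (A.filter fun a => r a = r a₀).card ≤ 2 := by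
    obtain ⟨a₁, h7⟩ := Finset.card_pos.1 (show 0 < A.card by omega)
    obtain ⟨a₂, h8, h9⟩ : ∃ a₂ ∈ A, r a₂ ≠ r a₁ := by
      by_contra! h
      exact hz ((h6 a₁).trans (Finset.sum_eq_zero fun a ha => by simp [h a ha]))
    have h10 := Finset.card_le_card (Finset.union_subset (Finset.filter_subset (r · = r a₁) A)
      (Finset.filter_subset (r · = r a₂) A))
    rw [Finset.card_union_of_disjoint
      (Finset.disjoint_filter.2 fun a _ e e' => h9 (e'.symm.trans e))] at h10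
    by_cases h : (A.filter fun a => r a = r a₁).card ≤ 2
    · exact ⟨a₁, h7, h⟩
    · exact ⟨a₂, h8, by omega⟩
  refine ⟨A.erase a₀, Finset.erase_subset _ _, by rw [Finset.card_erase_of_mem h7, hA],
    fun a => (r a - r a₀) * α a, by rw [Finset.sum_erase _ (by simp), ← h6], ?_⟩
  have h9 := Finset.card_filter_add_card_filter_not (s := A) fun a => r a = r a₀
  refine le_trans (by omega) (Finset.card_le_card (s := A.filter fun a => ¬r a = r a₀) fun a ha => ?_)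
  obtain ⟨b1, b2⟩ := Finset.mem_filter.1 ha
  exact Finset.mem_filter.2 ⟨Finset.mem_erase.2 ⟨fun e => b2 (e ▸ rfl), b1⟩,
    mul_ne_zero (sub_ne_zero.2 b2) (h3 a b1)⟩

theorem QB_thm (g : Gen V K) (q : QS g Λ) (hQ : StQ K Λ) : q.StQB := by
  refine ⟨fun A W h => ?_, fun Y E A N v _ _ _ hN hv hY _ hE => QB_key q E Y N hY fun u hu => ?_⟩
  swap
  · obtain ⟨f, f', h1, h2, h3⟩ := QB_split g N {v} hN (by simp) hu (by
      rw [Finset.mem_singleton]; exact ne_of_mem_of_not_mem hu hv)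
    refine ⟨f, f', fun y hy => ?_, fun y hy => ?_, h3⟩ <;>
      obtain ⟨c, rfl⟩ := Submodule.mem_span_singleton.1 (hE hy)
    · simp [q.hpr, h1 v]
    · simp [q.hpr, h2 v]
  have h1 := hQ.fin W (q.sp A)
  have h2 := QB_fin (K := K) q.ev A
  have h3 := hQ.rf W _ h.dimW h.dimY h.iota
  have h4 : ∀ B ⊆ A, finrank K (qp W (q.sp A)) + finrank K ((qs q.ev B).map (res W W)) ≤
      finrank K ↥(qp W (q.sp A) ⊔ qs q.ev A) := fun B hB =>
    finrank_layer _ _ _ _ le_sup_left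
      (le_sup_of_le_right (Submodule.span_mono fun _ ⟨i, hi, e⟩ => ⟨i, hB hi, e⟩))
      (le_trans (b := qp W ⊤) (Submodule.span_mono fun _ ⟨x, hx, y, _, e⟩ => ⟨x, hx, y, trivial, e⟩)
        (hQ.ker2 W W le_rfl))
  obtain ⟨z, hz⟩ := finrank_le_one_iff.1 h.iota
  have h5 : ∀ f : Vec K, f ⬝ᵥ q.pr z = 0 → ∀ y ∈ W ⊓ q.sp A, f ⬝ᵥ q.pr y = 0 := fun f hf y hy => by
    obtain ⟨c, hc⟩ := hz ⟨y, hy⟩
    rw [show y = c • (z : Λ) from (congrArg Subtype.val hc).symm, map_smul, dotProduct_smul, hf,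
      smul_zero]
  by_cases h6 : q.pr z = 0
  · have h7 := QB_key q W _ A le_rfl fun u hu => by
      obtain ⟨f, f', -, -, h7⟩ := QB_split g A ∅ h.card.le (by simp) hu (by simp)
      exact ⟨f, f', h5 f (by simp [h6]), h5 f' (by simp [h6]), h7⟩
    have := h4 A subset_rfl
    have := h.card
    omega
  obtain ⟨B, hB, h7, c, h8, h9⟩ := QB_coord g h.card h6
  have h10 : ∀ b ∈ B, ∀ b₁ ∈ B, c b₁ ≠ 0 → ∃ f : Vec K, f ⬝ᵥ q.pr z = 0 ∧
      ∀ x ∈ B, x ≠ b₁ → f ⬝ᵥ g.p x = if x = b then 1 else 0 := fun b hb b₁ hb₁ hc => by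
    obtain ⟨f, hf⟩ := g.exists_cov B h7.le fun x =>
      (if x = b then 1 else 0) - if x = b₁ then c b / c b₁ else 0
    refine ⟨f, ?_, fun x hx e => by rw [hf x hx, if_neg e, sub_zero]⟩
    rw [h8, dotProduct_sum, Finset.sum_congr rfl fun x hx => by rw [dotProduct_smul, hf x hx]]
    simp [mul_sub, hb, hb₁, mul_div_cancel₀ _ hc]
  have h11 := QB_key q W (q.sp A) B (Submodule.span_mono (Set.image_mono hB)) fun b hb => by
    obtain ⟨b₁, m1, b₂, m2, e⟩ := Finset.one_lt_card.1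
      (show 1 < ((B.filter fun b => c b ≠ 0).erase b).card by
        have := Finset.pred_card_le_card_erase (s := B.filter fun b => c b ≠ 0) (a := b)
        omega)
    simp only [Finset.mem_erase, Finset.mem_filter] at m1 m2
    obtain ⟨f, f1, f2⟩ := h10 b hb b₁ m1.2.1 m1.2.2
    obtain ⟨f', f1', f2'⟩ := h10 b hb b₂ m2.2.1 m2.2.2
    refine ⟨f, f', h5 f f1, h5 f' f1', fun x hx => ?_⟩
    by_cases e1 : x = b
    · rw [f2 x hx (e1 ▸ m1.1.symm), f2' x hx (e1 ▸ m2.1.symm), if_pos e1, mul_one]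
    · by_cases e2 : x = b₁
      · rw [f2' x hx (e2 ▸ e), if_neg e1, mul_zero]
      · rw [f2 x hx e2, if_neg e1, zero_mul]
  have h12 : 0 < finrank K ↥(W ⊓ q.sp A) :=
    finrank_pos_iff_exists_ne_zero.2 ⟨z, fun e => h6 (by simp [e])⟩
  have := h4 B hB
  omega

end Pool.Agent.Dress
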