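import Pool.Agent.Lib.MP_d237f6_co.DR.Gam

/-! The rank bound: an independent set of edges on `n ≥ 3` points has at most `3 n - 6` edges. -/

namespace Pool.Agent.Dress

open Matrix Module Classical

variable {K : Type} [Field K] [CharZero K] {V : Type} [DecidableEq V] [Fintype V]

/-- the general skew matrix -/
def RB_sk (c : Fin 6 → K) : Mat K :=
  !![0, c 0, c 1, c 2; -c 0, 0, c 3, c 4; -c 1, -c 3, 0, c 5; -c 2, -c 4, -c 5, 0]

omit [CharZero K] in
theorem RB_sk_skew (c : Fin 6 → K) : (RB_sk c)ᵀ = -RB_sk c := by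
  ext i j
  fin_cases i <;> fin_cases j <;> simp [RB_sk]

omit [CharZero K] in
theorem RB_sk_lin : IsLinearMap K (RB_sk (K := K)) :=
  ⟨fun a b => by
    ext i j
    fin_cases i <;> fin_cases j <;> simp [RB_sk, add_comm],
   fun r a => by
    ext i j
    fin_cases i <;> fin_cases j <;> simp [RB_sk]⟩

omit [CharZero K] in
theorem RB_sk_inj {c : Fin 6 → K} (h : RB_sk c = 0) : c = 0 := by
  have h0 := congrFun (congrFun h 0) 1
  have h1 := congrFun (congrFun h 0) 2
  have h2 := congrFun (congrFun h 0) 3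
  have h3 := congrFun (congrFun h 1) 2
  have h4 := congrFun (congrFun h 1) 3
  have h5 := congrFun (congrFun h 2) 3
  simp [RB_sk] at h0 h1 h2 h3 h4 h5
  funext i
  fin_cases i <;> simp [h0, h1, h2, h3, h4, h5]

theorem RB_thm (g : Gen V K) : g.StRB := by
  intro E Z hZ hE hind
  let P : Z → Vec K := fun z => g.p z
  have ho : ∀ e : Sym2 V, s(e.out.1, e.out.2) = e := fun e => Quot.out_eq e
  have m1 : ∀ e : E, e.1.out.1 ∈ Z := fun e => (hE e.1 e.2).2 _ (Sym2.out_fst_mem _)
  have m2 : ∀ e : E, e.1.out.2 ∈ Z := fun e => (hE e.1 e.2).2 _ (Sym2.out_snd_mem _)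
  have mne : ∀ e : E, e.1.out.1 ≠ e.1.out.2 := fun e h =>
    (hE e.1 e.2).1 (by rw [← ho e.1]; exact Sym2.mk_isDiag_iff.2 h)
  let Φ : (Z → Vec K) →ₗ[K] (E → K) × (Z → K) :=
    LinearMap.prod (LinearMap.pi fun e : E => dlL P ⟨_, m1 e⟩ ⟨_, m2 e⟩)
      (LinearMap.pi fun z : Z => dlL P z z)
  have hsurj : Function.Surjective Φ := by
    rintro ⟨a, b⟩
    let ψ : V → V → K := fun u v =>
      if u = v then (if h : u ∈ Z then b ⟨u, h⟩ else 0)
      else (if h : s(u, v) ∈ E then a ⟨_, h⟩ else 0)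
    have hψ : ∀ u v, ψ u v = ψ v u := by
      intro u v
      by_cases e : u = v
      · subst e; rfl
      · simp only [ψ, if_neg e, if_neg (Ne.symm e), Sym2.eq_swap (a := v) (b := u)]
    obtain ⟨U, hU⟩ := res1 g.p (fun u v => s(u, v) ∈ E ∨ u = v) ψ hψ (by
      intro Ω hs hsupp hrow
      have h0 : Ω = 0 := hind Ω ⟨hs, hrow⟩ (by
        intro u v huv h
        rcases hsupp u v h with (h | h) | (h | h)
        · exact Or.inl h
        · exact absurd h huv
        · exact Or.inr h
        · exact absurd h.symm huv)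
      simp [h0])
    refine ⟨fun z => U z, Prod.ext (funext fun e => ?_) (funext fun z => ?_)⟩
    · have he : s(e.1.out.1, e.1.out.2) ∈ E := by rw [ho]; exact e.2
      have := hU e.1.out.1 e.1.out.2 (Or.inl he)
      simp only [ψ, if_neg (mne e), dif_pos he] at this
      have e2 : (⟨_, he⟩ : E) = e := Subtype.ext (ho _)
      rw [e2] at this
      exact this
    · have := hU z.1 z.1 (Or.inr rfl)
      simp only [ψ, if_true, dif_pos z.2] at this
      exact this
  let T : (Fin 6 → K) →ₗ[K] (Z → Vec K) :=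
    LinearMap.pi fun z : Z =>
      ((Matrix.mulVecBilin K K).flip (P z)).comp (RB_sk_lin.mk' _)
  have hT : ∀ c, T c = fun z => RB_sk c *ᵥ P z := fun c => rfl
  have hTinj : Function.Injective T := by
    rw [injective_iff_map_eq_zero]
    intro c hc
    obtain ⟨x, hx, y, hy, z, hz, hxy, hxz, hyz⟩ := Finset.two_lt_card.1 (show 2 < Z.card by omega)
    rw [hT] at hc
    exact RB_sk_inj (skew_zero (RB_sk_skew c) (g.li3 hxy hxz hyz) (congrFun hc ⟨x, hx⟩)
      (congrFun hc ⟨y, hy⟩) (congrFun hc ⟨z, hz⟩))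
  have hle : LinearMap.range T ≤ LinearMap.ker Φ := by
    rintro _ ⟨c, rfl⟩
    rw [LinearMap.mem_ker, hT]
    exact Prod.ext (funext fun e => dl_skew P (RB_sk_skew c) _ _)
      (funext fun z => dl_skew P (RB_sk_skew c) _ _)
  have r1 := Submodule.finrank_mono hle
  rw [LinearMap.finrank_range_of_inj hTinj] at r1
  have r2 := LinearMap.finrank_range_add_finrank_ker Φ
  rw [LinearMap.range_eq_top.2 hsurj, finrank_top] at r2
  simp only [finrank_prod, finrank_pi_fintype, finrank_self, Finset.sum_const, Finset.card_univ,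
    Fintype.card_coe, Fintype.card_fin, smul_eq_mul, mul_one] at r1 r2
  omega

end Pool.Agent.Dress
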