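import Pool.Agent.Lib.MP_d237f6_co.DR.Gam
import Pool.Agent.Lib.MP_d237f6_co.DR.Ctx1

/-! A vertex of degree five has at least four neighbours of degree at least seven. -/

set_option autoImplicit false

namespace Pool.Agent.Dress

open Matrix Module Classical

variable {K : Type} [Field K] [CharZero K] {V : Type} [DecidableEq V] [Fintype V]

theorem S5_swap {g : Gen V K} {G : V → V → Prop} {ω : V → V → K} {w a c : V} {T : Finset V}
    {ρ : K} (h : g.Set1 G ω w a c T ρ) : g.Set1 G ω w c a T ρ⁻¹ := by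
  have t := h.t1
  have r := t.rho
  refine ⟨h.ctx, h.bad, ⟨t.card, t.ac.symm, t.cT, t.aT, t.wc, t.wa, t.wT, g.link_symm t.lac, t.lT,
    inv_ne_zero r, fun U hU x hx => ?_, fun φ h1 h2 => t.off φ h1 ?_, fun θ h1 h2 => ?_⟩,
    by rw [h.nbw, Finset.insert_comm]⟩
  · have e := t.rel U hU x hx
    field_simp
    linear_combination e
  · rw [dotProduct_add, dotProduct_smul, smul_eq_mul] at h2 ⊢
    field_simp at h2
    linear_combination h2
  · obtain ⟨U, hU, h0, hT, hc, ha⟩ := t.onto (-(ρ⁻¹ • θ)) (by simp [h2]) (by simp [h1])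
    refine ⟨U, hU, h0, hT, ?_, hc⟩
    rw [ha, smul_neg, neg_neg, smul_smul, mul_inv_cancel₀ r, one_smul]

theorem S5_count {N : Finset V} (hN : N.card = 5) (P : V → Prop) [DecidablePred P]
    (h : ∀ x ∈ N, ∀ y ∈ N, ¬ P x → ¬ P y → x = y) : 4 ≤ (N.filter P).card := by
  have e := Finset.card_filter_add_card_filter_not (s := N) P
  have : (N.filter (fun x => ¬ P x)).card ≤ 1 := Finset.card_le_one.2 fun x hx y hy =>
    h x (Finset.mem_filter.1 hx).1 y (Finset.mem_filter.1 hy).1 (Finset.mem_filter.1 hx).2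
      (Finset.mem_filter.1 hy).2
  omega

theorem S5_thm (g : Gen V K) (h1 : g.StCl) (h2 : g.StN2) (h3 : g.StP3) (h4 : g.StP4)
    (h5 : g.StP5) (h6 : g.StA5) (h7 : g.StA6) (h8 : g.StB5) (h9 : g.StB6) : g.StS5 := by
  intro G ω w hc hb hw
  have d5 := fun v => hc.d5 ω v hb.1
  refine S5_count hw _ fun x hx y hy px py => by_contra fun hxy => ?_
  rcases h1 G ω w hc hb hw with s | ⟨a, c, T, ρ, s⟩
  · have ex := (h2 G ω w x s hx).1
    have ey := (h2 G ω w y s hy).1
    obtain ⟨F, B, N, N', c, c', L, β, β', hP⟩ := h3 G ω w x y s hx hy hxy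
      (by have := d5 x; omega) (by have := d5 y; omega)
    exact h4 hc.ih _ _ _ _ _ _ _ _ _ _ _ hP (h5 hc.ih _ _ _ _ _ _ _ _ _ _ _ hP)
  · have key : ∀ u ∈ nb ω w, ¬ 7 ≤ (nb ω u).card → u ∈ T ∧ (nb ω u).card = 6 := fun u hu pu => by
      have du := d5 u
      rw [s.nbw, Finset.mem_insert, Finset.mem_insert] at hu
      rcases hu with rfl | rfl | hu
      · have := h6 _ _ _ _ _ _ _ s
        have := h7 _ _ _ _ _ _ _ s
        omega
      · have := h6 _ _ _ _ _ _ _ (S5_swap s)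
        have := h7 _ _ _ _ _ _ _ (S5_swap s)
        omega
      · have := h8 _ _ _ _ _ _ _ s u hu
        exact ⟨hu, by omega⟩
    exact h9 _ _ _ _ _ _ _ s x (key x hx px).1 y (key y hy py).1 hxy (key x hx px).2 (key y hy py).2

end Pool.Agent.Dress
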