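import Pool.Agent.Lib.MP_d237f6_co.DR.S5
import Pool.Agent.Lib.MP_d237f6_co.DR.K1
import Pool.Agent.Lib.MP_d237f6_co.DR.Ph1

/-! A vertex of degree seven has at most four neighbours of degree five. -/

set_option autoImplicit false

namespace Pool.Agent.Dress

open Matrix Module Classical

variable {K : Type} [Field K] [CharZero K] {V : Type} [DecidableEq V] [Fintype V]

theorem S7_bil {Λ : Type} [AddCommGroup Λ] [Module K Λ] {T : Set Λ}
    {S : Submodule K (Dual K Λ → K)} (h : ∀ x ∈ T, ∀ y ∈ T, qm x y ∈ S) {x y : Λ}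
    (hx : x ∈ Submodule.span K T) (hy : y ∈ Submodule.span K T) : qm x y ∈ S := by
  have one : ∀ (z : Λ), (∀ y ∈ T, qm z y ∈ S) → ∀ y ∈ Submodule.span K T, qm z y ∈ S :=
    fun z hz y hy => by
      induction hy using Submodule.span_induction with
      | mem y hy => exact hz y hy
      | zero =>
        have : qm (K := K) z 0 = 0 := by ext f; simp [qm]
        rw [this]; exact S.zero_mem
      | add y y' _ _ h1 h2 =>
        have : qm (K := K) z (y + y') = qm z y + qm z y' := by ext f; simp [qm, mul_add]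
        rw [this]; exact S.add_mem h1 h2
      | smul c y _ h1 =>
        have : qm (K := K) z (c • y) = c • qm z y := by ext f; simp [qm]; ring
        rw [this]; exact S.smul_mem c h1
  have sw : ∀ x y : Λ, qm (K := K) x y = qm y x := fun x y => funext fun _ => mul_comm _ _
  exact one x (fun y hy => sw y x ▸ one y (h y hy) x hx) y hy

theorem S7_core (g : Gen V K) (hA : g.StKhA) (hB : g.StKhB) (hW : ∀ ω D, (g.qh ω D).StKW)
    (p1 : ∀ ω D, (g.qh ω D).StPh1) (p2 : ∀ ω D, (g.qh ω D).StPh2)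
    (p3 : ∀ ω D, (g.qh ω D).StPh3) (p4 : ∀ ω D, (g.qh ω D).StPh4)
    {G : V → V → Prop} {ω : V → V → K} {v : V} {D : Finset V} (hD : g.SetD G ω D)
    (hs : g.Stress ω) (hDv : D ⊆ nb ω v) (h7 : (nb ω v).card = 7)
    (lk : ∀ x, g.Link G v x → x = v ∨ x ∈ nb ω v)
    (hc : D.card = 5 ∨ (D.card = 4 ∧ g.Clq G (insert v (nb ω v \ D)))) : False := by
  obtain ⟨A1, A2, A3⟩ := hA G ω D hD
  obtain ⟨B1, B2, B3, -, B5⟩ := hB G ω D hD
  obtain ⟨j0, hj0⟩ := hD.1
  have vn : v ∉ nb ω v := Gen.not_mem_nb ω v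
  have vD : v ∉ D := fun h => vn (hDv h)
  have vj : ∀ j ∈ D, v ∈ nb ω j := fun j hj => g.nb_symm hs (hDv hj)
  have aD : ∀ j ∈ D, ∀ a ∈ nb ω j, a ∉ D := fun j hj a ha h => hD.2.2 j hj a h ha
  have cN : (nb ω v \ D).card + D.card = 7 := by
    rw [Finset.card_sdiff_add_card_eq_card hDv, h7]
  have vN : v ∉ nb ω v \ D := fun h => vn (Finset.mem_sdiff.1 h).1
  obtain ⟨E, dE, sE, wE, rE⟩ := B5 v j0 hj0 (vj j0 hj0)
  have wE' : ∀ j ∈ D, g.Wh ω D j ≤ E := fun j hj => wE j (Finset.mem_inter.2 ⟨hDv hj, hj⟩)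
  have cls : ∀ j ∈ D, (g.qh ω D).Cls (nb ω j) (g.Wh ω D j) := fun j hj =>
    ⟨(hD.2.1 j hj).deg, (B1 j hj).1, (B1 j hj).2.1, A3 j hj, (B1 j hj).2.2,
      K1_qs_le fun a ha => B2 a a (aD j hj a ha) (aD j hj a ha) (g.link_refl G a)⟩
  have mem : ∀ j ∈ D, ∀ a ∈ nb ω j, qm ((g.qh ω D).ev v) ((g.qh ω D).ev a) ∈ (g.qh ω D).R →
      a ∈ insert v (nb ω v \ D) := fun j hj a ha h => by
    rcases lk a (A2 v a vD (aD j hj a ha) h) with e | e
    · exact Finset.mem_insert.2 (Or.inl e)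
    · exact Finset.mem_insert_of_mem (Finset.mem_sdiff.2 ⟨e, aD j hj a ha⟩)
  have c4 : 4 ≤ D.card := by omega
  by_cases hall : ∀ j ∈ D, g.Wh ω D j = g.Wh ω D j0
  · have bd := A1 D (subset_refl _) hD.1 (g.Wh ω D j0 ⊔ (g.qh ω D).sp (nb ω j0))
      fun j hj => (hall j hj).le.trans le_sup_left
    obtain ⟨k1, k2⟩ := hW ω D _ _ (cls j0 hj0)
    rcases hc with e | ⟨e, hq⟩
    · rw [e] at bd; exact k1 bd
    · rw [e] at bd
      have cX : (insert v (nb ω v \ D)).card = 4 := by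
        rw [Finset.card_insert_of_notMem vN]; omega
      have d1 := Ph1_dim (g.qh ω D) _ cX.le
      have d2 := Submodule.finrank_sup_add_finrank_inf_eq (g.Wh ω D j0)
        ((g.qh ω D).sp (insert v (nb ω v \ D)))
      have d3 := Submodule.finrank_mono (sup_le (wE' j0 hj0) sE)
      have d4 := (B1 j0 hj0).1
      have ne : g.Wh ω D j0 ⊓ (g.qh ω D).sp (insert v (nb ω v \ D)) ≠ ⊥ := fun h => by
        rw [h, finrank_bot] at d2; omega
      obtain ⟨x, hx, x0⟩ := Submodule.exists_mem_ne_zero_of_ne_bot ne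
      have xD : ∀ a ∈ insert v (nb ω v \ D), a ∉ D := fun a ha => by
        rcases Finset.mem_insert.1 ha with rfl | ha
        exacts [vD, (Finset.mem_sdiff.1 ha).2]
      refine k2 x hx.1 x0 (S7_bil ?_ hx.2 hx.2) bd
      rintro _ ⟨a, ha, rfl⟩ _ ⟨b, hb, rfl⟩
      exact B2 a b (xD a ha) (xD b hb) (hq a ha b hb)
  · have vW : ∀ j ∈ D, (g.qh ω D).ev v ∉ g.Wh ω D j := fun j hj h => by
      have := Finset.card_le_card (s := nb ω j) (t := insert v (nb ω v \ D)) fun a ha =>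
        mem j hj a ha ((B1 j hj).2.2 (K1_qm_mem h (K1_ev_mem _ ha)))
      rw [Finset.card_insert_of_notMem vN, (hD.2.1 j hj).deg] at this
      omega
    have phi : ∀ j ∈ D, ∀ j' ∈ D, g.Wh ω D j ≠ g.Wh ω D j' → (g.qh ω D).Phi v (nb ω v \ D)
        (nb ω j) (nb ω j') E (g.Wh ω D j) (g.Wh ω D j') := fun j hj j' hj' ne => by
      have jj : j ≠ j' := fun e => ne (by rw [e])
      refine ⟨cls j hj, cls j' hj', vj j hj, vj j' hj', vN, by omega, h7 ▸ dE,
        sE (K1_ev_mem _ (Finset.mem_insert_self _ _)),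
        K1_sp_le _ fun a ha => sE (K1_ev_mem _ (Finset.mem_insert_of_mem ha)), wE' j hj, wE' j' hj',
        rE, K1_qs_le fun a ha => B2 a a (Finset.mem_sdiff.1 ha).2 (Finset.mem_sdiff.1 ha).2
          (g.link_refl G a), vW j hj, vW j' hj',
        fun a ha h => sE (K1_ev_mem _ (mem j hj a ha h)),
        fun a ha h => sE (K1_ev_mem _ (mem j' hj' a ha h)), ne, fun e => ne (B3 j hj j' hj' e),
        fun U hU => ?_, fun U h1 h2 => ?_⟩
      · have := A1 D (subset_refl _) hD.1 U fun j hj => (wE' j hj).trans hU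
        rwa [show 7 + D.card = 14 - (nb ω v \ D).card by omega] at this
      · have := A1 {j, j'} (Finset.insert_subset hj (Finset.singleton_subset_iff.2 hj'))
          (Finset.insert_nonempty _ _) U fun i hi => by
            rcases Finset.mem_insert.1 hi with rfl | hi
            · exact h1
            · rw [Finset.mem_singleton.1 hi]; exact h2
        rwa [Finset.card_pair jj] at this
    have two : ∀ j ∈ D, ∀ j' ∈ D, g.Wh ω D j ≠ g.Wh ω D j' →
        finrank K ↥(E ⊓ (g.qh ω D).sp (nb ω j)) ≤ 1 := fun j hj j' hj' ne => by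
      have f := phi j hj j' hj' ne
      have := (p1 ω D _ _ _ _ _ _ _ f).1
      by_contra hh
      have e : finrank K ↥(E ⊓ (g.qh ω D).sp (nb ω j)) = 2 := by omega
      exact p2 ω D _ _ _ _ _ _ _ f e fun h => p3 ω D _ _ _ _ _ _ _ f e h
    push Not at hall
    obtain ⟨j, hj, ne⟩ := hall
    exact p4 ω D _ _ _ _ _ _ _ (phi j hj j0 hj0 ne) (two j hj j0 hj0 ne) (two j0 hj0 j hj ne.symm)

theorem S7_thm (g : Gen V K) (h1 : g.StCl) (h2 : g.StCR) (h3 : g.StB5) (h4 : g.StA5)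
    (h5 : g.StN2) (hA : g.StKhA) (hB : g.StKhB) (hW : ∀ ω D, (g.qh ω D).StKW)
    (p1 : ∀ ω D, (g.qh ω D).StPh1) (p2 : ∀ ω D, (g.qh ω D).StPh2)
    (p3 : ∀ ω D, (g.qh ω D).StPh3) (p4 : ∀ ω D, (g.qh ω D).StPh4) : g.StS7 := by
  intro G ω v hc hb h7
  by_contra hh
  have hs := hb.1.1
  have hl := hb.1.2.1
  have vn : v ∉ nb ω v := Gen.not_mem_nb ω v
  obtain ⟨D0, hD0⟩ : ∃ D0, D0 = (nb ω v).filter (fun u => (nb ω u).card = 5) := ⟨_, rfl⟩
  obtain ⟨R, hR⟩ : ∃ R, R = (nb ω v).filter (fun u => (nb ω u).card ≠ 5) := ⟨_, rfl⟩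
  have mD : ∀ u, u ∈ D0 ↔ u ∈ nb ω v ∧ (nb ω u).card = 5 := fun u => by rw [hD0, Finset.mem_filter]
  have mR : ∀ u, u ∈ R ↔ u ∈ nb ω v ∧ (nb ω u).card ≠ 5 := fun u => by rw [hR, Finset.mem_filter]
  have cDR : D0.card + R.card = 7 := by
    rw [hD0, hR, ← h7]; exact Finset.card_filter_add_card_filter_not _
  have c5 : 5 ≤ D0.card := by rw [hD0]; omega
  have ind : ∀ w u, (nb ω w).card = 5 → u ∈ nb ω w → (nb ω u).card ≠ 5 := fun w u hw hu => by
    rcases h1 G ω w hc hb hw with s | ⟨a, c, T, ρ, s⟩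
    · exact (h5 G ω w u s hu).1
    · rw [s.nbw, Finset.mem_insert, Finset.mem_insert] at hu
      rcases hu with rfl | rfl | hu
      exacts [h4 _ _ _ _ _ _ _ s, h4 _ _ _ _ _ _ _ (S5_swap s), h3 _ _ _ _ _ _ _ s u hu]
  obtain ⟨w0, hw0⟩ : D0.Nonempty := Finset.card_pos.1 (by omega)
  have lk : ∀ x, g.Link G v x → x = v ∨ x ∈ nb ω v := fun x hx => by
    by_contra hn
    rw [not_or] at hn
    have := hc.ng ω v w0 x hb.1 ((mD _).1 hw0).1 ((mD _).1 hw0).2 hn.1 hn.2 hx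
    rw [← hR] at this
    omega
  have vR : v ∉ R := fun h => vn ((mR _).1 h).1
  have typ : ∀ w ∈ D0, ¬ g.Set2 G ω w → R.card = 2 ∧ g.Clq G (insert w (insert v R)) :=
    fun w hw n2 => by
      obtain ⟨wv, w5⟩ := (mD _).1 hw
      have vw := g.nb_symm hs wv
      obtain ⟨a, c, T, ρ, s⟩ := (h1 G ω w hc hb w5).resolve_left n2
      have Tw : T ⊆ nb ω w := fun x hx => by
        rw [s.nbw]; exact Finset.mem_insert_of_mem (Finset.mem_insert_of_mem hx)
      rw [s.nbw, Finset.mem_insert, Finset.mem_insert] at vw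
      rcases vw with rfl | rfl | vT
      · exact absurd (h2 _ _ _ _ _ _ _ s h7) hh
      · exact absurd (h2 _ _ _ _ _ _ _ (S5_swap s) h7) hh
      · have sub : T ⊆ insert v R := fun x hx => by
          rcases lk x (s.t1.lT v vT x hx) with e | e
          · exact Finset.mem_insert.2 (Or.inl e)
          · exact Finset.mem_insert_of_mem ((mR _).2 ⟨e, ind w x w5 (Tw hx)⟩)
        have cT := s.t1.card
        have c1 := Finset.card_le_card sub
        have c2 := Finset.card_insert_of_notMem vR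
        have e : T = insert v R := Finset.eq_of_subset_of_card_le sub (by omega)
        exact ⟨by omega, e ▸ g.clq_star hl Tw s.t1.lT⟩
  have mg : ∀ w ∈ D0, ¬ g.Set2 G ω w → ∀ w' ∈ D0, ¬ g.Set2 G ω w' →
      g.Clq G (insert w (insert v R) ∪ insert w' (insert v R)) := fun w hw n w' hw' n' => by
    refine g.merge (typ w hw n).2 (typ w' hw' n').2 ?_
    have := Finset.card_le_card (s := insert v R)
      (t := insert w (insert v R) ∩ insert w' (insert v R))
      (Finset.subset_inter (Finset.subset_insert _ _) (Finset.subset_insert _ _))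
    rw [Finset.card_insert_of_notMem vR, (typ w hw n).1] at this
    exact this
  have setD : ∀ D ⊆ D0, 4 ≤ D.card → (∀ w ∈ D, g.Set2 G ω w) → g.SetD G ω D := fun D hD c s =>
    ⟨Finset.card_pos.1 (by omega), s, fun w hw w' hw' h =>
      ind w w' ((mD _).1 (hD hw)).2 h ((mD _).1 (hD hw')).2⟩
  have D0v : D0 ⊆ nb ω v := fun u hu => ((mD u).1 hu).1
  have split : ∀ u ∈ nb ω v, u ∈ D0 ∨ u ∈ R := fun u hu => by
    rw [mD, mR]; tauto
  by_cases a2 : ∀ w ∈ D0, g.Set2 G ω w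
  · obtain ⟨D, hD, cD⟩ := Finset.exists_subset_card_eq c5
    exact S7_core g hA hB hW p1 p2 p3 p4 (setD D hD (by omega) fun w hw => a2 w (hD hw)) hs
      (hD.trans D0v) h7 lk (Or.inl cD)
  push Not at a2
  obtain ⟨w1, hw1, n1⟩ := a2
  have cR := (typ w1 hw1 n1).1
  by_cases a1 : ∀ w ∈ D0.erase w1, g.Set2 G ω w
  · have cD : (D0.erase w1).card = 4 := by rw [Finset.card_erase_of_mem hw1]; omega
    refine S7_core g hA hB hW p1 p2 p3 p4 (setD _ (Finset.erase_subset _ _) cD.ge a1) hs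
      ((Finset.erase_subset _ _).trans D0v) h7 lk (Or.inr ⟨cD, g.clq_sub (typ w1 hw1 n1).2 ?_⟩)
    intro x hx
    have := split x
    simp only [Finset.mem_insert, Finset.mem_sdiff, Finset.mem_erase] at hx ⊢
    tauto
  push Not at a1
  obtain ⟨w2, hw2', n2⟩ := a1
  obtain ⟨w21, hw2⟩ := Finset.mem_erase.1 hw2'
  by_cases a0 : ∀ w ∈ D0, ¬ g.Set2 G ω w
  · have cov : ∀ x ∈ insert v (nb ω v), ∃ w ∈ D0, x ∈ insert w (insert v R) := fun x hx => by
      rcases Finset.mem_insert.1 hx with e | e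
      · exact ⟨w1, hw1, by simp [e]⟩
      · rcases split x e with e | e
        · exact ⟨x, e, by simp⟩
        · exact ⟨w1, hw1, by simp [e]⟩
    refine hc.cl ω v hb.1 fun x hx y hy => ?_
    obtain ⟨w, hw, xw⟩ := cov x hx
    obtain ⟨w', hw', yw⟩ := cov y hy
    exact mg w hw (a0 w hw) w' hw' (a0 w' hw') x (Finset.mem_union_left _ xw) y
      (Finset.mem_union_right _ yw)
  push Not at a0
  obtain ⟨w', hw', s⟩ := a0
  have DR : ∀ u ∈ D0, u ∉ R := fun u hu h => ((mR u).1 h).2 ((mD u).1 hu).2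
  obtain ⟨d, hd⟩ : R.Nonempty := Finset.card_pos.1 (by omega)
  have Sv : insert w2 (insert w1 R) ⊆ nb ω v := Finset.insert_subset (D0v hw2)
    (Finset.insert_subset (D0v hw1) fun u hu => ((mR u).1 hu).1)
  have cS : (insert w2 (insert w1 R)).card = 4 := by
    rw [Finset.card_insert_of_notMem (by simp [w21, DR w2 hw2]),
      Finset.card_insert_of_notMem (DR w1 hw1), cR]
  have qS : g.Clq G (insert v (insert w2 (insert w1 R))) :=
    g.clq_sub (mg w1 hw1 n1 w2 hw2 n2) fun x hx => by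
      simp only [Finset.mem_insert, Finset.mem_union] at hx ⊢
      tauto
  have dS : d ∈ insert w2 (insert w1 R) := by simp [hd]
  obtain ⟨ω', b', r1, r2⟩ := hc.rd ω v _ d hb.1 Sv cS qS dS
  have wS : w' ∉ insert w2 (insert w1 R) := by
    simp only [Finset.mem_insert, not_or]
    exact ⟨fun e => n2 (e ▸ s), fun e => n1 (e ▸ s), DR w' hw'⟩
  have wv : w' ≠ v := fun e => vn (e ▸ D0v hw')
  have e1 : nb ω' w' = nb ω w' := Finset.eq_of_subset_of_card_le
    (r2 w' fun h => (Finset.mem_insert.1 h).elim wv wS) (s.deg ▸ hc.d5 ω' w' b'.1)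
  have s' : g.Set2 G ω' w' := ⟨hc, b', e1 ▸ s.deg, e1 ▸ s.t2⟩
  obtain ⟨q1, q2⟩ := h5 G ω' w' v s' (e1 ▸ g.nb_symm hs (D0v hw'))
  have c6 : ((nb ω v).erase d).card = 6 := by rw [Finset.card_erase_of_mem (Sv dS), h7]
  have c7 := Finset.card_le_card r1
  have c8 := hc.d5 ω' v b'.1
  have e2 : nb ω' v = (nb ω v).erase d := Finset.eq_of_subset_of_card_le r1 (by omega)
  refine (q2 (by omega)).2 ((insert w2 (insert w1 R)).erase d) (fun x hx => ?_)
    (by rw [Finset.card_erase_of_mem dS, cS])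
    (g.clq_sub qS ((Finset.erase_subset _ _).trans (Finset.subset_insert _ _)))
  obtain ⟨xd, xS⟩ := Finset.mem_erase.1 hx
  rw [e2]
  exact Finset.mem_erase.2 ⟨fun e => wS (e ▸ xS), Finset.mem_erase.2 ⟨xd, Sv xS⟩⟩

end Pool.Agent.Dress
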