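import Pool.Agent.Lib.MP_d237f6_co.DR.Gam

/-! Two nonzero rows of the stresses of a turning rod at a vertex of small degree. -/

set_option autoImplicit false
set_option linter.unusedSectionVars false

namespace Pool.Agent.Dress

open Matrix Module Classical

variable {K : Type} [Field K] [CharZero K] {V : Type} [DecidableEq V] [Fintype V]

section Tools

variable {g : Gen V K} {G : V → V → Prop} {ω : V → V → K} {w a c : V} {T : Finset V} {ρ : K}

theorem TR_deg (h : g.Set1 G ω w a c T ρ) : (nb ω w).card = 5 := by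
  rw [h.nbw, Finset.card_insert_of_notMem (by simp [h.t1.ac, h.t1.aT]),
    Finset.card_insert_of_notMem h.t1.cT, h.t1.card]

theorem TR_flex (h : g.Set1 G ω w a c T ρ) :
    g.flex (del (adj ω) w) = g.flex (del (g.Link G) w) :=
  h.ctx.gw ω w h.bad.1 (TR_deg h)

theorem TR_rel (h : g.Set1 G ω w a c T ρ) {U : V → Vec K} (hU : U ∈ g.flex (del (adj ω) w))
    {x : V} (hx : x ∈ T) : dl g.p U a x + ρ * dl g.p U c x = 0 :=
  h.t1.rel U (TR_flex h ▸ hU) x hx

theorem TR_ax (h : g.Set1 G ω w a c T ρ) {x : V} (hx : x ∈ T) : a ≠ x :=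
  fun e => h.t1.aT (e ▸ hx)

theorem TR_cx (h : g.Set1 G ω w a c T ρ) {x : V} (hx : x ∈ T) : c ≠ x :=
  fun e => h.t1.cT (e ▸ hx)

theorem TR_wx (h : g.Set1 G ω w a c T ρ) {x : V} (hx : x ∈ T) : w ≠ x :=
  fun e => h.t1.wT (e ▸ hx)

/-- a flex turning the rod with prescribed velocity -/
theorem TR_onto (h : g.Set1 G ω w a c T ρ) {θ : Vec K} (h1 : θ ⬝ᵥ g.p a = 0)
    (h2 : θ ⬝ᵥ g.p c = 0) : ∃ U ∈ g.flex (del (adj ω) w), U w = 0 ∧ (∀ x ∈ T, U x = 0) ∧
      U c = θ ∧ U a = -(ρ • θ) ∧ ∀ x ∈ T, dl g.p U c x = θ ⬝ᵥ g.p x := by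
  obtain ⟨U, hU, b1, b2, b3, b4⟩ := h.t1.onto θ h1 h2
  exact ⟨U, (TR_flex h).symm ▸ hU, b1, b2, b3, b4, fun x hx => by simp [dl, b2 x hx, b3]⟩

theorem TR_onto2 (h : g.Set1 G ω w a c T ρ) {x x' : V} (hx : x ∈ T) (hx' : x' ∈ T)
    (hne : x ≠ x') (s t : K) :
    ∃ U ∈ g.flex (del (adj ω) w), dl g.p U c x = s ∧ dl g.p U c x' = t := by
  obtain ⟨θ, f1, f2, f3, f4⟩ := g.exists_cov4 h.t1.ac (TR_ax h hx) (TR_ax h hx') (TR_cx h hx)
    (TR_cx h hx') hne 0 0 s t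
  obtain ⟨U, hU, -, -, -, -, b⟩ := TR_onto h f1 f2
  exact ⟨U, hU, by rw [b x hx, f3], by rw [b x' hx', f4]⟩

theorem TR_other (h : g.Set1 G ω w a c T ρ) (x : V) : ∃ x' ∈ T, x ≠ x' := by
  obtain ⟨y, hy, hy'⟩ := Finset.exists_mem_ne (by rw [h.t1.card]; omega : 1 < T.card) x
  exact ⟨y, hy, hy'.symm⟩

theorem TR_onto1 (h : g.Set1 G ω w a c T ρ) {x : V} (hx : x ∈ T) :
    ∃ U ∈ g.flex (del (adj ω) w), dl g.p U c x = 1 := by
  obtain ⟨x', hx', hne⟩ := TR_other h x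
  obtain ⟨U, hU, b, -⟩ := TR_onto2 h hx hx' hne 1 0
  exact ⟨U, hU, b⟩

theorem TR_memT (h : g.Set1 G ω w a c T ρ) {x : V} (hx : x ∈ T) {U : V → Vec K}
    (hU : U ∈ g.flex (del (adj ω) w)) (h0 : dl g.p U c x = 0) :
    U ∈ g.flex (addT (del (adj ω) w) a c x) := by
  refine ⟨hU.1, fun u v e => ?_⟩
  rcases e with e | ⟨rfl, rfl⟩ | ⟨rfl, rfl⟩
  · exact hU.2 u v e
  · have := TR_rel h hU hx
    rwa [h0, mul_zero, add_zero] at this
  · exact h0

theorem TR_leT (g : Gen V K) (F : V → V → Prop) (a c x : V) :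
    g.flex (addT F a c x) ≤ g.flex F := g.flex_anti fun _ _ e => Or.inl (Or.inl e)

/-- linked after both additions means linked -/
theorem TR_link (h : g.Set1 G ω w a c T ρ) {x x' : V} (hx : x ∈ T) (hx' : x' ∈ T)
    (hne : x ≠ x') {u v : V} (h1 : g.Link (addT (del (adj ω) w) a c x) u v)
    (h2 : g.Link (addT (del (adj ω) w) a c x') u v) : g.Link (del (adj ω) w) u v := by
  intro U hU
  obtain ⟨U₀, hU₀, b1, b2⟩ := TR_onto2 h hx hx' hne 1 0
  have e1 := h1 _ (TR_memT h hx (Submodule.sub_mem _ hU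
    (Submodule.smul_mem _ (dl g.p U c x) hU₀)) (by rw [dl_sub, dl_smul, b1]; ring))
  rw [dl_sub, dl_smul, h2 _ (TR_memT h hx' hU₀ b2)] at e1
  linear_combination e1

theorem TR_GH (h : g.Set1 G ω w a c T ρ) : g.flex G ≤ g.flex (del (adj ω) w) := by
  rw [← h.ctx.span ω h.bad.1]
  exact g.flex_anti fun _ _ e => Or.inl e.1

/-- pairs linked in the context graph away from the deleted vertex -/
theorem TR_HG (h : g.Set1 G ω w a c T ρ) {u v : V} (hu : u ≠ w) (hv : v ≠ w)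
    (e : g.Link G u v) : g.Link (del (adj ω) w) u v := fun U hU =>
  (TR_flex h ▸ hU : U ∈ g.flex (del (g.Link G) w)).2 u v ⟨e, hu, hv⟩

theorem TR_gam (h : g.Set1 G ω w a c T ρ) {x : V} (hx : x ∈ T) :
    ∃ Γ, g.IsGam (del (adj ω) w) a c x ρ Γ := by
  obtain ⟨U, hU, b⟩ := TR_onto1 h hx
  refine g.exists_gam h.t1.ac (TR_ax h hx) (TR_cx h hx) (fun e => ?_) (fun e => ?_)
    (fun U hU => TR_rel h hU hx)
  · have := TR_rel h hU hx
    rw [e U hU, b, zero_add, mul_one] at this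
    exact h.t1.rho this
  · rw [e U hU] at b
    exact zero_ne_one b

theorem TR_isol (h : g.Set1 G ω w a c T ρ) {x : V} (hx : x ∈ T) :
    Isol (addT (del (adj ω) w) a c x) w := fun u =>
  ⟨fun e => e.elim (isol_del _ w u).1 fun e => e.elim (fun e => h.t1.wa e.1) fun e => h.t1.wc e.1,
    fun e => e.elim (isol_del _ w u).2 fun e =>
      e.elim (fun e => TR_wx h hx e.2) fun e => TR_wx h hx e.2⟩

theorem TR_KK (h : g.Set1 G ω w a c T ρ) {x : V} (hx : x ∈ T) {Γ : V → V → K}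
    (hΓ : g.IsGam (del (adj ω) w) a c x ρ Γ) : Γ ∈ g.KK (addT (del (adj ω) w) a c x) :=
  h.ctx.ih w _ Γ (TR_isol h hx) hΓ.1 hΓ.2.2.2

theorem TR_nb (h : g.Set1 G ω w a c T ρ) {x v : V} {Γ : V → V → K}
    (hΓ : g.IsGam (del (adj ω) w) a c x ρ Γ) (ha : v ≠ a) (hc : v ≠ c) (hx : v ≠ x) :
    nb Γ v ⊆ (nb ω v).erase w := by
  intro u hu
  rw [mem_nb] at hu
  rw [Finset.mem_erase, mem_nb]
  rcases hΓ.2.2.2 v u hu.1 hu.2 with (e | e | e) | (e | e | e)
  · exact ⟨e.2.2, e.1⟩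
  · exact absurd e.1 ha
  · exact absurd e.1 hc
  · exact ⟨e.2.1, hu.1, by rw [h.bad.1.1.1]; exact e.1.2⟩
  · exact absurd e.2 hx
  · exact absurd e.2 hx

theorem TR_row (h : g.Set1 G ω w a c T ρ) {x : V} (hx : x ∈ T) {Γ : V → V → K}
    (hΓ : g.IsGam (del (adj ω) w) a c x ρ Γ) {U : V → Vec K} (hU : U ∈ g.flex (del (adj ω) w))
    (v : V) : ∑ u, Γ v u • U u = -(dl g.p U c x • g.grad v ρ) :=
  g.gam_row h.t1.ac (TR_ax h hx) (TR_cx h hx) hΓ hU v

/-- a zero row forces a zero gradient -/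
theorem TR_grad0 (h : g.Set1 G ω w a c T ρ) {x : V} (hx : x ∈ T) {Γ : V → V → K}
    (hΓ : g.IsGam (del (adj ω) w) a c x ρ Γ) {v : V} (h0 : Γ v = 0) : g.grad v ρ = 0 := by
  obtain ⟨U, hU, b⟩ := TR_onto1 h hx
  have := TR_row h hx hΓ hU v
  simpa [h0, b] using this.symm

theorem TR_four {Γ : V → V → K} (hΓ : g.Stress Γ) {v : V} (h0 : Γ v ≠ 0) : 4 ≤ (nb Γ v).card := by
  by_contra hh
  exact h0 (g.row_zero hΓ v (by omega))

/-- a row with at most five neighbours spans a clique -/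
theorem TR_clq (hLC : g.StLC) {F : V → V → Prop} {Γ : V → V → K} (hΓ : Γ ∈ g.KK F) {v : V}
    (h0 : Γ v ≠ 0) (h5 : (nb Γ v).card ≤ 5) : g.Clq F (insert v (nb Γ v)) := by
  rcases hLC F Γ v hΓ h0 (by omega) with e | ⟨k, S₁, S₂, r₁, r₂, -, -, -, hd, c1, c2, s1, s2, -⟩
  · exact e
  · have := Finset.card_le_card (Finset.union_subset s1 s2)
    rw [Finset.card_union_of_disjoint hd] at this
    omega

/-- the row identity relative to a frame in which all but one neighbour are at rest -/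
theorem TR_one (h : g.Set1 G ω w a c T ρ) {x : V} (hx : x ∈ T) {Γ : V → V → K}
    (hΓ : g.IsGam (del (adj ω) w) a c x ρ Γ) {v s : V} {Δ : Finset V}
    (hn : nb Γ v ⊆ insert s Δ) {U : V → Vec K} (hU : U ∈ g.flex (del (adj ω) w)) {L : Mat K}
    (hL : Lᵀ = -L) (hs : s ∉ insert v Δ) (hUL : ∀ u ∈ insert v Δ, U u = L *ᵥ g.p u) :
    Γ v s • (U s - L *ᵥ g.p s) = -(dl g.p U c x • g.grad v ρ) := by
  have e := TR_row h hx hΓ (g.sub_skew_mem hU hL) v
  rw [dl_sub_skew _ _ hL, Finset.sum_eq_single s (fun u _ hu => ?_) (by simp)] at e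
  · exact e
  · by_cases hm : u ∈ insert v Δ
    · simp [hUL u hm]
    · have : Γ v u = 0 := by
        by_contra hh
        rw [Finset.mem_insert, not_or] at hm
        rcases Finset.mem_insert.1 (hn (mem_nb.2 ⟨Ne.symm hm.1, hh⟩)) with e' | e'
        · exact hu e'
        · exact hm.2 e'
      simp [this]

end Tools

theorem TR_sets {N S S' : Finset V} (h1 : S ⊆ N) (h2 : S' ⊆ N) (hN : N.card ≤ 5)
    (c1 : 4 ≤ S.card) (c2 : 4 ≤ S'.card) (c3 : (S ∩ S').card ≤ 3) :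
    ∃ s s' : V, (S ∩ S').card = 3 ∧ s ≠ s' ∧ s ∉ S ∩ S' ∧ s' ∉ S ∩ S' ∧
      N = insert s (insert s' (S ∩ S')) ∧ S = insert s (S ∩ S') ∧ S' = insert s' (S ∩ S') := by
  have e1 := Finset.card_union_add_card_inter S S'
  have e2 := Finset.card_le_card (Finset.union_subset h1 h2)
  have e3 := Finset.card_sdiff_add_card_inter S S'
  have e4 := Finset.card_sdiff_add_card_inter S' S
  rw [Finset.inter_comm S' S] at e4
  obtain ⟨s, hs⟩ := Finset.card_eq_one.1 (by omega : (S \ S').card = 1)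
  obtain ⟨s', hs'⟩ := Finset.card_eq_one.1 (by omega : (S' \ S).card = 1)
  have m1 : ∀ u, u ∈ S ∧ u ∉ S' ↔ u = s := fun u => by
    rw [← Finset.mem_sdiff, hs, Finset.mem_singleton]
  have m2 : ∀ u, u ∈ S' ∧ u ∉ S ↔ u = s' := fun u => by
    rw [← Finset.mem_sdiff, hs', Finset.mem_singleton]
  have a1 := (m1 s).2 rfl
  have a2 := (m2 s').2 rfl
  refine ⟨s, s', by omega, fun e => a2.2 (e ▸ a1.1), by simp [a1.2], by simp [a2.2], ?_, ?_, ?_⟩
  · rw [← Finset.eq_of_subset_of_card_le (Finset.union_subset h1 h2) (by omega)]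
    ext u
    simp only [Finset.mem_union, Finset.mem_insert, Finset.mem_inter, ← m1, ← m2]
    tauto
  · ext u
    simp only [Finset.mem_insert, Finset.mem_inter, ← m1]
    tauto
  · ext u
    simp only [Finset.mem_insert, Finset.mem_inter, ← m2]
    tauto

theorem TR_thm (g : Gen V K) (hLC : g.StLC) : g.StTR := by
  intro G ω w a c T ρ h x hx x' hx' hne v hw ha hc hvx hvx' Γ Γ' hΓ hΓ' h0 h0' h5 hK
  have n1 := TR_nb h hΓ ha hc hvx
  have n2 := TR_nb h hΓ' ha hc hvx'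
  have q1 := TR_clq hLC (TR_KK h hx hΓ) h0 ((Finset.card_le_card n1).trans h5)
  have q2 := TR_clq hLC (TR_KK h hx' hΓ') h0' ((Finset.card_le_card n2).trans h5)
  have q3 : g.Clq (del (adj ω) w) (insert v (nb Γ v ∩ nb Γ' v)) := fun y hy z hz =>
    TR_link h hx hx' hne
      (q1 y (Finset.insert_subset_insert _ Finset.inter_subset_left hy) z
        (Finset.insert_subset_insert _ Finset.inter_subset_left hz))
      (q2 y (Finset.insert_subset_insert _ Finset.inter_subset_right hy) z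
        (Finset.insert_subset_insert _ Finset.inter_subset_right hz))
  have q4 := g.clq_mono (TR_GH h) q3
  have c3 : (nb Γ v ∩ nb Γ' v).card ≤ 3 := by
    by_contra hh
    obtain ⟨S, hS, hS'⟩ := Finset.exists_subset_card_eq (by omega : 4 ≤ (nb Γ v ∩ nb Γ' v).card)
    exact hK S (hS.trans (Finset.inter_subset_left.trans n1)) hS'
      (g.clq_sub q4 (Finset.insert_subset_insert _ hS))
  obtain ⟨s, s', d3, hss, hs, hs', eN, eS, eS'⟩ := TR_sets n1 n2 h5 (TR_four hΓ.1 h0)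
    (TR_four hΓ'.1 h0') c3
  set Δ := nb Γ v ∩ nb Γ' v with hΔ
  have ms : s ∈ nb Γ v := by rw [eS]; simp
  have ms' : s' ∈ nb Γ' v := by rw [eS']; simp
  have vs : s ∉ insert v Δ := by
    rw [Finset.mem_insert, not_or]; exact ⟨(mem_nb.1 ms).1.symm, hs⟩
  have vs' : s' ∉ insert v Δ := by
    rw [Finset.mem_insert, not_or]; exact ⟨(mem_nb.1 ms').1.symm, hs'⟩
  have key : ∀ y ∈ T, ∀ (Θ : V → V → K) (t : V), g.IsGam (del (adj ω) w) a c y ρ Θ →
      nb Θ v = insert t Δ → t ∉ insert v Δ → t ∈ (nb ω v).erase w →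
      g.grad v ρ ⬝ᵥ g.p v = 0 ∧ g.grad v ρ ⬝ᵥ g.p t = 0 := by
    intro y hy Θ t hΘ e ht hm
    obtain ⟨U, hU, b⟩ := TR_onto1 h hy
    obtain ⟨L, hL, hUL⟩ := g.rigX _ U (fun y hy z hz => q3 y hy z hz U hU)
    have e1 := TR_one h hy hΘ e.le hU hL ht hUL
    have hV := g.sub_skew_mem hU hL
    rw [b, one_smul] at e1
    rw [Finset.mem_erase, mem_nb] at hm
    have e2 := hV.2 v t ⟨hm.2, hw, hm.1⟩
    have e3 := hV.1 t
    simp only [dl, hUL v (by simp), sub_self, zero_dotProduct, zero_add] at e2 e3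
    rw [eq_neg_iff_add_eq_zero, add_comm, ← eq_neg_iff_add_eq_zero] at e1
    rw [e1]
    simp only [neg_dotProduct, smul_dotProduct, e2, e3, smul_zero, neg_zero, and_self]
  have k1 := key x hx Γ s hΓ eS vs (n1 ms)
  have k2 := key x' hx' Γ' s' hΓ' eS' vs' (n2 ms')
  refine ⟨Δ, s, s', d3, hss, hs, hs', eN, eS, eS', q4, fun hg => ?_, k1.1, k1.2, k2.2,
    fun U hU L hL hUL => ⟨TR_one h hx hΓ eS.le hU hL vs hUL, TR_one h hx' hΓ' eS'.le hU hL vs' hUL⟩⟩
  refine hK (insert s Δ) (eS ▸ n1) (by rw [Finset.card_insert_of_notMem hs, d3])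
    (g.clq_mono (TR_GH h) fun y hy z hz U hU => ?_)
  obtain ⟨L, hL, hUL⟩ := g.rigX _ U (fun y hy z hz => q3 y hy z hz U hU)
  have e1 := TR_one h hx hΓ eS.le hU hL vs hUL
  rw [hg, smul_zero, neg_zero, smul_eq_zero, sub_eq_zero] at e1
  have e2 : ∀ u ∈ insert v (insert s Δ), U u = L *ᵥ g.p u := fun u hu => by
    rw [Finset.insert_comm] at hu
    rcases Finset.mem_insert.1 hu with e | e
    · rw [e]; exact e1.resolve_left (mem_nb.1 ms).2
    · exact hUL u e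
  have := dl_skew g.p hL y z
  simp only [dl] at this ⊢
  rw [e2 y hy, e2 z hz]
  exact this

end Pool.Agent.Dress
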