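import Pool.Agent.Lib.MP_d237f6_co.DR.Gam

/-! Test vertices. -/

set_option autoImplicit false

namespace Pool.Agent.Dress

open Matrix Module Classical

variable {K : Type} [Field K] [CharZero K] {V : Type} [DecidableEq V] [Fintype V]

omit [CharZero K] in
theorem TV_four (g : Gen V K) {w h : V} {S : Finset V} {r : V → K} (hS : S.Nonempty)
    (hr : g.Dep r) (hs : ∀ u, u ∉ insert w (insert h S) → r u = 0)
    (hc : ∀ u ∈ S, r u ≠ 0 ∧ ∀ k, g.d w k (r u) = 0) : 4 ≤ S.card := by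
  obtain ⟨f, f0, f1, f2, -⟩ := exists_normal (g.p w) (g.p h) (g.p h)
  obtain ⟨k, hk⟩ := Function.ne_iff.1 f0
  have h1 := congrArg (fun x => f ⬝ᵥ dv (g.d w k) x) hr
  simp only [dv_sum_smul, dv_zero, dotProduct_zero, dotProduct_sum, dotProduct_add,
    dotProduct_smul, smul_eq_mul] at h1
  rw [Finset.sum_eq_single w (fun u _ hu => ?_) (by simp), f1, g.d_self, dotProduct_single,
    mul_zero, zero_add, mul_one] at h1
  · have h2 := (mul_eq_zero.1 h1).resolve_right hk
    by_contra h3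
    obtain ⟨u, hu⟩ := hS
    refine (hc u hu).1 (congrFun (g.dep_zero hr (insert h S)
      ((Finset.card_insert_le _ _).trans (by omega)) fun v hv => ?_) u)
    by_cases h4 : v = w
    · rw [h4, h2]
    · exact hs v fun h5 => (Finset.mem_insert.1 h5).elim h4 hv
  · rw [g.d_ne hu, dotProduct_zero, mul_zero, add_zero]
    by_cases h4 : u ∈ insert w (insert h S)
    · rcases Finset.mem_insert.1 ((Finset.mem_insert.1 h4).resolve_left hu) with h5 | h5
      · rw [h5, f2, mul_zero]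
      · rw [(hc u h5).2, zero_mul]
    · rw [hs u h4, map_zero, zero_mul]

theorem TV_thm (g : Gen V K) (h : g.StLC) : g.StTV := by
  intro ih F w z S γ hwz hw hz hwS hzS hS h7 hγ hs hn hrel hc
  obtain ⟨σ, a1, a2, a3⟩ := g.star_stress hw hγ fun U hU _ => hrel U hU
  have hm : ∀ u, w ≠ u → γ u ≠ 0 → u ∈ S := fun u h1 h2 => by
    by_contra h3
    exact h2 (hs u fun h4 => (Finset.mem_insert.1 h4).elim h1.symm h3)
  have hnb : nb σ w = S := by
    ext u
    rw [mem_nb, a2]
    exact ⟨fun h1 => hm u h1.1 h1.2, fun h1 => ⟨fun h2 => hwS (h2 ▸ h1), hn u h1⟩⟩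
  have hγ0 : γ ≠ 0 := fun h0 => hS.elim fun u hu => hn u hu (congrFun h0 u)
  have hK : σ ∈ g.KK fun u v => F u v ∨ (u = w ∧ v ∈ S) := by
    refine ih z _ σ (fun u => ⟨fun h1 => h1.elim (hz u).1 fun h2 => hwz h2.1.symm,
      fun h1 => h1.elim (hz u).2 fun h2 => hzS h2.2⟩) a1 fun u v huv h0 => ?_
    by_cases h1 : u = w
    · subst h1
      exact Or.inl (Or.inr ⟨rfl, hm v huv (a2 ▸ h0)⟩)
    by_cases h2 : v = w
    · subst h2
      rw [a1.1] at h0
      exact Or.inr (Or.inr ⟨rfl, hm u huv.symm (a2 ▸ h0)⟩)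
    · exact (a3 u v huv h1 h2 h0).imp Or.inl Or.inl
  have hL := h _ σ w hK (a2 ▸ hγ0) (hnb ▸ h7)
  rw [hnb, a2] at hL
  rcases hL with hq | ⟨x, S₁, S₂, r₁, r₂, -, b1, b2, b3, b4, b5, b6, b7, -, b8, b9, b10, c1, c2, -⟩
  · have h4 : 4 ≤ S.card := by
      by_contra h1
      exact hγ0 (g.dep_zero hγ _ ((Finset.card_insert_le _ _).trans (by omega)) hs)
    obtain ⟨B, hB, hB4⟩ := Finset.exists_subset_card_eq h4
    obtain ⟨s₀, hs₀⟩ := Finset.card_pos.1 (by omega : 0 < B.card)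
    have hT : (insert w (B.erase s₀)).card ≤ 4 :=
      (Finset.card_insert_le _ _).trans (by rw [Finset.card_erase_of_mem hs₀]; omega)
    choose f hf using fun b => g.exists_cov _ hT (Pi.single b 1)
    let ξ : (V → Vec K) → Vec K := fun U => -∑ b ∈ B.erase s₀, (U b ⬝ᵥ g.p w) • f b
    have hξ : ∀ U, ∀ u ∈ insert w (B.erase s₀), ξ U ⬝ᵥ g.p u =
        -if u ∈ B.erase s₀ then U u ⬝ᵥ g.p w else 0 := fun U u hu => by
      simp only [ξ, neg_dotProduct, sum_dotProduct, smul_dotProduct, hf _ u hu, smul_eq_mul,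
        Pi.single_apply, mul_ite, mul_one, mul_zero, Finset.sum_ite_eq]
    have hlin : ∀ s, IsLinearMap K fun U => ξ U ⬝ᵥ g.p s + U s ⬝ᵥ g.p w := fun s =>
      ⟨fun a b => by
        simp only [ξ, Pi.add_apply, add_dotProduct, add_smul, Finset.sum_add_distrib, neg_add]
        ring, fun c a => by
        simp only [ξ, Pi.smul_apply, smul_dotProduct, smul_assoc, ← Finset.smul_sum, ← smul_neg,
          smul_add]⟩
    let e := (S \ B).equivFinOfCardEq ((Finset.card_sdiff_of_subset hB).trans (by rw [hB4]))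
    refine ⟨LinearMap.pi fun i => (hlin (e.symm i)).mk' _, fun U hU h0 s hs' t ht => ?_⟩
    have h1 : ξ U ⬝ᵥ g.p w = 0 := by
      rw [hξ U w (Finset.mem_insert_self _ _),
        if_neg fun h1 => hwS (hB (Finset.mem_of_mem_erase h1)), neg_zero]
    have h2 : ∀ u ∈ S, u ≠ s₀ → ξ U ⬝ᵥ g.p u + U u ⬝ᵥ g.p w = 0 := fun u hu h2 => by
      by_cases h3 : u ∈ B
      · have h5 := Finset.mem_erase.2 ⟨h2, h3⟩
        rw [hξ U u (Finset.mem_insert_of_mem h5), if_pos h5, neg_add_cancel]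
      · have h5 := congrFun h0 (e ⟨u, Finset.mem_sdiff.2 ⟨hu, h3⟩⟩)
        simpa only [LinearMap.pi_apply, IsLinearMap.mk'_apply, Equiv.symm_apply_apply,
          Pi.zero_apply] using h5
    have h3 : ∑ u, γ u * (ξ U ⬝ᵥ g.p u + U u ⬝ᵥ g.p w) = 0 := by
      simp only [mul_add, Finset.sum_add_distrib, g.dep_dot hγ, hrel U hU, add_zero]
    rw [Finset.sum_eq_single s₀ (fun u _ hu => ?_) (by simp)] at h3
    · have h5 := g.extend_mem hw hU S hwS h1 fun u hu => by
        by_cases h6 : u = s₀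
        · exact h6 ▸ (mul_eq_zero.1 h3).resolve_left (hn s₀ (hB hs₀))
        · exact h2 u hu h6
      rw [← g.dl_update U w (ξ U) (fun h6 => hwS (h6 ▸ hs')) fun h6 => hwS (h6 ▸ ht)]
      exact hq s (Finset.mem_insert_of_mem hs') t (Finset.mem_insert_of_mem ht) _ h5
    · by_cases h5 : w = u
      · rw [← h5, h1, hU.1, add_zero, mul_zero]
      by_cases h6 : γ u = 0
      · rw [h6, zero_mul]
      · rw [h2 u (hm u h5 h6) hu, mul_zero]
  · have h1 := Finset.card_le_card (Finset.union_subset b6 b7)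
    rw [Finset.card_union_of_disjoint b3] at h1
    have h2 := (hc.resolve_left (by omega)).2
    have h3 := TV_four g (Finset.card_pos.1 (by omega)) b8 c1 fun u hu => by
      have h3 : γ u = r₁ u := by
        rw [b10, Pi.add_apply, c2 u, add_zero]
        simp only [Finset.mem_insert, not_or]
        exact ⟨fun h3 => hwS (h3 ▸ b6 hu), fun h3 => b1 (h3 ▸ hu), Finset.disjoint_left.1 b3 hu⟩
      exact h3 ▸ ⟨hn u (b6 hu), fun k => h2 k u⟩
    have h4 := TV_four g (Finset.card_pos.1 (by omega)) b9 c2 fun u hu => by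
      have h4 : γ u = r₂ u := by
        rw [b10, Pi.add_apply, c1 u, zero_add]
        simp only [Finset.mem_insert, not_or]
        exact ⟨fun h4 => hwS (h4 ▸ b7 hu), fun h4 => b2 (h4 ▸ hu), Finset.disjoint_right.1 b3 hu⟩
      exact h4 ▸ ⟨hn u (b7 hu), fun k => h2 k u⟩
    omega

end Pool.Agent.Dress
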