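import Pool.Agent.Lib.MP_d237f6_co.DR.QA
import Pool.Agent.Lib.MP_d237f6_co.DR.QB
import Pool.Agent.Lib.MP_d237f6_co.DR.K1
import Pool.Agent.Lib.MP_d237f6_co.DR.Ph1
import Pool.Agent.Lib.MP_d237f6_co.DR.Ph2
import Pool.Agent.Lib.MP_d237f6_co.DR.Ph3
import Pool.Agent.Lib.MP_d237f6_co.DR.Ph4
import Pool.Agent.Lib.MP_d237f6_co.DR.RB
import Pool.Agent.Lib.MP_d237f6_co.DR.Cone
import Pool.Agent.Lib.MP_d237f6_co.DR.LCc
import Pool.Agent.Lib.MP_d237f6_co.DR.LC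
import Pool.Agent.Lib.MP_d237f6_co.DR.TV
import Pool.Agent.Lib.MP_d237f6_co.DR.PPL
import Pool.Agent.Lib.MP_d237f6_co.DR.Dis
import Pool.Agent.Lib.MP_d237f6_co.DR.Dim
import Pool.Agent.Lib.MP_d237f6_co.DR.Fin
import Pool.Agent.Lib.MP_d237f6_co.DR.Cl
import Pool.Agent.Lib.MP_d237f6_co.DR.Kh0
import Pool.Agent.Lib.MP_d237f6_co.DR.Kh1
import Pool.Agent.Lib.MP_d237f6_co.DR.KhA
import Pool.Agent.Lib.MP_d237f6_co.DR.KhB
import Pool.Agent.Lib.MP_d237f6_co.DR.N2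
import Pool.Agent.Lib.MP_d237f6_co.DR.CB
import Pool.Agent.Lib.MP_d237f6_co.DR.Cc
import Pool.Agent.Lib.MP_d237f6_co.DR.Cg
import Pool.Agent.Lib.MP_d237f6_co.DR.P2
import Pool.Agent.Lib.MP_d237f6_co.DR.P3
import Pool.Agent.Lib.MP_d237f6_co.DR.P4
import Pool.Agent.Lib.MP_d237f6_co.DR.P5
import Pool.Agent.Lib.MP_d237f6_co.DR.TR
import Pool.Agent.Lib.MP_d237f6_co.DR.PL
import Pool.Agent.Lib.MP_d237f6_co.DR.B1
import Pool.Agent.Lib.MP_d237f6_co.DR.B2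
import Pool.Agent.Lib.MP_d237f6_co.DR.B3
import Pool.Agent.Lib.MP_d237f6_co.DR.B4
import Pool.Agent.Lib.MP_d237f6_co.DR.B5
import Pool.Agent.Lib.MP_d237f6_co.DR.A5
import Pool.Agent.Lib.MP_d237f6_co.DR.A61
import Pool.Agent.Lib.MP_d237f6_co.DR.A6x
import Pool.Agent.Lib.MP_d237f6_co.DR.A6
import Pool.Agent.Lib.MP_d237f6_co.DR.CR
import Pool.Agent.Lib.MP_d237f6_co.DR.S5
import Pool.Agent.Lib.MP_d237f6_co.DR.S7

/-! Assembly. -/

set_option autoImplicit false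

namespace Pool.Agent.Dress

open Matrix Module Classical

variable {K : Type} [Field K] [CharZero K] {V : Type} [DecidableEq V] [Fintype V]

theorem main_local (g : Gen V K) : g.StRB ∧ g.StS5 ∧ g.StS7 := by
  have rb := RB_thm g
  have lc := (LC_thm g (LCc_thm g rb (Cone_thm g))).2.2
  have tv := TV_thm g lc
  have ppl := PPL_thm g tv
  have cl := Cl_thm g
  have t2 := T2_thm g
  have hQ : ∀ ω D, StQ K (g.Lam ω D) := fun _ _ => QA_thm
  have hB := fun ω D => QB_thm g (g.qh ω D) (hQ ω D)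
  have k1 := fun ω D => K1_thm g (g.qh ω D) (hQ ω D) (hB ω D)
  have p1 := fun ω D => Ph1_thm g (g.qh ω D) (hQ ω D) (hB ω D)
  have kA := KhA_thm g (Kh0_thm g) (Kh1_thm g t2) t2 hQ
  have kB := KhB_thm g t2
  have n2 := N2_thm g (fun ω D => (k1 ω D).1) kA kB
  have cg := Cg_thm g (Cc_thm g (CB_thm g)) t2 n2
  have tr := TR_thm g lc
  have b1 := B1_thm g lc
  have b3 := B3_thm g b1 (B2_thm g tr b1)
  have b5 := B5_thm g b3 (B4_thm g lc b3 ppl)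
  have a5 := A5_thm g lc cl n2 b5.1
  have a6 := A6_thm g a5 (A61_thm g lc) (A62_thm g) (A63_thm g) (A64_thm g) (A65_thm g)
  exact ⟨rb, S5_thm g cl n2 (P3_thm g (P2_thm g t2 n2) cg n2 t2) (P4_thm g tv) (P5_thm g ppl) a5 a6
    b5.1 b5.2, S7_thm g cl (CR_thm g lc (PL_thm g tr) a5 a6) b5.1 a5 n2 kA kB
    (fun ω D => (k1 ω D).2) p1 (fun ω D => Ph2_thm g _ (hQ ω D) (hB ω D) (p1 ω D))
    (fun ω D => Ph3_thm g _ (hQ ω D) (hB ω D)) (fun ω D => Ph4_thm g _ (hQ ω D) (hB ω D))⟩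

/-- every stress is a sum of stresses on cliques of the closure -/
theorem main_d1 (g : Gen V K) : g.D1 := d1_of (fun _ _ _ g => main_local g) g

theorem main_dim (g : Gen V K) : g.StDim :=
  Dim_thm g (main_d1 g) (LC_thm g (LCc_thm g (RB_thm g) (Cone_thm g))).1
    (LC_thm g (LCc_thm g (RB_thm g) (Cone_thm g))).2.1

end Pool.Agent.Dress
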