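import Pool.Agent.Lib.MP_d237f6_co.DR.Gam

/-! Neighbours of a vertex of degree five and second type. -/

set_option autoImplicit false

namespace Pool.Agent.Dress

open Matrix Module Classical

variable {K : Type} [Field K] [CharZero K] {V : Type} [DecidableEq V] [Fintype V]

omit [CharZero K] in
theorem N2_key (g : Gen V K) (hK : ∀ ω D, (g.qh ω D).StK1) (hA : g.StKhA) (hB : g.StKhB)
    {G : V → V → Prop} {ω : V → V → K} {w i : V} (h : g.Set2 G ω w) (hi : i ∈ nb ω w)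
    (h6 : (nb ω i).card ≤ 6) : w ∈ nb ω i ∧ ((nb ω i).erase w).card = 5 ∧
      Disjoint ((nb ω i).erase w) (nb ω w) ∧
      ∀ S ⊆ (nb ω i).erase w, S.card = 3 → ¬ g.Clq G S := by
  have hD : g.SetD G ω {w} := ⟨Finset.singleton_nonempty w,
    fun x hx => by rw [Finset.mem_singleton.1 hx]; exact h,
    fun x hx y hy hxy => by
      rw [Finset.mem_singleton.1 hx, Finset.mem_singleton.1 hy] at hxy
      exact (mem_nb.1 hxy).1 rfl⟩
  obtain ⟨a1, -, a3⟩ := hA G ω {w} hD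
  obtain ⟨b1, b2, -, b4, -⟩ := hB G ω {w} hD
  have hw : w ∈ ({w} : Finset V) := Finset.mem_singleton_self w
  have hiw := mem_nb.1 hi
  have hwi : w ∈ nb ω i := mem_nb.2 ⟨hiw.1.symm, by rw [h.bad.1.1.1]; exact hiw.2⟩
  have lk : ∀ u v, u ≠ w → v ≠ w → g.Link G u v →
      qm ((g.qh ω {w}).ev u) ((g.qh ω {w}).ev v) ∈ (g.qh ω {w}).R := fun u v hu hv =>
    b2 u v (by simpa using hu) (by simpa using hv)
  have sq : ∀ X : Finset V, w ∉ X → qs (g.qh ω {w}).ev X ≤ (g.qh ω {w}).R := fun X hX =>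
    Submodule.span_le.2 (by
      rintro _ ⟨x, hx, rfl⟩
      have : x ≠ w := fun e => hX (e ▸ hx)
      exact lk x x this this (g.link_refl G x))
  obtain ⟨c1, c2, c3⟩ := hK ω {w} (nb ω w) ((nb ω i).erase w) (g.Wh ω {w} w) i
    ⟨h.deg, (b1 w hw).1, (b1 w hw).2.1, a3 w hw, (b1 w hw).2.2,
      sq _ fun hx => (mem_nb.1 hx).1 rfl⟩ hi
    (fun hx => (mem_nb.1 (Finset.mem_of_mem_erase hx)).1 rfl)
    (by rw [Finset.card_erase_of_mem hwi]; omega)
    (by
      have := b4 i w hw hi (Finset.inter_singleton_of_mem hwi)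
      rwa [Finset.sdiff_singleton_eq_erase] at this)
    (sq _ (Finset.notMem_erase _ _))
    (fun u hu => lk i u hiw.1.symm (Finset.ne_of_mem_erase hu)
      (h.bad.1.2.1 i u (mem_nb.1 (Finset.mem_of_mem_erase hu)).2))
    (fun U hU => a1 {w} subset_rfl (Finset.singleton_nonempty w) U
      fun j hj => by rw [Finset.mem_singleton.1 hj]; exact hU)
  refine ⟨hwi, c1, c2, fun S hS h3 hC => ?_⟩
  obtain ⟨x, y, z, hxy, hxz, hyz, rfl⟩ := Finset.card_eq_three.1 h3
  have hx := hS (by simp : x ∈ ({x, y, z} : Finset V))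
  have hy := hS (by simp : y ∈ ({x, y, z} : Finset V))
  have hz := hS (by simp : z ∈ ({x, y, z} : Finset V))
  exact c3 x hx y hy z hz hxy hxz hyz
    ⟨lk x y (Finset.ne_of_mem_erase hx) (Finset.ne_of_mem_erase hy) (hC x (by simp) y (by simp)),
      lk x z (Finset.ne_of_mem_erase hx) (Finset.ne_of_mem_erase hz) (hC x (by simp) z (by simp)),
      lk y z (Finset.ne_of_mem_erase hy) (Finset.ne_of_mem_erase hz) (hC y (by simp) z (by simp))⟩

omit [CharZero K] in
theorem N2_thm (g : Gen V K) (hK : ∀ ω D, (g.qh ω D).StK1) (hA : g.StKhA) (hB : g.StKhB) :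
    g.StN2 := by
  intro G ω w i h hi
  refine ⟨fun h5 => ?_, fun h6 => ?_⟩
  · obtain ⟨c0, c1, -⟩ := N2_key g hK hA hB h hi (by omega)
    rw [Finset.card_erase_of_mem c0] at c1
    omega
  obtain ⟨-, -, c2, c3⟩ := N2_key g hK hA hB h hi h6.le
  refine ⟨fun a ha hai hl => ?_, c3⟩
  have haw : a ≠ w := (mem_nb.1 ha).1.symm
  obtain ⟨ω', u, d1, -, -, d4, d5, d6, d7, -⟩ := h.ctx.xl ω w i a ∅ h.bad h.deg
    (mem_nb.1 hi).1.symm haw hai.symm hl
    (fun hx => Finset.disjoint_left.1 c2 (Finset.mem_erase.2 ⟨haw, hx⟩) ha) (by simp)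
  have h' : g.Set2 G ω' w := ⟨h.ctx, d1, by rw [d6]; exact h.deg, by rw [d6]; exact h.t2⟩
  have e : (nb ω' i).card ≤ 6 := by
    have := (Finset.card_le_card d7).trans (Finset.card_insert_le _ _)
    rw [Finset.card_erase_of_mem d4] at this
    omega
  obtain ⟨-, -, e2, -⟩ := N2_key g hK hA hB h' (by rw [d6]; exact hi) e
  exact Finset.disjoint_left.1 e2 (Finset.mem_erase.2 ⟨haw, d5⟩) (by rw [d6]; exact ha)

end Pool.Agent.Dress
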