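import Pool.Agent.Lib.MP_d237f6_co.DR.Gam

/-! Two neighbours of degree six: unique lifts and their derivatives. -/

set_option autoImplicit false

namespace Pool.Agent.Dress

open Matrix Module Classical

variable {K : Type} [Field K] [CharZero K] {V : Type} [DecidableEq V] [Fintype V]

omit [CharZero K] in
theorem P2_dv_smul (δ : Der K) (c : K) (x : Vec K) : dv δ (c • x) = δ c • x + c • dv δ x := by
  ext k; simp only [dv, Pi.smul_apply, smul_eq_mul, Pi.add_apply, d_mul]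

omit [CharZero K] in
theorem P2_dv_mulVec (δ : Der K) (M : Mat K) (x : Vec K) :
    dv δ (M *ᵥ x) = dm δ M *ᵥ x + M *ᵥ dv δ x := by
  ext k
  exact d_dot δ (M k) x

omit [CharZero K] in
theorem P2_vv (u v x : Vec K) : vecMulVec u v *ᵥ x = (v ⬝ᵥ x) • u := by
  ext k; simp [mulVec, dotProduct, vecMulVec_apply, Finset.mul_sum, mul_comm, mul_left_comm]

omit [CharZero K] in
theorem P2_vvT (u v x : Vec K) : (vecMulVec u v)ᵀ *ᵥ x = (u ⬝ᵥ x) • v := by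
  rw [transpose_vecMulVec, P2_vv]

omit [CharZero K] in
theorem P2_tdot (L : Mat K) (x y : Vec K) : (Lᵀ *ᵥ x) ⬝ᵥ y = (L *ᵥ y) ⬝ᵥ x := by
  rw [← bil_eq', ← bil_eq', bil_transpose]

omit [CharZero K] in
/-- a functional in the span of two independent pairs vanishes -/
theorem P2_zero {X : Type} [AddCommGroup X] [Module K X] (S : Submodule K X)
    (a b a' b' f : X → K) (ha : IsLinearMap K a) (hb : IsLinearMap K b) (ha' : IsLinearMap K a')
    (hb' : IsLinearMap K b') (hf : IsLinearMap K f)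
    (hi : ∀ t₁ t₂ t₃ t₄ : K, (∀ x ∈ S, t₁ * a x + t₂ * b x + (t₃ * a' x + t₄ * b' x) = 0) →
      t₁ = 0 ∧ t₂ = 0)
    (h : ∀ x ∈ S, a x = 0 → b x = 0 → f x = 0) (h' : ∀ x ∈ S, a' x = 0 → b' x = 0 → f x = 0) :
    ∀ x ∈ S, f x = 0 := by
  obtain ⟨c, hc⟩ := la1 S ![a, b] (fun i => by fin_cases i <;> assumption) f hf
    (fun x hx h0 => h x hx (h0 0) (h0 1))
  obtain ⟨c', hc'⟩ := la1 S ![a', b'] (fun i => by fin_cases i <;> assumption) f hf
    (fun x hx h0 => h' x hx (h0 0) (h0 1))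
  simp only [Fin.sum_univ_two, Matrix.cons_val_zero, Matrix.cons_val_one] at hc hc'
  obtain ⟨e1, e2⟩ := hi (c 0) (c 1) (-c' 0) (-c' 1) (fun x hx => by
    linear_combination hc' x hx - hc x hx)
  intro x hx
  rw [hc x hx, e1, e2]; ring

namespace Gen

variable (g : Gen V K)

/-- five points whose lifts form a basis -/
def P2_Ba (N : Finset V) (c : V → K) : Prop :=
  N.card = 5 ∧ ∃ α : V → K, ∑ j ∈ N, α j • g.p j = 0 ∧ (∀ j ∈ N, α j ≠ 0) ∧ ∑ j ∈ N, α j * c j ≠ 0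

omit [CharZero K] in
theorem P2_ba {N : Finset V} {c : V → K} (hN : N.card = 5)
    (ac : ∀ α, g.Dep α → (∀ u, u ∉ N → α u = 0) → ∑ u, α u * c u = 0 → α = 0) :
    g.P2_Ba N c := by
  obtain ⟨α, h1, h2, h3⟩ := g.dep5 N hN
  refine ⟨hN, α, (g.dep_sum h2).1 h1, h3, fun h => ?_⟩
  obtain ⟨j, hj⟩ : N.Nonempty := Finset.card_pos.1 (by omega)
  refine h3 j hj (congrFun (ac α h1 h2 ?_) j)
  rw [← h]
  exact (Finset.sum_subset (Finset.subset_univ N) (fun u _ hu => by simp [h2 u hu])).symm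

variable {g} {N : Finset V} {c : V → K}

omit [CharZero K] [Fintype V] in
theorem P2_interp (h : g.P2_Ba N c) (s : V → K) :
    ∃ (σ : Vec K) (τ : K), ∀ j ∈ N, s j = σ ⬝ᵥ g.p j + c j * τ := by
  obtain ⟨hN, α, h1, h2, h3⟩ := h
  obtain ⟨j, hj⟩ : N.Nonempty := Finset.card_pos.1 (by omega)
  obtain ⟨ξ, hξ⟩ := g.ext5 N hN.le α
    (fun j => s j - c j * ((∑ j ∈ N, α j * s j) / ∑ j ∈ N, α j * c j)) h1 j hj (h2 j hj) (by
      simp only [mul_sub, ← mul_assoc, Finset.sum_sub_distrib, ← Finset.sum_mul]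
      rw [mul_div_cancel₀ _ h3, sub_self])
  exact ⟨ξ, _, fun u hu => by rw [hξ u hu, sub_add_cancel]⟩

omit [CharZero K] [Fintype V] in
theorem P2_uniq0 (h : g.P2_Ba N c) {L : Mat K} {β : Vec K}
    (h0 : ∀ j ∈ N, L *ᵥ g.p j + c j • β = 0) : L = 0 ∧ β = 0 := by
  obtain ⟨hN, α, h1, h2, h3⟩ := h
  have e : ∑ j ∈ N, α j • (L *ᵥ g.p j + c j • β) = 0 :=
    Finset.sum_eq_zero fun j hj => by rw [h0 j hj, smul_zero]
  simp only [smul_add, Finset.sum_add_distrib, smul_smul, ← Finset.sum_smul, ← mulVec_smul,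
    ← mulVec_sum, h1, mulVec_zero, zero_add] at e
  have hβ : β = 0 := (smul_eq_zero.1 e).resolve_left h3
  exact ⟨g.mat4_zero N (by omega) fun j hj => by simpa [hβ] using h0 j hj, hβ⟩

omit [CharZero K] [Fintype V] in
theorem P2_uniq (h : g.P2_Ba N c) {U U' : V → Vec K} {L L' : Mat K} {β β' : Vec K}
    (h1 : g.Lift N c U L β) (h2 : g.Lift N c U' L' β') (hU : ∀ j ∈ N, U j = U' j) :
    L = L' ∧ β = β' := by
  have := P2_uniq0 h (L := L - L') (β := β - β') (fun j hj => by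
    have e := hU j hj
    rw [h1 j hj, h2 j hj] at e
    rw [sub_mulVec, smul_sub]
    linear_combination (norm := module) e)
  exact ⟨sub_eq_zero.1 this.1, sub_eq_zero.1 this.2⟩

omit [CharZero K] [Fintype V] in
theorem P2_lift (h : g.P2_Ba N c) : ∃ (L : (V → Vec K) →ₗ[K] Mat K)
    (β : (V → Vec K) →ₗ[K] Vec K), ∀ U, g.Lift N c U (L U) (β U) := by
  have ex : ∀ U : V → Vec K, ∃ L β, g.Lift N c U L β := by
    intro U
    choose σ τ hσ using fun k => P2_interp h (fun j => U j k)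
    exact ⟨Matrix.of σ, τ, fun j hj => by ext k; exact hσ k j hj⟩
  choose L β hL using ex
  have a1 : ∀ U U', L (U + U') = L U + L U' ∧ β (U + U') = β U + β U' := fun U U' =>
    P2_uniq h (hL _) (U' := U + U') (fun j hj => by
      rw [Pi.add_apply, hL U j hj, hL U' j hj, add_mulVec, smul_add]; abel) (fun _ _ => rfl)
  have a2 : ∀ (r : K) U, L (r • U) = r • L U ∧ β (r • U) = r • β U := fun r U =>
    P2_uniq h (hL _) (U' := r • U) (fun j hj => by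
      rw [Pi.smul_apply, hL U j hj, smul_mulVec, smul_add, smul_comm]) (fun _ _ => rfl)
  exact ⟨⟨⟨L, fun U U' => (a1 U U').1⟩, fun r U => (a2 r U).1⟩,
    ⟨⟨β, fun U U' => (a1 U U').2⟩, fun r U => (a2 r U).2⟩, hL⟩

omit [CharZero K] [Fintype V] in
theorem P2_dual (h : g.P2_Ba N c) (z : Vec K) (t : K) :
    ∃ γ : V → K, ∑ j ∈ N, γ j • g.p j = z ∧ ∑ j ∈ N, γ j * c j = t := by
  obtain ⟨hN, α, h1, h2, h3⟩ := h
  obtain ⟨T, hT, hc⟩ := Finset.exists_subset_card_eq (by omega : 4 ≤ N.card)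
  obtain ⟨μ, hμ⟩ := g.spans T hc z
  have e : ∑ j ∈ N, (if j ∈ T then μ j else 0) • g.p j = z := by
    rw [hμ, ← Finset.sum_subset hT (fun u _ hu => by simp [hu])]
    exact Finset.sum_congr rfl fun u hu => by simp [hu]
  refine ⟨fun j => (if j ∈ T then μ j else 0) + ((t - ∑ j ∈ N, (if j ∈ T then μ j else 0) * c j)
    / ∑ j ∈ N, α j * c j) * α j, ?_, ?_⟩
  · simp only [add_smul, Finset.sum_add_distrib, mul_smul, ← Finset.smul_sum, h1, e, smul_zero,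
      add_zero]
  · simp only [add_mul, Finset.sum_add_distrib, mul_assoc, ← Finset.mul_sum]
    rw [div_mul_cancel₀ _ h3]; ring

omit [CharZero K] [Fintype V] in
/-- derivative of a lift -/
theorem P2_dlift {U : V → Vec K} {L : Mat K} {β : Vec K} (h1 : g.Lift N c U L β) (δ : Der K)
    (hp : ∀ j ∈ N, dv δ (g.p j) = 0) {σ : Vec K} {τ : K}
    (hc : ∀ j ∈ N, δ (c j) = σ ⬝ᵥ g.p j + c j * τ) :
    g.Lift N c (dU δ U) (dm δ L + vecMulVec β σ) (dv δ β + τ • β) := by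
  intro j hj
  rw [dU, h1 j hj, dv_add, dv_mulVec _ _ _ (hp j hj), P2_dv_smul, hc j hj, add_mulVec, P2_vv]
  module

variable (g)

/-- the behaviour of the lifts under the derivations at one vertex -/
def P2_Dr (S : Submodule K (V → Vec K)) (i : V) (L : (V → Vec K) →ₗ[K] Mat K)
    (β : (V → Vec K) →ₗ[K] Vec K) (L' : (V → Vec K) →ₗ[K] Mat K)
    (β' : (V → Vec K) →ₗ[K] Vec K) : Prop :=
  ∀ z : Vec K, ∃ (δ : Der K) (σ : Vec K), dv δ (g.p i) = z ∧ (∀ j, j ≠ i → dv δ (g.p j) = 0) ∧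
    ∀ U ∈ S, dU δ U ∈ S ∧ L (dU δ U) = dm δ (L U) ∧ β (dU δ U) = dv δ (β U) ∧
      L' (dU δ U) = dm δ (L' U) + vecMulVec (β' U) σ

variable {g}

omit [CharZero K] [Fintype V] in
theorem P2_dr {S : Submodule K (V → Vec K)} {i : V} {N' : Finset V} {c' : V → K}
    {L L' : (V → Vec K) →ₗ[K] Mat K} {β β' : (V → Vec K) →ₗ[K] Vec K}
    (h : g.P2_Ba N c) (h' : g.P2_Ba N' c') (hi : i ∉ N) (hi' : i ∉ N')
    (hL : ∀ U, g.Lift N c U (L U) (β U)) (hL' : ∀ U, g.Lift N' c' U (L' U) (β' U))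
    (hc : ∀ k j, g.d i k (c j) = 0) (hS : ∀ k, ∀ U ∈ S, dU (g.d i k) U ∈ S) :
    g.P2_Dr S i L β L' β' := by
  intro z
  set δ : Der K := z 0 • g.d i 0 + z 1 • g.d i 1 + z 2 • g.d i 2 + z 3 • g.d i 3 with hδ
  have e : ∀ x : Vec K, dv δ x = z 0 • dv (g.d i 0) x + z 1 • dv (g.d i 1) x
      + z 2 • dv (g.d i 2) x + z 3 • dv (g.d i 3) x := fun x => rfl
  have e1 : ∀ j, j ≠ i → dv δ (g.p j) = 0 := fun j hj => by simp [e, g.d_ne hj]
  obtain ⟨σ, τ, hσ⟩ := P2_interp h' (fun j => δ (c' j))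
  refine ⟨δ, σ, ?_, e1, fun U hU => ⟨?_, ?_⟩⟩
  · rw [e]
    simp only [g.d_self]
    ext k
    fin_cases k <;> simp
  · exact S.add_mem (S.add_mem (S.add_mem (S.smul_mem (z 0) (hS 0 U hU))
      (S.smul_mem (z 1) (hS 1 U hU))) (S.smul_mem (z 2) (hS 2 U hU))) (S.smul_mem (z 3) (hS 3 U hU))
  · have a1 := P2_uniq h (hL _) (P2_dlift (hL U) δ (fun j hj => e1 j fun e => hi (e ▸ hj))
      (σ := 0) (τ := 0) (fun j _ => by simp [hδ, hc])) (fun _ _ => rfl)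
    have a2 := P2_uniq h' (hL' _) (P2_dlift (hL' U) δ (fun j hj => e1 j fun e => hi' (e ▸ hj))
      hσ) (fun _ _ => rfl)
    exact ⟨by simpa using a1.1, by simpa using a1.2, a2.1⟩

omit [CharZero K] [Fintype V] in
/-- the two derivative steps -/
theorem P2_core {S : Submodule K (V → Vec K)} {i i' b b₁ b₂ : V}
    {L L' : (V → Vec K) →ₗ[K] Mat K} {β β' : (V → Vec K) →ₗ[K] Vec K}
    (h0 : i' ≠ i) (h1 : b ≠ i) (h2 : b₁ ≠ i) (h3 : b₂ ≠ i) (h4 : b ≠ i') (h5 : b₁ ≠ i')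
    (h6 : b₂ ≠ i') (h7 : b ≠ b₁) (h8 : b ≠ b₂) (h9 : b₁ ≠ b₂)
    (hD : g.P2_Dr S i L β L' β') (hD' : g.P2_Dr S i' L' β' L β)
    (hθ : ∀ a a' m m₁ m₂ : K,
      a • g.p i + a' • g.p i' + (m • g.p b + m₁ • g.p b₁ + m₂ • g.p b₂) = 0 → ∀ U ∈ S,
      m • U b + m₁ • U b₁ + m₂ • U b₂ = a • (L U)ᵀ *ᵥ g.p i + a' • (L' U)ᵀ *ᵥ g.p i')
    (h : ∃ U ∈ S, β U ⬝ᵥ g.p b = 0 ∧ β' U ⬝ᵥ g.p i' = 0 ∧ β' U ≠ 0) :
    ∀ U ∈ S, U b = -((L U)ᵀ *ᵥ g.p b) := by
  obtain ⟨μ, hμ⟩ := g.spans {i, b, b₁, b₂} (Finset.card_eq_four.2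
    ⟨i, b, b₁, b₂, h1.symm, h2.symm, h3.symm, h7, h8, h9, rfl⟩) (g.p i')
  rw [Finset.sum_insert (by simp [h1.symm, h2.symm, h3.symm]),
    Finset.sum_insert (by simp [h7, h8]), Finset.sum_pair h9] at hμ
  have ha : μ i ≠ 0 := by
    intro e
    have := (g.rel4 h7 h8 h4 h9 h5 h6 (s := μ b) (t := μ b₁) (r := μ b₂) (q := -1) (by
      rw [e] at hμ
      linear_combination (norm := module) -hμ)).2.2.2
    simp at this
  have θ := hθ (μ i) (-1) (μ b) (μ b₁) (μ b₂) (by linear_combination (norm := module) -hμ)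
  obtain ⟨δ, σ, d1, d2, d3⟩ := hD (g.p b)
  have r := congrArg (dv δ) hμ
  simp only [dv_add, P2_dv_smul, d1, d2 _ h0, d2 _ h1, d2 _ h2, d2 _ h3] at r
  obtain ⟨r1, r2, r3, r4⟩ := g.rel4 h1.symm h2.symm h3.symm h7 h8 h9 (s := δ (μ i))
    (t := δ (μ b) + μ i) (r := δ (μ b₁)) (q := δ (μ b₂))
    (by linear_combination (norm := module) -r)
  have r5 : δ (μ b) = -μ i := eq_neg_of_add_eq_zero_left r2
  have key : ∀ U ∈ S, U b + (L U)ᵀ *ᵥ g.p b = (β' U ⬝ᵥ g.p i') • (-(μ i)⁻¹ • σ) := by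
    intro U hU
    obtain ⟨s1, s2, -, s4⟩ := d3 U hU
    have e1 := congrArg (dv δ) (θ U hU)
    have e2 := θ _ s1
    simp only [dv_add, P2_dv_smul, P2_dv_mulVec, d1, d2 _ h0, r1, r3, r4, r5, dm_transpose,
      map_neg, Derivation.map_one_eq_zero, mulVec_zero] at e1
    simp only [s2, s4, dU, transpose_add, add_mulVec, P2_vvT] at e2
    have e3 : μ i • (U b + (L U)ᵀ *ᵥ g.p b) = -((β' U ⬝ᵥ g.p i') • σ) := by
      linear_combination (norm := module) e2 - e1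
    have e4 := congrArg (fun x => (μ i)⁻¹ • x) e3
    simp only [smul_smul, inv_mul_cancel₀ ha, one_smul] at e4
    rw [e4]; module
  have hs : -(μ i)⁻¹ • σ = 0 := by
    by_contra hs
    obtain ⟨U, hU, a1, a2, a3⟩ := h
    refine a3 (vec_eq_zero fun z => ?_)
    obtain ⟨δ', σ', f1, f2, f3⟩ := hD' z
    obtain ⟨s1, -, s3, s4⟩ := f3 U hU
    have e1 := congrArg (dv δ') (key U hU)
    have e2 := key _ s1
    rw [dv_add, P2_dv_mulVec, P2_dv_smul, d_dot, f1, f2 _ h4, a2, dm_transpose] at e1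
    rw [s3, s4, dU, transpose_add, add_mulVec, P2_vvT, a1] at e2
    have e3 : (β' U ⬝ᵥ z) • (-(μ i)⁻¹ • σ) = 0 := by
      rw [mulVec_zero] at e1
      linear_combination (norm := module) e2 - e1
    exact (smul_eq_zero.1 e3).resolve_right hs
  intro U hU
  have := key U hU
  rw [hs, smul_zero] at this
  exact eq_neg_of_add_eq_zero_left this

end Gen

end Pool.Agent.Dress
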