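import Pool.Agent.Lib.MP_d237f6_co.DR.Gam

/-! Tools for counting dimensions of spaces of products. -/

set_option autoImplicit false

namespace Pool.Agent.Dress

open Matrix Module Classical

variable {K : Type} [Field K] [CharZero K]
  {Λ : Type} [AddCommGroup Λ] [Module K Λ] [FiniteDimensional K Λ]

theorem QA_comm (x y : Λ) : qm (K := K) x y = qm y x := funext fun _ => mul_comm _ _

theorem QA_mem {U W : Submodule K Λ} {x y : Λ} (hx : x ∈ U) (hy : y ∈ W) : qm x y ∈ qp U W :=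
  Submodule.subset_span ⟨x, hx, y, hy, rfl⟩

theorem QA_le {U W : Submodule K Λ} {S : Submodule K (Dual K Λ → K)}
    (h : ∀ x ∈ U, ∀ y ∈ W, qm x y ∈ S) : qp U W ≤ S :=
  Submodule.span_le.2 (by rintro _ ⟨x, hx, y, hy, rfl⟩; exact h x hx y hy)

theorem QA_fin (U W : Submodule K Λ) : FiniteDimensional K (qp U W) := by
  let b := Module.finBasis K Λ
  have := FiniteDimensional.span_of_finite K
    (Set.finite_range fun ij : Fin (finrank K Λ) × Fin (finrank K Λ) =>
      qm (K := K) (b ij.1) (b ij.2))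
  refine Submodule.finiteDimensional_of_le (S₂ := Submodule.span K (Set.range
    fun ij : Fin (finrank K Λ) × Fin (finrank K Λ) => qm (K := K) (b ij.1) (b ij.2)))
    (QA_le fun x _ y _ => ?_)
  have e : qm (K := K) x y = ∑ i, ∑ j, (b.repr x i * b.repr y j) • qm (b i) (b j) := by
    funext f
    simp only [qm, Finset.sum_apply, Pi.smul_apply, smul_eq_mul]
    nth_rewrite 1 [← b.sum_repr x, ← b.sum_repr y]
    simp only [map_sum, map_smul, smul_eq_mul, Finset.sum_mul_sum]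
    exact Finset.sum_congr rfl fun i _ => Finset.sum_congr rfl fun j _ => by ring
  rw [e]
  exact Submodule.sum_mem _ fun i _ => Submodule.sum_mem _ fun j _ =>
    Submodule.smul_mem _ _ (Submodule.subset_span ⟨(i, j), rfl⟩)

theorem QA_fins {ι : Type} (x : ι → Λ) (N : Finset ι) : FiniteDimensional K (qs (K := K) x N) := by
  have := QA_fin (K := K) (Λ := Λ) ⊤ ⊤
  refine Submodule.finiteDimensional_of_le (S₂ := qp ⊤ ⊤) (Submodule.span_le.2 ?_)
  rintro _ ⟨i, -, rfl⟩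
  exact QA_mem trivial trivial

theorem QA_ann {Y : Submodule K Λ} (f : Y.dualAnnihilator) {y : Λ} (hy : y ∈ Y) : f.1 y = 0 :=
  (Submodule.mem_dualAnnihilator _).1 f.2 y hy

theorem QA_ker1 (Y Z : Submodule K Λ) : qp Y Y ≤ LinearMap.ker (res Y Z) :=
  QA_le fun x hx y hy => funext fun fn => by
    rw [res_qm, QA_ann fn.2 hx, QA_ann fn.2 hy]; simp

theorem QA_ker2 (Y Z : Submodule K Λ) (h : Z ≤ Y) : qp Z ⊤ ≤ LinearMap.ker (res Y Z) :=
  QA_le fun x hx y _ => funext fun fn => by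
    rw [res_qm, QA_ann fn.1 hx, QA_ann fn.2 (h hx)]; simp

theorem QA_card {X ι : Type} [AddCommGroup X] [Module K X] (S : Submodule K X)
    [FiniteDimensional K S] (v : ι → X) (N : Finset ι) (hv : ∀ i ∈ N, v i ∈ S)
    (h : ∀ c : N → K, ∑ i, c i • v i = 0 → ∀ i, c i = 0) : N.card ≤ finrank K S := by
  have h1 : LinearIndependent K fun i : N => (⟨v i, hv i i.2⟩ : S) :=
    Fintype.linearIndependent_iff.2 fun c hc => h c (by simpa using congrArg Subtype.val hc)
  simpa using h1.fintype_card_le_finrank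

theorem QA_eval {A ι : Type} (S : Submodule K (A → K)) [FiniteDimensional K S] (v : ι → A → K)
    (N : Finset ι) (hv : ∀ i ∈ N, v i ∈ S) (a : ι → A)
    (h0 : ∀ i ∈ N, ∀ j ∈ N, i ≠ j → v i (a j) = 0) (h1 : ∀ i ∈ N, v i (a i) ≠ 0) :
    N.card ≤ finrank K S :=
  QA_card S v N hv fun c hc j => by
    have := congrFun hc (a j)
    rw [Finset.sum_apply, Finset.sum_eq_single j (fun i _ hij => by
      simp [h0 i i.2 j j.2 (Subtype.coe_ne_coe.2 hij)]) (by simp)] at this
    exact (mul_eq_zero.1 this).resolve_right (h1 j j.2)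

theorem QA_sep {Y : Submodule K Λ} {a : Λ} (ha : a ∉ Y) : ∃ f : Y.dualAnnihilator, f.1 a ≠ 0 := by
  obtain ⟨f, h1, h2⟩ := Submodule.exists_le_ker_of_notMem ha
  exact ⟨⟨f, (Submodule.mem_dualAnnihilator _).2 fun w hw => h2 hw⟩, h1⟩

theorem QA_sep2 {Y : Submodule K Λ} {a b : Λ} (ha : a ∉ Y) (hb : b ∉ Y) :
    ∃ f : Y.dualAnnihilator, f.1 a ≠ 0 ∧ f.1 b ≠ 0 := by
  obtain ⟨f, hf⟩ := QA_sep ha
  obtain ⟨g, hg⟩ := QA_sep hb
  by_cases h1 : f.1 b = 0
  · by_cases h2 : g.1 a = 0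
    · exact ⟨f + g, by simpa [h2] using hf, by simpa [h1] using hg⟩
    · exact ⟨g, h2, hg⟩
  · exact ⟨f, hf, h1⟩

theorem QA_li {Z : Submodule K Λ} {ι : Type} {x : ι → Λ} {N : Finset ι} :
    (∀ c : ι → K, ∑ i ∈ N, c i • x i ∈ Z → ∀ i ∈ N, c i = 0) ↔
      LinearIndependent K fun i : N => Z.mkQ (x i) := by
  rw [Fintype.linearIndependent_iff]
  constructor
  · intro h c hc i
    have := h (fun i => if hi : i ∈ N then c ⟨i, hi⟩ else 0) (by
      rw [← Submodule.Quotient.mk_eq_zero, ← Submodule.mkQ_apply, map_sum, ← hc,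
        ← Finset.sum_coe_sort]
      exact Finset.sum_congr rfl fun j _ => by simp [j.2]) i i.2
    simpa [i.2] using this
  · intro h c hc i hi
    refine h (fun i => c i) ?_ ⟨i, hi⟩
    rw [← Submodule.Quotient.mk_eq_zero, ← Submodule.mkQ_apply, map_sum,
      ← Finset.sum_coe_sort] at hc
    simpa using hc

theorem QA_dual {Z : Submodule K Λ} {ι : Type} {x : ι → Λ} {N : Finset ι}
    (h : ∀ c : ι → K, ∑ i ∈ N, c i • x i ∈ Z → ∀ i ∈ N, c i = 0) :
    ∃ φ : ι → Z.dualAnnihilator, ∀ i ∈ N, ∀ j ∈ N, (φ i).1 (x j) = if i = j then 1 else 0 := by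
  have h1 := QA_li.1 h
  obtain ⟨g, hg⟩ := LinearMap.exists_leftInverse_of_injective
    (Fintype.linearCombination K fun i : N => Z.mkQ (x i))
    (LinearMap.ker_eq_bot.2 h1.fintypeLinearCombination_injective)
  refine ⟨fun i => if hi : i ∈ N then ⟨LinearMap.proj (⟨i, hi⟩ : N) ∘ₗ g ∘ₗ Z.mkQ,
    (Submodule.mem_dualAnnihilator _).2 fun w hw => by
      simp [(Submodule.Quotient.mk_eq_zero Z).2 hw]⟩ else 0, fun i hi j hj => ?_⟩
  have h2 := congrFun (LinearMap.congr_fun hg (Pi.single ⟨j, hj⟩ 1)) ⟨i, hi⟩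
  simp only [LinearMap.comp_apply, Fintype.linearCombination_apply_single, one_smul,
    LinearMap.id_apply, Pi.single_apply, Subtype.mk.injEq] at h2
  simp only [dif_pos hi, LinearMap.comp_apply, LinearMap.proj_apply]
  exact h2

theorem QA_dim (W Z : Submodule K Λ) :
    finrank K (W.map Z.mkQ) + finrank K Z = finrank K ↥(W ⊔ Z) := by
  have h := LinearMap.finrank_range_add_finrank_ker (Z.mkQ.domRestrict (W ⊔ Z))
  rw [LinearMap.range_domRestrict, LinearMap.ker_domRestrict, Submodule.ker_mkQ,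
    Submodule.map_sup, Submodule.mkQ_map_self, sup_bot_eq,
    (Submodule.comapSubtypeEquivOfLe (le_sup_right : Z ≤ W ⊔ Z)).finrank_eq] at h
  exact h

theorem QA_pick (W Z : Submodule K Λ) (m : ℕ) (h : m + finrank K Z ≤ finrank K ↥(W ⊔ Z)) :
    ∃ w : Fin m → Λ, (∀ i, w i ∈ W) ∧
      ∀ c : Fin m → K, ∑ i ∈ Finset.univ, c i • w i ∈ Z → ∀ i ∈ Finset.univ, c i = 0 := by
  obtain ⟨f, hf⟩ := exists_linearIndependent_of_le_finrank (R := K) (M := W.map Z.mkQ) (n := m)
    (by have := QA_dim W Z; omega)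
  choose w hw hw' using fun i => (f i).2
  refine ⟨w, hw, fun c hc i _ => Fintype.linearIndependent_iff.1 hf c (Subtype.ext ?_) i⟩
  rw [← Submodule.Quotient.mk_eq_zero, ← Submodule.mkQ_apply, map_sum] at hc
  simpa [← hw'] using hc

theorem QA_ra (Y Z W X : Submodule K Λ) (m n : ℕ) (hW : W ≤ Y)
    (h1 : m + finrank K Z ≤ finrank K ↥(W ⊔ Z)) (h2 : n + finrank K Y ≤ finrank K ↥(X ⊔ Y)) :
    m * n ≤ finrank K ((qp W X).map (res Y Z)) := by
  obtain ⟨w, hw, hw'⟩ := QA_pick W Z m h1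
  obtain ⟨x, hx, hx'⟩ := QA_pick X Y n h2
  obtain ⟨φ, hφ⟩ := QA_dual hw'
  obtain ⟨ν, hν⟩ := QA_dual hx'
  have := QA_fin W X
  have e : ∀ i j : Fin m × Fin n, res Y Z (qm (w i.1) (x i.2)) (φ j.1, ν j.2) =
      (if j.1 = i.1 then 1 else 0) * (if j.2 = i.2 then 1 else 0) := fun i j => by
    rw [res_qm, QA_ann (ν j.2) (hW (hw _)), hφ _ (Finset.mem_univ _) _ (Finset.mem_univ _),
      hν _ (Finset.mem_univ _) _ (Finset.mem_univ _), mul_zero, add_zero]
    by_cases h3 : j.1 = i.1 <;> by_cases h4 : j.2 = i.2 <;> simp [h3, h4]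
  have h := QA_eval ((qp W X).map (res Y Z)) (fun i : Fin m × Fin n => res Y Z (qm (w i.1) (x i.2)))
    Finset.univ (fun i _ => Submodule.mem_map_of_mem (QA_mem (hw _) (hx _)))
    (fun j => (φ j.1, ν j.2)) (fun i _ j _ hij => by
      rw [e]
      by_cases h3 : j.1 = i.1
      · rw [if_neg (fun h4 : j.2 = i.2 => hij (Prod.ext h3 h4).symm), mul_zero]
      · rw [if_neg h3, zero_mul]) (fun i _ => by simp [e])
  simpa using h

theorem QA_rb (Y U : Submodule K Λ) (x : Λ) (hx : x ∉ Y) :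
    finrank K ↥(U ⊔ Y) ≤ finrank K ((qp (K ∙ x) U).map (res Y Y)) + finrank K Y := by
  have h0 := Submodule.finrank_mono (le_sup_right : Y ≤ U ⊔ Y)
  obtain ⟨u, hu, hu'⟩ := QA_pick U Y (finrank K ↥(U ⊔ Y) - finrank K Y) (by omega)
  have := QA_fin (K ∙ x) U
  have h := QA_card ((qp (K ∙ x) U).map (res Y Y)) (fun i => res Y Y (qm x (u i))) Finset.univ
    (fun i _ => Submodule.mem_map_of_mem (QA_mem (Submodule.mem_span_singleton_self x) (hu i)))
    fun c hc i => by
      refine hu' (fun i => c ⟨i, Finset.mem_univ i⟩) ?_ i (Finset.mem_univ _)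
      by_contra h1
      obtain ⟨f, h2, h3⟩ := QA_sep2 hx h1
      have h4 := congrFun hc (f, f)
      rw [← Finset.sum_coe_sort, map_sum] at h3
      simp only [Finset.sum_apply, Pi.smul_apply, res_qm, smul_eq_mul, Pi.zero_apply] at h4
      simp only [map_smul, smul_eq_mul] at h3
      refine mul_ne_zero (mul_ne_zero two_ne_zero h2) h3 ?_
      rw [← h4, Finset.mul_sum]
      exact Finset.sum_congr rfl fun i _ => by ring
  simp only [Finset.card_univ, Fintype.card_fin] at h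
  omega

theorem QA_rb0 (U : Submodule K Λ) (x : Λ) (hx : x ≠ 0) :
    finrank K U ≤ finrank K (qp (K ∙ x) U) := by
  have h := QA_rb ⊥ U x hx
  have := QA_fin (K ∙ x) U
  have h1 := Submodule.finrank_map_le (res (⊥ : Submodule K Λ) ⊥) (qp (K ∙ x) U)
  rw [sup_bot_eq, finrank_bot] at h
  omega

theorem QA_rc (Y Z : Submodule K Λ) (ι : Type) (x : ι → Λ) (N : Finset ι) (h1 : ∀ i ∈ N, x i ∉ Y)
    (h2 : ∀ c : ι → K, ∑ i ∈ N, c i • x i ∈ Z → ∀ i ∈ N, c i = 0) :
    N.card ≤ finrank K ((qs x N).map (res Y Z)) := by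
  obtain ⟨φ, hφ⟩ := QA_dual h2
  choose! ν hν using fun i hi => QA_sep (h1 i hi)
  have := QA_fins (K := K) x N
  refine QA_eval _ (fun i => res Y Z (qm (x i) (x i))) N
    (fun i hi => Submodule.mem_map_of_mem (Submodule.subset_span ⟨i, hi, rfl⟩))
    (fun j => (φ j, ν j)) (fun i hi j hj hij => ?_) fun i hi => ?_
  · simp [res_qm, hφ j hj i hi, hij.symm]
  · simpa [res_qm, hφ i hi i hi] using hν i hi

theorem QA_rd (Y : Submodule K Λ) (ι : Type) (x : ι → Λ) (N : Finset ι) :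
    finrank K ↥(Submodule.span K (x '' N) ⊔ Y)
      ≤ finrank K ((qs x N).map (res Y Y)) + finrank K Y := by
  obtain ⟨b, hb, -, h1, h2⟩ := exists_linearIndepOn_extension
    (linearIndepOn_empty K fun i => Y.mkQ (x i)) (Set.empty_subset (N : Set ι))
  lift b to Finset ι using N.finite_toSet.subset hb
  have h3 := QA_rc Y Y ι x b (fun i hi h => h2.ne_zero hi ((Submodule.Quotient.mk_eq_zero Y).2 h))
    (QA_li.2 h2)
  have := QA_fins (K := K) x N
  have h4 : finrank K ((qs x b).map (res Y Y)) ≤ finrank K ((qs x N).map (res Y Y)) :=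
    Submodule.finrank_mono (Submodule.map_mono (Submodule.span_mono
      (by rintro _ ⟨i, hi, rfl⟩; exact ⟨i, hb hi, rfl⟩)))
  have h5 : finrank K ((Submodule.span K (x '' N)).map Y.mkQ) ≤ b.card := by
    rw [Submodule.map_span, Set.image_image]
    refine (Submodule.finrank_mono (Submodule.span_le.2 h1)).trans ?_
    rw [← Finset.coe_image]
    exact (finrank_span_finset_le_card _).trans Finset.card_image_le
  have := QA_dim (Submodule.span K (x '' N)) Y
  omega

theorem QA_re (Y : Submodule K Λ) (ι : Type) (x : ι → Λ) (N : Finset ι) (i j k : ι)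
    (h : ∀ c : ι → K, ∑ i ∈ N, c i • x i ∈ Y → ∀ i ∈ N, c i = 0)
    (hi : i ∈ N) (hj : j ∈ N) (hk : k ∈ N) (hij : i ≠ j) (hik : i ≠ k) (hjk : j ≠ k) :
    N.card + 3 ≤ finrank K ((qs x N ⊔ Submodule.span K
      {qm (x i) (x j), qm (x i) (x k), qm (x j) (x k)}).map (res Y Y)) := by
  obtain ⟨φ, hφ⟩ := QA_dual h
  have := QA_fins (K := K) x N
  have := FiniteDimensional.span_of_finite K (Set.toFinite
    ({qm (x i) (x j), qm (x i) (x k), qm (x j) (x k)} : Set (Dual K Λ → K)))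
  have hP : ∀ a ∈ N.diag ∪ {(i, j), (i, k), (j, k)},
      (a.1 ∈ N ∧ a.1 = a.2) ∨ a = (i, j) ∨ a = (i, k) ∨ a = (j, k) := fun a ha => by
    simpa only [Finset.mem_union, Finset.mem_diag, Finset.mem_insert, Finset.mem_singleton] using ha
  have hN : ∀ a ∈ N.diag ∪ {(i, j), (i, k), (j, k)}, a.1 ∈ N ∧ a.2 ∈ N := fun a ha => by
    rcases hP a ha with h | rfl | rfl | rfl
    exacts [⟨h.1, h.2 ▸ h.1⟩, ⟨hi, hj⟩, ⟨hi, hk⟩, ⟨hj, hk⟩]
  have h1 := QA_eval ((qs x N ⊔ Submodule.span K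
      {qm (x i) (x j), qm (x i) (x k), qm (x j) (x k)}).map (res Y Y))
    (fun a : ι × ι => res Y Y (qm (x a.1) (x a.2))) (N.diag ∪ {(i, j), (i, k), (j, k)})
    (fun a ha => Submodule.mem_map_of_mem (by
      rcases hP a ha with h | rfl | rfl | rfl
      · exact Submodule.mem_sup_left (Submodule.subset_span ⟨a.1, h.1, by rw [← h.2]⟩)
      all_goals exact Submodule.mem_sup_right (Submodule.subset_span (by simp))))
    (fun a => (φ a.1, φ a.2)) (fun a ha b hb hab => by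
      rw [res_qm, hφ _ (hN b hb).1 _ (hN a ha).1, hφ _ (hN b hb).2 _ (hN a ha).2,
        hφ _ (hN b hb).1 _ (hN a ha).2, hφ _ (hN b hb).2 _ (hN a ha).1]
      have g1 : ¬ (b.1 = a.1 ∧ b.2 = a.2) := fun h => hab (Prod.ext h.1 h.2).symm
      have g2 : ¬ (b.1 = a.2 ∧ b.2 = a.1) := fun h => by
        have g3 := hP a ha
        have g4 := hP b hb
        simp only [Prod.ext_iff] at g3 g4
        grind
      simp only [ite_zero_mul_ite_zero, if_neg g1, if_neg g2, add_zero])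
    (fun a ha => by
      rw [res_qm, hφ _ (hN a ha).1 _ (hN a ha).1, hφ _ (hN a ha).2 _ (hN a ha).2,
        hφ _ (hN a ha).1 _ (hN a ha).2, hφ _ (hN a ha).2 _ (hN a ha).1]
      by_cases h : a.1 = a.2 <;> simp [h])
  rw [Finset.card_union_of_disjoint (Finset.disjoint_right.2 (by
    simp [Finset.mem_diag, hij, hik, hjk])), Finset.diag_card,
    Finset.card_eq_three.2 ⟨_, _, _, by simp [hjk], by simp [hij], by simp [hij], rfl⟩] at h1
  exact h1

theorem QA_rf (W Y : Submodule K Λ) (hW : finrank K W = 4) (hY : finrank K Y = 4)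
    (h : finrank K ↥(W ⊓ Y) ≤ 1) : 16 ≤ finrank K (qp W Y) := by
  have := QA_fin W Y
  have e := Submodule.finrank_sup_add_finrank_inf_eq Y W
  rw [inf_comm] at e
  have h0 : 4 + finrank K (⊥ : Submodule K Λ) ≤ finrank K ↥(W ⊔ ⊥) := by
    rw [sup_bot_eq, finrank_bot, hW]
  by_cases h1 : W ⊓ Y = ⊥
  · rw [h1, finrank_bot] at e
    exact (QA_ra W ⊥ W Y 4 4 le_rfl h0 (by omega)).trans (Submodule.finrank_map_le _ _)
  · obtain ⟨z, hz, hz0⟩ := Submodule.exists_mem_ne_zero_of_ne_bot h1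
    have h2 := QA_ra W ⊥ W Y 4 3 le_rfl h0 (by omega)
    have h3 := QA_rb0 W z hz0
    have h4 := finrank_layer (qp W Y) (qp (K ∙ z) W) (qp W Y) (res W ⊥)
      (QA_le fun a ha b hb => QA_comm (K := K) a b ▸
        QA_mem hb ((Submodule.span_singleton_le_iff_mem _ _).2 hz.2 ha)) le_rfl
      ((QA_le fun a ha b hb =>
        QA_mem ((Submodule.span_singleton_le_iff_mem _ _).2 hz.1 ha) hb).trans (QA_ker1 W ⊥))
    omega

theorem QA_thm : StQ K Λ :=
  ⟨QA_fin, QA_ker1, QA_ker2, fun Y Z W X m n _ => QA_ra Y Z W X m n, QA_rb, QA_rb0, QA_rc, QA_rd,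
    QA_re, QA_rf⟩

end Pool.Agent.Dress
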