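import Pool.Agent.Lib.MP_d237f6_co.DR.Flex

/-! Definitions and statements of the steps of the proof. -/

set_option autoImplicit false

namespace Pool.Agent.Dress

open Matrix Module Classical

variable {K : Type} [Field K]

/-! Quadratic functions on a dual space. -/

section Quad

variable {Λ : Type} [AddCommGroup Λ] [Module K Λ]

/-- the product of two vectors, as a quadratic function on the dual space -/
def qm (x y : Λ) : Dual K Λ → K := fun f => f x * f y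

/-- the span of products -/
def qp (U W : Submodule K Λ) : Submodule K (Dual K Λ → K) :=
  Submodule.span K {ψ | ∃ x ∈ U, ∃ y ∈ W, ψ = qm x y}

/-- the span of squares of a finite family -/
def qs {ι : Type} (x : ι → Λ) (N : Finset ι) : Submodule K (Dual K Λ → K) :=
  Submodule.span K {ψ | ∃ i ∈ N, ψ = qm (x i) (x i)}

/-- the polar form restricted to a product of two annihilators -/
def res (Y Z : Submodule K Λ) :
    (Dual K Λ → K) →ₗ[K] (Z.dualAnnihilator × Y.dualAnnihilator → K) where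
  toFun ψ := fun fn => ψ (fn.1.1 + fn.2.1) - ψ fn.1.1 - ψ fn.2.1
  map_add' := fun a b => by ext fn; simp only [Pi.add_apply]; ring
  map_smul' := fun c a => by ext fn; simp only [Pi.smul_apply, smul_eq_mul, RingHom.id_apply]; ring

theorem res_qm (Y Z : Submodule K Λ) (x y : Λ) (fn : Z.dualAnnihilator × Y.dualAnnihilator) :
    res Y Z (qm x y) fn = fn.1.1 x * fn.2.1 y + fn.1.1 y * fn.2.1 x := by
  simp only [res, qm, LinearMap.coe_mk, AddHom.coe_mk, LinearMap.add_apply]; ring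

end Quad

/-- tools for counting dimensions of spaces of products -/
structure StQ (K : Type) [Field K] (Λ : Type) [AddCommGroup Λ] [Module K Λ] : Prop where
  fin : ∀ U W : Submodule K Λ, FiniteDimensional K (qp U W)
  ker1 : ∀ Y Z : Submodule K Λ, qp Y Y ≤ LinearMap.ker (res Y Z)
  ker2 : ∀ Y Z : Submodule K Λ, Z ≤ Y → qp Z ⊤ ≤ LinearMap.ker (res Y Z)
  ra : ∀ (Y Z W X : Submodule K Λ) (m n : ℕ), Z ≤ Y → W ≤ Y →
    m + finrank K Z ≤ finrank K ↥(W ⊔ Z) → n + finrank K Y ≤ finrank K ↥(X ⊔ Y) →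
    m * n ≤ finrank K ((qp W X).map (res Y Z))
  rb : ∀ (Y U : Submodule K Λ) (x : Λ), x ∉ Y →
    finrank K ↥(U ⊔ Y) ≤ finrank K ((qp (K ∙ x) U).map (res Y Y)) + finrank K Y
  rb0 : ∀ (U : Submodule K Λ) (x : Λ), x ≠ 0 → finrank K U ≤ finrank K (qp (K ∙ x) U)
  rc : ∀ (Y Z : Submodule K Λ) (ι : Type) (x : ι → Λ) (N : Finset ι), (∀ i ∈ N, x i ∉ Y) →
    (∀ c : ι → K, ∑ i ∈ N, c i • x i ∈ Z → ∀ i ∈ N, c i = 0) →
    N.card ≤ finrank K ((qs x N).map (res Y Z))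
  rd : ∀ (Y : Submodule K Λ) (ι : Type) (x : ι → Λ) (N : Finset ι),
    finrank K ↥(Submodule.span K (x '' N) ⊔ Y)
      ≤ finrank K ((qs x N).map (res Y Y)) + finrank K Y
  re : ∀ (Y : Submodule K Λ) (ι : Type) (x : ι → Λ) (N : Finset ι) (i j k : ι),
    (∀ c : ι → K, ∑ i ∈ N, c i • x i ∈ Y → ∀ i ∈ N, c i = 0) →
    i ∈ N → j ∈ N → k ∈ N → i ≠ j → i ≠ k → j ≠ k →
    N.card + 3 ≤ finrank K ((qs x N ⊔ Submodule.span K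
      {qm (x i) (x j), qm (x i) (x k), qm (x j) (x k)}).map (res Y Y))
  rf : ∀ W Y : Submodule K Λ, finrank K W = 4 → finrank K Y = 4 → finrank K ↥(W ⊓ Y) ≤ 1 →
    16 ≤ finrank K (qp W Y)

variable {V : Type} [DecidableEq V] [Fintype V]

/-- a lifted configuration with a space of quadratic relations -/
structure QS (g : Gen V K) (Λ : Type) [AddCommGroup Λ] [Module K Λ] where
  ev : V → Λ
  pr : Λ →ₗ[K] Vec K
  hpr : ∀ v, pr (ev v) = g.p v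
  R : Submodule K (Dual K Λ → K)

namespace QS

variable {g : Gen V K} {Λ : Type} [AddCommGroup Λ] [Module K Λ] (q : QS g Λ)

/-- the span of the lifts of a set of vertices -/
def sp (A : Finset V) : Submodule K Λ := Submodule.span K (q.ev '' A)

/-- a class: five points and a four dimensional space joined to them -/
structure Cls (A : Finset V) (W : Submodule K Λ) : Prop where
  card : A.card = 5
  dimW : finrank K W = 4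
  dimY : finrank K (q.sp A) = 4
  iota : finrank K ↥(W ⊓ q.sp A) ≤ 1
  wy : qp W (q.sp A) ≤ q.R
  sq : qs q.ev A ≤ q.R

/-- the dimension bound at a subspace -/
def Bd (U : Submodule K Λ) (c : ℕ) : Prop :=
  finrank K ↥(q.R ⊓ qp U U) + c ≤ 4 * finrank K U

/-- counts that use genericity -/
structure StQB : Prop where
  base : ∀ A W, q.Cls A W → 21 ≤ finrank K ↥(qp W (q.sp A) ⊔ qs q.ev A) + finrank K ↥(W ⊓ q.sp A)
  gen : ∀ (Y E : Submodule K Λ) (A N : Finset V) (v : V), 4 ≤ A.card → q.sp A ≤ Y →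
    finrank K Y ≤ 4 → N.card ≤ 5 → v ∉ N → q.sp N ≤ Y → q.ev v ∈ E → E ⊓ Y ≤ K ∙ q.ev v →
    N.card ≤ finrank K ((qs q.ev N).map (res E E))

/-- one class and a neighbour of degree at most six -/
def StK1 : Prop := ∀ (A N : Finset V) (W : Submodule K Λ) (i : V), q.Cls A W → i ∈ A → i ∉ N →
  N.card ≤ 5 → W ≤ q.sp (insert i N) → qs q.ev N ≤ q.R →
  (∀ u ∈ N, qm (q.ev i) (q.ev u) ∈ q.R) → (∀ U, W ≤ U → q.Bd U 8) →
  N.card = 5 ∧ Disjoint N A ∧ ∀ x ∈ N, ∀ y ∈ N, ∀ z ∈ N, x ≠ y → x ≠ z → y ≠ z →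
    ¬ (qm (q.ev x) (q.ev y) ∈ q.R ∧ qm (q.ev x) (q.ev z) ∈ q.R ∧ qm (q.ev y) (q.ev z) ∈ q.R)

/-- four or five vertices in one class -/
def StKW : Prop := ∀ (A : Finset V) (W : Submodule K Λ), q.Cls A W →
  ¬ q.Bd (W ⊔ q.sp A) 12 ∧
  ∀ x ∈ W, x ≠ 0 → qm x x ∈ q.R → ¬ q.Bd (W ⊔ q.sp A) 11

/-- two different classes at a vertex of degree seven -/
structure Phi (v : V) (N A₁ A₂ : Finset V) (E W₁ W₂ : Submodule K Λ) : Prop where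
  c1 : q.Cls A₁ W₁
  c2 : q.Cls A₂ W₂
  v1 : v ∈ A₁
  v2 : v ∈ A₂
  vN : v ∉ N
  cardN : N.card ≤ 3
  dimE : finrank K E ≤ 7
  vE : q.ev v ∈ E
  NE : q.sp N ≤ E
  W1E : W₁ ≤ E
  W2E : W₂ ≤ E
  vR : qp (K ∙ q.ev v) E ≤ q.R
  NR : qs q.ev N ≤ q.R
  vW1 : q.ev v ∉ W₁
  vW2 : q.ev v ∉ W₂
  h1 : ∀ a ∈ A₁, qm (q.ev v) (q.ev a) ∈ q.R → q.ev a ∈ E
  h2 : ∀ a ∈ A₂, qm (q.ev v) (q.ev a) ∈ q.R → q.ev a ∈ E
  neW : W₁ ≠ W₂
  neA : A₁ ≠ A₂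
  bd : ∀ U, E ≤ U → q.Bd U (14 - N.card)
  bd2 : ∀ U, W₁ ≤ U → W₂ ≤ U → q.Bd U 9

/-- first step: the trace of the five points on the star space has dimension at most two -/
def StPh1 : Prop := ∀ v N A₁ A₂ E W₁ W₂, q.Phi v N A₁ A₂ E W₁ W₂ →
  finrank K ↥(E ⊓ q.sp A₁) ≤ 2 ∧ (finrank K ↥(E ⊓ q.sp A₁) = 2 →
    4 * finrank K ↥(E ⊔ q.sp A₁) + N.card
      ≤ finrank K ↥(q.R ⊓ qp (E ⊔ q.sp A₁) (E ⊔ q.sp A₁)) + 15)

def StPh2 : Prop := ∀ v N A₁ A₂ E W₁ W₂, q.Phi v N A₁ A₂ E W₁ W₂ →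
  finrank K ↥(E ⊓ q.sp A₁) = 2 → ¬ q.sp A₂ ≤ E ⊔ q.sp A₁ → False

def StPh3 : Prop := ∀ v N A₁ A₂ E W₁ W₂, q.Phi v N A₁ A₂ E W₁ W₂ →
  finrank K ↥(E ⊓ q.sp A₁) = 2 → q.sp A₂ ≤ E ⊔ q.sp A₁ → False

def StPh4 : Prop := ∀ v N A₁ A₂ E W₁ W₂, q.Phi v N A₁ A₂ E W₁ W₂ →
  finrank K ↥(E ⊓ q.sp A₁) ≤ 1 → finrank K ↥(E ⊓ q.sp A₂) ≤ 1 → False

end QS

/-- the graph with the two edges from a rod to a third vertex added -/
def addT (F : V → V → Prop) (a c x : V) : V → V → Prop :=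
  fun u v => F u v ∨ (u = a ∧ v = x) ∨ (u = c ∧ v = x)

namespace Gen

variable (g : Gen V K)

/-! Cliques through a vertex. -/

/-- maximal cliques of the closure with at least five vertices -/
def MaxC (F : V → V → Prop) (X : Finset V) : Prop :=
  5 ≤ X.card ∧ g.Clq F X ∧ ∀ Y, g.Clq F Y → X ⊆ Y → Y = X

def StRB : Prop := ∀ (E : Finset (Sym2 V)) (Z : Finset V), 3 ≤ Z.card →
  (∀ e ∈ E, ¬ e.IsDiag ∧ ∀ x ∈ e, x ∈ Z) →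
  (∀ σ, g.Stress σ → On (fun u v => s(u, v) ∈ E) σ → σ = 0) → E.card + 6 ≤ 3 * Z.card

def StCone : Prop := ∀ (v : V) (Y : Finset V) (E : Finset (Sym2 V)), v ∉ Y →
  (∀ e ∈ E, ¬ e.IsDiag ∧ ∀ x ∈ e, x ∈ Y) →
  (∀ Y' ⊆ Y, 2 ≤ Y'.card → (E.filter (fun e => ∀ x ∈ e, x ∈ Y')).card + 3 ≤ 2 * Y'.card) →
  ∀ σ, g.Stress σ → On (fun a b => s(a, b) ∈ E ∨ (a = v ∧ b ∈ Y)) σ → σ = 0

def StLCc : Prop := ∀ (F : V → V → Prop) (v : V) (C : Finset (Finset V))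
  (S : Finset V → Finset V), 2 ≤ C.card →
  (∀ X ∈ C, g.MaxC F X ∧ v ∈ X ∧ S X ⊆ X.erase v ∧ 2 ≤ (S X).card) →
  ∑ X ∈ C, 2 * (S X).card + 4 ≤ 2 * (C.biUnion S).card + 3 * C.card

/-- a family of stresses on the maximal cliques -/
def Fam (F : V → V → Prop) (κ : Finset V → V → V → K) : Prop :=
  (∀ X, g.Stress (κ X)) ∧ (∀ X, κ X ≠ 0 → g.MaxC F X) ∧ ∀ X u v, κ X u v ≠ 0 → u ∈ X

def StDec : Prop := ∀ F σ, σ ∈ g.KK F → ∃ κ, g.Fam F κ ∧ σ = ∑ X, κ X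

def StD2 : Prop := ∀ F κ, g.Fam F κ → ∑ X, κ X = 0 → ∀ X, κ X = 0

def StLC : Prop := ∀ (F : V → V → Prop) (σ : V → V → K) (v : V), σ ∈ g.KK F → σ v ≠ 0 →
  (nb σ v).card ≤ 7 → g.Clq F (insert v (nb σ v)) ∨
  ∃ (h : V) (S₁ S₂ : Finset V) (r₁ r₂ : V → K), h ≠ v ∧ h ∉ S₁ ∧ h ∉ S₂ ∧ Disjoint S₁ S₂ ∧
    3 ≤ S₁.card ∧ 3 ≤ S₂.card ∧ S₁ ⊆ nb σ v ∧ S₂ ⊆ nb σ v ∧ nb σ v ⊆ insert h (S₁ ∪ S₂) ∧
    g.Dep r₁ ∧ g.Dep r₂ ∧ σ v = r₁ + r₂ ∧ (∀ u, u ∉ insert v (insert h S₁) → r₁ u = 0) ∧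
    (∀ u, u ∉ insert v (insert h S₂) → r₂ u = 0) ∧ g.Clq F (insert v (insert h S₁)) ∧
    g.Clq F (insert v (insert h S₂))

/-! Test vertices. -/

def StTV : Prop := g.IH → ∀ (F : V → V → Prop) (w z : V) (S : Finset V) (γ : V → K), w ≠ z →
  Isol F w → Isol F z → w ∉ S → z ∉ S → S.Nonempty → S.card ≤ 7 → g.Dep γ →
  (∀ u, u ∉ insert w S → γ u = 0) → (∀ u ∈ S, γ u ≠ 0) →
  (∀ U ∈ g.flex F, ∑ u, γ u * (U u ⬝ᵥ g.p w) = 0) →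
  (S.card ≤ 5 ∨ (γ w = 0 ∧ ∀ k u, g.d w k (γ u) = 0)) →
  ∃ χ : (V → Vec K) →ₗ[K] (Fin (S.card - 4) → K),
    ∀ U ∈ g.flex F, χ U = 0 → ∀ s ∈ S, ∀ t ∈ S, dl g.p U s t = 0

def StPPL : Prop := g.IH → ∀ (F : V → V → Prop) (w z a c : V) (T : Finset V) (ρ : K), w ≠ z →
  Isol F w → Isol F z → T.card = 3 → a ≠ c → a ∉ T → c ∉ T →
  w ∉ insert a (insert c T) → z ∉ insert a (insert c T) → g.Link F a c → g.Clq F T → ρ ≠ 0 →
  (∀ U ∈ g.flex F, ∀ x ∈ T, dl g.p U a x + ρ * dl g.p U c x = 0) →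
  ∃ t : V → K, ∀ U ∈ g.flex F, ∃ s : K, ∀ x ∈ T, dl g.p U c x = s * t x

/-! The minimal counterexample. -/

/-- stresses of the closure outside the clique space -/
def NK (G : V → V → Prop) (ω : V → V → K) : Prop :=
  g.Stress ω ∧ (∀ u v, ω u v ≠ 0 → g.Link G u v) ∧ ω ∉ g.KK G

/-- those with minimal support -/
def Bad (G : V → V → Prop) (ω : V → V → K) : Prop :=
  g.NK G ω ∧ ∀ ω', g.NK G ω' → (∀ u v, adj ω' u v → adj ω u v) → ∀ u v, adj ω u v → adj ω' u v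

/-- the properties of a minimal counterexample -/
structure Ctx (G : V → V → Prop) : Prop where
  ih : g.IH
  span : ∀ ω, g.NK G ω → g.flex (adj ω) = g.flex G
  red : ∀ ω, g.NK G ω → ∃ ω', g.Bad G ω' ∧ ∀ u v, adj ω' u v → adj ω u v
  circ : ∀ ω σ, g.Bad G ω → g.Stress σ → On (adj ω) σ → ∃ t : K, σ = t • ω
  ind : ∀ ω σ z, g.Bad G ω → g.Stress σ → On (adj ω) σ → nb σ z = ∅ → σ = 0
  cl : ∀ ω v, g.NK G ω → ¬ g.Clq G (insert v (nb ω v))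
  d5 : ∀ ω v, g.NK G ω → 5 ≤ (nb ω v).card
  rd : ∀ ω v (S : Finset V) s, g.NK G ω → S ⊆ nb ω v → S.card = 4 → g.Clq G (insert v S) →
    s ∈ S → ∃ ω', g.Bad G ω' ∧ nb ω' v ⊆ (nb ω v).erase s ∧
      ∀ u, u ∉ insert v S → nb ω' u ⊆ nb ω u
  gw : ∀ ω w, g.NK G ω → (nb ω w).card = 5 →
    g.flex (del (adj ω) w) = g.flex (del (g.Link G) w)
  gwS : ∀ ω (D : Finset V), g.NK G ω → D.Nonempty → (∀ w ∈ D, (nb ω w).card = 5) →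
    g.flex (delS (adj ω) D) = g.flex (delS (g.Link G) D)
  xl : ∀ ω w s t (B : Finset V), g.Bad G ω → (nb ω w).card = 5 → s ≠ w → t ≠ w → s ≠ t →
    g.Link G s t → t ∉ nb ω s → B.card ≤ 2 → ∃ ω' u, g.Bad G ω' ∧ u ∉ B ∧ u ≠ w ∧ u ∈ nb ω s ∧
      t ∈ nb ω' s ∧ nb ω' w = nb ω w ∧ nb ω' s ⊆ insert t ((nb ω s).erase u) ∧
      nb ω' t ⊆ insert s (nb ω t) ∧ ∀ x, x ≠ s → x ≠ t → nb ω' x ⊆ nb ω x
  ng : ∀ ω v w x, g.NK G ω → w ∈ nb ω v → (nb ω w).card = 5 → x ≠ v → x ∉ nb ω v →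
    g.Link G v x → 3 ≤ ((nb ω v).filter (fun u => (nb ω u).card ≠ 5)).card
  cnt : ∀ ω, g.Bad G ω → ∑ v, (nb ω v).card + 10 ≤ 6 * Fintype.card V

def StCtx : Prop := g.IH → ¬ g.D1 → ∃ G ω, g.Ctx G ∧ g.Bad G ω

/-- second type: all flexes are projective on the five neighbours -/
def T2 (G : V → V → Prop) (w : V) (A : Finset V) : Prop :=
  ∀ α, g.Dep α → (∀ u, u ∉ A → α u = 0) →
    ∀ U ∈ g.flex (del (g.Link G) w), ∑ u, α u • U u = 0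

/-- first type: a rod turning about a point of its line that is fixed relative to a triangle -/
structure T1 (G : V → V → Prop) (w a c : V) (T : Finset V) (ρ : K) : Prop where
  card : T.card = 3
  ac : a ≠ c
  aT : a ∉ T
  cT : c ∉ T
  wa : w ≠ a
  wc : w ≠ c
  wT : w ∉ T
  lac : g.Link G a c
  lT : g.Clq G T
  rho : ρ ≠ 0
  rel : ∀ U ∈ g.flex (del (g.Link G) w), ∀ x ∈ T, dl g.p U a x + ρ * dl g.p U c x = 0
  off : ∀ φ : Vec K, (∀ x ∈ T, φ ⬝ᵥ g.p x = 0) → φ ⬝ᵥ (g.p a + ρ • g.p c) = 0 → φ = 0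
  onto : ∀ θ : Vec K, θ ⬝ᵥ g.p a = 0 → θ ⬝ᵥ g.p c = 0 → ∃ U ∈ g.flex (del (g.Link G) w),
    U w = 0 ∧ (∀ x ∈ T, U x = 0) ∧ U c = θ ∧ U a = -(ρ • θ)

/-- a vertex of degree five and second type -/
structure Set2 (G : V → V → Prop) (ω : V → V → K) (w : V) : Prop where
  ctx : g.Ctx G
  bad : g.Bad G ω
  deg : (nb ω w).card = 5
  t2 : g.T2 G w (nb ω w)

/-- a vertex of degree five and first type -/
structure Set1 (G : V → V → Prop) (ω : V → V → K) (w a c : V) (T : Finset V) (ρ : K) :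
    Prop where
  ctx : g.Ctx G
  bad : g.Bad G ω
  t1 : g.T1 G w a c T ρ
  nbw : nb ω w = insert a (insert c T)

def StCl : Prop := ∀ G ω w, g.Ctx G → g.Bad G ω → (nb ω w).card = 5 →
  g.Set2 G ω w ∨ ∃ a c T ρ, g.Set1 G ω w a c T ρ

def StT2 : Prop := ∀ G ω w, g.Set2 G ω w → ω w w = 0 ∧
  (∀ U ∈ g.flex (del (adj ω) w), ∃ M : Mat K, ∀ a ∈ nb ω w, M *ᵥ g.p a = U a) ∧
  (∃ U ∈ g.flex (del (adj ω) w), ∃ M : Mat K, (∀ a ∈ nb ω w, M *ᵥ g.p a = U a) ∧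
    bil M (g.p w) (g.p w) ≠ 0) ∧
  (∃ U ∈ g.flex (adj ω), ∃ M : Mat K, (∀ a ∈ nb ω w, M *ᵥ g.p a = U a) ∧
    bil M (g.p w) (g.p w) = 0 ∧ M + Mᵀ ≠ 0)

/-! The lifted configuration attached to a set of vertices of second type. -/

/-- positions of real and virtual vertices -/
def Ph : V ⊕ V × Fin 4 → Vec K
  | Sum.inl v => g.p v
  | Sum.inr jk => Pi.single jk.2 1

/-- edges and loops of the graph with virtual vertices -/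
def Eh (ω : V → V → K) (D : Finset V) : V ⊕ V × Fin 4 → V ⊕ V × Fin 4 → Prop
  | Sum.inl u, Sum.inl v => u ∉ D ∧ v ∉ D ∧ g.Link (delS (adj ω) D) u v
  | Sum.inl u, Sum.inr jk => jk.1 ∈ D ∧ u ∈ nb ω jk.1
  | Sum.inr jk, Sum.inl u => jk.1 ∈ D ∧ u ∈ nb ω jk.1
  | Sum.inr _, Sum.inr _ => False

/-- its stresses -/
def Sh (ω : V → V → K) (D : Finset V) (Ω : V ⊕ V × Fin 4 → V ⊕ V × Fin 4 → K) : Prop :=
  (∀ i j, Ω i j = Ω j i) ∧ (∀ i j, Ω i j ≠ 0 → g.Eh ω D i j) ∧ ∀ i, ∑ j, Ω i j • g.Ph j = 0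

/-- the span of the rows of all stresses -/
def L0 (ω : V → V → K) (D : Finset V) : Submodule K (V ⊕ V × Fin 4 → K) :=
  Submodule.span K {r | ∃ Ω i, g.Sh ω D Ω ∧ r = Ω i}

/-- the dual of the shared stress kernel -/
abbrev Lam (ω : V → V → K) (D : Finset V) : Type := (V ⊕ V × Fin 4 → K) ⧸ g.L0 ω D

/-- the class of a vertex -/
noncomputable def eh (ω : V → V → K) (D : Finset V) (i : V ⊕ V × Fin 4) : g.Lam ω D :=
  (g.L0 ω D).mkQ (Pi.single i 1)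

/-- the lifted configuration -/
noncomputable def qh (ω : V → V → K) (D : Finset V) : QS g (g.Lam ω D) where
  ev v := g.eh ω D (Sum.inl v)
  pr := (g.L0 ω D).liftQ (Fintype.linearCombination K g.Ph) (Submodule.span_le.2 (by
    rintro _ ⟨Ω, i, h, rfl⟩
    exact h.2.2 i))
  hpr v := by simp [eh, Ph]
  R := Submodule.span K {ψ | ∃ i j, g.Eh ω D i j ∧ ψ = qm (g.eh ω D i) (g.eh ω D j)}

/-- the span of the four virtual copies of a vertex -/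
noncomputable def Wh (ω : V → V → K) (D : Finset V) (j : V) : Submodule K (g.Lam ω D) :=
  Submodule.span K (Set.range fun k : Fin 4 => g.eh ω D (Sum.inr (j, k)))

/-- an independent set of vertices of second type -/
def SetD (G : V → V → Prop) (ω : V → V → K) (D : Finset V) : Prop :=
  D.Nonempty ∧ (∀ w ∈ D, g.Set2 G ω w) ∧ ∀ w ∈ D, ∀ w' ∈ D, w' ∉ nb ω w

/-- flexes and first order changes lie in the shared kernel -/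
def StKh0 : Prop := ∀ (ω : V → V → K) (D : Finset V) (f f' : Dual K (g.Lam ω D))
  (h : V ⊕ V × Fin 4 → Vec K), (∀ i j, g.Eh ω D i j → dl g.Ph h i j =
    f (g.eh ω D i) * f' (g.eh ω D j) + f' (g.eh ω D i) * f (g.eh ω D j)) →
  ∃ H : g.Lam ω D →ₗ[K] Vec K, ∀ i, H (g.eh ω D i) = h i

/-- independence of the loop conditions -/
def StKh1 : Prop := ∀ G ω D, g.SetD G ω D → ∀ t : V → K,
  ∃ U ∈ g.flex (delS (adj ω) D), ∃ M : V → Mat K, ∀ j ∈ D,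
    (∀ a ∈ nb ω j, M j *ᵥ g.p a = U a) ∧ bil (M j) (g.p j) (g.p j) = t j

def StKhA : Prop := ∀ G ω D, g.SetD G ω D →
  (∀ J ⊆ D, J.Nonempty → ∀ U, (∀ j ∈ J, g.Wh ω D j ≤ U) → (g.qh ω D).Bd U (7 + J.card)) ∧
  (∀ u v, u ∉ D → v ∉ D → qm ((g.qh ω D).ev u) ((g.qh ω D).ev v) ∈ (g.qh ω D).R →
    g.Link G u v) ∧
  ∀ j ∈ D, finrank K ↥(g.Wh ω D j ⊓ (g.qh ω D).sp (nb ω j)) ≤ 1

def StKhB : Prop := ∀ G ω D, g.SetD G ω D →
  (∀ j ∈ D, finrank K (g.Wh ω D j) = 4 ∧ finrank K ((g.qh ω D).sp (nb ω j)) = 4 ∧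
    qp (g.Wh ω D j) ((g.qh ω D).sp (nb ω j)) ≤ (g.qh ω D).R) ∧
  (∀ u v, u ∉ D → v ∉ D → g.Link G u v →
    qm ((g.qh ω D).ev u) ((g.qh ω D).ev v) ∈ (g.qh ω D).R) ∧
  (∀ j ∈ D, ∀ j' ∈ D, nb ω j = nb ω j' → g.Wh ω D j = g.Wh ω D j') ∧
  (∀ v j, j ∈ D → v ∈ nb ω j → nb ω v ∩ D = {j} →
    g.Wh ω D j ≤ (g.qh ω D).sp (insert v (nb ω v \ D))) ∧
  ∀ v j, j ∈ D → v ∈ nb ω j → ∃ E : Submodule K (g.Lam ω D), finrank K E ≤ (nb ω v).card ∧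
    (g.qh ω D).sp (insert v (nb ω v \ D)) ≤ E ∧ (∀ j' ∈ nb ω v ∩ D, g.Wh ω D j' ≤ E) ∧
    qp (K ∙ (g.qh ω D).ev v) E ≤ (g.qh ω D).R

/-- neighbours of a vertex of second type -/
def StN2 : Prop := ∀ G ω w i, g.Set2 G ω w → i ∈ nb ω w → (nb ω i).card ≠ 5 ∧
  ((nb ω i).card = 6 → (∀ a ∈ nb ω w, a ≠ i → ¬ g.Link G i a) ∧
    ∀ S ⊆ (nb ω i).erase w, S.card = 3 → ¬ g.Clq G S)

/-! Two neighbours of degree six. -/

/-- velocities that are projective up to one vector -/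
def Lift (N : Finset V) (c : V → K) (U : V → Vec K) (L : Mat K) (β : Vec K) : Prop :=
  ∀ j ∈ N, U j = L *ᵥ g.p j + c j • β

/-- the edge conditions at a new vertex -/
def Bf (i : V) (s : (V → Vec K) × Mat K) (j : V) : K := (s.1 j + s.2ᵀ *ᵥ g.p j) ⬝ᵥ g.p i

/-- all six conditions vanish -/
def Zf (i : V) (N : Finset V) (s : (V → Vec K) × Mat K) : Prop :=
  (∀ j ∈ N, g.Bf i s j = 0) ∧ bil s.2 (g.p i) (g.p i) = 0

/-- six conditions of rank two -/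
structure CHyp (i : V) (A N : Finset V) (S : Submodule K ((V → Vec K) × Mat K)) : Prop where
  cardA : A.card = 4
  cardN : N.card = 5
  disj : Disjoint A N
  iA : i ∉ A
  iN : i ∉ N
  stab : ∀ k, ∀ s ∈ S, (dU (g.d i k) s.1, dm (g.d i k) s.2) ∈ S
  hM : ∀ s ∈ S, ∀ a ∈ A, s.2 *ᵥ g.p a = s.1 a
  hl : ∀ s ∈ S, ∀ x ∈ A ∪ N, s.1 x ⬝ᵥ g.p x = 0
  rel : ∀ z : Vec K, ∃ (μ : V → K) (μ₀ : K), ∑ j ∈ N, μ j • g.p j + μ₀ • g.p i = z ∧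
    ∀ s ∈ S, ∑ j ∈ N, μ j * g.Bf i s j + μ₀ * bil s.2 (g.p i) (g.p i) = 0
  ind : ∀ γ, g.Dep γ → (∀ u, u ∉ insert i N → γ u = 0) →
    (∀ s ∈ S, ∑ j ∈ N, γ j * (s.1 j ⬝ᵥ g.p i) = 0) → γ = 0
  m2 : ∃ s ∈ S, ∃ s' ∈ S, g.Zf i N s ∧ g.Zf i N s' ∧
    ∀ t t' : K, t • (s.2 + s.2ᵀ) + t' • (s'.2 + s'.2ᵀ) = 0 → t = 0 ∧ t' = 0
  unl : ∀ a ∈ A, ∃ s ∈ S, g.Zf i N s ∧ sb s.2 (g.p i) (g.p a) ≠ 0
  tri : ∀ T ⊆ N, T.card = 3 → ∃ s ∈ S, ∃ x ∈ T, ∃ y ∈ T, dl g.p s.1 x y ≠ 0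

def StCB : Prop := ∀ i A N S, g.CHyp i A N S → ∀ j ∈ N, ∀ k ∈ N, ∃ t t' : K,
  (t ≠ 0 ∨ t' ≠ 0) ∧ ∀ s ∈ S, t * g.Bf i s j + t' * g.Bf i s k = 0

def StCc : Prop := ∀ i A N S, g.CHyp i A N S → ∃ c : V → K, (∀ k j, g.d i k (c j) = 0) ∧
  ∀ s ∈ S, ∃ β, g.Lift N c s.1 (-s.2ᵀ) β

/-- the structure at a neighbour of degree six -/
structure CD (ω : V → V → K) (w i : V) (c : V → K) : Prop where
  cst : ∀ k j, g.d i k (c j) = 0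
  ac : ∀ α, g.Dep α → (∀ u, u ∉ (nb ω i).erase w → α u = 0) → ∑ u, α u * c u = 0 → α = 0
  few : (((nb ω i).erase w).filter (fun j => c j = 0)).card ≤ 3
  lift : ∀ U ∈ g.flex (del (del (adj ω) w) i), ∀ M : Mat K,
    (∀ a ∈ (nb ω w).erase i, M *ᵥ g.p a = U a) → ∃ β, g.Lift ((nb ω i).erase w) c U (-Mᵀ) β

def StCg : Prop := ∀ G ω w i, g.Set2 G ω w → i ∈ nb ω w → (nb ω i).card = 6 →
  ∃ c, g.CD ω w i c

def StP2 : Prop := ∀ G ω w i i' c c', g.Set2 G ω w → i ∈ nb ω w → i' ∈ nb ω w → i ≠ i' →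
  (nb ω i).card = 6 → (nb ω i').card = 6 → g.CD ω w i c → g.CD ω w i' c' →
  ∀ U ∈ g.flex (del (del (del (adj ω) w) i) i'), ∀ L β L' β',
    g.Lift ((nb ω i).erase w) c U L β → g.Lift ((nb ω i').erase w) c' U L' β' →
    L = L' ∧ ∀ b ∈ ((nb ω w).erase i).erase i', U b = -(Lᵀ *ᵥ g.p b)

/-- the data on the graph with three vertices removed -/
structure PD (F : V → V → Prop) (w z : V) (B N N' : Finset V) (c c' : V → K)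
    (L : (V → Vec K) →ₗ[K] Mat K) (β β' : (V → Vec K) →ₗ[K] Vec K) : Prop where
  wz : w ≠ z
  isw : Isol F w
  isz : Isol F z
  wn : w ∉ B ∪ N ∪ N'
  zn : z ∉ B ∪ N ∪ N'
  cardB : B.card = 3
  cardN : N.card = 5
  cardN' : N'.card = 5
  disj : Disjoint B N
  disj' : Disjoint B N'
  lift : ∀ U ∈ g.flex F, g.Lift N c U (L U) (β U)
  lift' : ∀ U ∈ g.flex F, g.Lift N' c' U (L U) (β' U)
  hB : ∀ U ∈ g.flex F, ∀ b ∈ B, U b = -((L U)ᵀ *ᵥ g.p b)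
  ac : ∀ α, g.Dep α → (∀ u, u ∉ N → α u = 0) → ∑ u, α u * c u = 0 → α = 0
  ac' : ∀ α, g.Dep α → (∀ u, u ∉ N' → α u = 0) → ∑ u, α u * c' u = 0 → α = 0
  few : (N.filter (fun j => c j = 0)).card ≤ 3
  few' : (N'.filter (fun j => c' j = 0)).card ≤ 3
  nz : ∃ U ∈ g.flex F, β U ≠ 0
  nz' : ∃ U ∈ g.flex F, β' U ≠ 0
  dim : 6 ≤ finrank K ((g.flex F).map
    ((L + (Matrix.transposeLinearEquiv (Fin 4) (Fin 4) K K).toLinearMap ∘ₗ L).prod (β.prod β')))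

def StP3 : Prop := ∀ G ω w i i', g.Set2 G ω w → i ∈ nb ω w → i' ∈ nb ω w → i ≠ i' →
  (nb ω i).card = 6 → (nb ω i').card = 6 →
  ∃ F B N N' c c' L β β', g.PD F w i B N N' c c' L β β'

/-- no common neighbour with a nonzero weight -/
def StP4 : Prop := g.IH → ∀ F w z B N N' c c' L β β', g.PD F w z B N N' c c' L β β' →
  (∀ u ∈ N, u ∈ N' → c u = 0 ∧ c' u = 0) → False

/-- a common neighbour with a nonzero weight -/
def StP5 : Prop := g.IH → ∀ F w z B N N' c c' L β β', g.PD F w z B N N' c c' L β β' →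
  ∀ u ∈ N, u ∈ N' → c u = 0 ∧ c' u = 0

/-! Vertices of first type. -/

/-- the stress created by joining both ends of the rod to a vertex -/
def IsGam (F : V → V → Prop) (a c x : V) (ρ : K) (Γ : V → V → K) : Prop :=
  g.Stress Γ ∧ Γ a x = 1 ∧ Γ c x = ρ ∧ On (addT F a c x) Γ

/-- the gradient of a function with respect to the position of a vertex -/
def grad (v : V) (ρ : K) : Vec K := fun k => g.d v k ρ

/-- no four neighbours other than `w` form a clique with `v` -/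
def NoK5 (G : V → V → Prop) (ω : V → V → K) (w v : V) : Prop :=
  ∀ S ⊆ (nb ω v).erase w, S.card = 4 → ¬ g.Clq G (insert v S)

def StTR : Prop := ∀ G ω w a c T ρ, g.Set1 G ω w a c T ρ → ∀ x ∈ T, ∀ x' ∈ T, x ≠ x' →
  ∀ v, v ≠ w → v ≠ a → v ≠ c → v ≠ x → v ≠ x' → ∀ Γ Γ', g.IsGam (del (adj ω) w) a c x ρ Γ →
  g.IsGam (del (adj ω) w) a c x' ρ Γ' → Γ v ≠ 0 → Γ' v ≠ 0 → ((nb ω v).erase w).card ≤ 5 →
  g.NoK5 G ω w v → ∃ (Δ : Finset V) (s s' : V), Δ.card = 3 ∧ s ≠ s' ∧ s ∉ Δ ∧ s' ∉ Δ ∧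
    (nb ω v).erase w = insert s (insert s' Δ) ∧ nb Γ v = insert s Δ ∧ nb Γ' v = insert s' Δ ∧
    g.Clq G (insert v Δ) ∧ g.grad v ρ ≠ 0 ∧ g.grad v ρ ⬝ᵥ g.p v = 0 ∧
    g.grad v ρ ⬝ᵥ g.p s = 0 ∧ g.grad v ρ ⬝ᵥ g.p s' = 0 ∧
    ∀ U ∈ g.flex (del (adj ω) w), ∀ L : Mat K, Lᵀ = -L → (∀ u ∈ insert v Δ, U u = L *ᵥ g.p u) →
      Γ v s • (U s - L *ᵥ g.p s) = -(dl g.p U c x • g.grad v ρ) ∧
      Γ' v s' • (U s' - L *ᵥ g.p s') = -(dl g.p U c x' • g.grad v ρ)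

def StPL : Prop := ∀ G ω w a c T ρ, g.Set1 G ω w a c T ρ → ∀ l, l ≠ w → l ∉ nb ω w →
  (nb ω l).card = 5 → g.grad l ρ = 0 ∧ ∀ x ∈ T, ∀ x' ∈ T, x ≠ x' → ∀ Γ Γ',
    g.IsGam (del (adj ω) w) a c x ρ Γ → g.IsGam (del (adj ω) w) a c x' ρ Γ' → Γ l = 0 ∨ Γ' l = 0

/-- a triangle vertex of degree at most six whose triangle edges are present -/
structure SetB (G : V → V → Prop) (ω : V → V → K) (w a c b d e : V) (ρ : K) (L : Finset V) :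
    Prop where
  s1 : g.Set1 G ω w a c {b, d, e} ρ
  nbb : (nb ω b).erase w = insert d (insert e L)
  dL : d ∉ L
  eL : e ∉ L
  cardL : L.card ≤ 3
  nok : g.NoK5 G ω w b

def StB1 : Prop := ∀ G ω w a c b d e ρ L, g.SetB G ω w a c b d e ρ L →
  (L.card = 3 ∧ g.Clq (addT (del (adj ω) w) a c b) (insert b (insert a (insert c L)))) ∨
  ∃ (u u' : V) (α : V → K), u ≠ u' ∧ u ∈ L ∧ u' ∉ ({a, c, b} : Finset V) ∧ g.Dep α ∧ α a = 1 ∧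
    α c = ρ ∧ (∀ y, y ∉ ({a, c, b, u, u'} : Finset V) → α y = 0) ∧
    g.Clq (addT (del (adj ω) w) a c b) {a, c, b, u, u'} ∧
    (u' ∈ L ∨ ∃ x ∈ ({d, e} : Finset V), L.card = 3 ∧
      g.Clq (addT (del (adj ω) w) a c b) (insert x (L.erase u)))

def StB2 : Prop := ∀ G ω w a c b d e ρ L, g.SetB G ω w a c b d e ρ L → g.grad b ρ = 0

def StB3 : Prop := ∀ G ω w a c b d e ρ L, g.SetB G ω w a c b d e ρ L →
  L.card = 3 ∧ g.Clq (addT (del (adj ω) w) a c b) (insert b (insert a (insert c L))) ∧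
  ∀ x ∈ ({d, e} : Finset V), ∀ Γ, g.IsGam (del (adj ω) w) a c x ρ Γ → Γ b = 0

def StB4 : Prop := ∀ G ω w a c b d e ρ L, g.SetB G ω w a c b d e ρ L →
  ∃ φ : Vec K, φ ≠ 0 ∧ (∀ l ∈ L, φ ⬝ᵥ g.p l = 0) ∧ φ ⬝ᵥ (g.p a + ρ • g.p c) = 0

def StB5 : Prop := ∀ G ω w a c T ρ, g.Set1 G ω w a c T ρ → ∀ b ∈ T, (nb ω b).card ≠ 5

def StB6 : Prop := ∀ G ω w a c T ρ, g.Set1 G ω w a c T ρ → ∀ b ∈ T, ∀ d ∈ T, b ≠ d →
  (nb ω b).card = 6 → (nb ω d).card = 6 → False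

def StA5 : Prop := ∀ G ω w a c T ρ, g.Set1 G ω w a c T ρ → (nb ω a).card ≠ 5

/-- velocities near a rod end, relative to a frame in which it is at rest -/
def eta (c : V) (gr : Vec K) (cc ee : V → K) (s : Vec K × Vec K) (u : V) : Vec K :=
  if u = c then (1 + gr ⬝ᵥ g.p c) • s.1 else cc u • s.2 + ee u • s.1

/-- a pair is rigid on the hyperplane attached to a triangle vertex -/
def Lk (c : V) (gr : Vec K) (cc ee : V → K) (W : Submodule K (Vec K × Vec K)) (x u u' : V) :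
    Prop :=
  ∀ s ∈ W, s.1 ⬝ᵥ g.p x = 0 → g.eta c gr cc ee s u ⬝ᵥ g.p u' + g.eta c gr cc ee s u' ⬝ᵥ g.p u = 0

/-- the data at a rod end of degree six -/
structure A6D (a c j₁ : V) (J T : Finset V) (ρ : K) (gr : Vec K) (cc ee : V → K)
    (W : Submodule K (Vec K × Vec K)) : Prop where
  cardJ : J.card = 4
  cardT : T.card = 3
  ac : a ≠ c
  aJ : a ∉ J
  cJ : c ∉ J
  aT : a ∉ T
  cT : c ∉ T
  disj : Disjoint J T
  rho : ρ ≠ 0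
  gra : gr ⬝ᵥ g.p a = ρ
  off : ∀ φ : Vec K, (∀ x ∈ T, φ ⬝ᵥ g.p x = 0) → φ ⬝ᵥ (g.p a + ρ • g.p c) = 0 → φ = 0
  onto : ∀ θ : Vec K, θ ⬝ᵥ g.p a = 0 → θ ⬝ᵥ g.p c = 0 → ∃ β, (θ, β) ∈ W
  perp : ∀ s ∈ W, s.1 ⬝ᵥ g.p a = 0 ∧ s.1 ⬝ᵥ g.p c = 0
  loop : ∀ s ∈ W, ∀ j ∈ J, g.eta c gr cc ee s j ⬝ᵥ g.p j = 0 ∧ g.eta c gr cc ee s j ⬝ᵥ g.p a = 0
  nok : ∃ s ∈ W, ∃ j ∈ J, g.eta c gr cc ee s j ≠ 0
  om : ∃ μ : V → K, (∀ j ∈ J, μ j ≠ 0) ∧ ∑ j ∈ J, cc j * μ j = 0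
  rows : ∀ x ∈ T, ∃ r : V → K, g.Dep r ∧ r x = 1 ∧
    (∀ u, u ∉ insert a (insert x (insert c J)) → r u = 0) ∧ ∑ j ∈ J, cc j * r j = 0 ∧
    gr ⬝ᵥ g.p x + (1 + gr ⬝ᵥ g.p c) * r c + ∑ j ∈ J, r j * ee j = 0 ∧
    ((∀ u ∈ insert c J, ∀ u' ∈ insert c J, r u ≠ 0 → r u' ≠ 0 → g.Lk c gr cc ee W x u u') ∨
      ((∀ u ∈ insert c J, r u ≠ 0) ∧ ∃ P ⊆ insert c J, P.card = 3 ∧
        (∀ u ∈ P, ∀ u' ∈ P, g.Lk c gr cc ee W x u u') ∧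
        ∀ u ∈ insert c J \ P, ∀ u' ∈ insert c J \ P, g.Lk c gr cc ee W x u u'))
  snd : ∀ j ∈ J, ∀ s ∈ W, ∀ k l,
    -((s.1 ⬝ᵥ g.p j - cc j * (s.1 ⬝ᵥ g.p j₁)) * g.d a l (gr k))
      = g.d a l (cc j) * s.2 k + g.d a k (cc j) * s.2 l
        + g.d a l (ee j - gr ⬝ᵥ g.p j) * s.1 k + g.d a k (ee j - gr ⬝ᵥ g.p j) * s.1 l

def StA61 : Prop := ∀ G ω w a c T ρ, g.Set1 G ω w a c T ρ → (nb ω a).card = 6 → c ∈ nb ω a →
  g.NoK5 G ω w a → ∃ j₁ J gr cc ee W, g.A6D a c j₁ J T ρ gr cc ee W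

def StA62 : Prop := ∀ a c j₁ J T ρ gr cc ee W, g.A6D a c j₁ J T ρ gr cc ee W →
  ∃ j ∈ J, cc j = 0

def StA63 : Prop := ∀ a c j₁ J T ρ gr cc ee W, g.A6D a c j₁ J T ρ gr cc ee W →
  (∃ j ∈ J, cc j = 0) → (∀ k, dv (g.d a k) gr = 0) ∧
    ∀ j ∈ J, ∀ k, g.d a k (cc j) = 0 ∧ g.d a k (ee j) = 0

def StA64 : Prop := ∀ a c j₁ J T ρ gr cc ee W, g.A6D a c j₁ J T ρ gr cc ee W →
  (∀ j ∈ J, ∀ k, g.d a k (cc j) = 0) → (J.filter (fun j => cc j = 0)).card ≠ 1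

def StA65 : Prop := ∀ a c j₁ J T ρ gr cc ee W, g.A6D a c j₁ J T ρ gr cc ee W →
  (∀ j ∈ J, ∀ k, g.d a k (cc j) = 0) → (J.filter (fun j => cc j = 0)).card ≠ 2

def StA6 : Prop := ∀ G ω w a c T ρ, g.Set1 G ω w a c T ρ → (nb ω a).card ≠ 6

def StCR : Prop := ∀ G ω w a c T ρ, g.Set1 G ω w a c T ρ → (nb ω a).card = 7 →
  ((nb ω a).filter (fun u => (nb ω u).card = 5)).card ≤ 4

/-! Discharging. -/

def StS7 : Prop := ∀ G ω v, g.Ctx G → g.Bad G ω → (nb ω v).card = 7 →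
  ((nb ω v).filter (fun u => (nb ω u).card = 5)).card ≤ 4

def StS5 : Prop := ∀ G ω w, g.Ctx G → g.Bad G ω → (nb ω w).card = 5 →
  4 ≤ ((nb ω w).filter (fun u => 7 ≤ (nb ω u).card)).card

/-- the dimension of the stress space of a closed graph -/
def StDim : Prop := ∀ (G : SimpleGraph V), (∀ u v, u ≠ v → g.Link G.Adj u v → G.Adj u v) →
  ∀ S : Submodule K (V → V → K), (∀ Ω, Ω ∈ S ↔ g.Stress Ω ∧ On G.Adj Ω) →
  (finrank K S : ℤ) = ∑ X ∈ Finset.univ.filter (fun X => g.MaxC G.Adj X),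
    ((X.card.choose 2 : ℤ) - (3 * (X.card : ℤ) - 6))

end Gen

end Pool.Agent.Dress
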