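import Pool.Agent.Lib.MP_d237f6_co.DR.Gam
import Pool.Agent.Lib.MP_d237f6_co.DR.Ctx1

/-! Tools for vertices of degree five, in particular of first type. -/

set_option autoImplicit false

namespace Pool.Agent.Dress

open Matrix Module

variable {K : Type} [Field K] [CharZero K]

/-- skew matrices killing two independent vectors are proportional -/
theorem skew_prop {L L' : Mat K} (hL : Lᵀ = -L) (hL' : L'ᵀ = -L') {x y z : Vec K}
    (h : LinearIndependent K ![x, y, z]) (h0 : L ≠ 0) (hx : L *ᵥ x = 0) (hy : L *ᵥ y = 0)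
    (hx' : L' *ᵥ x = 0) (hy' : L' *ᵥ y = 0) : ∃ t : K, L' = t • L := by
  have hz : L *ᵥ z ≠ 0 := fun e => h0 (skew_zero hL h hx hy e)
  obtain ⟨t, ht⟩ := normal_prop h hz (by rw [skew_dot hL, hx]; simp) (by rw [skew_dot hL, hy]; simp)
    (skew_self hL z) (f' := L' *ᵥ z) (by rw [skew_dot hL', hx']; simp)
    (by rw [skew_dot hL', hy']; simp) (skew_self hL' z)
  refine ⟨t, sub_eq_zero.1 (skew_zero (L := L' - t • L) ?_ h ?_ ?_ ?_)⟩
  · rw [transpose_sub, transpose_smul, hL, hL']; simp only [smul_neg]; abel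
  · simp [sub_mulVec, smul_mulVec, hx, hx']
  · simp [sub_mulVec, smul_mulVec, hy, hy']
  · simp [sub_mulVec, smul_mulVec, ht]

variable {V : Type} [DecidableEq V] [Fintype V]

namespace Gen

variable (g : Gen V K)

omit [CharZero K] [Fintype V] in
/-- a point of a rod and two further vertices are independent -/
theorem li_y0 {a c u u' : V} (ρ : K) (hac : a ≠ c) (hau : a ≠ u) (hau' : a ≠ u') (hcu : c ≠ u)
    (hcu' : c ≠ u') (huu : u ≠ u') : LinearIndependent K ![g.p u, g.p u', g.p a + ρ • g.p c] := by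
  rw [Fintype.linearIndependent_iff]
  intro s hs
  have := g.rel4 hac hau hau' hcu hcu' huu (s := s 2) (t := s 2 * ρ) (r := s 0) (q := s 1) (by
    rw [← hs]
    simp only [Fin.sum_univ_three, cons_val_zero, cons_val_one, cons_val, smul_add, mul_smul]
    abel)
  intro i
  fin_cases i
  · exact this.2.2.1
  · exact this.2.2.2
  · exact this.1

omit [CharZero K] in
theorem link_nb {G : V → V → Prop} {ω : V → V → K} (h : g.NK G ω) {u v : V} (hu : u ∈ nb ω v) :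
    g.Link G v u := h.2.1 v u (mem_nb.1 hu).2

omit [CharZero K] in
/-- a nonzero row has at least four neighbours -/
theorem four_le {σ : V → V → K} (h : g.Stress σ) {v : V} (hv : σ v ≠ 0) : 4 ≤ (nb σ v).card := by
  by_contra hh
  exact hv (g.row_zero h v (by omega))

/-- a stress on a graph plus one pair links the pair -/
theorem link_of_stress {F : V → V → Prop} {σ : V → V → K} (h : g.Stress σ) {s t : V}
    (hst : s ≠ t) (h1 : σ s t ≠ 0) (hon : On (fun u v => F u v ∨ (u = s ∧ v = t)) σ) :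
    g.Link F s t := by
  intro U hU
  have e := g.stress_pair h U
  rw [← Fintype.sum_prod_type', ← Finset.sum_subset (Finset.subset_univ {(s, t), (t, s)}),
    Finset.sum_pair (by simp [hst])] at e
  · simp only [h.1 t s, dl_comm _ _ t s] at e
    refine (mul_eq_zero.1 ?_).resolve_left h1
    linear_combination e / 2
  · rintro ⟨u, v⟩ - huv
    simp only [Finset.mem_insert, Prod.mk.injEq, Finset.mem_singleton, not_or] at huv
    by_cases h0 : σ u v = 0
    · simp [h0]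
    by_cases e : u = v
    · subst e; simp [g.link_refl F u U hU]
    rcases hon u v e h0 with (h | h) | (h | h)
    · simp [hU.2 u v h]
    · exact absurd h huv.1
    · simp [dl_comm _ _ u v, hU.2 v u h]
    · exact absurd h.symm huv.2

omit [CharZero K] in
/-- no clique on a vertex of degree five and four of its neighbours -/
theorem nok_of_deg5 {G : V → V → Prop} {ω : V → V → K} (hc : g.Ctx G) (hω : g.NK G ω) {v : V}
    (hv : (nb ω v).card = 5) (w : V) : g.NoK5 G ω w v := by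
  intro S hS h4 hq
  obtain ⟨s, hs⟩ : S.Nonempty := Finset.card_pos.1 (by omega)
  have hS' := hS.trans (Finset.erase_subset _ _)
  obtain ⟨ω', h1, h2, -⟩ := hc.rd ω v S s hω hS' h4 hq hs
  have := Finset.card_le_card h2
  rw [Finset.card_erase_of_mem (hS' hs)] at this
  have := hc.d5 ω' v h1.1
  omega

omit [CharZero K] in
theorem flexG_le {G : V → V → Prop} {ω : V → V → K} (hc : g.Ctx G) (hω : g.NK G ω) (w : V) :
    g.flex G ≤ g.flex (del (adj ω) w) := by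
  rw [← hc.span ω hω]
  exact g.flex_anti fun _ _ h => Or.inl h.1

omit [CharZero K] in
theorem lnk_H {G : V → V → Prop} {ω : V → V → K} (hc : g.Ctx G) (hω : g.NK G ω) {w u v : V}
    (h : g.Link (del (adj ω) w) u v) : g.Link G u v := g.link_mono (g.flexG_le hc hω w) h

omit [CharZero K] in
theorem lnk_del {G : V → V → Prop} {ω : V → V → K} (hc : g.Ctx G) (hω : g.NK G ω) {w u v : V}
    (hw : (nb ω w).card = 5) (hu : u ≠ w) (hv : v ≠ w) (h : g.Link G u v) :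
    g.Link (del (adj ω) w) u v := by
  intro U hU
  rw [hc.gw ω w hω hw] at hU
  exact hU.2 u v ⟨h, hu, hv⟩

omit [CharZero K] in
theorem clq_del {G : V → V → Prop} {ω : V → V → K} (hc : g.Ctx G) (hω : g.NK G ω) {w : V}
    (hw : (nb ω w).card = 5) {X : Finset V} (hX : w ∉ X) (h : g.Clq G X) :
    g.Clq (del (adj ω) w) X := fun x hx y hy =>
  g.lnk_del hc hω hw (fun e => hX (e ▸ hx)) (fun e => hX (e ▸ hy)) (h x hx y hy)

omit [CharZero K] in
/-- the graph without one vertex carries no stress -/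
theorem H_ind {G : V → V → Prop} {ω σ : V → V → K} (hc : g.Ctx G) (hω : g.Bad G ω) (w : V)
    (hσ : g.Stress σ) (hon : On (del (adj ω) w) σ) : σ = 0 := by
  refine hc.ind ω σ w hω hσ (fun u v huv h0 => (hon u v huv h0).imp (·.1) (·.1)) ?_
  refine Finset.eq_empty_of_forall_notMem fun u hu => ?_
  exact (hon w u (mem_nb.1 hu).1 (mem_nb.1 hu).2).elim (fun h => h.2.1 rfl) (fun h => h.2.2 rfl)

/-- links survive the removal of a second vertex of small degree -/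
theorem lnk_del2 (hLC : g.StLC) {G : V → V → Prop} {ω : V → V → K} (hc : g.Ctx G)
    (hω : g.NK G ω) {w v : V} (hw : (nb ω w).card = 5) (hN : ((nb ω v).erase w).card ≤ 5)
    (hk : g.NoK5 G ω w v) {s t : V} (hsw : s ≠ w) (htw : t ≠ w) (hsv : s ≠ v) (htv : t ≠ v)
    (h : g.Link G s t) : g.Link (del (del (adj ω) w) v) s t := by
  by_cases hst : s = t
  · rw [hst]; exact g.link_refl _ _
  by_cases ha : adj ω s t
  · exact g.link_of ⟨⟨ha, hsw, htw⟩, hsv, htv⟩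
  obtain ⟨σ, a1, a2, a3⟩ := g.link_stress hst (g.lnk_del hc hω hw hsw htw h) (fun e => ha e.1)
    (fun e => ha ⟨hst, by rw [hω.1.1]; exact e.1.2⟩)
  have hK : σ ∈ g.KK G := g.KK_mono (g.flex_le_of_link fun u v huv => huv.elim
      (fun e => g.lnk_H hc hω (g.link_of e)) (fun e => by rw [e.1, e.2]; exact h))
    (hc.ih w _ σ (fun u => ⟨fun e => e.elim (fun e => e.2.1 rfl) (fun e => hsw e.1.symm),
      fun e => e.elim (fun e => e.2.2 rfl) (fun e => htw e.2.symm)⟩) a1 a3)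
  have hs : nb σ v ⊆ (nb ω v).erase w := by
    intro u hu
    rcases a3 v u (mem_nb.1 hu).1 (mem_nb.1 hu).2 with (e | e) | (e | e)
    · exact Finset.mem_erase.2 ⟨e.2.2, mem_nb.2 e.1⟩
    · exact absurd e.1.symm hsv
    · exact Finset.mem_erase.2 ⟨e.2.1, g.nb_symm hω.1 (mem_nb.2 e.1)⟩
    · exact absurd e.2.symm htv
  have hz : σ v = 0 := by
    by_contra hv
    have h5 := (Finset.card_le_card hs).trans hN
    rcases hLC G σ v hK hv (by omega) with h1 | ⟨_, S₁, S₂, _, _, -, -, -, b1, b2, b3, b4, b5, -⟩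
    · obtain ⟨S, hS, h4⟩ := Finset.exists_subset_card_eq (g.four_le a1 hv)
      exact hk S (hS.trans hs) h4 (g.clq_sub h1 (Finset.insert_subset_insert _ hS))
    · have := Finset.card_le_card (Finset.union_subset b4 b5)
      rw [Finset.card_union_of_disjoint b1] at this
      omega
  refine g.link_of_stress a1 hst (by rw [a2]; exact one_ne_zero) fun x y hxy h0 => ?_
  have hx : x ≠ v := fun e => h0 (by rw [e, hz]; rfl)
  have hy : y ≠ v := fun e => h0 (by rw [a1.1, e, hz]; rfl)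
  rcases a3 x y hxy h0 with (e | e) | (e | e)
  · exact Or.inl (Or.inl ⟨e, hx, hy⟩)
  · exact Or.inl (Or.inr e)
  · exact Or.inr (Or.inl ⟨e, hy, hx⟩)
  · exact Or.inr (Or.inr e)

namespace Set1

variable {g} {G : V → V → Prop} {ω : V → V → K} {w a c : V} {T : Finset V} {ρ : K}
  (h : g.Set1 G ω w a c T ρ)

include h

omit [CharZero K] in
theorem deg : (nb ω w).card = 5 := by
  rw [h.nbw, Finset.card_insert_of_notMem (by simp [h.t1.ac, h.t1.aT]),
    Finset.card_insert_of_notMem h.t1.cT, h.t1.card]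

omit [CharZero K] in
theorem ax {x : V} (hx : x ∈ T) : a ≠ x := fun e => h.t1.aT (e ▸ hx)

omit [CharZero K] in
theorem cx {x : V} (hx : x ∈ T) : c ≠ x := fun e => h.t1.cT (e ▸ hx)

omit [CharZero K] in
theorem wx {x : V} (hx : x ∈ T) : w ≠ x := fun e => h.t1.wT (e ▸ hx)

omit [CharZero K] in
theorem hfl : g.flex (del (adj ω) w) = g.flex (del (g.Link G) w) := h.ctx.gw ω w h.bad.1 h.deg

omit [CharZero K] in
/-- exchanging the two ends of the rod -/
theorem swap : g.Set1 G ω w c a T ρ⁻¹ := by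
  have h0 := h.t1.rho
  refine ⟨h.ctx, h.bad, ⟨h.t1.card, h.t1.ac.symm, h.t1.cT, h.t1.aT, h.t1.wc, h.t1.wa, h.t1.wT,
    g.link_symm h.t1.lac, h.t1.lT, inv_ne_zero h0, fun U hU x hx => ?_, fun φ h1 h2 => ?_,
    fun θ h1 h2 => ?_⟩, by rw [h.nbw, Finset.insert_comm]⟩
  · have := h.t1.rel U hU x hx
    field_simp
    linear_combination this
  · refine h.t1.off φ h1 ?_
    simp only [dotProduct_add, dotProduct_smul, smul_eq_mul] at h2 ⊢
    field_simp at h2
    linear_combination h2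
  · obtain ⟨U, a1, a2, a3, a4, a5⟩ := h.t1.onto (-(ρ⁻¹ • θ)) (by simp [h2]) (by simp [h1])
    exact ⟨U, a1, a2, a3, by rw [a5]; simp [smul_smul, h0], a4⟩

omit [CharZero K] in
/-- the structure passes to another minimal stress with the same neighbours -/
theorem keep {ω' : V → V → K} (h1 : g.Bad G ω') (h2 : nb ω' w ⊆ nb ω w) :
    g.Set1 G ω' w a c T ρ :=
  ⟨h.ctx, h1, h.t1, by
    rw [← h.nbw]
    exact Finset.eq_of_subset_of_card_le h2 (by rw [h.deg]; exact h.ctx.d5 ω' w h1.1)⟩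

omit [CharZero K] in
theorem rel {U : V → Vec K} (hU : U ∈ g.flex (del (adj ω) w)) {x : V} (hx : x ∈ T) :
    dl g.p U a x + ρ * dl g.p U c x = 0 := h.t1.rel U (h.hfl ▸ hU) x hx

omit [CharZero K] in
theorem clqT : g.Clq (del (adj ω) w) T := g.clq_del h.ctx h.bad.1 h.deg h.t1.wT h.t1.lT

omit [CharZero K] in
theorem lac : g.Link (del (adj ω) w) a c :=
  g.lnk_del h.ctx h.bad.1 h.deg h.t1.wa.symm h.t1.wc.symm h.t1.lac

/-- every flex can be framed -/
theorem frame {F : V → V → Prop} (hF : g.flex F ≤ g.flex (del (adj ω) w)) {U : V → Vec K}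
    (hU : U ∈ g.flex F) : ∃ L : Mat K, Lᵀ = -L ∧ (fun x => U x - L *ᵥ g.p x) ∈ g.flex F ∧
      ∀ x ∈ T, U x - L *ᵥ g.p x = 0 := by
  obtain ⟨L, h1, h2⟩ := g.rigX T U fun x hx y hy => h.clqT x hx y hy U (hF hU)
  exact ⟨L, h1, g.sub_skew_mem hU h1, fun x hx => sub_eq_zero.2 (h2 x hx)⟩

omit [CharZero K] in
/-- the velocities of the rod in the frame of the triangle -/
theorem fr {U : V → Vec K} (hU : U ∈ g.flex (del (adj ω) w)) (h0 : ∀ x ∈ T, U x = 0) :
    U a = -(ρ • U c) ∧ U c ⬝ᵥ g.p a = 0 ∧ U c ⬝ᵥ g.p c = 0 ∧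
      ∀ x ∈ T, dl g.p U c x = U c ⬝ᵥ g.p x := by
  have e : U a + ρ • U c = 0 := by
    refine h.t1.off _ (fun x hx => ?_) ?_
    · have := h.rel hU hx
      simpa [dl, h0 x hx] using this
    · have := h.lac U hU
      simp only [dl] at this
      simp only [add_dotProduct, dotProduct_add, smul_dotProduct, dotProduct_smul, smul_eq_mul,
        hU.1 a, hU.1 c]
      linear_combination ρ * this
  have e' := eq_neg_of_add_eq_zero_left e
  refine ⟨e', ?_, hU.1 c, fun x hx => by simp [dl, h0 x hx]⟩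
  have := hU.1 a
  rw [e', neg_dotProduct, smul_dotProduct, neg_eq_zero, smul_eq_mul] at this
  exact (mul_eq_zero.1 this).resolve_left h.t1.rho

omit [CharZero K] in
theorem onto (θ : Vec K) (h1 : θ ⬝ᵥ g.p a = 0) (h2 : θ ⬝ᵥ g.p c = 0) :
    ∃ U ∈ g.flex (del (adj ω) w), U w = 0 ∧ (∀ x ∈ T, U x = 0) ∧ U c = θ ∧ U a = -(ρ • θ) := by
  rw [h.hfl]
  exact h.t1.onto θ h1 h2

omit [CharZero K] in
theorem memF {x : V} (hx : x ∈ T) {U : V → Vec K} :
    U ∈ g.flex (addT (del (adj ω) w) a c x) ↔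
      U ∈ g.flex (del (adj ω) w) ∧ dl g.p U c x = 0 := by
  refine ⟨fun hU => ⟨g.flex_anti (fun _ _ e => Or.inl (Or.inl e)) hU,
    hU.2 c x (Or.inr (Or.inr ⟨rfl, rfl⟩))⟩, fun hU => ⟨hU.1.1, fun u v huv => ?_⟩⟩
  rcases huv with e | e | e
  · exact hU.1.2 u v e
  · have := h.rel hU.1 hx
    rw [hU.2, mul_zero, add_zero] at this
    rw [e.1, e.2, this]
  · rw [e.1, e.2, hU.2]

omit [CharZero K] in
theorem F_le (x : V) : g.flex (addT (del (adj ω) w) a c x) ≤ g.flex (del (adj ω) w) :=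
  g.flex_anti fun _ _ e => Or.inl (Or.inl e)

omit [CharZero K] in
/-- framed flexes that extend to the deleted vertex -/
theorem memG {U : V → Vec K} (hU : U ∈ g.flex (del (adj ω) w)) (h0 : ∀ x ∈ T, U x = 0)
    (hw : U w = 0) (h1 : U c ⬝ᵥ g.p w = 0) : U ∈ g.flex (adj ω) := by
  have key : ∀ v ∈ nb ω w, dl g.p U w v = 0 := by
    intro v hv
    rw [h.nbw] at hv
    simp only [Finset.mem_insert] at hv
    rcases hv with rfl | rfl | hv
    · simp [dl, hw, (h.fr hU h0).1, h1]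
    · simp [dl, hw, h1]
    · simp [dl, hw, h0 v hv]
  refine ⟨hU.1, fun u v huv => ?_⟩
  by_cases e1 : u = w
  · subst e1; exact key v (mem_nb.2 huv)
  by_cases e2 : v = w
  · subst e2; rw [dl_comm]; exact key u (g.nb_symm h.bad.1.1 (mem_nb.2 huv))
  exact hU.2 u v ⟨huv, e1, e2⟩

omit [CharZero K] in
/-- framed flexes of the whole graph -/
theorem frG {U : V → Vec K} (hU : U ∈ g.flex (adj ω)) (h0 : ∀ x ∈ T, U x = 0) :
    U w = 0 ∧ U c ⬝ᵥ g.p w = 0 := by
  have hH : U ∈ g.flex (del (adj ω) w) := g.flex_anti (fun _ _ e => Or.inl e.1) hU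
  have key : ∀ v ∈ insert a (insert c T), dl g.p U w v = 0 := fun v hv =>
    hU.2 w v (mem_nb.1 (h.nbw ▸ hv))
  have k1 := key a (by simp)
  have k2 := key c (by simp)
  have e : U w = 0 := by
    refine h.t1.off _ (fun x hx => ?_) ?_
    · simpa [dl, h0 x hx] using key x (by simp [hx])
    · simp only [dl, (h.fr hH h0).1, neg_dotProduct, smul_dotProduct, smul_eq_mul] at k1 k2
      simp only [dotProduct_add, dotProduct_smul, smul_eq_mul]
      linear_combination k1 + ρ * k2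
  exact ⟨e, by simpa [dl, e] using k2⟩

omit [CharZero K] in
/-- a framed flex whose rod velocity is normal to a prescribed third vertex -/
theorem exN {y : V} (hay : a ≠ y) (hcy : c ≠ y) :
    ∃ U ∈ g.flex (del (adj ω) w), U w = 0 ∧ (∀ x ∈ T, U x = 0) ∧ U c ≠ 0 ∧ U c ⬝ᵥ g.p y = 0 ∧
      ∀ z, z ≠ a → z ≠ c → z ≠ y → U c ⬝ᵥ g.p z ≠ 0 := by
  obtain ⟨θ, h0, h1, h2, h3⟩ := exists_normal (g.p a) (g.p c) (g.p y)
  obtain ⟨U, a1, a2, a3, a4, -⟩ := h.onto θ h1 h2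
  refine ⟨U, a1, a2, a3, a4 ▸ h0, a4 ▸ h3, fun z e1 e2 e3 e => h0 ?_⟩
  exact g.cov4 h.t1.ac hay e1.symm hcy e2.symm e3.symm h1 h2 h3 (a4 ▸ e)

omit [CharZero K] in
/-- the same as a flex of the graph with the rod joined to a triangle vertex -/
theorem exF {x : V} (hx : x ∈ T) :
    ∃ U ∈ g.flex (addT (del (adj ω) w) a c x), U w = 0 ∧ (∀ x ∈ T, U x = 0) ∧ U c ≠ 0 ∧
      U c ⬝ᵥ g.p x = 0 ∧ ∀ z, z ≠ a → z ≠ c → z ≠ x → U c ⬝ᵥ g.p z ≠ 0 := by
  obtain ⟨U, a1, a2, a3, a4, a5, a6⟩ := h.exN (h.ax hx) (h.cx hx)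
  exact ⟨U, (h.memF hx).2 ⟨a1, by rw [(h.fr a1 a3).2.2.2 x hx, a5]⟩, a2, a3, a4, a5, a6⟩

omit [CharZero K] in
/-- the same as a flex of the whole graph -/
theorem exG : ∃ U ∈ g.flex (adj ω), U w = 0 ∧ (∀ x ∈ T, U x = 0) ∧ U c ≠ 0 ∧
      U c ⬝ᵥ g.p w = 0 ∧ ∀ z, z ≠ a → z ≠ c → z ≠ w → U c ⬝ᵥ g.p z ≠ 0 := by
  obtain ⟨U, a1, a2, a3, a4, a5, a6⟩ := h.exN h.t1.wa.symm h.t1.wc.symm
  exact ⟨U, h.memG a1 a3 a2 a5, a2, a3, a4, a5, a6⟩

omit [CharZero K] in
/-- splitting a flex -/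
theorem split {x x' : V} (hx : x ∈ T) (hx' : x' ∈ T) (hne : x ≠ x') {U : V → Vec K}
    (hU : U ∈ g.flex (del (adj ω) w)) : ∃ U₁ ∈ g.flex (addT (del (adj ω) w) a c x),
      ∃ U₂ ∈ g.flex (addT (del (adj ω) w) a c x'), U = U₁ + U₂ ∧ ∀ y ∈ T, U₁ y = 0 := by
  obtain ⟨U₁, a1, -, a3, -, -, a6⟩ := h.exF hx
  have b1 := h.F_le x a1
  have b2 : dl g.p U₁ c x' ≠ 0 := by
    rw [(h.fr b1 a3).2.2.2 x' hx']
    exact a6 x' (h.ax hx').symm (h.cx hx').symm hne.symm
  refine ⟨(dl g.p U c x' / dl g.p U₁ c x') • U₁, Submodule.smul_mem _ _ a1,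
    U - (dl g.p U c x' / dl g.p U₁ c x') • U₁, (h.memF hx').2
      ⟨Submodule.sub_mem _ hU (Submodule.smul_mem _ _ b1), ?_⟩, by abel,
    fun y hy => by simp [a3 y hy]⟩
  rw [dl_sub, dl_smul, div_mul_cancel₀ _ b2, sub_self]

omit [CharZero K] in
theorem link2 {x x' : V} (hx : x ∈ T) (hx' : x' ∈ T) (hne : x ≠ x') {u v : V}
    (h1 : g.Link (addT (del (adj ω) w) a c x) u v)
    (h2 : g.Link (addT (del (adj ω) w) a c x') u v) : g.Link (del (adj ω) w) u v := by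
  intro U hU
  obtain ⟨U₁, a1, U₂, a2, rfl, -⟩ := h.split hx hx' hne hU
  rw [dl_add, h1 _ a1, h2 _ a2, add_zero]

omit [CharZero K] in
theorem link2G {x x' : V} (hx : x ∈ T) (hx' : x' ∈ T) (hne : x ≠ x') {u v : V}
    (h1 : g.Link (addT (del (adj ω) w) a c x) u v)
    (h2 : g.Link (addT (del (adj ω) w) a c x') u v) : g.Link G u v :=
  g.lnk_H h.ctx h.bad.1 (h.link2 hx hx' hne h1 h2)

omit [CharZero K] in
/-- the rod is not linked to the triangle -/
theorem nlG {x : V} (hx : x ∈ T) : ¬ g.Link G a x ∧ ¬ g.Link G c x := by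
  obtain ⟨U, a1, -, a3, -, -, a6⟩ := h.exG
  have hH : U ∈ g.flex (del (adj ω) w) := g.flex_anti (fun _ _ e => Or.inl e.1) a1
  have b2 : dl g.p U c x ≠ 0 := by
    rw [(h.fr hH a3).2.2.2 x hx]
    exact a6 x (h.ax hx).symm (h.cx hx).symm (h.wx hx).symm
  rw [h.ctx.span ω h.bad.1] at a1
  refine ⟨fun e => b2 ?_, fun e => b2 (e U a1)⟩
  have := h.rel hH hx
  rw [e U a1, zero_add] at this
  exact (mul_eq_zero.1 this).resolve_left h.t1.rho

omit [CharZero K] in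
theorem nlF {x x' : V} (hx : x ∈ T) (hx' : x' ∈ T) (hne : x ≠ x') :
    ¬ g.Link (addT (del (adj ω) w) a c x) a x' ∧ ¬ g.Link (addT (del (adj ω) w) a c x) c x' := by
  obtain ⟨U, a1, -, a3, -, -, a6⟩ := h.exF hx
  have hH := h.F_le x a1
  have b2 : dl g.p U c x' ≠ 0 := by
    rw [(h.fr hH a3).2.2.2 x' hx']
    exact a6 x' (h.ax hx').symm (h.cx hx').symm hne.symm
  refine ⟨fun e => b2 ?_, fun e => b2 (e U a1)⟩
  have := h.rel hH hx'
  rw [e U a1, zero_add] at this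
  exact (mul_eq_zero.1 this).resolve_left h.t1.rho

omit [CharZero K] in
/-- the triangle is not among the neighbours of the rod ends -/
theorem nnb {x : V} (hx : x ∈ T) : x ∉ nb ω a ∧ x ∉ nb ω c ∧ a ∉ nb ω x ∧ c ∉ nb ω x :=
  ⟨fun e => (h.nlG hx).1 (g.link_nb h.bad.1 e), fun e => (h.nlG hx).2 (g.link_nb h.bad.1 e),
    fun e => (h.nlG hx).1 (g.link_symm (g.link_nb h.bad.1 e)),
    fun e => (h.nlG hx).2 (g.link_symm (g.link_nb h.bad.1 e))⟩

omit [CharZero K] in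
/-- two flexes with independent classes -/
theorem det {x x' : V} (hx : x ∈ T) (hx' : x' ∈ T) (hne : x ≠ x') :
    ∃ U₁ ∈ g.flex (del (adj ω) w), ∃ U₂ ∈ g.flex (del (adj ω) w),
      dl g.p U₁ c x * dl g.p U₂ c x' ≠ dl g.p U₁ c x' * dl g.p U₂ c x := by
  obtain ⟨U₁, a1, -, a3, -, a5, a6⟩ := h.exN (h.ax hx') (h.cx hx')
  obtain ⟨U₂, b1, -, b3, -, -, b6⟩ := h.exN (h.ax hx) (h.cx hx)
  refine ⟨U₁, a1, U₂, b1, ?_⟩
  rw [(h.fr a1 a3).2.2.2 x hx, (h.fr a1 a3).2.2.2 x' hx', (h.fr b1 b3).2.2.2 x' hx', a5, zero_mul]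
  exact mul_ne_zero (a6 x (h.ax hx).symm (h.cx hx).symm hne)
    (b6 x' (h.ax hx').symm (h.cx hx').symm hne.symm)

theorem gam {x : V} (hx : x ∈ T) : ∃ Γ, g.IsGam (del (adj ω) w) a c x ρ Γ :=
  g.exists_gam h.t1.ac (h.ax hx) (h.cx hx) (fun e => (h.nlG hx).1 (g.lnk_H h.ctx h.bad.1 e))
    (fun e => (h.nlG hx).2 (g.lnk_H h.ctx h.bad.1 e)) fun _ hU => h.rel hU hx

omit [CharZero K] in
theorem isolF {x : V} (hx : x ∈ T) : Isol (addT (del (adj ω) w) a c x) w := fun _ =>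
  ⟨fun e => e.elim (fun e => e.2.1 rfl) fun e => e.elim (fun e => h.t1.wa e.1) fun e => h.t1.wc e.1,
    fun e => e.elim (fun e => e.2.2 rfl) fun e => e.elim (fun e => h.wx hx e.2)
      fun e => h.wx hx e.2⟩

omit [CharZero K] in
theorem gamK {x : V} (hx : x ∈ T) {Γ : V → V → K} (hΓ : g.IsGam (del (adj ω) w) a c x ρ Γ) :
    Γ ∈ g.KK (addT (del (adj ω) w) a c x) := h.ctx.ih w _ Γ (h.isolF hx) hΓ.1 hΓ.2.2.2

/-- the row identity -/
theorem row {x : V} (hx : x ∈ T) {Γ : V → V → K} (hΓ : g.IsGam (del (adj ω) w) a c x ρ Γ)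
    {U : V → Vec K} (hU : U ∈ g.flex (del (adj ω) w)) (v : V) :
    ∑ u, Γ v u • U u = -(dl g.p U c x • g.grad v ρ) :=
  g.gam_row h.t1.ac (h.ax hx) (h.cx hx) hΓ hU v

/-- a zero row forces a zero gradient -/
theorem grad_zero {x : V} (hx : x ∈ T) {Γ : V → V → K} (hΓ : g.IsGam (del (adj ω) w) a c x ρ Γ)
    {v : V} (hv : Γ v = 0) : g.grad v ρ = 0 := by
  obtain ⟨U, a1, -, a3, -, -, a6⟩ := h.exN h.t1.wa.symm h.t1.wc.symm
  have := h.row hx hΓ a1 v
  simp only [hv, Pi.zero_apply, zero_smul, Finset.sum_const_zero] at this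
  rw [(h.fr a1 a3).2.2.2 x hx, eq_comm, neg_eq_zero] at this
  exact (smul_eq_zero.1 this).resolve_left (a6 x (h.ax hx).symm (h.cx hx).symm (h.wx hx).symm)

omit [CharZero K] in
/-- the support of a row of the stress -/
theorem nb_gam {x : V} {Γ : V → V → K} (hΓ : g.IsGam (del (adj ω) w) a c x ρ Γ) {v u : V}
    (hu : u ∈ nb Γ v) : u ∈ (nb ω v).erase w ∨ ((v = a ∨ v = c) ∧ u = x) ∨
      (v = x ∧ (u = a ∨ u = c)) := by
  rcases hΓ.2.2.2 v u (mem_nb.1 hu).1 (mem_nb.1 hu).2 with (e | e | e) | (e | e | e)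
  · exact Or.inl (Finset.mem_erase.2 ⟨e.2.2, mem_nb.2 e.1⟩)
  · exact Or.inr (Or.inl ⟨Or.inl e.1, e.2⟩)
  · exact Or.inr (Or.inl ⟨Or.inr e.1, e.2⟩)
  · exact Or.inl (Finset.mem_erase.2 ⟨e.2.1, g.nb_symm h.bad.1.1 (mem_nb.2 e.1)⟩)
  · exact Or.inr (Or.inr ⟨e.2, Or.inl e.1⟩)
  · exact Or.inr (Or.inr ⟨e.2, Or.inr e.1⟩)

omit [CharZero K] in
/-- two independent vectors in the plane of the triangle and the turning point -/
theorem li_off {x y : Vec K} (hxy : LinearIndependent K ![x, y])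
    (hx : ∀ φ : Vec K, (∀ t ∈ T, φ ⬝ᵥ g.p t = 0) → φ ⬝ᵥ x = 0)
    (hy : ∀ φ : Vec K, (∀ t ∈ T, φ ⬝ᵥ g.p t = 0) → φ ⬝ᵥ y = 0) :
    LinearIndependent K ![x, y, g.p a + ρ • g.p c] := by
  obtain ⟨b, d, e, -, -, -, rfl⟩ := Finset.card_eq_three.1 h.t1.card
  obtain ⟨φ, h0, h1, h2, h3⟩ := exists_normal (g.p b) (g.p d) (g.p e)
  have hT : ∀ t ∈ ({b, d, e} : Finset V), φ ⬝ᵥ g.p t = 0 := by simp [h1, h2, h3]
  rw [Fintype.linearIndependent_iff]
  intro s hs
  simp only [Fin.sum_univ_three, cons_val_zero, cons_val_one, cons_val] at hs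
  have e2 : s 2 = 0 := by
    have := congrArg (fun m => φ ⬝ᵥ m) hs
    simp only [dotProduct_add (φ) (s 0 • x + s 1 • y), dotProduct_add φ (s 0 • x), dotProduct_smul,
      hx φ hT, hy φ hT, smul_eq_mul, mul_zero, zero_add, dotProduct_zero] at this
    exact (mul_eq_zero.1 this).resolve_right fun e => h0 (h.t1.off φ hT e)
  rw [e2, zero_smul, add_zero] at hs
  have := Fintype.linearIndependent_iff.1 hxy ![s 0, s 1] (by simpa [Fin.sum_univ_two] using hs)
  intro i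
  fin_cases i
  · exact this 0
  · exact this 1
  · exact e2

omit [CharZero K] in
theorem li_T {x x' : V} (hx : x ∈ T) (hx' : x' ∈ T) (hne : x ≠ x') :
    LinearIndependent K ![g.p x, g.p x', g.p a + ρ • g.p c] :=
  g.li_y0 ρ h.t1.ac (h.ax hx) (h.ax hx') (h.cx hx) (h.cx hx') hne

/-- a rigid set containing the rod and two vertices at rest is at rest -/
theorem rod {U : V → Vec K} (hU : U ∈ g.flex (del (adj ω) w)) (h0 : ∀ x ∈ T, U x = 0)
    {L : Mat K} (hL : Lᵀ = -L) (ha : U a = L *ᵥ g.p a) (hc : U c = L *ᵥ g.p c) :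
    L *ᵥ (g.p a + ρ • g.p c) = 0 ∧ ∀ u u', a ≠ u → a ≠ u' → c ≠ u → c ≠ u' → u ≠ u' →
      L *ᵥ g.p u = 0 → L *ᵥ g.p u' = 0 → U c = 0 := by
  have e : L *ᵥ (g.p a + ρ • g.p c) = 0 := by
    rw [mulVec_add, mulVec_smul, ← ha, ← hc, (h.fr hU h0).1, neg_add_cancel]
  refine ⟨e, fun u u' b1 b2 b3 b4 b5 b6 b7 => ?_⟩
  rw [hc, skew_zero hL (g.li_y0 ρ h.t1.ac b1 b2 b3 b4 b5) b6 b7 e, zero_mulVec]

end Set1

end Gen

end Pool.Agent.Dress
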